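import Pool.Agent.Helper18.WK.AbsB

/-!
# Project WK, blocks WK-A1 (hitting and staying), WK-A2 (persistence), for abstract kernels of heights

`p x z` is a sub-Markov kernel on `ℤ`. WK-A1: the first five theorems (inductions on `k`).
`hit_le`: `Hit p R k x ≤ ψ x / R` by induction: if `R ≤ |x|` then `1 ≤ ψ x / R`; else
`∑ p x z (ψ z / R) ≤ ψ x / R`. `al_le`: induction. `it_add`: induction on `n`. `it_pow` from `it_add` with
`Al ≤ 1`. WK-A2, `persist`: let `D` be large. For `N ≥ 4`, `n = N / 4`, `R = ⌊√(3 n / (2 C))⌋` (`R ≥ 1` if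
`n ≥ C`; for `N < 8 C` use `Al ≤ 1` and `ψ x ≥ 1/2..`, see hypothesis `hψ1`):
`Al p N x ≤ Al p (4 n) x ≤ Hit p R (4 n) x + It p R (4 n) x ≤ ψ x / R + Al p n x * sup It p R (3 n)`, and
`sup It p R (3 n) ≤ 1 / 4` as `3 n ≥ 2 C R²`. So with `Al p n x ≤ D ψ x / √n` (strong induction),
`n ≥ N / 8`: `Al p N x ≤ ψ x (c₁ / √N + D √8 / (4 √N)) ≤ D ψ x / √N`.
-/

open scoped ENNReal

namespace Pool.Agent.Helper18.WK

variable {p : ℤ → ℤ → ℝ≥0∞}

private theorem persist_real_h12 {C R n N : ℕ} (hC : 1 ≤ C) (hR : 1 ≤ R) (hn : 1 ≤ n) (hN : N < 4 * n + 4)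
    (hR2 : 3 * n < 2 * C * (R + 1) ^ 2) (hN0 : 1 ≤ N) :
    1 / (R : ℝ) + 1 / 4 * (20 * C / Real.sqrt n) ≤ 20 * C / Real.sqrt N := by
  have hC' : (1 : ℝ) ≤ C := by exact_mod_cast hC
  have hR' : (1 : ℝ) ≤ R := by exact_mod_cast hR
  have hn' : (1 : ℝ) ≤ n := by exact_mod_cast hn
  have hN' : (1 : ℝ) ≤ N := by exact_mod_cast hN0
  have hN4 : (N : ℝ) ≤ 8 * n := by
    have : N ≤ 8 * n := by omega
    exact_mod_cast this
  have hR3 : (3 * n : ℝ) < 2 * C * (R + 1) ^ 2 := by exact_mod_cast hR2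
  set s := Real.sqrt N with hs
  set t := Real.sqrt n with ht
  have hs2 : s ^ 2 = N := Real.sq_sqrt (by linarith)
  have ht2 : t ^ 2 = n := Real.sq_sqrt (by linarith)
  have hs0 : 0 < s := Real.sqrt_pos.2 (by linarith)
  have ht0 : 0 < t := Real.sqrt_pos.2 (by linarith)
  have h1 : s ≤ 2.83 * t := by
    refine (sq_le_sq₀ hs0.le (by positivity)).1 ?_
    nlinarith
  have h2 : s ≤ 5 * C * R := by
    refine (sq_le_sq₀ hs0.le (by positivity)).1 ?_
    have h3 : ((R : ℝ) + 1) ^ 2 ≤ 4 * R ^ 2 := by nlinarith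
    have h4 : (3 * n : ℝ) ≤ 8 * C * R ^ 2 := by
      have := mul_le_mul_of_nonneg_left h3 (show (0 : ℝ) ≤ 2 * C by linarith)
      linarith
    have h5 : (C : ℝ) * R ^ 2 ≤ C ^ 2 * R ^ 2 := by
      have : (C : ℝ) ≤ C ^ 2 := by nlinarith
      exact mul_le_mul_of_nonneg_right this (by positivity)
    calc s ^ 2 = N := hs2
      _ ≤ 8 * n := hN4
      _ ≤ 8 / 3 * (8 * C * R ^ 2) := by linarith
      _ = 64 / 3 * (C * R ^ 2) := by ring
      _ ≤ 64 / 3 * (C ^ 2 * R ^ 2) := by linarith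
      _ ≤ 25 * (C ^ 2 * R ^ 2) := by
          have : (0 : ℝ) ≤ C ^ 2 * R ^ 2 := by positivity
          linarith
      _ = (5 * C * R) ^ 2 := by ring
  have h6 : 1 / (R : ℝ) ≤ 5 * C / s := by
    rw [div_le_div_iff₀ (by linarith) hs0]
    linarith
  have h7 : 1 / 4 * (20 * C / t) ≤ 14.15 * C / s := by
    have : 1 / 4 * (20 * C / t) = 5 * C / t := by ring
    rw [this, div_le_div_iff₀ ht0 hs0]
    nlinarith
  calc 1 / (R : ℝ) + 1 / 4 * (20 * C / t) ≤ 5 * C / s + 14.15 * C / s := add_le_add h6 h7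
    _ = 19.15 * C / s := by ring
    _ ≤ 20 * C / s := by
        apply div_le_div_of_nonneg_right _ hs0.le
        linarith

private theorem persist_enn_h12 (u : ℝ≥0∞) {d R n : ℝ} (hd : 0 ≤ d) (hR : 0 < R) (hn : 0 < n) :
    u / ENNReal.ofReal R + 1 / 4 * (ENNReal.ofReal d * u / ENNReal.ofReal n) =
      u * ENNReal.ofReal (1 / R + 1 / 4 * (d / n)) := by
  rw [ENNReal.ofReal_add (by positivity) (by positivity), ENNReal.ofReal_mul (by norm_num),
    ENNReal.ofReal_div_of_pos hn, ENNReal.ofReal_div_of_pos hR, ENNReal.ofReal_one, mul_add]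
  congr 1
  · rw [div_eq_mul_inv, div_eq_mul_inv, one_mul]
  · have h4 : ENNReal.ofReal (1 / 4) = 1 / 4 := by
      rw [ENNReal.ofReal_div_of_pos (by norm_num)]
      norm_num
    rw [h4]
    simp only [div_eq_mul_inv]
    ring

/-- **Persistence.** -/
theorem persist (A C : ℕ) (hC : 1 ≤ C) : ∃ D : ℝ≥0∞, D ≠ ⊤ ∧ ∀ (p : ℤ → ℤ → ℝ≥0∞) (ψ : ℤ → ℝ≥0∞),
    (∀ x, ∑' z, p x z ≤ 1) → (∀ x, ∑' z, p x z * ψ z ≤ ψ x) →
    (∀ z : ℤ, (z.natAbs : ℝ≥0∞) ≤ ψ z) → (∀ z : ℤ, ψ z ≤ (z.natAbs : ℝ≥0∞) + A) → (∀ z, 1 ≤ ψ z) →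
    (∀ (R : ℕ), 1 ≤ R → ∀ x, It p R (C * R ^ 2) x ≤ 1 / 2) →
    ∀ (k : ℕ), 1 ≤ k → ∀ x, Al p k x ≤ D * ψ x / ENNReal.ofReal (Real.sqrt k) := by
  have hC' : (1 : ℝ) ≤ C := by exact_mod_cast hC
  refine ⟨ENNReal.ofReal (20 * C), ENNReal.ofReal_ne_top, ?_⟩
  intro p ψ hp hψ hψ1 hψ2 hψ3 hIt k
  induction k using Nat.strong_induction_on with
  | _ N ih =>
    intro hN x
    have hN' : (1 : ℝ) ≤ N := by exact_mod_cast hN
    have hsN : 0 < Real.sqrt N := Real.sqrt_pos.2 (by linarith)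
    by_cases hsmall : N < 8 * C
    · refine (al_le_one hp N x).trans ?_
      rw [ENNReal.le_div_iff_mul_le (Or.inl (ENNReal.ofReal_pos.2 hsN).ne')
        (Or.inl ENNReal.ofReal_ne_top), one_mul]
      calc ENNReal.ofReal (Real.sqrt N) ≤ ENNReal.ofReal (20 * C) := by
            apply ENNReal.ofReal_le_ofReal
            rw [Real.sqrt_le_left (by positivity)]
            have h1 : (N : ℝ) < 8 * C := by exact_mod_cast hsmall
            nlinarith
        _ = ENNReal.ofReal (20 * C) * 1 := (mul_one _).symm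
        _ ≤ ENNReal.ofReal (20 * C) * ψ x := by gcongr; exact hψ3 x
    · push Not at hsmall
      obtain ⟨n, hn⟩ : ∃ n, n = N / 4 := ⟨_, rfl⟩
      obtain ⟨R, hRdef⟩ : ∃ R, R = Nat.sqrt (3 * n / (2 * C)) := ⟨_, rfl⟩
      have hn4 : 4 * n ≤ N := by omega
      have hn5 : N < 4 * n + 4 := by omega
      have hn2C : 2 * C ≤ n := by omega
      have hn1 : 1 ≤ n := by omega
      have hRle : 2 * C * R ^ 2 ≤ 3 * n := by
        have h1 : R ^ 2 ≤ 3 * n / (2 * C) := by rw [hRdef]; exact Nat.sqrt_le' _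
        calc 2 * C * R ^ 2 ≤ 2 * C * (3 * n / (2 * C)) := by gcongr
          _ ≤ 3 * n := Nat.mul_div_le _ _
      have hR1 : 1 ≤ R := by
        rw [hRdef, Nat.le_sqrt']
        rw [Nat.le_div_iff_mul_le (by omega), one_pow, one_mul]
        omega
      have hRlt : 3 * n < 2 * C * (R + 1) ^ 2 := by
        have h1 : 3 * n / (2 * C) < (R + 1) ^ 2 := by rw [hRdef]; exact Nat.lt_succ_sqrt' _
        rw [Nat.div_lt_iff_lt_mul (by omega)] at h1
        linarith
      have hc : ∀ z, It p R (3 * n) z ≤ 1 / 4 := by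
        intro z
        have h1 : 2 * (C * R ^ 2) ≤ 3 * n := by linarith
        refine (it_mono_steps hp R h1 z).trans ?_
        refine (it_pow hp R (C * R ^ 2) (1 / 2) (hIt R hR1) 2 z).trans ?_
        rw [one_div, one_div, ← ENNReal.inv_pow]
        norm_num
      have hψR : ∀ z : ℤ, (R : ℤ) ≤ |z| → (R : ℝ≥0∞) ≤ ψ z := by
        intro z hz
        refine le_trans ?_ (hψ1 z)
        have : R ≤ z.natAbs := by
          rw [Int.abs_eq_natAbs] at hz
          exact_mod_cast hz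
        exact_mod_cast this
      have h1 : Al p N x ≤ ψ x / R + 1 / 4 * Al p n x := by
        refine (al_antitone hp hn4 x).trans ((al_le hp R (4 * n) x).trans ?_)
        refine add_le_add (hit_le hψ hR1 hψR _ x) ?_
        have h2 : 4 * n = n + 3 * n := by ring
        rw [h2]
        exact it_add R n (3 * n) _ hc x
      have h2 := ih n (by omega) hn1 x
      have hsn : 0 < Real.sqrt n := Real.sqrt_pos.2 (by exact_mod_cast hn1)
      have hR' : (0 : ℝ) < R := by exact_mod_cast hR1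
      have hkey := persist_real_h12 hC hR1 hn1 hn5 hRlt hN
      calc Al p N x ≤ ψ x / R + 1 / 4 * (ENNReal.ofReal (20 * C) * ψ x / ENNReal.ofReal (Real.sqrt n)) := by
            refine h1.trans ?_
            gcongr
        _ = ψ x * ENNReal.ofReal (1 / R + 1 / 4 * (20 * C / Real.sqrt n)) := by
            rw [← persist_enn_h12 (ψ x) (by positivity) hR' hsn, ENNReal.ofReal_natCast]
        _ ≤ ψ x * ENNReal.ofReal (20 * C / Real.sqrt N) := by
            gcongr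
        _ = ENNReal.ofReal (20 * C) * ψ x / ENNReal.ofReal (Real.sqrt N) := by
            rw [ENNReal.ofReal_div_of_pos hsN, div_eq_mul_inv, div_eq_mul_inv]
            ring

end Pool.Agent.Helper18.WK
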