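import Pool.Agent.Helper18.WK.Defs

/-!
# Project WK, block WK-A1 (hitting and staying), for abstract kernels of heights

Inductions on the number of steps. `hit_le`: if `R ≤ |x|` then `1 ≤ ψ x / R`; else
`∑ p x z (ψ z / R) ≤ ψ x / R`. `it_pow` uses the sharper form `it_add_it` of `it_add`.
-/

open scoped ENNReal

namespace Pool.Agent.Helper18.WK

variable {p : ℤ → ℤ → ℝ≥0∞}

theorem al_le_one (hp : ∀ x, ∑' z, p x z ≤ 1) (k : ℕ) (x : ℤ) : Al p k x ≤ 1 := by
  induction k generalizing x with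
  | zero => exact le_rfl
  | succ k ih =>
    calc Al p (k + 1) x = ∑' z : ℤ, p x z * Al p k z := rfl
      _ ≤ ∑' z : ℤ, p x z * 1 := ENNReal.tsum_le_tsum fun z => mul_le_mul_right (ih z) _
      _ ≤ 1 := by simpa using hp x

theorem al_succ_le (hp : ∀ x, ∑' z, p x z ≤ 1) (k : ℕ) (x : ℤ) : Al p (k + 1) x ≤ Al p k x := by
  induction k generalizing x with
  | zero => exact al_le_one hp 1 x
  | succ k ih => exact ENNReal.tsum_le_tsum fun z => mul_le_mul_right (ih z) _

theorem al_antitone (hp : ∀ x, ∑' z, p x z ≤ 1) {k m : ℕ} (h : k ≤ m) (x : ℤ) :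
    Al p m x ≤ Al p k x := by
  induction m, h using Nat.le_induction with
  | base => exact le_rfl
  | succ m _ ih => exact (al_succ_le hp m x).trans ih

theorem hit_le {ψ : ℤ → ℝ≥0∞} (hψ : ∀ x, ∑' z, p x z * ψ z ≤ ψ x) {R : ℕ} (hR : 1 ≤ R)
    (hψR : ∀ z : ℤ, (R : ℤ) ≤ |z| → (R : ℝ≥0∞) ≤ ψ z) (k : ℕ) (x : ℤ) :
    Hit p R k x ≤ ψ x / R := by
  have hR0 : (R : ℝ≥0∞) ≠ 0 := by
    have : R ≠ 0 := by omega
    exact_mod_cast this
  have hRt : (R : ℝ≥0∞) ≠ ⊤ := ENNReal.natCast_ne_top R
  have key : ∀ x : ℤ, (R : ℤ) ≤ |x| → (1 : ℝ≥0∞) ≤ ψ x / R := by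
    intro x hx
    rw [ENNReal.le_div_iff_mul_le (Or.inl hR0) (Or.inl hRt), one_mul]
    exact hψR x hx
  induction k generalizing x with
  | zero =>
    show (if (R : ℤ) ≤ |x| then (1 : ℝ≥0∞) else 0) ≤ _
    split_ifs with h
    · exact key x h
    · exact zero_le
  | succ k ih =>
    show (if (R : ℤ) ≤ |x| then (1 : ℝ≥0∞) else ∑' z : ℤ, p x z * Hit p R k z) ≤ _
    split_ifs with h
    · exact key x h
    · calc ∑' z : ℤ, p x z * Hit p R k z ≤ ∑' z : ℤ, (p x z * ψ z) * (R : ℝ≥0∞)⁻¹ := by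
            refine ENNReal.tsum_le_tsum fun z => ?_
            rw [mul_assoc, ← div_eq_mul_inv]
            exact mul_le_mul_right (ih z) _
        _ = (∑' z : ℤ, p x z * ψ z) * (R : ℝ≥0∞)⁻¹ := ENNReal.tsum_mul_right
        _ ≤ ψ x / R := by
            rw [div_eq_mul_inv]
            exact mul_le_mul_left (hψ x) _

theorem al_le (hp : ∀ x, ∑' z, p x z ≤ 1) (R k : ℕ) (x : ℤ) :
    Al p k x ≤ Hit p R k x + It p R k x := by
  induction k generalizing x with
  | zero => exact le_add_self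
  | succ k ih =>
    by_cases h : (R : ℤ) ≤ |x|
    · have : Hit p R (k + 1) x = 1 := if_pos h
      rw [this]
      exact (al_le_one hp (k + 1) x).trans le_self_add
    · have h1 : Hit p R (k + 1) x = ∑' z : ℤ, p x z * Hit p R k z := if_neg h
      rw [h1]
      show ∑' z : ℤ, p x z * Al p k z ≤ _ + ∑' z : ℤ, p x z * (if |z| < (R : ℤ) then It p R k z else 0)
      rw [← ENNReal.tsum_add]
      refine ENNReal.tsum_le_tsum fun z => ?_
      rw [← mul_add]
      refine mul_le_mul_right ?_ _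
      by_cases hz : |z| < (R : ℤ)
      · rw [if_pos hz]
        exact ih z
      · rw [if_neg hz, add_zero]
        have hz' : (R : ℤ) ≤ |z| := not_lt.1 hz
        have : Hit p R k z = 1 := by
          cases k with
          | zero => exact if_pos hz'
          | succ k => exact if_pos hz'
        rw [this]
        exact al_le_one hp k z

/-- Sharper form of `it_add`. -/
theorem it_add_it (R n m : ℕ) (c : ℝ≥0∞) (hc : ∀ z, It p R m z ≤ c) (x : ℤ) :
    It p R (n + m) x ≤ c * It p R n x := by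
  induction n generalizing x with
  | zero =>
    rw [Nat.zero_add]
    show _ ≤ c * 1
    rw [mul_one]
    exact hc x
  | succ n ih =>
    have e : n + 1 + m = (n + m) + 1 := by omega
    rw [e]
    show ∑' z : ℤ, p x z * (if |z| < (R : ℤ) then It p R (n + m) z else 0)
      ≤ c * ∑' z : ℤ, p x z * (if |z| < (R : ℤ) then It p R n z else 0)
    rw [← ENNReal.tsum_mul_left]
    refine ENNReal.tsum_le_tsum fun z => ?_
    rw [mul_left_comm]
    refine mul_le_mul_right ?_ _
    split_ifs with h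
    · exact ih z
    · exact zero_le

theorem it_le_al (R k : ℕ) (x : ℤ) : It p R k x ≤ Al p k x := by
  induction k generalizing x with
  | zero => exact le_rfl
  | succ k ih =>
    refine ENNReal.tsum_le_tsum fun z => mul_le_mul_right ?_ _
    split_ifs with h
    · exact ih z
    · exact zero_le

theorem it_add (R n m : ℕ) (c : ℝ≥0∞) (hc : ∀ z, It p R m z ≤ c) (x : ℤ) :
    It p R (n + m) x ≤ c * Al p n x :=
  (it_add_it R n m c hc x).trans (mul_le_mul_right (it_le_al R n x) _)

theorem it_pow (hp : ∀ x, ∑' z, p x z ≤ 1) (R m : ℕ) (c : ℝ≥0∞) (hc : ∀ z, It p R m z ≤ c)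
    (j : ℕ) (x : ℤ) : It p R (j * m) x ≤ c ^ j := by
  have _ := hp
  induction j generalizing x with
  | zero =>
    rw [Nat.zero_mul, pow_zero]
    exact le_rfl
  | succ j ih =>
    rw [Nat.succ_mul, pow_succ, mul_comm (c ^ j)]
    exact (it_add_it R (j * m) m c hc x).trans (mul_le_mul_right (ih x) _)

theorem it_succ_le (hp : ∀ x, ∑' z, p x z ≤ 1) (R k : ℕ) (x : ℤ) :
    It p R (k + 1) x ≤ It p R k x := by
  induction k generalizing x with
  | zero => exact (it_le_al R 1 x).trans (al_le_one hp 1 x)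
  | succ k ih =>
    refine ENNReal.tsum_le_tsum fun z => mul_le_mul_right ?_ _
    split_ifs with h
    · exact ih z
    · exact le_rfl

theorem it_mono_steps (hp : ∀ x, ∑' z, p x z ≤ 1) (R : ℕ) {k m : ℕ} (h : k ≤ m) (x : ℤ) :
    It p R m x ≤ It p R k x := by
  induction m, h using Nat.le_induction with
  | base => exact le_rfl
  | succ m _ ih => exact (it_succ_le hp R m x).trans ih

end Pool.Agent.Helper18.WK
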