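import Mathlib

/-!
# Project WK (MP_7e0861_pr, q >= 3, walk part): definitions

`Law`: the law `f l h` of a super-piece (length `l ≥ 1`, height `h`), symmetric, with exponential tails.
Kernels `K x l z`: from height `x`, a piece of length `l`, to height `z`. `G K n x y`: mass of the chains of
total length `n` from `x` to `y`. `Q K n x`: mass which survives up to the length `n`. `Fst K m x a z`: the first
cut at a length `≥ m` is at the length `a` and the height `z`.
For a kernel `p x z` of heights only (time = number of pieces): `It p R k x`: alive after `k` steps and in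
`(-R, R)` at the times `1..k`; `Al p k x`: alive after `k` steps; `Hit p R k x`: reaches `|z| ≥ R` at a time `≤ k`.
-/

open scoped ENNReal

namespace Pool.Agent.Helper18.WK

/-- The law of a super-piece. -/
structure Law where
  /-- the mass of the pieces of length `l` and height `h` -/
  f : ℕ → ℤ → ℝ
  /-- constant of the tail -/
  B : ℝ
  /-- rate of the tail -/
  a : ℝ
  /-- a length for which the heights `0` and `1` are possible -/
  l0 : ℕ
  f_zero : ∀ h, f 0 h = 0
  f_nonneg : ∀ l h, 0 ≤ f l h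
  f_sum : HasSum (fun p : ℕ × ℤ => f p.1 p.2) 1
  f_symm : ∀ l h, f l (-h) = f l h
  a_pos : 0 < a
  B_pos : 0 < B
  f_tail : ∀ (l : ℕ) (h : ℤ), f l h ≤ B * Real.exp (-a * (l + |(h : ℝ)|))
  f_one : 0 < f 1 0
  f_l0 : 0 < f l0 0
  f_l01 : 0 < f l0 1

/-- Kernels: height, length of the piece, new height. -/
abbrev Ker : Type := ℤ → ℕ → ℤ → ℝ≥0∞

/-- The free kernel. -/
noncomputable def K0 (F : Law) : Ker := fun x l z => ENNReal.ofReal (F.f l (z - x))

/-- The kernel killed at the heights `≤ 0`. -/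
noncomputable def Kp (F : Law) : Ker := fun x l z =>
  if 1 ≤ x ∧ 1 ≤ z then ENNReal.ofReal (F.f l (z - x)) else 0

/-- The two-sided kernel: the flat unit pieces at height `0` are thinned by the factor `1 - δ`. -/
noncomputable def Kd (F : Law) (δ : ℝ) : Ker := fun x l z =>
  if x = 0 ∧ z = 0 ∧ l = 1 then ENNReal.ofReal ((1 - δ) * F.f 1 0) else ENNReal.ofReal (F.f l (z - x))

/-- Mass of the chains of total length `n` from `x` to `y`. -/
noncomputable def G (K : Ker) : ℕ → ℤ → ℤ → ℝ≥0∞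
  | 0, x, y => if x = y then 1 else 0
  | n + 1, x, y => ∑ l ∈ Finset.range (n + 1), ∑' z : ℤ, K x (l + 1) z * G K (n - l) z y
termination_by n => n
decreasing_by omega

/-- Mass which survives up to the length `n`. -/
noncomputable def Q (K : Ker) : ℕ → ℤ → ℝ≥0∞
  | 0, _ => 1
  | n + 1, x => ∑' l : ℕ, ∑' z : ℤ, K x (l + 1) z * Q K (n - l) z
termination_by n => n
decreasing_by omega

/-- Mass of the chains whose first cut at a length `≥ m` is at the length `a` and the height `z`. -/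
noncomputable def Fst (K : Ker) : ℕ → ℤ → ℕ → ℤ → ℝ≥0∞
  | 0, x, a, z => if a = 0 ∧ x = z then 1 else 0
  | m + 1, x, a, z => ∑ l ∈ Finset.range a, ∑' z' : ℤ, K x (l + 1) z' * Fst K (m - l) z' (a - (l + 1)) z
termination_by m => m
decreasing_by omega

/-- The kernel of heights: all lengths together. -/
noncomputable def hk (K : Ker) : ℤ → ℤ → ℝ≥0∞ := fun x z => ∑' l : ℕ, K x (l + 1) z

/-- Alive after `k` steps. -/
noncomputable def Al (p : ℤ → ℤ → ℝ≥0∞) : ℕ → ℤ → ℝ≥0∞
  | 0, _ => 1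
  | k + 1, x => ∑' z : ℤ, p x z * Al p k z

/-- Alive after `k` steps and in `(-R, R)` at the times `1..k`. -/
noncomputable def It (p : ℤ → ℤ → ℝ≥0∞) (R : ℕ) : ℕ → ℤ → ℝ≥0∞
  | 0, _ => 1
  | k + 1, x => ∑' z : ℤ, p x z * if |z| < (R : ℤ) then It p R k z else 0

/-- Reaches the heights `|z| ≥ R` at one of the times `0..k`. -/
noncomputable def Hit (p : ℤ → ℤ → ℝ≥0∞) (R : ℕ) : ℕ → ℤ → ℝ≥0∞
  | 0, x => if (R : ℤ) ≤ |x| then 1 else 0
  | k + 1, x => if (R : ℤ) ≤ |x| then 1 else ∑' z : ℤ, p x z * Hit p R k z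

theorem G_zero (K : Ker) (x y : ℤ) : G K 0 x y = if x = y then 1 else 0 := by
  rw [G]

theorem G_succ (K : Ker) (n : ℕ) (x y : ℤ) :
    G K (n + 1) x y = ∑ l ∈ Finset.range (n + 1), ∑' z : ℤ, K x (l + 1) z * G K (n - l) z y := by
  rw [G]

theorem Q_zero (K : Ker) (x : ℤ) : Q K 0 x = 1 := by
  rw [Q]

theorem Q_succ (K : Ker) (n : ℕ) (x : ℤ) :
    Q K (n + 1) x = ∑' l : ℕ, ∑' z : ℤ, K x (l + 1) z * Q K (n - l) z := by
  rw [Q]

theorem Fst_zero (K : Ker) (x : ℤ) (a : ℕ) (z : ℤ) :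
    Fst K 0 x a z = if a = 0 ∧ x = z then 1 else 0 := by
  rw [Fst]

theorem Fst_succ (K : Ker) (m : ℕ) (x : ℤ) (a : ℕ) (z : ℤ) :
    Fst K (m + 1) x a z =
      ∑ l ∈ Finset.range a, ∑' z' : ℤ, K x (l + 1) z' * Fst K (m - l) z' (a - (l + 1)) z := by
  rw [Fst]

end Pool.Agent.Helper18.WK
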