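import Pool.Agent.Helper18.WK.LstB

/-!
# Project WK, block WK-L3: heights at given positions

`hgt_stp`: if `c₁` is stopped at its first cut at a position `≥ m` and `m ≤ t`, then
`hgt t x (c₁ ++ c₂) = hgt (t - cl c₁) (ce x c₁) c₂`. (For `cl c₁ ≥ t`: `c₁` has no earlier cut at a position `≥ m`, so
its end is the first cut at a position `≥ t`.) `mm_cons`: `sc_stp` with `S = fun j _ => t ≤ j`; every chain of length
`n ≥ t` has such a prefix; then group the prefixes by their length `a` and last height `z` (`fst_stp`).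
`hgt_left`: if `t ≤ cl c₂` then the suffix `c₃` does not matter.
-/

open scoped ENNReal Classical

namespace Pool.Agent.Helper18.WK

theorem hgt_zero31 (x : ℤ) (c : Ch) : hgt 0 x c = x := by
  cases c with
  | nil => rfl
  | cons q c => exact if_pos rfl

theorem hgt_stp_aux31 {m t : ℕ} (h : m ≤ t) (c₂ : Ch) : ∀ (c₁ : Ch) (j : ℕ) (x : ℤ),
    Stp (fun j _ => m ≤ j) j x c₁ → hgt (t - j) x (c₁ ++ c₂) = hgt (t - j - cl c₁) (ce x c₁) c₂ := by
  intro c₁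
  induction c₁ with
  | nil =>
    intro j x _
    rfl
  | cons q c ih =>
    intro j x hc
    have h1 : ¬ m ≤ j := hc.1
    have h2 : hgt (t - j) x ((q :: c) ++ c₂) = hgt (t - j - q.1) q.2 (c ++ c₂) := if_neg (by omega)
    have h3 : cl (q :: c) = q.1 + cl c := rfl
    have h4 : ce x (q :: c) = ce q.2 c := rfl
    rw [h2, h3, h4, show t - j - q.1 = t - (j + q.1) by omega, ih _ _ hc.2,
      show t - j - (q.1 + cl c) = t - (j + q.1) - cl c by omega]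

theorem stp_cl31 {m : ℕ} : ∀ (c : Ch) (j : ℕ) (x : ℤ), Stp (fun j _ => m ≤ j) j x c → m ≤ j + cl c := by
  intro c
  induction c with
  | nil =>
    intro j x hc
    exact hc
  | cons q c ih =>
    intro j x hc
    have h1 := ih _ _ hc.2
    have h3 : cl (q :: c) = q.1 + cl c := rfl
    omega

theorem hgt_stp {m t : ℕ} (h : m ≤ t) {x : ℤ} {c₁ : Ch} (hc : Stp (fun j _ => m ≤ j) 0 x c₁) (c₂ : Ch) :
    hgt t x (c₁ ++ c₂) = hgt (t - cl c₁) (ce x c₁) c₂ :=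
  hgt_stp_aux31 h c₂ c₁ 0 x hc

theorem hgt_left_aux31 (c₃ : Ch) : ∀ (c₂ : Ch) (t : ℕ) (x : ℤ), t ≤ cl c₂ → hgt t x (c₂ ++ c₃) = hgt t x c₂ := by
  intro c₂
  induction c₂ with
  | nil =>
    intro t x h
    have h0 : t = 0 := Nat.le_zero.1 h
    rw [h0, hgt_zero31, hgt_zero31]
  | cons q c ih =>
    intro t x h
    by_cases ht : t = 0
    · rw [ht, hgt_zero31, hgt_zero31]
    · have h1 : hgt t x ((q :: c) ++ c₃) = hgt (t - q.1) q.2 (c ++ c₃) := if_neg ht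
      have h2 : hgt t x (q :: c) = hgt (t - q.1) q.2 c := if_neg ht
      have h3 : cl (q :: c) = q.1 + cl c := rfl
      rw [h1, h2]
      exact ih _ _ (by omega)

theorem hgt_left {t : ℕ} {x : ℤ} {c₂ : Ch} (h : t ≤ cl c₂) (c₃ : Ch) : hgt t x (c₂ ++ c₃) = hgt t x c₂ :=
  hgt_left_aux31 c₃ c₂ t x h

theorem stp_exists_aux31 {m : ℕ} : ∀ (c : Ch) (j : ℕ) (x : ℤ), m ≤ j + cl c →
    ∃ c₁ c₂ : Ch, c = c₁ ++ c₂ ∧ Stp (fun j _ => m ≤ j) j x c₁ := by
  intro c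
  induction c with
  | nil =>
    intro j x h
    exact ⟨[], [], rfl, h⟩
  | cons q c ih =>
    intro j x h
    by_cases hj : m ≤ j
    · exact ⟨[], q :: c, rfl, hj⟩
    · have h3 : cl (q :: c) = q.1 + cl c := rfl
      obtain ⟨c₁, c₂, h1, h2⟩ := ih (j + q.1) q.2 (by omega)
      exact ⟨q :: c₁, c₂, by rw [h1, List.cons_append], hj, h2⟩

theorem stp_exists {m : ℕ} {x : ℤ} {c : Ch} (h : m ≤ cl c) :
    ∃ c₁ c₂ : Ch, c = c₁ ++ c₂ ∧ Stp (fun j _ => m ≤ j) 0 x c₁ :=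
  stp_exists_aux31 c 0 x (by omega)

theorem mm_nil (K : Ker) (hK : ∀ x z, K x 0 z = 0) (n : ℕ) (x y : ℤ) : Mm K [] n x y = G K n x y := by
  rw [← sc_one K hK, Mm]
  congr 1

/-- grouping the stopped prefixes by their length and last height -/
theorem group_stp31 (K : Ker) (hK : ∀ x z, K x 0 z = 0) (t n : ℕ) (x : ℤ) (H : ℕ → ℤ → ℝ≥0∞) :
    ∑' c₁ : Ch, (if Stp (fun j _ => t ≤ j) 0 x c₁ ∧ cl c₁ ≤ n then cw K x c₁ * H (cl c₁) (ce x c₁) else 0) =
      ∑ a ∈ Finset.Icc t n, ∑' z : ℤ, Fst K t x a z * H a z := by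
  have h1 : ∀ c₁ : Ch,
      (if Stp (fun j _ => t ≤ j) 0 x c₁ ∧ cl c₁ ≤ n then cw K x c₁ * H (cl c₁) (ce x c₁) else 0) =
      ∑' a : ℕ, ∑' z : ℤ, (if Stp (fun j _ => t ≤ j) 0 x c₁ ∧ cl c₁ = a ∧ ce x c₁ = z ∧ a ≤ n then
        cw K x c₁ * H a z else 0) := by
    intro c₁
    symm
    rw [tsum_eq_single (cl c₁), tsum_eq_single (ce x c₁)]
    · by_cases h : Stp (fun j _ => t ≤ j) 0 x c₁ ∧ cl c₁ ≤ n
      · rw [if_pos h, if_pos ⟨h.1, rfl, rfl, h.2⟩]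
      · rw [if_neg h, if_neg fun h' => h ⟨h'.1, h'.2.2.2⟩]
    · intro z hz
      exact if_neg fun h => hz h.2.2.1.symm
    · intro a ha
      rw [ENNReal.tsum_eq_zero]
      intro z
      exact if_neg fun h => ha h.2.1.symm
  rw [tsum_congr h1, ENNReal.tsum_comm, tsum_eq_sum (s := Finset.Icc t n)]
  · refine Finset.sum_congr rfl fun a ha => ?_
    rw [ENNReal.tsum_comm]
    refine tsum_congr fun z => ?_
    rw [fst_stp K hK, ← ENNReal.tsum_mul_right]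
    refine tsum_congr fun c => ?_
    have han : a ≤ n := (Finset.mem_Icc.1 ha).2
    by_cases h : Stp (fun j _ => t ≤ j) 0 x c ∧ cl c = a ∧ ce x c = z
    · rw [if_pos h, if_pos ⟨h.1, h.2.1, h.2.2, han⟩]
    · rw [if_neg h, if_neg fun h' => h ⟨h'.1, h'.2.1, h'.2.2.1⟩, zero_mul]
  · intro a ha
    rw [ENNReal.tsum_eq_zero]
    intro c
    rw [ENNReal.tsum_eq_zero]
    intro z
    refine if_neg ?_
    rintro ⟨h2, h3, _, h4⟩
    have h5 := stp_cl31 c 0 x h2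
    exact ha (Finset.mem_Icc.2 ⟨by omega, h4⟩)

theorem mm_cons (K : Ker) (hK : ∀ x z, K x 0 z = 0) {t n : ℕ} {b : ℤ} {s : List (ℕ × ℤ)} (ht : t ≤ n)
    (hs : ∀ q ∈ s, t ≤ q.1) (x y : ℤ) :
    Mm K ((t, b) :: s) n x y = ∑ a ∈ Finset.Icc t n, ∑' z : ℤ, Fst K t x a z *
      (if b ≤ z then Mm K (s.map fun q => (q.1 - a, q.2)) (n - a) z y else 0) := by
  rw [← group_stp31 K hK t n x (fun a z => if b ≤ z then Mm K (s.map fun q => (q.1 - a, q.2)) (n - a) z y else 0)]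
  obtain ⟨Φ, hΦ⟩ : ∃ Φ : Ch → ℝ≥0∞, Φ = fun c => if ∀ q ∈ (t, b) :: s, q.2 ≤ hgt q.1 x c then 1 else 0 := ⟨_, rfl⟩
  have h1 : Mm K ((t, b) :: s) n x y =
      Sc K n x y (fun c => if ∃ c₁ c₂ : Ch, c = c₁ ++ c₂ ∧ Stp (fun j _ => t ≤ j) 0 x c₁ then Φ c else 0) := by
    rw [Mm, ← hΦ]
    unfold Sc
    refine tsum_congr fun c => ?_
    by_cases h : cl c = n ∧ ce x c = y
    · rw [if_pos h, if_pos h]
      beta_reduce
      rw [if_pos (stp_exists (by omega))]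
    · rw [if_neg h, if_neg h]
  rw [h1, sc_stp]
  refine tsum_congr fun c₁ => ?_
  by_cases h : Stp (fun j _ => t ≤ j) 0 x c₁ ∧ cl c₁ ≤ n
  · rw [if_pos h, if_pos h]
    beta_reduce
    congr 1
    have hcl : t ≤ cl c₁ := by
      have := stp_cl31 c₁ 0 x h.1
      omega
    have h2 : ∀ c₂ : Ch, Φ (c₁ ++ c₂) = if b ≤ ce x c₁ then
        (if ∀ q ∈ s.map (fun q => (q.1 - cl c₁, q.2)), q.2 ≤ hgt q.1 (ce x c₁) c₂ then (1 : ℝ≥0∞) else 0) else 0 := by
      intro c₂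
      have e1 : (∀ q ∈ (t, b) :: s, q.2 ≤ hgt q.1 x (c₁ ++ c₂)) ↔ (b ≤ ce x c₁ ∧
          ∀ q ∈ s.map (fun q => (q.1 - cl c₁, q.2)), q.2 ≤ hgt q.1 (ce x c₁) c₂) := by
        rw [List.forall_mem_cons, List.forall_mem_map]
        have e2 : hgt t x (c₁ ++ c₂) = ce x c₁ := by
          rw [hgt_stp le_rfl h.1, Nat.sub_eq_zero_of_le hcl, hgt_zero31]
        rw [e2]
        refine and_congr_right fun _ => forall₂_congr fun q hq => ?_
        rw [hgt_stp (hs q hq) h.1]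
      rw [hΦ]
      beta_reduce
      by_cases h3 : b ≤ ce x c₁
      · rw [if_pos h3]
        by_cases h4 : ∀ q ∈ s.map (fun q => (q.1 - cl c₁, q.2)), q.2 ≤ hgt q.1 (ce x c₁) c₂
        · rw [if_pos h4]
          exact if_pos (e1.2 ⟨h3, h4⟩)
        · rw [if_neg h4]
          exact if_neg fun h5 => h4 (e1.1 h5).2
      · rw [if_neg h3]
        exact if_neg fun h4 => h3 (e1.1 h4).1
    by_cases h3 : b ≤ ce x c₁
    · rw [if_pos h3, Mm]
      congr 1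
      funext c₂
      rw [h2, if_pos h3]
      by_cases h4 : ∀ q ∈ s.map (fun q => (q.1 - cl c₁, q.2)), q.2 ≤ hgt q.1 (ce x c₁) c₂
      · rw [if_pos h4, if_pos h4]
      · rw [if_neg h4, if_neg h4]
    · rw [if_neg h3]
      unfold Sc
      rw [ENNReal.tsum_eq_zero]
      intro c₂
      beta_reduce
      rw [h2, if_neg h3, mul_zero, ite_self]
  · rw [if_neg h, if_neg h]

end Pool.Agent.Helper18.WK
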