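import Pool.Agent.Helper18.WK.PsiT
import Pool.Agent.Helper18.WK.LstC

/-!
# Project WK, block WK-E1: high cuts near the ends

`end_left`: `end_le` with `⌊d n⌋`, `R = ⌈ε √n⌉`, `θ = 1 / √(d n)`; `sinh u ≥ u ^ 2 / 2`.
`end_right`: `sc_rev`, `Kr (Kp F) = Kp F`, `rv_append`, `cl_rv`, `ce_rv`.
-/

open scoped ENNReal Classical

namespace Pool.Agent.Helper18.WK

private theorem kr67 (F : Law) : Kr (Kp F) = Kp F := by
  funext x l z
  unfold Kr Kp
  by_cases h : 1 ≤ x ∧ 1 ≤ z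
  · rw [if_pos h, if_pos h.symm, ← F.f_symm l (z - x)]
    congr 2
    ring
  · rw [if_neg h, if_neg fun h' => h h'.symm]

private theorem sinh_bd67 {u : ℝ} (hu : 0 < u) : u / Real.sinh u ≤ 2 / u := by
  have h1 : u / 2 ≤ Real.sinh (u / 2) := Real.self_le_sinh_iff.2 (by positivity)
  have h2 : Real.sinh (u / 2) ≤ Real.cosh (u / 2) := (Real.sinh_lt_cosh _).le
  have h3 : Real.sinh u = 2 * Real.sinh (u / 2) * Real.cosh (u / 2) := by
    rw [← Real.sinh_two_mul]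
    congr 1
    ring
  have h4 : u ^ 2 / 2 ≤ Real.sinh u := by
    have h5 : u / 2 * (u / 2) ≤ Real.sinh (u / 2) * Real.cosh (u / 2) :=
      mul_le_mul h1 (h1.trans h2) (by positivity) ((by positivity : (0 : ℝ) ≤ u / 2).trans h1)
    rw [h3]
    nlinarith
  have h5 : 0 < Real.sinh u := lt_of_lt_of_le (by positivity) h4
  rw [div_le_div_iff₀ h5 hu]
  nlinarith

theorem end_left (F : Law) (M : ℕ) {ε t : ℝ} (hε : 0 < ε) (ht : 0 < t) : ∃ (d : ℝ) (n₀ : ℕ), 0 < d ∧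
    ∀ n ≥ n₀, ∀ x y : ℤ, 1 ≤ x → x ≤ M → 1 ≤ y → y ≤ M →
      Sc (Kp F) n x y (fun c => if ∃ c₁ c₂ : Ch, c = c₁ ++ c₂ ∧ (cl c₁ : ℝ) ≤ d * n ∧
        ε * Real.sqrt n ≤ ce x c₁ then 1 else 0) ≤ ENNReal.ofReal (t / (n * Real.sqrt n)) := by
  obtain ⟨C, θ₀, hC, hθ₀, hend⟩ := end_le F
  obtain ⟨A, hA⟩ : ∃ A : ℝ, A = C * (1 + M) * (1 + M) * Real.exp C := ⟨_, rfl⟩
  have hA0 : 0 < A := by
    rw [hA]
    positivity
  obtain ⟨δ, hδ⟩ : ∃ δ : ℝ, δ = min (1 / 2) (t * ε / (2 * A)) := ⟨_, rfl⟩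
  have hδ0 : 0 < δ := by
    rw [hδ]
    exact lt_min (by norm_num) (by positivity)
  have hδ1 : δ ≤ 1 / 2 := by
    rw [hδ]
    exact min_le_left _ _
  have hδ2 : δ ≤ t * ε / (2 * A) := by
    rw [hδ]
    exact min_le_right _ _
  obtain ⟨n₁, hn₁⟩ := exists_nat_ge (((M : ℝ) / δ) ^ 2 + (1 / (θ₀ * δ)) ^ 2 + 1)
  refine ⟨δ ^ 2, n₁, by positivity, fun n hn x y hx hxM hy hyM => ?_⟩
  have hnR : ((M : ℝ) / δ) ^ 2 + (1 / (θ₀ * δ)) ^ 2 + 1 ≤ n := hn₁.trans (by exact_mod_cast hn)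
  have hn1 : (1 : ℝ) ≤ n := by
    have h1 : 0 ≤ ((M : ℝ) / δ) ^ 2 := sq_nonneg _
    have h2 : 0 ≤ (1 / (θ₀ * δ)) ^ 2 := sq_nonneg _
    linarith
  have hn1' : 1 ≤ n := by exact_mod_cast hn1
  obtain ⟨s, hs⟩ : ∃ s : ℝ, s = Real.sqrt n := ⟨_, rfl⟩
  have hs2 : s ^ 2 = n := by
    rw [hs]
    exact Real.sq_sqrt (by linarith)
  have hs0 : 0 < s := by
    rw [hs]
    exact Real.sqrt_pos.2 (by linarith)
  have hsM : (M : ℝ) / δ ≤ s := by
    have h1 : ((M : ℝ) / δ) ^ 2 ≤ s ^ 2 := by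
      rw [hs2]
      have h2 : 0 ≤ (1 / (θ₀ * δ)) ^ 2 := sq_nonneg _
      linarith
    exact (pow_le_pow_iff_left₀ (by positivity) hs0.le two_ne_zero).1 h1
  have hsθ : 1 / (θ₀ * δ) ≤ s := by
    have h1 : (1 / (θ₀ * δ)) ^ 2 ≤ s ^ 2 := by
      rw [hs2]
      have h2 : 0 ≤ ((M : ℝ) / δ) ^ 2 := sq_nonneg _
      linarith
    exact (pow_le_pow_iff_left₀ (by positivity) hs0.le two_ne_zero).1 h1
  obtain ⟨θ, hθ⟩ : ∃ θ : ℝ, θ = 1 / (δ * s) := ⟨_, rfl⟩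
  have hθ0 : 0 < θ := by
    rw [hθ]
    positivity
  have hθ1 : θ ≤ θ₀ := by
    rw [hθ, div_le_iff₀ (by positivity)]
    rw [div_le_iff₀ (by positivity)] at hsθ
    linarith
  have hx0 : (0 : ℝ) ≤ x := by
    have : (1 : ℝ) ≤ x := by exact_mod_cast hx
    linarith
  have hy0 : (0 : ℝ) ≤ y := by
    have : (1 : ℝ) ≤ y := by exact_mod_cast hy
    linarith
  have hxM' : (x : ℝ) ≤ M := by exact_mod_cast hxM
  have hyM' : (y : ℝ) ≤ M := by exact_mod_cast hyM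
  have hθx : θ * x ≤ 1 := by
    rw [hθ, one_div_mul_eq_div, div_le_one (by positivity)]
    rw [div_le_iff₀ hδ0] at hsM
    linarith
  obtain ⟨D, hD⟩ : ∃ D : ℕ, D = ⌊δ ^ 2 * n⌋₊ := ⟨_, rfl⟩
  have hDle : (D : ℝ) ≤ δ ^ 2 * n := by
    rw [hD]
    exact Nat.floor_le (by positivity)
  have h2D : 2 * D ≤ n := by
    have h1 : (2 : ℝ) * D ≤ n := by
      have h2 : δ ^ 2 ≤ 1 / 4 := by nlinarith
      have h3 : δ ^ 2 * n ≤ 1 / 4 * n := mul_le_mul_of_nonneg_right h2 (by linarith)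
      linarith
    exact_mod_cast h1
  obtain ⟨R, hR⟩ : ∃ R : ℕ, R = ⌈ε * s⌉₊ := ⟨_, rfl⟩
  have hRge : ε * s ≤ R := by
    rw [hR]
    exact Nat.le_ceil _
  have hR1 : 1 ≤ R := by
    rw [hR]
    exact Nat.one_le_ceil_iff.2 (by positivity)
  have hR0 : (0 : ℝ) < R := by exact_mod_cast hR1
  have h1 := hend θ hθ0 hθ1 n D R x y hn1' h2D hR1 hx hθx
  refine le_trans ?_ (h1.trans (ENNReal.ofReal_le_ofReal ?_))
  · unfold Sc
    refine ENNReal.tsum_le_tsum fun c => ?_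
    by_cases h : cl c = n ∧ ce x c = y
    · rw [if_pos h, if_pos h]
      beta_reduce
      refine mul_le_mul_right ?_ _
      by_cases h2 : ∃ c₁ c₂ : Ch, c = c₁ ++ c₂ ∧ (cl c₁ : ℝ) ≤ δ ^ 2 * n ∧ ε * Real.sqrt n ≤ ce x c₁
      · obtain ⟨c₁, c₂, h3, h4, h5⟩ := h2
        have k1 : cl c₁ ≤ D := by
          rw [hD]
          exact Nat.le_floor h4
        have k2 : (R : ℤ) ≤ ce x c₁ := by
          rw [← hs] at h5
          have h6 : (0 : ℤ) ≤ ce x c₁ := by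
            have : (0 : ℝ) ≤ ce x c₁ := le_trans (by positivity) h5
            exact_mod_cast this
          obtain ⟨m, hm⟩ := Int.eq_ofNat_of_zero_le h6
          rw [hm] at h5 ⊢
          have h7 : R ≤ m := by
            rw [hR]
            exact Nat.ceil_le.2 (by exact_mod_cast h5)
          exact_mod_cast h7
        rw [if_pos ⟨c₁, c₂, h3, h4, h5⟩, if_pos ⟨c₁, c₂, h3, k1, k2⟩]
      · rw [if_neg h2]
        exact zero_le
    · rw [if_neg h, if_neg h]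
  · rw [abs_of_nonneg hx0, abs_of_nonneg hy0, ← hs]
    have e1 : Real.exp (C * θ ^ 2 * D) ≤ Real.exp C := by
      refine Real.exp_le_exp.2 ?_
      have h2 : θ ^ 2 * D ≤ 1 := by
        have h3 : θ ^ 2 * D ≤ θ ^ 2 * (δ ^ 2 * n) := mul_le_mul_of_nonneg_left hDle (sq_nonneg _)
        have h4 : θ ^ 2 * (δ ^ 2 * n) = 1 := by
          rw [hθ, ← hs2]
          field_simp
        linarith
      have h3 := mul_le_mul_of_nonneg_left h2 hC.le
      linarith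
    have hu : 0 < θ * R := mul_pos hθ0 hR0
    have e2 : θ * R / Real.sinh (θ * R) ≤ 2 * δ / ε := by
      refine (sinh_bd67 hu).trans ?_
      rw [div_le_div_iff₀ hu hε]
      have h2 : ε / δ ≤ θ * R := by
        have h3 : θ * (ε * s) ≤ θ * R := mul_le_mul_of_nonneg_left hRge hθ0.le
        have h4 : θ * (ε * s) = ε / δ := by
          rw [hθ]
          field_simp
        linarith
      rw [div_le_iff₀ hδ0] at h2
      linarith
    have e3 : 0 ≤ θ * R / Real.sinh (θ * R) := div_nonneg hu.le (Real.sinh_nonneg_iff.2 hu.le)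
    have e4 : Real.exp (C * θ ^ 2 * D) * (θ * R / Real.sinh (θ * R)) ≤ Real.exp C * (2 * δ / ε) :=
      mul_le_mul e1 e2 e3 (Real.exp_pos _).le
    have e5 : C * (1 + (x : ℝ)) * (1 + (y : ℝ)) ≤ C * (1 + M) * (1 + M) :=
      mul_le_mul (mul_le_mul_of_nonneg_left (by linarith) hC.le) (by linarith) (by linarith) (by positivity)
    have hns : 0 < (n : ℝ) * s := mul_pos (by linarith) hs0
    have e6 : C * (1 + (x : ℝ)) * (1 + (y : ℝ)) / (n * s) ≤ C * (1 + M) * (1 + M) / (n * s) :=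
      div_le_div_of_nonneg_right e5 hns.le
    refine (mul_le_mul e6 e4 (mul_nonneg (Real.exp_pos _).le e3) (by positivity)).trans ?_
    have e7 : C * (1 + M) * (1 + M) / (n * s) * (Real.exp C * (2 * δ / ε)) = (A * (2 * δ / ε)) / (n * s) := by
      rw [hA]
      ring
    rw [e7]
    refine div_le_div_of_nonneg_right ?_ hns.le
    rw [le_div_iff₀ (by positivity)] at hδ2
    rw [← mul_div_assoc, div_le_iff₀ hε]
    linarith

theorem end_right (F : Law) (M : ℕ) {ε t : ℝ} (hε : 0 < ε) (ht : 0 < t) : ∃ (d : ℝ) (n₀ : ℕ), 0 < d ∧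
    ∀ n ≥ n₀, ∀ x y : ℤ, 1 ≤ x → x ≤ M → 1 ≤ y → y ≤ M →
      Sc (Kp F) n x y (fun c => if ∃ c₁ c₂ : Ch, c = c₁ ++ c₂ ∧ (cl c₂ : ℝ) ≤ d * n ∧
        ε * Real.sqrt n ≤ ce x c₁ then 1 else 0) ≤ ENNReal.ofReal (t / (n * Real.sqrt n)) := by
  obtain ⟨d, n₀, hd, h⟩ := end_left F M hε ht
  refine ⟨d, n₀, hd, fun n hn x y hx hxM hy hyM => ?_⟩
  refine le_trans ?_ (h n hn y x hy hyM hx hxM)
  rw [sc_rev, kr67]
  unfold Sc
  refine ENNReal.tsum_le_tsum fun c => ?_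
  by_cases hc : cl c = n ∧ ce y c = x
  · rw [if_pos hc, if_pos hc]
    beta_reduce
    refine mul_le_mul_right ?_ _
    by_cases h2 : ∃ c₁ c₂ : Ch, rv y c = c₁ ++ c₂ ∧ (cl c₂ : ℝ) ≤ d * n ∧ ε * Real.sqrt n ≤ ce x c₁
    · obtain ⟨c₁, c₂, h3, h4, h5⟩ := h2
      have k1 : c = rv (ce x c₁) c₂ ++ rv x c₁ := by
        rw [← rv_append, ← h3, ← hc.2, rv_rv]
      have k2 : (cl (rv (ce x c₁) c₂) : ℝ) ≤ d * n := by
        rw [cl_rv]
        exact h4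
      have k3 : ε * Real.sqrt n ≤ ce y (rv (ce x c₁) c₂) := by
        have e1 : ce (ce x c₁) c₂ = y := by
          rw [← ce_append, ← h3, ← hc.2, ce_rv]
        have e2 := ce_rv (ce x c₁) c₂
        rw [e1] at e2
        rw [e2]
        exact h5
      rw [if_pos ⟨c₁, c₂, h3, h4, h5⟩, if_pos ⟨rv (ce x c₁) c₂, rv x c₁, k1, k2, k3⟩]
    · rw [if_neg h2]
      exact zero_le
  · rw [if_neg hc, if_neg hc]

end Pool.Agent.Helper18.WK
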