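import Pool.Agent.Helper18.WK.Defs

/-!
# Project WK, block WK-S1, first part: right recursion, first cut, straddling piece
-/

open scoped ENNReal

namespace Pool.Agent.Helper18.WK

private theorem tri {M : Type*} [AddCommMonoid M] (m : ℕ) (f : ℕ → ℕ → M) :
    ∑ l ∈ Finset.range m, ∑ j ∈ Finset.range (m - l), f l j =
      ∑ i ∈ Finset.range m, ∑ l ∈ Finset.range (i + 1), f l (i - l) := by
  have h1 : ∀ l ∈ Finset.range m, ∑ j ∈ Finset.range (m - l), f l j =
      ∑ i ∈ Finset.Ico l m, f l (i - l) := by
    intro l _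
    rw [Finset.sum_Ico_eq_sum_range]
    refine Finset.sum_congr rfl fun j _ => ?_
    rw [Nat.add_sub_cancel_left]
  rw [Finset.sum_congr rfl h1]
  refine Finset.sum_comm' fun l i => ?_
  rw [Finset.mem_range, Finset.mem_Ico, Finset.mem_range, Finset.mem_range]
  omega

private theorem tsum_fin {α : Type*} (s : Finset ℕ) (f : ℕ → α → ℝ≥0∞) :
    ∑' z, ∑ i ∈ s, f i z = ∑ i ∈ s, ∑' z, f i z :=
  Summable.tsum_finsetSum fun _ _ => ENNReal.summable

private theorem tsum_delta (x : ℤ) (f : ℤ → ℝ≥0∞) :
    ∑' z : ℤ, (if x = z then 1 else 0) * f z = f x := by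
  rw [tsum_eq_single x]
  · simp
  · intro b hb
    rw [if_neg (Ne.symm hb), zero_mul]

private theorem tsum_delta' (x : ℤ) (f : ℤ → ℝ≥0∞) :
    ∑' z : ℤ, f z * (if z = x then 1 else 0) = f x := by
  rw [tsum_eq_single x]
  · simp
  · intro b hb
    rw [if_neg hb, mul_zero]

/-- a sum over a convolution -/
private theorem conv_tsum (K : Ker) (s : Finset ℕ) (x : ℤ) (g : ℕ → ℤ → ℤ → ℝ≥0∞) (h : ℤ → ℝ≥0∞) :
    ∑' z : ℤ, (∑ l ∈ s, ∑' z' : ℤ, K x (l + 1) z' * g l z' z) * h z =
      ∑ l ∈ s, ∑' z' : ℤ, K x (l + 1) z' * ∑' z : ℤ, g l z' z * h z := by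
  have h1 : ∀ z, (∑ l ∈ s, ∑' z' : ℤ, K x (l + 1) z' * g l z' z) * h z =
      ∑ l ∈ s, ∑' z' : ℤ, K x (l + 1) z' * (g l z' z * h z) := by
    intro z
    rw [Finset.sum_mul]
    refine Finset.sum_congr rfl fun l _ => ?_
    rw [← ENNReal.tsum_mul_right]
    refine tsum_congr fun z' => ?_
    rw [mul_assoc]
  rw [tsum_congr h1, tsum_fin]
  refine Finset.sum_congr rfl fun l _ => ?_
  rw [ENNReal.tsum_comm]
  refine tsum_congr fun z' => ?_
  rw [ENNReal.tsum_mul_left]

private theorem mul_fin (K : Ker) (s : Finset ℕ) (x : ℤ) (l : ℕ) (g : ℕ → ℤ → ℝ≥0∞) :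
    ∑' z : ℤ, K x (l + 1) z * ∑ j ∈ s, g j z = ∑ j ∈ s, ∑' z : ℤ, K x (l + 1) z * g j z := by
  rw [← tsum_fin]
  refine tsum_congr fun z => ?_
  rw [Finset.mul_sum]

/-- common form of the right recursions -/
private theorem right_aux (K : Ker) (m a : ℕ) (x y : ℤ) :
    ∑ l ∈ Finset.range m, ∑' z : ℤ, K x (l + 1) z *
        ∑ j ∈ Finset.range (m - l), ∑' z' : ℤ, G K j z z' * K z' (a - l - j) y =
      ∑ i ∈ Finset.range m, ∑' z : ℤ, G K (i + 1) x z * K z (a - i) y := by
  have h1 : ∀ l ∈ Finset.range m, ∑' z : ℤ, K x (l + 1) z *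
        ∑ j ∈ Finset.range (m - l), ∑' z' : ℤ, G K j z z' * K z' (a - l - j) y =
      ∑ j ∈ Finset.range (m - l), ∑' z : ℤ, K x (l + 1) z *
        ∑' z' : ℤ, G K j z z' * K z' (a - l - j) y := fun l _ => mul_fin K _ x l _
  rw [Finset.sum_congr rfl h1, tri]
  refine Finset.sum_congr rfl fun i _ => ?_
  have h2 : ∀ z : ℤ, G K (i + 1) x z * K z (a - i) y =
      (∑ l ∈ Finset.range (i + 1), ∑' z' : ℤ, K x (l + 1) z' * G K (i - l) z' z) * K z (a - i) y := by
    intro z
    rw [G_succ]
  rw [tsum_congr h2, conv_tsum]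
  refine Finset.sum_congr rfl fun l hl => ?_
  have hl' := Finset.mem_range.1 hl
  have h3 : a - l - (i - l) = a - i := by omega
  rw [h3]

theorem g_right (K : Ker) (n : ℕ) (x y : ℤ) :
    G K (n + 1) x y = ∑ j ∈ Finset.range (n + 1), ∑' z : ℤ, G K j x z * K z (n + 1 - j) y := by
  induction n using Nat.strong_induction_on generalizing x with
  | _ n ih =>
    rw [G_succ, Finset.sum_range_succ, Finset.sum_range_succ' _ n]
    have h0 : ∑' z : ℤ, K x (n + 1) z * G K (n - n) z y = K x (n + 1) y := by
      simp only [Nat.sub_self, G_zero]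
      exact tsum_delta' y _
    have h0' : ∑' z : ℤ, G K 0 x z * K z (n + 1 - 0) y = K x (n + 1) y := by
      simp only [G_zero, Nat.sub_zero]
      exact tsum_delta x (fun z => K z (n + 1) y)
    rw [h0, h0']
    congr 1
    have h1 : ∀ l ∈ Finset.range n, ∑' z : ℤ, K x (l + 1) z * G K (n - l) z y =
        ∑' z : ℤ, K x (l + 1) z *
          ∑ j ∈ Finset.range (n - l), ∑' z' : ℤ, G K j z z' * K z' (n - l - j) y := by
      intro l hl
      have hl' := Finset.mem_range.1 hl
      refine tsum_congr fun z => ?_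
      have h2 := ih (n - l - 1) (by omega) z
      have h3 : n - l - 1 + 1 = n - l := by omega
      rw [h3] at h2
      rw [h2]
    rw [Finset.sum_congr rfl h1, right_aux]
    refine Finset.sum_congr rfl fun i _ => tsum_congr fun z => ?_
    have h3 : n + 1 - (i + 1) = n - i := by omega
    rw [h3]

theorem fst_lt (K : Ker) {m a : ℕ} (h : a < m) (x z : ℤ) : Fst K m x a z = 0 := by
  induction m using Nat.strong_induction_on generalizing x a with
  | _ m ih =>
    match m, ih, h with
    | 0, _, h => omega
    | m + 1, ih, h =>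
      rw [Fst_succ]
      refine Finset.sum_eq_zero fun l hl => ?_
      have hl' := Finset.mem_range.1 hl
      have h1 : ∀ z' : ℤ, K x (l + 1) z' * Fst K (m - l) z' (a - (l + 1)) z = 0 := by
        intro z'
        rw [ih (m - l) (by omega) (by omega), mul_zero]
      rw [tsum_congr h1, tsum_zero]

theorem fst_eq (K : Ker) {m a : ℕ} (hm : 1 ≤ m) (h : m ≤ a) (x z : ℤ) :
    Fst K m x a z = ∑ j ∈ Finset.range m, ∑' z' : ℤ, G K j x z' * K z' (a - j) z := by
  induction m using Nat.strong_induction_on generalizing x a with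
  | _ m ih =>
    match m, ih, hm, h with
    | 0, _, hm, _ => omega
    | m + 1, ih, _, h =>
      obtain ⟨b, rfl⟩ : ∃ b, a = b + 1 := ⟨a - 1, by omega⟩
      rw [Fst_succ, Finset.sum_range_succ' _ m]
      have h0' : ∑' z' : ℤ, G K 0 x z' * K z' (b + 1 - 0) z = K x (b + 1) z := by
        simp only [G_zero, Nat.sub_zero]
        exact tsum_delta x (fun z' => K z' (b + 1) z)
      rw [h0']
      have hsplit : Finset.range (b + 1) = Finset.range m ∪ Finset.Ico m (b + 1) := by
        ext l
        rw [Finset.mem_union, Finset.mem_range, Finset.mem_range, Finset.mem_Ico]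
        omega
      have hdisj : Disjoint (Finset.range m) (Finset.Ico m (b + 1)) := by
        rw [Finset.disjoint_left]
        intro l hl
        rw [Finset.mem_range] at hl
        rw [Finset.mem_Ico]
        omega
      rw [hsplit, Finset.sum_union hdisj]
      congr 1
      · have h1 : ∀ l ∈ Finset.range m, ∑' z' : ℤ, K x (l + 1) z' *
            Fst K (m - l) z' (b + 1 - (l + 1)) z =
          ∑' z' : ℤ, K x (l + 1) z' *
            ∑ j ∈ Finset.range (m - l), ∑' z'' : ℤ, G K j z' z'' * K z'' (b - l - j) z := by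
          intro l hl
          have hl' := Finset.mem_range.1 hl
          refine tsum_congr fun z' => ?_
          have h3 : b + 1 - (l + 1) = b - l := by omega
          rw [h3, ih (m - l) (by omega) (by omega) (by omega) z']
        rw [Finset.sum_congr rfl h1, right_aux]
        refine Finset.sum_congr rfl fun i _ => tsum_congr fun z => ?_
        have h3 : b + 1 - (i + 1) = b - i := by omega
        rw [h3]
      · rw [Finset.sum_eq_single_of_mem b (Finset.mem_Ico.2 ⟨by omega, by omega⟩)]
        · have h3 : m - b = 0 := by omega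
          have h4 : b + 1 - (b + 1) = 0 := by omega
          simp only [h3, h4, Fst_zero, true_and]
          exact tsum_delta' z _
        · intro l hl hne
          have hl' := Finset.mem_Ico.1 hl
          have h3 : m - l = 0 := by omega
          have h4 : ¬ (b + 1 - (l + 1) = 0) := by omega
          have h5 : ∀ z' : ℤ, K x (l + 1) z' * Fst K (m - l) z' (b + 1 - (l + 1)) z = 0 := by
            intro z'
            rw [h3, Fst_zero, if_neg (fun hc => h4 hc.1), mul_zero]
          rw [tsum_congr h5, tsum_zero]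

theorem g_fst (K : Ker) {m n : ℕ} (h : m ≤ n) (x y : ℤ) :
    G K n x y = ∑ a ∈ Finset.Icc m n, ∑' z : ℤ, Fst K m x a z * G K (n - a) z y := by
  induction m using Nat.strong_induction_on generalizing x n with
  | _ m ih =>
    match m, ih, h with
    | 0, _, _ =>
      rw [Finset.sum_eq_single_of_mem 0 (Finset.mem_Icc.2 ⟨le_rfl, Nat.zero_le _⟩)]
      · simp only [Fst_zero, true_and, Nat.sub_zero]
        exact (tsum_delta x (fun z => G K n z y)).symm
      · intro a _ ha
        have h1 : ∀ z : ℤ, Fst K 0 x a z * G K (n - a) z y = 0 := by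
          intro z
          rw [Fst_zero, if_neg (fun hc => ha hc.1), zero_mul]
        rw [tsum_congr h1, tsum_zero]
    | m + 1, ih, h =>
      obtain ⟨p, rfl⟩ : ∃ p, n = p + 1 := ⟨n - 1, by omega⟩
      rw [G_succ]
      have h1 : ∀ l ∈ Finset.range (p + 1), ∑' z : ℤ, K x (l + 1) z * G K (p - l) z y =
          ∑ a ∈ Finset.Icc (max (m + 1) (l + 1)) (p + 1), ∑' z : ℤ, K x (l + 1) z *
            ∑' z' : ℤ, Fst K (m - l) z (a - (l + 1)) z' * G K (p + 1 - a) z' y := by
        intro l hl
        have hl' := Finset.mem_range.1 hl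
        have h2 : ∀ z : ℤ, G K (p - l) z y = ∑ a ∈ Finset.Icc (max (m + 1) (l + 1)) (p + 1),
            ∑' z' : ℤ, Fst K (m - l) z (a - (l + 1)) z' * G K (p + 1 - a) z' y := by
          intro z
          rw [ih (m - l) (by omega) (by omega : m - l ≤ p - l) z]
          refine Finset.sum_nbij' (fun b => b + (l + 1)) (fun a => a - (l + 1)) ?_ ?_ ?_ ?_ ?_
          · intro b hb
            rw [Finset.mem_Icc] at hb ⊢
            omega
          · intro a ha
            rw [Finset.mem_Icc] at ha ⊢
            omega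
          · intro b _
            show b + (l + 1) - (l + 1) = b
            omega
          · intro a ha
            rw [Finset.mem_Icc] at ha
            show a - (l + 1) + (l + 1) = a
            omega
          · intro b _
            refine tsum_congr fun z' => ?_
            show Fst K (m - l) z b z' * G K (p - l - b) z' y =
              Fst K (m - l) z (b + (l + 1) - (l + 1)) z' * G K (p + 1 - (b + (l + 1))) z' y
            have h3 : b + (l + 1) - (l + 1) = b := by omega
            have h4 : p + 1 - (b + (l + 1)) = p - l - b := by omega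
            rw [h3, h4]
        rw [tsum_congr fun z => by rw [h2 z], mul_fin]
      rw [Finset.sum_congr rfl h1]
      have h5 : ∀ a ∈ Finset.Icc (m + 1) (p + 1), ∑' z : ℤ, Fst K (m + 1) x a z *
          G K (p + 1 - a) z y = ∑ l ∈ Finset.range a, ∑' z : ℤ, K x (l + 1) z *
            ∑' z' : ℤ, Fst K (m - l) z (a - (l + 1)) z' * G K (p + 1 - a) z' y := by
        intro a _
        have h6 : ∀ z : ℤ, Fst K (m + 1) x a z * G K (p + 1 - a) z y =
            (∑ l ∈ Finset.range a, ∑' z' : ℤ, K x (l + 1) z' *
              Fst K (m - l) z' (a - (l + 1)) z) * G K (p + 1 - a) z y := by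
          intro z
          rw [Fst_succ]
        rw [tsum_congr h6, conv_tsum K (Finset.range a) x
          (fun l z' z => Fst K (m - l) z' (a - (l + 1)) z)]
      rw [Finset.sum_congr rfl h5]
      refine Finset.sum_comm' fun l a => ?_
      rw [Finset.mem_range, Finset.mem_Icc, Finset.mem_range, Finset.mem_Icc]
      omega

theorem q_fst (K : Ker) (m : ℕ) (x : ℤ) : Q K m x = ∑' a : ℕ, ∑' z : ℤ, Fst K m x a z := by
  induction m using Nat.strong_induction_on generalizing x with
  | _ m ih =>
    match m, ih with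
    | 0, _ =>
      rw [Q_zero, tsum_eq_single 0]
      · have h1 : ∀ z : ℤ, Fst K 0 x 0 z = (if x = z then 1 else 0) * (1 : ℝ≥0∞) := by
          intro z
          rw [Fst_zero]
          simp
        rw [tsum_congr h1]
        exact (tsum_delta x (fun _ => 1)).symm
      · intro a ha
        have h1 : ∀ z : ℤ, Fst K 0 x a z = 0 := by
          intro z
          rw [Fst_zero, if_neg (fun hc => ha hc.1)]
        rw [tsum_congr h1, tsum_zero]
    | m + 1, ih =>
      rw [Q_succ]
      -- the sum over a, l < a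
      have h1 : ∀ a : ℕ, ∑' z : ℤ, Fst K (m + 1) x a z =
          ∑' l : ℕ, if l < a then ∑' z' : ℤ, K x (l + 1) z' *
            ∑' z : ℤ, Fst K (m - l) z' (a - (l + 1)) z else 0 := by
        intro a
        have h2 : ∀ z : ℤ, Fst K (m + 1) x a z = (∑ l ∈ Finset.range a, ∑' z' : ℤ,
            K x (l + 1) z' * Fst K (m - l) z' (a - (l + 1)) z) * 1 := by
          intro z
          rw [Fst_succ, mul_one]
        rw [tsum_congr h2, conv_tsum K (Finset.range a) x
          (fun l z' z => Fst K (m - l) z' (a - (l + 1)) z) (fun _ => 1)]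
        rw [tsum_eq_sum (s := Finset.range a)]
        · refine Finset.sum_congr rfl fun l hl => ?_
          rw [if_pos (Finset.mem_range.1 hl)]
          refine tsum_congr fun z' => ?_
          congr 1
          refine tsum_congr fun z => ?_
          rw [mul_one]
        · intro l hl
          rw [if_neg (fun hc => hl (Finset.mem_range.2 hc))]
      have hcomm : ∑' a : ℕ, ∑' l : ℕ, (if l < a then ∑' z' : ℤ, K x (l + 1) z' *
            ∑' z : ℤ, Fst K (m - l) z' (a - (l + 1)) z else 0) =
          ∑' l : ℕ, ∑' a : ℕ, (if l < a then ∑' z' : ℤ, K x (l + 1) z' *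
            ∑' z : ℤ, Fst K (m - l) z' (a - (l + 1)) z else 0) := ENNReal.tsum_comm
      rw [tsum_congr h1, hcomm]
      refine tsum_congr fun l => ?_
      have h3 : ∀ z : ℤ, Q K (m - l) z = ∑' a : ℕ, ∑' z' : ℤ, Fst K (m - l) z a z' :=
        fun z => ih (m - l) (by omega) z
      have h4 : ∑' a : ℕ, (if l < a then ∑' z' : ℤ, K x (l + 1) z' *
            ∑' z : ℤ, Fst K (m - l) z' (a - (l + 1)) z else 0) =
          ∑' b : ℕ, ∑' z' : ℤ, K x (l + 1) z' * ∑' z : ℤ, Fst K (m - l) z' b z := by
        have hinj : Function.Injective (fun b : ℕ => b + (l + 1)) := fun a b hab => by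
          have : a + (l + 1) = b + (l + 1) := hab
          omega
        rw [← hinj.tsum_eq]
        · refine tsum_congr fun b => ?_
          rw [if_pos (by omega : l < b + (l + 1))]
          have h5 : b + (l + 1) - (l + 1) = b := by omega
          rw [h5]
        · intro a ha
          rw [Function.mem_support] at ha
          by_cases hla : l < a
          · exact ⟨a - (l + 1), by show a - (l + 1) + (l + 1) = a; omega⟩
          · rw [if_neg hla] at ha
            exact absurd rfl ha
      rw [h4, ENNReal.tsum_comm]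
      refine tsum_congr fun z => ?_
      rw [h3 z, ENNReal.tsum_mul_left]

theorem g_straddle (K : Ker) {m n : ℕ} (hm : 1 ≤ m) (h : m ≤ n) (x y : ℤ) :
    G K n x y = ∑ a ∈ Finset.Icc m n, ∑ j ∈ Finset.range m, ∑' z : ℤ, ∑' z' : ℤ,
      G K j x z' * K z' (a - j) z * G K (n - a) z y := by
  rw [g_fst K h x y]
  refine Finset.sum_congr rfl fun a ha => ?_
  rw [Finset.mem_Icc] at ha
  rw [← tsum_fin]
  refine tsum_congr fun z => ?_
  rw [fst_eq K hm ha.1 x z, Finset.sum_mul]
  refine Finset.sum_congr rfl fun j _ => ?_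
  rw [← ENNReal.tsum_mul_right]

end Pool.Agent.Helper18.WK
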