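import Pool.Agent.Helper18.WK.Defs

/-!
# Project WK, block WK-A3: the free walk leaves an interval of length `R` in `C R²` steps

Proof in words. `q h = ∑_l f (l+1) h` is a symmetric probability on `ℤ` with exponential tails and
`q 1 > 0`; `v = ∑ h² q h > 0`, `m = ∑ h⁴ q h < ∞`. For fixed `x₀` and `k` let `E g x` be the expectation of `g`
after `k` steps of the free walk (in `ℝ≥0∞`, or with real sums). For `g z = (z - x₀)²`: `E g x₀ = v k`; for
`g² `: `E g² x₀ ≤ C k²` (inductions on the number of steps with `∑ q h (y + h)² = y² + v`,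
`∑ q h (y + h)⁴ = y⁴ + 6 v y² + m`). Pointwise `g ≤ s + g² / λ + (λ / 4) 1{g ≥ s}`; with `s = v k / 4`,
`λ = 4 C k / v` this gives `P (g ≥ v k / 4) ≥ c = v² / (2 C)`. If `v k / 4 ≥ 4 R²` the walk started in
`x₀ ∈ (-R, R)` is outside with probability `≥ c`; and if `|x₀| ≥ R`, after one step inside the same bound
applies. So `It ≤ 1 - c` for `k = C₁ R²` and `≤ 1 / 2` after a bounded number of repetitions.
-/

open scoped ENNReal

namespace Pool.Agent.Helper18.WK

section aux26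

/-- the law of the heights, in `ℝ≥0∞` -/
private noncomputable def qe26 (F : Law) (h : ℤ) : ℝ≥0∞ := ∑' l : ℕ, ENNReal.ofReal (F.f (l + 1) h)

private theorem hk_eq26 (F : Law) (x z : ℤ) : hk (K0 F) x z = qe26 F (z - x) := rfl

private theorem qe_sum26 (F : Law) : ∑' h : ℤ, qe26 F h = 1 := by
  have h1 : ∑' p : ℕ × ℤ, ENNReal.ofReal (F.f p.1 p.2) = 1 := by
    rw [← ENNReal.ofReal_tsum_of_nonneg (f := fun p : ℕ × ℤ => F.f p.1 p.2)
      (fun p => F.f_nonneg p.1 p.2) F.f_sum.summable, F.f_sum.tsum_eq, ENNReal.ofReal_one]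
  rw [ENNReal.tsum_prod' (f := fun p : ℕ × ℤ => ENNReal.ofReal (F.f p.1 p.2)),
    tsum_eq_zero_add' ENNReal.summable] at h1
  simp only [F.f_zero, ENNReal.ofReal_zero, tsum_zero, zero_add] at h1
  unfold qe26
  rw [ENNReal.tsum_comm]
  exact h1

private theorem qe_symm26 (F : Law) (h : ℤ) : qe26 F (-h) = qe26 F h := by
  unfold qe26
  simp only [F.f_symm]

private theorem qe_one26 (F : Law) : qe26 F 1 ≠ 0 := by
  have hl : F.l0 ≠ 0 := by
    intro h
    have := F.f_l01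
    rw [h, F.f_zero] at this
    exact lt_irrefl _ this
  obtain ⟨m, hm⟩ := Nat.exists_eq_succ_of_ne_zero hl
  unfold qe26
  intro h0
  rw [ENNReal.tsum_eq_zero] at h0
  have h1 := h0 m
  rw [ENNReal.ofReal_eq_zero] at h1
  have h2 := F.f_l01
  rw [hm] at h2
  exact absurd h1 (not_le.2 h2)

private theorem step26 {q : ℤ → ℝ} (hq0 : ∀ h, 0 ≤ q h) (hqs : Summable q) (hq1 : ∑' h, q h = 1)
    (hsym : ∀ h, q (-h) = q h) {R : ℕ} (hR : 1 ≤ R) {x : ℤ} (hx : |x| < (R : ℤ)) :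
    ∑' h : ℤ, q h * (2 + Real.cos (((x + h : ℤ) : ℝ) / R)) ≤
      (1 - q 1 / (3 * Real.pi ^ 2) / (R : ℝ) ^ 2) * (2 + Real.cos ((x : ℝ) / R)) := by
  have hR0 : (1 : ℝ) ≤ R := by exact_mod_cast hR
  have hRpos : (0 : ℝ) < R := by linarith
  have hb : ∀ g : ℤ → ℝ, (∀ h, |g h| ≤ 3) → Summable fun h => q h * g h := by
    intro g hg
    refine Summable.of_norm_bounded (g := fun h => q h * 3) (hqs.mul_right 3) fun h => ?_
    rw [Real.norm_eq_abs, abs_mul, abs_of_nonneg (hq0 h)]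
    exact mul_le_mul_of_nonneg_left (hg h) (hq0 h)
  have hc : ∀ t : ℝ, |2 + Real.cos t| ≤ 3 := by
    intro t
    rw [abs_le]
    constructor
    · linarith [Real.neg_one_le_cos t]
    · linarith [Real.cos_le_one t]
  have hc1 : ∀ t : ℝ, |Real.cos t| ≤ 3 := fun t => (Real.abs_cos_le_one t).trans (by norm_num)
  set S := ∑' h : ℤ, q h * (2 + Real.cos (((x + h : ℤ) : ℝ) / R)) with hS
  set Φ := ∑' h : ℤ, q h * Real.cos ((h : ℝ) / R) with hΦ
  have hs1 : Summable fun h : ℤ => q h * (2 + Real.cos (((x + h : ℤ) : ℝ) / R)) :=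
    hb _ fun h => hc _
  have hs2 : Summable fun h : ℤ => q h * (2 + Real.cos (((x - h : ℤ) : ℝ) / R)) :=
    hb _ fun h => hc _
  have hs3 : Summable fun h : ℤ => q h * Real.cos ((h : ℝ) / R) := hb _ fun h => hc1 _
  have hS2 : S = ∑' h : ℤ, q h * (2 + Real.cos (((x - h : ℤ) : ℝ) / R)) := by
    rw [hS, ← (Equiv.neg ℤ).tsum_eq]
    refine tsum_congr fun h => ?_
    rw [Equiv.neg_apply, hsym, ← sub_eq_add_neg]
  have hS3 : 2 * S = 4 + 2 * (Real.cos ((x : ℝ) / R) * Φ) := by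
    have e1 : 2 * S = ∑' h : ℤ, (q h * (2 + Real.cos (((x + h : ℤ) : ℝ) / R)) +
        q h * (2 + Real.cos (((x - h : ℤ) : ℝ) / R))) := by
      rw [Summable.tsum_add hs1 hs2, ← hS2]
      ring
    have e2 : ∀ h : ℤ, q h * (2 + Real.cos (((x + h : ℤ) : ℝ) / R)) +
        q h * (2 + Real.cos (((x - h : ℤ) : ℝ) / R)) =
        4 * q h + 2 * Real.cos ((x : ℝ) / R) * (q h * Real.cos ((h : ℝ) / R)) := by
      intro h
      push_cast
      rw [add_div, sub_div, Real.cos_add, Real.cos_sub]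
      ring
    rw [e1, tsum_congr e2, Summable.tsum_add (hqs.mul_left 4) (hs3.mul_left _), tsum_mul_left,
      tsum_mul_left, hq1]
    ring
  have hΦ1 : q 1 * (1 - Real.cos (1 / R)) ≤ 1 - Φ := by
    have e3 : 1 - Φ = ∑' h : ℤ, (q h - q h * Real.cos ((h : ℝ) / R)) := by
      rw [Summable.tsum_sub hqs hs3, hq1]
    rw [e3]
    have h5 := (hqs.sub hs3).le_tsum 1 (fun h _ => by
      have : q h - q h * Real.cos ((h : ℝ) / R) = q h * (1 - Real.cos ((h : ℝ) / R)) := by ring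
      rw [this]
      exact mul_nonneg (hq0 h) (by linarith [Real.cos_le_one ((h : ℝ) / R)]))
    have h6 : q 1 - q 1 * Real.cos (((1 : ℤ) : ℝ) / R) = q 1 * (1 - Real.cos (1 / R)) := by
      push_cast
      ring
    rw [h6] at h5
    exact h5
  have hcos1 : Real.cos (1 / (R : ℝ)) ≤ 1 - 2 / Real.pi ^ 2 * (1 / (R : ℝ)) ^ 2 := by
    apply Real.cos_le_one_sub_mul_cos_sq
    rw [abs_of_nonneg (by positivity)]
    have : 1 / (R : ℝ) ≤ 1 := by
      rw [div_le_one hRpos]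
      exact hR0
    linarith [Real.pi_gt_three]
  have hcosx : 1 / 2 ≤ Real.cos ((x : ℝ) / R) := by
    have hx1 : |(x : ℝ) / R| ≤ 1 := by
      rw [abs_div, abs_of_pos hRpos, div_le_one hRpos]
      have : ((|x| : ℤ) : ℝ) < ((R : ℤ) : ℝ) := by exact_mod_cast hx
      rw [Int.cast_abs] at this
      push_cast at this
      exact this.le
    have h7 := Real.one_sub_sq_div_two_le_cos (x := (x : ℝ) / R)
    have h8 : ((x : ℝ) / R) ^ 2 ≤ 1 := by
      rw [← sq_abs]
      nlinarith [abs_nonneg ((x : ℝ) / R)]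
    linarith
  have hcx1 := Real.cos_le_one ((x : ℝ) / R)
  have hq10 := hq0 1
  set e := q 1 / (3 * Real.pi ^ 2) / (R : ℝ) ^ 2 with he
  have he0 : 0 ≤ e := by positivity
  have hpi : Real.pi ≠ 0 := Real.pi_ne_zero
  have h9 : 6 * e ≤ 1 - Φ := by
    refine le_trans ?_ hΦ1
    have h10 : 2 / Real.pi ^ 2 * (1 / (R : ℝ)) ^ 2 ≤ 1 - Real.cos (1 / R) := by linarith
    have h11 : 6 * e = q 1 * (2 / Real.pi ^ 2 * (1 / (R : ℝ)) ^ 2) := by
      rw [he]
      field_simp
      ring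
    rw [h11]
    exact mul_le_mul_of_nonneg_left h10 hq10
  have h12 : S = 2 + Real.cos ((x : ℝ) / R) * Φ := by linarith
  rw [h12]
  nlinarith [mul_nonneg (by linarith : (0 : ℝ) ≤ Real.cos ((x : ℝ) / R) - 1 / 2)
    (by linarith : (0 : ℝ) ≤ 1 - Φ - 6 * e), mul_nonneg he0
    (by linarith : (0 : ℝ) ≤ Real.cos ((x : ℝ) / R) - 1 / 2)]

private theorem inside26 {Q : ℤ → ℝ≥0∞} (hQ : ∑' h, Q h = 1) (hsym : ∀ h, Q (-h) = Q h)
    {R : ℕ} (hR : 1 ≤ R) {c : ℝ} (hc : c = (Q 1).toReal / (3 * Real.pi ^ 2)) (hc1 : c ≤ 1)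
    (k : ℕ) (x : ℤ) (hx : |x| < (R : ℤ)) :
    It (fun x z => Q (z - x)) R k x ≤
      ENNReal.ofReal ((1 - c / (R : ℝ) ^ 2) ^ k * (2 + Real.cos ((x : ℝ) / R))) := by
  have hR0 : (1 : ℝ) ≤ R := by exact_mod_cast hR
  have hQt : ∀ h, Q h ≠ ⊤ := by
    intro h
    have := ENNReal.le_tsum (f := Q) h
    rw [hQ] at this
    exact ne_top_of_le_ne_top ENNReal.one_ne_top this
  have hρ : 0 ≤ 1 - c / (R : ℝ) ^ 2 := by
    have : c / (R : ℝ) ^ 2 ≤ 1 := by
      rw [div_le_one (by positivity)]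
      nlinarith
    linarith
  have hg : ∀ t : ℝ, 0 ≤ 2 + Real.cos t := fun t => by linarith [Real.neg_one_le_cos t]
  induction k generalizing x with
  | zero =>
    rw [pow_zero, one_mul]
    change (1 : ℝ≥0∞) ≤ _
    rw [← ENNReal.ofReal_one]
    apply ENNReal.ofReal_le_ofReal
    linarith [Real.neg_one_le_cos ((x : ℝ) / R)]
  | succ k ih =>
    have hqs : Summable fun h => (Q h).toReal :=
      ENNReal.summable_toReal (by rw [hQ]; exact ENNReal.one_ne_top)
    have hq1 : ∑' h, (Q h).toReal = 1 := by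
      rw [← ENNReal.tsum_toReal_eq hQt, hQ, ENNReal.toReal_one]
    have hst := step26 (q := fun h => (Q h).toReal) (fun h => ENNReal.toReal_nonneg) hqs hq1
      (fun h => by rw [hsym]) hR hx
    have hsum : Summable fun h : ℤ => (Q h).toReal * (2 + Real.cos (((x + h : ℤ) : ℝ) / R)) := by
      refine Summable.of_nonneg_of_le (fun h => mul_nonneg ENNReal.toReal_nonneg (hg _))
        (fun h => ?_) (hqs.mul_right 3)
      exact mul_le_mul_of_nonneg_left (by linarith [Real.cos_le_one (((x + h : ℤ) : ℝ) / R)])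
        ENNReal.toReal_nonneg
    calc It (fun x z => Q (z - x)) R (k + 1) x
        = ∑' z : ℤ, Q (z - x) * if |z| < (R : ℤ) then It (fun x z => Q (z - x)) R k z else 0 := rfl
      _ ≤ ∑' z : ℤ, Q (z - x) * ENNReal.ofReal ((1 - c / (R : ℝ) ^ 2) ^ k *
            (2 + Real.cos ((z : ℝ) / R))) := by
          refine ENNReal.tsum_le_tsum fun z => ?_
          by_cases hz : |z| < (R : ℤ)
          · rw [if_pos hz]
            exact mul_le_mul_right (ih z hz) _
          · rw [if_neg hz, mul_zero]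
            exact zero_le
      _ = ∑' h : ℤ, Q h * ENNReal.ofReal ((1 - c / (R : ℝ) ^ 2) ^ k *
            (2 + Real.cos (((x + h : ℤ) : ℝ) / R))) := by
          rw [← (Equiv.addLeft x).tsum_eq]
          refine tsum_congr fun h => ?_
          rw [Equiv.coe_addLeft, add_sub_cancel_left]
      _ = ∑' h : ℤ, ENNReal.ofReal ((1 - c / (R : ℝ) ^ 2) ^ k *
            ((Q h).toReal * (2 + Real.cos (((x + h : ℤ) : ℝ) / R)))) := by
          refine tsum_congr fun h => ?_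
          have e1 : (1 - c / (R : ℝ) ^ 2) ^ k * ((Q h).toReal *
              (2 + Real.cos (((x + h : ℤ) : ℝ) / R))) = (Q h).toReal *
              ((1 - c / (R : ℝ) ^ 2) ^ k * (2 + Real.cos (((x + h : ℤ) : ℝ) / R))) := by ring
          rw [e1, ENNReal.ofReal_mul ENNReal.toReal_nonneg, ENNReal.ofReal_toReal (hQt h)]
      _ = ENNReal.ofReal ((1 - c / (R : ℝ) ^ 2) ^ k *
            ∑' h : ℤ, (Q h).toReal * (2 + Real.cos (((x + h : ℤ) : ℝ) / R))) := by
          rw [← ENNReal.ofReal_tsum_of_nonneg (fun h => mul_nonneg (pow_nonneg hρ k)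
            (mul_nonneg ENNReal.toReal_nonneg (hg _))) (hsum.mul_left _), tsum_mul_left]
      _ ≤ _ := by
          apply ENNReal.ofReal_le_ofReal
          rw [pow_succ (1 - c / (R : ℝ) ^ 2) k, mul_assoc]
          refine mul_le_mul_of_nonneg_left ?_ (pow_nonneg hρ k)
          rw [hc]
          exact hst

private theorem all26 {Q : ℤ → ℝ≥0∞} (hQ : ∑' h, Q h = 1) (hsym : ∀ h, Q (-h) = Q h)
    {R : ℕ} (hR : 1 ≤ R) {c : ℝ} (hc : c = (Q 1).toReal / (3 * Real.pi ^ 2)) (hc1 : c ≤ 1)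
    (k : ℕ) (x : ℤ) :
    It (fun x z => Q (z - x)) R (k + 1) x ≤ ENNReal.ofReal (3 * (1 - c / (R : ℝ) ^ 2) ^ k) := by
  have hR0 : (1 : ℝ) ≤ R := by exact_mod_cast hR
  have hρ : 0 ≤ 1 - c / (R : ℝ) ^ 2 := by
    have : c / (R : ℝ) ^ 2 ≤ 1 := by
      rw [div_le_one (by positivity)]
      nlinarith
    linarith
  calc It (fun x z => Q (z - x)) R (k + 1) x
      = ∑' z : ℤ, Q (z - x) * if |z| < (R : ℤ) then It (fun x z => Q (z - x)) R k z else 0 := rfl
    _ ≤ ∑' z : ℤ, Q (z - x) * ENNReal.ofReal (3 * (1 - c / (R : ℝ) ^ 2) ^ k) := by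
        refine ENNReal.tsum_le_tsum fun z => ?_
        by_cases hz : |z| < (R : ℤ)
        · rw [if_pos hz]
          refine mul_le_mul_right ((inside26 hQ hsym hR hc hc1 k z hz).trans ?_) _
          apply ENNReal.ofReal_le_ofReal
          rw [mul_comm]
          exact mul_le_mul_of_nonneg_right (by linarith [Real.cos_le_one ((z : ℝ) / R)])
            (pow_nonneg hρ k)
        · rw [if_neg hz, mul_zero]
          exact zero_le
    _ = _ := by
        rw [ENNReal.tsum_mul_right]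
        have : ∑' z : ℤ, Q (z - x) = 1 := by
          rw [← hQ, ← (Equiv.addLeft x).tsum_eq]
          refine tsum_congr fun h => ?_
          rw [Equiv.coe_addLeft, add_sub_cancel_left]
        rw [this, one_mul]

end aux26

theorem hk_K0_sum (F : Law) (x : ℤ) : ∑' z, hk (K0 F) x z = 1 := by
  rw [← qe_sum26 F, ← (Equiv.addLeft x).tsum_eq]
  refine tsum_congr fun h => ?_
  rw [hk_eq26, Equiv.coe_addLeft, add_sub_cancel_left]

theorem escape (F : Law) : ∃ C : ℕ, 1 ≤ C ∧ ∀ R : ℕ, 1 ≤ R → ∀ x : ℤ,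
    It (hk (K0 F)) R (C * R ^ 2) x ≤ 1 / 2 := by
  have hQ := qe_sum26 F
  have hQ1t : qe26 F 1 ≠ ⊤ := by
    have := ENNReal.le_tsum (f := qe26 F) 1
    rw [hQ] at this
    exact ne_top_of_le_ne_top ENNReal.one_ne_top this
  have hq1 : 0 < (qe26 F 1).toReal := ENNReal.toReal_pos (qe_one26 F) hQ1t
  have hq2 : (qe26 F 1).toReal ≤ 1 := by
    have := ENNReal.le_tsum (f := qe26 F) 1
    rw [hQ] at this
    have h1 := ENNReal.toReal_mono ENNReal.one_ne_top this
    rwa [ENNReal.toReal_one] at h1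
  obtain ⟨c, hc⟩ : ∃ c : ℝ, c = (qe26 F 1).toReal / (3 * Real.pi ^ 2) := ⟨_, rfl⟩
  have hc0 : 0 < c := by
    rw [hc]
    have := Real.pi_pos
    positivity
  have hc1 : c ≤ 1 := by
    rw [hc, div_le_one (by positivity)]
    nlinarith [Real.pi_gt_three]
  refine ⟨⌈2 / c⌉₊ + 1, by omega, fun R hR x => ?_⟩
  have hR0 : (1 : ℝ) ≤ R := by exact_mod_cast hR
  obtain ⟨m, hm⟩ : ∃ m : ℕ, (⌈2 / c⌉₊ + 1) * R ^ 2 = m + 1 := by
    have : 1 ≤ (⌈2 / c⌉₊ + 1) * R ^ 2 := by
      have : 1 ≤ R ^ 2 := Nat.one_le_pow _ _ (by omega)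
      nlinarith
    exact ⟨(⌈2 / c⌉₊ + 1) * R ^ 2 - 1, by omega⟩
  rw [hm]
  have h1 := all26 hQ (qe_symm26 F) hR hc hc1 m x
  refine le_trans h1 ?_
  have hρ : 0 ≤ 1 - c / (R : ℝ) ^ 2 := by
    have : c / (R : ℝ) ^ 2 ≤ 1 := by
      rw [div_le_one (by positivity)]
      nlinarith
    linarith
  have h2 : (1 - c / (R : ℝ) ^ 2) ^ m ≤ Real.exp (-2) := by
    have h3 : 1 - c / (R : ℝ) ^ 2 ≤ Real.exp (-(c / (R : ℝ) ^ 2)) := by
      have := Real.add_one_le_exp (-(c / (R : ℝ) ^ 2))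
      linarith
    calc (1 - c / (R : ℝ) ^ 2) ^ m ≤ Real.exp (-(c / (R : ℝ) ^ 2)) ^ m :=
          pow_le_pow_left₀ hρ h3 m
      _ = Real.exp (m * (-(c / (R : ℝ) ^ 2))) := by rw [Real.exp_nat_mul]
      _ ≤ Real.exp (-2) := by
          apply Real.exp_le_exp.2
          have h4 : (2 / c) * (R : ℝ) ^ 2 ≤ m := by
            have h5 : ((⌈2 / c⌉₊ : ℝ) + 1) * (R : ℝ) ^ 2 = m + 1 := by exact_mod_cast hm
            have h6 : 2 / c ≤ (⌈2 / c⌉₊ : ℝ) := Nat.le_ceil _
            nlinarith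
          have h7 : 2 ≤ (m : ℝ) * (c / (R : ℝ) ^ 2) := by
            rw [← mul_div_assoc, le_div_iff₀ (by positivity)]
            have h8 : (2 / c) * (R : ℝ) ^ 2 * c ≤ m * c :=
              mul_le_mul_of_nonneg_right h4 hc0.le
            have h9 : (2 / c) * (R : ℝ) ^ 2 * c = 2 * (R : ℝ) ^ 2 := by
              field_simp
            linarith
          linarith
  have h10 : Real.exp (-2) ≤ 1 / 6 := by
    have h11 : Real.exp 2 = Real.exp 1 * Real.exp 1 := by
      rw [← Real.exp_add]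
      norm_num
    have h12 := Real.exp_one_gt_d9
    rw [Real.exp_neg, h11]
    rw [inv_le_comm₀ (by positivity) (by norm_num)]
    nlinarith
  have h13 : ENNReal.ofReal (3 * (1 - c / (R : ℝ) ^ 2) ^ m) ≤ ENNReal.ofReal (1 / 2) := by
    apply ENNReal.ofReal_le_ofReal
    linarith
  refine h13.trans (le_of_eq ?_)
  rw [ENNReal.ofReal_div_of_pos (by norm_num), ENNReal.ofReal_one, ENNReal.ofReal_ofNat]

/-- monotonicity in the kernel -/
theorem it_mono {p p' : ℤ → ℤ → ℝ≥0∞} (h : ∀ x z, p x z ≤ p' x z) (R k : ℕ) (x : ℤ) :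
    It p R k x ≤ It p' R k x := by
  induction k generalizing x with
  | zero => exact le_rfl
  | succ k ih =>
    refine ENNReal.tsum_le_tsum fun z => ?_
    refine mul_le_mul' (h x z) ?_
    by_cases hz : |z| < (R : ℤ)
    · rw [if_pos hz, if_pos hz]
      exact ih z
    · rw [if_neg hz, if_neg hz]

end Pool.Agent.Helper18.WK
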