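import Pool.Agent.Helper18.WK.Defs

/-!
# Project WK, block WK-A4: the one-sided superharmonic function

`a4q F h` is the mass of the pieces of height `h` (all lengths together). The proof is the one in words in
`Super.lean`.
-/

open scoped ENNReal

namespace Pool.Agent.Helper18.WK

/-- The mass of the pieces of height `h`. -/
noncomputable def a4q (F : Law) (h : ℤ) : ℝ := ∑' l : ℕ, F.f (l + 1) h

theorem a4_summable_l (F : Law) (h : ℤ) : Summable fun l : ℕ => F.f (l + 1) h := by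
  have h1 : Function.Injective fun l : ℕ => ((l + 1, h) : ℕ × ℤ) := by
    intro l l' h2
    have h3 := (Prod.mk.inj h2).1
    omega
  exact F.f_sum.summable.comp_injective h1

theorem a4q_nonneg (F : Law) (h : ℤ) : 0 ≤ a4q F h := tsum_nonneg fun _ => F.f_nonneg _ _

theorem a4q_neg (F : Law) (h : ℤ) : a4q F (-h) = a4q F h := tsum_congr fun _ => F.f_symm _ _

theorem a4q_hasSum (F : Law) : HasSum (a4q F) 1 := by
  have h1 : Function.Injective fun p : ℤ × ℕ => ((p.2 + 1, p.1) : ℕ × ℤ) := by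
    intro p p' h2
    have h3 := Prod.mk.inj h2
    refine Prod.ext h3.2 ?_
    have := h3.1
    omega
  have h2 : HasSum ((fun p : ℕ × ℤ => F.f p.1 p.2) ∘ fun p : ℤ × ℕ => ((p.2 + 1, p.1) : ℕ × ℤ)) 1 := by
    rw [h1.hasSum_iff]
    · exact F.f_sum
    · rintro ⟨l, h⟩ hx
      cases l with
      | zero => exact F.f_zero h
      | succ l => exact absurd ⟨(h, l), rfl⟩ hx
  exact h2.prod_fiberwise fun h => (a4_summable_l F h).hasSum

theorem a4_exp_nat {c : ℝ} (hc : 0 < c) : Summable fun n : ℕ => Real.exp (-c * (n : ℝ)) := by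
  have h2 : (fun n : ℕ => Real.exp (-c * (n : ℝ))) = fun n : ℕ => (Real.exp (-c)) ^ n := by
    ext n
    rw [← Real.exp_nat_mul]
    ring_nf
  rw [h2]
  refine summable_geometric_of_lt_one (Real.exp_pos _).le ?_
  rw [Real.exp_lt_one_iff]
  linarith

theorem a4_exp_int {c : ℝ} (hc : 0 < c) : Summable fun h : ℤ => Real.exp (-c * |(h : ℝ)|) := by
  refine Summable.of_nat_of_neg ?_ ?_
  · simpa using a4_exp_nat hc
  · simpa using a4_exp_nat hc

/-- Exponential tails. -/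
theorem a4q_tail (F : Law) : ∃ B' : ℝ, 0 < B' ∧ ∀ h : ℤ, a4q F h ≤ B' * Real.exp (-F.a * |(h : ℝ)|) := by
  have hs := a4_exp_nat F.a_pos
  refine ⟨F.B * ∑' n : ℕ, Real.exp (-F.a * (n : ℝ)), mul_pos F.B_pos ?_, fun h => ?_⟩
  · have h1 := hs.le_tsum 0 fun n _ => (Real.exp_pos _).le
    exact lt_of_lt_of_le (Real.exp_pos _) h1
  · have h1 : a4q F h ≤ ∑' n : ℕ, F.B * Real.exp (-F.a * |(h : ℝ)|) * Real.exp (-F.a * (n : ℝ)) := by
      refine (a4_summable_l F h).tsum_le_tsum (fun l => ?_) (hs.mul_left _)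
      refine (F.f_tail _ _).trans ?_
      rw [mul_assoc, ← Real.exp_add]
      refine mul_le_mul_of_nonneg_left (Real.exp_le_exp.2 ?_) F.B_pos.le
      have := F.a_pos
      push_cast
      nlinarith
    rw [tsum_mul_left] at h1
    calc a4q F h ≤ F.B * Real.exp (-F.a * |(h : ℝ)|) * ∑' n : ℕ, Real.exp (-F.a * (n : ℝ)) := h1
      _ = F.B * (∑' n : ℕ, Real.exp (-F.a * (n : ℝ))) * Real.exp (-F.a * |(h : ℝ)|) := by ring

theorem a4q_one_pos (F : Law) : 0 < a4q F 1 := by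
  have h0 : F.l0 ≠ 0 := by
    intro h1
    have h2 := F.f_l01
    rw [h1, F.f_zero] at h2
    exact lt_irrefl _ h2
  have h1 := (a4_summable_l F 1).le_tsum (F.l0 - 1) fun l _ => F.f_nonneg _ _
  have h2 : F.l0 - 1 + 1 = F.l0 := Nat.sub_add_cancel (Nat.pos_of_ne_zero h0)
  rw [h2] at h1
  exact lt_of_lt_of_le F.f_l01 h1

theorem a4_summable_w (F : Law) {b c : ℝ} (hb : b < F.a) (w : ℤ → ℝ)
    (hw : ∀ h : ℤ, |w h| ≤ c * Real.exp (b * |(h : ℝ)|)) : Summable fun h : ℤ => a4q F h * w h := by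
  obtain ⟨B', hB', hq⟩ := a4q_tail F
  refine Summable.of_norm_bounded
    (g := fun h : ℤ => (B' * c) * Real.exp (-(F.a - b) * |(h : ℝ)|))
    ((a4_exp_int (sub_pos.2 hb)).mul_left _) fun h => ?_
  rw [Real.norm_eq_abs, abs_mul, abs_of_nonneg (a4q_nonneg F h)]
  calc a4q F h * |w h| ≤ (B' * Real.exp (-F.a * |(h : ℝ)|)) * (c * Real.exp (b * |(h : ℝ)|)) :=
        mul_le_mul (hq h) (hw h) (abs_nonneg _) (by positivity)
    _ = (B' * c) * (Real.exp (-F.a * |(h : ℝ)|) * Real.exp (b * |(h : ℝ)|)) := by ring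
    _ = (B' * c) * Real.exp (-(F.a - b) * |(h : ℝ)|) := by
      rw [← Real.exp_add]
      ring_nf

theorem a4_abs_le_exp {b : ℝ} (hb : 0 < b) (t : ℝ) : |t| ≤ (1 / b) * Real.exp (b * |t|) := by
  have h1 := Real.add_one_le_exp (b * |t|)
  have h2 : b * |t| ≤ Real.exp (b * |t|) := by linarith
  calc |t| = (1 / b) * (b * |t|) := by field_simp
    _ ≤ (1 / b) * Real.exp (b * |t|) := mul_le_mul_of_nonneg_left h2 (by positivity)

/-- The mean is zero. -/
theorem a4q_mean (F : Law) : HasSum (fun h : ℤ => a4q F h * (h : ℝ)) 0 := by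
  have h0 := F.a_pos
  have h1 : Summable fun h : ℤ => a4q F h * (h : ℝ) :=
    a4_summable_w F (b := F.a / 4) (c := 1 / (F.a / 4)) (by linarith) (fun h => (h : ℝ))
      fun h => a4_abs_le_exp (by linarith) _
  have h2 : ∑' h : ℤ, a4q F h * (h : ℝ) = -∑' h : ℤ, a4q F h * (h : ℝ) := by
    conv_lhs => rw [← (Equiv.neg ℤ).tsum_eq fun h : ℤ => a4q F h * (h : ℝ)]
    rw [← tsum_neg]
    refine tsum_congr fun h => ?_
    rw [Equiv.neg_apply, a4q_neg, Int.cast_neg, mul_neg]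
  have h3 : ∑' h : ℤ, a4q F h * (h : ℝ) = 0 := by linarith
  rw [← h3]
  exact h1.hasSum

theorem a4_exp_summable (F : Law) {b : ℝ} (hb : 0 < b) (hb' : b < F.a) :
    Summable fun h : ℤ => a4q F h * Real.exp (-b * (h : ℝ)) := by
  refine a4_summable_w F (b := b) (c := 1) hb' (fun h => Real.exp (-b * (h : ℝ))) fun h => ?_
  rw [abs_of_pos (Real.exp_pos _), one_mul, Real.exp_le_exp]
  have h1 := neg_abs_le (h : ℝ)
  nlinarith

/-- The exponential moment is larger than one. -/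
theorem a4_phi_gt (F : Law) {b : ℝ} (hb : 0 < b) (hb' : b < F.a) :
    1 < ∑' h : ℤ, a4q F h * Real.exp (-b * (h : ℝ)) := by
  have h1 := (a4_exp_summable F hb hb').hasSum
  have h2 := (h1.sub (a4q_hasSum F)).add ((a4q_mean F).mul_left b)
  have h3 : ∀ h : ℤ, a4q F h * Real.exp (-b * (h : ℝ)) - a4q F h + b * (a4q F h * (h : ℝ)) =
      a4q F h * (Real.exp (-b * (h : ℝ)) - (-b * (h : ℝ) + 1)) := fun h => by ring
  simp only [h3] at h2
  have h4 := le_hasSum h2 1 fun h _ => mul_nonneg (a4q_nonneg F h)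
    (sub_nonneg.2 (Real.add_one_le_exp (-b * (h : ℝ))))
  have h5 : 0 < a4q F 1 * (Real.exp (-b * ((1 : ℤ) : ℝ)) - (-b * ((1 : ℤ) : ℝ) + 1)) := by
    refine mul_pos (a4q_one_pos F) (sub_pos.2 (Real.add_one_lt_exp ?_))
    rw [Int.cast_one, mul_one]
    exact (neg_neg_iff_pos.2 hb).ne
  linarith

/-- The superharmonic function in terms of real numbers. -/
theorem a4_real (F : Law) : ∃ A : ℕ, 1 ≤ A ∧ ∀ x : ℤ, 1 ≤ x →
    (Summable fun z : ℤ => if 1 ≤ z then a4q F (z - x) *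
      ((z : ℝ) + A - Real.exp (-(F.a / 4) * (z : ℝ))) else 0) ∧
    ∑' z : ℤ, (if 1 ≤ z then a4q F (z - x) *
      ((z : ℝ) + A - Real.exp (-(F.a / 4) * (z : ℝ))) else 0) ≤
      (x : ℝ) + A - Real.exp (-(F.a / 4) * (x : ℝ)) := by
  have ha := F.a_pos
  set b : ℝ := F.a / 4 with hbdef
  have hb : 0 < b := by positivity
  have hba : F.a = 4 * b := by rw [hbdef]; ring
  have hb' : b < F.a := by linarith
  have hφ := a4_phi_gt F hb hb'
  have hφs := (a4_exp_summable F hb hb').hasSum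
  set φ : ℝ := ∑' h : ℤ, a4q F h * Real.exp (-b * (h : ℝ)) with hφdef
  obtain ⟨B', hB', hq⟩ := a4q_tail F
  have hSs := a4_exp_int (c := 2 * b) (by positivity)
  set S : ℝ := ∑' z : ℤ, Real.exp (-(2 * b) * |(z : ℝ)|) with hSdef
  have hS : 0 < S := by
    have h1 := hSs.le_tsum 0 fun n _ => (Real.exp_pos _).le
    exact lt_of_lt_of_le (Real.exp_pos _) h1
  -- choice of J
  obtain ⟨J, hJ⟩ : ∃ J : ℕ, B' * (1 + 1 / b) * S * Real.exp (-b * J) ≤ φ - 1 := by
    have h1 : Filter.Tendsto (fun J : ℕ => B' * (1 + 1 / b) * S * Real.exp (-b * J)) Filter.atTop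
        (nhds (B' * (1 + 1 / b) * S * 0)) := by
      refine Filter.Tendsto.const_mul _ ?_
      exact (a4_exp_nat hb).tendsto_atTop_zero
    rw [mul_zero] at h1
    exact ((h1.eventually (gt_mem_nhds (show (0 : ℝ) < φ - 1 by linarith))).exists).imp
      fun J hJ => hJ.le
  obtain ⟨A, hA⟩ := exists_nat_ge ((J : ℝ) + Real.exp (b * J))
  have hA1 : 1 ≤ A := by
    have h1 := Real.add_one_le_exp (b * (J : ℝ))
    have h2 : (0 : ℝ) ≤ J := Nat.cast_nonneg J
    have h3 : (0 : ℝ) ≤ b * J := by positivity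
    have h4 : (1 : ℝ) ≤ A := by linarith
    exact_mod_cast h4
  refine ⟨A, hA1, fun x hx => ?_⟩
  have hx' : (1 : ℝ) ≤ x := by exact_mod_cast hx
  -- the sum over all z
  have hall : HasSum (fun z : ℤ => a4q F (z - x) * ((z : ℝ) + A - Real.exp (-b * (z : ℝ))))
      ((x : ℝ) + A - Real.exp (-b * (x : ℝ)) * φ) := by
    have h1 := ((a4q_hasSum F).mul_left ((x : ℝ) + A)).add ((a4q_mean F).sub
      (hφs.mul_left (Real.exp (-b * (x : ℝ)))))
    rw [← (Equiv.addRight x).hasSum_iff]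
    have h2 : (fun z : ℤ => a4q F (z - x) * ((z : ℝ) + A - Real.exp (-b * (z : ℝ)))) ∘
        (Equiv.addRight x) = fun h : ℤ => ((x : ℝ) + A) * a4q F h + (a4q F h * (h : ℝ) -
          Real.exp (-b * (x : ℝ)) * (a4q F h * Real.exp (-b * (h : ℝ)))) := by
      ext h
      simp only [Function.comp_apply, Equiv.coe_addRight, add_sub_cancel_right, Int.cast_add]
      rw [mul_add (-b), Real.exp_add]
      ring
    rw [h2]
    have h3 : ((x : ℝ) + A) * 1 + (0 - Real.exp (-b * (x : ℝ)) * φ) =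
        (x : ℝ) + A - Real.exp (-b * (x : ℝ)) * φ := by ring
    rw [← h3]
    exact h1
  -- the part z ≤ 0
  have hbd : ∀ z : ℤ, (if 1 ≤ z then (0 : ℝ) else
      -(a4q F (z - x) * ((z : ℝ) + A - Real.exp (-b * (z : ℝ))))) ≤
      (B' * (1 + 1 / b) * Real.exp (-b * J) * Real.exp (-b * (x : ℝ))) *
        Real.exp (-(2 * b) * |(z : ℝ)|) := by
    intro z
    have hpos : 0 ≤ (B' * (1 + 1 / b) * Real.exp (-b * J) * Real.exp (-b * (x : ℝ))) *
        Real.exp (-(2 * b) * |(z : ℝ)|) := by positivity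
    by_cases hz : 1 ≤ z
    · rw [if_pos hz]
      exact hpos
    · rw [if_neg hz]
      have hz' : (z : ℝ) ≤ 0 := by
        have : z ≤ 0 := by omega
        exact_mod_cast this
      have habs : |(z : ℝ)| = -z := abs_of_nonpos hz'
      by_cases hzJ : -(z : ℝ) ≤ J
      · refine le_trans ?_ hpos
        rw [neg_nonpos]
        refine mul_nonneg (a4q_nonneg F _) ?_
        have h1 : Real.exp (-b * (z : ℝ)) ≤ Real.exp (b * J) := by
          rw [Real.exp_le_exp]
          nlinarith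
        linarith
      · push Not at hzJ
        have h1 : -((z : ℝ) + A - Real.exp (-b * (z : ℝ))) ≤
            (1 + 1 / b) * Real.exp (b * |(z : ℝ)|) := by
          have h2 := a4_abs_le_exp hb (z : ℝ)
          have h3 : -b * (z : ℝ) = b * |(z : ℝ)| := by rw [habs]; ring
          rw [h3]
          have h4 : (0 : ℝ) ≤ A := Nat.cast_nonneg A
          rw [habs] at h2 ⊢
          linarith
        have h2 : a4q F (z - x) ≤ B' * Real.exp (-F.a * ((x : ℝ) + |(z : ℝ)|)) := by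
          have h3 := hq (z - x)
          have h4 : |((z - x : ℤ) : ℝ)| = (x : ℝ) + |(z : ℝ)| := by
            rw [Int.cast_sub, habs, abs_of_nonpos (by linarith)]
            ring
          rw [h4] at h3
          exact h3
        have h3 : 0 ≤ (1 + 1 / b) * Real.exp (b * |(z : ℝ)|) := by positivity
        calc -(a4q F (z - x) * ((z : ℝ) + A - Real.exp (-b * (z : ℝ))))
            = a4q F (z - x) * -((z : ℝ) + A - Real.exp (-b * (z : ℝ))) := by ring
          _ ≤ a4q F (z - x) * ((1 + 1 / b) * Real.exp (b * |(z : ℝ)|)) :=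
            mul_le_mul_of_nonneg_left h1 (a4q_nonneg F _)
          _ ≤ (B' * Real.exp (-F.a * ((x : ℝ) + |(z : ℝ)|))) *
              ((1 + 1 / b) * Real.exp (b * |(z : ℝ)|)) := mul_le_mul_of_nonneg_right h2 h3
          _ = (B' * (1 + 1 / b)) *
              (Real.exp (-F.a * ((x : ℝ) + |(z : ℝ)|)) * Real.exp (b * |(z : ℝ)|)) := by ring
          _ ≤ (B' * (1 + 1 / b)) *
              (Real.exp (-b * J) * Real.exp (-b * (x : ℝ)) * Real.exp (-(2 * b) * |(z : ℝ)|)) := by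
            refine mul_le_mul_of_nonneg_left ?_ (by positivity)
            rw [← Real.exp_add, ← Real.exp_add, ← Real.exp_add, Real.exp_le_exp, hba, habs]
            nlinarith
          _ = (B' * (1 + 1 / b) * Real.exp (-b * J) * Real.exp (-b * (x : ℝ))) *
              Real.exp (-(2 * b) * |(z : ℝ)|) := by ring
  have hsplit : ∀ z : ℤ, (if 1 ≤ z then a4q F (z - x) *
      ((z : ℝ) + A - Real.exp (-b * (z : ℝ))) else 0) =
      a4q F (z - x) * ((z : ℝ) + A - Real.exp (-b * (z : ℝ))) +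
      (if 1 ≤ z then (0 : ℝ) else
        -(a4q F (z - x) * ((z : ℝ) + A - Real.exp (-b * (z : ℝ))))) := by
    intro z
    by_cases hz : 1 ≤ z
    · rw [if_pos hz, if_pos hz, add_zero]
    · rw [if_neg hz, if_neg hz, add_neg_cancel]
  have hsum2 : Summable fun z : ℤ => (if 1 ≤ z then (0 : ℝ) else
      -(a4q F (z - x) * ((z : ℝ) + A - Real.exp (-b * (z : ℝ))))) := by
    refine Summable.of_norm_bounded (g := fun z : ℤ =>
      |a4q F (z - x) * ((z : ℝ) + A - Real.exp (-b * (z : ℝ)))|) hall.summable.abs fun z => ?_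
    by_cases hz : 1 ≤ z
    · rw [if_pos hz, norm_zero]
      exact abs_nonneg _
    · rw [if_neg hz, norm_neg, Real.norm_eq_abs]
  have hsum1 : Summable fun z : ℤ => if 1 ≤ z then a4q F (z - x) *
      ((z : ℝ) + A - Real.exp (-b * (z : ℝ))) else 0 := by
    simp only [hsplit]
    exact hall.summable.add hsum2
  refine ⟨hsum1, ?_⟩
  have h1 : ∑' z : ℤ, (if 1 ≤ z then (0 : ℝ) else
      -(a4q F (z - x) * ((z : ℝ) + A - Real.exp (-b * (z : ℝ))))) ≤
      (B' * (1 + 1 / b) * Real.exp (-b * J) * Real.exp (-b * (x : ℝ))) * S := by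
    rw [hSdef, ← tsum_mul_left]
    exact hsum2.tsum_le_tsum hbd (hSs.mul_left _)
  have h2 : (B' * (1 + 1 / b) * Real.exp (-b * J) * Real.exp (-b * (x : ℝ))) * S ≤
      Real.exp (-b * (x : ℝ)) * (φ - 1) := by
    calc (B' * (1 + 1 / b) * Real.exp (-b * J) * Real.exp (-b * (x : ℝ))) * S
        = Real.exp (-b * (x : ℝ)) * (B' * (1 + 1 / b) * S * Real.exp (-b * J)) := by ring
      _ ≤ Real.exp (-b * (x : ℝ)) * (φ - 1) :=
        mul_le_mul_of_nonneg_left hJ (Real.exp_pos _).le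
  have h3 : ∑' z : ℤ, (if 1 ≤ z then a4q F (z - x) *
      ((z : ℝ) + A - Real.exp (-b * (z : ℝ))) else 0) =
      ((x : ℝ) + A - Real.exp (-b * (x : ℝ)) * φ) + ∑' z : ℤ, (if 1 ≤ z then (0 : ℝ) else
        -(a4q F (z - x) * ((z : ℝ) + A - Real.exp (-b * (z : ℝ))))) := by
    rw [← hall.tsum_eq, ← hall.summable.tsum_add hsum2]
    exact tsum_congr hsplit
  rw [h3]
  have h4 : Real.exp (-b * (x : ℝ)) * (φ - 1) =
      Real.exp (-b * (x : ℝ)) * φ - Real.exp (-b * (x : ℝ)) := by ring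
  linarith

theorem a4_hk (F : Law) (x z : ℤ) (hx : 1 ≤ x) (hz : 1 ≤ z) :
    hk (Kp F) x z = ENNReal.ofReal (a4q F (z - x)) := by
  rw [hk, a4q, ENNReal.ofReal_tsum_of_nonneg (fun l => F.f_nonneg _ _) (a4_summable_l F _)]
  refine tsum_congr fun l => ?_
  rw [Kp, if_pos ⟨hx, hz⟩]

theorem a4_hk_zero (F : Law) (x z : ℤ) (h : ¬ (1 ≤ x ∧ 1 ≤ z)) : hk (Kp F) x z = 0 := by
  rw [hk]
  refine ENNReal.tsum_eq_zero.2 fun l => ?_
  rw [Kp, if_neg h]

theorem psi_plus (F : Law) : ∃ (A : ℕ) (ψ : ℤ → ℝ≥0∞),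
    (∀ x, ∑' z, hk (Kp F) x z * ψ z ≤ ψ x) ∧ (∀ z : ℤ, (z.natAbs : ℝ≥0∞) ≤ ψ z) ∧
    (∀ z : ℤ, ψ z ≤ (z.natAbs : ℝ≥0∞) + A) ∧ ∀ z, 1 ≤ ψ z := by
  obtain ⟨A, hA, hreal⟩ := a4_real F
  have hA' : (1 : ℝ) ≤ A := by exact_mod_cast hA
  have ha := F.a_pos
  have hexp : ∀ z : ℤ, 1 ≤ z → Real.exp (-(F.a / 4) * (z : ℝ)) ≤ 1 := by
    intro z hz
    have h1 : (1 : ℝ) ≤ z := by exact_mod_cast hz
    rw [Real.exp_le_one_iff]
    nlinarith
  have hcast : ∀ z : ℤ, 1 ≤ z → ((z.natAbs : ℕ) : ℝ≥0∞) = ENNReal.ofReal (z : ℝ) := by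
    intro z hz
    have h1 : ((z.natAbs : ℕ) : ℝ) = (z : ℝ) := by
      rw [Nat.cast_natAbs, abs_of_nonneg (by omega)]
    rw [← h1, ENNReal.ofReal_natCast]
  have hA1 : (1 : ℝ≥0∞) ≤ (A : ℝ≥0∞) := by exact_mod_cast hA
  refine ⟨A, fun z => if 1 ≤ z then ENNReal.ofReal ((z : ℝ) + A - Real.exp (-(F.a / 4) * (z : ℝ)))
    else (z.natAbs : ℝ≥0∞) + A, ?_, ?_, ?_, ?_⟩
  · intro x
    by_cases hx : 1 ≤ x
    · obtain ⟨h1, h2⟩ := hreal x hx
      have h3 : ∀ z : ℤ, hk (Kp F) x z *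
          (if 1 ≤ z then ENNReal.ofReal ((z : ℝ) + A - Real.exp (-(F.a / 4) * (z : ℝ)))
            else (z.natAbs : ℝ≥0∞) + A) =
          ENNReal.ofReal (if 1 ≤ z then a4q F (z - x) *
            ((z : ℝ) + A - Real.exp (-(F.a / 4) * (z : ℝ))) else 0) := by
        intro z
        by_cases hz : 1 ≤ z
        · rw [if_pos hz, if_pos hz, a4_hk F x z hx hz, ENNReal.ofReal_mul (a4q_nonneg F _)]
        · rw [if_neg hz, if_neg hz, a4_hk_zero F x z (fun h => hz h.2), zero_mul,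
            ENNReal.ofReal_zero]
      simp only [h3]
      rw [← ENNReal.ofReal_tsum_of_nonneg _ h1, if_pos hx]
      · exact ENNReal.ofReal_le_ofReal h2
      · intro z
        by_cases hz : 1 ≤ z
        · rw [if_pos hz]
          have h4 : (1 : ℝ) ≤ z := by exact_mod_cast hz
          exact mul_nonneg (a4q_nonneg F _) (by linarith [hexp z hz])
        · rw [if_neg hz]
    · have h3 : ∀ z : ℤ, hk (Kp F) x z *
          (if 1 ≤ z then ENNReal.ofReal ((z : ℝ) + A - Real.exp (-(F.a / 4) * (z : ℝ)))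
            else (z.natAbs : ℝ≥0∞) + A) = 0 := by
        intro z
        rw [a4_hk_zero F x z (fun h => hx h.1), zero_mul]
      simp only [h3]
      rw [tsum_zero]
      exact bot_le
  · intro z
    simp only
    by_cases hz : 1 ≤ z
    · rw [if_pos hz, hcast z hz]
      exact ENNReal.ofReal_le_ofReal (by linarith [hexp z hz])
    · rw [if_neg hz]
      exact le_self_add
  · intro z
    simp only
    by_cases hz : 1 ≤ z
    · have h4 : (0 : ℝ) ≤ z := by
        have : (0 : ℤ) ≤ z := by omega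
        exact_mod_cast this
      rw [if_pos hz, hcast z hz, ← ENNReal.ofReal_natCast A, ← ENNReal.ofReal_add h4 (by positivity)]
      refine ENNReal.ofReal_le_ofReal ?_
      linarith [Real.exp_pos (-(F.a / 4) * (z : ℝ))]
    · rw [if_neg hz]
  · intro z
    simp only
    by_cases hz : 1 ≤ z
    · have h4 : (1 : ℝ) ≤ z := by exact_mod_cast hz
      rw [if_pos hz, ENNReal.one_le_ofReal]
      linarith [hexp z hz]
    · rw [if_neg hz]
      exact hA1.trans le_add_self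

end Pool.Agent.Helper18.WK
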