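import Pool.Agent.Helper18.WK.Defs

/-!
# Project WK, block WK-A5: the two-sided superharmonic function

Explicit choice. `q h = ∑_l f (l+1) h`. `ψ z = |z| + A - exp (-b |z|) - M exp (-c |z|)` with `b = a / 2` and
`exp (-c) < q 1`. The last term is superharmonic off `0`, because the step from `x` to `x - 1` alone gives
`∑ q h exp (-c |x + h|) ≥ q 1 exp c exp (-c |x|)`; it pays for the crossing of `0` when `|x| ≤ J`, while
`exp (-b |z|)` pays for `|x| > J`. At `0` the killing with mass `δ f 1 0` pays if `A` is large.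
-/

open scoped ENNReal

namespace Pool.Agent.Helper18.WK

/-- the law of the height of a super-piece -/
private noncomputable def q34 (F : Law) (h : ℤ) : ℝ := ∑' l : ℕ, F.f (l + 1) h

private theorem summ_l34 (F : Law) (h : ℤ) : Summable fun l : ℕ => F.f (l + 1) h := by
  have h1 := F.f_sum.summable.comp_injective (i := fun l : ℕ => ((l + 1, h) : ℕ × ℤ))
    (fun a b hab => by simpa using congrArg Prod.fst hab)
  exact h1

private theorem q_nonneg34 (F : Law) (h : ℤ) : 0 ≤ q34 F h :=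
  tsum_nonneg fun _ => F.f_nonneg _ _

private theorem q_symm34 (F : Law) (h : ℤ) : q34 F (-h) = q34 F h := by
  unfold q34
  exact tsum_congr fun l => F.f_symm _ _

private theorem summ_geo34 {a : ℝ} (ha : 0 < a) : Summable fun l : ℕ => Real.exp (-a * l) := by
  have h1 : Summable fun l : ℕ => (Real.exp (-a)) ^ l :=
    summable_geometric_of_lt_one (Real.exp_pos _).le (by rw [Real.exp_lt_one_iff]; linarith)
  refine h1.congr fun l => ?_
  rw [← Real.exp_nat_mul]
  congr 1
  ring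

private theorem q_le34 (F : Law) : ∃ B₁ : ℝ, 0 < B₁ ∧ ∀ h : ℤ,
    q34 F h ≤ B₁ * Real.exp (-F.a * |(h : ℝ)|) := by
  have hs := summ_geo34 F.a_pos
  refine ⟨F.B * ∑' l : ℕ, Real.exp (-F.a * l), ?_, fun h => ?_⟩
  · refine mul_pos F.B_pos (hs.tsum_pos (fun l => (Real.exp_pos _).le) 0 (Real.exp_pos _))
  · have h2 : Summable fun l : ℕ => F.B * Real.exp (-F.a * |(h : ℝ)|) * Real.exp (-F.a * l) :=
      hs.mul_left _
    calc q34 F h ≤ ∑' l : ℕ, F.B * Real.exp (-F.a * |(h : ℝ)|) * Real.exp (-F.a * l) := by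
          refine (summ_l34 F h).tsum_le_tsum (fun l => ?_) h2
          refine (F.f_tail (l + 1) h).trans ?_
          rw [mul_assoc, ← Real.exp_add]
          refine mul_le_mul_of_nonneg_left (Real.exp_le_exp.2 ?_) F.B_pos.le
          push_cast
          nlinarith [F.a_pos]
      _ = F.B * (∑' l : ℕ, Real.exp (-F.a * l)) * Real.exp (-F.a * |(h : ℝ)|) := by
          rw [tsum_mul_left]; ring

private theorem q_one34 (F : Law) : 0 < q34 F 1 := by
  have h0 : F.l0 ≠ 0 := fun h => by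
    have := F.f_l01
    rw [h, F.f_zero] at this
    exact lt_irrefl _ this
  obtain ⟨m, hm⟩ := Nat.exists_eq_succ_of_ne_zero h0
  have h1 : F.f (m + 1) 1 ≤ q34 F 1 := (summ_l34 F 1).le_tsum m fun j _ => F.f_nonneg _ _
  have h2 := F.f_l01
  rw [hm] at h2
  exact lt_of_lt_of_le h2 h1

private theorem q_sum34 (F : Law) : HasSum (q34 F) 1 := by
  have h1 : HasSum (fun p : ℤ × ℕ => F.f p.2 p.1) 1 := by
    have := (Equiv.prodComm ℤ ℕ).hasSum_iff.2 F.f_sum
    exact this
  refine h1.prod_fiberwise fun h => ?_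
  have h2 := (summ_l34 F h).hasSum
  have h3 := (hasSum_nat_add_iff (f := fun l : ℕ => F.f l h) 1).1 h2
  simpa [F.f_zero, q34] using h3

/-- summability against exponentials -/
private theorem summ_exp34 {c : ℝ} (hc : 0 < c) : Summable fun h : ℤ => Real.exp (-c * |(h : ℝ)|) := by
  refine Summable.of_nat_of_neg ?_ ?_
  · refine (summ_geo34 hc).congr fun l => ?_
    simp
  · refine (summ_geo34 hc).congr fun l => ?_
    simp

private theorem summ_q34 (F : Law) {b C : ℝ} (hb : b < F.a) {g : ℤ → ℝ}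
    (hg : ∀ h : ℤ, |g h| ≤ C * Real.exp (b * |(h : ℝ)|)) : Summable fun h : ℤ => q34 F h * g h := by
  obtain ⟨B₁, hB, hq⟩ := q_le34 F
  refine Summable.of_norm_bounded (g := fun h : ℤ => B₁ * C * Real.exp (-(F.a - b) * |(h : ℝ)|))
    ((summ_exp34 (by linarith)).mul_left _) fun h => ?_
  rw [Real.norm_eq_abs, abs_mul, abs_of_nonneg (q_nonneg34 F h)]
  calc q34 F h * |g h| ≤ (B₁ * Real.exp (-F.a * |(h : ℝ)|)) * (C * Real.exp (b * |(h : ℝ)|)) :=
        mul_le_mul (hq h) (hg h) (abs_nonneg _) (mul_nonneg hB.le (Real.exp_pos _).le)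
    _ = B₁ * C * (Real.exp (-F.a * |(h : ℝ)|) * Real.exp (b * |(h : ℝ)|)) := by ring
    _ = B₁ * C * Real.exp (-(F.a - b) * |(h : ℝ)|) := by
        rw [← Real.exp_add]; congr 2; ring

private theorem abs_le34 {b : ℝ} (hb : 0 < b) (t : ℝ) : |t| ≤ 1 / b * Real.exp (b * |t|) := by
  rw [div_mul_eq_mul_div, le_div_iff₀ hb, one_mul]
  have := Real.add_one_le_exp (b * |t|)
  linarith

private theorem q_mean34 (F : Law) : HasSum (fun h : ℤ => q34 F h * (h : ℝ)) 0 := by
  have hs : Summable fun h : ℤ => q34 F h * (h : ℝ) :=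
    summ_q34 F (b := F.a / 2) (C := 1 / (F.a / 2)) (by linarith [F.a_pos]) fun h =>
      abs_le34 (by linarith [F.a_pos]) _
  have h1 := hs.hasSum
  have h2 : ∑' h : ℤ, q34 F h * (h : ℝ) = -∑' h : ℤ, q34 F h * (h : ℝ) := by
    rw [← tsum_neg]
    rw [← (Equiv.neg ℤ).tsum_eq]
    refine tsum_congr fun h => ?_
    simp [q_symm34]
  have h3 : ∑' h : ℤ, q34 F h * (h : ℝ) = 0 := by linarith
  rwa [h3] at h1

private theorem tool34 {p : ℤ → ℝ≥0∞} {pr ψ u : ℤ → ℝ} {s : ℝ} (hp : ∀ z, p z ≤ ENNReal.ofReal (pr z))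
    (hpr : ∀ z, 0 ≤ pr z) (hψ : ∀ z, 0 ≤ ψ z) (hu : ∀ z, pr z * ψ z ≤ u z) (hs : HasSum u s) :
    ∑' z, p z * ENNReal.ofReal (ψ z) ≤ ENNReal.ofReal s := by
  have h0 : ∀ z, 0 ≤ u z := fun z => (mul_nonneg (hpr z) (hψ z)).trans (hu z)
  rw [← hs.tsum_eq, ENNReal.ofReal_tsum_of_nonneg h0 hs.summable]
  refine ENNReal.tsum_le_tsum fun z => ?_
  calc p z * ENNReal.ofReal (ψ z) ≤ ENNReal.ofReal (pr z) * ENNReal.ofReal (ψ z) := by
        gcongr; exact hp z
    _ = ENNReal.ofReal (pr z * ψ z) := (ENNReal.ofReal_mul (hpr z)).symm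
    _ ≤ ENNReal.ofReal (u z) := ENNReal.ofReal_le_ofReal (hu z)

private theorem hk_le34 (F : Law) {δ : ℝ} (h0 : 0 < δ) (x z : ℤ) :
    hk (Kd F δ) x z ≤ ENNReal.ofReal (q34 F (z - x)) := by
  unfold hk q34
  rw [ENNReal.ofReal_tsum_of_nonneg (fun l => F.f_nonneg _ _) (summ_l34 F _)]
  refine ENNReal.tsum_le_tsum fun l => ?_
  unfold Kd
  split_ifs with h
  · obtain ⟨rfl, rfl, h3⟩ := h
    rw [h3, sub_zero]
    refine ENNReal.ofReal_le_ofReal ?_
    nlinarith [F.f_nonneg 1 0]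
  · exact le_rfl

private theorem hk_zero34 (F : Law) {δ : ℝ} (h1 : δ < 1) :
    hk (Kd F δ) 0 0 ≤ ENNReal.ofReal (q34 F 0 - δ * F.f 1 0) ∧ 0 ≤ q34 F 0 - δ * F.f 1 0 := by
  have hs : HasSum (fun l : ℕ => F.f (l + 1) 0 - if l = 0 then δ * F.f 1 0 else 0)
      (q34 F 0 - δ * F.f 1 0) :=
    (summ_l34 F 0).hasSum.sub (hasSum_ite_eq 0 (δ * F.f 1 0))
  have hn : ∀ l : ℕ, 0 ≤ F.f (l + 1) 0 - if l = 0 then δ * F.f 1 0 else 0 := by
    intro l
    split_ifs with h
    · subst h
      have := F.f_nonneg 1 0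
      simp only [zero_add]
      nlinarith
    · simpa using F.f_nonneg _ _
  refine ⟨?_, ?_⟩
  · rw [← hs.tsum_eq, ENNReal.ofReal_tsum_of_nonneg hn hs.summable]
    unfold hk
    refine ENNReal.tsum_le_tsum fun l => ?_
    unfold Kd
    rcases Nat.eq_zero_or_pos l with h | h
    · subst h
      simp only [zero_add, and_self, if_true]
      refine ENNReal.ofReal_le_ofReal (le_of_eq ?_)
      ring
    · have h2 : l ≠ 0 := by omega
      have h3 : ¬(l + 1 = 1) := by omega
      simp [h2]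
  · exact hs.nonneg hn

/-- the function, with real parameters -/
private noncomputable def psi34 (b c M A : ℝ) (z : ℤ) : ℝ :=
  |(z : ℝ)| + A - Real.exp (-b * |(z : ℝ)|) - M * Real.exp (-c * |(z : ℝ)|)

private theorem psi_neg34 (b c M A : ℝ) (z : ℤ) : psi34 b c M A (-z) = psi34 b c M A z := by
  unfold psi34
  push_cast
  rw [abs_neg]

private theorem shift34 {f : ℤ → ℝ} {s : ℝ} (h : HasSum f s) (x : ℤ) :
    HasSum (fun z => f (z - x)) s :=
  (Equiv.subRight x).hasSum_iff.2 h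

/-- the main estimate for `x > 0` -/
private theorem pos34 (F : Law) : ∃ b c κ φ D : ℝ, 0 < b ∧ b < F.a ∧ 0 < c ∧ 0 < κ ∧ 0 < φ ∧ 0 ≤ D ∧
    ∀ M A : ℝ, 0 ≤ M → ∀ x : ℤ, 0 < x → ∃ (u : ℤ → ℝ) (s : ℝ),
      (∀ z, q34 F (z - x) * psi34 b c M A z ≤ u z) ∧ HasSum u s ∧
      s ≤ psi34 b c M A x + D * Real.exp (-F.a * x) - φ * Real.exp (-b * x) -
        M * κ * Real.exp (-c * x) := by
  obtain ⟨B₁, hB, hq⟩ := q_le34 F
  have ha := F.a_pos
  have hq1 := q_one34 F
  set b : ℝ := F.a / 2 with hbdef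
  have hb : 0 < b := by positivity
  obtain ⟨c, hc, hcq⟩ : ∃ c : ℝ, 0 < c ∧ Real.exp (-c) < q34 F 1 := by
    refine ⟨max 1 (-Real.log (q34 F 1 / 2)), lt_of_lt_of_le one_pos (le_max_left _ _), ?_⟩
    calc Real.exp (-max 1 (-Real.log (q34 F 1 / 2))) ≤ Real.exp (Real.log (q34 F 1 / 2)) := by
          refine Real.exp_le_exp.2 ?_
          have := le_max_right 1 (-Real.log (q34 F 1 / 2))
          linarith
      _ = q34 F 1 / 2 := Real.exp_log (by positivity)
      _ < q34 F 1 := by linarith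
  have hsφ : Summable fun h : ℤ => q34 F h * Real.exp (-b * h) := by
    refine summ_q34 F (b := b) (C := 1) (by rw [hbdef]; linarith) fun h => ?_
    rw [abs_of_pos (Real.exp_pos _), one_mul]
    refine Real.exp_le_exp.2 ?_
    have := neg_abs_le (h : ℝ)
    nlinarith
  set φ : ℝ := ∑' h : ℤ, q34 F h * Real.exp (-b * h) with hφdef
  have hφ : 1 < φ := by
    have h1 : HasSum (fun h : ℤ => q34 F h + -b * (q34 F h * h) +
        if h = 1 then q34 F 1 * (Real.exp (-b) - 1 + b) else 0)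
        (1 + -b * 0 + q34 F 1 * (Real.exp (-b) - 1 + b)) :=
      ((q_sum34 F).add ((q_mean34 F).mul_left (-b))).add (hasSum_ite_eq 1 _)
    have h2 : 0 < Real.exp (-b) - 1 + b := by
      have := Real.add_one_lt_exp (x := -b) (by linarith)
      linarith
    have h3 := h1.summable.tsum_le_tsum (g := fun h : ℤ => q34 F h * Real.exp (-b * h)) (fun h => by
      split_ifs with hh
      · subst hh
        simp only [Int.cast_one, mul_one]
        nlinarith
      · have := Real.add_one_le_exp (-b * (h : ℝ))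
        have := mul_le_mul_of_nonneg_left this (q_nonneg34 F h)
        nlinarith) hsφ
    rw [h1.tsum_eq] at h3
    have : 0 < q34 F 1 * (Real.exp (-b) - 1 + b) := mul_pos hq1 h2
    rw [← hφdef] at h3
    linarith
  set E₂ : ℝ := ∑' z : ℤ, Real.exp (-b * |(z : ℝ)|) with hE
  have hsE := (summ_exp34 hb).hasSum
  rw [← hE] at hsE
  have hE0 : 0 ≤ E₂ := tsum_nonneg fun _ => (Real.exp_pos _).le
  set D₀ : ℝ := B₁ * (2 * (1 / b) + 1) with hD₀
  have hD₀0 : 0 ≤ D₀ := by positivity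
  refine ⟨b, c, q34 F 1 * Real.exp c - 1, φ - 1, D₀ * E₂, hb, by rw [hbdef]; linarith, hc, ?_,
    by linarith, mul_nonneg hD₀0 hE0, ?_⟩
  · have : Real.exp (-c) * Real.exp c < q34 F 1 * Real.exp c :=
      mul_lt_mul_of_pos_right hcq (Real.exp_pos _)
    rw [← Real.exp_add, neg_add_cancel, Real.exp_zero] at this
    linarith
  intro M A hM x hx
  have hxr : (1 : ℝ) ≤ (x : ℝ) := by exact_mod_cast hx
  refine ⟨fun z => (q34 F (z - x) * ((z - x : ℤ) : ℝ) + q34 F (z - x) * (x + A) -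
      q34 F (z - x) * Real.exp (-b * ((z - x : ℤ) : ℝ)) * Real.exp (-b * x)) +
      D₀ * Real.exp (-F.a * x) * Real.exp (-b * |(z : ℝ)|) -
      (if z = x - 1 then M * Real.exp (-c * ((x : ℝ) - 1)) * q34 F 1 else 0),
    (0 + 1 * (x + A) - φ * Real.exp (-b * x)) + D₀ * Real.exp (-F.a * x) * E₂ -
      M * Real.exp (-c * ((x : ℝ) - 1)) * q34 F 1, fun z => ?_, ?_, ?_⟩
  · have hqz := q_nonneg34 F (z - x)
    have hexp : Real.exp (-b * ((z - x : ℤ) : ℝ)) * Real.exp (-b * x) = Real.exp (-b * z) := by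
      rw [← Real.exp_add]; congr 1; push_cast; ring
    have hlin : q34 F (z - x) * ((z - x : ℤ) : ℝ) + q34 F (z - x) * (x + A) =
        q34 F (z - x) * (z + A) := by push_cast; ring
    beta_reduce
    rw [mul_assoc (q34 F (z - x)) (Real.exp _) (Real.exp _), hexp, hlin]
    have hDpos : 0 ≤ D₀ * Real.exp (-F.a * x) * Real.exp (-b * |(z : ℝ)|) := by positivity
    rcases le_or_gt 0 z with hz | hz
    · have hzr : |(z : ℝ)| = z := abs_of_nonneg (by exact_mod_cast hz)
      unfold psi34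
      rw [hzr] at hDpos ⊢
      split_ifs with h
      · subst h
        have h2 : x - 1 - x = -1 := by ring
        rw [h2, q_symm34]
        push_cast at hDpos ⊢
        nlinarith
      · have h3 : 0 ≤ q34 F (z - x) * (M * Real.exp (-c * z)) := by positivity
        nlinarith
    · have hzr : |(z : ℝ)| = -z := abs_of_neg (by exact_mod_cast hz)
      have hne : ¬(z = x - 1) := by omega
      rw [if_neg hne, sub_zero]
      have h3 : 0 ≤ q34 F (z - x) * (M * Real.exp (-c * |(z : ℝ)|)) := by positivity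
      have h4 : 0 ≤ q34 F (z - x) * Real.exp (-b * |(z : ℝ)|) := by positivity
      have h5 : q34 F (z - x) ≤ B₁ * (Real.exp (-F.a * x) * Real.exp (-F.a * |(z : ℝ)|)) := by
        refine (hq (z - x)).trans (le_of_eq ?_)
        rw [← Real.exp_add]
        have h6 : |((z - x : ℤ) : ℝ)| = x + |(z : ℝ)| := by
          rw [hzr]; push_cast
          have : (z : ℝ) < 0 := by exact_mod_cast hz
          rw [abs_of_neg (by linarith)]; ring
        rw [h6]; congr 2; ring
      have h6 : 2 * |(z : ℝ)| + Real.exp (b * |(z : ℝ)|) ≤ (2 * (1 / b) + 1) * Real.exp (b * |(z : ℝ)|) := by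
        have := abs_le34 hb (z : ℝ)
        linarith
      have h7 : q34 F (z - x) * (2 * |(z : ℝ)| + Real.exp (b * |(z : ℝ)|)) ≤
          D₀ * Real.exp (-F.a * x) * Real.exp (-b * |(z : ℝ)|) := by
        calc q34 F (z - x) * (2 * |(z : ℝ)| + Real.exp (b * |(z : ℝ)|)) ≤
            (B₁ * (Real.exp (-F.a * x) * Real.exp (-F.a * |(z : ℝ)|))) *
              ((2 * (1 / b) + 1) * Real.exp (b * |(z : ℝ)|)) :=
              mul_le_mul h5 h6 (by positivity) (by positivity)
          _ = D₀ * Real.exp (-F.a * x) * (Real.exp (-F.a * |(z : ℝ)|) * Real.exp (b * |(z : ℝ)|)) := by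
              rw [hD₀]; ring
          _ = D₀ * Real.exp (-F.a * x) * Real.exp (-b * |(z : ℝ)|) := by
              rw [← Real.exp_add]; congr 2; rw [hbdef]; ring
      have h8 : Real.exp (-b * z) = Real.exp (b * |(z : ℝ)|) := by rw [hzr]; congr 1; ring
      unfold psi34
      rw [h8]
      have h9 : (z : ℝ) = -|(z : ℝ)| := by rw [hzr]; ring
      have h10 : q34 F (z - x) * ((z : ℝ) + A) = q34 F (z - x) * (-|(z : ℝ)| + A) := by rw [← h9]
      rw [h10]
      nlinarith
  · refine HasSum.sub (HasSum.add (HasSum.sub (HasSum.add ?_ ?_) ?_) ?_) ?_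
    · exact shift34 (q_mean34 F) x
    · exact (shift34 (q_sum34 F) x).mul_right _
    · exact (shift34 hsφ.hasSum x).mul_right _
    · exact hsE.mul_left _
    · exact hasSum_ite_eq (x - 1) _
  · have hxa : |(x : ℝ)| = x := abs_of_nonneg (by linarith)
    unfold psi34
    rw [hxa]
    have h2 : Real.exp (-c * ((x : ℝ) - 1)) = Real.exp (-c * x) * Real.exp c := by
      rw [← Real.exp_add]; congr 1; ring
    rw [h2]
    nlinarith

theorem psi_two (F : Law) {δ : ℝ} (h0 : 0 < δ) (h1 : δ < 1) : ∃ (A : ℕ) (ψ : ℤ → ℝ≥0∞),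
    (∀ x, ∑' z, hk (Kd F δ) x z * ψ z ≤ ψ x) ∧ (∀ z : ℤ, (z.natAbs : ℝ≥0∞) ≤ ψ z) ∧
    (∀ z : ℤ, ψ z ≤ (z.natAbs : ℝ≥0∞) + A) ∧ ∀ z, 1 ≤ ψ z := by
  obtain ⟨b, c, κ, φ, D, hb, hba, hc, hκ, hφ, hD, H⟩ := pos34 F
  have hf1 := F.f_one
  -- the threshold
  obtain ⟨J, hJ0, hJ⟩ : ∃ J : ℝ, 0 ≤ J ∧ ∀ x : ℝ, J ≤ x → D * Real.exp (-(F.a - b) * x) ≤ φ := by
    refine ⟨D / φ / (F.a - b), div_nonneg (div_nonneg hD hφ.le) (by linarith), fun x hx => ?_⟩
    have h3 : D / φ ≤ (F.a - b) * x := by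
      rw [div_le_iff₀ (by linarith)] at hx
      linarith
    have h4 := Real.add_one_le_exp ((F.a - b) * x)
    have h5 : D ≤ φ * Real.exp ((F.a - b) * x) := by
      rw [div_le_iff₀ hφ] at h3
      nlinarith
    have h6 : Real.exp (-(F.a - b) * x) * Real.exp ((F.a - b) * x) = 1 := by
      rw [← Real.exp_add, ← Real.exp_zero]; congr 1; ring
    calc D * Real.exp (-(F.a - b) * x) ≤ φ * Real.exp ((F.a - b) * x) * Real.exp (-(F.a - b) * x) :=
          mul_le_mul_of_nonneg_right h5 (Real.exp_pos _).le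
      _ = φ * (Real.exp (-(F.a - b) * x) * Real.exp ((F.a - b) * x)) := by ring
      _ = φ := by rw [h6, mul_one]
  set M : ℝ := D / (κ * Real.exp (-c * J)) with hMdef
  have hM : 0 ≤ M := by positivity
  have hMJ : M * κ * Real.exp (-c * J) = D := by
    rw [hMdef]; field_simp
  -- first moment
  set m₁ : ℝ := ∑' h : ℤ, q34 F h * |(h : ℝ)| with hm₁
  have hsm : Summable fun h : ℤ => q34 F h * |(h : ℝ)| :=
    summ_q34 F (b := b) (C := 1 / b) hba fun h => by
      rw [abs_abs]; exact abs_le34 hb _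
  have hm0 : 0 ≤ m₁ := tsum_nonneg fun h => mul_nonneg (q_nonneg34 F h) (abs_nonneg _)
  obtain ⟨A, hA⟩ := exists_nat_ge ((m₁ + 1 + M) / (δ * F.f 1 0) + 2 + M)
  have hdiv0 : 0 ≤ (m₁ + 1 + M) / (δ * F.f 1 0) := by positivity
  have hA1 : 2 + M ≤ (A : ℝ) := by linarith
  have hA2 : m₁ + 1 + M ≤ δ * F.f 1 0 * ((A : ℝ) - 1 - M) := by
    have h5 : (m₁ + 1 + M) / (δ * F.f 1 0) ≤ (A : ℝ) - 1 - M := by linarith
    rw [div_le_iff₀ (by positivity)] at h5
    linarith
  set ψ : ℤ → ℝ := psi34 b c M A with hψ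
  have hlow : ∀ z : ℤ, |(z : ℝ)| + 1 ≤ ψ z := by
    intro z
    rw [hψ]; unfold psi34
    have h2 : Real.exp (-b * |(z : ℝ)|) ≤ 1 := by
      rw [Real.exp_le_one_iff]; have := abs_nonneg (z : ℝ); nlinarith
    have h3 : Real.exp (-c * |(z : ℝ)|) ≤ 1 := by
      rw [Real.exp_le_one_iff]; have := abs_nonneg (z : ℝ); nlinarith
    nlinarith
  have hup : ∀ z : ℤ, ψ z ≤ |(z : ℝ)| + A := by
    intro z
    rw [hψ]; unfold psi34
    have h2 := (Real.exp_pos (-b * |(z : ℝ)|)).le
    have h3 := mul_nonneg hM (Real.exp_pos (-c * |(z : ℝ)|)).le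
    linarith
  have hnn : ∀ z : ℤ, 0 ≤ ψ z := fun z => by
    have := hlow z; have := abs_nonneg (z : ℝ); linarith
  have hna : ∀ z : ℤ, (z.natAbs : ℝ≥0∞) = ENNReal.ofReal |(z : ℝ)| := by
    intro z
    rw [← ENNReal.ofReal_natCast, Nat.cast_natAbs, Int.cast_abs]
  have hposx : ∀ x : ℤ, 0 < x → ∃ (u : ℤ → ℝ) (s : ℝ), (∀ z, q34 F (z - x) * ψ z ≤ u z) ∧ HasSum u s ∧
      s ≤ ψ x := by
    intro x hx
    obtain ⟨u, s, hu, hs, hle⟩ := H M A hM x hx
    refine ⟨u, s, hu, hs, hle.trans ?_⟩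
    have hxr : (0 : ℝ) < x := by exact_mod_cast hx
    have key : D * Real.exp (-F.a * x) ≤ φ * Real.exp (-b * x) + M * κ * Real.exp (-c * x) := by
      rcases le_or_gt J (x : ℝ) with h | h
      · have h2 := mul_le_mul_of_nonneg_right (hJ x h) (Real.exp_pos (-b * x)).le
        rw [mul_assoc, ← Real.exp_add] at h2
        have h3 : -(F.a - b) * (x : ℝ) + -b * x = -F.a * x := by ring
        rw [h3] at h2
        have h4 : 0 ≤ M * κ * Real.exp (-c * x) := by positivity
        linarith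
      · have h2 : Real.exp (-c * J) ≤ Real.exp (-c * x) := Real.exp_le_exp.2 (by nlinarith)
        have h3 : Real.exp (-F.a * x) ≤ 1 := by
          rw [Real.exp_le_one_iff]; nlinarith [F.a_pos]
        have h4 : D ≤ M * κ * Real.exp (-c * x) := by
          rw [← hMJ]; exact mul_le_mul_of_nonneg_left h2 (by positivity)
        have h5 : 0 ≤ φ * Real.exp (-b * x) := by positivity
        nlinarith
    linarith
  refine ⟨A, fun z => ENNReal.ofReal (ψ z), fun x => ?_, fun z => ?_, fun z => ?_, fun z => ?_⟩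
  · rcases lt_trichotomy x 0 with hx | hx | hx
    · obtain ⟨u, s, hu, hs, hle⟩ := hposx (-x) (by omega)
      have hs' : HasSum (fun z => u (-z)) s := (Equiv.neg ℤ).hasSum_iff.2 hs
      refine (tool34 (fun z => hk_le34 F h0 x z) (fun z => q_nonneg34 F _) hnn (u := fun z => u (-z))
        (fun z => ?_) hs').trans (ENNReal.ofReal_le_ofReal (hle.trans (le_of_eq (psi_neg34 ..))))
      have h2 := hu (-z)
      have h3 : -z - -x = -(z - x) := by ring
      rw [h3, q_symm34] at h2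
      have h4 : ψ (-z) = ψ z := psi_neg34 ..
      rwa [h4] at h2
    · subst hx
      obtain ⟨hk0, hq0⟩ := hk_zero34 F h1
      have hs : HasSum (fun z : ℤ => (q34 F z * |(z : ℝ)| + q34 F z * A) -
          if z = 0 then δ * F.f 1 0 * ψ 0 else 0) (m₁ + 1 * A - δ * F.f 1 0 * ψ 0) :=
        (hsm.hasSum.add ((q_sum34 F).mul_right _)).sub (hasSum_ite_eq 0 _)
      refine (tool34 (pr := fun z => q34 F z - if z = 0 then δ * F.f 1 0 else 0) (fun z => ?_)
        (fun z => ?_) hnn (fun z => ?_) hs).trans (ENNReal.ofReal_le_ofReal ?_)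
      · by_cases hz : z = 0
        · subst hz; simpa using hk0
        · simp only [hz, if_false, sub_zero]
          simpa using hk_le34 F h0 0 z
      · by_cases hz : z = 0
        · subst hz; simpa using hq0
        · simp only [hz, if_false, sub_zero]
          exact q_nonneg34 F z
      · have h5 := mul_le_mul_of_nonneg_left (hup z) (q_nonneg34 F z)
        by_cases hz : z = 0
        · subst hz
          simp only [if_true]
          nlinarith
        · simp only [hz, if_false, sub_zero]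
          nlinarith
      · have h6 : ψ 0 = A - 1 - M := by
          rw [hψ]; unfold psi34; simp
        rw [h6]
        linarith
    · obtain ⟨u, s, hu, hs, hle⟩ := hposx x hx
      exact (tool34 (fun z => hk_le34 F h0 x z) (fun z => q_nonneg34 F _) hnn hu hs).trans
        (ENNReal.ofReal_le_ofReal hle)
  · rw [hna]
    exact ENNReal.ofReal_le_ofReal (by have := hlow z; linarith)
  · rw [hna, ← ENNReal.ofReal_natCast, ← ENNReal.ofReal_add (abs_nonneg _) (Nat.cast_nonneg _)]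
    exact ENNReal.ofReal_le_ofReal (hup z)
  · rw [← ENNReal.ofReal_one]
    exact ENNReal.ofReal_le_ofReal (by have := hlow z; have := abs_nonneg (z : ℝ); linarith)

end Pool.Agent.Helper18.WK
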