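import Pool.Agent.Helper18.WK.Split
import Pool.Agent.Helper18.WK.AbsA
import Pool.Agent.Helper18.WK.Escape
import Pool.Agent.Helper18.WK.SuperP
import Pool.Agent.Helper18.WK.SuperT

/-!
# Project WK, block WK-B1 (horizontal persistence)

Let `Tl F k n = P(L_1 + ... + L_k ≥ n)` (recursion `Tl_zero`, `Tl_succ`). `q_le`: for `K ≤ K0`,
`Q K n x ≤ Al (hk K) k x + Tl F k n` by induction on `k`. `tl_le`: with `∑ f l h exp (θ l) ≤ exp (C θ)`
(`θ ≤ a / 2`), `Tl F k n ≤ exp (C θ k - θ n)`. `q_plus`, `q_two`: `k = ⌊n / C⌋`, `persist` with `psi_plus`,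
`psi_two`, `escape`, `it_mono`, and `exp (-c n) ≤ C / √n`.
-/

open scoped ENNReal

namespace Pool.Agent.Helper18.WK

/-- `P(L_1 + ... + L_k ≥ n)`. -/
noncomputable def Tl (F : Law) : ℕ → ℕ → ℝ≥0∞
  | 0, n => if n = 0 then 1 else 0
  | k + 1, n => ∑' l : ℕ, ∑' h : ℤ, ENNReal.ofReal (F.f (l + 1) h) * Tl F k (n - (l + 1))

private theorem fsum_b1 (F : Law) : ∑' l : ℕ, ∑' h : ℤ, ENNReal.ofReal (F.f (l + 1) h) = 1 := by
  have h1 : ∑' p : ℕ × ℤ, ENNReal.ofReal (F.f p.1 p.2) = 1 := by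
    rw [← ENNReal.ofReal_tsum_of_nonneg (f := fun p : ℕ × ℤ => F.f p.1 p.2)
      (fun p => F.f_nonneg p.1 p.2) F.f_sum.summable, F.f_sum.tsum_eq, ENNReal.ofReal_one]
  rw [ENNReal.tsum_prod' (f := fun p : ℕ × ℤ => ENNReal.ofReal (F.f p.1 p.2)),
    tsum_eq_zero_add' ENNReal.summable] at h1
  simp only [F.f_zero, ENNReal.ofReal_zero, tsum_zero, zero_add] at h1
  exact h1

private theorem tl_zero_b1 (F : Law) (k : ℕ) : Tl F k 0 = 1 := by
  induction k with
  | zero => rw [Tl, if_pos rfl]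
  | succ k ih =>
    rw [Tl]
    simp only [Nat.zero_sub, ih, mul_one]
    exact fsum_b1 F

theorem q_le (F : Law) {K : Ker} (hK : ∀ x l z, K x l z ≤ K0 F x l z) (k n : ℕ) (x : ℤ) :
    Q K n x ≤ Al (hk K) k x + Tl F k n := by
  induction k generalizing n x with
  | zero =>
    have h1 : Q K n x ≤ 1 := (q_mono hK n x).trans (q_K0 F n x).le
    exact h1.trans le_self_add
  | succ k ih =>
    cases n with
    | zero =>
      rw [tl_zero_b1, Q_zero]
      exact le_add_self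
    | succ n =>
      rw [Q_succ]
      have h1 : ∑' l : ℕ, ∑' z : ℤ, K x (l + 1) z * Q K (n - l) z ≤
          ∑' l : ℕ, ∑' z : ℤ, (K x (l + 1) z * Al (hk K) k z + K x (l + 1) z * Tl F k (n - l)) := by
        refine ENNReal.tsum_le_tsum fun l => ENNReal.tsum_le_tsum fun z => ?_
        rw [← mul_add]
        exact mul_le_mul_right (ih (n - l) z) _
      refine h1.trans ?_
      have h2 : ∑' l : ℕ, ∑' z : ℤ, (K x (l + 1) z * Al (hk K) k z + K x (l + 1) z * Tl F k (n - l)) =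
          (∑' l : ℕ, ∑' z : ℤ, K x (l + 1) z * Al (hk K) k z) +
            ∑' l : ℕ, ∑' z : ℤ, K x (l + 1) z * Tl F k (n - l) := by
        rw [← ENNReal.tsum_add]
        refine tsum_congr fun l => ?_
        rw [← ENNReal.tsum_add]
      rw [h2]
      refine add_le_add (le_of_eq ?_) ?_
      · rw [ENNReal.tsum_comm]
        change _ = ∑' z : ℤ, hk K x z * Al (hk K) k z
        refine tsum_congr fun z => ?_
        rw [ENNReal.tsum_mul_right]
        rfl
      · rw [Tl]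
        refine ENNReal.tsum_le_tsum fun l => ?_
        have e1 : n + 1 - (l + 1) = n - l := by omega
        rw [e1, ENNReal.tsum_mul_right, ENNReal.tsum_mul_right]
        refine mul_le_mul_left ?_ _
        have h3 : ∑' z : ℤ, K x (l + 1) z ≤ ∑' z : ℤ, ENNReal.ofReal (F.f (l + 1) (z - x)) :=
          ENNReal.tsum_le_tsum fun z => hK x (l + 1) z
        refine h3.trans (le_of_eq ?_)
        rw [← (Equiv.addLeft x).tsum_eq]
        refine tsum_congr fun h => ?_
        rw [Equiv.coe_addLeft, add_sub_cancel_left]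

private noncomputable def M_b1 (F : Law) : ℝ≥0∞ :=
  ∑' l : ℕ, ∑' h : ℤ, ENNReal.ofReal (F.f (l + 1) h) * ENNReal.ofReal (Real.exp (F.a / 2 * (l + 1)))

private theorem M_ne_top_b1 (F : Law) : M_b1 F ≠ ⊤ := by
  have ha := F.a_pos
  have hB := F.B_pos
  have hs1 := a4_exp_nat (c := F.a / 2) (by linarith)
  have hs2 := a4_exp_int (c := F.a) ha
  have h1 : M_b1 F ≤ ∑' l : ℕ, ∑' h : ℤ, ENNReal.ofReal (F.B * Real.exp (-(F.a / 2) * (l : ℝ))) *
      ENNReal.ofReal (Real.exp (-F.a * |(h : ℝ)|)) := by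
    refine ENNReal.tsum_le_tsum fun l => ENNReal.tsum_le_tsum fun h => ?_
    rw [← ENNReal.ofReal_mul (F.f_nonneg _ _), ← ENNReal.ofReal_mul (by positivity)]
    apply ENNReal.ofReal_le_ofReal
    have h2 := F.f_tail (l + 1) h
    calc F.f (l + 1) h * Real.exp (F.a / 2 * (l + 1))
        ≤ (F.B * Real.exp (-F.a * ((l + 1 : ℕ) + |(h : ℝ)|))) * Real.exp (F.a / 2 * (l + 1)) :=
          mul_le_mul_of_nonneg_right h2 (Real.exp_pos _).le
      _ = F.B * Real.exp (-(F.a / 2) * (l + 1) - F.a * |(h : ℝ)|) := by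
          rw [mul_assoc, ← Real.exp_add]
          congr 2
          push_cast
          ring
      _ ≤ F.B * Real.exp (-(F.a / 2) * (l : ℝ) + -F.a * |(h : ℝ)|) := by
          refine mul_le_mul_of_nonneg_left (Real.exp_le_exp.2 ?_) hB.le
          linarith
      _ = F.B * Real.exp (-(F.a / 2) * (l : ℝ)) * Real.exp (-F.a * |(h : ℝ)|) := by
          rw [Real.exp_add, mul_assoc]
  refine ne_top_of_le_ne_top ?_ h1
  have h3 : ∀ l : ℕ, ∑' h : ℤ, ENNReal.ofReal (F.B * Real.exp (-(F.a / 2) * (l : ℝ))) *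
      ENNReal.ofReal (Real.exp (-F.a * |(h : ℝ)|)) =
      ENNReal.ofReal (F.B * Real.exp (-(F.a / 2) * (l : ℝ))) *
        ENNReal.ofReal (∑' h : ℤ, Real.exp (-F.a * |(h : ℝ)|)) := by
    intro l
    rw [ENNReal.tsum_mul_left, ENNReal.ofReal_tsum_of_nonneg (fun _ => (Real.exp_pos _).le) hs2]
  simp only [h3]
  rw [ENNReal.tsum_mul_right, ← ENNReal.ofReal_tsum_of_nonneg (fun _ => by positivity)
    (hs1.mul_left _)]
  exact ENNReal.mul_ne_top ENNReal.ofReal_ne_top ENNReal.ofReal_ne_top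

private theorem tl_exp_b1 (F : Law) (k n : ℕ) :
    Tl F k n ≤ M_b1 F ^ k * ENNReal.ofReal (Real.exp (-(F.a / 2) * n)) := by
  have ha := F.a_pos
  induction k generalizing n with
  | zero =>
    rw [Tl, pow_zero, one_mul]
    by_cases h : n = 0
    · rw [if_pos h, h, Nat.cast_zero, mul_zero, Real.exp_zero, ENNReal.ofReal_one]
    · rw [if_neg h]
      exact zero_le
  | succ k ih =>
    rw [Tl]
    have h1 : ∀ (l : ℕ) (h : ℤ), ENNReal.ofReal (F.f (l + 1) h) * Tl F k (n - (l + 1)) ≤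
        (ENNReal.ofReal (F.f (l + 1) h) * ENNReal.ofReal (Real.exp (F.a / 2 * (l + 1)))) *
          (M_b1 F ^ k * ENNReal.ofReal (Real.exp (-(F.a / 2) * n))) := by
      intro l h
      have h2 : ENNReal.ofReal (Real.exp (-(F.a / 2) * ((n - (l + 1) : ℕ) : ℝ))) ≤
          ENNReal.ofReal (Real.exp (F.a / 2 * (l + 1))) *
            ENNReal.ofReal (Real.exp (-(F.a / 2) * n)) := by
        rw [← ENNReal.ofReal_mul (Real.exp_pos _).le, ← Real.exp_add]
        apply ENNReal.ofReal_le_ofReal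
        apply Real.exp_le_exp.2
        have h3 : (n : ℝ) ≤ ((n - (l + 1) : ℕ) : ℝ) + (l + 1) := by
          have : n ≤ (n - (l + 1)) + (l + 1) := by omega
          exact_mod_cast this
        nlinarith
      calc ENNReal.ofReal (F.f (l + 1) h) * Tl F k (n - (l + 1))
          ≤ ENNReal.ofReal (F.f (l + 1) h) * (M_b1 F ^ k *
            ENNReal.ofReal (Real.exp (-(F.a / 2) * ((n - (l + 1) : ℕ) : ℝ)))) :=
            mul_le_mul_right (ih _) _
        _ ≤ ENNReal.ofReal (F.f (l + 1) h) * (M_b1 F ^ k *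
            (ENNReal.ofReal (Real.exp (F.a / 2 * (l + 1))) *
            ENNReal.ofReal (Real.exp (-(F.a / 2) * n)))) :=
            mul_le_mul_right (mul_le_mul_right h2 _) _
        _ = _ := by ring
    calc ∑' l : ℕ, ∑' h : ℤ, ENNReal.ofReal (F.f (l + 1) h) * Tl F k (n - (l + 1))
        ≤ ∑' l : ℕ, ∑' h : ℤ, (ENNReal.ofReal (F.f (l + 1) h) *
            ENNReal.ofReal (Real.exp (F.a / 2 * (l + 1)))) *
          (M_b1 F ^ k * ENNReal.ofReal (Real.exp (-(F.a / 2) * n))) :=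
          ENNReal.tsum_le_tsum fun l => ENNReal.tsum_le_tsum fun h => h1 l h
      _ = M_b1 F * (M_b1 F ^ k * ENNReal.ofReal (Real.exp (-(F.a / 2) * n))) := by
          unfold M_b1
          rw [← ENNReal.tsum_mul_right]
          refine tsum_congr fun l => ?_
          rw [ENNReal.tsum_mul_right]
      _ = _ := by rw [pow_succ' (M_b1 F) k, mul_assoc]

theorem tl_le (F : Law) : ∃ (C : ℕ) (c : ℝ), 1 ≤ C ∧ 0 < c ∧ ∀ n : ℕ,
    Tl F (n / C) n ≤ ENNReal.ofReal (Real.exp (1 - c * n)) := by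
  have ha := F.a_pos
  set M := (M_b1 F).toReal with hM
  have hM0 : 0 ≤ M := ENNReal.toReal_nonneg
  have hMe : M_b1 F = ENNReal.ofReal M := (ENNReal.ofReal_toReal (M_ne_top_b1 F)).symm
  -- `M ≤ exp L`
  set L : ℝ := M with hL
  have hML : M ≤ Real.exp L := by
    have := Real.add_one_le_exp M
    linarith
  set C : ℕ := ⌈L * 4 / F.a⌉₊ + 1 with hC
  have hC1 : L * 4 / F.a ≤ (C : ℝ) := by
    have := Nat.le_ceil (L * 4 / F.a)
    rw [hC]
    push_cast
    linarith
  have hC0 : (0 : ℝ) < C := by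
    rw [hC]
    positivity
  refine ⟨C, F.a / 4, by omega, by linarith, fun n => ?_⟩
  refine (tl_exp_b1 F (n / C) n).trans ?_
  rw [hMe, ← ENNReal.ofReal_pow hM0, ← ENNReal.ofReal_mul (pow_nonneg hM0 _)]
  apply ENNReal.ofReal_le_ofReal
  have h1 : M ^ (n / C) ≤ Real.exp (F.a / 4 * n) := by
    calc M ^ (n / C) ≤ Real.exp L ^ (n / C) := pow_le_pow_left₀ hM0 hML _
      _ = Real.exp (((n / C : ℕ) : ℝ) * L) := by rw [Real.exp_nat_mul]
      _ ≤ Real.exp (F.a / 4 * n) := by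
        apply Real.exp_le_exp.2
        have h2 : ((n / C : ℕ) : ℝ) ≤ (n : ℝ) / C := Nat.cast_div_le
        have h3 : ((n / C : ℕ) : ℝ) * L ≤ (n : ℝ) / C * L :=
          mul_le_mul_of_nonneg_right h2 hM0
        have h4 : (n : ℝ) / C * L ≤ F.a / 4 * n := by
          rw [div_mul_eq_mul_div, div_le_iff₀ hC0]
          rw [div_le_iff₀ ha] at hC1
          have hn : (0 : ℝ) ≤ n := Nat.cast_nonneg _
          nlinarith
        linarith
  calc M ^ (n / C) * Real.exp (-(F.a / 2) * n)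
      ≤ Real.exp (F.a / 4 * n) * Real.exp (-(F.a / 2) * n) :=
        mul_le_mul_of_nonneg_right h1 (Real.exp_pos _).le
    _ = Real.exp (-(F.a / 4) * n) := by
        rw [← Real.exp_add]
        congr 1
        ring
    _ ≤ Real.exp (1 - F.a / 4 * n) := by
        apply Real.exp_le_exp.2
        linarith

private theorem q_gen_b1 (F : Law) {K : Ker} (hK : ∀ x l z, K x l z ≤ K0 F x l z)
    (hψ : ∃ (A : ℕ) (ψ : ℤ → ℝ≥0∞),
    (∀ x, ∑' z, hk K x z * ψ z ≤ ψ x) ∧ (∀ z : ℤ, (z.natAbs : ℝ≥0∞) ≤ ψ z) ∧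
    (∀ z : ℤ, ψ z ≤ (z.natAbs : ℝ≥0∞) + A) ∧ ∀ z, 1 ≤ ψ z) :
    ∃ C : ℝ, 0 < C ∧ ∀ (n : ℕ) (x : ℤ), 1 ≤ n →
    Q K n x ≤ ENNReal.ofReal (C * (1 + |(x : ℝ)|) / Real.sqrt n) := by
  obtain ⟨A, ψ, p1, p2, p3, p4⟩ := hψ
  obtain ⟨C0, hC0, hesc⟩ := escape F
  obtain ⟨D, hD, hper⟩ := persist A C0 hC0
  obtain ⟨C1, c, hC1, hc, htl⟩ := tl_le F
  have hkle : ∀ x z, hk K x z ≤ hk (K0 F) x z := fun x z => ENNReal.tsum_le_tsum fun l => hK _ _ _
  have hp : ∀ x, ∑' z, hk K x z ≤ 1 := fun x =>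
    (ENNReal.tsum_le_tsum fun z => hkle x z).trans (hk_K0_sum F x).le
  have hal := hper (hk K) ψ hp p1 p2 p3 p4
    (fun R hR x => (it_mono hkle R _ x).trans (hesc R hR x))
  set D' := D.toReal with hD'
  have hD'0 : 0 ≤ D' := ENNReal.toReal_nonneg
  have hDe : D = ENNReal.ofReal D' := (ENNReal.ofReal_toReal hD).symm
  have hC1r : (1 : ℝ) ≤ C1 := by exact_mod_cast hC1
  set E : ℝ := D' * (1 + A) * Real.sqrt (2 * C1) + Real.exp 1 / c + Real.sqrt C1 with hE
  have hE1 : 0 ≤ D' * (1 + A) * Real.sqrt (2 * C1) := by positivity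
  have hE2 : 0 < Real.exp 1 / c := by positivity
  have hE3 : 0 ≤ Real.sqrt C1 := Real.sqrt_nonneg _
  refine ⟨E, by rw [hE]; linarith, fun n x hn => ?_⟩
  have hnr : (1 : ℝ) ≤ n := by exact_mod_cast hn
  have hsn : 0 < Real.sqrt n := Real.sqrt_pos.2 (by linarith)
  have hx0 : 0 ≤ |(x : ℝ)| := abs_nonneg _
  by_cases hnC : n < C1
  · have h1 : Q K n x ≤ 1 := (q_mono hK n x).trans (q_K0 F n x).le
    refine h1.trans ?_
    rw [← ENNReal.ofReal_one]
    apply ENNReal.ofReal_le_ofReal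
    rw [le_div_iff₀ hsn, one_mul]
    have h2 : Real.sqrt n ≤ Real.sqrt C1 := Real.sqrt_le_sqrt (by exact_mod_cast hnC.le)
    have h3 : Real.sqrt C1 ≤ E := by rw [hE]; linarith
    have h4 : 0 ≤ E := hE3.trans h3
    nlinarith
  · push Not at hnC
    set k := n / C1 with hk'
    have hk1 : 1 ≤ k := by
      rw [hk', Nat.one_le_div_iff (by omega)]
      exact hnC
    have hk2 : (n : ℝ) ≤ 2 * C1 * k := by
      have h1 : n < C1 * (k + 1) := by
        rw [hk']
        exact Nat.lt_mul_div_succ n (by omega)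
      have h2 : n ≤ 2 * C1 * k := by nlinarith
      exact_mod_cast h2
    refine (q_le F hK k n x).trans ?_
    have hkr : (1 : ℝ) ≤ k := by exact_mod_cast hk1
    have hsk : 0 < Real.sqrt k := Real.sqrt_pos.2 (by linarith)
    have h5 : Real.sqrt n ≤ Real.sqrt (2 * C1) * Real.sqrt k := by
      rw [← Real.sqrt_mul (by positivity)]
      exact Real.sqrt_le_sqrt hk2
    have h6 : Al (hk K) k x ≤ ENNReal.ofReal (D' * (1 + A) * Real.sqrt (2 * C1) *
        (1 + |(x : ℝ)|) / Real.sqrt n) := by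
      refine (hal k hk1 x).trans ?_
      have h7 : ψ x ≤ ENNReal.ofReal (|(x : ℝ)| + A) := by
        refine (p3 x).trans (le_of_eq ?_)
        rw [ENNReal.ofReal_add hx0 (by positivity), ENNReal.ofReal_natCast]
        congr 1
        rw [← ENNReal.ofReal_natCast]
        congr 1
        rw [Nat.cast_natAbs, Int.cast_abs]
      calc D * ψ x / ENNReal.ofReal (Real.sqrt k)
          ≤ ENNReal.ofReal D' * ENNReal.ofReal (|(x : ℝ)| + A) / ENNReal.ofReal (Real.sqrt k) := by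
            rw [← hDe]
            exact ENNReal.div_le_div_right (mul_le_mul_right h7 _) _
        _ = ENNReal.ofReal (D' * (|(x : ℝ)| + A) / Real.sqrt k) := by
            rw [← ENNReal.ofReal_mul hD'0, ← ENNReal.ofReal_div_of_pos hsk]
        _ ≤ _ := by
            apply ENNReal.ofReal_le_ofReal
            rw [div_le_div_iff₀ hsk hsn]
            have h8 : |(x : ℝ)| + A ≤ (1 + A) * (1 + |(x : ℝ)|) := by
              have : (0 : ℝ) ≤ A := Nat.cast_nonneg _
              nlinarith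
            calc D' * (|(x : ℝ)| + A) * Real.sqrt n
                ≤ D' * ((1 + A) * (1 + |(x : ℝ)|)) * (Real.sqrt (2 * C1) * Real.sqrt k) := by
                  apply mul_le_mul (mul_le_mul_of_nonneg_left h8 hD'0) h5 hsn.le
                  positivity
              _ = D' * (1 + A) * Real.sqrt (2 * C1) * (1 + |(x : ℝ)|) * Real.sqrt k := by ring
    have h9 : Tl F k n ≤ ENNReal.ofReal (Real.exp 1 / c * (1 + |(x : ℝ)|) / Real.sqrt n) := by
      refine (htl n).trans ?_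
      apply ENNReal.ofReal_le_ofReal
      rw [le_div_iff₀ hsn, sub_eq_add_neg, Real.exp_add, div_mul_eq_mul_div, le_div_iff₀ hc]
      have h10 : Real.sqrt n ≤ n := by
        rw [Real.sqrt_le_left (by linarith)]
        nlinarith
      have h11 : c * n ≤ Real.exp (c * n) := by
        have := Real.add_one_le_exp (c * n)
        linarith
      have h12 : Real.exp (-(c * n)) * Real.exp (c * n) = 1 := by
        rw [← Real.exp_add, neg_add_cancel, Real.exp_zero]
      have h13 : 0 < Real.exp (-(c * n)) := Real.exp_pos _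
      have h14 : Real.exp (-(c * n)) * Real.sqrt n * c ≤ 1 := by
        calc Real.exp (-(c * n)) * Real.sqrt n * c ≤ Real.exp (-(c * n)) * n * c := by gcongr
          _ = Real.exp (-(c * n)) * (c * n) := by ring
          _ ≤ Real.exp (-(c * n)) * Real.exp (c * n) := by gcongr
          _ = 1 := h12
      have h15 : 0 < Real.exp 1 := Real.exp_pos _
      calc Real.exp 1 * Real.exp (-(c * n)) * Real.sqrt n * c
          = Real.exp 1 * (Real.exp (-(c * n)) * Real.sqrt n * c) := by ring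
        _ ≤ Real.exp 1 * 1 := by gcongr
        _ ≤ Real.exp 1 * (1 + |(x : ℝ)|) := by
          refine mul_le_mul_of_nonneg_left ?_ h15.le
          linarith
    refine (add_le_add h6 h9).trans ?_
    rw [← ENNReal.ofReal_add (by positivity) (by positivity)]
    apply ENNReal.ofReal_le_ofReal
    rw [← add_div]
    apply div_le_div_of_nonneg_right _ hsn.le
    rw [hE]
    nlinarith

theorem q_plus (F : Law) : ∃ C : ℝ, 0 < C ∧ ∀ (n : ℕ) (x : ℤ), 1 ≤ n →
    Q (Kp F) n x ≤ ENNReal.ofReal (C * (1 + |(x : ℝ)|) / Real.sqrt n) :=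
  q_gen_b1 F (kp_le F) (psi_plus F)

theorem q_two (F : Law) {δ : ℝ} (h0 : 0 < δ) (h1 : δ < 1) : ∃ C : ℝ, 0 < C ∧ ∀ (n : ℕ) (x : ℤ), 1 ≤ n →
    Q (Kd F δ) n x ≤ ENNReal.ofReal (C * (1 + |(x : ℝ)|) / Real.sqrt n) :=
  q_gen_b1 F (kd_le F h0) (psi_two F h0 h1)

end Pool.Agent.Helper18.WK
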