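import Pool.Agent.Helper18.WK.Defs

/-!
# Project WK, block WK-B2 (exponential moments)

`∑_(l,h) f l h cosh (θ h) exp (-C θ² l) ≤ 1` for `0 ≤ θ ≤ θ₀` (`cosh t ≤ 1 + t² exp |t|`, `l ≥ 1`, `C` the
moment `∑ f l h h² exp (a |h| / 2)`). Hence by strong induction on `n`
`∑_y G (K0 F) n x y cosh (θ (y - x₀)) ≤ cosh (θ (x - x₀)) exp (C θ² n)` (symmetry: `∑_h f l h cosh (θ (u + h)) =
cosh (θ u) ∑ f l h cosh (θ h)`) and the same for `Far`, the mass of the chains from `x` which have a cut with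
`|z - x₀| ≥ r` at a length `≤ n`: `Far ≤ cosh (θ (x - x₀)) exp (C θ² n) / cosh (θ r)`.
-/

open scoped ENNReal

namespace Pool.Agent.Helper18.WK

/-- Mass of the chains from `x` with a cut `|z - x₀| ≥ r` at a length `≤ n`. -/
noncomputable def Far (K : Ker) (x₀ : ℤ) (r : ℕ) : ℕ → ℤ → ℝ≥0∞
  | 0, x => if (r : ℤ) ≤ |x - x₀| then 1 else 0
  | n + 1, x => if (r : ℤ) ≤ |x - x₀| then 1 else
      ∑ l ∈ Finset.range (n + 1), ∑' z : ℤ, K x (l + 1) z * Far K x₀ r (n - l) z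
termination_by n => n
decreasing_by omega

private theorem cosh_le92 {t : ℝ} (ht : 0 ≤ t) : Real.cosh t ≤ 1 + t ^ 2 * Real.exp t := by
  have h1 : 1 - Real.exp (-t) ≤ t := by
    have := Real.add_one_le_exp (-t)
    linarith
  have h0 : 0 ≤ 1 - Real.exp (-t) := by
    have : Real.exp (-t) ≤ 1 := Real.exp_le_one_iff.2 (by linarith)
    linarith
  have h2 : (1 - Real.exp (-t)) ^ 2 ≤ t ^ 2 := by gcongr
  have h3 : Real.exp t * Real.exp (-t) = 1 := by
    rw [← Real.exp_add, add_neg_cancel, Real.exp_zero]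
  have h4 : Real.cosh t - 1 = Real.exp t * (1 - Real.exp (-t)) ^ 2 / 2 := by
    rw [Real.cosh_eq]
    have h5 : Real.exp t * (1 - Real.exp (-t)) ^ 2 =
        Real.exp t - 2 * (Real.exp t * Real.exp (-t)) +
          (Real.exp t * Real.exp (-t)) * Real.exp (-t) := by ring
    rw [h5, h3]
    ring
  have h6 : Real.exp t * (1 - Real.exp (-t)) ^ 2 ≤ Real.exp t * t ^ 2 :=
    mul_le_mul_of_nonneg_left h2 (Real.exp_pos t).le
  have h7 : 0 ≤ Real.exp t * t ^ 2 := by positivity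
  nlinarith

/-- the moment is finite -/
private theorem moment92 (F : Law) :
    Summable (fun p : ℕ × ℤ => F.f p.1 p.2 * ((p.2 : ℝ) ^ 2 * Real.exp (F.a / 2 * |(p.2 : ℝ)|))) := by
  have ha := F.a_pos
  have h1 : Summable (fun l : ℕ => Real.exp (-F.a * l)) := by
    have := Real.summable_pow_mul_exp_neg_nat_mul 0 ha
    simpa using this
  have h2 : Summable (fun h : ℤ => (h : ℝ) ^ 2 * Real.exp (-(F.a / 2) * |(h : ℝ)|)) := by
    have h3 := Real.summable_pow_mul_exp_neg_nat_mul 2 (half_pos ha)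
    refine Summable.of_nat_of_neg ?_ ?_
    · simpa using h3
    · simpa using h3
  have h3 := (h1.mul_of_nonneg h2 (fun l => (Real.exp_pos _).le) (fun h => by positivity)).mul_left F.B
  refine Summable.of_nonneg_of_le (fun p => mul_nonneg (F.f_nonneg _ _) (by positivity)) (fun p => ?_) h3
  have h4 := mul_le_mul_of_nonneg_right (F.f_tail p.1 p.2)
    (show 0 ≤ (p.2 : ℝ) ^ 2 * Real.exp (F.a / 2 * |(p.2 : ℝ)|) by positivity)
  refine h4.trans (le_of_eq ?_)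
  have h5 : Real.exp (-F.a * (p.1 + |(p.2 : ℝ)|)) * Real.exp (F.a / 2 * |(p.2 : ℝ)|) =
      Real.exp (-F.a * p.1) * Real.exp (-(F.a / 2) * |(p.2 : ℝ)|) := by
    rw [← Real.exp_add, ← Real.exp_add]
    congr 1
    ring
  calc F.B * Real.exp (-F.a * (p.1 + |(p.2 : ℝ)|)) * ((p.2 : ℝ) ^ 2 * Real.exp (F.a / 2 * |(p.2 : ℝ)|))
      = F.B * (p.2 : ℝ) ^ 2 *
        (Real.exp (-F.a * (p.1 + |(p.2 : ℝ)|)) * Real.exp (F.a / 2 * |(p.2 : ℝ)|)) := by ring
    _ = F.B * (Real.exp (-F.a * p.1) * ((p.2 : ℝ) ^ 2 * Real.exp (-(F.a / 2) * |(p.2 : ℝ)|))) := by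
        rw [h5]; ring

/-- sums over the pieces -/
private theorem sum_le92 (g : ℕ × ℤ → ℝ≥0∞) :
    ∑' l : ℕ, ∑' h : ℤ, g (l + 1, h) ≤ ∑' p : ℕ × ℤ, g p := by
  rw [ENNReal.tsum_prod' (f := g)]
  exact ENNReal.tsum_comp_le_tsum_of_injective (add_left_injective 1) (fun l => ∑' h : ℤ, g (l, h))

private theorem symm92 (F : Law) (l : ℕ) (θ u : ℝ) :
    ∑' h : ℤ, ENNReal.ofReal (F.f l h) * ENNReal.ofReal (Real.cosh (θ * (u + h))) =
      ENNReal.ofReal (Real.cosh (θ * u)) *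
        ∑' h : ℤ, ENNReal.ofReal (F.f l h) * ENNReal.ofReal (Real.cosh (θ * h)) := by
  set S := ∑' h : ℤ, ENNReal.ofReal (F.f l h) * ENNReal.ofReal (Real.cosh (θ * (u + h))) with hS
  have h1 : S = ∑' h : ℤ, ENNReal.ofReal (F.f l h) * ENNReal.ofReal (Real.cosh (θ * (u - h))) := by
    rw [hS, ← (Equiv.neg ℤ).tsum_eq
      (fun h : ℤ => ENNReal.ofReal (F.f l h) * ENNReal.ofReal (Real.cosh (θ * (u + h))))]
    refine tsum_congr fun h => ?_
    simp only [Equiv.neg_apply, F.f_symm, Int.cast_neg, sub_eq_add_neg]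
  have h2 : S + S = ENNReal.ofReal (Real.cosh (θ * u)) *
        (∑' h : ℤ, ENNReal.ofReal (F.f l h) * ENNReal.ofReal (Real.cosh (θ * h))) +
      ENNReal.ofReal (Real.cosh (θ * u)) *
        (∑' h : ℤ, ENNReal.ofReal (F.f l h) * ENNReal.ofReal (Real.cosh (θ * h))) := by
    conv_lhs => rhs; rw [h1]
    rw [hS, ← ENNReal.tsum_add, ← ENNReal.tsum_mul_left, ← ENNReal.tsum_add]
    refine tsum_congr fun h => ?_
    have hf := F.f_nonneg l h
    have c1 := (Real.cosh_pos (θ * (u + h))).le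
    have c2 := (Real.cosh_pos (θ * (u - h))).le
    have c3 := (Real.cosh_pos (θ * u)).le
    have c4 := (Real.cosh_pos (θ * h)).le
    rw [← ENNReal.ofReal_mul hf, ← ENNReal.ofReal_mul hf, ← ENNReal.ofReal_mul hf,
      ← ENNReal.ofReal_mul c3, ← ENNReal.ofReal_add (mul_nonneg hf c1) (mul_nonneg hf c2),
      ← ENNReal.ofReal_add (mul_nonneg c3 (mul_nonneg hf c4)) (mul_nonneg c3 (mul_nonneg hf c4))]
    congr 1
    rw [mul_add, mul_sub, Real.cosh_add, Real.cosh_sub]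
    ring
  have h3 : 2 * S = 2 * (ENNReal.ofReal (Real.cosh (θ * u)) *
        (∑' h : ℤ, ENNReal.ofReal (F.f l h) * ENNReal.ofReal (Real.cosh (θ * h)))) := by
    rw [two_mul, two_mul]
    exact h2
  exact (ENNReal.mul_right_inj (by norm_num) (by norm_num)).1 h3

/-- one piece -/
private theorem step92 (F : Law) : ∃ C θ₀ : ℝ, 0 < C ∧ 0 < θ₀ ∧ ∀ θ : ℝ, 0 ≤ θ → θ ≤ θ₀ → ∀ u : ℝ,
    ∑' l : ℕ, ∑' h : ℤ, ENNReal.ofReal (F.f (l + 1) h) *
      ENNReal.ofReal (Real.cosh (θ * (u + h)) * Real.exp (-(C * θ ^ 2 * (l + 1)))) ≤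
        ENNReal.ofReal (Real.cosh (θ * u)) := by
  set g : ℕ × ℤ → ℝ := fun p => F.f p.1 p.2 * ((p.2 : ℝ) ^ 2 * Real.exp (F.a / 2 * |(p.2 : ℝ)|)) with hg
  have hg0 : ∀ p, 0 ≤ g p := fun p => mul_nonneg (F.f_nonneg _ _) (by positivity)
  have hgs : Summable g := moment92 F
  set W : ℝ := ∑' p, g p with hW
  have hW0 : 0 ≤ W := tsum_nonneg hg0
  refine ⟨W + 1, F.a / 2, by linarith, half_pos F.a_pos, fun θ h0 h1 u => ?_⟩
  set C := W + 1 with hC
  -- the total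
  have e1 : ∑' l : ℕ, ∑' h : ℤ, ENNReal.ofReal (F.f (l + 1) h) * ENNReal.ofReal (Real.cosh (θ * h)) ≤
      ENNReal.ofReal (1 + θ ^ 2 * W) := by
    refine (sum_le92 (fun p => ENNReal.ofReal (F.f p.1 p.2) * ENNReal.ofReal (Real.cosh (θ * p.2)))).trans ?_
    have e2 : ∀ p : ℕ × ℤ, ENNReal.ofReal (F.f p.1 p.2) * ENNReal.ofReal (Real.cosh (θ * p.2)) ≤
        ENNReal.ofReal (F.f p.1 p.2) + ENNReal.ofReal (θ ^ 2 * g p) := by
      intro p
      have hf := F.f_nonneg p.1 p.2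
      rw [← ENNReal.ofReal_mul hf, ← ENNReal.ofReal_add hf (mul_nonneg (sq_nonneg θ) (hg0 p))]
      refine ENNReal.ofReal_le_ofReal ?_
      have e3 : Real.cosh (θ * p.2) ≤ 1 + (θ * |(p.2 : ℝ)|) ^ 2 * Real.exp (θ * |(p.2 : ℝ)|) := by
        rw [← Real.cosh_abs, abs_mul, abs_of_nonneg h0]
        exact cosh_le92 (by positivity)
      have e4 : Real.exp (θ * |(p.2 : ℝ)|) ≤ Real.exp (F.a / 2 * |(p.2 : ℝ)|) :=
        Real.exp_le_exp.2 (mul_le_mul_of_nonneg_right h1 (abs_nonneg _))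
      have e5 : (θ * |(p.2 : ℝ)|) ^ 2 * Real.exp (θ * |(p.2 : ℝ)|) ≤
          (θ * |(p.2 : ℝ)|) ^ 2 * Real.exp (F.a / 2 * |(p.2 : ℝ)|) :=
        mul_le_mul_of_nonneg_left e4 (sq_nonneg _)
      have e6 := mul_le_mul_of_nonneg_left (e3.trans (add_le_add_right e5 1)) hf
      refine e6.trans (le_of_eq ?_)
      rw [hg]
      simp only
      rw [mul_pow, sq_abs]
      ring
    refine (ENNReal.tsum_le_tsum e2).trans ?_
    rw [ENNReal.tsum_add, ← ENNReal.ofReal_tsum_of_nonneg (fun p => F.f_nonneg _ _) F.f_sum.summable,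
      ← ENNReal.ofReal_tsum_of_nonneg (fun p => mul_nonneg (sq_nonneg θ) (hg0 p)) (hgs.mul_left _),
      F.f_sum.tsum_eq, tsum_mul_left, ENNReal.ofReal_add zero_le_one (mul_nonneg (sq_nonneg θ) hW0)]
  have e7 : ∀ l : ℕ, ∑' h : ℤ, ENNReal.ofReal (F.f (l + 1) h) *
      ENNReal.ofReal (Real.cosh (θ * (u + h)) * Real.exp (-(C * θ ^ 2 * (l + 1)))) ≤
      ENNReal.ofReal (Real.cosh (θ * u)) * ENNReal.ofReal (Real.exp (-(C * θ ^ 2))) *
        ∑' h : ℤ, ENNReal.ofReal (F.f (l + 1) h) * ENNReal.ofReal (Real.cosh (θ * h)) := by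
    intro l
    have e8 : Real.exp (-(C * θ ^ 2 * (l + 1))) ≤ Real.exp (-(C * θ ^ 2)) := by
      refine Real.exp_le_exp.2 ?_
      have : 0 ≤ C * θ ^ 2 * l := by positivity
      linarith
    calc ∑' h : ℤ, ENNReal.ofReal (F.f (l + 1) h) *
        ENNReal.ofReal (Real.cosh (θ * (u + h)) * Real.exp (-(C * θ ^ 2 * (l + 1))))
        ≤ ∑' h : ℤ, ENNReal.ofReal (Real.exp (-(C * θ ^ 2))) *
          (ENNReal.ofReal (F.f (l + 1) h) * ENNReal.ofReal (Real.cosh (θ * (u + h)))) := by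
          refine ENNReal.tsum_le_tsum fun h => ?_
          rw [ENNReal.ofReal_mul (Real.cosh_pos _).le, ← mul_assoc,
            mul_comm (ENNReal.ofReal (Real.exp (-(C * θ ^ 2))))]
          exact mul_le_mul_right (ENNReal.ofReal_le_ofReal e8) _
      _ = _ := by
          rw [ENNReal.tsum_mul_left, symm92]
          ring
  refine (ENNReal.tsum_le_tsum e7).trans ?_
  rw [ENNReal.tsum_mul_left, mul_assoc]
  refine (mul_le_mul_right (mul_le_mul_right e1 _) _).trans ?_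
  rw [← ENNReal.ofReal_mul (Real.exp_pos _).le]
  have e9 : Real.exp (-(C * θ ^ 2)) * (1 + θ ^ 2 * W) ≤ 1 := by
    have e10 : 1 + θ ^ 2 * W ≤ Real.exp (C * θ ^ 2) := by
      have := Real.add_one_le_exp (C * θ ^ 2)
      have h2 : θ ^ 2 * W ≤ C * θ ^ 2 := by
        rw [mul_comm]
        exact mul_le_mul_of_nonneg_right (by linarith) (sq_nonneg θ)
      linarith
    calc Real.exp (-(C * θ ^ 2)) * (1 + θ ^ 2 * W)
        ≤ Real.exp (-(C * θ ^ 2)) * Real.exp (C * θ ^ 2) :=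
          mul_le_mul_of_nonneg_left e10 (Real.exp_pos _).le
      _ = 1 := by rw [← Real.exp_add, neg_add_cancel, Real.exp_zero]
  calc ENNReal.ofReal (Real.cosh (θ * u)) * ENNReal.ofReal (Real.exp (-(C * θ ^ 2)) * (1 + θ ^ 2 * W))
      ≤ ENNReal.ofReal (Real.cosh (θ * u)) * ENNReal.ofReal 1 :=
        mul_le_mul_right (ENNReal.ofReal_le_ofReal e9) _
    _ = _ := by rw [ENNReal.ofReal_one, mul_one]

/-- the induction step, with a factor `c` -/
private theorem chain92 {F : Law} {C θ : ℝ} (hs : ∀ u : ℝ,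
    ∑' l : ℕ, ∑' h : ℤ, ENNReal.ofReal (F.f (l + 1) h) *
      ENNReal.ofReal (Real.cosh (θ * (u + h)) * Real.exp (-(C * θ ^ 2 * (l + 1)))) ≤
        ENNReal.ofReal (Real.cosh (θ * u))) (c : ℝ) (hc : 0 ≤ c) (n : ℕ) (x x₀ : ℤ) :
    ∑ l ∈ Finset.range (n + 1), ∑' z : ℤ, K0 F x (l + 1) z *
      ENNReal.ofReal (Real.cosh (θ * ((z : ℝ) - x₀)) * Real.exp (C * θ ^ 2 * ((n - l : ℕ) : ℝ)) * c) ≤
      ENNReal.ofReal (Real.cosh (θ * ((x : ℝ) - x₀)) * Real.exp (C * θ ^ 2 * ((n + 1 : ℕ) : ℝ)) * c) := by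
  have h1 : ∀ l ∈ Finset.range (n + 1), ∑' z : ℤ, K0 F x (l + 1) z *
      ENNReal.ofReal (Real.cosh (θ * ((z : ℝ) - x₀)) * Real.exp (C * θ ^ 2 * ((n - l : ℕ) : ℝ)) * c) =
      ENNReal.ofReal (Real.exp (C * θ ^ 2 * ((n + 1 : ℕ) : ℝ)) * c) *
        ∑' h : ℤ, ENNReal.ofReal (F.f (l + 1) h) *
        ENNReal.ofReal (Real.cosh (θ * (((x : ℝ) - x₀) + h)) * Real.exp (-(C * θ ^ 2 * (l + 1)))) := by
    intro l hl
    have hl' : l ≤ n := by
      rw [Finset.mem_range] at hl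
      omega
    rw [← ENNReal.tsum_mul_left, ← (Equiv.addLeft x).tsum_eq]
    refine tsum_congr fun h => ?_
    have h2 : K0 F x (l + 1) (Equiv.addLeft x h) = ENNReal.ofReal (F.f (l + 1) h) := by
      unfold K0
      simp
    have h3 : ((Equiv.addLeft x h : ℤ) : ℝ) - x₀ = (x : ℝ) - x₀ + h := by
      simp only [Equiv.coe_addLeft]
      push_cast
      ring
    have h4 : Real.exp (C * θ ^ 2 * ((n + 1 : ℕ) : ℝ)) * Real.exp (-(C * θ ^ 2 * (l + 1))) =
        Real.exp (C * θ ^ 2 * ((n - l : ℕ) : ℝ)) := by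
      rw [← Real.exp_add]
      congr 1
      rw [Nat.cast_sub hl']
      push_cast
      ring
    rw [h2, h3, ← h4, mul_left_comm (ENNReal.ofReal (Real.exp _ * c)),
      ← ENNReal.ofReal_mul (mul_nonneg (Real.exp_pos _).le hc)]
    congr 2
    ring
  rw [Finset.sum_congr rfl h1, ← Finset.mul_sum]
  calc ENNReal.ofReal (Real.exp (C * θ ^ 2 * ((n + 1 : ℕ) : ℝ)) * c) *
        ∑ l ∈ Finset.range (n + 1), ∑' h : ℤ, ENNReal.ofReal (F.f (l + 1) h) *
        ENNReal.ofReal (Real.cosh (θ * (((x : ℝ) - x₀) + h)) * Real.exp (-(C * θ ^ 2 * (l + 1))))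
      ≤ ENNReal.ofReal (Real.exp (C * θ ^ 2 * ((n + 1 : ℕ) : ℝ)) * c) *
          ENNReal.ofReal (Real.cosh (θ * ((x : ℝ) - x₀))) :=
        mul_le_mul_right ((ENNReal.sum_le_tsum _).trans (hs _)) _
    _ = _ := by
        rw [← ENNReal.ofReal_mul (by positivity)]
        congr 1
        ring

theorem cosh_moment (F : Law) : ∃ C θ₀ : ℝ, 0 < C ∧ 0 < θ₀ ∧ ∀ θ : ℝ, 0 ≤ θ → θ ≤ θ₀ →
    ∀ (n : ℕ) (x x₀ : ℤ), ∑' y : ℤ, G (K0 F) n x y * ENNReal.ofReal (Real.cosh (θ * ((y : ℝ) - x₀))) ≤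
      ENNReal.ofReal (Real.cosh (θ * ((x : ℝ) - x₀)) * Real.exp (C * θ ^ 2 * n)) := by
  obtain ⟨C, θ₀, hC, hθ, hs⟩ := step92 F
  refine ⟨C, θ₀, hC, hθ, fun θ h0 h1 n => ?_⟩
  induction n using Nat.strong_induction_on with
  | _ n ih =>
    intro x x₀
    rcases n with _ | n
    · rw [tsum_eq_single x]
      · rw [G_zero, if_pos rfl, one_mul]
        simp
      · intro y hy
        rw [G_zero, if_neg (Ne.symm hy), zero_mul]
    · have e1 : ∑' y : ℤ, G (K0 F) (n + 1) x y * ENNReal.ofReal (Real.cosh (θ * ((y : ℝ) - x₀))) =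
          ∑ l ∈ Finset.range (n + 1), ∑' z : ℤ, K0 F x (l + 1) z *
            ∑' y : ℤ, G (K0 F) (n - l) z y * ENNReal.ofReal (Real.cosh (θ * ((y : ℝ) - x₀))) := by
        have e2 : ∀ y : ℤ, G (K0 F) (n + 1) x y * ENNReal.ofReal (Real.cosh (θ * ((y : ℝ) - x₀))) =
            ∑ l ∈ Finset.range (n + 1), ∑' z : ℤ, K0 F x (l + 1) z * (G (K0 F) (n - l) z y *
              ENNReal.ofReal (Real.cosh (θ * ((y : ℝ) - x₀)))) := by
          intro y
          rw [G_succ, Finset.sum_mul]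
          refine Finset.sum_congr rfl fun l _ => ?_
          rw [← ENNReal.tsum_mul_right]
          exact tsum_congr fun z => mul_assoc _ _ _
        rw [tsum_congr e2, Summable.tsum_finsetSum fun _ _ => ENNReal.summable]
        refine Finset.sum_congr rfl fun l _ => ?_
        rw [ENNReal.tsum_comm]
        exact tsum_congr fun z => ENNReal.tsum_mul_left
      rw [e1]
      have e3 := chain92 (hs θ h0 h1) 1 zero_le_one n x x₀
      simp only [mul_one] at e3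
      refine le_trans (Finset.sum_le_sum fun l hl => ENNReal.tsum_le_tsum fun z =>
        mul_le_mul_right (ih (n - l) (by omega) z x₀) _) e3

theorem far_le (F : Law) : ∃ C θ₀ : ℝ, 0 < C ∧ 0 < θ₀ ∧ ∀ θ : ℝ, 0 ≤ θ → θ ≤ θ₀ →
    ∀ (n r : ℕ) (x x₀ : ℤ), Far (K0 F) x₀ r n x ≤
      ENNReal.ofReal (Real.cosh (θ * ((x : ℝ) - x₀)) * Real.exp (C * θ ^ 2 * n) / Real.cosh (θ * r)) := by
  obtain ⟨C, θ₀, hC, hθ, hs⟩ := step92 F
  refine ⟨C, θ₀, hC, hθ, fun θ h0 h1 n r x x₀ => ?_⟩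
  have hr := Real.cosh_pos (θ * r)
  have hout : ∀ (m : ℕ) (z : ℤ), (r : ℤ) ≤ |z - x₀| → (1 : ℝ≥0∞) ≤
      ENNReal.ofReal (Real.cosh (θ * ((z : ℝ) - x₀)) * Real.exp (C * θ ^ 2 * m) / Real.cosh (θ * r)) := by
    intro m z hz
    rw [ENNReal.one_le_ofReal, le_div_iff₀ hr, one_mul]
    have e1 : (r : ℝ) ≤ |(z : ℝ) - x₀| := by exact_mod_cast hz
    have e2 : Real.cosh (θ * r) ≤ Real.cosh (θ * ((z : ℝ) - x₀)) := by
      rw [Real.cosh_le_cosh, abs_mul, abs_mul, abs_of_nonneg h0, Nat.abs_cast]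
      exact mul_le_mul_of_nonneg_left e1 h0
    have e3 : (1 : ℝ) ≤ Real.exp (C * θ ^ 2 * m) := Real.one_le_exp (by positivity)
    calc Real.cosh (θ * r) ≤ Real.cosh (θ * ((z : ℝ) - x₀)) * 1 := by rw [mul_one]; exact e2
      _ ≤ _ := mul_le_mul_of_nonneg_left e3 (Real.cosh_pos _).le
  induction n using Nat.strong_induction_on generalizing x with
  | _ n ih =>
    by_cases hx : (r : ℤ) ≤ |x - x₀|
    · refine le_trans ?_ (hout n x hx)
      rcases n with _ | n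
      · rw [Far, if_pos hx]
      · rw [Far, if_pos hx]
    · rcases n with _ | n
      · rw [Far, if_neg hx]
        exact zero_le
      · rw [Far, if_neg hx]
        have e3 := chain92 (hs θ h0 h1) (Real.cosh (θ * r))⁻¹ (inv_nonneg.2 hr.le) n x x₀
        simp only [← div_eq_mul_inv] at e3
        refine le_trans (Finset.sum_le_sum fun l hl => ENNReal.tsum_le_tsum fun z =>
          mul_le_mul_right (ih (n - l) (by omega) z) _) e3

/-- The usual form. -/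
theorem far_gauss (F : Law) : ∃ c : ℝ, 0 < c ∧ ∀ (n r : ℕ) (x : ℤ), Far (K0 F) x r n x ≤
    ENNReal.ofReal (2 * Real.exp (-c * (r : ℝ) ^ 2 / (n + r))) := by
  obtain ⟨C, θ₀, hC, hθ, hs⟩ := far_le F
  set κ : ℝ := min θ₀ (1 / (2 * C)) with hκ
  have hκ0 : 0 < κ := lt_min hθ (by positivity)
  have hκC : C * κ ≤ 1 / 2 := by
    have := mul_le_mul_of_nonneg_left (min_le_right θ₀ (1 / (2 * C))) hC.le
    have h2 : C * (1 / (2 * C)) = 1 / 2 := by field_simp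
    rw [h2] at this
    exact this
  refine ⟨κ / 2, half_pos hκ0, fun n r x => ?_⟩
  have hr0 : (0 : ℝ) ≤ r := Nat.cast_nonneg r
  have hn0 : (0 : ℝ) ≤ n := Nat.cast_nonneg n
  set ρ : ℝ := (r : ℝ) / (n + r) with hρ
  have hρ0 : 0 ≤ ρ := by positivity
  have hρ1 : ρ ≤ 1 := div_le_one_of_le₀ (by linarith) (by positivity)
  have hρn : n * ρ ≤ r := by
    rcases eq_or_lt_of_le (show (0 : ℝ) ≤ n + r by positivity) with h | h
    · have : ρ = 0 := by rw [hρ, ← h, div_zero]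
      rw [this, mul_zero]
      exact hr0
    · rw [hρ, ← mul_div_assoc, div_le_iff₀ h]
      nlinarith
  have hθ0 : 0 ≤ κ * ρ := by positivity
  have hθ1 : κ * ρ ≤ θ₀ := by
    calc κ * ρ ≤ κ * 1 := mul_le_mul_of_nonneg_left hρ1 hκ0.le
      _ ≤ θ₀ := by rw [mul_one]; exact min_le_left _ _
  refine (hs (κ * ρ) hθ0 hθ1 n r x x).trans (ENNReal.ofReal_le_ofReal ?_)
  rw [sub_self, mul_zero, Real.cosh_zero, one_mul, div_le_iff₀ (Real.cosh_pos _)]
  have h1 : Real.exp (κ * ρ * r) / 2 ≤ Real.cosh (κ * ρ * r) := by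
    rw [Real.cosh_eq]
    have := (Real.exp_pos (-(κ * ρ * r))).le
    linarith
  have h2 : 2 * Real.exp (-(κ / 2) * (r : ℝ) ^ 2 / (n + r)) * (Real.exp (κ * ρ * r) / 2) ≤
      2 * Real.exp (-(κ / 2) * (r : ℝ) ^ 2 / (n + r)) * Real.cosh (κ * ρ * r) :=
    mul_le_mul_of_nonneg_left h1 (by positivity)
  refine le_trans ?_ h2
  have h3 : 2 * Real.exp (-(κ / 2) * (r : ℝ) ^ 2 / (n + r)) * (Real.exp (κ * ρ * r) / 2) =
      Real.exp (-(κ / 2) * (r : ℝ) ^ 2 / (n + r) + κ * ρ * r) := by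
    rw [Real.exp_add]
    ring
  rw [h3]
  refine Real.exp_le_exp.2 ?_
  have h4 : -(κ / 2) * (r : ℝ) ^ 2 / (n + r) = -(κ / 2) * (ρ * r) := by
    rw [hρ]
    ring
  rw [h4]
  have h5 : C * (κ * ρ) ^ 2 * n = C * κ * (κ * ρ * (n * ρ)) := by ring
  rw [h5]
  have h6 : κ * ρ * (n * ρ) ≤ κ * ρ * r := mul_le_mul_of_nonneg_left hρn hθ0
  have h7 : C * κ * (κ * ρ * (n * ρ)) ≤ 1 / 2 * (κ * ρ * r) := by
    calc C * κ * (κ * ρ * (n * ρ)) ≤ 1 / 2 * (κ * ρ * (n * ρ)) :=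
          mul_le_mul_of_nonneg_right hκC (by positivity)
      _ ≤ _ := mul_le_mul_of_nonneg_left h6 (by norm_num)
  linarith

end Pool.Agent.Helper18.WK
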