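import Pool.Agent.Helper18.WK.SuperP
import Pool.Agent.Helper18.WK.SuperT

/-!
# Project WK, blocks WK-A4 (one-sided) and WK-A5 (two-sided): superharmonic functions

WK-A4 (`psi_plus`). `q h = ∑_l f (l+1) h`. Put `b = a / 4`, `φ = ∑ q h cosh (b h)` (`1 < φ < ∞`),
`ψ z = z + A - exp (-b z)` for `z ≥ 1`, `ψ z = |z| + A` for `z ≤ 0`. For `x ≥ 1` the kernel only sees `z ≥ 1`:
`∑_(z ≥ 1) q(z-x) ψ z - ψ x = -exp(-b x)(φ - 1) + ∑_(x+h ≤ 0) q h (j - A + exp (b j))`, `j = -(x+h) ≥ 0`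
(because `∑ q h (x + h) = x` and `∑ q h exp(-b (x+h)) = exp(-b x) φ`). For `j ≤ J` the summand is `≤ 0` if
`A ≥ J + exp (b J)`; the rest is `≤ C exp(-a x) exp(-(a - b) J) ≤ exp(-b x)(φ - 1)` for `J` large.

WK-A5 (`psi_two`). With `θ z = |z| - B' exp (-b |z|)`: for `|x| > J`,
`∑ q h θ (x + h) ≤ θ x` (crossing `0` costs `≤ C exp (-a |x|)`, gain `B' exp (-b |x|) (φ - 1)`), for `|x| ≤ J` it is
`≤ θ x + C₁`. Let `V k x` be the expected number of visits to `[-J, J]` during the steps `0..k-1` of the walk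
with kernel `Kd F δ`. From `|x| ≤ J` the walk is killed within `N = J + 1` steps with probability `≥ κ` (go to
`0` by steps `±1`, pieces of length `l0`, then a flat unit piece, killed with probability `δ`); so
`W_k = sup_x V k x` satisfies `W_k ≤ max (N + (1 - κ) W_k, W_(k-1))`, hence `W_k ≤ N / κ`. `V = sup_k V k`
satisfies `V x = 1_{|x| ≤ J} + ∑ p x z V z`, so `ψ = θ + C₁ V + A` is superharmonic.
-/

open scoped ENNReal

namespace Pool.Agent.Helper18.WK

end Pool.Agent.Helper18.WK
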