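import Pool.Agent.Helper18.WK.Split
import Pool.Agent.Helper18.WK.AbsA
import Pool.Agent.Helper18.WK.Escape
import Pool.Agent.Helper18.WK.Super
import Pool.Agent.Helper18.WK.HorB
import Pool.Agent.Helper18.WK.HorA

/-!
# Project WK, blocks WK-B1 (horizontal persistence), WK-B2 (exponential moments)

WK-B1. Let `Tl F k n = P(L_1 + ... + L_k ≥ n)` (recursion `Tl_zero`, `Tl_succ`). `q_le`: for `K ≤ K0`,
`Q K n x ≤ Al (hk K) k x + Tl F k n` by induction on `k`. `tl_le`: with `∑ f l h exp (θ l) ≤ exp (C θ)`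
(`θ ≤ a / 2`), `Tl F k n ≤ exp (C θ k - θ n)`. `q_plus`, `q_two`: `k = ⌊n / (2 C)⌋`, `persist` with `psi_plus`,
`psi_two`, `escape`, `it_mono`, and `exp (-c n) ≤ C / √n`.

WK-B2 (`Far`, `cosh_moment`, `far_le`, `far_gauss`) is in HorB.lean.
-/

open scoped ENNReal

namespace Pool.Agent.Helper18.WK

end Pool.Agent.Helper18.WK
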