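import Pool.Agent.Helper18.WK.Llt
import Pool.Agent.Helper18.WK.Hor

/-!
# Project WK, block WK-B4: upper bounds `n^(-3/2)` for kernels with persistence

`K` symmetric, `K ≤ K0`, `Q K n x ≤ C (1 + |x|) / √n`. WK-B4.
`fst_over`: the mass of `Fst (K0 F) m x a z` over `a ≥ m + r` and all `z` is `≤ C exp (-c r)` (`fst_eq`: the
straddling piece has length `≥ m - j + r`; sum over `j < m` of `∑_(l ≥ m - j + r) len l`).
`g_up1`: `G K n x y ≤ C' (1 + |x|) / n`: `g_fst` with `m = n / 2`: if `a ≤ 3 n / 4` then `G K (n-a) z y ≤ C / √n`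
(`u_le`) and `∑ Fst = Q K m x`; otherwise `fst_over`.
`g_up2`: `G K n x y ≤ C' (1 + |x|) (1 + |y|) / n^(3/2)`: the same with `G K (n-a) z y = G K (n-a) y z ≤
C' (1 + |y|) / n` by `g_up1` and `g_symm`.
`e1`: apply it to `Kd F δ` (`q_two`), `kp_up` to `Kp F` (`q_plus`).
-/

open scoped ENNReal

namespace Pool.Agent.Helper18.WK

private theorem shift_b4 (f : ℕ → ℝ≥0∞) (N : ℕ) :
    ∑' a : ℕ, (if N ≤ a then f a else 0) = ∑' i : ℕ, f (i + N) := by
  rw [← Summable.sum_add_tsum_nat_add' (k := N) (f := fun a : ℕ => if N ≤ a then f a else 0)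
    ENNReal.summable]
  have h1 : ∑ i ∈ Finset.range N, (if N ≤ i then f i else 0) = 0 :=
    Finset.sum_eq_zero fun i hi => if_neg (by have := Finset.mem_range.1 hi; omega)
  rw [h1, zero_add]
  exact tsum_congr fun i => if_pos (by omega)

private theorem k0_sum_b4 (F : Law) (z' : ℤ) (l : ℕ) :
    ∑' z : ℤ, K0 F z' l z = ENNReal.ofReal (len F l) := by
  unfold K0 len
  rw [ENNReal.ofReal_tsum_of_nonneg (fun h => F.f_nonneg l h) (f_summable F l)]
  exact (Equiv.subRight z').tsum_eq (fun h : ℤ => ENNReal.ofReal (F.f l h))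

private theorem fst_sum_b4 (F : Law) {m a : ℕ} (hm : 1 ≤ m) (h : m ≤ a) (x : ℤ) :
    ∑' z : ℤ, Fst (K0 F) m x a z ≤ ∑ j ∈ Finset.range m, ENNReal.ofReal (len F (a - j)) := by
  calc ∑' z : ℤ, Fst (K0 F) m x a z
      = ∑' z : ℤ, ∑ j ∈ Finset.range m, ∑' z' : ℤ, G (K0 F) j x z' * K0 F z' (a - j) z :=
        tsum_congr fun z => fst_eq (K0 F) hm h x z
    _ = ∑ j ∈ Finset.range m, ∑' z : ℤ, ∑' z' : ℤ, G (K0 F) j x z' * K0 F z' (a - j) z :=
        Summable.tsum_finsetSum fun j _ => ENNReal.summable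
    _ ≤ ∑ j ∈ Finset.range m, ENNReal.ofReal (len F (a - j)) := by
        refine Finset.sum_le_sum fun j _ => ?_
        rw [ENNReal.tsum_comm]
        calc ∑' z' : ℤ, ∑' z : ℤ, G (K0 F) j x z' * K0 F z' (a - j) z
            = ∑' z' : ℤ, G (K0 F) j x z' * ENNReal.ofReal (len F (a - j)) :=
              tsum_congr fun z' => by rw [ENNReal.tsum_mul_left, k0_sum_b4]
          _ = (∑' z' : ℤ, G (K0 F) j x z') * ENNReal.ofReal (len F (a - j)) :=
              ENNReal.tsum_mul_right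
          _ ≤ 1 * ENNReal.ofReal (len F (a - j)) := mul_le_mul_left (g_sum_le F j x) _
          _ = ENNReal.ofReal (len F (a - j)) := one_mul _

theorem fst_over (F : Law) : ∃ C c : ℝ, 0 < C ∧ 0 < c ∧ ∀ (m r : ℕ) (x : ℤ),
    ∑' a : ℕ, (if m + r ≤ a then ∑' z : ℤ, Fst (K0 F) m x a z else 0) ≤
      ENNReal.ofReal (C * Real.exp (-c * r)) := by
  obtain ⟨C₀, hC₀, hlen⟩ := len_tail F
  have ha := F.a_pos
  set t : ℝ := Real.exp (-F.a) with ht
  have ht0 : 0 < t := Real.exp_pos _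
  have ht1 : t < 1 := by rw [ht, Real.exp_lt_one_iff]; linarith
  set τ : ℝ≥0∞ := ENNReal.ofReal t with hτ
  have hpow : ∀ l : ℕ, Real.exp (-F.a * l) = t ^ l := by
    intro l
    rw [ht, ← Real.exp_nat_mul]
    congr 1
    ring
  have hgeo : (1 - τ)⁻¹ = ENNReal.ofReal ((1 - t)⁻¹) := by
    rw [ENNReal.ofReal_inv_of_pos (by linarith), ENNReal.ofReal_sub _ ht0.le, ENNReal.ofReal_one]
  have hS0 : 0 < (1 - t)⁻¹ := inv_pos.2 (by linarith)
  refine ⟨C₀ * ((1 - t)⁻¹ * (1 - t)⁻¹) + 1, F.a, by positivity, ha, fun m r x => ?_⟩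
  rcases Nat.eq_zero_or_pos m with hm | hm
  · subst hm
    rcases Nat.eq_zero_or_pos r with hr | hr
    · subst hr
      have h1 : ∑' a : ℕ, (if 0 + 0 ≤ a then ∑' z : ℤ, Fst (K0 F) 0 x a z else 0) = 1 := by
        rw [tsum_eq_single 0]
        · rw [if_pos (by omega), tsum_eq_single x]
          · rw [Fst_zero]; simp
          · intro z hz
            rw [Fst_zero, if_neg (by rintro ⟨_, h⟩; exact hz h.symm)]
        · intro a ha0
          rw [if_pos (by omega), ENNReal.tsum_eq_zero]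
          intro z
          rw [Fst_zero, if_neg (by rintro ⟨h, _⟩; exact ha0 h)]
      rw [h1, ← ENNReal.ofReal_one]
      refine ENNReal.ofReal_le_ofReal ?_
      have : 0 < C₀ * ((1 - t)⁻¹ * (1 - t)⁻¹) := by positivity
      simp
      linarith
    · have h1 : ∑' a : ℕ, (if 0 + r ≤ a then ∑' z : ℤ, Fst (K0 F) 0 x a z else 0) = 0 := by
        rw [ENNReal.tsum_eq_zero]
        intro a
        split_ifs with h
        · rw [ENNReal.tsum_eq_zero]
          intro z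
          rw [Fst_zero, if_neg (by rintro ⟨h, _⟩; omega)]
        · rfl
      rw [h1]
      exact bot_le
  · have hterm : ∀ a : ℕ, (if m + r ≤ a then ∑' z : ℤ, Fst (K0 F) m x a z else 0) ≤
        ∑ j ∈ Finset.range m, (if m + r ≤ a then ENNReal.ofReal C₀ * τ ^ (a - j) else 0) := by
      intro a
      split_ifs with h
      · refine (fst_sum_b4 F hm (by omega) x).trans (Finset.sum_le_sum fun j _ => ?_)
        rw [hτ, ← ENNReal.ofReal_pow ht0.le, ← ENNReal.ofReal_mul hC₀.le, ← hpow]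
        exact ENNReal.ofReal_le_ofReal (hlen _)
      · exact bot_le
    calc ∑' a : ℕ, (if m + r ≤ a then ∑' z : ℤ, Fst (K0 F) m x a z else 0)
        ≤ ∑' a : ℕ, ∑ j ∈ Finset.range m,
            (if m + r ≤ a then ENNReal.ofReal C₀ * τ ^ (a - j) else 0) :=
          ENNReal.tsum_le_tsum hterm
      _ = ∑ j ∈ Finset.range m, ∑' a : ℕ,
            (if m + r ≤ a then ENNReal.ofReal C₀ * τ ^ (a - j) else 0) :=
          Summable.tsum_finsetSum fun j _ => ENNReal.summable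
      _ = ∑ j ∈ Finset.range m, ENNReal.ofReal C₀ * (τ ^ r * (1 - τ)⁻¹) * τ ^ (m - j) := by
          refine Finset.sum_congr rfl fun j hj => ?_
          have hjm := Finset.mem_range.1 hj
          rw [shift_b4 (fun a => ENNReal.ofReal C₀ * τ ^ (a - j)) (m + r)]
          have h2 : ∀ i : ℕ, ENNReal.ofReal C₀ * τ ^ (i + (m + r) - j) =
              (ENNReal.ofReal C₀ * τ ^ (m - j) * τ ^ r) * τ ^ i := by
            intro i
            have h3 : i + (m + r) - j = (m - j) + r + i := by omega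
            rw [h3, pow_add, pow_add]
            ring
          rw [tsum_congr h2, ENNReal.tsum_mul_left, ENNReal.tsum_geometric]
          ring
      _ = ENNReal.ofReal C₀ * (τ ^ r * (1 - τ)⁻¹) * ∑ j ∈ Finset.range m, τ ^ (m - j) := by
          rw [Finset.mul_sum]
      _ ≤ ENNReal.ofReal C₀ * (τ ^ r * (1 - τ)⁻¹) * (1 - τ)⁻¹ := by
          refine mul_le_mul_right ?_ _
          rw [← ENNReal.tsum_geometric]
          have h4 : ∑ j ∈ Finset.range m, τ ^ (m - j) = ∑ j ∈ Finset.range m, τ ^ (j + 1) := by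
            rw [← Finset.sum_range_reflect]
            refine Finset.sum_congr rfl fun j hj => ?_
            have hjm := Finset.mem_range.1 hj
            congr 1
            omega
          rw [h4]
          calc ∑ j ∈ Finset.range m, τ ^ (j + 1) ≤ ∑ j ∈ Finset.range m, τ ^ j := by
                refine Finset.sum_le_sum fun j _ => ?_
                have h5 : τ ≤ 1 := by
                  rw [hτ, ← ENNReal.ofReal_one]
                  exact ENNReal.ofReal_le_ofReal ht1.le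
                rw [pow_succ]
                exact (mul_le_mul_right h5 _).trans (mul_one _).le
            _ ≤ ∑' n : ℕ, τ ^ n := ENNReal.sum_le_tsum _
      _ = ENNReal.ofReal (C₀ * ((1 - t)⁻¹ * (1 - t)⁻¹) * Real.exp (-F.a * r)) := by
          rw [hgeo, hτ, ← ENNReal.ofReal_pow ht0.le, hpow, ← ENNReal.ofReal_mul (by positivity),
            ← ENNReal.ofReal_mul (by positivity), ← ENNReal.ofReal_mul (by positivity)]
          congr 1
          ring
      _ ≤ _ := by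
          refine ENNReal.ofReal_le_ofReal ?_
          have := Real.exp_pos (-F.a * r)
          nlinarith

private theorem g_le_one_b4 (F : Law) {K : Ker} (hK : ∀ x l z, K x l z ≤ K0 F x l z) (n : ℕ) (x y : ℤ) :
    G K n x y ≤ 1 :=
  ((g_mono hK n x y).trans (ENNReal.le_tsum y)).trans (g_sum_le F n x)

private theorem gen_b4 (F : Law) : ∃ C c : ℝ, 0 < C ∧ 0 < c ∧ ∀ K : Ker,
    (∀ x l z, K x l z ≤ K0 F x l z) → ∀ C₁ : ℝ, 0 < C₁ →
    (∀ (n : ℕ) (x : ℤ), 1 ≤ n → Q K n x ≤ ENNReal.ofReal (C₁ * (1 + |(x : ℝ)|) / Real.sqrt n)) →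
    ∀ (n : ℕ), 4 ≤ n → ∀ (x y : ℤ) (β : ℝ≥0∞), (∀ (k : ℕ) (z : ℤ), n ≤ 4 * k → G K k z y ≤ β) →
    G K n x y ≤ ENNReal.ofReal (2 * C₁ * (1 + |(x : ℝ)|) / Real.sqrt n) * β +
      ENNReal.ofReal (C * Real.exp (-c * (n / 4 : ℕ))) := by
  obtain ⟨C, c, hC, hc, hover⟩ := fst_over F
  refine ⟨C, c, hC, hc, fun K hK C₁ hC₁ hQ n hn x y β hβ => ?_⟩
  have hm1 : 1 ≤ n / 2 := by omega
  rw [g_fst K (m := n / 2) (by omega) x y]
  have hterm : ∀ a ∈ Finset.Icc (n / 2) n, ∑' z : ℤ, Fst K (n / 2) x a z * G K (n - a) z y ≤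
      (∑' z : ℤ, Fst K (n / 2) x a z) * β +
        (if n / 2 + n / 4 ≤ a then ∑' z : ℤ, Fst (K0 F) (n / 2) x a z else 0) := by
    intro a _
    split_ifs with h
    · refine le_add_left ?_
      refine ENNReal.tsum_le_tsum fun z => ?_
      calc Fst K (n / 2) x a z * G K (n - a) z y ≤ Fst (K0 F) (n / 2) x a z * 1 :=
            mul_le_mul' (fst_mono hK _ _ _ _) (g_le_one_b4 F hK _ _ _)
        _ = _ := mul_one _
    · rw [add_zero, ← ENNReal.tsum_mul_right]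
      refine ENNReal.tsum_le_tsum fun z => ?_
      exact mul_le_mul' le_rfl (hβ _ _ (by omega))
  calc ∑ a ∈ Finset.Icc (n / 2) n, ∑' z : ℤ, Fst K (n / 2) x a z * G K (n - a) z y
      ≤ ∑ a ∈ Finset.Icc (n / 2) n, ((∑' z : ℤ, Fst K (n / 2) x a z) * β +
        (if n / 2 + n / 4 ≤ a then ∑' z : ℤ, Fst (K0 F) (n / 2) x a z else 0)) :=
        Finset.sum_le_sum hterm
    _ ≤ ∑' a : ℕ, ((∑' z : ℤ, Fst K (n / 2) x a z) * β +
        (if n / 2 + n / 4 ≤ a then ∑' z : ℤ, Fst (K0 F) (n / 2) x a z else 0)) :=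
        ENNReal.sum_le_tsum _
    _ = (∑' a : ℕ, ∑' z : ℤ, Fst K (n / 2) x a z) * β +
        ∑' a : ℕ, (if n / 2 + n / 4 ≤ a then ∑' z : ℤ, Fst (K0 F) (n / 2) x a z else 0) := by
        rw [ENNReal.tsum_add, ENNReal.tsum_mul_right]
    _ ≤ ENNReal.ofReal (2 * C₁ * (1 + |(x : ℝ)|) / Real.sqrt n) * β +
      ENNReal.ofReal (C * Real.exp (-c * (n / 4 : ℕ))) := by
        refine add_le_add (mul_le_mul' ?_ le_rfl) (hover _ _ _)
        rw [← q_fst]
        refine (hQ _ x hm1).trans (ENNReal.ofReal_le_ofReal ?_)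
        have hx0 : 0 ≤ |(x : ℝ)| := abs_nonneg _
        have hnpos : (0 : ℝ) < n := by
          have : 0 < n := by omega
          exact_mod_cast this
        have hmr : (n : ℝ) ≤ 4 * ((n / 2 : ℕ) : ℝ) := by
          have : n ≤ 4 * (n / 2) := by omega
          exact_mod_cast this
        have hs : Real.sqrt n ≤ 2 * Real.sqrt ((n / 2 : ℕ) : ℝ) := by
          rw [Real.sqrt_le_left (by positivity), mul_pow, Real.sq_sqrt (by positivity)]
          linarith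
        have hsn : 0 < Real.sqrt n := Real.sqrt_pos.2 hnpos
        have hsm : 0 < Real.sqrt ((n / 2 : ℕ) : ℝ) := by
          refine Real.sqrt_pos.2 ?_
          exact_mod_cast hm1
        rw [div_le_div_iff₀ hsm hsn]
        have h5 : 0 ≤ C₁ * (1 + |(x : ℝ)|) := by positivity
        nlinarith

private theorem exp_b4 {C c : ℝ} (hC : 0 < C) (hc : 0 < c) : ∃ D : ℝ, 0 < D ∧ ∀ n : ℕ, 4 ≤ n →
    C * Real.exp (-c * (n / 4 : ℕ)) ≤ D / (n * Real.sqrt n) := by
  refine ⟨C * Real.exp c * (32 / c ^ 2), by positivity, fun n hn => ?_⟩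
  have hnr : (4 : ℝ) ≤ n := by exact_mod_cast hn
  have h1 : (n : ℝ) / 4 - 1 ≤ ((n / 4 : ℕ) : ℝ) := by
    have : n ≤ 4 * (n / 4) + 4 := by omega
    have h : (n : ℝ) ≤ 4 * ((n / 4 : ℕ) : ℝ) + 4 := by exact_mod_cast this
    linarith
  have h2 : Real.exp (-c * (n / 4 : ℕ)) ≤ Real.exp c * Real.exp (-(c * n / 4)) := by
    rw [← Real.exp_add]
    refine Real.exp_le_exp.2 ?_
    nlinarith
  have h3 : (c * n / 4) ^ 2 / 2 ≤ Real.exp (c * n / 4) := by
    have := Real.quadratic_le_exp_of_nonneg (x := c * n / 4) (by positivity)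
    have h0 : 0 ≤ c * n / 4 := by positivity
    linarith
  have h4 : Real.exp (-(c * n / 4)) ≤ 32 / c ^ 2 / n ^ 2 := by
    rw [Real.exp_neg, div_div, inv_le_comm₀ (Real.exp_pos _) (by positivity), inv_div]
    calc c ^ 2 * (n : ℝ) ^ 2 / 32 = (c * n / 4) ^ 2 / 2 := by ring
      _ ≤ _ := h3
  have h5 : (n : ℝ) * Real.sqrt n ≤ n ^ 2 := by
    have : Real.sqrt n ≤ n := by
      rw [Real.sqrt_le_left (by linarith)]
      nlinarith
    nlinarith
  have h6 : 0 < (n : ℝ) * Real.sqrt n := mul_pos (by linarith) (Real.sqrt_pos.2 (by linarith))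
  calc C * Real.exp (-c * (n / 4 : ℕ)) ≤ C * (Real.exp c * (32 / c ^ 2 / n ^ 2)) := by
        refine mul_le_mul_of_nonneg_left (h2.trans ?_) hC.le
        exact mul_le_mul_of_nonneg_left h4 (Real.exp_pos _).le
    _ = C * Real.exp c * (32 / c ^ 2) / n ^ 2 := by ring
    _ ≤ C * Real.exp c * (32 / c ^ 2) / (n * Real.sqrt n) :=
        div_le_div_of_nonneg_left (by positivity) h6 h5

theorem g_up1 (F : Law) (C₁ : ℝ) (hC : 0 < C₁) : ∃ C : ℝ, 0 < C ∧ ∀ K : Ker,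
    (∀ x l z, K x l z = K z l x) → (∀ x l z, K x l z ≤ K0 F x l z) →
    (∀ (n : ℕ) (x : ℤ), 1 ≤ n → Q K n x ≤ ENNReal.ofReal (C₁ * (1 + |(x : ℝ)|) / Real.sqrt n)) →
    ∀ (n : ℕ) (x y : ℤ), 1 ≤ n → G K n x y ≤ ENNReal.ofReal (C * (1 + |(x : ℝ)|) / n) := by
  obtain ⟨C₂, c, hC₂, hc, hgen⟩ := gen_b4 F
  obtain ⟨D, hD, hexp⟩ := exp_b4 hC₂ hc
  obtain ⟨Cu, hCu, hu⟩ := u_le F
  refine ⟨4 * C₁ * Cu + D + 4, by positivity, fun K _ hK hQ n x y hn => ?_⟩
  have hx0 : 0 ≤ |(x : ℝ)| := abs_nonneg _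
  have hnpos : (0 : ℝ) < n := by exact_mod_cast hn
  rcases lt_or_ge n 4 with hn4 | hn4
  · refine (g_le_one_b4 F hK n x y).trans ?_
    rw [← ENNReal.ofReal_one]
    refine ENNReal.ofReal_le_ofReal ?_
    rw [le_div_iff₀ hnpos, one_mul]
    have h1 : (n : ℝ) ≤ 4 := by exact_mod_cast hn4.le
    have h2 : 0 < 4 * C₁ * Cu + D := by positivity
    nlinarith
  · have hnr : (4 : ℝ) ≤ n := by exact_mod_cast hn4
    have hsn : 0 < Real.sqrt n := Real.sqrt_pos.2 hnpos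
    have hss : Real.sqrt n * Real.sqrt n = n := Real.mul_self_sqrt hnpos.le
    have hβ : ∀ (k : ℕ) (z : ℤ), n ≤ 4 * k → G K k z y ≤ ENNReal.ofReal (2 * Cu / Real.sqrt n) := by
      intro k z hk
      have hk1 : 1 ≤ k := by omega
      have hkr : (0 : ℝ) < k := by exact_mod_cast hk1
      refine (g_mono hK k z y).trans ?_
      rw [u_eq]
      refine ENNReal.ofReal_le_ofReal ((hu k _ hk1).trans ?_)
      rw [div_le_div_iff₀ (Real.sqrt_pos.2 hkr) hsn]
      have hs : Real.sqrt n ≤ 2 * Real.sqrt k := by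
        rw [Real.sqrt_le_left (by positivity), mul_pow, Real.sq_sqrt (by positivity)]
        have : (n : ℝ) ≤ 4 * k := by exact_mod_cast hk
        linarith
      nlinarith
    refine (hgen K hK C₁ hC hQ n hn4 x y _ hβ).trans ?_
    rw [← ENNReal.ofReal_mul (by positivity), ← ENNReal.ofReal_add (by positivity) (by positivity)]
    refine ENNReal.ofReal_le_ofReal ?_
    have h1 : 2 * C₁ * (1 + |(x : ℝ)|) / Real.sqrt n * (2 * Cu / Real.sqrt n) =
        4 * C₁ * Cu * (1 + |(x : ℝ)|) / n := by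
      rw [div_mul_div_comm, hss]
      ring
    have h2 : D / (n * Real.sqrt n) ≤ D * (1 + |(x : ℝ)|) / n := by
      rw [div_le_div_iff₀ (by positivity) hnpos]
      have h3 : 1 ≤ Real.sqrt n := by
        rw [Real.one_le_sqrt]; linarith
      have h4 : 0 < D * n := by positivity
      have h5 : 1 ≤ (1 + |(x : ℝ)|) * Real.sqrt n := by nlinarith
      nlinarith
    rw [h1]
    calc 4 * C₁ * Cu * (1 + |(x : ℝ)|) / n + C₂ * Real.exp (-c * (n / 4 : ℕ))
        ≤ 4 * C₁ * Cu * (1 + |(x : ℝ)|) / n + D * (1 + |(x : ℝ)|) / n :=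
          add_le_add le_rfl ((hexp n hn4).trans h2)
      _ = (4 * C₁ * Cu + D) * (1 + |(x : ℝ)|) / n := by ring
      _ ≤ (4 * C₁ * Cu + D + 4) * (1 + |(x : ℝ)|) / n :=
          div_le_div_of_nonneg_right (mul_le_mul_of_nonneg_right (by linarith) (by positivity)) hnpos.le

theorem g_up2 (F : Law) (C₁ : ℝ) (hC : 0 < C₁) : ∃ C : ℝ, 0 < C ∧ ∀ K : Ker,
    (∀ x l z, K x l z = K z l x) → (∀ x l z, K x l z ≤ K0 F x l z) →
    (∀ (n : ℕ) (x : ℤ), 1 ≤ n → Q K n x ≤ ENNReal.ofReal (C₁ * (1 + |(x : ℝ)|) / Real.sqrt n)) →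
    ∀ (n : ℕ) (x y : ℤ), 1 ≤ n → G K n x y ≤
      ENNReal.ofReal (C * (1 + |(x : ℝ)|) * (1 + |(y : ℝ)|) / (n * Real.sqrt n)) := by
  obtain ⟨C₂, c, hC₂, hc, hgen⟩ := gen_b4 F
  obtain ⟨D, hD, hexp⟩ := exp_b4 hC₂ hc
  obtain ⟨C₃, hC₃, hup⟩ := g_up1 F C₁ hC
  refine ⟨8 * C₁ * C₃ + D + 8, by positivity, fun K hs hK hQ n x y hn => ?_⟩
  have hx0 : 0 ≤ |(x : ℝ)| := abs_nonneg _
  have hy0 : 0 ≤ |(y : ℝ)| := abs_nonneg _
  have hnpos : (0 : ℝ) < n := by exact_mod_cast hn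
  have hsn : 0 < Real.sqrt n := Real.sqrt_pos.2 hnpos
  have hxy : 1 ≤ (1 + |(x : ℝ)|) * (1 + |(y : ℝ)|) := by nlinarith
  rcases lt_or_ge n 4 with hn4 | hn4
  · refine (g_le_one_b4 F hK n x y).trans ?_
    rw [← ENNReal.ofReal_one]
    refine ENNReal.ofReal_le_ofReal ?_
    rw [le_div_iff₀ (by positivity), one_mul]
    have h1 : (n : ℝ) ≤ 4 := by exact_mod_cast hn4.le
    have h2 : Real.sqrt n ≤ 2 := by
      rw [Real.sqrt_le_left (by norm_num)]; linarith
    have h3 : (n : ℝ) * Real.sqrt n ≤ 8 := by nlinarith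
    have h4 : 0 < 8 * C₁ * C₃ + D := by positivity
    nlinarith
  · have hnr : (4 : ℝ) ≤ n := by exact_mod_cast hn4
    have hβ : ∀ (k : ℕ) (z : ℤ), n ≤ 4 * k → G K k z y ≤
        ENNReal.ofReal (4 * C₃ * (1 + |(y : ℝ)|) / n) := by
      intro k z hk
      have hk1 : 1 ≤ k := by omega
      have hkr : (0 : ℝ) < k := by exact_mod_cast hk1
      rw [g_symm K hs k z y]
      refine (hup K hs hK hQ k y z hk1).trans (ENNReal.ofReal_le_ofReal ?_)
      rw [div_le_div_iff₀ hkr hnpos]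
      have : (n : ℝ) ≤ 4 * k := by exact_mod_cast hk
      have h5 : 0 ≤ C₃ * (1 + |(y : ℝ)|) := by positivity
      nlinarith
    refine (hgen K hK C₁ hC hQ n hn4 x y _ hβ).trans ?_
    rw [← ENNReal.ofReal_mul (by positivity), ← ENNReal.ofReal_add (by positivity) (by positivity)]
    refine ENNReal.ofReal_le_ofReal ?_
    have h1 : 2 * C₁ * (1 + |(x : ℝ)|) / Real.sqrt n * (4 * C₃ * (1 + |(y : ℝ)|) / n) =
        8 * C₁ * C₃ * (1 + |(x : ℝ)|) * (1 + |(y : ℝ)|) / (n * Real.sqrt n) := by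
      rw [div_mul_div_comm, mul_comm (Real.sqrt n)]
      congr 1
      ring
    have h2 : D / (n * Real.sqrt n) ≤ D * (1 + |(x : ℝ)|) * (1 + |(y : ℝ)|) / (n * Real.sqrt n) := by
      refine div_le_div_of_nonneg_right ?_ (by positivity)
      nlinarith
    rw [h1]
    calc 8 * C₁ * C₃ * (1 + |(x : ℝ)|) * (1 + |(y : ℝ)|) / (n * Real.sqrt n) +
          C₂ * Real.exp (-c * (n / 4 : ℕ))
        ≤ 8 * C₁ * C₃ * (1 + |(x : ℝ)|) * (1 + |(y : ℝ)|) / (n * Real.sqrt n) +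
          D * (1 + |(x : ℝ)|) * (1 + |(y : ℝ)|) / (n * Real.sqrt n) :=
          add_le_add le_rfl ((hexp n hn4).trans h2)
      _ = (8 * C₁ * C₃ + D) * (1 + |(x : ℝ)|) * (1 + |(y : ℝ)|) / (n * Real.sqrt n) := by ring
      _ ≤ (8 * C₁ * C₃ + D + 8) * (1 + |(x : ℝ)|) * (1 + |(y : ℝ)|) / (n * Real.sqrt n) :=
          div_le_div_of_nonneg_right (mul_le_mul_of_nonneg_right (mul_le_mul_of_nonneg_right
            (by linarith) (by positivity)) (by positivity)) (by positivity)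

/-- **E1**: the walk killed at visits of the row `0`. -/
theorem e1 (F : Law) {δ : ℝ} (h0 : 0 < δ) (h1 : δ < 1) : ∃ C : ℝ, 0 < C ∧
    ∀ (n : ℕ) (x y : ℤ), 1 ≤ n → G (Kd F δ) n x y ≤
      ENNReal.ofReal (C * (1 + |(x : ℝ)|) * (1 + |(y : ℝ)|) / (n * Real.sqrt n)) := by
  obtain ⟨C₁, hC₁, hQ⟩ := q_two F h0 h1
  obtain ⟨C, hC, hup⟩ := g_up2 F C₁ hC₁
  exact ⟨C, hC, fun n x y hn => hup (Kd F δ) (kd_symm F δ) (kd_le F h0) hQ n x y hn⟩

theorem kp_up (F : Law) : ∃ C : ℝ, 0 < C ∧ ∀ (n : ℕ) (x y : ℤ), 1 ≤ n →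
    G (Kp F) n x y ≤ ENNReal.ofReal (C * (1 + |(x : ℝ)|) / n) ∧
    G (Kp F) n x y ≤
      ENNReal.ofReal (C * (1 + |(x : ℝ)|) * (1 + |(y : ℝ)|) / (n * Real.sqrt n)) := by
  obtain ⟨C₁, hC₁, hQ⟩ := q_plus F
  obtain ⟨C, hC, hup⟩ := g_up1 F C₁ hC₁
  obtain ⟨C', hC', hup'⟩ := g_up2 F C₁ hC₁
  refine ⟨C + C', by positivity, fun n x y hn => ⟨?_, ?_⟩⟩
  · refine (hup (Kp F) (kp_symm F) (kp_le F) hQ n x y hn).trans (ENNReal.ofReal_le_ofReal ?_)
    gcongr
    linarith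
  · refine (hup' (Kp F) (kp_symm F) (kp_le F) hQ n x y hn).trans (ENNReal.ofReal_le_ofReal ?_)
    gcongr
    linarith

end Pool.Agent.Helper18.WK
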