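import Pool.Agent.Helper18.WK.LstC
import Pool.Agent.Helper18.WK.SplitA
import Pool.Agent.Helper18.WK.Up

/-!
# Project WK, block WK-E3: a low cut in the bulk is unlikely

`low_cut`: the prefixes stopped at the first cut at a position `≥ j` (`sc_stp`, `hgt_stp`, every chain has one,
`stp_exists`), end height `z ∈ [1, ε √n]`, length `a`. If `a ≤ (1 - d / 4) n` then the rest is
`≤ C (1 + z) (1 + y) / (n - a)^(3/2) ≤ C_d (1 + ε √n) n^(-3/2)` (`kp_up`), and the total mass of the prefixes is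
`Q (Kp F) j x ≤ C (1 + x) / √(d n / 2)` (`q_fst`, `q_plus`); if `a > (1 - d / 4) n ≥ j + d n / 4`: `fst_over`.
-/

open scoped ENNReal Classical

namespace Pool.Agent.Helper18.WK

private theorem exp_le30 {C c : ℝ} (hC : 0 < C) (hc : 0 < c) {n : ℝ} (hn : 1 ≤ n) {d : ℝ} (hd : 0 < d)
    (h : 6 * C / (c ^ 3 * d) ≤ n) : C * Real.exp (-c * n) ≤ d / (n * Real.sqrt n) := by
  have hn0 : 0 < n := by linarith
  have hsn : 0 < Real.sqrt n := Real.sqrt_pos.mpr hn0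
  have h1 := Real.pow_div_factorial_le_exp (c * n) (by positivity) 3
  have h2 : ((Nat.factorial 3 : ℕ) : ℝ) = 6 := by norm_num [Nat.factorial]
  rw [h2] at h1
  have h3 : Real.exp (-c * n) = 1 / Real.exp (c * n) := by
    rw [neg_mul, Real.exp_neg, one_div]
  rw [h3]
  have h5 : 1 / Real.exp (c * n) ≤ 1 / ((c * n) ^ 3 / 6) := one_div_le_one_div_of_le (by positivity) h1
  have h6 : C * (1 / ((c * n) ^ 3 / 6)) = 6 * C / (c ^ 3 * n) / n ^ 2 := by
    field_simp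
  have h7 : 6 * C / (c ^ 3 * n) ≤ d := by
    rw [div_le_iff₀ (by positivity)] at h ⊢
    linarith
  have h8 : Real.sqrt n ≤ n := by
    rw [Real.sqrt_le_left (by linarith)]
    nlinarith
  calc C * (1 / Real.exp (c * n)) ≤ C * (1 / ((c * n) ^ 3 / 6)) := mul_le_mul_of_nonneg_left h5 hC.le
    _ = 6 * C / (c ^ 3 * n) / n ^ 2 := h6
    _ ≤ d / n ^ 2 := div_le_div_of_nonneg_right h7 (by positivity)
    _ ≤ d / (n * Real.sqrt n) := by
        refine div_le_div_of_nonneg_left hd.le (by positivity) ?_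
        rw [pow_two]
        exact mul_le_mul_of_nonneg_left h8 hn0.le

/-- the chains sorted by their first cut at a position `≥ t` -/
theorem hgt_split30 (K : Ker) (hK : ∀ x z, K x 0 z = 0) {t n : ℕ} (ht : t ≤ n) (x y : ℤ) (b : ℝ) :
    Sc K n x y (fun c => if (hgt t x c : ℝ) ≤ b then 1 else 0) =
      ∑ a ∈ Finset.Icc t n, ∑' z : ℤ, Fst K t x a z * (if (z : ℝ) ≤ b then G K (n - a) z y else 0) := by
  rw [← group_stp31 K hK t n x (fun a z => if (z : ℝ) ≤ b then G K (n - a) z y else 0)]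
  obtain ⟨Φ, hΦ⟩ : ∃ Φ : Ch → ℝ≥0∞, Φ = fun c => if (hgt t x c : ℝ) ≤ b then 1 else 0 := ⟨_, rfl⟩
  have h1 : Sc K n x y (fun c => if (hgt t x c : ℝ) ≤ b then 1 else 0) =
      Sc K n x y (fun c => if ∃ c₁ c₂ : Ch, c = c₁ ++ c₂ ∧ Stp (fun j _ => t ≤ j) 0 x c₁ then Φ c else 0) := by
    rw [← hΦ]
    unfold Sc
    refine tsum_congr fun c => ?_
    by_cases h : cl c = n ∧ ce x c = y
    · rw [if_pos h, if_pos h]
      beta_reduce
      rw [if_pos (stp_exists (by omega))]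
    · rw [if_neg h, if_neg h]
  rw [h1, sc_stp]
  refine tsum_congr fun c₁ => ?_
  by_cases h : Stp (fun j _ => t ≤ j) 0 x c₁ ∧ cl c₁ ≤ n
  · rw [if_pos h, if_pos h]
    congr 1
    have hcl : t ≤ cl c₁ := by
      have := stp_cl31 c₁ 0 x h.1
      omega
    have h2 : ∀ c₂ : Ch, Φ (c₁ ++ c₂) = if ((ce x c₁ : ℤ) : ℝ) ≤ b then (1 : ℝ≥0∞) else 0 := by
      intro c₂
      rw [hΦ]
      beta_reduce
      rw [hgt_stp le_rfl h.1, Nat.sub_eq_zero_of_le hcl, hgt_zero31]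
    by_cases h3 : ((ce x c₁ : ℤ) : ℝ) ≤ b
    · rw [if_pos h3, ← sc_one K hK]
      congr 1
      funext c₂
      rw [h2, if_pos h3]
    · rw [if_neg h3]
      unfold Sc
      rw [ENNReal.tsum_eq_zero]
      intro c₂
      beta_reduce
      rw [h2, if_neg h3, mul_zero, ite_self]
  · rw [if_neg h, if_neg h]

private theorem gkp_zero30 (F : Law) {n : ℕ} (hn : 1 ≤ n) {z : ℤ} (hz : ¬ 1 ≤ z) (y : ℤ) : G (Kp F) n z y = 0 := by
  obtain ⟨m, rfl⟩ : ∃ m, n = m + 1 := ⟨n - 1, by omega⟩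
  rw [G_succ]
  refine Finset.sum_eq_zero fun l _ => ?_
  rw [ENNReal.tsum_eq_zero]
  intro z'
  have h1 : Kp F z (l + 1) z' = 0 := by
    unfold Kp
    exact if_neg fun h => hz h.1
  rw [h1, zero_mul]

/-- the two parts: the first cut is not too far, or it is far -/
theorem low_parts30 (F : Law) {C₁ C C₃ c : ℝ} (hC₁ : 0 < C₁) (hC : 0 < C)
    (hq : ∀ (n : ℕ) (x : ℤ), 1 ≤ n → Q (Kp F) n x ≤ ENNReal.ofReal (C₁ * (1 + |(x : ℝ)|) / Real.sqrt n))
    (hup : ∀ (n : ℕ) (x y : ℤ), 1 ≤ n → G (Kp F) n x y ≤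
      ENNReal.ofReal (C * (1 + |(x : ℝ)|) * (1 + |(y : ℝ)|) / (n * Real.sqrt n)))
    (ho : ∀ (m r : ℕ) (x : ℤ), ∑' a : ℕ, (if m + r ≤ a then ∑' z : ℤ, Fst (K0 F) m x a z else 0) ≤
      ENNReal.ofReal (C₃ * Real.exp (-c * r)))
    (M : ℕ) {n j r : ℕ} (hj : 1 ≤ j) (hr : 1 ≤ r) (hjr : j + r + r ≤ n) {x y : ℤ} (hx : 1 ≤ x) (hxM : x ≤ M)
    (hy : 1 ≤ y) (hyM : y ≤ M) {b : ℝ} (hb : 0 ≤ b) :
    Sc (Kp F) n x y (fun c => if (hgt j x c : ℝ) ≤ b then 1 else 0) ≤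
      ENNReal.ofReal (C₁ * (1 + M) / Real.sqrt j * (C * (1 + b) * (1 + M) / (r * Real.sqrt r))) +
        ENNReal.ofReal (C₃ * Real.exp (-c * r)) := by
  have hK0 : ∀ x z, Kp F x 0 z = 0 := by
    intro x z
    unfold Kp
    rw [F.f_zero, ENNReal.ofReal_zero, ite_self]
  have hxr : |(x : ℝ)| ≤ M := by
    rw [abs_of_nonneg (by exact_mod_cast (by omega : (0 : ℤ) ≤ x))]
    exact_mod_cast hxM
  have hyr : |(y : ℝ)| ≤ M := by
    rw [abs_of_nonneg (by exact_mod_cast (by omega : (0 : ℤ) ≤ y))]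
    exact_mod_cast hyM
  have hr0 : (0 : ℝ) < r := by exact_mod_cast hr
  have hj0 : (0 : ℝ) < j := by exact_mod_cast hj
  have hM0 : (0 : ℝ) ≤ M := Nat.cast_nonneg M
  set B₁ : ℝ≥0∞ := ENNReal.ofReal (C * (1 + b) * (1 + M) / (r * Real.sqrt r)) with hB
  have hH : ∀ a : ℕ, a + r ≤ n → ∀ z : ℤ, (if (z : ℝ) ≤ b then G (Kp F) (n - a) z y else 0) ≤ B₁ := by
    intro a ha z
    split_ifs with h
    · by_cases hz : 1 ≤ z
      · refine (hup (n - a) z y (by omega)).trans (ENNReal.ofReal_le_ofReal ?_)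
        have h1 : |(z : ℝ)| ≤ b := by
          rw [abs_of_nonneg (by exact_mod_cast (by omega : (0 : ℤ) ≤ z))]
          exact h
        have h2 : (r : ℝ) ≤ ((n - a : ℕ) : ℝ) := by exact_mod_cast (by omega : r ≤ n - a)
        have h3 : Real.sqrt r ≤ Real.sqrt ((n - a : ℕ) : ℝ) := Real.sqrt_le_sqrt h2
        gcongr
      · rw [gkp_zero30 F (by omega) hz y]
        exact zero_le
    · exact zero_le
  have hH1 : ∀ a : ℕ, ∀ z : ℤ, (if (z : ℝ) ≤ b then G (Kp F) (n - a) z y else 0) ≤ 1 := by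
    intro a z
    split_ifs
    · exact (g_mono (kp_le F) _ _ _).trans ((ENNReal.le_tsum y).trans (g_sum_le F _ z))
    · exact zero_le
  rw [hgt_split30 (Kp F) hK0 (by omega) x y b]
  have hterm : ∀ a ∈ Finset.Icc j n, (∑' z : ℤ, Fst (Kp F) j x a z *
      (if (z : ℝ) ≤ b then G (Kp F) (n - a) z y else 0)) ≤
      (∑' z : ℤ, Fst (Kp F) j x a z) * B₁ + (if j + r ≤ a then ∑' z : ℤ, Fst (K0 F) j x a z else 0) := by
    intro a ha
    by_cases h : a + r ≤ n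
    · refine le_add_right ?_
      rw [← ENNReal.tsum_mul_right]
      exact ENNReal.tsum_le_tsum fun z => mul_le_mul_right (hH a h z) _
    · refine le_add_left ?_
      rw [if_pos (by omega)]
      refine ENNReal.tsum_le_tsum fun z => ?_
      calc _ ≤ Fst (Kp F) j x a z * 1 := mul_le_mul_right (hH1 a z) _
        _ ≤ _ := by
          rw [mul_one]
          exact fst_mono (kp_le F) j x a z
  calc _ ≤ ∑ a ∈ Finset.Icc j n, ((∑' z : ℤ, Fst (Kp F) j x a z) * B₁ +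
        (if j + r ≤ a then ∑' z : ℤ, Fst (K0 F) j x a z else 0)) := Finset.sum_le_sum hterm
    _ = (∑ a ∈ Finset.Icc j n, ∑' z : ℤ, Fst (Kp F) j x a z) * B₁ +
        ∑ a ∈ Finset.Icc j n, (if j + r ≤ a then ∑' z : ℤ, Fst (K0 F) j x a z else 0) := by
        rw [Finset.sum_add_distrib, Finset.sum_mul]
    _ ≤ Q (Kp F) j x * B₁ + ∑' a : ℕ, (if j + r ≤ a then ∑' z : ℤ, Fst (K0 F) j x a z else 0) := by
        rw [q_fst]
        exact add_le_add (mul_le_mul_left (ENNReal.sum_le_tsum _) _) (ENNReal.sum_le_tsum _)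
    _ ≤ _ := by
        refine add_le_add ?_ (ho j r x)
        have h1 : Q (Kp F) j x ≤ ENNReal.ofReal (C₁ * (1 + M) / Real.sqrt j) := by
          refine (hq j x hj).trans (ENNReal.ofReal_le_ofReal ?_)
          gcongr
        rw [ENNReal.ofReal_mul (by positivity)]
        exact mul_le_mul_left h1 _

theorem low_cut (F : Law) (M : ℕ) {d t : ℝ} (hd : 0 < d) (hd1 : d < 1) (ht : 0 < t) : ∃ (ε : ℝ) (n₀ : ℕ), 0 < ε ∧
    ∀ n ≥ n₀, ∀ j : ℕ, d / 2 * n ≤ j → (j : ℝ) ≤ (1 - d / 2) * n → ∀ x y : ℤ, 1 ≤ x → x ≤ M → 1 ≤ y → y ≤ M →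
      Sc (Kp F) n x y (fun c => if (hgt j x c : ℝ) ≤ ε * Real.sqrt n then 1 else 0) ≤
        ENNReal.ofReal (t / (n * Real.sqrt n)) := by
  obtain ⟨C₁, hC₁, hq⟩ := q_plus F
  obtain ⟨C, hC, hup⟩ := kp_up F
  obtain ⟨C₃, c, hC₃, hc, ho⟩ := fst_over F
  have hM0 : (0 : ℝ) ≤ M := Nat.cast_nonneg M
  -- `r = ⌊(d / 4) n⌋ ≥ (d / 8) n` for large `n`
  obtain ⟨e, he⟩ : ∃ e : ℝ, e = d / 8 := ⟨_, rfl⟩
  have he0 : 0 < e := by rw [he]; positivity
  obtain ⟨K, hK⟩ : ∃ K : ℝ, K = C₁ * (1 + M) * (C * (1 + M)) / (Real.sqrt e * (e * Real.sqrt e)) := ⟨_, rfl⟩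
  have hse : 0 < Real.sqrt e := Real.sqrt_pos.2 he0
  have hK0 : 0 < K := by rw [hK]; positivity
  obtain ⟨n₁, hn₁⟩ := exists_nat_ge (max (max 1 ((4 * K / t) ^ 2)) (max (1 / e) (6 * C₃ / ((c * e) ^ 3 * (t / 2)))))
  refine ⟨t / (4 * K), n₁, by positivity, fun n hn j hj hj' x y hx hxM hy hyM => ?_⟩
  have hnn : (n₁ : ℝ) ≤ n := by exact_mod_cast hn
  have hN1 : (1 : ℝ) ≤ n := ((le_max_left _ _).trans ((le_max_left _ _).trans hn₁)).trans hnn
  have hN2 : (4 * K / t) ^ 2 ≤ (n : ℝ) := ((le_max_right _ _).trans ((le_max_left _ _).trans hn₁)).trans hnn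
  have hN3 : 1 / e ≤ (n : ℝ) := ((le_max_left _ _).trans ((le_max_right _ _).trans hn₁)).trans hnn
  have hN4 : 6 * C₃ / ((c * e) ^ 3 * (t / 2)) ≤ (n : ℝ) :=
    ((le_max_right _ _).trans ((le_max_right _ _).trans hn₁)).trans hnn
  have hn0 : (0 : ℝ) < n := by linarith
  have hs0 : 0 < Real.sqrt n := Real.sqrt_pos.2 hn0
  have hen : 1 ≤ e * n := by
    rw [div_le_iff₀ he0] at hN3
    linarith
  obtain ⟨r, hr⟩ : ∃ r : ℕ, r = ⌊2 * e * n⌋₊ := ⟨_, rfl⟩
  have hr1 : (r : ℝ) ≤ 2 * e * n := by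
    rw [hr]
    exact Nat.floor_le (by positivity)
  have hr2 : e * n ≤ r := by
    have h1 : 2 * e * n < r + 1 := by
      rw [hr]
      exact Nat.lt_floor_add_one _
    linarith
  have hr3 : 1 ≤ r := by
    have h1 : (1 : ℝ) ≤ r := hen.trans hr2
    exact_mod_cast h1
  have hjr : j + r + r ≤ n := by
    have h1 : (j : ℝ) + r + r ≤ n := by
      rw [he] at hr1
      nlinarith
    exact_mod_cast h1
  have hjl : e * n ≤ j := by
    refine le_trans ?_ hj
    rw [he]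
    nlinarith
  have hj1 : 1 ≤ j := by
    have h1 : (1 : ℝ) ≤ j := hen.trans hjl
    exact_mod_cast h1
  refine (low_parts30 F hC₁ hC hq (fun n x y hn => (hup n x y hn).2) ho M hj1 hr3 hjr hx hxM hy hyM
    (b := t / (4 * K) * Real.sqrt n) (by positivity)).trans ?_
  rw [← ENNReal.ofReal_add (by positivity) (by positivity)]
  refine ENNReal.ofReal_le_ofReal ?_
  -- the first term
  have hA : C₁ * (1 + M) / Real.sqrt j * (C * (1 + t / (4 * K) * Real.sqrt n) * (1 + M) / (r * Real.sqrt r)) ≤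
      t / 2 / (n * Real.sqrt n) := by
    have h1 : Real.sqrt e * Real.sqrt n ≤ Real.sqrt j := by
      rw [← Real.sqrt_mul he0.le]
      exact Real.sqrt_le_sqrt hjl
    have h2 : Real.sqrt e * Real.sqrt n ≤ Real.sqrt r := by
      rw [← Real.sqrt_mul he0.le]
      exact Real.sqrt_le_sqrt hr2
    have h3 : C₁ * (1 + M) / Real.sqrt j * (C * (1 + t / (4 * K) * Real.sqrt n) * (1 + M) / (r * Real.sqrt r)) ≤
        C₁ * (1 + M) / (Real.sqrt e * Real.sqrt n) * (C * (1 + t / (4 * K) * Real.sqrt n) * (1 + M) /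
          (e * n * (Real.sqrt e * Real.sqrt n))) := by
      gcongr
    refine h3.trans ?_
    have h4 : C₁ * (1 + M) / (Real.sqrt e * Real.sqrt n) * (C * (1 + t / (4 * K) * Real.sqrt n) * (1 + M) /
          (e * n * (Real.sqrt e * Real.sqrt n))) =
        K * ((1 + t / (4 * K) * Real.sqrt n) / Real.sqrt n) / (n * Real.sqrt n) := by
      rw [hK]
      field_simp
    rw [h4]
    refine div_le_div_of_nonneg_right ?_ (by positivity)
    have h5 : (1 + t / (4 * K) * Real.sqrt n) / Real.sqrt n = 1 / Real.sqrt n + t / (4 * K) := by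
      field_simp
    rw [h5]
    have h6 : 4 * K / t ≤ Real.sqrt n := Real.le_sqrt_of_sq_le hN2
    have h7 : 1 / Real.sqrt n ≤ t / (4 * K) := by
      rw [div_le_div_iff₀ hs0 (by positivity)]
      rw [div_le_iff₀ ht] at h6
      linarith
    calc K * (1 / Real.sqrt n + t / (4 * K)) ≤ K * (t / (4 * K) + t / (4 * K)) := by gcongr
      _ = t / 2 := by
        field_simp
        norm_num
  have hB : C₃ * Real.exp (-c * r) ≤ t / 2 / (n * Real.sqrt n) := by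
    refine le_trans ?_ (exp_le30 hC₃ (mul_pos hc he0) hN1 (half_pos ht) hN4)
    refine mul_le_mul_of_nonneg_left (Real.exp_le_exp.2 ?_) hC₃.le
    have h1 := mul_le_mul_of_nonneg_left hr2 hc.le
    linarith
  calc _ ≤ t / 2 / (n * Real.sqrt n) + t / 2 / (n * Real.sqrt n) := add_le_add hA hB
    _ = t / (n * Real.sqrt n) := by
      field_simp
      norm_num

end Pool.Agent.Helper18.WK
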