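import Pool.Agent.Helper18.WK.Up
import Pool.Agent.Helper18.WK.LstC
import Pool.Agent.Helper18.WK.HorB

/-!
# Project WK, block WK-E4: oscillation in the bulk

`mid_osc`, see the header of `Ends.lean`.
-/

open scoped ENNReal Classical

namespace Pool.Agent.Helper18.WK

private theorem stp_end52 {S : ℕ → ℤ → Prop} {j : ℕ} {x : ℤ} {c : Ch} (h : Stp S j x c) :
    S (j + cl c) (ce x c) := by
  induction c generalizing j x with
  | nil => exact h
  | cons q c ih =>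
    have h1 := ih h.2
    rw [add_assoc] at h1
    exact h1

private theorem stp_exists52 {S : ℕ → ℤ → Prop} {j : ℕ} {x : ℤ} {c : Ch} (h : S (j + cl c) (ce x c)) :
    ∃ a b : Ch, c = a ++ b ∧ Stp S j x a := by
  induction c generalizing j x with
  | nil => exact ⟨[], [], rfl, h⟩
  | cons q c ih =>
    by_cases hs : S j x
    · exact ⟨[], q :: c, rfl, hs⟩
    · have h1 : S (j + q.1 + cl c) (ce q.2 c) := by
        rw [add_assoc]
        exact h
      obtain ⟨a, b, hab, ha⟩ := ih h1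
      exact ⟨q :: a, b, by rw [hab]; rfl, hs, ha⟩

private theorem sc_sum52 (K : Ker) (n : ℕ) (x y : ℤ) (s : Finset ℕ) (Φ : ℕ → Ch → ℝ≥0∞) :
    Sc K n x y (fun c => ∑ k ∈ s, Φ k c) = ∑ k ∈ s, Sc K n x y (Φ k) := by
  unfold Sc
  rw [← Summable.tsum_finsetSum (fun _ _ => ENNReal.summable)]
  refine tsum_congr fun c => ?_
  by_cases h : cl c = n ∧ ce x c = y
  · simp only [if_pos h]
    rw [Finset.mul_sum]
  · simp only [if_neg h]
    rw [Finset.sum_const_zero]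

/-- one stopped prefix -/
private theorem sc_two52 (K : Ker) (S : ℕ → ℤ → Prop) (n : ℕ) (x y : ℤ) (E : Ch → Prop)
    (Ψ : Ch → Ch → Prop) (B : ℝ≥0∞)
    (hE : ∀ c, cl c = n → E c → ∃ c₁ c₂ : Ch, c = c₁ ++ c₂ ∧ Stp S 0 x c₁ ∧ Ψ c₁ c₂)
    (hB : ∀ c₁, Stp S 0 x c₁ → cl c₁ ≤ n →
      Sc K (n - cl c₁) (ce x c₁) y (fun c₂ => if Ψ c₁ c₂ then 1 else 0) ≤ B) :
    Sc K n x y (fun c => if E c then 1 else 0) ≤
      (∑' c₁ : Ch, (if Stp S 0 x c₁ then cw K x c₁ else 0)) * B := by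
  obtain ⟨Φ, hΦ⟩ : ∃ Φ : Ch → ℝ≥0∞, Φ = fun c =>
    if ∃ c₁ c₂ : Ch, c = c₁ ++ c₂ ∧ Stp S 0 x c₁ ∧ Ψ c₁ c₂ then 1 else 0 := ⟨_, rfl⟩
  have h1 : Sc K n x y (fun c => if E c then 1 else 0) ≤
      Sc K n x y (fun c => if ∃ c₁ c₂ : Ch, c = c₁ ++ c₂ ∧ Stp S 0 x c₁ then Φ c else 0) := by
    unfold Sc
    refine ENNReal.tsum_le_tsum fun c => ?_
    by_cases h : cl c = n ∧ ce x c = y
    · rw [if_pos h, if_pos h]
      beta_reduce
      refine mul_le_mul_right ?_ _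
      by_cases h2 : E c
      · obtain ⟨c₁, c₂, h3, h4, h5⟩ := hE c h.1 h2
        rw [if_pos h2, if_pos ⟨c₁, c₂, h3, h4⟩, hΦ]
        beta_reduce
        rw [if_pos ⟨c₁, c₂, h3, h4, h5⟩]
      · rw [if_neg h2]
        exact zero_le
    · rw [if_neg h, if_neg h]
  refine h1.trans ?_
  rw [sc_stp, ← ENNReal.tsum_mul_right]
  refine ENNReal.tsum_le_tsum fun c₁ => ?_
  by_cases h : Stp S 0 x c₁ ∧ cl c₁ ≤ n
  · rw [if_pos h, if_pos h.1]
    refine mul_le_mul_right (le_trans (sc_mono (fun _ _ _ => le_rfl) (fun c₂ => ?_) _ _ _)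
      (hB c₁ h.1 h.2)) _
    rw [hΦ]
    beta_reduce
    by_cases h2 : ∃ d₁ d₂ : Ch, c₁ ++ c₂ = d₁ ++ d₂ ∧ Stp S 0 x d₁ ∧ Ψ d₁ d₂
    · rw [if_pos h2]
      obtain ⟨d₁, d₂, h3, h4, h5⟩ := h2
      have h6 := stp_unique h3 h.1 h4
      subst h6
      have h7 := List.append_cancel_left h3
      subst h7
      rw [if_pos h5]
    · rw [if_neg h2]
      exact zero_le
  · rw [if_neg h]
    exact zero_le

private theorem far_stp52 (K : Ker) (hK : ∀ x z, K x 0 z = 0) (x₀ : ℤ) (r N : ℕ) (x : ℤ) :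
    ∑' c : Ch, (if Stp (fun j z => j ≤ N ∧ (r : ℤ) ≤ |z - x₀|) 0 x c then cw K x c else 0) ≤
      Far K x₀ r N x := by
  set S : ℕ → ℤ → Prop := fun j z => j ≤ N ∧ (r : ℤ) ≤ |z - x₀| with hS
  obtain ⟨u, hu⟩ : ∃ u : ℕ → ℤ → ℝ≥0∞, u = fun j z => if j ≤ N then Far K x₀ r (N - j) z else 0 :=
    ⟨_, rfl⟩
  have hsup : ∀ j x, ¬ S j x → ∑' q : ℕ × ℤ, K x q.1 q.2 * u (j + q.1) q.2 ≤ u j x := by
    intro j x hjx
    rw [tsum_piece99 (fun q : ℕ × ℤ => K x q.1 q.2 * u (j + q.1) q.2)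
      (fun z => by rw [hK, zero_mul])]
    rw [hu]
    beta_reduce
    by_cases hj : j ≤ N
    · have hx : ¬ (r : ℤ) ≤ |x - x₀| := fun h => hjx ⟨hj, h⟩
      rw [if_pos hj]
      obtain ⟨m, hm⟩ : ∃ m, N - j = m := ⟨_, rfl⟩
      rw [hm]
      cases m with
      | zero =>
        rw [Far, if_neg hx]
        refine le_of_eq (ENNReal.tsum_eq_zero.2 fun l => ENNReal.tsum_eq_zero.2 fun z => ?_)
        rw [if_neg (by omega), mul_zero]
      | succ m =>
        rw [Far, if_neg hx, tsum_eq_sum (s := Finset.range (m + 1))]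
        · refine Finset.sum_le_sum fun l hl => ?_
          have hl' := Finset.mem_range.1 hl
          refine ENNReal.tsum_le_tsum fun z => ?_
          rw [if_pos (by omega), show N - (j + (l + 1)) = m - l by omega]
        · intro l hl
          have hl' : ¬ l < m + 1 := fun h => hl (Finset.mem_range.2 h)
          refine ENNReal.tsum_eq_zero.2 fun z => ?_
          rw [if_neg (by omega), mul_zero]
    · rw [if_neg hj]
      refine le_of_eq (ENNReal.tsum_eq_zero.2 fun l => ENNReal.tsum_eq_zero.2 fun z => ?_)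
      rw [if_neg (by omega), mul_zero]
  have h1 := super_stp K S u hsup 0 x
  have h2 : u 0 x = Far K x₀ r N x := by
    rw [hu]
    beta_reduce
    rw [if_pos (Nat.zero_le _), Nat.sub_zero]
  rw [h2] at h1
  refine le_trans (ENNReal.tsum_le_tsum fun c => ?_) h1
  by_cases h : Stp S 0 x c
  · rw [if_pos h, if_pos h]
    obtain ⟨h3, h4⟩ := stp_end52 h
    have h5 : u (0 + cl c) (ce x c) = 1 := by
      rw [hu]
      beta_reduce
      rw [if_pos h3]
      obtain ⟨m, hm⟩ : ∃ m, N - (0 + cl c) = m := ⟨_, rfl⟩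
      rw [hm]
      cases m <;> rw [Far, if_pos h4]
    rw [h5, mul_one]
  · rw [if_neg h, if_neg h]

private theorem kp_zero52 (F : Law) (x z : ℤ) : Kp F x 0 z = 0 := by
  rw [Kp]
  split_ifs
  · rw [F.f_zero, ENNReal.ofReal_zero]
  · rfl

private theorem k0_zero52 (F : Law) (x z : ℤ) : K0 F x 0 z = 0 := by
  rw [K0, F.f_zero, ENNReal.ofReal_zero]

/-- the chains which go far from `H` early, and then have a long rest -/
private theorem inner52 (F : Law) {C₁ : ℝ} (hC₁ : 0 < C₁)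
    (hup : ∀ (n : ℕ) (x y : ℤ), 1 ≤ n → G (Kp F) n x y ≤ ENNReal.ofReal (C₁ * (1 + |(x : ℝ)|) / n))
    (m : ℕ) (H y : ℤ) (r N : ℕ) {D : ℝ} (hD : 0 < D) :
    Sc (Kp F) m H y (fun c => if ∃ p₂ p₃ : Ch, c = p₂ ++ p₃ ∧
      Stp (fun j z => j ≤ N ∧ (r : ℤ) ≤ |z - H|) 0 H p₂ ∧ D ≤ cl p₃ then 1 else 0) ≤
      Far (K0 F) H r N H * ENNReal.ofReal (C₁ * (1 + |(y : ℝ)|) / D) := by
  refine (sc_two52 (Kp F) (fun j z => j ≤ N ∧ (r : ℤ) ≤ |z - H|) m H y _
    (fun _ p₃ => D ≤ cl p₃) (ENNReal.ofReal (C₁ * (1 + |(y : ℝ)|) / D)) (fun c _ h => h) ?_).trans ?_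
  · intro p₂ _ _
    by_cases hm : D ≤ ((m - cl p₂ : ℕ) : ℝ)
    · have h1 : Sc (Kp F) (m - cl p₂) (ce H p₂) y (fun p₃ => if D ≤ cl p₃ then 1 else 0) ≤
          G (Kp F) (m - cl p₂) (ce H p₂) y := by
        rw [← sc_one (Kp F) (kp_zero52 F)]
        refine sc_mono (fun _ _ _ => le_rfl) (fun c => ?_) _ _ _
        split_ifs
        · exact le_rfl
        · exact zero_le
      refine h1.trans ?_
      rw [g_symm (Kp F) (kp_symm F)]
      have h2 : 1 ≤ m - cl p₂ := by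
        by_contra h3
        have h4 : m - cl p₂ = 0 := by omega
        rw [h4, Nat.cast_zero] at hm
        linarith
      refine (hup (m - cl p₂) y (ce H p₂) h2).trans (ENNReal.ofReal_le_ofReal ?_)
      exact div_le_div_of_nonneg_left (by positivity) hD hm
    · have h1 : Sc (Kp F) (m - cl p₂) (ce H p₂) y (fun p₃ => if D ≤ cl p₃ then 1 else 0) = 0 := by
        unfold Sc
        rw [ENNReal.tsum_eq_zero]
        intro p₃
        by_cases h : cl p₃ = m - cl p₂ ∧ ce (ce H p₂) p₃ = y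
        · rw [if_pos h]
          beta_reduce
          rw [h.1, if_neg hm, mul_zero]
        · rw [if_neg h]
      rw [h1]
      exact zero_le
  · refine mul_le_mul_left ?_ _
    refine le_trans (ENNReal.tsum_le_tsum fun c => ?_) (far_stp52 (K0 F) (k0_zero52 F) H r N H)
    split_ifs
    · exact cw_mono (kp_le F) H c
    · exact le_rfl

/-- two stopped prefixes -/
private theorem outer52 (F : Law) {C₁ c : ℝ} (hC₁ : 0 < C₁)
    (hup : ∀ (n : ℕ) (x y : ℤ), 1 ≤ n → G (Kp F) n x y ≤ ENNReal.ofReal (C₁ * (1 + |(x : ℝ)|) / n))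
    (hfar : ∀ (n r : ℕ) (x : ℤ), Far (K0 F) x r n x ≤
      ENNReal.ofReal (2 * Real.exp (-c * (r : ℝ) ^ 2 / (n + r))))
    (m₀ n : ℕ) (x y : ℤ) (r N : ℕ) {D : ℝ} (hD : 0 < D) :
    Sc (Kp F) n x y (fun c => if ∃ p c' : Ch, c = p ++ c' ∧ Stp (fun j _ => m₀ ≤ j) 0 x p ∧
      ∃ p₂ p₃ : Ch, c' = p₂ ++ p₃ ∧
        Stp (fun j z => j ≤ N ∧ (r : ℤ) ≤ |z - ce x p|) 0 (ce x p) p₂ ∧ D ≤ cl p₃ then 1 else 0) ≤
      Q (Kp F) m₀ x * (ENNReal.ofReal (2 * Real.exp (-c * (r : ℝ) ^ 2 / (N + r))) *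
        ENNReal.ofReal (C₁ * (1 + |(y : ℝ)|) / D)) := by
  rw [q_stp (Kp F) (kp_zero52 F)]
  refine sc_two52 (Kp F) (fun j _ => m₀ ≤ j) n x y _
    (fun p c' => ∃ p₂ p₃ : Ch, c' = p₂ ++ p₃ ∧
        Stp (fun j z => j ≤ N ∧ (r : ℤ) ≤ |z - ce x p|) 0 (ce x p) p₂ ∧ D ≤ cl p₃) _
    (fun c _ h => h) ?_
  intro p _ _
  refine (inner52 F hC₁ hup (n - cl p) (ce x p) y r N hD).trans ?_
  exact mul_le_mul_left (hfar N r (ce x p)) _

/-- the decomposition of a chain with a large oscillation -/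
private theorem split52 {n w r : ℕ} {x : ℤ} {D R : ℝ} (hw : 1 ≤ w) (hR : 2 * (r : ℝ) ≤ R) {c₁ c₂ c₃ : Ch}
    (h1 : D ≤ cl c₁) (h2 : cl c₂ ≤ w) (h3 : D ≤ cl c₃)
    (h4 : R ≤ |((ce (ce x c₁) c₂ : ℤ) : ℝ) - ce x c₁|) (hn : cl (c₁ ++ (c₂ ++ c₃)) = n) :
    ∃ k ∈ Finset.range (n / w + 1), D - w ≤ ((k * w : ℕ) : ℝ) ∧
      ∃ p c' : Ch, c₁ ++ (c₂ ++ c₃) = p ++ c' ∧ Stp (fun j _ => k * w ≤ j) 0 x p ∧
        ∃ p₂ p₃ : Ch, c' = p₂ ++ p₃ ∧
          Stp (fun j z => j ≤ 2 * w ∧ (r : ℤ) ≤ |z - ce x p|) 0 (ce x p) p₂ ∧ D ≤ cl p₃ := by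
  rw [cl_append, cl_append] at hn
  have hk1 : cl c₁ / w * w ≤ cl c₁ := Nat.div_mul_le_self _ _
  have hk2 : cl c₁ < cl c₁ / w * w + w := Nat.lt_div_mul_add hw
  refine ⟨cl c₁ / w, Finset.mem_range.2 ?_, ?_, ?_⟩
  · have := Nat.div_le_div_right (c := w) (show cl c₁ ≤ n by omega)
    omega
  · have h5 : ((cl c₁ : ℕ) : ℝ) ≤ ((cl c₁ / w * w : ℕ) : ℝ) + w := by exact_mod_cast hk2.le
    linarith
  · obtain ⟨p, c₁', hc, hp⟩ := stp_exists (m := cl c₁ / w * w) (x := x) hk1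
    have hcl := stp_cl31 p 0 x hp
    have hlen : cl c₁ = cl p + cl c₁' := by
      conv_lhs => rw [hc]
      rw [cl_append]
    have he : ce x c₁ = ce (ce x p) c₁' := by
      conv_lhs => rw [hc]
      rw [ce_append]
    refine ⟨p, c₁' ++ (c₂ ++ c₃), ?_, hp, ?_⟩
    · conv_lhs => rw [hc]
      rw [List.append_assoc]
    set H := ce x p with hH
    rw [he] at h4
    have hor : (r : ℤ) ≤ |ce H c₁' - H| ∨ (r : ℤ) ≤ |ce H (c₁' ++ c₂) - H| := by
      by_contra hcon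
      push Not at hcon
      obtain ⟨g1, g2⟩ := hcon
      rw [ce_append] at g2
      have g1' : |((ce H c₁' : ℤ) : ℝ) - H| < r := by exact_mod_cast g1
      have g2' : |((ce (ce H c₁') c₂ : ℤ) : ℝ) - H| < r := by exact_mod_cast g2
      have g3 : ((ce (ce H c₁') c₂ : ℤ) : ℝ) - ce H c₁' =
          (((ce (ce H c₁') c₂ : ℤ) : ℝ) - H) - (((ce H c₁' : ℤ) : ℝ) - H) := by ring
      rw [g3] at h4
      have g4 := abs_sub (((ce (ce H c₁') c₂ : ℤ) : ℝ) - H) (((ce H c₁' : ℤ) : ℝ) - H)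
      linarith
    rcases hor with hr | hr
    · obtain ⟨a, b, hab, ha⟩ := stp_exists52 (S := fun j z => j ≤ 2 * w ∧ (r : ℤ) ≤ |z - H|) (j := 0)
        (x := H) (c := c₁') ⟨by omega, hr⟩
      refine ⟨a, b ++ (c₂ ++ c₃), ?_, ha, ?_⟩
      · rw [hab, List.append_assoc]
      · rw [cl_append, cl_append]
        push_cast
        have := Nat.cast_nonneg (α := ℝ) (cl b)
        have := Nat.cast_nonneg (α := ℝ) (cl c₂)
        linarith
    · obtain ⟨a, b, hab, ha⟩ := stp_exists52 (S := fun j z => j ≤ 2 * w ∧ (r : ℤ) ≤ |z - H|) (j := 0)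
        (x := H) (c := c₁' ++ c₂) ⟨by rw [cl_append]; omega, hr⟩
      refine ⟨a, b ++ c₃, ?_, ha, ?_⟩
      · rw [← List.append_assoc c₁' c₂ c₃, hab, List.append_assoc]
      · rw [cl_append]
        push_cast
        have := Nat.cast_nonneg (α := ℝ) (cl b)
        linarith

private theorem exp52 {A κ t η : ℝ} (hA : 0 < A) (hκ : 0 < κ) (hη : 0 < η)
    (h : η ≤ t * κ ^ 2 / (2 * A)) : A / η * Real.exp (-κ / η) ≤ t := by
  have h1 := Real.quadratic_le_exp_of_nonneg (x := κ / η) (by positivity)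
  have h2 : (κ / η) ^ 2 / 2 ≤ Real.exp (κ / η) := by
    have : 0 < κ / η := by positivity
    linarith
  have h3 : Real.exp (-κ / η) ≤ 1 / ((κ / η) ^ 2 / 2) := by
    rw [neg_div, Real.exp_neg, ← one_div]
    exact one_div_le_one_div_of_le (by positivity) h2
  rw [le_div_iff₀ (by positivity)] at h
  calc A / η * Real.exp (-κ / η) ≤ A / η * (1 / ((κ / η) ^ 2 / 2)) :=
        mul_le_mul_of_nonneg_left h3 (by positivity)
    _ = η * (2 * A) / κ ^ 2 := by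
        field_simp
    _ ≤ t := by
        rw [div_le_iff₀ (by positivity)]
        exact h

/-- the real inequality at the end -/
private theorem real52 {C₁ C₂ c M d ε t η : ℝ} (hC₁ : 0 < C₁) (hC₂ : 0 < C₂) (hc : 0 < c)
    (hM : 0 ≤ M) (hd : 0 < d) (hε : 0 < ε) (hη : 0 < η) (hη1 : η ≤ 1)
    (hη2 : η ≤ t * (c * ε ^ 2 / 48) ^ 2 / (2 * (6 * C₁ * C₂ * (1 + M) ^ 2 / (d * Real.sqrt (d / 2)))))
    {n w r : ℝ} (hn : 1 ≤ n) (hw1 : η * n / 2 ≤ w) (hw2 : w ≤ η * n) (hr1 : ε * Real.sqrt n / 4 ≤ r)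
    (hr2 : r ≤ η * n) :
    (n / w + 1) * (C₂ * (1 + M) / Real.sqrt (d * n / 2) *
      (2 * Real.exp (-c * r ^ 2 / (2 * w + r)) * (C₁ * (1 + M) / (d * n)))) ≤
      t / (n * Real.sqrt n) := by
  have hn0 : 0 < n := by linarith
  have hsn : 0 < Real.sqrt n := Real.sqrt_pos.2 hn0
  have hsd : 0 < Real.sqrt (d / 2) := Real.sqrt_pos.2 (by positivity)
  have hw0 : 0 < w := lt_of_lt_of_le (by positivity) hw1
  have hr0 : 0 < r := lt_of_lt_of_le (by positivity) hr1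
  have e1 : n / w + 1 ≤ 3 / η := by
    have h1 : n / w ≤ 2 / η := by
      rw [div_le_div_iff₀ hw0 hη]
      linarith
    have h2 : 1 ≤ 1 / η := by
      rw [le_div_iff₀ hη]
      linarith
    calc n / w + 1 ≤ 2 / η + 1 / η := add_le_add h1 h2
      _ = 3 / η := by ring
  have e2 : Real.exp (-c * r ^ 2 / (2 * w + r)) ≤ Real.exp (-(c * ε ^ 2 / 48) / η) := by
    rw [Real.exp_le_exp, neg_mul, neg_div, neg_div, neg_le_neg_iff, div_div,
      div_le_div_iff₀ (by positivity) (by positivity)]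
    have h1 : ε ^ 2 * n ≤ 16 * r ^ 2 := by
      have h2 : ε * Real.sqrt n ≤ 4 * r := by linarith
      have h3 := mul_self_le_mul_self (by positivity) h2
      have h4 : Real.sqrt n * Real.sqrt n = n := Real.mul_self_sqrt hn0.le
      have h5 : ε * Real.sqrt n * (ε * Real.sqrt n) = ε ^ 2 * n := by
        rw [mul_mul_mul_comm, h4]
        ring
      rw [h5] at h3
      linarith
    have h2 : 2 * w + r ≤ 3 * (η * n) := by linarith
    calc c * ε ^ 2 * (2 * w + r) ≤ c * ε ^ 2 * (3 * (η * n)) :=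
          mul_le_mul_of_nonneg_left h2 (by positivity)
      _ = 3 * (c * η) * (ε ^ 2 * n) := by ring
      _ ≤ 3 * (c * η) * (16 * r ^ 2) := mul_le_mul_of_nonneg_left h1 (by positivity)
      _ = c * r ^ 2 * (48 * η) := by ring
  have e3 : Real.sqrt (d * n / 2) = Real.sqrt (d / 2) * Real.sqrt n := by
    rw [← Real.sqrt_mul (by positivity)]
    congr 1
    ring
  have e4 := exp52 (A := 6 * C₁ * C₂ * (1 + M) ^ 2 / (d * Real.sqrt (d / 2))) (κ := c * ε ^ 2 / 48)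
    (t := t) (η := η) (by positivity) (by positivity) hη hη2
  rw [e3]
  calc (n / w + 1) * (C₂ * (1 + M) / (Real.sqrt (d / 2) * Real.sqrt n) *
      (2 * Real.exp (-c * r ^ 2 / (2 * w + r)) * (C₁ * (1 + M) / (d * n))))
      ≤ 3 / η * (C₂ * (1 + M) / (Real.sqrt (d / 2) * Real.sqrt n) *
      (2 * Real.exp (-(c * ε ^ 2 / 48) / η) * (C₁ * (1 + M) / (d * n)))) := by
        refine mul_le_mul e1 ?_ (by positivity) (by positivity)
        refine mul_le_mul_of_nonneg_left ?_ (by positivity)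
        refine mul_le_mul_of_nonneg_right ?_ (by positivity)
        exact mul_le_mul_of_nonneg_left e2 (by norm_num)
    _ = (6 * C₁ * C₂ * (1 + M) ^ 2 / (d * Real.sqrt (d / 2)) / η *
        Real.exp (-(c * ε ^ 2 / 48) / η)) / (n * Real.sqrt n) := by
        field_simp
        ring
    _ ≤ t / (n * Real.sqrt n) := div_le_div_of_nonneg_right e4 (by positivity)

theorem mid_osc (F : Law) (M : ℕ) {d ε t : ℝ} (hd : 0 < d) (hε : 0 < ε) (ht : 0 < t) : ∃ (η : ℝ) (n₀ : ℕ), 0 < η ∧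
    ∀ n ≥ n₀, ∀ x y : ℤ, 1 ≤ x → x ≤ M → 1 ≤ y → y ≤ M →
      Sc (Kp F) n x y (fun c => if ∃ c₁ c₂ c₃ : Ch, c = c₁ ++ (c₂ ++ c₃) ∧ d * n ≤ cl c₁ ∧ d * n ≤ cl c₃ ∧
        (cl c₂ : ℝ) ≤ η * n ∧ ε * Real.sqrt n ≤ |((ce (ce x c₁) c₂ : ℤ) : ℝ) - ce x c₁| then 1 else 0) ≤
          ENNReal.ofReal (t / (n * Real.sqrt n)) := by
  obtain ⟨C₁, hC₁, hup'⟩ := kp_up F
  obtain ⟨C₂, hC₂, hq⟩ := q_plus F
  obtain ⟨c, hc, hfar⟩ := far_gauss F
  have hup : ∀ (n : ℕ) (x y : ℤ), 1 ≤ n →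
      G (Kp F) n x y ≤ ENNReal.ofReal (C₁ * (1 + |(x : ℝ)|) / n) := fun n x y hn => (hup' n x y hn).1
  have hM : (0 : ℝ) ≤ M := Nat.cast_nonneg M
  have hsd : 0 < Real.sqrt (d / 2) := Real.sqrt_pos.2 (by positivity)
  set T : ℝ := t * (c * ε ^ 2 / 48) ^ 2 / (2 * (6 * C₁ * C₂ * (1 + M) ^ 2 / (d * Real.sqrt (d / 2))))
    with hT
  have hT0 : 0 < T := by positivity
  set η : ℝ := min 1 (min (d / 2) T) with hη
  have hη0 : 0 < η := lt_min one_pos (lt_min (by positivity) hT0)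
  have hη1 : η ≤ 1 := min_le_left _ _
  have hη2 : η ≤ d / 2 := (min_le_right _ _).trans (min_le_left _ _)
  have hη3 : η ≤ T := (min_le_right _ _).trans (min_le_right _ _)
  obtain ⟨N, hN⟩ := exists_nat_ge (max (max 1 (2 / η)) (max ((4 / ε) ^ 2) ((ε / (2 * η)) ^ 2)))
  refine ⟨η, N, hη0, ?_⟩
  intro n hn x y hx1 hxM hy1 hyM
  have hnN : (N : ℝ) ≤ n := by exact_mod_cast hn
  have a1 : (1 : ℝ) ≤ n := ((le_max_left _ _).trans ((le_max_left _ _).trans hN)).trans hnN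
  have a2 : 2 / η ≤ n := ((le_max_right _ _).trans ((le_max_left _ _).trans hN)).trans hnN
  have a3 : (4 / ε) ^ 2 ≤ (n : ℝ) := ((le_max_left _ _).trans ((le_max_right _ _).trans hN)).trans hnN
  have a4 : (ε / (2 * η)) ^ 2 ≤ (n : ℝ) :=
    ((le_max_right _ _).trans ((le_max_right _ _).trans hN)).trans hnN
  have hn0 : (0 : ℝ) < n := by linarith
  have hsn : 0 < Real.sqrt n := Real.sqrt_pos.2 hn0
  have b2 : 2 ≤ η * n := by
    rw [div_le_iff₀ hη0] at a2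
    linarith
  have b3 : 4 ≤ ε * Real.sqrt n := by
    have h1 : 4 / ε ≤ Real.sqrt n := Real.le_sqrt_of_sq_le a3
    rw [div_le_iff₀ hε] at h1
    linarith
  have b4 : ε * Real.sqrt n / 2 ≤ η * n := by
    have h1 : ε / (2 * η) ≤ Real.sqrt n := Real.le_sqrt_of_sq_le a4
    rw [div_le_iff₀ (by positivity)] at h1
    have h2 := mul_le_mul_of_nonneg_right h1 hsn.le
    have h3 : Real.sqrt n * (2 * η) * Real.sqrt n = 2 * (η * n) := by
      rw [mul_right_comm, Real.mul_self_sqrt hn0.le]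
      ring
    linarith
  -- the window
  obtain ⟨w, hw⟩ : ∃ w : ℕ, w = ⌊η * n⌋₊ := ⟨_, rfl⟩
  have hw2 : (w : ℝ) ≤ η * n := by
    rw [hw]
    exact Nat.floor_le (by positivity)
  have hw1 : η * n / 2 ≤ w := by
    have h1 := Nat.lt_floor_add_one (η * n)
    rw [← hw] at h1
    linarith
  have hw0 : 1 ≤ w := by
    have h1 : (0 : ℝ) < w := by linarith
    exact_mod_cast h1
  have hwr : (0 : ℝ) < w := by linarith
  obtain ⟨r, hr⟩ : ∃ r : ℕ, r = ⌊ε * Real.sqrt n / 2⌋₊ := ⟨_, rfl⟩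
  have hr2 : (r : ℝ) ≤ ε * Real.sqrt n / 2 := by
    rw [hr]
    exact Nat.floor_le (by positivity)
  have hr1 : ε * Real.sqrt n / 4 ≤ r := by
    have h1 := Nat.lt_floor_add_one (ε * Real.sqrt n / 2)
    rw [← hr] at h1
    linarith
  have hx : |(x : ℝ)| ≤ M := by
    have h1 : (1 : ℝ) ≤ x := by exact_mod_cast hx1
    rw [abs_of_nonneg (by linarith)]
    exact_mod_cast hxM
  have hy : |(y : ℝ)| ≤ M := by
    have h1 : (1 : ℝ) ≤ y := by exact_mod_cast hy1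
    rw [abs_of_nonneg (by linarith)]
    exact_mod_cast hyM
  -- union bound
  set E : ℕ → Ch → Prop := fun k c => d * n - w ≤ ((k * w : ℕ) : ℝ) ∧
    ∃ p c' : Ch, c = p ++ c' ∧ Stp (fun j _ => k * w ≤ j) 0 x p ∧
      ∃ p₂ p₃ : Ch, c' = p₂ ++ p₃ ∧
        Stp (fun j z => j ≤ 2 * w ∧ (r : ℤ) ≤ |z - ce x p|) 0 (ce x p) p₂ ∧ d * n ≤ cl p₃ with hE
  have hstep1 : Sc (Kp F) n x y (fun c => if ∃ c₁ c₂ c₃ : Ch, c = c₁ ++ (c₂ ++ c₃) ∧ d * n ≤ cl c₁ ∧
      d * n ≤ cl c₃ ∧ (cl c₂ : ℝ) ≤ η * n ∧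
      ε * Real.sqrt n ≤ |((ce (ce x c₁) c₂ : ℤ) : ℝ) - ce x c₁| then 1 else 0) ≤
      Sc (Kp F) n x y (fun c => ∑ k ∈ Finset.range (n / w + 1), if E k c then 1 else 0) := by
    unfold Sc
    refine ENNReal.tsum_le_tsum fun c => ?_
    by_cases h : cl c = n ∧ ce x c = y
    · rw [if_pos h, if_pos h]
      beta_reduce
      refine mul_le_mul_right ?_ _
      by_cases h2 : ∃ c₁ c₂ c₃ : Ch, c = c₁ ++ (c₂ ++ c₃) ∧ d * n ≤ cl c₁ ∧
        d * n ≤ cl c₃ ∧ (cl c₂ : ℝ) ≤ η * n ∧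
        ε * Real.sqrt n ≤ |((ce (ce x c₁) c₂ : ℤ) : ℝ) - ce x c₁|
      · rw [if_pos h2]
        obtain ⟨c₁, c₂, c₃, g1, g2, g3, g4, g5⟩ := h2
        have g4' : cl c₂ ≤ w := by
          rw [hw]
          exact Nat.le_floor g4
        obtain ⟨k, hk, hk2⟩ := split52 (n := n) (w := w) (r := r) (x := x) (D := d * n)
          (R := ε * Real.sqrt n) hw0 (by linarith) g2 g4' g3 g5 (by rw [← g1]; exact h.1)
        rw [← g1] at hk2
        refine le_trans ?_ (Finset.single_le_sum (f := fun k => if E k c then (1 : ℝ≥0∞) else 0)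
          (fun _ _ => zero_le) hk)
        rw [if_pos (show E k c from hk2)]
      · rw [if_neg h2]
        exact zero_le
    · rw [if_neg h, if_neg h]
  refine hstep1.trans ?_
  rw [sc_sum52 (Kp F) n x y _ (fun k c => if E k c then 1 else 0)]
  -- each term
  set B : ℝ := C₂ * (1 + M) / Real.sqrt (d * n / 2) *
      (2 * Real.exp (-c * (r : ℝ) ^ 2 / (2 * w + r)) * (C₁ * (1 + M) / (d * n))) with hB
  have hB0 : 0 ≤ B := by positivity
  have hterm : ∀ k ∈ Finset.range (n / w + 1),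
      Sc (Kp F) n x y (fun c => if E k c then 1 else 0) ≤ ENNReal.ofReal B := by
    intro k _
    by_cases hk : d * n - w ≤ ((k * w : ℕ) : ℝ)
    · have hk1 : d * n / 2 ≤ ((k * w : ℕ) : ℝ) := by
        have h1 : η * n ≤ d / 2 * n := mul_le_mul_of_nonneg_right hη2 hn0.le
        linarith
      have hk0 : 1 ≤ k * w := by
        have h1 : (0 : ℝ) < ((k * w : ℕ) : ℝ) := lt_of_lt_of_le (by positivity) hk1
        exact_mod_cast h1
      have h1 := outer52 F hC₁ hup hfar (k * w) n x y r (2 * w) (D := d * n) (by positivity)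
      have h2 : Sc (Kp F) n x y (fun c => if E k c then 1 else 0) ≤
          Sc (Kp F) n x y (fun c => if ∃ p c' : Ch, c = p ++ c' ∧ Stp (fun j _ => k * w ≤ j) 0 x p ∧
          ∃ p₂ p₃ : Ch, c' = p₂ ++ p₃ ∧ Stp (fun j z => j ≤ 2 * w ∧ (r : ℤ) ≤ |z - ce x p|) 0
            (ce x p) p₂ ∧ d * n ≤ cl p₃ then 1 else 0) := by
        refine sc_mono (fun _ _ _ => le_rfl) (fun c => ?_) _ _ _
        by_cases h3 : E k c
        · rw [if_pos h3, if_pos h3.2]
        · rw [if_neg h3]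
          exact zero_le
      refine h2.trans (h1.trans ?_)
      refine (mul_le_mul_left (hq (k * w) x hk0) _).trans ?_
      rw [← ENNReal.ofReal_mul (by positivity), ← ENNReal.ofReal_mul (by positivity)]
      refine ENNReal.ofReal_le_ofReal ?_
      rw [hB]
      have h4 : C₂ * (1 + |(x : ℝ)|) / Real.sqrt ((k * w : ℕ) : ℝ) ≤
          C₂ * (1 + M) / Real.sqrt (d * n / 2) := by
        refine div_le_div₀ (by positivity) ?_ (Real.sqrt_pos.2 (by positivity))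
          (Real.sqrt_le_sqrt hk1)
        exact mul_le_mul_of_nonneg_left (by linarith) hC₂.le
      have h5 : C₁ * (1 + |(y : ℝ)|) / (d * n) ≤ C₁ * (1 + M) / (d * n) := by
        refine div_le_div_of_nonneg_right ?_ (by positivity)
        exact mul_le_mul_of_nonneg_left (by linarith) hC₁.le
      have h6 : (((2 * w : ℕ) : ℝ) + r) = 2 * w + r := by push_cast; ring
      rw [h6]
      exact mul_le_mul h4 (mul_le_mul_of_nonneg_left h5 (by positivity)) (by positivity)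
        (by positivity)
    · have h1 : Sc (Kp F) n x y (fun c => if E k c then 1 else 0) = 0 := by
        unfold Sc
        rw [ENNReal.tsum_eq_zero]
        intro c
        beta_reduce
        rw [if_neg (fun h : E k c => hk h.1), mul_zero, ite_self]
      rw [h1]
      exact zero_le
  refine (Finset.sum_le_sum hterm).trans ?_
  rw [Finset.sum_const, Finset.card_range, nsmul_eq_mul, ← ENNReal.ofReal_natCast,
    ← ENNReal.ofReal_mul (Nat.cast_nonneg _)]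
  refine ENNReal.ofReal_le_ofReal ?_
  have h1 : (((n / w + 1 : ℕ)) : ℝ) ≤ n / w + 1 := by
    push_cast
    exact add_le_add Nat.cast_div_le le_rfl
  refine (mul_le_mul_of_nonneg_right h1 hB0).trans ?_
  exact real52 hC₁ hC₂ hc hM hd hε hη0 hη1 hη3 a1 hw1 hw2 hr1 (hr2.trans b4)

end Pool.Agent.Helper18.WK
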