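import Pool.Agent.Helper18.WK.SuperP

/-!
# Project WK, block WK-P1: the superharmonic function `Psi`

`Psi θ A b z = sinh (θ z) / θ + A - exp (-b z)`, `b = a / 4`, `θ ≤ b`. The lengths enter only through
`exp (-C θ² l) ≤ exp (-C θ²)`, `l ≥ 1`, where `C = D + 1`, `2 D = ∑ q h h² exp (b |h|)`, so that
`exp (-C θ²) ∑ q h cosh (θ h) ≤ 1`. The rest is as in `a4_real`.
-/

open scoped ENNReal Classical

namespace Pool.Agent.Helper18.WK

/-- The superharmonic function. -/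
noncomputable def Psi (θ A b z : ℝ) : ℝ := Real.sinh (θ * z) / θ + A - Real.exp (-b * z)

private theorem sinh_le86 {s : ℝ} (_hs : 0 ≤ s) : Real.sinh s ≤ s * Real.exp s := by
  rw [Real.sinh_eq]
  have h1 := Real.add_one_le_exp (-(2 * s))
  have h2 : Real.exp (-s) = Real.exp s * Real.exp (-(2 * s)) := by
    rw [← Real.exp_add]
    ring_nf
  have h3 := Real.exp_pos s
  rw [h2]
  nlinarith

private theorem cosh_le_exp86 (t : ℝ) : Real.cosh t ≤ Real.exp |t| := by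
  rw [Real.cosh_eq]
  have h1 : Real.exp t ≤ Real.exp |t| := Real.exp_le_exp.2 (le_abs_self t)
  have h2 : Real.exp (-t) ≤ Real.exp |t| := Real.exp_le_exp.2 (neg_le_abs t)
  linarith

private theorem abs_sinh_le86 (t : ℝ) : |Real.sinh t| ≤ Real.exp |t| := by
  refine le_trans ?_ (cosh_le_exp86 t)
  rw [Real.abs_sinh]
  have h1 := Real.sinh_lt_cosh |t|
  rw [Real.cosh_abs] at h1
  exact h1.le

private theorem cosh_le86 (t : ℝ) : Real.cosh t ≤ 1 + t ^ 2 * Real.exp |t| / 2 := by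
  have h1 : Real.cosh t = 1 + 2 * Real.sinh (|t| / 2) ^ 2 := by
    have h2 := Real.cosh_two_mul (|t| / 2)
    have h3 : 2 * (|t| / 2) = |t| := by ring
    rw [h3, Real.cosh_abs] at h2
    have h4 := Real.cosh_sq (|t| / 2)
    linarith
  have h5 : 0 ≤ |t| / 2 := by positivity
  have h6 := sinh_le86 h5
  have h7 : 0 ≤ Real.sinh (|t| / 2) := Real.sinh_nonneg_iff.2 h5
  have h8 : Real.sinh (|t| / 2) ^ 2 ≤ (|t| / 2 * Real.exp (|t| / 2)) ^ 2 :=
    pow_le_pow_left₀ h7 h6 2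
  have h9 : (|t| / 2 * Real.exp (|t| / 2)) ^ 2 = t ^ 2 * Real.exp |t| / 4 := by
    rw [mul_pow, div_pow, sq_abs, ← Real.exp_nat_mul]
    push_cast
    ring_nf
  rw [h1]
  linarith

private theorem exp_le86 {θ b : ℝ} (hθ : 0 < θ) (hθb : θ ≤ b) (t : ℝ) :
    Real.exp |θ * t| ≤ Real.exp (b * |t|) := by
  rw [Real.exp_le_exp, abs_mul, abs_of_pos hθ]
  exact mul_le_mul_of_nonneg_right hθb (abs_nonneg t)

private theorem cosh_sum86 (F : Law) {θ b : ℝ} (hθ : 0 < θ) (hθb : θ ≤ b) (hb : b < F.a) :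
    Summable fun h : ℤ => a4q F h * Real.cosh (θ * (h : ℝ)) :=
  a4_summable_w F (b := b) (c := 1) hb (fun h => Real.cosh (θ * (h : ℝ))) fun h => by
    rw [one_mul, abs_of_pos (Real.cosh_pos _)]
    exact (cosh_le_exp86 _).trans (exp_le86 hθ hθb _)

private theorem sinh_sum86 (F : Law) {θ b : ℝ} (hθ : 0 < θ) (hθb : θ ≤ b) (hb : b < F.a) :
    HasSum (fun h : ℤ => a4q F h * Real.sinh (θ * (h : ℝ))) 0 := by
  have h1 : Summable fun h : ℤ => a4q F h * Real.sinh (θ * (h : ℝ)) :=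
    a4_summable_w F (b := b) (c := 1) hb (fun h => Real.sinh (θ * (h : ℝ))) fun h => by
      rw [one_mul]
      exact (abs_sinh_le86 _).trans (exp_le86 hθ hθb _)
  have h2 : ∑' h : ℤ, a4q F h * Real.sinh (θ * (h : ℝ)) =
      -∑' h : ℤ, a4q F h * Real.sinh (θ * (h : ℝ)) := by
    conv_lhs => rw [← (Equiv.neg ℤ).tsum_eq fun h : ℤ => a4q F h * Real.sinh (θ * (h : ℝ))]
    rw [← tsum_neg]
    refine tsum_congr fun h => ?_
    rw [Equiv.neg_apply, a4q_neg, Int.cast_neg, mul_neg, Real.sinh_neg, mul_neg]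
  have h3 : ∑' h : ℤ, a4q F h * Real.sinh (θ * (h : ℝ)) = 0 := by linarith
  rw [← h3]
  exact h1.hasSum

/-- The choice of the constant `C`. -/
private theorem const86 (F : Law) {b : ℝ} (hb : 0 < b) (hb' : 3 * b < F.a) :
    ∃ C : ℝ, 0 < C ∧ ∀ θ : ℝ, 0 < θ → θ ≤ b →
      Real.exp (-C * θ ^ 2) * ∑' h : ℤ, a4q F h * Real.cosh (θ * (h : ℝ)) ≤ 1 := by
  have hs : Summable fun h : ℤ => a4q F h * ((h : ℝ) ^ 2 * Real.exp (b * |(h : ℝ)|)) := by
    refine a4_summable_w F (b := 3 * b) (c := (1 / b) ^ 2) hb'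
      (fun h => (h : ℝ) ^ 2 * Real.exp (b * |(h : ℝ)|)) fun h => ?_
    rw [abs_of_nonneg (by positivity)]
    have h1 := a4_abs_le_exp hb (h : ℝ)
    have h2 : (h : ℝ) ^ 2 ≤ ((1 / b) * Real.exp (b * |(h : ℝ)|)) ^ 2 := by
      rw [← sq_abs (h : ℝ)]
      exact pow_le_pow_left₀ (abs_nonneg _) h1 2
    calc (h : ℝ) ^ 2 * Real.exp (b * |(h : ℝ)|)
        ≤ ((1 / b) * Real.exp (b * |(h : ℝ)|)) ^ 2 * Real.exp (b * |(h : ℝ)|) :=
          mul_le_mul_of_nonneg_right h2 (Real.exp_pos _).le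
      _ = (1 / b) ^ 2 * Real.exp (3 * b * |(h : ℝ)|) := by
          rw [mul_pow, mul_assoc, ← Real.exp_nat_mul, ← Real.exp_add]
          congr 2
          push_cast
          ring
  obtain ⟨D, hD⟩ : ∃ D : ℝ, D = (∑' h : ℤ, a4q F h * ((h : ℝ) ^ 2 * Real.exp (b * |(h : ℝ)|))) / 2 :=
    ⟨_, rfl⟩
  have hD0 : 0 ≤ D := by
    rw [hD]
    refine div_nonneg (tsum_nonneg fun h => mul_nonneg (a4q_nonneg F h) (by positivity)) (by norm_num)
  refine ⟨D + 1, by linarith, fun θ hθ hθb => ?_⟩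
  have h1 : ∑' h : ℤ, a4q F h * Real.cosh (θ * (h : ℝ)) ≤ 1 + D * θ ^ 2 := by
    have h2 : HasSum (fun h : ℤ => a4q F h + (θ ^ 2 / 2) *
        (a4q F h * ((h : ℝ) ^ 2 * Real.exp (b * |(h : ℝ)|))))
        (1 + (θ ^ 2 / 2) * ∑' h : ℤ, a4q F h * ((h : ℝ) ^ 2 * Real.exp (b * |(h : ℝ)|))) :=
      (a4q_hasSum F).add (hs.hasSum.mul_left _)
    have h3 : ∑' h : ℤ, a4q F h * Real.cosh (θ * (h : ℝ)) ≤
        1 + (θ ^ 2 / 2) * ∑' h : ℤ, a4q F h * ((h : ℝ) ^ 2 * Real.exp (b * |(h : ℝ)|)) := by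
      rw [← h2.tsum_eq]
      refine (cosh_sum86 F hθ hθb (by linarith)).tsum_le_tsum (fun h => ?_) h2.summable
      have h4 := cosh_le86 (θ * (h : ℝ))
      have h5 := exp_le86 hθ hθb (h : ℝ)
      have h6 : Real.cosh (θ * (h : ℝ)) ≤
          1 + (θ ^ 2 / 2) * ((h : ℝ) ^ 2 * Real.exp (b * |(h : ℝ)|)) := by
        refine h4.trans ?_
        have h7 : (θ * (h : ℝ)) ^ 2 * Real.exp |θ * (h : ℝ)| ≤
            (θ * (h : ℝ)) ^ 2 * Real.exp (b * |(h : ℝ)|) :=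
          mul_le_mul_of_nonneg_left h5 (sq_nonneg _)
        have h8 : (θ * (h : ℝ)) ^ 2 * Real.exp (b * |(h : ℝ)|) =
            θ ^ 2 * ((h : ℝ) ^ 2 * Real.exp (b * |(h : ℝ)|)) := by ring
        linarith
      calc a4q F h * Real.cosh (θ * (h : ℝ))
          ≤ a4q F h * (1 + (θ ^ 2 / 2) * ((h : ℝ) ^ 2 * Real.exp (b * |(h : ℝ)|))) :=
            mul_le_mul_of_nonneg_left h6 (a4q_nonneg F h)
        _ = _ := by ring
    refine h3.trans (le_of_eq ?_)
    rw [hD]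
    ring
  have h2 : 1 + D * θ ^ 2 ≤ Real.exp (D * θ ^ 2) := by
    have := Real.add_one_le_exp (D * θ ^ 2)
    linarith
  calc Real.exp (-(D + 1) * θ ^ 2) * ∑' h : ℤ, a4q F h * Real.cosh (θ * (h : ℝ))
      ≤ Real.exp (-(D + 1) * θ ^ 2) * Real.exp (D * θ ^ 2) :=
        mul_le_mul_of_nonneg_left (h1.trans h2) (Real.exp_pos _).le
    _ = Real.exp (-θ ^ 2) := by
        rw [← Real.exp_add]
        ring_nf
    _ ≤ 1 := by
        rw [Real.exp_le_one_iff]
        have := sq_nonneg θ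
        linarith

/-- The superharmonic function in terms of real numbers. -/
private theorem real86 (F : Law) : ∃ C A : ℝ, 0 < C ∧ 1 ≤ A ∧ ∀ θ : ℝ, 0 < θ → θ ≤ F.a / 4 →
    ∀ x : ℤ, 1 ≤ x →
    (Summable fun z : ℤ => if 1 ≤ z then a4q F (z - x) *
      (Real.exp (-C * θ ^ 2) * (Real.sinh (θ * (z : ℝ)) / θ) + A -
        Real.exp (-(F.a / 4) * (z : ℝ))) else 0) ∧
    ∑' z : ℤ, (if 1 ≤ z then a4q F (z - x) *
      (Real.exp (-C * θ ^ 2) * (Real.sinh (θ * (z : ℝ)) / θ) + A -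
        Real.exp (-(F.a / 4) * (z : ℝ))) else 0) ≤ Psi θ A (F.a / 4) x := by
  have ha := F.a_pos
  set b : ℝ := F.a / 4 with hbdef
  have hb : 0 < b := by positivity
  have hba : F.a = 4 * b := by rw [hbdef]; ring
  have hb' : b < F.a := by linarith
  have hφ := a4_phi_gt F hb hb'
  have hφs := (a4_exp_summable F hb hb').hasSum
  set φ : ℝ := ∑' h : ℤ, a4q F h * Real.exp (-b * (h : ℝ)) with hφdef
  obtain ⟨B', hB', hq⟩ := a4q_tail F
  obtain ⟨C, hC, hCθ⟩ := const86 F hb (by linarith)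
  have hSs := a4_exp_int (c := b) hb
  set S : ℝ := ∑' z : ℤ, Real.exp (-b * |(z : ℝ)|) with hSdef
  have hS : 0 < S := by
    have h1 := hSs.le_tsum 0 fun n _ => (Real.exp_pos _).le
    exact lt_of_lt_of_le (Real.exp_pos _) h1
  -- choice of J
  obtain ⟨J, hJ⟩ : ∃ J : ℕ, B' * (1 + 1 / b) * S * Real.exp (-b * J) ≤ φ - 1 := by
    have h1 : Filter.Tendsto (fun J : ℕ => B' * (1 + 1 / b) * S * Real.exp (-b * J)) Filter.atTop
        (nhds (B' * (1 + 1 / b) * S * 0)) := by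
      refine Filter.Tendsto.const_mul _ ?_
      exact (a4_exp_nat hb).tendsto_atTop_zero
    rw [mul_zero] at h1
    exact ((h1.eventually (gt_mem_nhds (show (0 : ℝ) < φ - 1 by linarith))).exists).imp
      fun J hJ => hJ.le
  obtain ⟨A, hA⟩ : ∃ A : ℝ, A = (1 + 1 / b) * Real.exp (2 * b * J) := ⟨_, rfl⟩
  have hJ0 : (0 : ℝ) ≤ J := Nat.cast_nonneg J
  have hA1 : 1 ≤ A := by
    rw [hA]
    have h1 : (1 : ℝ) ≤ Real.exp (2 * b * J) := Real.one_le_exp (by positivity)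
    have h2 : (1 : ℝ) ≤ 1 + 1 / b := by
      have : 0 < 1 / b := by positivity
      linarith
    nlinarith
  refine ⟨C, A, hC, hA1, fun θ hθ hθb x hx => ?_⟩
  have hx' : (1 : ℝ) ≤ x := by exact_mod_cast hx
  obtain ⟨w, hw⟩ : ∃ w : ℝ, w = Real.exp (-C * θ ^ 2) := ⟨_, rfl⟩
  rw [← hw]
  have hw0 : 0 < w := by rw [hw]; exact Real.exp_pos _
  have hw1 : w ≤ 1 := by
    rw [hw, Real.exp_le_one_iff]
    have := sq_nonneg θ
    nlinarith
  have hm := hCθ θ hθ hθb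
  rw [← hw] at hm
  have hcs := (cosh_sum86 F hθ hθb hb').hasSum
  set m : ℝ := ∑' h : ℤ, a4q F h * Real.cosh (θ * (h : ℝ)) with hmdef
  have hss := sinh_sum86 F hθ hθb hb'
  -- the sum over all z
  have hall : HasSum (fun z : ℤ => a4q F (z - x) *
      (w * (Real.sinh (θ * (z : ℝ)) / θ) + A - Real.exp (-b * (z : ℝ))))
      (w * (Real.sinh (θ * (x : ℝ)) / θ) * m + A - Real.exp (-b * (x : ℝ)) * φ) := by
    have h1 := ((hcs.mul_left (w * (Real.sinh (θ * (x : ℝ)) / θ))).add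
      (hss.mul_left (w * (Real.cosh (θ * (x : ℝ)) / θ)))).add
        (((a4q_hasSum F).mul_left A).sub (hφs.mul_left (Real.exp (-b * (x : ℝ)))))
    rw [← (Equiv.addRight x).hasSum_iff]
    have h2 : (fun z : ℤ => a4q F (z - x) *
        (w * (Real.sinh (θ * (z : ℝ)) / θ) + A - Real.exp (-b * (z : ℝ)))) ∘
        (Equiv.addRight x) = fun h : ℤ =>
          (w * (Real.sinh (θ * (x : ℝ)) / θ)) * (a4q F h * Real.cosh (θ * (h : ℝ))) +
          (w * (Real.cosh (θ * (x : ℝ)) / θ)) * (a4q F h * Real.sinh (θ * (h : ℝ))) +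
          (A * a4q F h - Real.exp (-b * (x : ℝ)) * (a4q F h * Real.exp (-b * (h : ℝ)))) := by
      ext h
      simp only [Function.comp_apply, Equiv.coe_addRight, add_sub_cancel_right, Int.cast_add]
      rw [mul_add (-b), Real.exp_add, mul_add θ, Real.sinh_add]
      ring
    rw [h2]
    have h3 : w * (Real.sinh (θ * (x : ℝ)) / θ) * m + w * (Real.cosh (θ * (x : ℝ)) / θ) * 0 +
        (A * 1 - Real.exp (-b * (x : ℝ)) * φ) =
        w * (Real.sinh (θ * (x : ℝ)) / θ) * m + A - Real.exp (-b * (x : ℝ)) * φ := by ring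
    rw [← h3]
    exact h1
  -- the function at the heights z ≤ 0
  have hneg : ∀ z : ℤ, (z : ℝ) ≤ 0 →
      -(w * (Real.sinh (θ * (z : ℝ)) / θ) + A - Real.exp (-b * (z : ℝ))) ≤
        (1 + 1 / b) * Real.exp (2 * b * |(z : ℝ)|) - A := by
    intro z hz'
    have habs : |(z : ℝ)| = -z := abs_of_nonpos hz'
    have hz0 : 0 ≤ |(z : ℝ)| := abs_nonneg _
    have h1 : -(Real.sinh (θ * (z : ℝ)) / θ) = Real.sinh (θ * |(z : ℝ)|) / θ := by
      rw [habs, mul_neg, Real.sinh_neg, neg_div]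
    have h2 : Real.sinh (θ * |(z : ℝ)|) / θ ≤ |(z : ℝ)| * Real.exp (b * |(z : ℝ)|) := by
      rw [div_le_iff₀ hθ]
      have h3 := sinh_le86 (s := θ * |(z : ℝ)|) (by positivity)
      have h4 : Real.exp (θ * |(z : ℝ)|) ≤ Real.exp (b * |(z : ℝ)|) := by
        rw [Real.exp_le_exp]
        exact mul_le_mul_of_nonneg_right hθb hz0
      calc Real.sinh (θ * |(z : ℝ)|) ≤ θ * |(z : ℝ)| * Real.exp (θ * |(z : ℝ)|) := h3
        _ ≤ θ * |(z : ℝ)| * Real.exp (b * |(z : ℝ)|) :=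
          mul_le_mul_of_nonneg_left h4 (by positivity)
        _ = |(z : ℝ)| * Real.exp (b * |(z : ℝ)|) * θ := by ring
    have h5 := a4_abs_le_exp hb (z : ℝ)
    have h6 : |(z : ℝ)| * Real.exp (b * |(z : ℝ)|) ≤ (1 / b) * Real.exp (2 * b * |(z : ℝ)|) := by
      calc |(z : ℝ)| * Real.exp (b * |(z : ℝ)|)
          ≤ ((1 / b) * Real.exp (b * |(z : ℝ)|)) * Real.exp (b * |(z : ℝ)|) :=
            mul_le_mul_of_nonneg_right h5 (Real.exp_pos _).le
        _ = (1 / b) * Real.exp (2 * b * |(z : ℝ)|) := by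
            rw [mul_assoc, ← Real.exp_add]
            ring_nf
    have h7 : Real.exp (-b * (z : ℝ)) ≤ Real.exp (2 * b * |(z : ℝ)|) := by
      rw [Real.exp_le_exp, habs]
      nlinarith
    have h8 : 0 ≤ Real.sinh (θ * |(z : ℝ)|) / θ :=
      div_nonneg (Real.sinh_nonneg_iff.2 (by positivity)) hθ.le
    have h9 : w * (Real.sinh (θ * |(z : ℝ)|) / θ) ≤ Real.sinh (θ * |(z : ℝ)|) / θ := by
      nlinarith
    have h10 : -(w * (Real.sinh (θ * (z : ℝ)) / θ)) = w * (Real.sinh (θ * |(z : ℝ)|) / θ) := by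
      rw [← h1]
      ring
    linarith
  -- the part z ≤ 0
  have hbd : ∀ z : ℤ, (if 1 ≤ z then (0 : ℝ) else
      -(a4q F (z - x) * (w * (Real.sinh (θ * (z : ℝ)) / θ) + A - Real.exp (-b * (z : ℝ))))) ≤
      (B' * (1 + 1 / b) * Real.exp (-b * J) * Real.exp (-b * (x : ℝ))) *
        Real.exp (-b * |(z : ℝ)|) := by
    intro z
    have hpos : 0 ≤ (B' * (1 + 1 / b) * Real.exp (-b * J) * Real.exp (-b * (x : ℝ))) *
        Real.exp (-b * |(z : ℝ)|) := by positivity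
    by_cases hz : 1 ≤ z
    · rw [if_pos hz]
      exact hpos
    · rw [if_neg hz]
      have hz' : (z : ℝ) ≤ 0 := by
        have : z ≤ 0 := by omega
        exact_mod_cast this
      have habs : |(z : ℝ)| = -z := abs_of_nonpos hz'
      have hn := hneg z hz'
      by_cases hzJ : |(z : ℝ)| ≤ J
      · refine le_trans ?_ hpos
        rw [neg_nonpos]
        refine mul_nonneg (a4q_nonneg F _) ?_
        have h1 : Real.exp (2 * b * |(z : ℝ)|) ≤ Real.exp (2 * b * J) := by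
          rw [Real.exp_le_exp]
          exact mul_le_mul_of_nonneg_left hzJ (by positivity)
        have h2 : (1 + 1 / b) * Real.exp (2 * b * |(z : ℝ)|) ≤ A := by
          rw [hA]
          exact mul_le_mul_of_nonneg_left h1 (by positivity)
        linarith
      · push Not at hzJ
        have h1 : -(w * (Real.sinh (θ * (z : ℝ)) / θ) + A - Real.exp (-b * (z : ℝ))) ≤
            (1 + 1 / b) * Real.exp (2 * b * |(z : ℝ)|) := by linarith
        have h2 : a4q F (z - x) ≤ B' * Real.exp (-F.a * ((x : ℝ) + |(z : ℝ)|)) := by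
          have h3 := hq (z - x)
          have h4 : |((z - x : ℤ) : ℝ)| = (x : ℝ) + |(z : ℝ)| := by
            rw [Int.cast_sub, habs, abs_of_nonpos (by linarith)]
            ring
          rw [h4] at h3
          exact h3
        have h3 : 0 ≤ (1 + 1 / b) * Real.exp (2 * b * |(z : ℝ)|) := by positivity
        calc -(a4q F (z - x) * (w * (Real.sinh (θ * (z : ℝ)) / θ) + A - Real.exp (-b * (z : ℝ))))
            = a4q F (z - x) *
              -(w * (Real.sinh (θ * (z : ℝ)) / θ) + A - Real.exp (-b * (z : ℝ))) := by ring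
          _ ≤ a4q F (z - x) * ((1 + 1 / b) * Real.exp (2 * b * |(z : ℝ)|)) :=
            mul_le_mul_of_nonneg_left h1 (a4q_nonneg F _)
          _ ≤ (B' * Real.exp (-F.a * ((x : ℝ) + |(z : ℝ)|))) *
              ((1 + 1 / b) * Real.exp (2 * b * |(z : ℝ)|)) := mul_le_mul_of_nonneg_right h2 h3
          _ = (B' * (1 + 1 / b)) *
              (Real.exp (-F.a * ((x : ℝ) + |(z : ℝ)|)) * Real.exp (2 * b * |(z : ℝ)|)) := by ring
          _ ≤ (B' * (1 + 1 / b)) *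
              (Real.exp (-b * J) * Real.exp (-b * (x : ℝ)) * Real.exp (-b * |(z : ℝ)|)) := by
            refine mul_le_mul_of_nonneg_left ?_ (by positivity)
            rw [← Real.exp_add, ← Real.exp_add, ← Real.exp_add, Real.exp_le_exp, hba]
            nlinarith
          _ = (B' * (1 + 1 / b) * Real.exp (-b * J) * Real.exp (-b * (x : ℝ))) *
              Real.exp (-b * |(z : ℝ)|) := by ring
  have hsplit : ∀ z : ℤ, (if 1 ≤ z then a4q F (z - x) *
      (w * (Real.sinh (θ * (z : ℝ)) / θ) + A - Real.exp (-b * (z : ℝ))) else 0) =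
      a4q F (z - x) * (w * (Real.sinh (θ * (z : ℝ)) / θ) + A - Real.exp (-b * (z : ℝ))) +
      (if 1 ≤ z then (0 : ℝ) else
        -(a4q F (z - x) *
          (w * (Real.sinh (θ * (z : ℝ)) / θ) + A - Real.exp (-b * (z : ℝ))))) := by
    intro z
    by_cases hz : 1 ≤ z
    · rw [if_pos hz, if_pos hz, add_zero]
    · rw [if_neg hz, if_neg hz, add_neg_cancel]
  have hsum2 : Summable fun z : ℤ => (if 1 ≤ z then (0 : ℝ) else
      -(a4q F (z - x) * (w * (Real.sinh (θ * (z : ℝ)) / θ) + A - Real.exp (-b * (z : ℝ))))) := by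
    refine Summable.of_norm_bounded (g := fun z : ℤ =>
      |a4q F (z - x) * (w * (Real.sinh (θ * (z : ℝ)) / θ) + A - Real.exp (-b * (z : ℝ)))|)
      hall.summable.abs fun z => ?_
    by_cases hz : 1 ≤ z
    · rw [if_pos hz, norm_zero]
      exact abs_nonneg _
    · rw [if_neg hz, norm_neg, Real.norm_eq_abs]
  have hsum1 : Summable fun z : ℤ => if 1 ≤ z then a4q F (z - x) *
      (w * (Real.sinh (θ * (z : ℝ)) / θ) + A - Real.exp (-b * (z : ℝ))) else 0 := by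
    simp only [hsplit]
    exact hall.summable.add hsum2
  refine ⟨hsum1, ?_⟩
  have h1 : ∑' z : ℤ, (if 1 ≤ z then (0 : ℝ) else
      -(a4q F (z - x) *
        (w * (Real.sinh (θ * (z : ℝ)) / θ) + A - Real.exp (-b * (z : ℝ))))) ≤
      (B' * (1 + 1 / b) * Real.exp (-b * J) * Real.exp (-b * (x : ℝ))) * S := by
    rw [hSdef, ← tsum_mul_left]
    exact hsum2.tsum_le_tsum hbd (hSs.mul_left _)
  have h2 : (B' * (1 + 1 / b) * Real.exp (-b * J) * Real.exp (-b * (x : ℝ))) * S ≤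
      Real.exp (-b * (x : ℝ)) * (φ - 1) := by
    calc (B' * (1 + 1 / b) * Real.exp (-b * J) * Real.exp (-b * (x : ℝ))) * S
        = Real.exp (-b * (x : ℝ)) * (B' * (1 + 1 / b) * S * Real.exp (-b * J)) := by ring
      _ ≤ Real.exp (-b * (x : ℝ)) * (φ - 1) :=
        mul_le_mul_of_nonneg_left hJ (Real.exp_pos _).le
  have h3 : ∑' z : ℤ, (if 1 ≤ z then a4q F (z - x) *
      (w * (Real.sinh (θ * (z : ℝ)) / θ) + A - Real.exp (-b * (z : ℝ))) else 0) =
      (w * (Real.sinh (θ * (x : ℝ)) / θ) * m + A - Real.exp (-b * (x : ℝ)) * φ) +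
      ∑' z : ℤ, (if 1 ≤ z then (0 : ℝ) else
        -(a4q F (z - x) *
          (w * (Real.sinh (θ * (z : ℝ)) / θ) + A - Real.exp (-b * (z : ℝ))))) := by
    rw [← hall.tsum_eq, ← hall.summable.tsum_add hsum2]
    exact tsum_congr hsplit
  rw [h3, Psi]
  have h4 : Real.exp (-b * (x : ℝ)) * (φ - 1) =
      Real.exp (-b * (x : ℝ)) * φ - Real.exp (-b * (x : ℝ)) := by ring
  have h5 : 0 ≤ Real.sinh (θ * (x : ℝ)) / θ :=
    div_nonneg (Real.sinh_nonneg_iff.2 (by positivity)) hθ.le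
  have h6 : w * (Real.sinh (θ * (x : ℝ)) / θ) * m ≤ Real.sinh (θ * (x : ℝ)) / θ := by
    calc w * (Real.sinh (θ * (x : ℝ)) / θ) * m = (w * m) * (Real.sinh (θ * (x : ℝ)) / θ) := by ring
      _ ≤ 1 * (Real.sinh (θ * (x : ℝ)) / θ) := mul_le_mul_of_nonneg_right hm h5
      _ = _ := one_mul _
  linarith

theorem psi_theta (F : Law) : ∃ C θ₀ b A : ℝ, 0 < C ∧ 0 < θ₀ ∧ 0 < b ∧ 1 ≤ A ∧
    ∀ θ : ℝ, 0 < θ → θ ≤ θ₀ → ∀ x : ℤ, 1 ≤ x →
      ∑' q : ℕ × ℤ, Kp F x q.1 q.2 * ENNReal.ofReal (Real.exp (-C * θ ^ 2 * q.1) * Psi θ A b q.2) ≤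
        ENNReal.ofReal (Psi θ A b x) := by
  obtain ⟨C, A, hC, hA, hreal⟩ := real86 F
  have ha := F.a_pos
  refine ⟨C, F.a / 4, F.a / 4, A, hC, by positivity, by positivity, hA, fun θ hθ hθb x hx => ?_⟩
  obtain ⟨h1, h2⟩ := hreal θ hθ hθb x hx
  have hexp : ∀ z : ℤ, 1 ≤ z → Real.exp (-(F.a / 4) * (z : ℝ)) ≤ 1 := by
    intro z hz
    have h3 : (1 : ℝ) ≤ z := by exact_mod_cast hz
    rw [Real.exp_le_one_iff]
    nlinarith
  have hsin : ∀ z : ℤ, 1 ≤ z → 0 ≤ Real.sinh (θ * (z : ℝ)) / θ := by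
    intro z hz
    have h3 : (1 : ℝ) ≤ z := by exact_mod_cast hz
    exact div_nonneg (Real.sinh_nonneg_iff.2 (by positivity)) hθ.le
  have hval : ∀ z : ℤ, 1 ≤ z → 0 ≤ Real.exp (-C * θ ^ 2) * (Real.sinh (θ * (z : ℝ)) / θ) + A -
      Real.exp (-(F.a / 4) * (z : ℝ)) := by
    intro z hz
    have h3 := hexp z hz
    have h4 := mul_nonneg (Real.exp_pos (-C * θ ^ 2)).le (hsin z hz)
    linarith
  rw [← (Equiv.prodComm ℤ ℕ).tsum_eq, ENNReal.tsum_prod']
  simp only [Equiv.prodComm_apply, Prod.swap_prod_mk]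
  refine le_trans (ENNReal.tsum_le_tsum fun z => ?_) (le_of_eq
    (ENNReal.ofReal_tsum_of_nonneg (fun z => ?_) h1).symm) |>.trans (ENNReal.ofReal_le_ofReal h2)
  · by_cases hz : 1 ≤ z
    · rw [if_pos hz, ENNReal.ofReal_mul (a4q_nonneg F _), a4q,
        ENNReal.ofReal_tsum_of_nonneg (fun l => F.f_nonneg _ _) (a4_summable_l F _),
        ← ENNReal.tsum_mul_right]
      rw [tsum_eq_zero_add' ENNReal.summable]
      have h3 : Kp F x 0 z = 0 := by
        rw [Kp, F.f_zero]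
        simp
      rw [h3, zero_mul, zero_add]
      refine ENNReal.tsum_le_tsum fun l => ?_
      rw [Kp, if_pos ⟨hx, hz⟩]
      refine mul_le_mul_right ?_ _ |>.trans le_rfl
      refine ENNReal.ofReal_le_ofReal ?_
      have h4 : Real.exp (-C * θ ^ 2 * ((l + 1 : ℕ) : ℝ)) ≤ Real.exp (-C * θ ^ 2) := by
        rw [Real.exp_le_exp]
        have h5 : (0 : ℝ) ≤ l := Nat.cast_nonneg l
        have h6 : 0 ≤ C * θ ^ 2 := by positivity
        push_cast
        nlinarith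
      have h5 : Real.exp (-C * θ ^ 2 * ((l + 1 : ℕ) : ℝ)) ≤ 1 := by
        refine h4.trans ?_
        rw [Real.exp_le_one_iff]
        have := sq_nonneg θ
        nlinarith
      have h6 := mul_le_mul_of_nonneg_right h4 (hsin z hz)
      have h7 : 0 ≤ A - Real.exp (-(F.a / 4) * (z : ℝ)) := by linarith [hexp z hz]
      have h8 := mul_le_mul_of_nonneg_right h5 h7
      rw [Psi]
      have h9 : Real.exp (-C * θ ^ 2 * ((l + 1 : ℕ) : ℝ)) *
          (Real.sinh (θ * (z : ℝ)) / θ + A - Real.exp (-(F.a / 4) * (z : ℝ))) =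
          Real.exp (-C * θ ^ 2 * ((l + 1 : ℕ) : ℝ)) * (Real.sinh (θ * (z : ℝ)) / θ) +
          Real.exp (-C * θ ^ 2 * ((l + 1 : ℕ) : ℝ)) *
            (A - Real.exp (-(F.a / 4) * (z : ℝ))) := by ring
      rw [h9]
      linarith
    · rw [if_neg hz, ENNReal.ofReal_zero, nonpos_iff_eq_zero, ENNReal.tsum_eq_zero]
      intro l
      rw [Kp, if_neg (fun h => hz h.2), zero_mul]
  · by_cases hz : 1 ≤ z
    · rw [if_pos hz]
      exact mul_nonneg (a4q_nonneg F _) (hval z hz)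
    · rw [if_neg hz]

end Pool.Agent.Helper18.WK
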