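import Pool.Agent.Helper18.WK.LstB
import Pool.Agent.Helper18.WK.SuperP
import Pool.Agent.Helper18.WK.Up
import Pool.Agent.Helper18.WK.PsiTA

/-!
# Project WK, blocks WK-P1 (`psi_theta`), WK-P2 (`end_le`): the ends of the excursion

WK-P1. `Psi θ A b z = sinh (θ z) / θ + A - exp (-b z)`, `b = a / 4`, `θ ≤ θ₀ ≤ b`. Choose `C` with
`∑_(l,h) f l h cosh (θ h) exp (-C θ² l) ≤ 1` for `0 ≤ θ ≤ θ₀` (`l ≥ 1`; `cosh (θ h) ≤ 1 + θ² h² exp (θ |h|) / 2`). For
`x ≥ 1`: over all heights, `∑ f l h exp (-C θ² l) sinh (θ (x + h)) / θ = sinh (θ x) / θ * ∑ f l h exp(-C θ² l) cosh (θ h) ≤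
sinh (θ x) / θ` (symmetry); the killed terms `x + h ≤ 0`, `j = -(x + h) ≥ 0`, were `-sinh (θ j) / θ ≥ -j exp (b j)`. And
`∑_(x + h ≥ 1) f l h exp (-C θ² l) (A - exp (-b (x + h))) ≤ ∑_(x+h ≥ 1) q h (A - exp(-b (x+h))) =
A - exp (-b x) φ + ∑_(x + h ≤ 0) q h (exp (b j) - A)`, `q h = ∑_l f l h`, `φ = ∑ q h cosh (b h) > 1` (as in
`psi_plus`, file SuperP, `a4_...` lemmas). Total `≤ Psi x - exp (-b x) (φ - 1) + ∑_(x + h ≤ 0) q h ((j + 1) exp (b j) - A)`;
`≤ Psi x` if `A` is large (same end as in `psi_plus`).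

WK-P2. `sc_stp` with `S = fun _ z => R ≤ z`: the first cut at a height `≥ R` is at a length `≤ d ≤ n / 2`, so the
rest is `≤ C (1 + z) (1 + |y|) / (n √n)` (`kp_up`), `z` = height of this cut. By `super_stp` with
`u j z = exp (-C θ² j) Psi z` (`z ≥ 1`): `∑ cw * exp (-C θ² cl) Psi (ce) ≤ Psi x ≤ C' (1 + |x|)` (`θ x ≤ 1`), and
`(1 + z) / Psi z ≤ 2 z θ / sinh (θ z) ≤ 2 θ R / sinh (θ R)` for `z ≥ R` (`z / sinh (θ z)` is decreasing).
-/

open scoped ENNReal Classical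

namespace Pool.Agent.Helper18.WK

private theorem stp_end52 {S : ℕ → ℤ → Prop} {j : ℕ} {x : ℤ} {c : Ch} (h : Stp S j x c) :
    S (j + cl c) (ce x c) := by
  induction c generalizing j x with
  | nil => exact h
  | cons q c ih =>
    have h1 := ih h.2
    rw [add_assoc] at h1
    exact h1

private theorem stp_exists52 {S : ℕ → ℤ → Prop} {j : ℕ} {x : ℤ} {c : Ch} (h : S (j + cl c) (ce x c)) :
    ∃ a b : Ch, c = a ++ b ∧ Stp S j x a := by
  induction c generalizing j x with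
  | nil => exact ⟨[], [], rfl, h⟩
  | cons q c ih =>
    by_cases hs : S j x
    · exact ⟨[], q :: c, rfl, hs⟩
    · have h1 : S (j + q.1 + cl c) (ce q.2 c) := by
        rw [add_assoc]
        exact h
      obtain ⟨a, b, hab, ha⟩ := ih h1
      exact ⟨q :: a, b, by rw [hab]; rfl, hs, ha⟩

private theorem sinh_div52 {s t : ℝ} (hs : 0 < s) (hst : s ≤ t) :
    t / Real.sinh t ≤ s / Real.sinh s := by
  have ht : 0 < t := hs.trans_le hst
  have hsh : 0 < Real.sinh s := Real.sinh_pos_iff.2 hs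
  have hth : 0 < Real.sinh t := Real.sinh_pos_iff.2 ht
  have hconv : ConvexOn ℝ (Set.Ici (0 : ℝ)) Real.sinh := by
    refine convexOn_of_deriv2_nonneg (convex_Ici 0) Real.continuous_sinh.continuousOn
      Real.differentiable_sinh.differentiableOn ?_ ?_
    · rw [Real.deriv_sinh]
      exact Real.differentiable_cosh.differentiableOn
    · intro u hu
      rw [interior_Ici, Set.mem_Ioi] at hu
      rw [Function.iterate_succ, Function.iterate_one, Function.comp_apply, Real.deriv_sinh,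
        Real.deriv_cosh]
      exact Real.sinh_nonneg_iff.2 hu.le
  have h1 := hconv.2 (Set.mem_Ici.2 le_rfl) (Set.mem_Ici.2 ht.le)
    (show (0 : ℝ) ≤ 1 - s / t by
      rw [sub_nonneg, div_le_one ht]
      exact hst)
    (show (0 : ℝ) ≤ s / t by positivity) (by ring)
  rw [smul_eq_mul, smul_eq_mul, mul_zero, zero_add, div_mul_cancel₀ s ht.ne', Real.sinh_zero,
    smul_eq_mul, smul_eq_mul, mul_zero, zero_add] at h1
  rw [div_le_div_iff₀ hth hsh]
  calc t * Real.sinh s ≤ t * (s / t * Real.sinh t) := mul_le_mul_of_nonneg_left h1 ht.le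
    _ = s * Real.sinh t := by field_simp

private theorem sinh_le52 {t : ℝ} (h0 : 0 ≤ t) (h1 : t ≤ 1) : Real.sinh t ≤ 2 * t := by
  have h2 := Real.abs_exp_sub_one_sub_id_le (x := t) (by rwa [abs_of_nonneg h0])
  have h3 := Real.add_one_le_exp (-t)
  rw [Real.sinh_eq]
  have h4 := (abs_le.1 h2).2
  nlinarith

/-- the value of the superharmonic function dominates `1 + z` at high levels -/
private theorem psi_ge52 {θ A b : ℝ} (hθ : 0 < θ) (hA : 1 ≤ A) (hb : 0 < b) {R : ℕ} (hR : 1 ≤ R)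
    {z : ℤ} (hz : (R : ℤ) ≤ z) :
    1 + |(z : ℝ)| ≤ 2 * (θ * R / Real.sinh (θ * R)) * Psi θ A b z := by
  have hR' : (1 : ℝ) ≤ R := by exact_mod_cast hR
  have hz' : (R : ℝ) ≤ z := by exact_mod_cast hz
  have hz1 : (1 : ℝ) ≤ z := hR'.trans hz'
  have h1 := sinh_div52 (s := θ * R) (t := θ * z) (by positivity)
    (mul_le_mul_of_nonneg_left hz' hθ.le)
  have hzs : 0 < Real.sinh (θ * z) := Real.sinh_pos_iff.2 (mul_pos hθ (by linarith))
  have hRs : 0 < Real.sinh (θ * R) := Real.sinh_pos_iff.2 (by positivity)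
  have h2 : Real.sinh (θ * z) / θ ≤ Psi θ A b z := by
    have h3 : Real.exp (-b * z) ≤ 1 := by
      rw [Real.exp_le_one_iff]
      nlinarith
    unfold Psi
    linarith
  rw [abs_of_nonneg (by linarith)]
  calc 1 + (z : ℝ) ≤ 2 * z := by linarith
    _ = 2 * (θ * z / Real.sinh (θ * z)) * (Real.sinh (θ * z) / θ) := by
      field_simp
    _ ≤ 2 * (θ * R / Real.sinh (θ * R)) * (Real.sinh (θ * z) / θ) := by
      refine mul_le_mul_of_nonneg_right (by linarith) (by positivity)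
    _ ≤ 2 * (θ * R / Real.sinh (θ * R)) * Psi θ A b z := by
      refine mul_le_mul_of_nonneg_left h2 (by positivity)

private theorem psi_le52 {θ A b : ℝ} (hθ : 0 < θ) (hA : 1 ≤ A) {x : ℤ} (hx : 1 ≤ x)
    (hθx : θ * x ≤ 1) : Psi θ A b x ≤ (2 + A) * (1 + |(x : ℝ)|) := by
  have hx' : (1 : ℝ) ≤ x := by exact_mod_cast hx
  have h1 : Real.sinh (θ * x) / θ ≤ 2 * x := by
    rw [div_le_iff₀ hθ]
    refine (sinh_le52 (by positivity) hθx).trans (le_of_eq (by ring))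
  have h2 := Real.exp_pos (-b * x)
  rw [abs_of_nonneg (by linarith)]
  unfold Psi
  nlinarith

private theorem rate52 {n m : ℕ} (hn : 1 ≤ n) (hm : n ≤ 2 * m) :
    1 / ((m : ℝ) * Real.sqrt m) ≤ 4 / (n * Real.sqrt n) := by
  have hn' : (1 : ℝ) ≤ n := by exact_mod_cast hn
  have hm' : (n : ℝ) ≤ 2 * m := by exact_mod_cast hm
  have hm0 : (0 : ℝ) < m := by linarith
  have h1 : Real.sqrt n ≤ 2 * Real.sqrt m := by
    rw [Real.sqrt_le_left (by positivity), mul_pow, Real.sq_sqrt hm0.le]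
    linarith
  have h2 : 0 < Real.sqrt m := Real.sqrt_pos.2 hm0
  have h3 : 0 < Real.sqrt n := Real.sqrt_pos.2 (by linarith)
  rw [div_le_div_iff₀ (by positivity) (by positivity), one_mul]
  calc (n : ℝ) * Real.sqrt n ≤ (2 * m) * (2 * Real.sqrt m) :=
        mul_le_mul hm' h1 h3.le (by positivity)
    _ = 4 * (m * Real.sqrt m) := by ring

theorem end_le (F : Law) : ∃ C θ₀ : ℝ, 0 < C ∧ 0 < θ₀ ∧ ∀ θ : ℝ, 0 < θ → θ ≤ θ₀ →
    ∀ (n d R : ℕ) (x y : ℤ), 1 ≤ n → 2 * d ≤ n → 1 ≤ R → 1 ≤ x → θ * x ≤ 1 →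
      Sc (Kp F) n x y (fun c => if ∃ c₁ c₂ : Ch, c = c₁ ++ c₂ ∧ cl c₁ ≤ d ∧ (R : ℤ) ≤ ce x c₁ then 1 else 0) ≤
        ENNReal.ofReal (C * (1 + |(x : ℝ)|) * (1 + |(y : ℝ)|) / (n * Real.sqrt n) *
          (Real.exp (C * θ ^ 2 * d) * (θ * R / Real.sinh (θ * R)))) := by
  obtain ⟨C, θ₀, b, A, hC, hθ₀, hb, hA, hpsi⟩ := psi_theta F
  obtain ⟨C₁, hC₁, hup⟩ := kp_up F
  refine ⟨8 * C₁ * (2 + A) + C, θ₀, by positivity, hθ₀, ?_⟩
  intro θ hθ hθ' n d R x y hn hd hR hx hθx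
  set S : ℕ → ℤ → Prop := fun j z => j ≤ d ∧ (R : ℤ) ≤ z with hS
  set u : ℕ → ℤ → ℝ≥0∞ := fun j z => ENNReal.ofReal (Real.exp (-C * θ ^ 2 * j) * Psi θ A b z) with hu
  have hn' : (1 : ℝ) ≤ n := by exact_mod_cast hn
  have hR' : (1 : ℝ) ≤ R := by exact_mod_cast hR
  have hsR : 0 < Real.sinh (θ * R) := Real.sinh_pos_iff.2 (by positivity)
  have hrt : 0 < (n : ℝ) * Real.sqrt n :=
    mul_pos (by linarith) (Real.sqrt_pos.2 (by linarith))
  have hK0 : ∀ x z, Kp F x 0 z = 0 := by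
    intro x z
    rw [Kp]
    split_ifs
    · rw [F.f_zero, ENNReal.ofReal_zero]
    · rfl
  -- the supersolution
  have hsup : ∀ j x, ¬ S j x → ∑' q : ℕ × ℤ, Kp F x q.1 q.2 * u (j + q.1) q.2 ≤ u j x := by
    intro j x _
    by_cases hx1 : 1 ≤ x
    · have h1 : ∀ q : ℕ × ℤ, Kp F x q.1 q.2 * u (j + q.1) q.2 =
          ENNReal.ofReal (Real.exp (-C * θ ^ 2 * j)) * (Kp F x q.1 q.2 *
            ENNReal.ofReal (Real.exp (-C * θ ^ 2 * q.1) * Psi θ A b q.2)) := by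
        intro q
        rw [mul_left_comm, ← ENNReal.ofReal_mul (Real.exp_pos _).le, ← mul_assoc, ← Real.exp_add]
        have h2 : -C * θ ^ 2 * ((j + q.1 : ℕ) : ℝ) = -C * θ ^ 2 * j + -C * θ ^ 2 * q.1 := by
          push_cast
          ring
        rw [← h2]
      rw [tsum_congr h1, ENNReal.tsum_mul_left, hu]
      simp only
      rw [ENNReal.ofReal_mul (Real.exp_pos _).le]
      exact mul_le_mul_right (hpsi θ hθ hθ' x hx1) _
    · have h1 : ∀ q : ℕ × ℤ, Kp F x q.1 q.2 * u (j + q.1) q.2 = 0 := by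
        intro q
        rw [Kp, if_neg (fun h => hx1 h.1), zero_mul]
      rw [tsum_congr h1, tsum_zero]
      exact zero_le
  -- stopped chains
  have hstep1 : Sc (Kp F) n x y (fun c => if ∃ c₁ c₂ : Ch, c = c₁ ++ c₂ ∧ cl c₁ ≤ d ∧
      (R : ℤ) ≤ ce x c₁ then 1 else 0) ≤
      Sc (Kp F) n x y (fun c => if ∃ c₁ c₂ : Ch, c = c₁ ++ c₂ ∧ Stp S 0 x c₁ then 1 else 0) := by
    refine sc_mono (fun _ _ _ => le_rfl) (fun c => ?_) n x y
    by_cases h : ∃ c₁ c₂ : Ch, c = c₁ ++ c₂ ∧ cl c₁ ≤ d ∧ (R : ℤ) ≤ ce x c₁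
    · obtain ⟨c₁, c₂, hc, h1, h2⟩ := h
      obtain ⟨a, b', hab, ha⟩ := stp_exists52 (S := S) (j := 0) (x := x) (c := c₁)
        ⟨by rw [zero_add]; exact h1, h2⟩
      have h3 : ∃ c₁ c₂ : Ch, c = c₁ ++ c₂ ∧ Stp S 0 x c₁ :=
        ⟨a, b' ++ c₂, by rw [hc, hab, List.append_assoc], ha⟩
      rw [if_pos h3]
      split_ifs
      · exact le_rfl
      · exact zero_le
    · rw [if_neg h]
      exact zero_le
  refine hstep1.trans ?_
  rw [sc_stp (Kp F) S n x y (fun _ => 1)]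
  -- the constant
  set M : ℝ := 8 * C₁ * (1 + |(y : ℝ)|) / (n * Real.sqrt n) * (Real.exp (C * θ ^ 2 * d) *
    (θ * R / Real.sinh (θ * R))) with hM
  have hM0 : 0 ≤ M := by
    rw [hM]
    positivity
  have hterm : ∀ c₁ : Ch, (if Stp S 0 x c₁ ∧ cl c₁ ≤ n then
      cw (Kp F) x c₁ * Sc (Kp F) (n - cl c₁) (ce x c₁) y (fun _ => 1) else 0) ≤
      ENNReal.ofReal M * (if Stp S 0 x c₁ then cw (Kp F) x c₁ * u (0 + cl c₁) (ce x c₁) else 0) := by
    intro c₁
    by_cases hs : Stp S 0 x c₁ ∧ cl c₁ ≤ n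
    · rw [if_pos hs, if_pos hs.1, mul_left_comm]
      refine mul_le_mul_right ?_ _
      obtain ⟨h1, h2⟩ := stp_end52 hs.1
      rw [zero_add] at h1 ⊢
      rw [sc_one (Kp F) hK0]
      have hm : n ≤ 2 * (n - cl c₁) := by omega
      refine (hup (n - cl c₁) (ce x c₁) y (by omega)).2.trans ?_
      rw [hu]
      simp only
      rw [← ENNReal.ofReal_mul hM0]
      refine ENNReal.ofReal_le_ofReal ?_
      have h3 := rate52 hn hm
      have h4 := psi_ge52 hθ hA hb hR h2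
      have h5 : Real.exp (-C * θ ^ 2 * cl c₁) * Real.exp (C * θ ^ 2 * d) ≥ 1 := by
        rw [← Real.exp_add, ge_iff_le, Real.one_le_exp_iff]
        have h6 : ((cl c₁ : ℕ) : ℝ) ≤ d := by exact_mod_cast h1
        have h7 : C * θ ^ 2 * ((cl c₁ : ℕ) : ℝ) ≤ C * θ ^ 2 * d :=
          mul_le_mul_of_nonneg_left h6 (by positivity)
        linarith
      have h8 : 0 ≤ Psi θ A b (ce x c₁) := by
        by_contra hneg
        push Not at hneg
        have h9 : 2 * (θ * R / Real.sinh (θ * R)) * Psi θ A b (ce x c₁) ≤ 0 :=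
          mul_nonpos_of_nonneg_of_nonpos (by positivity) hneg.le
        have h10 := abs_nonneg ((ce x c₁ : ℤ) : ℝ)
        linarith
      calc C₁ * (1 + |((ce x c₁ : ℤ) : ℝ)|) * (1 + |(y : ℝ)|) /
            (((n - cl c₁ : ℕ) : ℝ) * Real.sqrt ((n - cl c₁ : ℕ) : ℝ))
          = C₁ * (1 + |(y : ℝ)|) * (1 + |((ce x c₁ : ℤ) : ℝ)|) *
            (1 / (((n - cl c₁ : ℕ) : ℝ) * Real.sqrt ((n - cl c₁ : ℕ) : ℝ))) := by ring
        _ ≤ C₁ * (1 + |(y : ℝ)|) * (2 * (θ * R / Real.sinh (θ * R)) * Psi θ A b (ce x c₁)) *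
            (4 / (n * Real.sqrt n)) := by
            refine mul_le_mul (mul_le_mul_of_nonneg_left h4 (by positivity)) h3 (by positivity)
              (by positivity)
        _ = 8 * C₁ * (1 + |(y : ℝ)|) / (n * Real.sqrt n) * (1 * (θ * R / Real.sinh (θ * R))) *
            Psi θ A b (ce x c₁) := by ring
        _ ≤ 8 * C₁ * (1 + |(y : ℝ)|) / (n * Real.sqrt n) * ((Real.exp (-C * θ ^ 2 * cl c₁) *
            Real.exp (C * θ ^ 2 * d)) * (θ * R / Real.sinh (θ * R))) * Psi θ A b (ce x c₁) := by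
            refine mul_le_mul_of_nonneg_right (mul_le_mul_of_nonneg_left
              (mul_le_mul_of_nonneg_right h5 (by positivity)) (by positivity)) h8
        _ = M * (Real.exp (-C * θ ^ 2 * cl c₁) * Psi θ A b (ce x c₁)) := by
            rw [hM]
            ring
    · rw [if_neg hs]
      exact zero_le
  refine (ENNReal.tsum_le_tsum hterm).trans ?_
  rw [ENNReal.tsum_mul_left]
  refine (mul_le_mul_right (super_stp (Kp F) S u hsup 0 x) _).trans ?_
  rw [hu]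
  simp only
  rw [← ENNReal.ofReal_mul hM0]
  refine ENNReal.ofReal_le_ofReal ?_
  rw [Nat.cast_zero, mul_zero, Real.exp_zero, one_mul]
  have h1 := psi_le52 (b := b) hθ hA hx hθx
  have h2 : Real.exp (C * θ ^ 2 * d) ≤ Real.exp ((8 * C₁ * (2 + A) + C) * θ ^ 2 * d) := by
    rw [Real.exp_le_exp]
    have h3 : 0 ≤ 8 * C₁ * (2 + A) * (θ ^ 2 * d) := by positivity
    linarith
  calc M * Psi θ A b x ≤ M * ((2 + A) * (1 + |(x : ℝ)|)) := mul_le_mul_of_nonneg_left h1 hM0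
    _ = (8 * C₁ * (2 + A)) * (1 + |(x : ℝ)|) * (1 + |(y : ℝ)|) / (n * Real.sqrt n) *
        (Real.exp (C * θ ^ 2 * d) * (θ * R / Real.sinh (θ * R))) := by
        rw [hM]
        ring
    _ ≤ (8 * C₁ * (2 + A) + C) * (1 + |(x : ℝ)|) * (1 + |(y : ℝ)|) / (n * Real.sqrt n) *
        (Real.exp ((8 * C₁ * (2 + A) + C) * θ ^ 2 * d) * (θ * R / Real.sinh (θ * R))) := by
        gcongr
        linarith

end Pool.Agent.Helper18.WK
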