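import Pool.Agent.Helper18.WK.Low
import Pool.Agent.Helper18.WK.PsiT
import Pool.Agent.Helper18.WK.LstC
import Pool.Agent.Helper18.WK.EndD
import Pool.Agent.Helper18.WK.EndC
import Pool.Agent.Helper18.WK.EndA

/-!
# Project WK, blocks WK-E1 .. WK-E4: unlikely events (for `Kp F`, compared with `n^(-3/2)`)

WK-E1. `end_left`: `end_le` with `⌊d n⌋`, `R = ⌈ε √n⌉`, `θ = 1 / √(d n)`: `exp (C θ² d n) = exp C`, `θ R ≥ ε / √d`, and
`t / sinh t` is decreasing and tends to `0`. `end_right`: `sc_rev`, `Kr (Kp F) = Kp F`, `rv_append`, `cl_rv`, `ce_rv`.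

WK-E2. `long_small`: `long_le`, `sc_one`, `∑_z G ≤ 1`, `∑_z' Kp z l z' ≤ len F l ≤ C exp (-a l)`.

WK-E3. `low_cut`: the prefixes stopped at the first cut at a position `≥ j` (`sc_stp`, `hgt_stp`, every chain has one,
`stp_exists`), end height `z ∈ [1, ε √n]`, length `a`. If `a ≤ (1 - d / 4) n` then the rest is
`≤ C (1 + z) (1 + y) / (n - a)^(3/2) ≤ C_d (1 + ε √n) n^(-3/2)` (`kp_up`), and the total mass of the prefixes is
`Q (Kp F) j x ≤ C (1 + x) / √(d n / 2)` (`q_stp`, `q_plus`); if `a > (1 - d / 4) n ≥ j + d n / 4`: `fst_over`.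

WK-E4. `mid_osc`. `w = ⌊η n⌋`, `ρ = ε √n / 2`. Let `k = cl c₁ / w`, `p` the prefix stopped at its first cut at a position
`≥ k w` (`stp_exists`); it is a prefix of `c₁`. The cuts `c₁` and `c₁ ++ c₂` are at the positions `≤ (k + 2) w`, and the
height of one of them differs by `≥ ρ` from `ce x p`; so the rest of the chain after `p` has a prefix `p₂` stopped at
the first cut with `|z - ce x p| ≥ ρ`, `cl p₂ ≤ 2 w`, and the remaining part has a length `≥ cl c₃ ≥ d n`. So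
`mass ≤ ∑_k ∑_p cw p ∑_p₂ cw p₂ G (Kp F) (rest) z y` (`sc_stp` twice), `G (Kp F) (rest) z y ≤ C (1 + y) / (d n)`
(`kp_up`, `g_symm`), `∑_p₂ = Far (Kp F) (ce x p) ρ (2 w) ≤ 2 exp (-c ρ² / (2 w + ρ))` (`far_gauss`; `Far` as a sum over
stopped chains by `tsum_ch`), `∑_p cw p = Q (Kp F) (k w) x ≤ C (1 + x) / √(d n / 2)` (`k w ≥ d n - w`), at most
`2 / η + 2` values of `k`. Total `≤ C_d (1 / η) exp (-c ε² / η) n^(-3/2)`.
-/

open scoped ENNReal Classical

namespace Pool.Agent.Helper18.WK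

private theorem long_row26 (F : Law) {C₁ : ℝ} (hC : ∀ l : ℕ, len F l ≤ C₁ * Real.exp (-F.a * l)) (l : ℕ)
    (z : ℤ) : ∑' z' : ℤ, Kp F z l z' ≤ ENNReal.ofReal (C₁ * Real.exp (-F.a * l)) := by
  calc ∑' z' : ℤ, Kp F z l z' ≤ ∑' z' : ℤ, ENNReal.ofReal (F.f l (z' - z)) := by
        refine ENNReal.tsum_le_tsum fun z' => ?_
        unfold Kp
        split_ifs
        · exact le_rfl
        · exact zero_le
    _ = ∑' h : ℤ, ENNReal.ofReal (F.f l h) :=
        (Equiv.subRight z).tsum_eq (fun h : ℤ => ENNReal.ofReal (F.f l h))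
    _ = ENNReal.ofReal (∑' h : ℤ, F.f l h) :=
        (ENNReal.ofReal_tsum_of_nonneg (F.f_nonneg l) (f_summable F l)).symm
    _ ≤ _ := ENNReal.ofReal_le_ofReal (hC l)

theorem long_small (F : Law) : ∃ C c : ℝ, 0 < C ∧ 0 < c ∧ ∀ (n w : ℕ) (x y : ℤ),
    Sc (Kp F) n x y (fun c => if ∃ q ∈ c, w ≤ q.1 then 1 else 0) ≤
      ENNReal.ofReal (C * ((n : ℝ) + 1) ^ 2 * Real.exp (-c * w)) := by
  obtain ⟨C₁, hC0, hC⟩ := len_tail F
  refine ⟨C₁, F.a, hC0, F.a_pos, fun n w x y => ?_⟩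
  have hK0 : ∀ x z, Kp F x 0 z = 0 := by
    intro x z
    unfold Kp
    rw [F.f_zero, ENNReal.ofReal_zero, ite_self]
  have hg1 : ∀ (m : ℕ) (z z' : ℤ), G (Kp F) m z z' ≤ 1 := fun m z z' =>
    (g_mono (kp_le F) m z z').trans ((ENNReal.le_tsum z').trans (g_sum_le F m z))
  have hgs : ∀ (m : ℕ) (z : ℤ), ∑' z' : ℤ, G (Kp F) m z z' ≤ 1 := fun m z =>
    (ENNReal.tsum_le_tsum fun z' => g_mono (kp_le F) m z z').trans (g_sum_le F m z)
  have hterm : ∀ j l : ℕ, w ≤ l → (∑' z : ℤ, ∑' z' : ℤ,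
      if j + l ≤ n then Sc (Kp F) j x z (fun _ => 1) * Kp F z l z' *
        Sc (Kp F) (n - j - l) z' y (fun _ => 1) else 0) ≤
      ENNReal.ofReal (C₁ * Real.exp (-F.a * w)) := by
    intro j l hl
    have h1 : ENNReal.ofReal (C₁ * Real.exp (-F.a * l)) ≤ ENNReal.ofReal (C₁ * Real.exp (-F.a * w)) := by
      refine ENNReal.ofReal_le_ofReal (mul_le_mul_of_nonneg_left (Real.exp_le_exp.2 ?_) hC0.le)
      have h2 : (w : ℝ) ≤ l := by exact_mod_cast hl
      have h3 := mul_le_mul_of_nonneg_left h2 F.a_pos.le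
      linarith
    calc (∑' z : ℤ, ∑' z' : ℤ, if j + l ≤ n then Sc (Kp F) j x z (fun _ => 1) * Kp F z l z' *
          Sc (Kp F) (n - j - l) z' y (fun _ => 1) else 0)
        ≤ ∑' z : ℤ, ∑' z' : ℤ, G (Kp F) j x z * Kp F z l z' := by
          refine ENNReal.tsum_le_tsum fun z => ENNReal.tsum_le_tsum fun z' => ?_
          split_ifs
          · rw [sc_one _ hK0, sc_one _ hK0]
            exact mul_le_of_le_one_right' (hg1 _ _ _)
          · exact zero_le
      _ = ∑' z : ℤ, G (Kp F) j x z * ∑' z' : ℤ, Kp F z l z' := by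
          refine tsum_congr fun z => ?_
          rw [ENNReal.tsum_mul_left]
      _ ≤ ∑' z : ℤ, G (Kp F) j x z * ENNReal.ofReal (C₁ * Real.exp (-F.a * l)) :=
          ENNReal.tsum_le_tsum fun z => mul_le_mul_right (long_row26 F hC l z) _
      _ = (∑' z : ℤ, G (Kp F) j x z) * ENNReal.ofReal (C₁ * Real.exp (-F.a * l)) := by
          rw [ENNReal.tsum_mul_right]
      _ ≤ 1 * ENNReal.ofReal (C₁ * Real.exp (-F.a * l)) := mul_le_mul_left (hgs j x) _
      _ ≤ _ := by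
          rw [one_mul]
          exact h1
  refine (long_le (Kp F) w n x y).trans ?_
  calc _ ≤ ∑ _j ∈ Finset.range (n + 1), ∑ _l ∈ Finset.Icc w n, ENNReal.ofReal (C₁ * Real.exp (-F.a * w)) :=
        Finset.sum_le_sum fun j _ => Finset.sum_le_sum fun l hl => hterm j l (Finset.mem_Icc.1 hl).1
    _ ≤ ((n + 1 : ℕ) : ℝ≥0∞) * (((n + 1 : ℕ) : ℝ≥0∞) * ENNReal.ofReal (C₁ * Real.exp (-F.a * w))) := by
        rw [Finset.sum_const, Finset.sum_const, Finset.card_range, Nat.card_Icc, nsmul_eq_mul, nsmul_eq_mul]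
        gcongr
        exact Nat.sub_le _ _
    _ = ENNReal.ofReal (C₁ * ((n : ℝ) + 1) ^ 2 * Real.exp (-F.a * w)) := by
        rw [← ENNReal.ofReal_natCast, ← ENNReal.ofReal_mul (by positivity), ← ENNReal.ofReal_mul (by positivity)]
        congr 1
        push_cast
        ring

end Pool.Agent.Helper18.WK
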