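import Pool.Agent.Helper18.WK.Scl
import Pool.Agent.Helper18.WK.FeC
import Pool.Agent.Helper49.PL.Conv

/-!
# Project WK: identification of the limit with the Brownian excursion
-/

open Set Filter MeasureTheory

namespace Pool.Agent.Helper18.WK

open Pool.Agent.Helper49.RD Pool.Agent.Helper49.PL Pool.Agent.Helper49.FL JJ

private theorem ev_tm18 (f : C(TI, ℝ)) (t : TI) : ev f (t : ℝ) = f t := by
  unfold Pool.Agent.Helper49.PL.ev
  rw [projIcc_val]

private theorem ev_of18 (f : C(TI, ℝ)) {t : ℝ} (h : t ∈ Icc (-1 : ℝ) 1) : ev f t = f ⟨t, h⟩ := by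
  unfold Pool.Agent.Helper49.PL.ev
  rw [projIcc_of_mem _ h]

private theorem evm18 {p : ℕ} (s : Fin (p + 1) → ℝ) : Measurable fun (f : C(TI, ℝ)) i => ev f (s i) :=
  measurable_pi_lambda _ fun i => JJ.ev_meas (s i)

theorem joint_pos {g : ℝ} (hg : 0 < g) {μ : Measure C(TI, ℝ)} [IsProbabilityMeasure μ]
    (hμ : ∀ p : ℕ, 1 ≤ p → ∀ s b : Fin p → ℝ, StrictMono s → (∀ i, -1 < s i ∧ s i < 1) → (∀ i, b i ≠ 0) →
      μ.real {f | ∀ i, b i ≤ ev f (s i)} = Fe g p s (fun i z => ind (b i) z) / Fe g p s (fun _ _ => 1))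
    {p : ℕ} {s : Fin (p + 1) → ℝ} (hs : StrictMono s) (hs1 : ∀ i, -1 < s i ∧ s i < 1) :
    μ.map (fun f i => ev f (s i)) = (Dm g s univ)⁻¹ • Dm g s := by
  have : IsProbabilityMeasure (μ.map (fun f (i : Fin (p + 1)) => ev f (s i))) :=
    Measure.isProbabilityMeasure_map (evm18 s).aemeasurable
  obtain ⟨hu, hpos⟩ := JJ.dm_univ hg hs hs1
  have hu0 : Dm g s univ ≠ 0 := by
    rw [hu]
    exact (ENNReal.ofReal_pos.2 hpos).ne'
  have hu1 : Dm g s univ ≠ ⊤ := by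
    rw [hu]
    exact ENNReal.ofReal_ne_top
  refine box_ext2 ?_ ?_
  · rw [measure_univ, Measure.smul_apply, smul_eq_mul, ENNReal.inv_mul_cancel hu0 hu1]
  · intro b hb
    have hmeas : MeasurableSet {z : Fin (p + 1) → ℝ | ∀ i, b i ≤ z i} := by
      have : {z : Fin (p + 1) → ℝ | ∀ i, b i ≤ z i} = ⋂ i, {z | b i ≤ z i} := by
        ext z
        simp
      rw [this]
      exact MeasurableSet.iInter fun i => measurableSet_le measurable_const (measurable_pi_apply i)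
    rw [Measure.map_apply (evm18 s) hmeas, Measure.smul_apply, smul_eq_mul, (JJ.dm_box hg hs hs1 b).1, hu]
    have h1 := hμ (p + 1) (by omega) s b hs hs1 hb
    have h2 : (fun (f : C(TI, ℝ)) i => ev f (s i)) ⁻¹' {z : Fin (p + 1) → ℝ | ∀ i, b i ≤ z i} =
        {f | ∀ i, b i ≤ ev f (s i)} := rfl
    rw [h2]
    have h3 : μ {f : C(TI, ℝ) | ∀ i, b i ≤ ev f (s i)} = ENNReal.ofReal
        (Fe g (p + 1) s (fun i z => ind (b i) z) / Fe g (p + 1) s (fun _ _ => 1)) := by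
      rw [← h1, measureReal_def, ENNReal.ofReal_toReal (measure_ne_top _ _)]
    rw [h3, ENNReal.ofReal_div_of_pos hpos, mul_comm, ENNReal.div_eq_inv_mul, mul_comm]

theorem exc_pos {g : ℝ} (hg : 0 < g) {μ : Measure C(TI, ℝ)} [IsProbabilityMeasure μ]
    (hμ : ∀ p : ℕ, 1 ≤ p → ∀ s b : Fin p → ℝ, StrictMono s → (∀ i, -1 < s i ∧ s i < 1) → (∀ i, b i ≠ 0) →
      μ.real {f | ∀ i, b i ≤ ev f (s i)} = Fe g p s (fun i z => ind (b i) z) / Fe g p s (fun _ _ => 1)) :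
    IsExc (μ.map fun f => (Real.sqrt g)⁻¹ • f) := by
  have hsm : Continuous fun f : C(TI, ℝ) => (Real.sqrt g)⁻¹ • f := by fun_prop
  refine ⟨Measure.isProbabilityMeasure_map hsm.measurable.aemeasurable, fun p s hs h0 hl => ?_⟩
  have hs' : StrictMono fun i => (s i : ℝ) := fun i j hij => hs hij
  have hs1 : ∀ i, -1 < (s i : ℝ) ∧ (s i : ℝ) < 1 := fun i =>
    ⟨lt_of_lt_of_le h0 (hs.monotone (Fin.zero_le i)), lt_of_le_of_lt (hs.monotone (Fin.le_last i)) hl⟩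
  obtain ⟨c, -, -, hc⟩ := JJ.dm_scale hg hs' hs1
  refine ⟨(Dm g (fun i => (s i : ℝ)) univ)⁻¹ * c, ?_⟩
  have h3 : (fun (f : C(TI, ℝ)) i => f (s i)) = fun f i => ev f ((s i : ℝ)) := by
    funext f i
    exact (ev_tm18 f (s i)).symm
  have hsm2 : Measurable fun z : Fin (p + 1) → ℝ => (Real.sqrt g)⁻¹ • z := measurable_const_smul _
  rw [h3, Measure.map_map (evm18 _) hsm.measurable]
  have e1 : (fun (f : C(TI, ℝ)) i => ev f ((s i : ℝ))) ∘ (fun f => (Real.sqrt g)⁻¹ • f) =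
      (fun z : Fin (p + 1) → ℝ => (Real.sqrt g)⁻¹ • z) ∘ fun f i => ev f ((s i : ℝ)) := by
    funext f i
    rfl
  rw [e1, ← Measure.map_map hsm2 (evm18 _), joint_pos hg hμ hs' hs1, Measure.map_smul, hc, smul_smul]
  rfl

/-- From the sandwich of `PL.conv` to the equality. -/
theorem conv_eq {g : ℝ} (hg : 0 < g) {μ : Measure C(TI, ℝ)} [IsProbabilityMeasure μ]
    (hμ : ∀ p : ℕ, 1 ≤ p → ∀ s b : Fin p → ℝ, StrictMono s → (∀ i, -1 < s i ∧ s i < 1) → (∀ i, b i ≠ 0) →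
      μ.real {f | ∀ i, b i < ev f (s i)} ≤ Fe g p s (fun i z => ind (b i) z) / Fe g p s (fun _ _ => 1) ∧
        Fe g p s (fun i z => ind (b i) z) / Fe g p s (fun _ _ => 1) ≤ μ.real {f | ∀ i, b i ≤ ev f (s i)})
    {p : ℕ} (hp : 1 ≤ p) {s b : Fin p → ℝ} (hs : StrictMono s) (hs1 : ∀ i, -1 < s i ∧ s i < 1)
    (hb : ∀ i, b i ≠ 0) :
    μ.real {f | ∀ i, b i ≤ ev f (s i)} = Fe g p s (fun i z => ind (b i) z) / Fe g p s (fun _ _ => 1) := by
  refine le_antisymm ?_ (hμ p hp s b hs hs1 hb).2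
  have h1 : Tendsto (fun e : ℝ => Fe g p s (fun i z => ind (b i + e) z) / Fe g p s (fun _ _ => 1)) (nhds 0)
      (nhds (Fe g p s (fun i z => ind (b i) z) / Fe g p s (fun _ _ => 1))) :=
    (fe_cont hg hp hs hs1 b).1.div_const _
  have h2 := h1.mono_left (nhdsWithin_le_nhds (s := Iio (0 : ℝ)))
  refine ge_of_tendsto h2 ?_
  have h3 : ∀ᶠ e : ℝ in nhdsWithin 0 (Iio 0), ∀ i, b i + e ≠ 0 := by
    have : ∀ i, ∀ᶠ e : ℝ in nhds (0 : ℝ), b i + e ≠ 0 := by
      intro i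
      have hc : Tendsto (fun e : ℝ => b i + e) (nhds 0) (nhds (b i + 0)) := tendsto_const_nhds.add tendsto_id
      rw [add_zero] at hc
      exact hc.eventually (isOpen_ne.mem_nhds (hb i))
    exact (eventually_all.2 this).filter_mono nhdsWithin_le_nhds
  filter_upwards [h3, self_mem_nhdsWithin] with e he he0
  refine le_trans (measureReal_mono ?_) (hμ p hp s (fun i => b i + e) hs hs1 he).1
  intro f hf i
  have h4 : e < 0 := he0
  have h5 : b i ≤ ev f (s i) := hf i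
  show b i + e < ev f (s i)
  linarith

end Pool.Agent.Helper18.WK
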