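import Pool.Agent.Helper18.WK.LowH5
import Pool.Agent.Helper18.WK.LstC

/-!
# Project WK, block WK-F1: chains with a bad height at one of the two cuts

`three_phi` with `S = fun j _ => m ≤ j`, `S' = fun j _ => m' ≤ j` and the indicator on the right-hand side as `Φ`; the sums
over `(a, z)`, `(a', z')` of `Fst` are the sums over the stopped prefixes (`group_stp31`); `Φ (c₁ ++ (c₂ ++ rv y c₃)) = 1` if
`cl c₁ ≤ m + w`, `cl c₃ ≤ m' + w`, `A (ce x c₁)` (respectively `A (ce y c₃)`; `rv (ce y c₃) (rv y c₃) = c₃`); `sc_one`.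
-/

open scoped ENNReal Classical

namespace Pool.Agent.Helper18.WK

private theorem key86 (K : Ker) (hK : ∀ x z, K x 0 z = 0) {m m' w n : ℕ} (hn : m + m' + 2 * w ≤ n) (x y : ℤ)
    (A : ℤ → ℤ → Prop) (Φ : Ch → ℝ≥0∞)
    (hΦ : ∀ c₁ c₂ c₃ : Ch, Stp (fun j _ => m ≤ j) 0 x c₁ → cl c₁ ≤ m + w → Stp (fun j _ => m' ≤ j) 0 y c₃ →
      cl c₃ ≤ m' + w → ce (ce x c₁) c₂ = ce y c₃ → A (ce x c₁) (ce y c₃) → Φ (c₁ ++ (c₂ ++ rv y c₃)) = 1) :
    ∑ a ∈ Finset.Icc m (m + w), ∑' z : ℤ, ∑ a' ∈ Finset.Icc m' (m' + w), ∑' z' : ℤ,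
        (if A z z' then Fst K m x a z * G K (n - a - a') z z' * Fst (Kr K) m' y a' z' else 0) ≤
      Sc K n x y Φ := by
  have hKr : ∀ x z, Kr K x 0 z = 0 := fun x z => hK z x
  have h1 : (∑ a ∈ Finset.Icc m (m + w), ∑' z : ℤ, ∑ a' ∈ Finset.Icc m' (m' + w), ∑' z' : ℤ,
        (if A z z' then Fst K m x a z * G K (n - a - a') z z' * Fst (Kr K) m' y a' z' else 0)) =
      ∑ a ∈ Finset.Icc m (m + w), ∑' z : ℤ, Fst K m x a z * ∑' c₃ : Ch,
        (if Stp (fun j _ => m' ≤ j) 0 y c₃ ∧ cl c₃ ≤ m' + w then cw (Kr K) y c₃ *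
          (if A z (ce y c₃) then G K (n - a - cl c₃) z (ce y c₃) else 0) else 0) := by
    refine Finset.sum_congr rfl fun a _ => tsum_congr fun z => ?_
    rw [group_stp31 (Kr K) hKr m' (m' + w) y
      (fun a' z' => if A z z' then G K (n - a - a') z z' else 0), Finset.mul_sum]
    refine Finset.sum_congr rfl fun a' _ => ?_
    rw [← ENNReal.tsum_mul_left]
    refine tsum_congr fun z' => ?_
    by_cases h : A z z'
    · rw [if_pos h, if_pos h]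
      ring
    · rw [if_neg h, if_neg h, mul_zero, mul_zero]
  rw [h1, ← group_stp31 K hK m (m + w) x (fun a z => ∑' c₃ : Ch,
        (if Stp (fun j _ => m' ≤ j) 0 y c₃ ∧ cl c₃ ≤ m' + w then cw (Kr K) y c₃ *
          (if A z (ce y c₃) then G K (n - a - cl c₃) z (ce y c₃) else 0) else 0))]
  refine le_trans ?_ (three_phi K (fun j _ => m ≤ j) (fun j _ => m' ≤ j) n x y Φ)
  refine ENNReal.tsum_le_tsum fun c₁ => ?_
  by_cases hA : Stp (fun j _ => m ≤ j) 0 x c₁ ∧ cl c₁ ≤ m + w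
  · rw [if_pos hA, ← ENNReal.tsum_mul_left]
    refine ENNReal.tsum_le_tsum fun c₃ => ?_
    by_cases hB : Stp (fun j _ => m' ≤ j) 0 y c₃ ∧ cl c₃ ≤ m' + w
    · by_cases hC : A (ce x c₁) (ce y c₃)
      · have h2 : cl c₁ + cl c₃ ≤ n := by
          have e1 := hA.2
          have e2 := hB.2
          omega
        rw [if_pos hB, if_pos hC, if_pos ⟨hA.1, hB.1, h2⟩]
        have h3 : G K (n - cl c₁ - cl c₃) (ce x c₁) (ce y c₃) ≤
            Sc K (n - cl c₁ - cl c₃) (ce x c₁) (ce y c₃) (fun c₂ => Φ (c₁ ++ (c₂ ++ rv y c₃))) := by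
          rw [← sc_one K hK, Sc, Sc]
          refine ENNReal.tsum_le_tsum fun c₂ => ?_
          by_cases h4 : cl c₂ = n - cl c₁ - cl c₃ ∧ ce (ce x c₁) c₂ = ce y c₃
          · rw [if_pos h4, if_pos h4, hΦ c₁ c₂ c₃ hA.1 hA.2 hB.1 hB.2 h4.2 hC]
          · rw [if_neg h4]
            exact zero_le
        calc cw K x c₁ * (cw (Kr K) y c₃ * G K (n - cl c₁ - cl c₃) (ce x c₁) (ce y c₃))
            = cw K x c₁ * G K (n - cl c₁ - cl c₃) (ce x c₁) (ce y c₃) * cw (Kr K) y c₃ := by ring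
          _ ≤ _ := by gcongr
      · rw [if_pos hB, if_neg hC, mul_zero, mul_zero]
        exact zero_le
    · rw [if_neg hB, mul_zero]
      exact zero_le
  · rw [if_neg hA]
    exact zero_le

theorem mid_bad_left (K : Ker) (hK : ∀ x z, K x 0 z = 0) {m m' w n : ℕ} (hn : m + m' + 2 * w ≤ n) (x y : ℤ)
    (A : ℤ → Prop) :
    ∑ a ∈ Finset.Icc m (m + w), ∑' z : ℤ, ∑ a' ∈ Finset.Icc m' (m' + w), ∑' z' : ℤ,
        (if A z then Fst K m x a z * G K (n - a - a') z z' * Fst (Kr K) m' y a' z' else 0) ≤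
      Sc K n x y (fun c => if ∃ c₁ c₂ : Ch, c = c₁ ++ c₂ ∧ Stp (fun j _ => m ≤ j) 0 x c₁ ∧ cl c₁ ≤ m + w ∧
        A (ce x c₁) then 1 else 0) :=
  key86 K hK hn x y (fun z _ => A z) _ fun c₁ c₂ c₃ h1 h2 _ _ _ h6 =>
    if_pos ⟨c₁, c₂ ++ rv y c₃, rfl, h1, h2, h6⟩

theorem mid_bad_right (K : Ker) (hK : ∀ x z, K x 0 z = 0) {m m' w n : ℕ} (hn : m + m' + 2 * w ≤ n) (x y : ℤ)
    (A : ℤ → Prop) :
    ∑ a ∈ Finset.Icc m (m + w), ∑' z : ℤ, ∑ a' ∈ Finset.Icc m' (m' + w), ∑' z' : ℤ,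
        (if A z' then Fst K m x a z * G K (n - a - a') z z' * Fst (Kr K) m' y a' z' else 0) ≤
      Sc K n x y (fun c => if ∃ c₁ c₂ : Ch, c = c₁ ++ c₂ ∧ Stp (fun j _ => m' ≤ j) 0 y (rv (ce x c₁) c₂) ∧
        cl c₂ ≤ m' + w ∧ A (ce x c₁) then 1 else 0) := by
  refine key86 K hK hn x y (fun _ z' => A z') _ fun c₁ c₂ c₃ _ _ h3 h4 h5 h6 => if_pos ?_
  have h7 : ce x (c₁ ++ c₂) = ce y c₃ := by
    rw [ce_append, h5]
  refine ⟨c₁ ++ c₂, rv y c₃, by rw [List.append_assoc], ?_, ?_, ?_⟩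
  · rw [h7, rv_rv]
    exact h3
  · rw [cl_rv]
    exact h4
  · rw [h7]
    exact h6

end Pool.Agent.Helper18.WK
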