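import Pool.Agent.Helper18.WK.MmU

/-!
# Project WK, block WK-F2: the middle piece, uniformly

`mid_unif`: otherwise there are sequences (`ν_k ≥ k + 1`, `η = 1 / (k + 1)`) which violate it; by compactness of
`[δ', δ]²` a subsequence with `z / √ν → u`, `z' / √ν → v`. By `mm_llt_above` (list `List.ofFn`, `s = d`, `T = 2 - d`) and the
same for the empty list (`mm_nil`), `√ν Mm → Ik .. u / μ`, `√ν G → hk (s2 (2 - 2 d)) u v / μ > 0`: the ratio tends to a
number within `ε` of `ρ`: contradiction.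
-/

open scoped ENNReal Classical
open Set Filter

namespace Pool.Agent.Helper18.WK

private theorem inc3_ofFn17 : ∀ (p : ℕ) (f : Fin p → ℝ × ℝ) (r T : ℝ), r < T → (∀ i, r < (f i).1) →
    (∀ i, (f i).1 < T) → StrictMono (fun i => (f i).1) → Inc3 r (List.ofFn f) T := by
  intro p
  induction p with
  | zero =>
    intro f r T hr _ _ _
    rw [List.ofFn_zero]
    exact hr
  | succ p ih =>
    intro f r T hr h1 h2 h3
    rw [List.ofFn_succ]
    refine ⟨h1 0, ?_⟩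
    refine ih (fun i => f i.succ) _ T (h2 0) (fun i => ?_) (fun i => h2 _) ?_
    · exact h3 (Fin.succ_pos i)
    · intro i j hij
      exact h3 (Fin.succ_lt_succ_iff.2 hij)

private theorem forall_ofFn17 {α β : Type*} (R : α → β → Prop) : ∀ (p : ℕ) (f : Fin p → α) (g : Fin p → β),
    (∀ i, R (f i) (g i)) → List.Forall₂ R (List.ofFn f) (List.ofFn g) := by
  intro p
  induction p with
  | zero =>
    intro f g _
    rw [List.ofFn_zero, List.ofFn_zero]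
    exact List.Forall₂.nil
  | succ p ih =>
    intro f g h
    rw [List.ofFn_succ, List.ofFn_succ]
    exact List.Forall₂.cons (h 0) (ih _ _ fun i => h _)

private theorem hk_pos17 {w u v : ℝ} (hw : 0 < w) (hu : 0 < u) (hv : 0 < v) :
    0 < Pool.Agent.Helper49.RD.hk w u v := by
  unfold Pool.Agent.Helper49.RD.hk
  refine div_pos ?_ (Real.sqrt_pos.2 (by positivity))
  rw [sub_pos, Real.exp_lt_exp, neg_lt_neg_iff]
  refine div_lt_div_of_pos_right ?_ (by linarith)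
  nlinarith [mul_pos hu hv]

theorem mid_unif (F : Law) {κ Bt r : ℝ} (hB : 0 < Bt) (hr : 0 < r) {K : Ker}
    (hK : ∀ cap : ℕ, Above F κ Bt r cap K) {p : ℕ} {s b : Fin p → ℝ} (hs : StrictMono s)
    {d δ' δ ρ ε : ℝ} (hd : 0 < d) (hd1 : d < 1) (hds : ∀ i, -1 + d < s i ∧ s i < 1 - d) (hδ' : 0 < δ') (hδ : δ' ≤ δ)
    (hε : 0 < ε) (hlim : ∀ u v : ℝ, δ' ≤ u → u ≤ δ → δ' ≤ v → v ≤ δ →
      |Ik (s2 F) (2 - d) v d (List.ofFn fun i => (1 + s i, b i)) u /
        Pool.Agent.Helper49.RD.hk (s2 F * (2 - 2 * d)) u v - ρ| ≤ ε) :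
    ∃ (N : ℕ) (η : ℝ), 0 < η ∧ ∀ ν ≥ N, ∀ (L : ℕ) (τ : Fin p → ℕ) (β : Fin p → ℤ) (z z' : ℤ),
      |(L : ℝ) / ν - (2 - 2 * d)| ≤ η → (∀ i, |(τ i : ℝ) / ν - (1 + s i - d)| ≤ η) →
      (∀ i, |(β i : ℝ) / Real.sqrt ν - b i| ≤ η) → δ' * Real.sqrt ν ≤ z → (z : ℝ) ≤ δ * Real.sqrt ν →
      δ' * Real.sqrt ν ≤ z' → (z' : ℝ) ≤ δ * Real.sqrt ν →
        |(Mm K (List.ofFn fun i => (τ i, β i)) L z z').toReal - ρ * (G K L z z').toReal| ≤
          2 * ε * (G K L z z').toReal := by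
  by_contra hcon
  have h : ∀ k : ℕ, ∃ ν : ℕ, k + 1 ≤ ν ∧ ∃ (L : ℕ) (τ : Fin p → ℕ) (β : Fin p → ℤ) (z z' : ℤ),
      |(L : ℝ) / ν - (2 - 2 * d)| ≤ 1 / ((k : ℝ) + 1) ∧
      (∀ i, |(τ i : ℝ) / ν - (1 + s i - d)| ≤ 1 / ((k : ℝ) + 1)) ∧
      (∀ i, |(β i : ℝ) / Real.sqrt ν - b i| ≤ 1 / ((k : ℝ) + 1)) ∧ δ' * Real.sqrt ν ≤ z ∧ (z : ℝ) ≤ δ * Real.sqrt ν ∧
      δ' * Real.sqrt ν ≤ z' ∧ (z' : ℝ) ≤ δ * Real.sqrt ν ∧
        2 * ε * (G K L z z').toReal <
          |(Mm K (List.ofFn fun i => (τ i, β i)) L z z').toReal - ρ * (G K L z z').toReal| := by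
    intro k
    by_contra hk
    refine hcon ⟨k + 1, 1 / ((k : ℝ) + 1), by positivity, fun ν hν L τ β z z' a1 a2 a3 a4 a5 a6 a7 => ?_⟩
    by_contra ha
    exact hk ⟨ν, hν, L, τ, β, z, z', a1, a2, a3, a4, a5, a6, a7, not_le.1 ha⟩
  choose ν hν L τ β z z' h1 h2 h3 h4 h5 h6 h7 h8 using h
  have hν0 : ∀ k, 0 < Real.sqrt (ν k) := by
    intro k
    refine Real.sqrt_pos.2 ?_
    have := hν k
    exact_mod_cast (show 0 < ν k by omega)
  have hc : IsCompact (Icc δ' δ ×ˢ Icc δ' δ) := isCompact_Icc.prod isCompact_Icc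
  obtain ⟨⟨u, v⟩, huv, φ, hφ, hlimφ⟩ := hc.tendsto_subseq
    (x := fun k => ((z k : ℝ) / Real.sqrt (ν k), (z' k : ℝ) / Real.sqrt (ν k))) (fun k => by
      refine ⟨⟨?_, ?_⟩, ⟨?_, ?_⟩⟩
      · exact (le_div_iff₀ (hν0 k)).2 (h4 k)
      · exact (div_le_iff₀ (hν0 k)).2 (h5 k)
      · exact (le_div_iff₀ (hν0 k)).2 (h6 k)
      · exact (div_le_iff₀ (hν0 k)).2 (h7 k))
  obtain ⟨⟨hu1, hu2⟩, ⟨hv1, hv2⟩⟩ := huv
  have hu0 : 0 < u := lt_of_lt_of_le hδ' hu1
  have hv0 : 0 < v := lt_of_lt_of_le hδ' hv1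
  have hzu : Tendsto (fun k => (z (φ k) : ℝ) / Real.sqrt (ν (φ k))) atTop (nhds u) :=
    (continuous_fst.tendsto _).comp hlimφ
  have hzv : Tendsto (fun k => (z' (φ k) : ℝ) / Real.sqrt (ν (φ k))) atTop (nhds v) :=
    (continuous_snd.tendsto _).comp hlimφ
  have hνt : Tendsto ν atTop atTop := by
    refine tendsto_atTop_mono (fun k => ?_) (tendsto_add_atTop_nat 1)
    exact hν k
  have hνφ : Tendsto (fun k => ν (φ k)) atTop atTop := hνt.comp hφ.tendsto_atTop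
  have hone : Tendsto (fun k : ℕ => 1 / (((φ k : ℕ) : ℝ) + 1)) atTop (nhds 0) :=
    tendsto_one_div_add_atTop_nhds_zero_nat.comp hφ.tendsto_atTop
  have hto : ∀ {f : ℕ → ℝ} {a : ℝ}, (∀ k, |f (φ k) - a| ≤ 1 / (((φ k : ℕ) : ℝ) + 1)) →
      Tendsto (fun k => f (φ k)) atTop (nhds a) := by
    intro f a hf
    rw [tendsto_iff_norm_sub_tendsto_zero]
    exact squeeze_zero (fun k => norm_nonneg _) (fun k => hf k) hone
  have hLt : Tendsto (fun k => (L (φ k) : ℝ) / ν (φ k)) atTop (nhds (2 - d - d)) := by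
    have := hto (f := fun k => (L k : ℝ) / ν k) (fun k => h1 (φ k))
    rwa [show 2 - 2 * d = 2 - d - d by ring] at this
  have hinc : Inc3 d (List.ofFn fun i => (1 + s i, b i)) (2 - d) := by
    refine inc3_ofFn17 p _ d (2 - d) (by linarith) (fun i => ?_) (fun i => ?_) (fun i j hij => ?_)
    · have := (hds i).1
      show d < 1 + s i
      linarith
    · have := (hds i).2
      show 1 + s i < 2 - d
      linarith
    · have := hs hij
      show 1 + s i < 1 + s j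
      linarith
  have hinc0 : Inc3 d [] (2 - d) := by
    show d < 2 - d
    linarith
  have hM := mm_llt_above F hB hr hK (σ := List.ofFn fun i => ((fun k => τ (φ k) i), fun k => β (φ k) i))
    hνφ hLt hzu hu0 hzv hv0 (forall_ofFn17 _ p _ (fun i => (1 + s i, b i)) fun i => ⟨?_, ?_⟩) hinc
  rotate_left
  · exact hto (f := fun k => (τ k i : ℝ) / ν k) (fun k => h2 (φ k) i)
  · exact hto (f := fun k => (β k i : ℝ) / Real.sqrt (ν k)) (fun k => h3 (φ k) i)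
  have hG := mm_llt_above F hB hr hK (σ := []) hνφ hLt hzu hu0 hzv hv0 List.Forall₂.nil hinc0
  have hK0 : ∀ x z, K x 0 z = 0 := fun x z =>
    le_antisymm (((hK 0).le x 0 z).trans (kp_zero_m5 F x z).le) zero_le
  simp only [List.map_nil, mm_nil K hK0] at hG
  have hmap : ∀ k, ((List.ofFn fun i => ((fun k => τ (φ k) i), fun k => β (φ k) i)).map
      fun q : (ℕ → ℕ) × (ℕ → ℤ) => (q.1 k, q.2 k)) = List.ofFn fun i => (τ (φ k) i, β (φ k) i) := by
    intro k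
    rw [List.map_ofFn]
    rfl
  simp only [hmap] at hM
  have hIk0 : Ik (s2 F) (2 - d) v d [] u = Pool.Agent.Helper49.RD.hk (s2 F * (2 - 2 * d)) u v := by
    rw [Ik, show 2 - d - d = 2 - 2 * d by ring]
  rw [hIk0] at hG
  have hl := hlim u v hu1 hu2 hv1 hv2
  have hBpos : 0 < Pool.Agent.Helper49.RD.hk (s2 F * (2 - 2 * d)) u v :=
    hk_pos17 (mul_pos (s2_pos F) (by linarith)) hu0 hv0
  generalize Pool.Agent.Helper49.RD.hk (s2 F * (2 - 2 * d)) u v = B at hG hl hBpos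
  generalize Ik (s2 F) (2 - d) v d (List.ofFn fun i => (1 + s i, b i)) u = A at hM hl
  have hmu : 0 < mu F := lt_of_lt_of_le one_pos (mu_pos F)
  have hle : 2 * ε * (B / mu F) ≤ |A / mu F - ρ * (B / mu F)| := by
    refine le_of_tendsto_of_tendsto (hG.const_mul (2 * ε)) (hM.sub (hG.const_mul ρ)).abs
      (Eventually.of_forall fun k => ?_)
    have e1 := (h8 (φ k)).le
    have e2 := mul_le_mul_of_nonneg_left e1 (hν0 (φ k)).le
    have e5 : Real.sqrt (ν (φ k)) * (Mm K (List.ofFn fun i => (τ (φ k) i, β (φ k) i)) (L (φ k)) (z (φ k))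
        (z' (φ k))).toReal - ρ * (Real.sqrt (ν (φ k)) * (G K (L (φ k)) (z (φ k)) (z' (φ k))).toReal) =
        Real.sqrt (ν (φ k)) * ((Mm K (List.ofFn fun i => (τ (φ k) i, β (φ k) i)) (L (φ k)) (z (φ k))
        (z' (φ k))).toReal - ρ * (G K (L (φ k)) (z (φ k)) (z' (φ k))).toReal) := by ring
    beta_reduce
    rw [e5, abs_mul, abs_of_pos (hν0 (φ k))]
    calc _ = Real.sqrt (ν (φ k)) * (2 * ε * (G K (L (φ k)) (z (φ k)) (z' (φ k))).toReal) := by ring
      _ ≤ _ := e2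
  have e3 : A / mu F - ρ * (B / mu F) = (A / B - ρ) * (B / mu F) := by
    field_simp
  rw [e3, abs_mul, abs_of_pos (div_pos hBpos hmu)] at hle
  have e4 := le_of_mul_le_mul_right hle (div_pos hBpos hmu)
  linarith

end Pool.Agent.Helper18.WK
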