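import Pool.Agent.Helper18.WK.SplitB

/-!
# Project WK, block WK-S1: identities for chains (right recursion, straddling piece, reversal, symmetries)

All are inductions on the length (strong induction, `G_succ`, exchange of sums in `ℝ≥0∞`:
`ENNReal.tsum_comm`, `ENNReal.tsum_mul_left`, `Finset.sum_comm`-type reindexing of `Finset.sigma`).
`g_right`: right recursion. `fst_eq`: for `1 ≤ m ≤ a` the first cut at a length `≥ m` comes from the last
cut before `m`. `g_fst`: a chain of length `n ≥ m` is cut at its first cut `≥ m`. `g_straddle` = `g_fst` and
`fst_eq`.
-/

open scoped ENNReal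

namespace Pool.Agent.Helper18.WK

end Pool.Agent.Helper18.WK
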