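import Pool.Agent.Helper18.WK.LstD
import Pool.Agent.Helper18.WK.Split

/-!
# Project WK, block WK-F3 (auxiliary file): comparison of `Mm` and `G` through the middle part

`T62`: sum over the lengths and the heights at the two ends. `core62`: if `Mm ≈ ρ G` for the middle parts between good
heights, and the chains with a long piece or with a bad height are rare, then `Mm ≈ ρ G` for the whole chains.
`left62`, `right62`: the bad events, compared with the events of the file `Ends`.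
-/

open scoped ENNReal Classical

namespace Pool.Agent.Helper18.WK

/-- Sum over the lengths and the heights of the two ends. -/
noncomputable def T62 (m w : ℕ) (h : ℕ → ℤ → ℕ → ℤ → ℝ≥0∞) : ℝ≥0∞ :=
  ∑ a ∈ Finset.Icc m (m + w), ∑' z : ℤ, ∑ a' ∈ Finset.Icc m (m + w), ∑' z' : ℤ, h a z a' z'

theorem T62_mono {m w : ℕ} {h h' : ℕ → ℤ → ℕ → ℤ → ℝ≥0∞}
    (H : ∀ a ∈ Finset.Icc m (m + w), ∀ z, ∀ a' ∈ Finset.Icc m (m + w), ∀ z', h a z a' z' ≤ h' a z a' z') :
    T62 m w h ≤ T62 m w h' :=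
  Finset.sum_le_sum fun a ha => ENNReal.tsum_le_tsum fun z => Finset.sum_le_sum fun a' ha' =>
    ENNReal.tsum_le_tsum fun z' => H a ha z a' ha' z'

theorem T62_add (m w : ℕ) (h h' : ℕ → ℤ → ℕ → ℤ → ℝ≥0∞) :
    T62 m w (fun a z a' z' => h a z a' z' + h' a z a' z') = T62 m w h + T62 m w h' := by
  unfold T62
  rw [← Finset.sum_add_distrib]
  refine Finset.sum_congr rfl fun a _ => ?_
  rw [← ENNReal.tsum_add]
  refine tsum_congr fun z => ?_
  rw [← Finset.sum_add_distrib]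
  refine Finset.sum_congr rfl fun a' _ => ?_
  rw [← ENNReal.tsum_add]

theorem T62_mul (m w : ℕ) (c : ℝ≥0∞) (h : ℕ → ℤ → ℕ → ℤ → ℝ≥0∞) :
    T62 m w (fun a z a' z' => c * h a z a' z') = c * T62 m w h := by
  unfold T62
  rw [Finset.mul_sum]
  refine Finset.sum_congr rfl fun a _ => ?_
  rw [← ENNReal.tsum_mul_left]
  refine tsum_congr fun z => ?_
  rw [Finset.mul_sum]
  refine Finset.sum_congr rfl fun a' _ => ?_
  rw [← ENNReal.tsum_mul_left]

theorem mm_le_g62 (K : Ker) (hK : ∀ x z, K x 0 z = 0) (S : List (ℕ × ℤ)) (n : ℕ) (x y : ℤ) :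
    Mm K S n x y ≤ G K n x y := by
  rw [← sc_one K hK]
  refine sc_mono (fun _ _ _ => le_rfl) (fun c => ?_) n x y
  split_ifs
  · exact le_rfl
  · exact zero_le

theorem core62 (K : Ker) (hK : ∀ x z, K x 0 z = 0) (hfin : ∀ n x y, G K n x y ≠ ⊤) {m w n : ℕ}
    {S : List (ℕ × ℤ)} (hn : m + m + 2 * w ≤ n) (hS : ∀ q ∈ S, m + w ≤ q.1 ∧ q.1 + m + w ≤ n) {x y : ℤ}
    {ρ ε : ℝ} (hρ : 0 ≤ ρ) (hε : 0 ≤ ε) {A : ℤ → Prop}
    (hgood : ∀ a ∈ Finset.Icc m (m + w), ∀ a' ∈ Finset.Icc m (m + w), ∀ z z' : ℤ, ¬ A z → ¬ A z' →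
      |(Mm K (S.map fun q => (q.1 - a, q.2)) (n - a - a') z z').toReal -
        ρ * (G K (n - a - a') z z').toReal| ≤ 2 * ε * (G K (n - a - a') z z').toReal)
    (hlong : Sc K n x y (fun c => if ∃ q ∈ c, w < q.1 then 1 else 0) ≤ ENNReal.ofReal ε * G K n x y)
    (hbl : T62 m w (fun a z a' z' =>
      if A z then Fst K m x a z * G K (n - a - a') z z' * Fst (Kr K) m y a' z' else 0) ≤
        ENNReal.ofReal (2 * ε) * G K n x y)
    (hbr : T62 m w (fun a z a' z' =>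
      if A z' then Fst K m x a z * G K (n - a - a') z z' * Fst (Kr K) m y a' z' else 0) ≤
        ENNReal.ofReal (2 * ε) * G K n x y)
    (hpos : 0 < G K n x y) :
    |(Mm K S n x y).toReal / (G K n x y).toReal - ρ| ≤ (7 + 5 * ρ) * ε := by
  have hMfin : ∀ S n x y, Mm K S n x y ≠ ⊤ := fun S n x y =>
    ne_top_of_le_ne_top (hfin n x y) (mm_le_g62 K hK S n x y)
  obtain ⟨X, hX⟩ : ∃ X : ℕ → ℤ → ℝ≥0∞, X = fun a z => Fst K m x a z := ⟨_, rfl⟩
  obtain ⟨Z, hZ⟩ : ∃ Z : ℕ → ℤ → ℝ≥0∞, Z = fun a z => Fst (Kr K) m y a z := ⟨_, rfl⟩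
  obtain ⟨Y, hY⟩ : ∃ Y : ℕ → ℤ → ℕ → ℤ → ℝ≥0∞, Y = fun a z a' z' => G K (n - a - a') z z' := ⟨_, rfl⟩
  obtain ⟨W, hW⟩ : ∃ W : ℕ → ℤ → ℕ → ℤ → ℝ≥0∞, W = fun a z a' z' =>
    Mm K (S.map fun q => (q.1 - a, q.2)) (n - a - a') z z' := ⟨_, rfl⟩
  have hYfin : ∀ a z a' z', Y a z a' z' ≠ ⊤ := fun a z a' z' => by
    rw [hY]
    exact hfin _ _ _
  have hWfin : ∀ a z a' z', W a z a' z' ≠ ⊤ := fun a z a' z' => by
    rw [hW]
    exact hMfin _ _ _ _
  have hWY : ∀ a z a' z', W a z a' z' ≤ Y a z a' z' := fun a z a' z' => by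
    rw [hW, hY]
    exact mm_le_g62 K hK _ _ _ _
  have hg : ∀ a ∈ Finset.Icc m (m + w), ∀ a' ∈ Finset.Icc m (m + w), ∀ z z' : ℤ, ¬ A z → ¬ A z' →
      |(W a z a' z').toReal - ρ * (Y a z a' z').toReal| ≤ 2 * ε * (Y a z a' z').toReal := by
    intro a ha a' ha' z z' hz hz'
    rw [hW, hY]
    exact hgood a ha a' ha' z z' hz hz'
  -- the sums
  have s1 : Mm K S n x y ≤ Sc K n x y (fun c => if ∃ q ∈ c, w < q.1 then 1 else 0) +
      T62 m w (fun a z a' z' => X a z * W a z a' z' * Z a' z') := by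
    rw [hX, hW, hZ]
    exact mm_mid_le K hK hn hS x y
  have s2 : T62 m w (fun a z a' z' => X a z * W a z a' z' * Z a' z') ≤ Mm K S n x y := by
    rw [hX, hW, hZ]
    exact le_mm_mid K hK hn hS x y
  have hnil : ∀ q ∈ ([] : List (ℕ × ℤ)), m + w ≤ q.1 ∧ q.1 + m + w ≤ n := fun q hq => by cases hq
  have s3 : G K n x y ≤ Sc K n x y (fun c => if ∃ q ∈ c, w < q.1 then 1 else 0) +
      T62 m w (fun a z a' z' => X a z * Y a z a' z' * Z a' z') := by
    have h := mm_mid_le K hK hn hnil x y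
    rw [mm_nil K hK] at h
    rw [hX, hY, hZ]
    refine h.trans (le_of_eq ?_)
    unfold T62
    simp only [List.map_nil, mm_nil K hK]
  have s4 : T62 m w (fun a z a' z' => X a z * Y a z a' z' * Z a' z') ≤ G K n x y := by
    have h := le_mm_mid K hK hn hnil x y
    rw [mm_nil K hK] at h
    rw [hX, hY, hZ]
    refine le_of_eq_of_le ?_ h
    unfold T62
    simp only [List.map_nil, mm_nil K hK]
  have b1 : T62 m w (fun a z a' z' => if A z then X a z * Y a z a' z' * Z a' z' else 0) ≤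
      ENNReal.ofReal (2 * ε) * G K n x y := by
    rw [hX, hY, hZ]
    exact hbl
  have b2 : T62 m w (fun a z a' z' => if A z' then X a z * Y a z a' z' * Z a' z' else 0) ≤
      ENNReal.ofReal (2 * ε) * G K n x y := by
    rw [hX, hY, hZ]
    exact hbr
  clear hbl hbr hgood
  -- pointwise bounds
  have p1 : ∀ a ∈ Finset.Icc m (m + w), ∀ z, ∀ a' ∈ Finset.Icc m (m + w), ∀ z',
      X a z * W a z a' z' * Z a' z' ≤ ENNReal.ofReal (ρ + 2 * ε) * (X a z * Y a z a' z' * Z a' z') +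
        ((if A z then X a z * Y a z a' z' * Z a' z' else 0) +
          (if A z' then X a z * Y a z a' z' * Z a' z' else 0)) := by
    intro a ha z a' ha' z'
    have hm : X a z * W a z a' z' * Z a' z' ≤ X a z * Y a z a' z' * Z a' z' :=
      mul_le_mul' (mul_le_mul' le_rfl (hWY a z a' z')) le_rfl
    by_cases hz : A z
    · rw [if_pos hz]
      exact hm.trans (le_self_add.trans le_add_self)
    · by_cases hz' : A z'
      · rw [if_pos hz']
        exact hm.trans (le_add_self.trans le_add_self)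
      · refine le_trans ?_ le_self_add
        have h1 := (abs_le.1 (hg a ha a' ha' z z' hz hz')).2
        have h2 : W a z a' z' ≤ ENNReal.ofReal (ρ + 2 * ε) * Y a z a' z' := by
          rw [← ENNReal.ofReal_toReal (hWfin a z a' z'), ← ENNReal.ofReal_toReal (hYfin a z a' z'),
            ← ENNReal.ofReal_mul (by positivity)]
          exact ENNReal.ofReal_le_ofReal (by linarith)
        calc X a z * W a z a' z' * Z a' z' ≤ X a z * (ENNReal.ofReal (ρ + 2 * ε) * Y a z a' z') * Z a' z' :=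
              mul_le_mul' (mul_le_mul' le_rfl h2) le_rfl
          _ = _ := by ring
  have p2 : ∀ a ∈ Finset.Icc m (m + w), ∀ z, ∀ a' ∈ Finset.Icc m (m + w), ∀ z',
      ENNReal.ofReal ρ * (X a z * Y a z a' z' * Z a' z') ≤ X a z * W a z a' z' * Z a' z' +
        (ENNReal.ofReal (2 * ε) * (X a z * Y a z a' z' * Z a' z') +
          ENNReal.ofReal ρ * ((if A z then X a z * Y a z a' z' * Z a' z' else 0) +
          (if A z' then X a z * Y a z a' z' * Z a' z' else 0))) := by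
    intro a ha z a' ha' z'
    by_cases hz : A z
    · rw [if_pos hz]
      refine le_trans ?_ (le_add_self.trans le_add_self)
      exact mul_le_mul' le_rfl le_self_add
    · by_cases hz' : A z'
      · rw [if_pos hz']
        refine le_trans ?_ (le_add_self.trans le_add_self)
        exact mul_le_mul' le_rfl le_add_self
      · have h1 := (abs_le.1 (hg a ha a' ha' z z' hz hz')).1
        have h2 : ENNReal.ofReal ρ * Y a z a' z' ≤ W a z a' z' + ENNReal.ofReal (2 * ε) * Y a z a' z' := by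
          have h3 : (0 : ℝ) ≤ (Y a z a' z').toReal := ENNReal.toReal_nonneg
          rw [← ENNReal.ofReal_toReal (hWfin a z a' z'), ← ENNReal.ofReal_toReal (hYfin a z a' z'),
            ← ENNReal.ofReal_mul hρ, ← ENNReal.ofReal_mul (by positivity),
            ← ENNReal.ofReal_add ENNReal.toReal_nonneg (by positivity)]
          exact ENNReal.ofReal_le_ofReal (by linarith)
        calc ENNReal.ofReal ρ * (X a z * Y a z a' z' * Z a' z')
            = X a z * (ENNReal.ofReal ρ * Y a z a' z') * Z a' z' := by ring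
          _ ≤ X a z * (W a z a' z' + ENNReal.ofReal (2 * ε) * Y a z a' z') * Z a' z' :=
              mul_le_mul' (mul_le_mul' le_rfl h2) le_rfl
          _ = X a z * W a z a' z' * Z a' z' + (ENNReal.ofReal (2 * ε) * (X a z * Y a z a' z' * Z a' z')) := by
              ring
          _ ≤ _ := by
              gcongr
              exact le_self_add
  obtain ⟨g, hgdef⟩ : ∃ g, g = G K n x y := ⟨_, rfl⟩
  obtain ⟨M, hMdef⟩ : ∃ M, M = Mm K S n x y := ⟨_, rfl⟩
  have hgfin : g ≠ ⊤ := hgdef ▸ hfin n x y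
  have hMf : M ≠ ⊤ := hMdef ▸ hMfin S n x y
  rw [← hgdef] at hlong b1 b2 s3 s4 hpos ⊢
  rw [← hMdef] at s1 s2 ⊢
  -- upper bound
  have u1 : M ≤ ENNReal.ofReal (ρ + 7 * ε) * g := by
    calc M ≤ ENNReal.ofReal ε * g + T62 m w (fun a z a' z' => X a z * W a z a' z' * Z a' z') :=
          s1.trans (add_le_add hlong le_rfl)
      _ ≤ ENNReal.ofReal ε * g + T62 m w (fun a z a' z' =>
            ENNReal.ofReal (ρ + 2 * ε) * (X a z * Y a z a' z' * Z a' z') +
            ((if A z then X a z * Y a z a' z' * Z a' z' else 0) +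
              (if A z' then X a z * Y a z a' z' * Z a' z' else 0))) := add_le_add le_rfl (T62_mono p1)
      _ = ENNReal.ofReal ε * g + (ENNReal.ofReal (ρ + 2 * ε) *
            T62 m w (fun a z a' z' => X a z * Y a z a' z' * Z a' z') +
            (T62 m w (fun a z a' z' => if A z then X a z * Y a z a' z' * Z a' z' else 0) +
              T62 m w (fun a z a' z' => if A z' then X a z * Y a z a' z' * Z a' z' else 0))) := by
          rw [T62_add, T62_add, T62_mul]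
      _ ≤ ENNReal.ofReal ε * g + (ENNReal.ofReal (ρ + 2 * ε) * g +
            (ENNReal.ofReal (2 * ε) * g + ENNReal.ofReal (2 * ε) * g)) := by
          gcongr
      _ = ENNReal.ofReal (ρ + 7 * ε) * g := by
          rw [← add_mul, ← add_mul, ← add_mul, ← ENNReal.ofReal_add (by positivity) (by positivity),
            ← ENNReal.ofReal_add (by positivity) (by positivity),
            ← ENNReal.ofReal_add (by positivity) (by positivity)]
          congr 2
          ring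
  have l1 : ENNReal.ofReal ρ * g ≤ M + ENNReal.ofReal (2 * ε + 5 * ρ * ε) * g := by
    calc ENNReal.ofReal ρ * g ≤ ENNReal.ofReal ρ * (ENNReal.ofReal ε * g +
            T62 m w (fun a z a' z' => X a z * Y a z a' z' * Z a' z')) :=
          mul_le_mul' le_rfl (s3.trans (add_le_add hlong le_rfl))
      _ = ENNReal.ofReal ρ * (ENNReal.ofReal ε * g) +
            T62 m w (fun a z a' z' => ENNReal.ofReal ρ * (X a z * Y a z a' z' * Z a' z')) := by
          rw [mul_add, T62_mul]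
      _ ≤ ENNReal.ofReal ρ * (ENNReal.ofReal ε * g) +
            T62 m w (fun a z a' z' => X a z * W a z a' z' * Z a' z' +
        (ENNReal.ofReal (2 * ε) * (X a z * Y a z a' z' * Z a' z') +
          ENNReal.ofReal ρ * ((if A z then X a z * Y a z a' z' * Z a' z' else 0) +
          (if A z' then X a z * Y a z a' z' * Z a' z' else 0)))) := add_le_add le_rfl (T62_mono p2)
      _ = ENNReal.ofReal ρ * (ENNReal.ofReal ε * g) +
            (T62 m w (fun a z a' z' => X a z * W a z a' z' * Z a' z') +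
            (ENNReal.ofReal (2 * ε) * T62 m w (fun a z a' z' => X a z * Y a z a' z' * Z a' z') +
              ENNReal.ofReal ρ * (T62 m w (fun a z a' z' => if A z then X a z * Y a z a' z' * Z a' z' else 0) +
              T62 m w (fun a z a' z' => if A z' then X a z * Y a z a' z' * Z a' z' else 0)))) := by
          rw [T62_add, T62_add, T62_mul, T62_mul, T62_add]
      _ ≤ ENNReal.ofReal ρ * (ENNReal.ofReal ε * g) + (M + (ENNReal.ofReal (2 * ε) * g +
            ENNReal.ofReal ρ * (ENNReal.ofReal (2 * ε) * g + ENNReal.ofReal (2 * ε) * g))) := by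
          gcongr
      _ = M + (ENNReal.ofReal ρ * ENNReal.ofReal ε + (ENNReal.ofReal (2 * ε) +
            ENNReal.ofReal ρ * (ENNReal.ofReal (2 * ε) + ENNReal.ofReal (2 * ε)))) * g := by ring
      _ = M + ENNReal.ofReal (2 * ε + 5 * ρ * ε) * g := by
          rw [← ENNReal.ofReal_add (by positivity) (by positivity), ← ENNReal.ofReal_mul hρ,
            ← ENNReal.ofReal_mul hρ, ← ENNReal.ofReal_add (by positivity) (by positivity),
            ← ENNReal.ofReal_add (by positivity) (by positivity)]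
          congr 3
          ring
  have hg0 : 0 < g.toReal := ENNReal.toReal_pos hpos.ne' hgfin
  have u2 : M.toReal ≤ (ρ + 7 * ε) * g.toReal := by
    have h := ENNReal.toReal_mono (ENNReal.mul_ne_top ENNReal.ofReal_ne_top hgfin) u1
    rwa [ENNReal.toReal_mul, ENNReal.toReal_ofReal (by positivity)] at h
  have l2 : ρ * g.toReal ≤ M.toReal + (2 * ε + 5 * ρ * ε) * g.toReal := by
    have h := ENNReal.toReal_mono (ENNReal.add_ne_top.2
      ⟨hMf, ENNReal.mul_ne_top ENNReal.ofReal_ne_top hgfin⟩) l1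
    rwa [ENNReal.toReal_add hMf (ENNReal.mul_ne_top ENNReal.ofReal_ne_top hgfin), ENNReal.toReal_mul,
      ENNReal.toReal_mul, ENNReal.toReal_ofReal hρ, ENNReal.toReal_ofReal (by positivity)] at h
  have hρε : 0 ≤ ρ * ε := mul_nonneg hρ hε
  rw [abs_le]
  constructor
  · rw [neg_le_sub_iff_le_add, ← sub_le_iff_le_add, le_div_iff₀ hg0]
    nlinarith
  · rw [sub_le_iff_le_add, div_le_iff₀ hg0]
    nlinarith

theorem kr62 (F : Law) : Kr (Kp F) = Kp F := by
  funext x l z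
  unfold Kr Kp
  by_cases h : 1 ≤ x ∧ 1 ≤ z
  · rw [if_pos h, if_pos h.symm, ← F.f_symm l (z - x)]
    congr 2
    ring
  · rw [if_neg h, if_neg fun h' => h h'.symm]

theorem sc_mono62 {K K' : Ker} (h : ∀ x l z, K x l z ≤ K' x l z) {Φ Ψ : Ch → ℝ≥0∞} {n : ℕ} {x y : ℤ}
    (hΦ : ∀ c, cl c = n → ce x c = y → Φ c ≤ Ψ c) : Sc K n x y Φ ≤ Sc K' n x y Ψ := by
  refine ENNReal.tsum_le_tsum fun c => ?_
  by_cases hc : cl c = n ∧ ce x c = y
  · rw [if_pos hc, if_pos hc]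
    exact mul_le_mul' (cw_mono h x c) (hΦ c hc.1 hc.2)
  · rw [if_neg hc, if_neg hc]

theorem sc_add62 (K : Ker) (n : ℕ) (x y : ℤ) (Φ Ψ : Ch → ℝ≥0∞) :
    Sc K n x y (fun c => Φ c + Ψ c) = Sc K n x y Φ + Sc K n x y Ψ := by
  unfold Sc
  rw [← ENNReal.tsum_add]
  refine tsum_congr fun c => ?_
  by_cases hc : cl c = n ∧ ce x c = y
  · rw [if_pos hc, if_pos hc, if_pos hc, mul_add]
  · rw [if_neg hc, if_neg hc, if_neg hc, add_zero]

/-- height of the first cut at a position `≥ m` of a chain with a stopped prefix -/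
theorem hgt_stp62 {m : ℕ} {x : ℤ} {c₁ : Ch} (h : Stp (fun j _ => m ≤ j) 0 x c₁) (c₂ : Ch) :
    hgt m x (c₁ ++ c₂) = ce x c₁ := by
  have h1 := stp_cl31 c₁ 0 x h
  rw [hgt_stp le_rfl h, show m - cl c₁ = 0 by omega, hgt_zero31]

theorem left62 {F : Law} {K : Ker} (h : ∀ x l z, K x l z ≤ Kp F x l z) {m w n : ℕ} {x y : ℤ}
    {A : ℤ → Prop} {lo hi e₁ e₂ D : ℝ} (hA : ∀ z : ℤ, A z → (z : ℝ) < lo ∨ hi < z) (h1 : lo ≤ e₁)
    (h2 : e₂ ≤ hi) (hD : (m : ℝ) + w ≤ D) :
    Sc K n x y (fun c => if ∃ c₁ c₂ : Ch, c = c₁ ++ c₂ ∧ Stp (fun j _ => m ≤ j) 0 x c₁ ∧ cl c₁ ≤ m + w ∧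
        A (ce x c₁) then 1 else 0) ≤
      Sc (Kp F) n x y (fun c => if (hgt m x c : ℝ) ≤ e₁ then 1 else 0) +
      Sc (Kp F) n x y (fun c => if ∃ c₁ c₂ : Ch, c = c₁ ++ c₂ ∧ (cl c₁ : ℝ) ≤ D ∧
        e₂ ≤ ce x c₁ then 1 else 0) := by
  rw [← sc_add62]
  refine sc_mono62 h fun c _ _ => ?_
  beta_reduce
  by_cases hc : ∃ c₁ c₂ : Ch, c = c₁ ++ c₂ ∧ Stp (fun j _ => m ≤ j) 0 x c₁ ∧ cl c₁ ≤ m + w ∧ A (ce x c₁)
  · rw [if_pos hc]
    obtain ⟨c₁, c₂, e, hs, hl, hAc⟩ := hc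
    rcases hA _ hAc with h3 | h3
    · refine le_trans ?_ le_self_add
      rw [if_pos]
      rw [e, hgt_stp62 hs]
      exact h3.le.trans h1
    · refine le_trans ?_ le_add_self
      rw [if_pos]
      refine ⟨c₁, c₂, e, ?_, h2.trans h3.le⟩
      have h4 : ((cl c₁ : ℕ) : ℝ) ≤ ((m + w : ℕ) : ℝ) := by exact_mod_cast hl
      push_cast at h4
      exact h4.trans hD
  · rw [if_neg hc]
    exact zero_le

theorem right62 {F : Law} {K : Ker} (h : ∀ x l z, K x l z ≤ Kp F x l z) {m w n : ℕ} {x y : ℤ}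
    {A : ℤ → Prop} {lo hi e₁ e₂ D : ℝ} (hA : ∀ z : ℤ, A z → (z : ℝ) < lo ∨ hi < z) (h1 : lo ≤ e₁)
    (h2 : e₂ ≤ hi) (hD : (m : ℝ) + w ≤ D) :
    Sc K n x y (fun c => if ∃ c₁ c₂ : Ch, c = c₁ ++ c₂ ∧ Stp (fun j _ => m ≤ j) 0 y (rv (ce x c₁) c₂) ∧
        cl c₂ ≤ m + w ∧ A (ce x c₁) then 1 else 0) ≤
      Sc (Kp F) n y x (fun c => if (hgt m y c : ℝ) ≤ e₁ then 1 else 0) +
      Sc (Kp F) n x y (fun c => if ∃ c₁ c₂ : Ch, c = c₁ ++ c₂ ∧ (cl c₂ : ℝ) ≤ D ∧
        e₂ ≤ ce x c₁ then 1 else 0) := by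
  rw [sc_rev (Kp F) n y x, kr62, ← sc_add62]
  refine sc_mono62 h fun c _ hcy => ?_
  beta_reduce
  by_cases hc : ∃ c₁ c₂ : Ch, c = c₁ ++ c₂ ∧ Stp (fun j _ => m ≤ j) 0 y (rv (ce x c₁) c₂) ∧
      cl c₂ ≤ m + w ∧ A (ce x c₁)
  · rw [if_pos hc]
    obtain ⟨c₁, c₂, e, hs, hl, hAc⟩ := hc
    rcases hA _ hAc with h3 | h3
    · refine le_trans ?_ le_self_add
      rw [if_pos]
      have h4 : ce (ce x c₁) c₂ = y := by rw [← ce_append, ← e, hcy]
      have h5 := ce_rv (ce x c₁) c₂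
      rw [h4] at h5
      rw [e, rv_append, hgt_stp62 hs, h5]
      exact h3.le.trans h1
    · refine le_trans ?_ le_add_self
      rw [if_pos]
      refine ⟨c₁, c₂, e, ?_, h2.trans h3.le⟩
      have h4 : ((cl c₂ : ℕ) : ℝ) ≤ ((m + w : ℕ) : ℝ) := by exact_mod_cast hl
      push_cast at h4
      exact h4.trans hD
  · rw [if_neg hc]
    exact zero_le

theorem theta62 {p : ℕ} {s : Fin p → ℝ} (hs1 : ∀ i, -1 < s i ∧ s i < 1) :
    ∃ θ : ℝ, 0 < θ ∧ ∀ i, θ < 1 + s i ∧ θ < 1 - s i := by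
  have h : ∀ i, ∀ᶠ θ : ℝ in nhdsWithin 0 (Set.Ioi 0), θ < 1 + s i ∧ θ < 1 - s i := by
    intro i
    have h1 : (0 : ℝ) < min (1 + s i) (1 - s i) := lt_min (by linarith [(hs1 i).1]) (by linarith [(hs1 i).2])
    filter_upwards [Ioo_mem_nhdsGT h1] with θ hθ
    exact ⟨hθ.2.trans_le (min_le_left _ _), hθ.2.trans_le (min_le_right _ _)⟩
  have h2 := (Filter.eventually_all.2 h).and (self_mem_nhdsWithin : Set.Ioi (0 : ℝ) ∈ nhdsWithin 0 (Set.Ioi 0))
  obtain ⟨θ, h3, h4⟩ := h2.exists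
  exact ⟨θ, h4, h3⟩

theorem long62 {C c e : ℝ} (hC : 0 < C) (hc : 0 < c) (he : 0 < e) : ∃ N : ℕ, ∀ ν ≥ N, ∀ n w : ℕ, 1 ≤ n →
    (n : ℝ) ≤ 3 * ν → Real.sqrt ν ≤ w → C * ((n : ℝ) + 1) ^ 2 * Real.exp (-c * w) ≤ e / (n * Real.sqrt n) := by
  have h1 : Filter.Tendsto (fun ν : ℕ => (c * Real.sqrt ν) ^ 8 * Real.exp (-(c * Real.sqrt ν)))
      Filter.atTop (nhds 0) := by
    refine (Real.tendsto_pow_mul_exp_neg_atTop_nhds_zero 8).comp ?_
    exact (Real.tendsto_sqrt_atTop.comp tendsto_natCast_atTop_atTop).const_mul_atTop hc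
  have h2 : ∀ᶠ ν : ℕ in Filter.atTop,
      (c * Real.sqrt ν) ^ 8 * Real.exp (-(c * Real.sqrt ν)) < e * c ^ 8 / (256 * C) :=
    h1.eventually (gt_mem_nhds (by positivity))
  obtain ⟨N, hN⟩ := Filter.eventually_atTop.1 h2
  refine ⟨max N 1, fun ν hν n w hn hnν hw => ?_⟩
  have h3 := hN ν (le_trans (le_max_left _ _) hν)
  have hν1 : (1 : ℝ) ≤ ν := by exact_mod_cast le_trans (le_max_right N 1) hν
  have hn1 : (1 : ℝ) ≤ n := by exact_mod_cast hn
  have hs := Real.sq_sqrt (show (0 : ℝ) ≤ ν by linarith)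
  have h4 : (n : ℝ) * Real.sqrt n ≤ ((n : ℝ) + 1) ^ 2 := by
    have h5 : Real.sqrt n ≤ n := by
      rw [Real.sqrt_le_left (by linarith)]
      nlinarith
    nlinarith
  rw [le_div_iff₀ (by positivity)]
  have h5 : Real.exp (-c * w) ≤ Real.exp (-(c * Real.sqrt ν)) := by
    refine Real.exp_le_exp.2 ?_
    have := mul_le_mul_of_nonneg_left hw hc.le
    linarith
  have h6 : ((n : ℝ) + 1) ^ 4 ≤ (4 * ν) ^ 4 := pow_le_pow_left₀ (by linarith) (by linarith) 4
  have h7 : (4 * (ν : ℝ)) ^ 4 = 256 * Real.sqrt ν ^ 8 := by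
    calc (4 * (ν : ℝ)) ^ 4 = 256 * ((ν : ℝ)) ^ 4 := by ring
      _ = 256 * (Real.sqrt ν ^ 2) ^ 4 := by rw [hs]
      _ = _ := by ring
  calc C * ((n : ℝ) + 1) ^ 2 * Real.exp (-c * w) * (n * Real.sqrt n)
      ≤ C * ((n : ℝ) + 1) ^ 2 * Real.exp (-c * w) * ((n : ℝ) + 1) ^ 2 :=
        mul_le_mul_of_nonneg_left h4 (by positivity)
    _ = C * ((n : ℝ) + 1) ^ 4 * Real.exp (-c * w) := by ring
    _ ≤ C * ((4 * ν) ^ 4) * Real.exp (-(c * Real.sqrt ν)) :=
        mul_le_mul (mul_le_mul_of_nonneg_left h6 hC.le) h5 (Real.exp_pos _).le (by positivity)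
    _ = 256 * C / c ^ 8 * ((c * Real.sqrt ν) ^ 8 * Real.exp (-(c * Real.sqrt ν))) := by
        rw [h7]
        field_simp
    _ ≤ 256 * C / c ^ 8 * (e * c ^ 8 / (256 * C)) := mul_le_mul_of_nonneg_left h3.le (by positivity)
    _ = e := by field_simp

end Pool.Agent.Helper18.WK
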