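import Pool.Agent.Helper18.WK.MmL
import Pool.Agent.Helper18.WK.Ends
import Pool.Agent.Helper18.WK.FddA
import Pool.Agent.Helper18.WK.FddB
import Pool.Agent.Helper18.WK.FddC

/-!
# Project WK, blocks WK-F1 .. WK-F3: finite dimensional distributions of the cut heights

WK-F1 (proved in `FddA`), `mid_bad_left`, `mid_bad_right`: `three_phi` with `S = fun j _ => m ≤ j`, `S' = fun j _ => m' ≤ j` and the
indicator on the right-hand side as `Φ`; the sums over `(a, z)`, `(a', z')` of `Fst` are the sums over the stopped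
prefixes (`fst_stp`); `Φ (c₁ ++ (c₂ ++ rv y c₃)) = 1` if `cl c₁ ≤ m + w`, `cl c₃ ≤ m' + w`, `A (ce x c₁)` (respectively
`A (ce y c₃)`; `rv (ce y c₃) (rv y c₃) = c₃`); `sc_one`.

WK-F2 (proved in `FddB`), `mid_unif`: otherwise there are sequences (`ν_k ≥ k`, `η = 1 / (k + 1)`) which violate it; by compactness of
`[δ', δ]²` a subsequence with `z / √ν → u`, `z' / √ν → v`. By `mm_llt_above` (list `List.ofFn`, `s = d`, `T = 2 - d`) and the
same for the empty list (`mm_nil`, `Mm K [] = G K`), `√ν Mm → Ik .. u / μ`, `√ν G → hk (s2 (2 - 2 d)) u v / μ > 0`: the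
ratio tends to a number within `ε` of `ρ`: contradiction.

WK-F3, `fdd_seq`: `ρ` = the limit. Let `ε > 0`. `exc_lim` gives `δ`; `above_low` (with `U`) `G K ≥ c n^(-3/2)`, `n = m k`.
`end_left`, `end_right` with `ε_E = δ / 4` and `t = ε c`: `d₁`; choose `d < δ`, `d < d₁ / 4`, `d < 1 ± s i`; `low_cut` (for
`x → y` and, through `sc_rev`, for `y → x`) with `j = ⌈d ν⌉`: `δ'`; `mid_unif` on `[δ', δ / 2]`. `mm_mid_le` and `le_mm_mid` with
`m = m' = ⌈d ν⌉`, `w = ⌊√ν⌋`: in the sums replace `Mm` by `ρ G` up to `2 ε G` if `z, z' ∈ [δ' √ν, δ √ν / 2]`; the other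
`(z, z')` are bounded by `mid_bad_left`, `mid_bad_right` and `end_left`, `end_right`, `low_cut` (`Sc K ≤ Sc (Kp F)`);
`Sc K n x y (a piece > w)` by `long_small`; the same two inequalities for the list `[]` (`mm_nil`) compare
`∑ Fst * G * Fst` with `G K n x y`. So `|Mm / G - ρ| ≤ 10 ε` for large `k`.
-/

open scoped ENNReal Classical
open Set Filter

namespace Pool.Agent.Helper18.WK

open Pool.Agent.Helper49.RD (Fe ind)

private theorem inc3_ofFn62 : ∀ (p : ℕ) (f : Fin p → ℝ × ℝ) (r T : ℝ), r < T → (∀ i, r < (f i).1) →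
    (∀ i, (f i).1 < T) → StrictMono (fun i => (f i).1) → Inc3 r (List.ofFn f) T := by
  intro p
  induction p with
  | zero =>
    intro f r T hr _ _ _
    rw [List.ofFn_zero]
    exact hr
  | succ p ih =>
    intro f r T hr h1 h2 h3
    rw [List.ofFn_succ]
    refine ⟨h1 0, ?_⟩
    refine ih (fun i => f i.succ) _ T (h2 0) (fun i => ?_) (fun i => h2 _) ?_
    · exact h3 (Fin.succ_pos i)
    · intro i j hij
      exact h3 (Fin.succ_lt_succ_iff.2 hij)

/-- the limit is nonnegative -/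
private theorem rho_nonneg62 {g : ℝ} (hg : 0 < g) {p : ℕ} (hp : 1 ≤ p) {s : Fin p → ℝ} (hs : StrictMono s)
    (hs1 : ∀ i, -1 < s i ∧ s i < 1) (b : Fin p → ℝ) :
    0 ≤ Fe g p s (fun i z => ind (b i) z) / Fe g p s (fun _ _ => 1) := by
  refine le_of_forall_pos_le_add fun ε hε => ?_
  obtain ⟨_, δ, hδ, hlim⟩ := exc_lim hg hp hs hs1 b hε
  obtain ⟨θ, hθ, hθs⟩ := theta62 hs1
  obtain ⟨d, hd, hdδ, hdθ, hd1⟩ : ∃ d : ℝ, 0 < d ∧ d < δ ∧ d < θ ∧ d < 1 :=
    ⟨min (min (δ / 2) (θ / 2)) (1 / 2), lt_min (lt_min (by linarith) (by linarith)) (by norm_num),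
      (min_le_left _ _).trans_lt ((min_le_left _ _).trans_lt (by linarith)),
      (min_le_left _ _).trans_lt ((min_le_right _ _).trans_lt (by linarith)),
      (min_le_right _ _).trans_lt (by norm_num)⟩
  have h1 := hlim d d d hd hdδ hd hdδ hd hdδ
  have hinc : Inc3 d (List.ofFn fun i => (1 + s i, b i)) (2 - d) := by
    refine inc3_ofFn62 p _ d (2 - d) (by linarith) (fun i => ?_) (fun i => ?_) (fun i j hij => ?_)
    · have := (hθs i).1
      show d < 1 + s i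
      linarith
    · have := (hθs i).2
      show 1 + s i < 2 - d
      linarith
    · have := hs hij
      show 1 + s i < 1 + s j
      linarith
  have h2 : 0 ≤ Ik g (2 - d) d d (List.ofFn fun i => (1 + s i, b i)) d /
      Pool.Agent.Helper49.RD.hk (g * (2 - 2 * d)) d d :=
    div_nonneg (ik_nonneg hg hd.le hinc hd.le)
      (Pool.Agent.Helper49.RD.hk_nonneg (mul_pos hg (by linarith)) hd.le hd.le)
  have h3 := (abs_le.1 h1).2
  linarith

theorem fdd_seq (F : Law) {κ Bt r : ℝ} (hκ : 0 < κ) (hB : 0 < Bt) (hr : 0 < r) {K : Ker}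
    (hK : ∀ cap : ℕ, Above F κ Bt r cap K) {p : ℕ} (hp : 1 ≤ p) {s b : Fin p → ℝ} (hs : StrictMono s)
    (hs1 : ∀ i, -1 < s i ∧ s i < 1) {U : ℕ} {ν m : ℕ → ℕ} {x y : ℕ → ℤ} (hν : Tendsto ν atTop atTop)
    (hm : ∀ k, |(m k : ℝ) - 2 * ν k| ≤ U) (hx : ∀ k, 1 ≤ x k ∧ x k ≤ U) (hy : ∀ k, 1 ≤ y k ∧ y k ≤ U)
    {τ : ℕ → Fin p → ℕ} {β : ℕ → Fin p → ℤ}
    (hτ : ∀ i, Tendsto (fun k => (τ k i : ℝ) / ν k) atTop (nhds (1 + s i)))
    (hβ : ∀ i, Tendsto (fun k => (β k i : ℝ) / Real.sqrt (ν k)) atTop (nhds (b i))) :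
    Tendsto (fun k => (Mm K (List.ofFn fun i => (τ k i, β k i)) (m k) (x k) (y k)).toReal /
      (G K (m k) (x k) (y k)).toReal) atTop
        (nhds (Fe (s2 F) p s (fun i z => ind (b i) z) / Fe (s2 F) p s (fun _ _ => 1))) := by
  have hKle : ∀ x l z, K x l z ≤ Kp F x l z := (hK 0).le
  have hK0 : ∀ x z, K x 0 z = 0 := by
    intro x z
    refine le_antisymm ((hKle x 0 z).trans ?_) zero_le
    unfold Kp
    split_ifs
    · rw [F.f_zero, ENNReal.ofReal_zero]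
    · exact le_rfl
  have hfin : ∀ n x y, G K n x y ≠ ⊤ := by
    intro n x y
    refine ne_top_of_le_ne_top ENNReal.one_ne_top ?_
    exact (g_mono (fun x l z => (hKle x l z).trans (kp_le F x l z)) n x y).trans
      ((ENNReal.le_tsum y).trans (g_sum_le F n x))
  have hg := s2_pos F
  have hρ := rho_nonneg62 hg hp hs hs1 b
  obtain ⟨ρ, hρdef⟩ : ∃ ρ : ℝ, ρ = Fe (s2 F) p s (fun i z => ind (b i) z) / Fe (s2 F) p s (fun _ _ => 1) :=
    ⟨_, rfl⟩
  rw [← hρdef] at hρ ⊢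
  rw [Metric.tendsto_atTop]
  intro e he
  obtain ⟨ε, hεdef⟩ : ∃ ε : ℝ, ε = e / (2 * (7 + 5 * ρ)) := ⟨_, rfl⟩
  have hε : 0 < ε := by
    rw [hεdef]
    positivity
  have hεe : (7 + 5 * ρ) * ε < e := by
    have h1 : (7 + 5 * ρ) * ε = e / 2 := by
      rw [hεdef]
      field_simp
    rw [h1]
    linarith
  obtain ⟨_, δ, hδ, hlim⟩ := exc_lim hg hp hs hs1 b hε
  rw [← hρdef] at hlim
  obtain ⟨nL, cL, hcL, hlow⟩ := above_low F (κ := κ) (Bt := Bt) (r := r) (c₀ := 1) hκ hB hr one_pos U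
  have ht : 0 < ε * cL := mul_pos hε hcL
  obtain ⟨dl, nl, hdl, hEl⟩ := end_left F U (ε := δ / 4) (t := ε * cL) (by linarith) ht
  obtain ⟨dr, nr, hdr, hEr⟩ := end_right F U (ε := δ / 4) (t := ε * cL) (by linarith) ht
  obtain ⟨θ, hθ, hθs⟩ := theta62 hs1
  obtain ⟨d, hd, hd2, hdδ, hddl, hddr, hdθ⟩ : ∃ d : ℝ, 0 < d ∧ d ≤ 1 / 2 ∧ d < δ ∧ 2 * d ≤ dl ∧ 2 * d ≤ dr ∧
      2 * d ≤ θ := by
    refine ⟨min (1 / 2) (min (δ / 2) (min (dl / 2) (min (dr / 2) (θ / 2)))), ?_, min_le_left _ _, ?_, ?_, ?_, ?_⟩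
    · exact lt_min (by norm_num) (lt_min (by linarith) (lt_min (by linarith) (lt_min (by linarith) (by linarith))))
    · have h1 : min (1 / 2) (min (δ / 2) (min (dl / 2) (min (dr / 2) (θ / 2)))) ≤ δ / 2 :=
        (min_le_right _ _).trans (min_le_left _ _)
      linarith
    · have h1 : min (1 / 2) (min (δ / 2) (min (dl / 2) (min (dr / 2) (θ / 2)))) ≤ dl / 2 :=
        (min_le_right _ _).trans ((min_le_right _ _).trans (min_le_left _ _))
      linarith
    · have h1 : min (1 / 2) (min (δ / 2) (min (dl / 2) (min (dr / 2) (θ / 2)))) ≤ dr / 2 :=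
        (min_le_right _ _).trans ((min_le_right _ _).trans ((min_le_right _ _).trans (min_le_left _ _)))
      linarith
    · have h1 : min (1 / 2) (min (δ / 2) (min (dl / 2) (min (dr / 2) (θ / 2)))) ≤ θ / 2 :=
        (min_le_right _ _).trans ((min_le_right _ _).trans ((min_le_right _ _).trans (min_le_right _ _)))
      linarith
  obtain ⟨εL, nc, hεL, hcut⟩ := low_cut F U (d := d / 2) (t := ε * cL) (by linarith) (by linarith) ht
  obtain ⟨δ', hδ', hδ'L, hδ'δ⟩ : ∃ δ' : ℝ, 0 < δ' ∧ δ' ≤ εL ∧ δ' ≤ δ / 2 :=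
    ⟨min εL (δ / 2), lt_min hεL (by linarith), min_le_left _ _, min_le_right _ _⟩
  obtain ⟨N, η, hη, hmid⟩ := mid_unif F hB hr hK hs (b := b) (d := d) (δ' := δ') (δ := δ / 2) (ρ := ρ) (ε := ε) hd
    (by linarith) (fun i => ⟨by linarith [(hθs i).1], by linarith [(hθs i).2]⟩) hδ' hδ'δ hε
    (fun u v hu1 hu2 hv1 hv2 => hlim d u v hd hdδ (by linarith) (by linarith) (by linarith) (by linarith))
  obtain ⟨γ, hγ, hγd, hγ4, hγθ, hγη⟩ : ∃ γ : ℝ, 0 < γ ∧ γ ≤ d ∧ γ ≤ 1 / 4 ∧ 6 * γ ≤ θ ∧ 2 * γ ≤ η := by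
    refine ⟨min d (min (1 / 4) (min (θ / 6) (η / 2))), ?_, min_le_left _ _, ?_, ?_, ?_⟩
    · exact lt_min hd (lt_min (by norm_num) (lt_min (by linarith) (by linarith)))
    · exact (min_le_right _ _).trans (min_le_left _ _)
    · have h1 : min d (min (1 / 4) (min (θ / 6) (η / 2))) ≤ θ / 6 :=
        (min_le_right _ _).trans ((min_le_right _ _).trans (min_le_left _ _))
      linarith
    · have h1 : min d (min (1 / 4) (min (θ / 6) (η / 2))) ≤ η / 2 :=
        (min_le_right _ _).trans ((min_le_right _ _).trans (min_le_right _ _))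
      linarith
  obtain ⟨Cg, cg, hCg, hcg, hlg⟩ := long_small F
  obtain ⟨Ng, hNg⟩ := long62 hCg hcg ht
  -- the conditions which hold for large `k`
  have hνR : Tendsto (fun k => ((ν k : ℕ) : ℝ)) atTop atTop := tendsto_natCast_atTop_atTop.comp hν
  have hsq : Tendsto (fun k => Real.sqrt (ν k)) atTop atTop := Real.tendsto_sqrt_atTop.comp hνR
  have e1 : ∀ᶠ k in atTop, max 1 ((2 + U) / γ) ≤ Real.sqrt (ν k) := hsq.eventually_ge_atTop _
  have e2 : ∀ᶠ k in atTop, N + nL + nl + nr + nc + Ng + 1 ≤ ν k := hν.eventually_ge_atTop _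
  have e3 : ∀ᶠ k in atTop, ∀ i, |(τ k i : ℝ) / ν k - (1 + s i)| ≤ γ := by
    refine eventually_all.2 fun i => ?_
    filter_upwards [(Metric.tendsto_nhds.1 (hτ i)) γ hγ] with k hk
    rw [Real.dist_eq] at hk
    exact hk.le
  have e4 : ∀ᶠ k in atTop, ∀ i, |(β k i : ℝ) / Real.sqrt (ν k) - b i| ≤ η := by
    refine eventually_all.2 fun i => ?_
    filter_upwards [(Metric.tendsto_nhds.1 (hβ i)) η hη] with k hk
    rw [Real.dist_eq] at hk
    exact hk.le
  obtain ⟨k₀, hk₀⟩ := eventually_atTop.1 (e1.and (e2.and (e3.and e4)))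
  refine ⟨k₀, fun k hk => ?_⟩
  obtain ⟨f1, f2, f3, f4⟩ := hk₀ k hk
  rw [Real.dist_eq]
  refine lt_of_le_of_lt ?_ hεe
  -- notation
  have hmk := hm k
  obtain ⟨hx1, hxU⟩ := hx k
  obtain ⟨hy1, hyU⟩ := hy k
  generalize ν k = V at f1 f2 f3 f4 hmk
  generalize m k = n at hmk
  generalize x k = x₀ at hx1 hxU
  generalize y k = y₀ at hy1 hyU
  generalize τ k = τ₀ at f3
  generalize β k = β₀ at f4
  have hV1 : (1 : ℝ) ≤ V := by
    have : 1 ≤ V := by omega
    exact_mod_cast this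
  have hV0 : (0 : ℝ) < V := by linarith
  have hss := Real.sq_sqrt (show (0 : ℝ) ≤ V by linarith)
  have hs1' : 1 ≤ Real.sqrt V := (le_max_left _ _).trans f1
  have hE : 1 + Real.sqrt V + U ≤ γ * V := by
    have h1 : (2 + U) / γ ≤ Real.sqrt V := (le_max_right _ _).trans f1
    rw [div_le_iff₀ hγ] at h1
    have hU : (0 : ℝ) ≤ U := Nat.cast_nonneg U
    have h2 : (2 + (U : ℝ)) * Real.sqrt V ≤ γ * V := by
      calc (2 + (U : ℝ)) * Real.sqrt V ≤ (Real.sqrt V * γ) * Real.sqrt V :=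
            mul_le_mul_of_nonneg_right h1 (Real.sqrt_nonneg _)
        _ = γ * Real.sqrt V ^ 2 := by ring
        _ = γ * V := by rw [hss]
    have h3 : (U : ℝ) * 1 ≤ U * Real.sqrt V := mul_le_mul_of_nonneg_left hs1' hU
    linarith
  have hU0 : (0 : ℝ) ≤ U := Nat.cast_nonneg U
  obtain ⟨hmk1, hmk2⟩ := abs_le.1 hmk
  have hγV : γ * V ≤ V / 4 := by
    have := mul_le_mul_of_nonneg_right hγ4 hV0.le
    linarith
  have hn1 : (V : ℝ) ≤ n := by linarith
  have hn3 : (n : ℝ) ≤ 3 * V := by linarith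
  have hnV : V ≤ n := by exact_mod_cast hn1
  have hnpos : (0 : ℝ) < n := by linarith
  have hsn1 : Real.sqrt V ≤ Real.sqrt n := Real.sqrt_le_sqrt hn1
  have hsn2 : Real.sqrt n ≤ 2 * Real.sqrt V := by
    rw [Real.sqrt_le_left (by positivity), mul_pow, hss]
    linarith
  -- the cut positions
  obtain ⟨μ, hμdef⟩ : ∃ μ : ℕ, μ = ⌈d * V⌉₊ := ⟨_, rfl⟩
  obtain ⟨w, hwdef⟩ : ∃ w : ℕ, w = ⌊Real.sqrt V⌋₊ := ⟨_, rfl⟩
  have hμ1 : d * V ≤ μ := hμdef ▸ Nat.le_ceil _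
  have hμ2 : (μ : ℝ) ≤ d * V + 1 := hμdef ▸ (Nat.ceil_lt_add_one (by positivity)).le
  have hw1 : (w : ℝ) ≤ Real.sqrt V := hwdef ▸ Nat.floor_le (Real.sqrt_nonneg _)
  have hw2 : Real.sqrt V ≤ ((w + 1 : ℕ) : ℝ) := by
    push_cast
    exact hwdef ▸ (Nat.lt_floor_add_one _).le
  have hw0 : (0 : ℝ) ≤ w := Nat.cast_nonneg w
  have hdV : d * V ≤ V / 2 := by
    have := mul_le_mul_of_nonneg_right hd2 hV0.le
    linarith
  have hγdV : γ * V ≤ d * V := mul_le_mul_of_nonneg_right hγd hV0.le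
  have hhn : μ + μ + 2 * w ≤ n := by
    have : (μ : ℝ) + μ + 2 * w ≤ n := by linarith
    exact_mod_cast this
  -- the times
  have hτ1 : ∀ i, (μ : ℝ) + w ≤ τ₀ i ∧ (τ₀ i : ℝ) + μ + w ≤ n := by
    intro i
    obtain ⟨g1, g2⟩ := abs_le.1 (f3 i)
    obtain ⟨t1, t2⟩ := hθs i
    have g3 : (1 + s i - γ) * V ≤ τ₀ i := by
      rw [← le_div_iff₀ hV0]
      linarith
    have g4 : (τ₀ i : ℝ) ≤ (1 + s i + γ) * V := by
      rw [← div_le_iff₀ hV0]
      linarith
    constructor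
    · have : (d + γ) * V ≤ (1 + s i - γ) * V := mul_le_mul_of_nonneg_right (by linarith) hV0.le
      linarith
    · have : (1 + s i + γ + d + γ + γ) * V ≤ 2 * V := mul_le_mul_of_nonneg_right (by linarith) hV0.le
      linarith
  have hS : ∀ q ∈ (List.ofFn fun i => (τ₀ i, β₀ i)), μ + w ≤ q.1 ∧ q.1 + μ + w ≤ n := by
    intro q hq
    rw [List.mem_ofFn] at hq
    obtain ⟨i, rfl⟩ := hq
    obtain ⟨g1, g2⟩ := hτ1 i
    constructor
    · exact_mod_cast g1
    · exact_mod_cast g2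
  -- lower bound for the denominator
  have hG := hlow n (by omega) n K (hK n) (by rw [one_mul]) x₀ y₀ hx1 hxU hy1 hyU
  have hsmall : ENNReal.ofReal (ε * cL / (n * Real.sqrt n)) ≤ ENNReal.ofReal ε * G K n x₀ y₀ := by
    rw [mul_div_assoc, ENNReal.ofReal_mul hε.le]
    exact mul_le_mul' le_rfl hG
  have hpos : 0 < G K n x₀ y₀ := lt_of_lt_of_le (ENNReal.ofReal_pos.2 (by positivity)) hG
  have h2ε : ENNReal.ofReal (2 * ε) * G K n x₀ y₀ =
      ENNReal.ofReal ε * G K n x₀ y₀ + ENNReal.ofReal ε * G K n x₀ y₀ := by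
    rw [← add_mul, ← ENNReal.ofReal_add hε.le hε.le, two_mul]
  have hd1' : (μ : ℝ) + w ≤ dl * n := by
    have h1 : (μ : ℝ) + w ≤ 2 * d * V := by linarith
    have h2 : 2 * d * V ≤ dl * n := mul_le_mul hddl hn1 hV0.le hdl.le
    linarith
  have hd2' : (μ : ℝ) + w ≤ dr * n := by
    have h1 : (μ : ℝ) + w ≤ 2 * d * V := by linarith
    have h2 : 2 * d * V ≤ dr * n := mul_le_mul hddr hn1 hV0.le hdr.le
    linarith
  have hlo : δ' * Real.sqrt V ≤ εL * Real.sqrt n :=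
    mul_le_mul hδ'L hsn1 (Real.sqrt_nonneg _) hεL.le
  have hhi : δ / 4 * Real.sqrt n ≤ δ / 2 * Real.sqrt V := by
    have := mul_le_mul_of_nonneg_left hsn2 (show (0 : ℝ) ≤ δ / 4 by linarith)
    linarith
  have hc1 : d / 2 / 2 * n ≤ μ := by
    have h1 := mul_le_mul_of_nonneg_left hn3 hd.le
    have h2 : 0 ≤ d * V := by positivity
    linarith
  have hc2 : (μ : ℝ) ≤ (1 - d / 2 / 2) * n := by
    have h1 : (μ : ℝ) ≤ 3 / 4 * V := by linarith
    have h2 : 3 / 4 * V ≤ (1 - d / 2 / 2) * n := mul_le_mul (by linarith) hn1 hV0.le (by linarith)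
    linarith
  have hA : ∀ z : ℤ, ((z : ℝ) < δ' * Real.sqrt V ∨ δ / 2 * Real.sqrt V < z) →
      (z : ℝ) < δ' * Real.sqrt V ∨ δ / 2 * Real.sqrt V < z := fun _ h => h
  refine core62 K hK0 hfin hhn hS hρ hε.le
    (A := fun z : ℤ => (z : ℝ) < δ' * Real.sqrt V ∨ δ / 2 * Real.sqrt V < z) ?_ ?_ ?_ ?_ hpos
  · intro a ha a' ha' z z' hz hz'
    rw [not_or, not_lt, not_lt] at hz hz'
    rw [Finset.mem_Icc] at ha ha'
    have ha1 : (μ : ℝ) ≤ a := by exact_mod_cast ha.1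
    have ha2 : (a : ℝ) ≤ μ + w := by exact_mod_cast ha.2
    have ha'1 : (μ : ℝ) ≤ a' := by exact_mod_cast ha'.1
    have ha'2 : (a' : ℝ) ≤ μ + w := by exact_mod_cast ha'.2
    have hLc : ((n - a - a' : ℕ) : ℝ) = n - a - a' := by
      rw [Nat.cast_sub (by omega), Nat.cast_sub (by omega)]
    have hτc : ∀ i, ((τ₀ i - a : ℕ) : ℝ) = τ₀ i - a := by
      intro i
      have := (hτ1 i).1
      have h1 : a ≤ τ₀ i := by
        have h2 : (a : ℝ) ≤ τ₀ i := by linarith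
        exact_mod_cast h2
      exact Nat.cast_sub h1
    have hmap : (List.ofFn fun i => (τ₀ i, β₀ i)).map (fun q => (q.1 - a, q.2)) =
        List.ofFn fun i => (τ₀ i - a, β₀ i) := by
      rw [List.map_ofFn]
      rfl
    rw [hmap]
    refine hmid V (by omega) (n - a - a') (fun i => τ₀ i - a) β₀ z z' ?_ (fun i => ?_) f4 hz.1 hz.2 hz'.1 hz'.2
    · have g5 : 2 * γ * V ≤ η * V := mul_le_mul_of_nonneg_right hγη hV0.le
      rw [hLc, abs_le]
      constructor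
      · rw [neg_le_sub_iff_le_add, ← sub_le_iff_le_add, le_div_iff₀ hV0]
        linarith
      · rw [sub_le_iff_le_add, div_le_iff₀ hV0]
        linarith
    · obtain ⟨g1, g2⟩ := abs_le.1 (f3 i)
      have g3 : (1 + s i - γ) * V ≤ τ₀ i := by
        rw [← le_div_iff₀ hV0]
        linarith
      have g4 : (τ₀ i : ℝ) ≤ (1 + s i + γ) * V := by
        rw [← div_le_iff₀ hV0]
        linarith
      have g5 : 2 * γ * V ≤ η * V := mul_le_mul_of_nonneg_right hγη hV0.le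
      rw [hτc i, abs_le]
      constructor
      · rw [neg_le_sub_iff_le_add, ← sub_le_iff_le_add, le_div_iff₀ hV0]
        linarith
      · rw [sub_le_iff_le_add, div_le_iff₀ hV0]
        linarith
  · refine le_trans ?_ hsmall
    refine le_trans ?_ (ENNReal.ofReal_le_ofReal (hNg V (by omega) n (w + 1) (by omega) hn3 hw2))
    refine le_trans ?_ (hlg n (w + 1) x₀ y₀)
    refine sc_mono hKle (fun c => ?_) n x₀ y₀
    by_cases h : ∃ q ∈ c, w < q.1
    · obtain ⟨q, hq, hqw⟩ := h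
      rw [if_pos ⟨q, hq, hqw⟩, if_pos ⟨q, hq, hqw⟩]
    · rw [if_neg h]
      exact zero_le
  · refine (mid_bad_left K hK0 hhn x₀ y₀ _).trans ((left62 hKle (D := dl * n) hA hlo hhi hd1').trans ?_)
    rw [h2ε]
    exact add_le_add ((hcut n (by omega) μ hc1 hc2 x₀ y₀ hx1 hxU hy1 hyU).trans hsmall)
      ((hEl n (by omega) x₀ y₀ hx1 hxU hy1 hyU).trans hsmall)
  · refine (mid_bad_right K hK0 hhn x₀ y₀ _).trans ((right62 hKle (D := dr * n) hA hlo hhi hd2').trans ?_)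
    rw [h2ε]
    exact add_le_add ((hcut n (by omega) μ hc1 hc2 y₀ x₀ hy1 hyU hx1 hxU).trans hsmall)
      ((hEr n (by omega) x₀ y₀ hx1 hxU hy1 hyU).trans hsmall)

end Pool.Agent.Helper18.WK
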