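import Pool.Agent.Helper18.WK.Split

/-!
# Project WK, block WK-C1: the renewal mass `U F n h` and its Fourier transform `Phi F n t`

Proof in words: summability from `f_sum`, `f_tail`; `u_eq` from `g_transl` and `g_sum_le` (finiteness);
`phi_sum`: induction on `n` with `G_succ` in real form (`U F (n+1) h = ∑_l ∑_z f (l+1) z U F (n-l) (h-z)`), absolute
summability, `cos (t (z + h')) = cos cos - sin sin` and the sine part vanishes by symmetry; `u_int`: multiply
`phi_sum` by `cos (t h)`, integrate term by term (uniformly convergent), orthogonality, `u_symm`.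
-/

open scoped ENNReal
open MeasureTheory Filter

namespace Pool.Agent.Helper18.WK

/-- The probability that `(n, h)` is a renewal point. -/
noncomputable def U (F : Law) (n : ℕ) (h : ℤ) : ℝ := (G (K0 F) n 0 h).toReal

/-- The law of the lengths. -/
noncomputable def len (F : Law) (l : ℕ) : ℝ := ∑' h : ℤ, F.f l h

/-- The mean length. -/
noncomputable def mu (F : Law) : ℝ := ∑' l : ℕ, (l : ℝ) * len F l

/-- The variance per unit length. -/
noncomputable def s2 (F : Law) : ℝ := (∑' l : ℕ, ∑' h : ℤ, (h : ℝ) ^ 2 * F.f l h) / mu F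

/-- Characteristic function of the pieces of length `l`. -/
noncomputable def phi (F : Law) (l : ℕ) (t : ℝ) : ℝ := ∑' h : ℤ, F.f l h * Real.cos (t * h)

/-- The twisted renewal sequence. -/
noncomputable def Phi (F : Law) : ℕ → ℝ → ℝ
  | 0, _ => 1
  | n + 1, t => ∑ l ∈ Finset.range (n + 1), phi F (l + 1) t * Phi F (n - l) t
termination_by n => n
decreasing_by omega

/-- The Gaussian density of variance `v`. -/
noncomputable def gau (v y : ℝ) : ℝ := Real.exp (-(y ^ 2 / (2 * v))) / Real.sqrt (2 * Real.pi * v)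

theorem f_summable (F : Law) (l : ℕ) : Summable (F.f l) := by
  have h := F.f_sum.summable
  exact h.comp_injective (i := fun h : ℤ => (l, h)) (fun a b hab => (Prod.mk.inj hab).2)

theorem len_sum (F : Law) : HasSum (len F) 1 :=
  F.f_sum.prod_fiberwise fun l => (f_summable F l).hasSum

private theorem sum_pow_exp (k : ℕ) {a : ℝ} (ha : 0 < a) :
    Summable fun h : ℤ => |(h : ℝ)| ^ k * Real.exp (-a * |(h : ℝ)|) := by
  have h1 : Summable fun n : ℕ => (n : ℝ) ^ k * Real.exp (-a * n) :=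
    Real.summable_pow_mul_exp_neg_nat_mul k ha
  refine Summable.of_nat_of_neg ?_ ?_
  · refine h1.congr fun n => ?_
    simp
  · refine h1.congr fun n => ?_
    simp

private theorem tail_mul (F : Law) (l : ℕ) (h : ℤ) :
    F.f l h ≤ F.B * Real.exp (-F.a * l) * Real.exp (-F.a * |(h : ℝ)|) := by
  have h1 := F.f_tail l h
  rwa [mul_add, Real.exp_add, ← mul_assoc] at h1

theorem len_tail (F : Law) : ∃ C : ℝ, 0 < C ∧ ∀ l : ℕ, len F l ≤ C * Real.exp (-F.a * l) := by
  have hs : Summable fun h : ℤ => Real.exp (-F.a * |(h : ℝ)|) := by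
    refine (sum_pow_exp 0 F.a_pos).congr fun h => ?_
    simp
  have hp : 0 < ∑' h : ℤ, Real.exp (-F.a * |(h : ℝ)|) :=
    hs.tsum_pos (fun _ => (Real.exp_pos _).le) 0 (Real.exp_pos _)
  refine ⟨F.B * ∑' h : ℤ, Real.exp (-F.a * |(h : ℝ)|), mul_pos F.B_pos hp, fun l => ?_⟩
  have h2 : ∑' h : ℤ, F.B * Real.exp (-F.a * l) * Real.exp (-F.a * |(h : ℝ)|) =
      F.B * (∑' h : ℤ, Real.exp (-F.a * |(h : ℝ)|)) * Real.exp (-F.a * l) := by
    rw [tsum_mul_left]; ring
  rw [← h2]
  exact (f_summable F l).tsum_le_tsum (fun h => tail_mul F l h) (hs.mul_left _)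

theorem len_nonneg (F : Law) (l : ℕ) : 0 ≤ len F l := tsum_nonneg fun h => F.f_nonneg l h

theorem phi_abs (F : Law) (l : ℕ) (t : ℝ) : |phi F l t| ≤ len F l := by
  show ‖∑' h : ℤ, F.f l h * Real.cos (t * h)‖ ≤ len F l
  refine tsum_of_norm_bounded (f_summable F l).hasSum fun h => ?_
  rw [Real.norm_eq_abs, abs_mul, abs_of_nonneg (F.f_nonneg l h)]
  exact mul_le_of_le_one_right (F.f_nonneg l h) (Real.abs_cos_le_one _)

theorem phi_zero (F : Law) (l : ℕ) : phi F l 0 = len F l := by
  unfold phi len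
  refine tsum_congr fun h => ?_
  rw [zero_mul, Real.cos_zero, mul_one]

private theorem g_ne_top (F : Law) (n : ℕ) (x y : ℤ) : G (K0 F) n x y ≠ ⊤ :=
  ne_top_of_le_ne_top ENNReal.one_ne_top ((ENNReal.le_tsum y).trans (g_sum_le F n x))

theorem u_eq (F : Law) (n : ℕ) (x y : ℤ) : G (K0 F) n x y = ENNReal.ofReal (U F n (y - x)) := by
  unfold U
  rw [ENNReal.ofReal_toReal (g_ne_top F n 0 (y - x)), ← g_transl F n 0 (y - x) x, zero_add,
    sub_add_cancel]

theorem u_nonneg (F : Law) (n : ℕ) (h : ℤ) : 0 ≤ U F n h := ENNReal.toReal_nonneg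

theorem u_symm (F : Law) (n : ℕ) (h : ℤ) : U F n (-h) = U F n h := by
  unfold U
  rw [← g_refl F n 0 h, neg_zero]

theorem u_summable (F : Law) (n : ℕ) : Summable (U F n) :=
  ENNReal.summable_toReal (ne_top_of_le_ne_top ENNReal.one_ne_top (g_sum_le F n 0))

/-- The renewal equation in real form. -/
private theorem u_succ (F : Law) (n : ℕ) (h : ℤ) :
    U F (n + 1) h = ∑ l ∈ Finset.range (n + 1), ∑' z : ℤ, F.f (l + 1) z * U F (n - l) (h - z) := by
  have h1 := G_succ (K0 F) n 0 h
  have h0 : G (K0 F) (n + 1) 0 h ≠ ⊤ := g_ne_top F _ 0 h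
  have h2 : ∀ l ∈ Finset.range (n + 1), ∑' z : ℤ, K0 F 0 (l + 1) z * G (K0 F) (n - l) z h ≠ ⊤ := by
    intro l hl
    refine ne_top_of_le_ne_top h0 ?_
    rw [h1]
    exact Finset.single_le_sum (f := fun l => ∑' z : ℤ, K0 F 0 (l + 1) z * G (K0 F) (n - l) z h)
      (fun _ _ => zero_le) hl
  unfold U
  rw [h1, ENNReal.toReal_sum h2]
  refine Finset.sum_congr rfl fun l _ => ?_
  have h3 : ∀ z : ℤ, K0 F 0 (l + 1) z * G (K0 F) (n - l) z h ≠ ⊤ := fun z =>
    ENNReal.mul_ne_top ENNReal.ofReal_ne_top (g_ne_top F _ _ _)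
  rw [ENNReal.tsum_toReal_eq h3]
  refine tsum_congr fun z => ?_
  rw [ENNReal.toReal_mul, u_eq F (n - l) z h, ENNReal.toReal_ofReal (u_nonneg F _ _)]
  show (ENNReal.ofReal (F.f (l + 1) (z - 0))).toReal * _ = _
  rw [sub_zero, ENNReal.toReal_ofReal (F.f_nonneg _ _)]
  rfl

/-- A symmetric summable sequence has no sine part. -/
private theorem sin_zero {a : ℤ → ℝ} (hs : ∀ h, a (-h) = a h) (t : ℝ) :
    ∑' h : ℤ, a h * Real.sin (t * h) = 0 := by
  have h1 : ∑' h : ℤ, a h * Real.sin (t * h) = ∑' h : ℤ, -(a h * Real.sin (t * h)) := by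
    rw [← (Equiv.neg ℤ).tsum_eq]
    refine tsum_congr fun h => ?_
    show a (-h) * Real.sin (t * ((-h : ℤ) : ℝ)) = _
    rw [hs, Int.cast_neg, mul_neg, Real.sin_neg, mul_neg]
  rw [tsum_neg] at h1
  linarith

/-- The equivalence `(h, z) ↦ (z, h - z)`. -/
private def eqv : ℤ × ℤ ≃ ℤ × ℤ where
  toFun p := (p.2, p.1 - p.2)
  invFun p := (p.1 + p.2, p.1)
  left_inv p := by ext <;> simp
  right_inv p := by ext <;> simp

/-- The transform of a convolution. -/
private theorem conv_cos {a b : ℤ → ℝ} (ha : Summable a) (hb : Summable b) (ha0 : ∀ h, 0 ≤ a h)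
    (hb0 : ∀ h, 0 ≤ b h) (hs : ∀ h, a (-h) = a h) (t : ℝ) :
    (∑' h : ℤ, a h * Real.cos (t * h)) * (∑' h : ℤ, b h * Real.cos (t * h)) =
      ∑' h : ℤ, (∑' z : ℤ, a z * b (h - z)) * Real.cos (t * h) := by
  have bd : ∀ {c : ℤ → ℝ} (_ : Summable c) (_ : ∀ h, 0 ≤ c h) (g : ℝ → ℝ) (_ : ∀ x, |g x| ≤ 1),
      Summable fun h : ℤ => ‖c h * g (t * h)‖ := by
    intro c hc hc0 g hg
    refine Summable.of_nonneg_of_le (fun _ => norm_nonneg _) (fun h => ?_) hc
    rw [Real.norm_eq_abs, abs_mul, abs_of_nonneg (hc0 h)]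
    exact mul_le_of_le_one_right (hc0 h) (hg _)
  have hac := bd ha ha0 Real.cos Real.abs_cos_le_one
  have hbc := bd hb hb0 Real.cos Real.abs_cos_le_one
  have has := bd ha ha0 Real.sin Real.abs_sin_le_one
  have hbs := bd hb hb0 Real.sin Real.abs_sin_le_one
  have h1 := tsum_mul_tsum_of_summable_norm hac hbc
  have h2 := tsum_mul_tsum_of_summable_norm has hbs
  have s1 := summable_mul_of_summable_norm hac hbc
  have s2 := summable_mul_of_summable_norm has hbs
  rw [sin_zero hs t, zero_mul] at h2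
  have h3 : ∑' p : ℤ × ℤ, a p.1 * b p.2 * Real.cos (t * ((p.1 + p.2 : ℤ) : ℝ)) =
      ∑' p : ℤ × ℤ, (a p.1 * Real.cos (t * p.1)) * (b p.2 * Real.cos (t * p.2)) := by
    have h4 : ∀ p : ℤ × ℤ, a p.1 * b p.2 * Real.cos (t * ((p.1 + p.2 : ℤ) : ℝ)) =
        (a p.1 * Real.cos (t * p.1)) * (b p.2 * Real.cos (t * p.2)) -
          (a p.1 * Real.sin (t * p.1)) * (b p.2 * Real.sin (t * p.2)) := by
      intro p
      rw [Int.cast_add, mul_add, Real.cos_add]
      ring
    rw [tsum_congr h4, s1.tsum_sub s2, ← h2, sub_zero]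
  rw [h1, ← h3, ← eqv.tsum_eq]
  have s3 : Summable fun p : ℤ × ℤ => a p.1 * b p.2 * Real.cos (t * ((p.1 + p.2 : ℤ) : ℝ)) := by
    refine (s1.sub s2).congr fun p => ?_
    rw [Int.cast_add, mul_add, Real.cos_add]
    ring
  have s4 := eqv.summable_iff.2 s3
  rw [Summable.tsum_prod (by exact s4)]
  refine tsum_congr fun h => ?_
  rw [← tsum_mul_right]
  refine tsum_congr fun z => ?_
  show a z * b (h - z) * Real.cos (t * ((z + (h - z) : ℤ) : ℝ)) = _
  rw [add_sub_cancel]

theorem phi_sum (F : Law) (n : ℕ) (t : ℝ) : Phi F n t = ∑' h : ℤ, U F n h * Real.cos (t * h) := by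
  induction n using Nat.strong_induction_on with
  | _ n ih =>
    rcases n with _ | n
    · rw [Phi, tsum_eq_single 0]
      · unfold U
        rw [G_zero]
        simp
      · intro h hh
        unfold U
        rw [G_zero, if_neg (Ne.symm hh), ENNReal.toReal_zero, zero_mul]
    · rw [Phi]
      have h1 : ∀ l ∈ Finset.range (n + 1), phi F (l + 1) t * Phi F (n - l) t =
          ∑' h : ℤ, (∑' z : ℤ, F.f (l + 1) z * U F (n - l) (h - z)) * Real.cos (t * h) := by
        intro l hl
        rw [Finset.mem_range] at hl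
        rw [ih (n - l) (by omega)]
        exact conv_cos (f_summable F _) (u_summable F _) (F.f_nonneg _) (u_nonneg F _) (F.f_symm _) t
      have h2 : ∀ l ∈ Finset.range (n + 1), Summable fun h : ℤ =>
          (∑' z : ℤ, F.f (l + 1) z * U F (n - l) (h - z)) * Real.cos (t * h) := by
        intro l hl
        refine Summable.of_norm_bounded (u_summable F (n + 1)) fun h => ?_
        have h3 : ∀ k, 0 ≤ ∑' z : ℤ, F.f (k + 1) z * U F (n - k) (h - z) := fun k =>
          tsum_nonneg fun z => mul_nonneg (F.f_nonneg _ _) (u_nonneg F _ _)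
        rw [Real.norm_eq_abs, abs_mul, abs_of_nonneg (h3 l), u_succ F n h]
        refine (mul_le_of_le_one_right (h3 l) (Real.abs_cos_le_one _)).trans ?_
        exact Finset.single_le_sum (f := fun k => ∑' z : ℤ, F.f (k + 1) z * U F (n - k) (h - z))
          (fun k _ => h3 k) hl
      rw [Finset.sum_congr rfl h1, ← Summable.tsum_finsetSum h2]
      refine tsum_congr fun h => ?_
      rw [u_succ F n h, Finset.sum_mul]

private theorem int_cos (m : ℤ) :
    ∫ t in (-Real.pi)..Real.pi, Real.cos (t * m) = if m = 0 then 2 * Real.pi else 0 := by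
  by_cases hm : m = 0
  · rw [if_pos hm, hm]
    simp
    ring
  · rw [if_neg hm]
    have h1 : (m : ℝ) ≠ 0 := Int.cast_ne_zero.2 hm
    rw [intervalIntegral.integral_comp_mul_right (fun x => Real.cos x) h1, integral_cos]
    have h2 : Real.sin (Real.pi * m) = 0 := by rw [mul_comm]; exact Real.sin_int_mul_pi m
    rw [neg_mul, Real.sin_neg, h2, neg_zero, sub_zero, smul_zero]

private theorem int_cos_cos (k h : ℤ) :
    ∫ t in (-Real.pi)..Real.pi, Real.cos (t * k) * Real.cos (t * h) =
      (if k = h then Real.pi else 0) + if k = -h then Real.pi else 0 := by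
  have h1 : ∀ t : ℝ, Real.cos (t * k) * Real.cos (t * h) =
      1 / 2 * Real.cos (t * ((k - h : ℤ) : ℝ)) + 1 / 2 * Real.cos (t * ((k + h : ℤ) : ℝ)) := by
    intro t
    rw [Int.cast_add, Int.cast_sub, mul_add, mul_sub, Real.cos_add, Real.cos_sub]
    ring
  have hi : ∀ m : ℤ, IntervalIntegrable (fun t : ℝ => 1 / 2 * Real.cos (t * (m : ℝ))) volume
      (-Real.pi) Real.pi := fun m => (by fun_prop : Continuous fun t : ℝ =>
        1 / 2 * Real.cos (t * (m : ℝ))).intervalIntegrable _ _
  rw [intervalIntegral.integral_congr (g := fun t : ℝ => 1 / 2 * Real.cos (t * ((k - h : ℤ) : ℝ)) +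
    1 / 2 * Real.cos (t * ((k + h : ℤ) : ℝ))) (fun t _ => h1 t),
    intervalIntegral.integral_add (hi _) (hi _), intervalIntegral.integral_const_mul,
    intervalIntegral.integral_const_mul, int_cos, int_cos]
  have e1 : k - h = 0 ↔ k = h := sub_eq_zero
  have e2 : k + h = 0 ↔ k = -h := add_eq_zero_iff_eq_neg
  simp only [e1, e2]
  split_ifs <;> ring

theorem u_int (F : Law) (n : ℕ) (h : ℤ) :
    U F n h = (1 / (2 * Real.pi)) * ∫ t in (-Real.pi)..Real.pi, Phi F n t * Real.cos (t * h) := by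
  have hcs : ∀ t : ℝ, Summable fun k : ℤ => U F n k * Real.cos (t * k) := by
    intro t
    refine Summable.of_norm_bounded (u_summable F n) fun k => ?_
    rw [Real.norm_eq_abs, abs_mul, abs_of_nonneg (u_nonneg F n k)]
    exact mul_le_of_le_one_right (u_nonneg F n k) (Real.abs_cos_le_one _)
  have h1 : HasSum (fun k : ℤ => ∫ t in (-Real.pi)..Real.pi,
      U F n k * (Real.cos (t * k) * Real.cos (t * h)))
      (∫ t in (-Real.pi)..Real.pi, Phi F n t * Real.cos (t * h)) := by
    refine intervalIntegral.hasSum_integral_of_dominated_convergence (fun k _ => U F n k) ?_ ?_ ?_ ?_ ?_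
    · intro k
      exact (by fun_prop : Continuous fun t : ℝ =>
        U F n k * (Real.cos (t * k) * Real.cos (t * h))).aestronglyMeasurable
    · intro k
      refine Eventually.of_forall fun t _ => ?_
      rw [Real.norm_eq_abs, abs_mul, abs_of_nonneg (u_nonneg F n k), abs_mul]
      exact mul_le_of_le_one_right (u_nonneg F n k)
        (mul_le_one₀ (Real.abs_cos_le_one _) (abs_nonneg _) (Real.abs_cos_le_one _))
    · exact Eventually.of_forall fun t _ => u_summable F n
    · exact intervalIntegrable_const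
    · refine Eventually.of_forall fun t _ => ?_
      have h2 := (hcs t).hasSum.mul_right (Real.cos (t * h))
      rw [← phi_sum F n t] at h2
      refine h2.congr_fun ?_
      intro k
      ring
  have h3 : ∀ k : ℤ, ∫ t in (-Real.pi)..Real.pi, U F n k * (Real.cos (t * k) * Real.cos (t * h)) =
      (if k = h then U F n k * Real.pi else 0) + if k = -h then U F n k * Real.pi else 0 := by
    intro k
    rw [intervalIntegral.integral_const_mul, int_cos_cos]
    split_ifs <;> ring
  have h4 : HasSum (fun k : ℤ => (if k = h then U F n k * Real.pi else 0) +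
      if k = -h then U F n k * Real.pi else 0) (U F n h * Real.pi + U F n (-h) * Real.pi) :=
    by
    have a1 : HasSum (fun k : ℤ => if k = h then U F n k * Real.pi else 0) (U F n h * Real.pi) := by
      have := hasSum_single (f := fun k : ℤ => if k = h then U F n k * Real.pi else 0) h
        (fun k hk => if_neg hk)
      rwa [if_pos rfl] at this
    have a2 : HasSum (fun k : ℤ => if k = -h then U F n k * Real.pi else 0)
        (U F n (-h) * Real.pi) := by
      have := hasSum_single (f := fun k : ℤ => if k = -h then U F n k * Real.pi else 0) (-h)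
        (fun k hk => if_neg hk)
      rwa [if_pos rfl] at this
    exact a1.add a2
  have h5 := h1.unique (h4.congr_fun h3)
  rw [h5, u_symm]
  have hpi := Real.pi_pos
  field_simp
  ring

private theorem len_zero (F : Law) : len F 0 = 0 := by
  unfold len
  rw [tsum_congr fun h => F.f_zero h, tsum_zero]

theorem mu_pos (F : Law) : 1 ≤ mu F := by
  obtain ⟨C, hC, h1⟩ := len_tail F
  have hs : Summable fun l : ℕ => (l : ℝ) * len F l := by
    refine Summable.of_nonneg_of_le (fun l => mul_nonneg (Nat.cast_nonneg _) (len_nonneg F l))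
      (fun l => ?_) ((Real.summable_pow_mul_exp_neg_nat_mul 1 F.a_pos).mul_left C)
    rw [pow_one]
    have h2 := mul_le_mul_of_nonneg_left (h1 l) (Nat.cast_nonneg (α := ℝ) l)
    linarith
  rw [← (len_sum F).tsum_eq]
  refine (len_sum F).summable.tsum_le_tsum (fun l => ?_) hs
  rcases l with _ | l
  · rw [len_zero]; simp
  · have h3 := len_nonneg F (l + 1)
    have h4 : (1 : ℝ) ≤ ((l + 1 : ℕ) : ℝ) := by
      rw [Nat.cast_add_one]
      have := Nat.cast_nonneg (α := ℝ) l
      linarith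
    nlinarith

theorem s2_pos (F : Law) : 0 < s2 F := by
  have hmu : 0 < mu F := lt_of_lt_of_le one_pos (mu_pos F)
  refine div_pos ?_ hmu
  have hb : ∀ (l : ℕ) (h : ℤ), (h : ℝ) ^ 2 * F.f l h ≤
      F.B * Real.exp (-F.a * l) * (|(h : ℝ)| ^ 2 * Real.exp (-F.a * |(h : ℝ)|)) := by
    intro l h
    have h1 := mul_le_mul_of_nonneg_left (tail_mul F l h) (sq_nonneg (h : ℝ))
    rw [sq_abs]
    linarith
  have hn : ∀ (l : ℕ) (h : ℤ), 0 ≤ (h : ℝ) ^ 2 * F.f l h := fun l h =>
    mul_nonneg (sq_nonneg _) (F.f_nonneg _ _)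
  have s1 : ∀ l : ℕ, Summable fun h : ℤ => (h : ℝ) ^ 2 * F.f l h := fun l =>
    Summable.of_nonneg_of_le (hn l) (hb l) ((sum_pow_exp 2 F.a_pos).mul_left _)
  have s0 : Summable fun l : ℕ => F.B * Real.exp (-F.a * l) *
      ∑' h : ℤ, |(h : ℝ)| ^ 2 * Real.exp (-F.a * |(h : ℝ)|) := by
    refine Summable.mul_right _ (Summable.mul_left _ ?_)
    refine (Real.summable_pow_mul_exp_neg_nat_mul 0 F.a_pos).congr fun l => ?_
    simp
  have s2' : Summable fun l : ℕ => ∑' h : ℤ, (h : ℝ) ^ 2 * F.f l h := by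
    refine Summable.of_nonneg_of_le (fun l => tsum_nonneg (hn l)) (fun l => ?_) s0
    rw [← tsum_mul_left]
    exact (s1 l).tsum_le_tsum (hb l) ((sum_pow_exp 2 F.a_pos).mul_left _)
  have h5 : 0 < ∑' h : ℤ, (h : ℝ) ^ 2 * F.f F.l0 h :=
    (s1 F.l0).tsum_pos (hn _) 1 (by rw [Int.cast_one, one_pow, one_mul]; exact F.f_l01)
  exact s2'.tsum_pos (fun l => tsum_nonneg (hn l)) F.l0 h5

end Pool.Agent.Helper18.WK
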