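import Pool.Agent.Helper18.WK.Llt
import Pool.Agent.Helper18.WK.Hor

/-!
# Project WK, block WK-B3: Gaussian upper bound for the renewal mass

`g_far`: induction. `u_gauss`: exponential tilting. For `ζ = θ + i t` let `φ_l = ∑_h f l h exp (ζ h)` and
`A_n = ∑_h U n h exp (ζ h)`, so `A (n+1) = ∑_(l ≤ n) φ_(l+1) A_(n-l)`. If `θ² ≤ δ t²` and `|t| ≤ π` then
`∑_l |φ_l| exp (c t² l) ≤ 1` (`|φ_l0| ≤ ∑_h f l0 h cosh (θ h) - g t²`,
`∑_(l,h) f l h cosh (θ h) exp (c t² l) ≤ 1 + C (θ² + c t²)`), so `|A_n| ≤ exp (-c t² n)`. If `θ² > δ t²` then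
`|A_n| ≤ exp (C θ² n)` by `cosh_moment`. So always `|A_n| ≤ exp (C θ² n - c t² n)`, and
`2 π U n h exp (θ h) = ∫_(-π..π) A_n exp (-i t h) dt ≤ exp (C θ² n) √(π / (c n))`. Take `θ = min (θ₀, h / (2 C n))`.
-/

open scoped ENNReal
open MeasureTheory

namespace Pool.Agent.Helper18.WK

private theorem b3_g_far (F : Law) (x₀ : ℤ) (r : ℕ) (n : ℕ) : ∀ x : ℤ,
    ∑' y : ℤ, (if (r : ℤ) ≤ |y - x₀| then G (K0 F) n x y else 0) ≤ Far (K0 F) x₀ r n x := by
  induction n using Nat.strong_induction_on with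
  | _ n ih =>
    intro x
    by_cases hx : (r : ℤ) ≤ |x - x₀|
    · have h1 : Far (K0 F) x₀ r n x = 1 := by
        cases n <;> rw [Far, if_pos hx]
      rw [h1]
      refine le_trans (ENNReal.tsum_le_tsum fun y => ?_) (g_sum_le F n x)
      split_ifs
      · exact le_rfl
      · exact zero_le
    · cases n with
      | zero =>
        rw [Far, if_neg hx]
        refine le_of_eq (ENNReal.tsum_eq_zero.2 fun y => ?_)
        by_cases hy : (r : ℤ) ≤ |y - x₀|
        · rw [if_pos hy, G_zero, if_neg]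
          rintro rfl
          exact hx hy
        · rw [if_neg hy]
      | succ n =>
        rw [Far, if_neg hx]
        calc ∑' y : ℤ, (if (r : ℤ) ≤ |y - x₀| then G (K0 F) (n + 1) x y else 0)
            = ∑' y : ℤ, ∑ l ∈ Finset.range (n + 1), ∑' z : ℤ,
                K0 F x (l + 1) z * (if (r : ℤ) ≤ |y - x₀| then G (K0 F) (n - l) z y else 0) := by
              refine tsum_congr fun y => ?_
              by_cases hy : (r : ℤ) ≤ |y - x₀|
              · simp only [if_pos hy]; rw [G_succ]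
              · simp only [if_neg hy, mul_zero, tsum_zero, Finset.sum_const_zero]
          _ = ∑ l ∈ Finset.range (n + 1), ∑' z : ℤ, K0 F x (l + 1) z *
                ∑' y : ℤ, (if (r : ℤ) ≤ |y - x₀| then G (K0 F) (n - l) z y else 0) := by
              rw [Summable.tsum_finsetSum (fun _ _ => ENNReal.summable)]
              refine Finset.sum_congr rfl fun l _ => ?_
              rw [ENNReal.tsum_comm]
              refine tsum_congr fun z => ?_
              rw [ENNReal.tsum_mul_left]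
          _ ≤ _ := by
              refine Finset.sum_le_sum fun l _ => ENNReal.tsum_le_tsum fun z => ?_
              gcongr
              exact ih (n - l) (by omega) z

/-- Mass of the displacement `≥ r` after the length exactly `n`. -/
theorem g_far (F : Law) (n r : ℕ) (x : ℤ) :
    ∑' y : ℤ, (if (r : ℤ) ≤ |y - x| then G (K0 F) n x y else 0) ≤ Far (K0 F) x r n x :=
  b3_g_far F x r n x

/-! ### elementary inequalities -/

private theorem b3_exp_sub (y : ℝ) (_hy : 0 ≤ y) : Real.exp y - 1 ≤ y * Real.exp y := by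
  have h1 := Real.add_one_le_exp (-y)
  have h2 : Real.exp y * Real.exp (-y) = 1 := by rw [← Real.exp_add]; simp
  have h3 := mul_le_mul_of_nonneg_left h1 (Real.exp_pos y).le
  nlinarith

private theorem b3_cosh_sub (x : ℝ) : Real.cosh x - 1 ≤ x ^ 2 * Real.exp |x| := by
  rw [← Real.cosh_abs, ← sq_abs x]
  have hx := abs_nonneg x
  generalize |x| = y at hx
  have h1 : Real.cosh y - 1 = (Real.exp (y / 2) - Real.exp (-(y / 2))) ^ 2 / 2 := by
    have e1 : Real.exp (y / 2) * Real.exp (-(y / 2)) = 1 := by rw [← Real.exp_add]; simp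
    have e2 : Real.exp y = Real.exp (y / 2) ^ 2 := by rw [← Real.exp_nat_mul]; ring_nf
    have e3 : Real.exp (-y) = Real.exp (-(y / 2)) ^ 2 := by rw [← Real.exp_nat_mul]; ring_nf
    rw [Real.cosh_eq, e2, e3]
    nlinarith
  have h2 : 0 ≤ Real.exp (y / 2) - Real.exp (-(y / 2)) := by
    rw [sub_nonneg]
    exact Real.exp_le_exp.2 (by linarith)
  have h3 : Real.exp (y / 2) - Real.exp (-(y / 2)) ≤ y * Real.exp (y / 2) := by
    have e1 : Real.exp (-(y / 2)) = Real.exp (y / 2) * Real.exp (-y) := by rw [← Real.exp_add]; ring_nf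
    have e2 := Real.add_one_le_exp (-y)
    have e3 := mul_le_mul_of_nonneg_left e2 (Real.exp_pos (y / 2)).le
    rw [e1]
    nlinarith
  have h4 : Real.exp y = Real.exp (y / 2) ^ 2 := by rw [← Real.exp_nat_mul]; ring_nf
  rw [h1, h4]
  have h5 : (Real.exp (y / 2) - Real.exp (-(y / 2))) ^ 2 ≤ (y * Real.exp (y / 2)) ^ 2 :=
    pow_le_pow_left₀ h2 h3 2
  nlinarith [sq_nonneg (y * Real.exp (y / 2))]

private theorem b3_cosh_exp {x y : ℝ} (hy : 0 ≤ y) :
    Real.cosh x * Real.exp y ≤ 1 + (x ^ 2 + y) * Real.exp (|x| + y) := by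
  have h1 := b3_cosh_sub x
  have h2 := b3_exp_sub y hy
  have h3 : Real.exp (|x| + y) = Real.exp |x| * Real.exp y := Real.exp_add _ _
  have h4 : 1 ≤ Real.exp |x| := Real.one_le_exp (abs_nonneg x)
  have h5 := Real.exp_pos y
  have h6 := mul_le_mul_of_nonneg_right h1 h5.le
  have h7 : y * Real.exp y ≤ y * Real.exp y * Real.exp |x| := le_mul_of_one_le_right (by positivity) h4
  rw [h3]
  nlinarith

/-! ### weighted sums of the law -/

private theorem b3_h_sum (F : Law) (l : ℕ) {θ : ℝ} (hθ : |θ| < F.a) :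
    Summable fun h : ℤ => F.f l h * Real.exp (θ * h) := by
  have h1 : Summable fun h : ℤ => F.B * Real.exp (-(F.a - |θ|) * |(h : ℝ)|) :=
    (a4_exp_int (by linarith)).mul_left _
  refine Summable.of_nonneg_of_le (fun h => mul_nonneg (F.f_nonneg _ _) (Real.exp_pos _).le) (fun h => ?_) h1
  have h2 : θ * (h : ℝ) ≤ |θ| * |(h : ℝ)| := by rw [← abs_mul]; exact le_abs_self _
  have h3 : (0 : ℝ) ≤ F.a * l := mul_nonneg F.a_pos.le (Nat.cast_nonneg l)
  calc F.f l h * Real.exp (θ * h) ≤ F.B * Real.exp (-F.a * (l + |(h : ℝ)|)) * Real.exp (|θ| * |(h : ℝ)|) :=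
        mul_le_mul (F.f_tail l h) (Real.exp_le_exp.2 h2) (Real.exp_pos _).le
          (mul_nonneg F.B_pos.le (Real.exp_pos _).le)
    _ = F.B * Real.exp (-F.a * (l + |(h : ℝ)|) + |θ| * |(h : ℝ)|) := by rw [mul_assoc, ← Real.exp_add]
    _ ≤ F.B * Real.exp (-(F.a - |θ|) * |(h : ℝ)|) := by
        refine mul_le_mul_of_nonneg_left (Real.exp_le_exp.2 ?_) F.B_pos.le
        nlinarith

private theorem b3_h_cosh (F : Law) (l : ℕ) {θ : ℝ} (hθ : |θ| < F.a) :
    ∑' h : ℤ, F.f l h * Real.exp (θ * h) = ∑' h : ℤ, F.f l h * Real.cosh (θ * h) := by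
  have h1 := b3_h_sum F l hθ
  have h2 : Summable fun h : ℤ => F.f l h * Real.exp (-(θ * h)) := by
    have := b3_h_sum F l (θ := -θ) (by rwa [abs_neg])
    refine this.congr fun h => ?_
    rw [neg_mul]
  have h3 : ∑' h : ℤ, F.f l h * Real.exp (-(θ * h)) = ∑' h : ℤ, F.f l h * Real.exp (θ * h) := by
    rw [← (Equiv.neg ℤ).tsum_eq]
    refine tsum_congr fun h => ?_
    simp only [Equiv.neg_apply, F.f_symm, Int.cast_neg]
    congr 2
    ring
  have h4 : ∑' h : ℤ, F.f l h * Real.cosh (θ * h) =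
      (∑' h : ℤ, F.f l h * Real.exp (θ * h) + ∑' h : ℤ, F.f l h * Real.exp (-(θ * h))) / 2 := by
    rw [← h1.tsum_add h2, ← tsum_div_const]
    refine tsum_congr fun h => ?_
    rw [Real.cosh_eq]
    ring
  rw [h4, h3]
  ring

private theorem b3_cosh_le_exp_abs (x : ℝ) : Real.cosh x ≤ Real.exp |x| := by
  rw [← Real.cosh_abs, Real.cosh_eq]
  have : Real.exp (-|x|) ≤ Real.exp |x| := Real.exp_le_exp.2 (by linarith [abs_nonneg x])
  linarith

/-- The sum over all pieces. -/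
private theorem b3_pairs (F : Law) : ∃ C : ℝ, 0 < C ∧ ∀ θ s : ℝ, 0 ≤ θ → θ ≤ F.a / 4 → 0 ≤ s → s ≤ F.a / 4 →
    Summable (fun p : ℕ × ℤ => F.f p.1 p.2 * (Real.cosh (θ * p.2) * Real.exp (s * p.1))) ∧
    ∑' p : ℕ × ℤ, F.f p.1 p.2 * (Real.cosh (θ * p.2) * Real.exp (s * p.1)) ≤ 1 + C * (θ ^ 2 + s) := by
  have ha := F.a_pos
  have hB := F.B_pos
  set K : ℝ := (8 / F.a) ^ 2 + 4 / F.a with hK
  have hK0 : 0 < K := by positivity
  have hN := a4_exp_nat (c := F.a / 2) (by linarith)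
  have hZ := a4_exp_int (c := F.a / 2) (by linarith)
  have hS : Summable fun p : ℕ × ℤ => Real.exp (-(F.a / 2) * (p.1 : ℝ)) * Real.exp (-(F.a / 2) * |(p.2 : ℝ)|) :=
    hN.mul_of_nonneg hZ (fun _ => (Real.exp_pos _).le) (fun _ => (Real.exp_pos _).le)
  have hS' := hS.mul_left (F.B * K)
  set D : ℝ := ∑' p : ℕ × ℤ, F.B * K * (Real.exp (-(F.a / 2) * (p.1 : ℝ)) * Real.exp (-(F.a / 2) * |(p.2 : ℝ)|)) with hD
  have hD0 : 0 ≤ D := tsum_nonneg fun p => by positivity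
  refine ⟨D + 1, by linarith, fun θ s h1 h2 h3 h4 => ?_⟩
  have hF := F.f_sum
  -- pointwise bound
  have key : ∀ p : ℕ × ℤ, F.f p.1 p.2 * (Real.cosh (θ * p.2) * Real.exp (s * p.1)) ≤
      F.f p.1 p.2 + (θ ^ 2 + s) *
        (F.B * K * (Real.exp (-(F.a / 2) * (p.1 : ℝ)) * Real.exp (-(F.a / 2) * |(p.2 : ℝ)|))) := by
    rintro ⟨l, h⟩
    simp only
    have hl : (0 : ℝ) ≤ l := Nat.cast_nonneg l
    have hh := abs_nonneg (h : ℝ)
    have e1 := b3_cosh_exp (x := θ * h) (y := s * l) (mul_nonneg h3 hl)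
    have e2 : (θ * (h : ℝ)) ^ 2 + s * l ≤ (θ ^ 2 + s) * (|(h : ℝ)| ^ 2 + l) := by
      rw [sq_abs]
      nlinarith [mul_nonneg h3 (sq_nonneg (h : ℝ)), mul_nonneg (sq_nonneg θ) hl]
    have e3 : |θ * (h : ℝ)| + s * l ≤ F.a / 4 * (l + |(h : ℝ)|) := by
      rw [abs_mul, abs_of_nonneg h1]
      nlinarith
    have e4 : |(h : ℝ)| ^ 2 + l ≤ K * Real.exp (F.a / 4 * (l + |(h : ℝ)|)) := by
      have g1 : F.a / 8 * |(h : ℝ)| ≤ Real.exp (F.a / 8 * |(h : ℝ)|) := by
        linarith [Real.add_one_le_exp (F.a / 8 * |(h : ℝ)|)]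
      have g2 : |(h : ℝ)| ≤ 8 / F.a * Real.exp (F.a / 8 * |(h : ℝ)|) := by
        rw [div_mul_eq_mul_div, le_div_iff₀ ha]
        linarith
      have g3 : |(h : ℝ)| ^ 2 ≤ (8 / F.a) ^ 2 * Real.exp (F.a / 4 * |(h : ℝ)|) := by
        have := pow_le_pow_left₀ hh g2 2
        rw [mul_pow, ← Real.exp_nat_mul] at this
        refine this.trans (le_of_eq ?_)
        congr 2
        push_cast
        ring
      have g4 : (l : ℝ) ≤ 4 / F.a * Real.exp (F.a / 4 * l) := by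
        have := Real.add_one_le_exp (F.a / 4 * (l : ℝ))
        rw [div_mul_eq_mul_div, le_div_iff₀ ha]
        linarith
      have g5 : Real.exp (F.a / 4 * |(h : ℝ)|) ≤ Real.exp (F.a / 4 * (l + |(h : ℝ)|)) :=
        Real.exp_le_exp.2 (by nlinarith)
      have g6 : Real.exp (F.a / 4 * (l : ℝ)) ≤ Real.exp (F.a / 4 * (l + |(h : ℝ)|)) :=
        Real.exp_le_exp.2 (by nlinarith)
      calc |(h : ℝ)| ^ 2 + l ≤ (8 / F.a) ^ 2 * Real.exp (F.a / 4 * |(h : ℝ)|) + 4 / F.a * Real.exp (F.a / 4 * l) :=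
            add_le_add g3 g4
        _ ≤ (8 / F.a) ^ 2 * Real.exp (F.a / 4 * (l + |(h : ℝ)|)) + 4 / F.a * Real.exp (F.a / 4 * (l + |(h : ℝ)|)) :=
            add_le_add (mul_le_mul_of_nonneg_left g5 (by positivity)) (mul_le_mul_of_nonneg_left g6 (by positivity))
        _ = K * Real.exp (F.a / 4 * (l + |(h : ℝ)|)) := by rw [hK]; ring
    have e5 : Real.cosh (θ * h) * Real.exp (s * l) ≤
        1 + (θ ^ 2 + s) * (K * Real.exp (F.a / 2 * (l + |(h : ℝ)|))) := by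
      refine e1.trans ?_
      have g1 : ((θ * (h : ℝ)) ^ 2 + s * l) * Real.exp (|θ * (h : ℝ)| + s * l) ≤
          ((θ ^ 2 + s) * (|(h : ℝ)| ^ 2 + l)) * Real.exp (F.a / 4 * (l + |(h : ℝ)|)) :=
        mul_le_mul e2 (Real.exp_le_exp.2 e3) (Real.exp_pos _).le (by positivity)
      have g2 : ((θ ^ 2 + s) * (|(h : ℝ)| ^ 2 + l)) * Real.exp (F.a / 4 * (l + |(h : ℝ)|)) ≤
          ((θ ^ 2 + s) * (K * Real.exp (F.a / 4 * (l + |(h : ℝ)|)))) * Real.exp (F.a / 4 * (l + |(h : ℝ)|)) := by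
        gcongr
      have g3 : Real.exp (F.a / 2 * (l + |(h : ℝ)|)) =
          Real.exp (F.a / 4 * (l + |(h : ℝ)|)) * Real.exp (F.a / 4 * (l + |(h : ℝ)|)) := by
        rw [← Real.exp_add]; ring_nf
      rw [g3]
      nlinarith
    have e6 := mul_le_mul_of_nonneg_left e5 (F.f_nonneg l h)
    have e7 := F.f_tail l h
    have e8 : F.f l h * Real.exp (F.a / 2 * (l + |(h : ℝ)|)) ≤
        F.B * (Real.exp (-(F.a / 2) * (l : ℝ)) * Real.exp (-(F.a / 2) * |(h : ℝ)|)) := by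
      have := mul_le_mul_of_nonneg_right e7 (Real.exp_pos (F.a / 2 * (l + |(h : ℝ)|))).le
      refine this.trans (le_of_eq ?_)
      rw [mul_assoc, ← Real.exp_add, ← Real.exp_add]
      congr 2
      ring
    have e9 : (θ ^ 2 + s) * K * (F.f l h * Real.exp (F.a / 2 * (l + |(h : ℝ)|))) ≤
        (θ ^ 2 + s) * K * (F.B * (Real.exp (-(F.a / 2) * (l : ℝ)) * Real.exp (-(F.a / 2) * |(h : ℝ)|))) :=
      mul_le_mul_of_nonneg_left e8 (by positivity)
    nlinarith
  have hsum : Summable (fun p : ℕ × ℤ => F.f p.1 p.2 + (θ ^ 2 + s) *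
        (F.B * K * (Real.exp (-(F.a / 2) * (p.1 : ℝ)) * Real.exp (-(F.a / 2) * |(p.2 : ℝ)|)))) :=
    hF.summable.add (hS'.mul_left _)
  have hs1 : Summable (fun p : ℕ × ℤ => F.f p.1 p.2 * (Real.cosh (θ * p.2) * Real.exp (s * p.1))) :=
    Summable.of_nonneg_of_le (fun p => mul_nonneg (F.f_nonneg _ _)
      (mul_nonneg (Real.cosh_pos _).le (Real.exp_pos _).le)) key hsum
  refine ⟨hs1, (hs1.tsum_le_tsum key hsum).trans ?_⟩
  rw [hF.summable.tsum_add (hS'.mul_left _), hF.tsum_eq, tsum_mul_left, ← hD]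
  nlinarith [sq_nonneg θ]

/-! ### the tilted characteristic functions -/

/-- The tilted characteristic function of the pieces of length `l`. -/
private noncomputable def b3phi (F : Law) (l : ℕ) (ζ : ℂ) : ℂ :=
  ∑' h : ℤ, (F.f l h : ℂ) * Complex.exp (ζ * h)

private theorem b3_norm (x : ℝ) (hx : 0 ≤ x) (ζ : ℂ) (h : ℤ) :
    ‖(x : ℂ) * Complex.exp (ζ * h)‖ = x * Real.exp (ζ.re * h) := by
  rw [norm_mul, Complex.norm_of_nonneg hx, Complex.norm_exp]
  simp [Complex.mul_re]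

private theorem b3_phi_summable (F : Law) (l : ℕ) {ζ : ℂ} (hζ : |ζ.re| < F.a) :
    Summable fun h : ℤ => ‖(F.f l h : ℂ) * Complex.exp (ζ * h)‖ :=
  (b3_h_sum F l hζ).congr fun h => (b3_norm _ (F.f_nonneg _ _) ζ h).symm

private theorem b3_phi_le (F : Law) (l : ℕ) {ζ : ℂ} (hζ : |ζ.re| < F.a) :
    ‖b3phi F l ζ‖ ≤ ∑' h : ℤ, F.f l h * Real.exp (ζ.re * h) := by
  refine (norm_tsum_le_tsum_norm (b3_phi_summable F l hζ)).trans (le_of_eq (tsum_congr fun h => ?_))
  rw [b3_norm _ (F.f_nonneg _ _)]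

private theorem b3_three {f0 f1 g M : ℝ} {ζ : ℂ} (h0 : 0 < f0) (h1 : 0 < f1) (ht : |ζ.im| ≤ Real.pi)
    (hM : M = f0 + 2 * f1 * Real.cosh ζ.re) (hg : g * M * Real.pi ^ 2 ≤ 4 * f0 * f1) (hg0 : 0 ≤ g) :
    ‖(f0 : ℂ) + f1 * (Complex.exp ζ + Complex.exp (-ζ))‖ ≤ M - g * ζ.im ^ 2 := by
  set θ := ζ.re
  set t := ζ.im
  have hc : 1 ≤ Real.cosh θ := Real.one_le_cosh θ
  have hM0 : 0 < M := by rw [hM]; positivity
  have hcos := Real.cos_le_one_sub_mul_cos_sq ht
  have hpi := Real.pi_pos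
  have hcos' : 2 * t ^ 2 ≤ Real.pi ^ 2 * (1 - Real.cos t) := by
    have e1 : 2 / Real.pi ^ 2 * t ^ 2 * Real.pi ^ 2 = 2 * t ^ 2 := by field_simp
    nlinarith [sq_nonneg Real.pi]
  have ht2 : t ^ 2 ≤ Real.pi ^ 2 := by
    rw [← sq_abs t]; exact pow_le_pow_left₀ (abs_nonneg t) ht 2
  have h2 : g * M * t ^ 2 ≤ 4 * f0 * f1 :=
    (mul_le_mul_of_nonneg_left ht2 (mul_nonneg hg0 hM0.le)).trans hg
  have hf01 : 0 < f0 * f1 := mul_pos h0 h1
  have hMM : 8 * f0 * f1 ≤ M ^ 2 := by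
    have e1 : M ^ 2 = (f0 - 2 * f1 * Real.cosh θ) ^ 2 + 8 * (f0 * f1) * Real.cosh θ := by rw [hM]; ring
    have e2 : 8 * (f0 * f1) * 1 ≤ 8 * (f0 * f1) * Real.cosh θ := mul_le_mul_of_nonneg_left hc (by positivity)
    nlinarith [sq_nonneg (f0 - 2 * f1 * Real.cosh θ)]
  have h3 : 0 ≤ M - g * t ^ 2 := by
    have e1 : g * t ^ 2 * M ≤ M * M := by nlinarith
    have := le_of_mul_le_mul_right e1 hM0
    linarith
  have hcos1 : 0 ≤ 1 - Real.cos t := by linarith [Real.cos_le_one t]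
  have h4 : 2 * M * (g * t ^ 2) ≤ 4 * (f0 * f1) * (1 - Real.cos t) := by
    have e1 := mul_le_mul_of_nonneg_left hcos' (mul_nonneg hg0 hM0.le)
    have e2 := mul_le_mul_of_nonneg_right hg hcos1
    nlinarith
  have h5 : ‖(f0 : ℂ) + f1 * (Complex.exp ζ + Complex.exp (-ζ))‖ ^ 2 ≤ (M - g * t ^ 2) ^ 2 := by
    rw [Complex.sq_norm, Complex.normSq_apply]
    have er : ((f0 : ℂ) + f1 * (Complex.exp ζ + Complex.exp (-ζ))).re = f0 + 2 * f1 * Real.cosh θ * Real.cos t := by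
      simp only [Complex.add_re, Complex.ofReal_re, Complex.mul_re, Complex.ofReal_im, zero_mul, sub_zero,
        Complex.exp_re, Complex.neg_re, Complex.neg_im, Real.cos_neg]
      rw [Real.cosh_eq]
      ring
    have ei : ((f0 : ℂ) + f1 * (Complex.exp ζ + Complex.exp (-ζ))).im = 2 * f1 * Real.sinh θ * Real.sin t := by
      simp only [Complex.add_im, Complex.ofReal_im, Complex.mul_im, Complex.ofReal_re, zero_mul, add_zero,
        Complex.exp_im, Complex.neg_re, Complex.neg_im, Real.sin_neg, zero_add]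
      rw [Real.sinh_eq]
      ring
    rw [er, ei]
    have e1 : Real.sinh θ ^ 2 = Real.cosh θ ^ 2 - 1 := Real.sinh_sq θ
    have e2 : Real.cos t ^ 2 = 1 - Real.sin t ^ 2 := Real.cos_sq' t
    have e3 : (f0 + 2 * f1 * Real.cosh θ * Real.cos t) * (f0 + 2 * f1 * Real.cosh θ * Real.cos t) +
        2 * f1 * Real.sinh θ * Real.sin t * (2 * f1 * Real.sinh θ * Real.sin t) =
        f0 ^ 2 + 4 * (f0 * f1) * Real.cosh θ * Real.cos t + 4 * f1 ^ 2 * (Real.cosh θ ^ 2 * Real.cos t ^ 2 +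
          Real.sinh θ ^ 2 * Real.sin t ^ 2) := by ring
    have e4 : Real.cosh θ ^ 2 * Real.cos t ^ 2 + Real.sinh θ ^ 2 * Real.sin t ^ 2 =
        Real.cosh θ ^ 2 - Real.sin t ^ 2 := by rw [e1, e2]; ring
    rw [e3, e4]
    have e5 : M ^ 2 = f0 ^ 2 + 4 * (f0 * f1) * Real.cosh θ + 4 * f1 ^ 2 * Real.cosh θ ^ 2 := by rw [hM]; ring
    have e6 : 4 * (f0 * f1) * (1 - Real.cos t) ≤ 4 * (f0 * f1) * Real.cosh θ * (1 - Real.cos t) := by
      have := mul_le_mul_of_nonneg_left hc (show 0 ≤ 4 * (f0 * f1) * (1 - Real.cos t) by positivity)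
      nlinarith
    nlinarith [sq_nonneg (g * t ^ 2), mul_nonneg (sq_nonneg f1) (sq_nonneg (Real.sin t))]
  exact (sq_le_sq₀ (norm_nonneg _) h3).1 h5

private theorem b3_gain (F : Law) : ∃ g : ℝ, 0 < g ∧ ∀ ζ : ℂ, |ζ.re| < F.a → |ζ.re| ≤ 1 → |ζ.im| ≤ Real.pi →
    ‖b3phi F F.l0 ζ‖ ≤ ∑' h : ℤ, F.f F.l0 h * Real.exp (ζ.re * h) - g * ζ.im ^ 2 := by
  have h0 := F.f_l0
  have h1 := F.f_l01
  set f0 := F.f F.l0 0 with hf0
  set f1 := F.f F.l0 1 with hf1
  have hpi := Real.pi_pos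
  have hco : 0 < Real.cosh 1 := Real.cosh_pos 1
  set g : ℝ := 4 * f0 * f1 / ((f0 + 2 * f1 * Real.cosh 1) * Real.pi ^ 2) with hg
  have hg0 : 0 < g := by positivity
  refine ⟨g, hg0, fun ζ hζ hζ1 ht => ?_⟩
  have hb := b3_h_sum F F.l0 hζ
  have hn := b3_phi_summable F F.l0 hζ
  have ha : Summable fun h : ℤ => (F.f F.l0 h : ℂ) * Complex.exp (ζ * h) := hn.of_norm
  set S : Finset ℤ := {0, 1, -1} with hS
  have e1 := ha.sum_add_tsum_compl (s := S)
  have e2 := hb.sum_add_tsum_compl (s := S)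
  have e3 : ∑ x ∈ S, (F.f F.l0 x : ℂ) * Complex.exp (ζ * x) =
      (f0 : ℂ) + f1 * (Complex.exp ζ + Complex.exp (-ζ)) := by
    rw [hS, Finset.sum_insert (by decide), Finset.sum_insert (by decide), Finset.sum_singleton]
    rw [F.f_symm]
    simp only [Int.cast_zero, mul_zero, Complex.exp_zero, mul_one, Int.cast_one, Int.cast_neg, mul_neg,
      ← hf0, ← hf1]
    ring
  have e4 : ∑ x ∈ S, F.f F.l0 x * Real.exp (ζ.re * x) = f0 + 2 * f1 * Real.cosh ζ.re := by
    rw [hS, Finset.sum_insert (by decide), Finset.sum_insert (by decide), Finset.sum_singleton]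
    rw [F.f_symm, Real.cosh_eq]
    simp only [Int.cast_zero, mul_zero, Real.exp_zero, mul_one, Int.cast_one, Int.cast_neg, mul_neg,
      ← hf0, ← hf1]
    ring
  have e5 : ‖∑' x : ((S : Set ℤ)ᶜ : Set ℤ), (F.f F.l0 (x : ℤ) : ℂ) * Complex.exp (ζ * ((x : ℤ) : ℂ))‖ ≤
      ∑' x : ((S : Set ℤ)ᶜ : Set ℤ), F.f F.l0 (x : ℤ) * Real.exp (ζ.re * ((x : ℤ) : ℝ)) := by
    refine (norm_tsum_le_tsum_norm (hn.subtype _)).trans (le_of_eq (tsum_congr fun h => ?_))
    rw [b3_norm _ (F.f_nonneg _ _)]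
  have e6 : ‖(f0 : ℂ) + f1 * (Complex.exp ζ + Complex.exp (-ζ))‖ ≤
      (f0 + 2 * f1 * Real.cosh ζ.re) - g * ζ.im ^ 2 := by
    refine b3_three h0 h1 ht rfl ?_ hg0.le
    have hcc : Real.cosh ζ.re ≤ Real.cosh 1 := by
      rw [Real.cosh_le_cosh]
      simpa using hζ1
    have hpos : 0 < (f0 + 2 * f1 * Real.cosh 1) * Real.pi ^ 2 := by positivity
    calc g * (f0 + 2 * f1 * Real.cosh ζ.re) * Real.pi ^ 2 ≤ g * (f0 + 2 * f1 * Real.cosh 1) * Real.pi ^ 2 := by
          gcongr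
      _ = 4 * f0 * f1 := by rw [hg, mul_assoc, div_mul_cancel₀ _ hpos.ne']
  have e7 : ‖b3phi F F.l0 ζ‖ ≤ ‖(f0 : ℂ) + f1 * (Complex.exp ζ + Complex.exp (-ζ))‖ +
      ‖∑' x : ((S : Set ℤ)ᶜ : Set ℤ), (F.f F.l0 (x : ℤ) : ℂ) * Complex.exp (ζ * ((x : ℤ) : ℂ))‖ := by
    unfold b3phi
    rw [← e1, e3]
    exact norm_add_le _ _
  rw [← e2, e4]
  linarith

private theorem b3_sum_le (F : Law) : ∃ c δ : ℝ, 0 < c ∧ 0 < δ ∧ ∀ ζ : ℂ, |ζ.im| ≤ Real.pi → 0 ≤ ζ.re →
    ζ.re ^ 2 ≤ δ * ζ.im ^ 2 → ζ.re < F.a ∧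
      ∀ N : ℕ, ∑ l ∈ Finset.range N, ‖b3phi F (l + 1) ζ‖ * Real.exp (c * ζ.im ^ 2 * (l + 1 : ℕ)) ≤ 1 := by
  obtain ⟨C, hC, hP⟩ := b3_pairs F
  obtain ⟨g, hg, hG⟩ := b3_gain F
  have ha := F.a_pos
  have hpi := Real.pi_pos
  set c : ℝ := min (g / (2 * C)) (F.a / 4 / Real.pi ^ 2) with hc
  set δ : ℝ := min (g / (2 * C)) (min 1 ((F.a / 4) ^ 2) / Real.pi ^ 2) with hδ
  have hc0 : 0 < c := lt_min (by positivity) (by positivity)
  have hδ0 : 0 < δ := lt_min (by positivity) (div_pos (lt_min one_pos (by positivity)) (by positivity))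
  refine ⟨c, δ, hc0, hδ0, fun ζ ht hθ hθt => ?_⟩
  set θ := ζ.re with hθdef
  set t := ζ.im with htdef
  have ht2 : t ^ 2 ≤ Real.pi ^ 2 := by
    rw [← sq_abs t]; exact pow_le_pow_left₀ (abs_nonneg t) ht 2
  have h1 : θ ^ 2 ≤ min 1 ((F.a / 4) ^ 2) := by
    refine hθt.trans ?_
    calc δ * t ^ 2 ≤ (min 1 ((F.a / 4) ^ 2) / Real.pi ^ 2) * Real.pi ^ 2 :=
          mul_le_mul (min_le_right _ _) ht2 (sq_nonneg _) (by positivity)
      _ = min 1 ((F.a / 4) ^ 2) := div_mul_cancel₀ _ (by positivity)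
  have hθ1 : θ ≤ 1 := by
    have := h1.trans (min_le_left _ _)
    nlinarith
  have hθa : θ ≤ F.a / 4 := by
    have := h1.trans (min_le_right _ _)
    exact (sq_le_sq₀ hθ (by linarith)).1 this
  have hθa' : θ < F.a := by linarith
  have hθabs : |θ| < F.a := by rwa [abs_of_nonneg hθ]
  refine ⟨hθa', fun N => ?_⟩
  set s : ℝ := c * t ^ 2 with hs
  have hs0 : 0 ≤ s := by positivity
  have hsa : s ≤ F.a / 4 := by
    calc c * t ^ 2 ≤ (F.a / 4 / Real.pi ^ 2) * Real.pi ^ 2 :=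
          mul_le_mul (min_le_right _ _) ht2 (sq_nonneg _) (by positivity)
      _ = F.a / 4 := div_mul_cancel₀ _ (by positivity)
  obtain ⟨hS, hS1⟩ := hP θ s hθ hθa hs0 hsa
  have hl0 : F.l0 ≠ 0 := by
    intro h
    have := F.f_l0
    rw [h, F.f_zero] at this
    exact lt_irrefl _ this
  -- the sums over the heights
  let T : ℕ → ℝ := fun l => (∑' h : ℤ, F.f l h * Real.exp (θ * h)) * Real.exp (s * l)
  have hT : ∀ l, T l = ∑' h : ℤ, F.f l h * (Real.cosh (θ * h) * Real.exp (s * l)) := by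
    intro l
    change (∑' h : ℤ, F.f l h * Real.exp (θ * h)) * Real.exp (s * l) = _
    rw [b3_h_cosh F l hθabs, ← tsum_mul_right]
    exact tsum_congr fun h => by ring
  have hT0 : ∀ l, 0 ≤ T l := fun l => mul_nonneg
    (tsum_nonneg fun h => mul_nonneg (F.f_nonneg _ _) (Real.exp_pos _).le) (Real.exp_pos _).le
  have hTs : Summable T := by
    have := hS.prod
    exact this.congr fun l => (hT l).symm
  have hTt : ∑' l, T l ≤ 1 + C * (θ ^ 2 + s) := by
    rw [hS.tsum_prod] at hS1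
    refine le_trans (le_of_eq (tsum_congr fun l => hT l)) hS1
  have hterm : ∀ l : ℕ, ‖b3phi F (l + 1) ζ‖ * Real.exp (s * (l + 1 : ℕ)) ≤
      T (l + 1) - (if l + 1 = F.l0 then g * t ^ 2 else 0) := by
    intro l
    split_ifs with h
    · have e1 := hG ζ hθabs (by rwa [abs_of_nonneg hθ]) ht
      rw [h]
      have e2 : 1 ≤ Real.exp (s * (F.l0 : ℕ)) := Real.one_le_exp (by positivity)
      have e3 := mul_le_mul_of_nonneg_right e1 (Real.exp_pos (s * (F.l0 : ℕ))).le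
      refine e3.trans ?_
      change _ ≤ (∑' h : ℤ, F.f F.l0 h * Real.exp (θ * h)) * Real.exp (s * (F.l0 : ℕ)) - g * t ^ 2
      have e4 : g * t ^ 2 ≤ g * t ^ 2 * Real.exp (s * (F.l0 : ℕ)) := le_mul_of_one_le_right (by positivity) e2
      rw [sub_mul]
      linarith
    · rw [sub_zero]
      exact mul_le_mul_of_nonneg_right (b3_phi_le F (l + 1) hθabs) (Real.exp_pos _).le
  have hnn : ∀ l : ℕ, 0 ≤ ‖b3phi F (l + 1) ζ‖ * Real.exp (s * (l + 1 : ℕ)) := fun l => by positivity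
  obtain ⟨k, hk⟩ : ∃ k, F.l0 = k + 1 := ⟨F.l0 - 1, by omega⟩
  have hfin : ∑ l ∈ Finset.range (N + F.l0), (if l + 1 = F.l0 then g * t ^ 2 else 0) = g * t ^ 2 := by
    have e1 : ∀ l, (l + 1 = F.l0) ↔ (l = k) := fun l => by omega
    simp only [e1]
    rw [Finset.sum_ite_eq' (Finset.range (N + F.l0)) k (fun _ => g * t ^ 2), if_pos]
    rw [Finset.mem_range]; omega
  calc ∑ l ∈ Finset.range N, ‖b3phi F (l + 1) ζ‖ * Real.exp (s * (l + 1 : ℕ))
      ≤ ∑ l ∈ Finset.range (N + F.l0), ‖b3phi F (l + 1) ζ‖ * Real.exp (s * (l + 1 : ℕ)) :=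
        Finset.sum_le_sum_of_subset_of_nonneg (Finset.range_mono (by omega)) fun l _ _ => hnn l
    _ ≤ ∑ l ∈ Finset.range (N + F.l0), (T (l + 1) - (if l + 1 = F.l0 then g * t ^ 2 else 0)) :=
        Finset.sum_le_sum fun l _ => hterm l
    _ = ∑ l ∈ Finset.range (N + F.l0), T (l + 1) - g * t ^ 2 := by rw [Finset.sum_sub_distrib, hfin]
    _ ≤ ∑ l ∈ Finset.range (N + F.l0 + 1), T l - g * t ^ 2 := by
        rw [Finset.sum_range_succ']
        linarith [hT0 0]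
    _ ≤ ∑' l, T l - g * t ^ 2 := by
        linarith [hTs.sum_le_tsum (Finset.range (N + F.l0 + 1)) fun l _ => hT0 l]
    _ ≤ 1 := by
        have e1 : C * θ ^ 2 ≤ g / 2 * t ^ 2 := by
          have g1 : θ ^ 2 ≤ g / (2 * C) * t ^ 2 :=
            hθt.trans (mul_le_mul_of_nonneg_right (min_le_left _ _) (sq_nonneg _))
          calc C * θ ^ 2 ≤ C * (g / (2 * C) * t ^ 2) := mul_le_mul_of_nonneg_left g1 hC.le
            _ = g / 2 * t ^ 2 := by field_simp
        have e2 : C * s ≤ g / 2 * t ^ 2 := by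
          have g1 : s ≤ g / (2 * C) * t ^ 2 := mul_le_mul_of_nonneg_right (min_le_left _ _) (sq_nonneg _)
          calc C * s ≤ C * (g / (2 * C) * t ^ 2) := mul_le_mul_of_nonneg_left g1 hC.le
            _ = g / 2 * t ^ 2 := by field_simp
        linarith

/-! ### the tilted renewal sequence -/

private noncomputable def b3A (F : Law) (n : ℕ) (ζ : ℂ) : ℂ :=
  ∑' h : ℤ, (U F n h : ℂ) * Complex.exp (ζ * h)

private theorem b3_u_cosh (F : Law) : ∃ C θ₀ : ℝ, 0 < C ∧ 0 < θ₀ ∧ ∀ θ : ℝ, 0 ≤ θ → θ ≤ θ₀ → ∀ n : ℕ,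
    (Summable fun h : ℤ => U F n h * Real.exp (θ * h)) ∧
      ∑' h : ℤ, U F n h * Real.exp (θ * h) ≤ Real.exp (C * θ ^ 2 * n) := by
  obtain ⟨C, θ₀, hC, hθ₀, h⟩ := cosh_moment F
  refine ⟨C, θ₀, hC, hθ₀, fun θ h0 h1 n => ?_⟩
  have h2 := h θ h0 h1 n 0 0
  have h3 : ∀ y : ℤ, G (K0 F) n 0 y * ENNReal.ofReal (Real.cosh (θ * ((y : ℝ) - ((0 : ℤ) : ℝ)))) =
      ENNReal.ofReal (U F n y * Real.cosh (θ * y)) := by
    intro y
    rw [u_eq, sub_zero, Int.cast_zero, sub_zero, ← ENNReal.ofReal_mul (u_nonneg F n y)]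
  rw [tsum_congr h3] at h2
  have h4 : ∑' y : ℤ, ENNReal.ofReal (U F n y * Real.cosh (θ * y)) ≠ ⊤ := ne_top_of_le_ne_top ENNReal.ofReal_ne_top h2
  have hnn : ∀ y : ℤ, 0 ≤ U F n y * Real.cosh (θ * y) := fun y =>
    mul_nonneg (u_nonneg F n y) (Real.cosh_pos _).le
  have h5 : Summable fun y : ℤ => U F n y * Real.cosh (θ * y) := by
    have := ENNReal.summable_toReal h4
    exact this.congr fun y => ENNReal.toReal_ofReal (hnn y)
  have h6 : ∑' y : ℤ, U F n y * Real.cosh (θ * y) ≤ Real.exp (C * θ ^ 2 * n) := by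
    rw [← ENNReal.ofReal_tsum_of_nonneg hnn h5] at h2
    have h7 := (ENNReal.ofReal_le_ofReal_iff (by positivity)).1 h2
    simpa using h7
  have h8 : Summable fun y : ℤ => U F n y * Real.exp (θ * y) := by
    refine Summable.of_nonneg_of_le (fun y => mul_nonneg (u_nonneg F n y) (Real.exp_pos _).le) (fun y => ?_)
      (h5.mul_left 2)
    have e1 : Real.exp (θ * y) ≤ 2 * Real.cosh (θ * y) := by
      rw [Real.cosh_eq]
      linarith [Real.exp_pos (-(θ * (y : ℝ)))]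
    nlinarith [u_nonneg F n y]
  have h9 : Summable fun y : ℤ => U F n y * Real.exp (-(θ * y)) := by
    refine Summable.of_nonneg_of_le (fun y => mul_nonneg (u_nonneg F n y) (Real.exp_pos _).le) (fun y => ?_)
      (h5.mul_left 2)
    have e1 : Real.exp (-(θ * y)) ≤ 2 * Real.cosh (θ * y) := by
      rw [Real.cosh_eq]
      linarith [Real.exp_pos (θ * (y : ℝ))]
    nlinarith [u_nonneg F n y]
  refine ⟨h8, ?_⟩
  have h10 : ∑' h : ℤ, U F n h * Real.exp (-(θ * h)) = ∑' h : ℤ, U F n h * Real.exp (θ * h) := by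
    rw [← (Equiv.neg ℤ).tsum_eq]
    refine tsum_congr fun h => ?_
    simp only [Equiv.neg_apply, u_symm, Int.cast_neg]
    congr 2
    ring
  have h11 : ∑' h : ℤ, U F n h * Real.cosh (θ * h) =
      (∑' h : ℤ, U F n h * Real.exp (θ * h) + ∑' h : ℤ, U F n h * Real.exp (-(θ * h))) / 2 := by
    rw [← h8.tsum_add h9, ← tsum_div_const]
    refine tsum_congr fun h => ?_
    rw [Real.cosh_eq]
    ring
  rw [h10] at h11
  linarith

private theorem b3_u_le_one (F : Law) (n : ℕ) (h : ℤ) : U F n h ≤ 1 := by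
  unfold U
  have h1 : G (K0 F) n 0 h ≤ 1 := (ENNReal.le_tsum h).trans (g_sum_le F n 0)
  have := ENNReal.toReal_mono ENNReal.one_ne_top h1
  simpa using this

private theorem b3_u_rec (F : Law) (n : ℕ) (h : ℤ) :
    U F (n + 1) h = ∑ l ∈ Finset.range (n + 1), ∑' z : ℤ, F.f (l + 1) z * U F (n - l) (h - z) := by
  have hs : ∀ l m : ℕ, Summable fun z : ℤ => F.f l z * U F m (h - z) := fun l m =>
    Summable.of_nonneg_of_le (fun z => mul_nonneg (F.f_nonneg _ _) (u_nonneg F _ _))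
      (fun z => mul_le_of_le_one_right (F.f_nonneg _ _) (b3_u_le_one F _ _)) (f_summable F l)
  have hnn : ∀ l m : ℕ, 0 ≤ ∑' z : ℤ, F.f l z * U F m (h - z) := fun l m =>
    tsum_nonneg fun z => mul_nonneg (F.f_nonneg _ _) (u_nonneg F _ _)
  have e1 : G (K0 F) (n + 1) 0 h = ENNReal.ofReal
      (∑ l ∈ Finset.range (n + 1), ∑' z : ℤ, F.f (l + 1) z * U F (n - l) (h - z)) := by
    rw [G_succ, ENNReal.ofReal_sum_of_nonneg (fun l _ => hnn _ _)]
    refine Finset.sum_congr rfl fun l _ => ?_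
    rw [ENNReal.ofReal_tsum_of_nonneg (fun z => mul_nonneg (F.f_nonneg _ _) (u_nonneg F _ _)) (hs _ _)]
    refine tsum_congr fun z => ?_
    rw [u_eq, ENNReal.ofReal_mul (F.f_nonneg _ _)]
    unfold K0
    rw [sub_zero]
  change (G (K0 F) (n + 1) 0 h).toReal = _
  rw [e1, ENNReal.toReal_ofReal (Finset.sum_nonneg fun l _ => hnn _ _)]

/-- shear of the pairs -/
private def b3_shear : ℤ × ℤ ≃ ℤ × ℤ where
  toFun p := (p.2, p.1 - p.2)
  invFun p := (p.1 + p.2, p.1)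
  left_inv p := by simp
  right_inv p := by simp

private theorem b3_A_rec (F : Law) {ζ : ℂ} (hf : |ζ.re| < F.a)
    (hu : ∀ n : ℕ, Summable fun h : ℤ => U F n h * Real.exp (ζ.re * h)) (n : ℕ) :
    b3A F (n + 1) ζ = ∑ l ∈ Finset.range (n + 1), b3phi F (l + 1) ζ * b3A F (n - l) ζ := by
  have hu' : ∀ m : ℕ, Summable fun h : ℤ => ‖(U F m h : ℂ) * Complex.exp (ζ * h)‖ := fun m =>
    (hu m).congr fun h => (b3_norm _ (u_nonneg F m h) ζ h).symm
  have key : ∀ l m : ℕ, (Summable fun h : ℤ => ((∑' z : ℤ, F.f l z * U F m (h - z) : ℝ) : ℂ) * Complex.exp (ζ * h)) ∧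
      ∑' h : ℤ, ((∑' z : ℤ, F.f l z * U F m (h - z) : ℝ) : ℂ) * Complex.exp (ζ * h) = b3phi F l ζ * b3A F m ζ := by
    intro l m
    have e0 := summable_mul_of_summable_norm (b3_phi_summable F l hf) (hu' m)
    have e1 := tsum_mul_tsum_of_summable_norm (b3_phi_summable F l hf) (hu' m)
    have e2 : Summable fun p : ℤ × ℤ => ((F.f l (b3_shear p).1 : ℂ) * Complex.exp (ζ * ((b3_shear p).1 : ℤ))) *
        ((U F m (b3_shear p).2 : ℂ) * Complex.exp (ζ * ((b3_shear p).2 : ℤ))) :=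
      (b3_shear.summable_iff (f := fun p : ℤ × ℤ => ((F.f l p.1 : ℂ) * Complex.exp (ζ * (p.1 : ℤ))) *
        ((U F m p.2 : ℂ) * Complex.exp (ζ * (p.2 : ℤ))))).2 e0
    have e3 := b3_shear.tsum_eq (fun p : ℤ × ℤ => ((F.f l p.1 : ℂ) * Complex.exp (ζ * (p.1 : ℤ))) *
        ((U F m p.2 : ℂ) * Complex.exp (ζ * (p.2 : ℤ))))
    have e4 : ∀ h z : ℤ, ((F.f l (b3_shear (h, z)).1 : ℂ) * Complex.exp (ζ * ((b3_shear (h, z)).1 : ℤ))) *
        ((U F m (b3_shear (h, z)).2 : ℂ) * Complex.exp (ζ * ((b3_shear (h, z)).2 : ℤ))) =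
        ((F.f l z * U F m (h - z) : ℝ) : ℂ) * Complex.exp (ζ * h) := by
      intro h z
      have g1 : Complex.exp (ζ * h) = Complex.exp (ζ * (z : ℤ)) * Complex.exp (ζ * ((h - z : ℤ) : ℂ)) := by
        rw [← Complex.exp_add, ← mul_add]
        congr 2
        push_cast
        ring
      rw [g1]
      simp only [b3_shear, Equiv.coe_fn_mk, Complex.ofReal_mul]
      ring
    have e5 : ∀ h : ℤ, ∑' z : ℤ, (((F.f l z * U F m (h - z) : ℝ) : ℂ) * Complex.exp (ζ * h)) =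
        ((∑' z : ℤ, F.f l z * U F m (h - z) : ℝ) : ℂ) * Complex.exp (ζ * h) := by
      intro h
      rw [tsum_mul_right, Complex.ofReal_tsum]
    constructor
    · have := e2.prod
      refine this.congr fun h => ?_
      rw [← e5 h]
      exact tsum_congr fun z => e4 h z
    · unfold b3phi b3A
      rw [e1, ← e3, e2.tsum_prod]
      refine tsum_congr fun h => ?_
      rw [← e5 h]
      exact (tsum_congr fun z => e4 h z).symm
  have h1 : b3A F (n + 1) ζ = ∑' h : ℤ, ∑ l ∈ Finset.range (n + 1),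
      ((∑' z : ℤ, F.f (l + 1) z * U F (n - l) (h - z) : ℝ) : ℂ) * Complex.exp (ζ * h) := by
    unfold b3A
    refine tsum_congr fun h => ?_
    rw [b3_u_rec, Complex.ofReal_sum, Finset.sum_mul]
  rw [h1, Summable.tsum_finsetSum (fun l _ => (key (l + 1) (n - l)).1)]
  exact Finset.sum_congr rfl fun l _ => (key (l + 1) (n - l)).2

private theorem b3_A_zero (F : Law) (ζ : ℂ) : b3A F 0 ζ = 1 := by
  unfold b3A
  rw [tsum_eq_single 0]
  · unfold U
    rw [G_zero, if_pos rfl]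
    simp
  · intro h hh
    unfold U
    rw [G_zero, if_neg (Ne.symm hh)]
    simp

/-- The bound for the tilted renewal sequence. -/
private theorem b3_A_le (F : Law) : ∃ C c θ₀ : ℝ, 0 < C ∧ 0 < c ∧ 0 < θ₀ ∧ ∀ ζ : ℂ, |ζ.im| ≤ Real.pi → 0 ≤ ζ.re →
    ζ.re ≤ θ₀ → ∀ n : ℕ, (Summable fun h : ℤ => U F n h * Real.exp (ζ.re * h)) ∧
      ‖b3A F n ζ‖ ≤ Real.exp (C * ζ.re ^ 2 * n) * Real.exp (-(c * n) * ζ.im ^ 2) := by
  obtain ⟨C₀, θ₀, hC₀, hθ₀, hu⟩ := b3_u_cosh F
  obtain ⟨c, δ, hc, hδ, hB⟩ := b3_sum_le F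
  refine ⟨C₀ + c / δ, c, θ₀, by positivity, hc, hθ₀, fun ζ ht h0 h1 n => ?_⟩
  have hsum := fun m => (hu ζ.re h0 h1 m).1
  refine ⟨hsum n, ?_⟩
  by_cases hcase : ζ.re ^ 2 ≤ δ * ζ.im ^ 2
  · -- no tilting needed
    obtain ⟨ha, hN⟩ := hB ζ ht h0 hcase
    have hre : |ζ.re| < F.a := by rwa [abs_of_nonneg h0]
    have main : ∀ m : ℕ, ‖b3A F m ζ‖ ≤ Real.exp (-(c * ζ.im ^ 2) * m) := by
      intro m
      induction m using Nat.strong_induction_on with
      | _ m ih =>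
        cases m with
        | zero => rw [b3_A_zero]; simp
        | succ m =>
          rw [b3_A_rec F hre hsum m]
          refine (norm_sum_le _ _).trans ?_
          have e1 : ∀ l ∈ Finset.range (m + 1), ‖b3phi F (l + 1) ζ * b3A F (m - l) ζ‖ ≤
              (‖b3phi F (l + 1) ζ‖ * Real.exp (c * ζ.im ^ 2 * (l + 1 : ℕ))) *
                Real.exp (-(c * ζ.im ^ 2) * (m + 1 : ℕ)) := by
            intro l hl
            rw [Finset.mem_range] at hl
            rw [norm_mul, mul_assoc, ← Real.exp_add]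
            refine mul_le_mul_of_nonneg_left ((ih (m - l) (by omega)).trans (le_of_eq ?_)) (norm_nonneg _)
            congr 1
            rw [Nat.cast_sub (by omega)]
            push_cast
            ring
          refine (Finset.sum_le_sum e1).trans ?_
          rw [← Finset.sum_mul]
          exact mul_le_of_le_one_left (Real.exp_pos _).le (hN (m + 1))
    refine (main n).trans ?_
    have e1 : 1 ≤ Real.exp ((C₀ + c / δ) * ζ.re ^ 2 * n) := Real.one_le_exp (by positivity)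
    calc Real.exp (-(c * ζ.im ^ 2) * n) = 1 * Real.exp (-(c * n) * ζ.im ^ 2) := by rw [one_mul]; ring_nf
      _ ≤ _ := mul_le_mul_of_nonneg_right e1 (Real.exp_pos _).le
  · push Not at hcase
    have e1 : ‖b3A F n ζ‖ ≤ Real.exp (C₀ * ζ.re ^ 2 * n) := by
      refine le_trans ?_ (hu ζ.re h0 h1 n).2
      have e2 : Summable fun h : ℤ => ‖(U F n h : ℂ) * Complex.exp (ζ * h)‖ :=
        (hsum n).congr fun h => (b3_norm _ (u_nonneg F n h) ζ h).symm
      refine (norm_tsum_le_tsum_norm e2).trans (le_of_eq (tsum_congr fun h => ?_))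
      rw [b3_norm _ (u_nonneg F n h)]
    refine e1.trans ?_
    rw [← Real.exp_add]
    refine Real.exp_le_exp.2 ?_
    have e3 : c * ζ.im ^ 2 ≤ c / δ * ζ.re ^ 2 := by
      rw [div_mul_eq_mul_div, le_div_iff₀ hδ]
      nlinarith
    have e4 := mul_le_mul_of_nonneg_right e3 (Nat.cast_nonneg n : (0 : ℝ) ≤ n)
    nlinarith

/-! ### Fourier inversion -/

private theorem b3_int_exp (m : ℤ) : ∫ t in (-Real.pi)..Real.pi, Complex.exp (m * t * Complex.I) =
    if m = 0 then 2 * (Real.pi : ℂ) else 0 := by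
  split_ifs with h
  · subst h
    simp only [Int.cast_zero, zero_mul, Complex.exp_zero]
    rw [intervalIntegral.integral_const]
    simp
    ring
  · have hm : (m : ℂ) * Complex.I ≠ 0 := mul_ne_zero (by exact_mod_cast h) Complex.I_ne_zero
    have e1 : ∀ t : ℝ, Complex.exp (m * t * Complex.I) = Complex.exp ((m * Complex.I) * t) := fun t => by
      congr 1; ring
    simp only [e1]
    rw [integral_exp_mul_complex hm]
    have e2 : Complex.exp (m * Complex.I * (Real.pi : ℝ)) = Complex.exp (m * Complex.I * ((-Real.pi : ℝ) : ℂ)) := by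
      have : (m : ℂ) * Complex.I * (Real.pi : ℝ) = m * Complex.I * ((-Real.pi : ℝ) : ℂ) + m * (2 * Real.pi * Complex.I) := by
        push_cast; ring
      rw [this]
      rw [Complex.exp_add, Complex.exp_int_mul_two_pi_mul_I, mul_one]
    rw [e2, sub_self, zero_div]

private theorem b3_inv {c : ℤ → ℂ} (hc : Summable fun k => ‖c k‖) (h : ℤ) :
    ∫ t in (-Real.pi)..Real.pi, (∑' k : ℤ, c k * Complex.exp (k * t * Complex.I)) *
      Complex.exp (-(h * t * Complex.I)) = 2 * Real.pi * c h := by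
  have hn : ∀ (k : ℤ) (t : ℝ), ‖Complex.exp (k * t * Complex.I)‖ = 1 := fun k t => by
    have : (k : ℂ) * t * Complex.I = ((k * t : ℝ) : ℂ) * Complex.I := by push_cast; ring
    rw [this, Complex.norm_exp_ofReal_mul_I]
  have hn' : ∀ (t : ℝ), ‖Complex.exp (-(h * t * Complex.I))‖ = 1 := fun t => by
    have : -((h : ℂ) * t * Complex.I) = ((-(h * t) : ℝ) : ℂ) * Complex.I := by push_cast; ring
    rw [this, Complex.norm_exp_ofReal_mul_I]
  have h1 : HasSum (fun k : ℤ => ∫ t in (-Real.pi)..Real.pi, c k * Complex.exp (k * t * Complex.I) *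
      Complex.exp (-(h * t * Complex.I))) (∫ t in (-Real.pi)..Real.pi,
        (∑' k : ℤ, c k * Complex.exp (k * t * Complex.I)) * Complex.exp (-(h * t * Complex.I))) := by
    refine intervalIntegral.hasSum_integral_of_dominated_convergence (fun k _ => ‖c k‖) ?_ ?_ ?_ ?_ ?_
    · intro k
      exact (Continuous.aestronglyMeasurable (by fun_prop))
    · intro k
      refine Filter.Eventually.of_forall fun t _ => ?_
      rw [norm_mul, norm_mul, hn, hn', mul_one, mul_one]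
    · exact Filter.Eventually.of_forall fun t _ => hc
    · exact intervalIntegrable_const
    · refine Filter.Eventually.of_forall fun t _ => ?_
      refine HasSum.mul_right _ (Summable.hasSum ?_)
      refine Summable.of_norm (hc.congr fun k => ?_)
      rw [norm_mul, hn, mul_one]
  have h2 : ∀ k : ℤ, ∫ t in (-Real.pi)..Real.pi, c k * Complex.exp (k * t * Complex.I) *
      Complex.exp (-(h * t * Complex.I)) = if k = h then 2 * Real.pi * c h else 0 := by
    intro k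
    have e1 : ∀ t : ℝ, c k * Complex.exp (k * t * Complex.I) * Complex.exp (-(h * t * Complex.I)) =
        c k * Complex.exp (((k - h : ℤ) : ℂ) * t * Complex.I) := by
      intro t
      rw [mul_assoc, ← Complex.exp_add]
      congr 2
      push_cast
      ring
    simp only [e1]
    rw [intervalIntegral.integral_const_mul, b3_int_exp]
    by_cases hk : k = h
    · rw [if_pos hk, if_pos (by omega), hk]; ring
    · rw [if_neg hk, if_neg (by omega), mul_zero]
  simp only [h2] at h1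
  have h3 := hasSum_ite_eq h (2 * (Real.pi : ℂ) * c h)
  exact h1.unique h3

private theorem b3_gauss_int {b : ℝ} (hb : 0 < b) :
    ∫ t in (-Real.pi)..Real.pi, Real.exp (-b * t ^ 2) ≤ Real.sqrt (Real.pi / b) := by
  rw [← integral_gaussian b, intervalIntegral.integral_of_le (by linarith [Real.pi_pos])]
  exact setIntegral_le_integral (integrable_exp_neg_mul_sq hb)
    (Filter.Eventually.of_forall fun t => (Real.exp_pos _).le)

/-- The tilted bound. -/
private theorem b3_tilt (F : Law) : ∃ C D θ₀ : ℝ, 0 < C ∧ 0 < D ∧ 0 < θ₀ ∧ ∀ θ : ℝ, 0 ≤ θ → θ ≤ θ₀ →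
    ∀ (n : ℕ) (h : ℤ), 1 ≤ n → U F n h * Real.exp (θ * h) ≤ D / Real.sqrt n * Real.exp (C * θ ^ 2 * n) := by
  obtain ⟨C, c, θ₀, hC, hc, hθ₀, hA⟩ := b3_A_le F
  refine ⟨C, Real.sqrt (Real.pi / c) / (2 * Real.pi), θ₀, hC, ?_, hθ₀, fun θ h0 h1 n h hn => ?_⟩
  · have := Real.pi_pos
    positivity
  have hpi := Real.pi_pos
  have hn' : (0 : ℝ) < n := by exact_mod_cast hn
  have hζ : ∀ t : ℝ, ((θ : ℂ) + t * Complex.I).re = θ ∧ ((θ : ℂ) + t * Complex.I).im = t := fun t => by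
    constructor <;> simp
  have hs : Summable fun k : ℤ => ‖((U F n k * Real.exp (θ * k) : ℝ) : ℂ)‖ := by
    have := (hA ((θ : ℂ) + (0 : ℝ) * Complex.I) (by rw [(hζ 0).2]; simp [hpi.le]) (by rw [(hζ 0).1]; exact h0)
      (by rw [(hζ 0).1]; exact h1) n).1
    rw [(hζ 0).1] at this
    refine this.congr fun k => ?_
    rw [Complex.norm_of_nonneg (mul_nonneg (u_nonneg F n k) (Real.exp_pos _).le)]
  have h2 := b3_inv (c := fun k : ℤ => ((U F n k * Real.exp (θ * k) : ℝ) : ℂ)) hs h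
  have h3 : ∀ t : ℝ, ∑' k : ℤ, ((U F n k * Real.exp (θ * k) : ℝ) : ℂ) * Complex.exp (k * t * Complex.I) =
      b3A F n ((θ : ℂ) + t * Complex.I) := by
    intro t
    unfold b3A
    refine tsum_congr fun k => ?_
    rw [Complex.ofReal_mul, mul_assoc, Complex.ofReal_exp, ← Complex.exp_add]
    congr 2
    push_cast
    ring
  have h4 : ‖∫ t in (-Real.pi)..Real.pi, (∑' k : ℤ, ((U F n k * Real.exp (θ * k) : ℝ) : ℂ) *
      Complex.exp (k * t * Complex.I)) * Complex.exp (-(h * t * Complex.I))‖ ≤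
      ∫ t in (-Real.pi)..Real.pi, Real.exp (C * θ ^ 2 * n) * Real.exp (-(c * n) * t ^ 2) := by
    refine intervalIntegral.norm_integral_le_of_norm_le (by linarith) (Filter.Eventually.of_forall ?_) ?_
    · intro t ht
      rw [norm_mul, h3 t]
      have e1 : ‖Complex.exp (-(h * t * Complex.I))‖ = 1 := by
        have : -((h : ℂ) * t * Complex.I) = ((-(h * t) : ℝ) : ℂ) * Complex.I := by push_cast; ring
        rw [this, Complex.norm_exp_ofReal_mul_I]
      rw [e1, mul_one]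
      have e2 := (hA ((θ : ℂ) + t * Complex.I) (by rw [(hζ t).2, abs_le]; exact ⟨ht.1.le, ht.2⟩)
        (by rw [(hζ t).1]; exact h0) (by rw [(hζ t).1]; exact h1) n).2
      rw [(hζ t).1, (hζ t).2] at e2
      exact e2
    · exact Continuous.intervalIntegrable (by fun_prop) _ _
  rw [h2, intervalIntegral.integral_const_mul] at h4
  have h5 := b3_gauss_int (b := c * n) (by positivity)
  have h6 : ‖2 * (Real.pi : ℂ) * ((U F n h * Real.exp (θ * h) : ℝ) : ℂ)‖ =
      2 * Real.pi * (U F n h * Real.exp (θ * h)) := by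
    rw [norm_mul, Complex.norm_of_nonneg (mul_nonneg (u_nonneg F n h) (Real.exp_pos _).le), norm_mul,
      Complex.norm_of_nonneg hpi.le]
    simp
  rw [h6] at h4
  have h7 : Real.sqrt (Real.pi / (c * n)) = Real.sqrt (Real.pi / c) / Real.sqrt n := by
    rw [← div_div, Real.sqrt_div (by positivity)]
  have h8 := h4.trans (mul_le_mul_of_nonneg_left h5 (Real.exp_pos _).le)
  rw [h7] at h8
  have h9 : U F n h * Real.exp (θ * h) ≤
      Real.exp (C * θ ^ 2 * n) * (Real.sqrt (Real.pi / c) / Real.sqrt n) / (2 * Real.pi) := by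
    rw [le_div_iff₀ (by positivity)]
    linarith
  refine h9.trans (le_of_eq ?_)
  ring

private theorem b3_pos (F : Law) : ∃ C c : ℝ, 0 < C ∧ 0 < c ∧ ∀ (n : ℕ) (h : ℤ), 1 ≤ n → 0 ≤ h →
    U F n h ≤ C / Real.sqrt n * Real.exp (-c * (h : ℝ) ^ 2 / (n + |(h : ℝ)|)) := by
  obtain ⟨C, D, θ₀, hC, hD, hθ₀, hT⟩ := b3_tilt F
  set c : ℝ := min (θ₀ / 2) (1 / (4 * C)) with hc
  have hc0 : 0 < c := lt_min (by positivity) (by positivity)
  refine ⟨D, c, hD, hc0, fun n h hn hh => ?_⟩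
  have hn' : (0 : ℝ) < n := by exact_mod_cast hn
  have hh' : (0 : ℝ) ≤ h := by exact_mod_cast hh
  have hsn : 0 < Real.sqrt n := Real.sqrt_pos.2 hn'
  rw [abs_of_nonneg hh']
  set θ : ℝ := min θ₀ (h / (2 * C * n)) with hθ
  have h0 : 0 ≤ θ := le_min hθ₀.le (by positivity)
  have h1 := hT θ h0 (min_le_left _ _) n h hn
  have h2 : C * θ ^ 2 * n ≤ θ * h / 2 := by
    have e1 : θ ≤ h / (2 * C * n) := min_le_right _ _
    have e2 : θ * (2 * C * n) ≤ h := by
      rwa [le_div_iff₀ (by positivity)] at e1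
    nlinarith
  have h3 : c * (h : ℝ) ^ 2 / (n + h) ≤ θ * h / 2 := by
    rw [div_le_iff₀ (by positivity)]
    rcases min_choice θ₀ ((h : ℝ) / (2 * C * n)) with e | e
    · rw [hθ, e]
      have e1 : c ≤ θ₀ / 2 := min_le_left _ _
      have e2 : c * (h : ℝ) ^ 2 ≤ θ₀ / 2 * (h : ℝ) ^ 2 := mul_le_mul_of_nonneg_right e1 (sq_nonneg _)
      have e3 : 0 ≤ θ₀ * h * n := by positivity
      nlinarith
    · rw [hθ, e]
      have e1 : c ≤ 1 / (4 * C) := min_le_right _ _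
      have e2 : c * (h : ℝ) ^ 2 ≤ 1 / (4 * C) * (h : ℝ) ^ 2 := mul_le_mul_of_nonneg_right e1 (sq_nonneg _)
      have e3 : (h : ℝ) / (2 * C * n) * h / 2 * (n + h) = 1 / (4 * C) * (h : ℝ) ^ 2 * (1 + h / n) := by
        field_simp
        ring
      rw [e3]
      have e4 : 0 ≤ 1 / (4 * C) * (h : ℝ) ^ 2 := by positivity
      have e5 : 0 ≤ (h : ℝ) / n := by positivity
      nlinarith
  have h4 : U F n h ≤ D / Real.sqrt n * Real.exp (C * θ ^ 2 * n) * Real.exp (-(θ * h)) := by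
    have e1 := mul_le_mul_of_nonneg_right h1 (Real.exp_pos (-(θ * h))).le
    rw [mul_assoc (U F n h), ← Real.exp_add, add_neg_cancel, Real.exp_zero, mul_one] at e1
    exact e1
  refine h4.trans ?_
  rw [mul_assoc, ← Real.exp_add]
  refine mul_le_mul_of_nonneg_left (Real.exp_le_exp.2 ?_) (by positivity)
  have e1 : -c * (h : ℝ) ^ 2 / (n + h) = -(c * (h : ℝ) ^ 2 / (n + h)) := by ring
  rw [e1]
  linarith

theorem u_gauss (F : Law) : ∃ C c : ℝ, 0 < C ∧ 0 < c ∧ ∀ (n : ℕ) (h : ℤ), 1 ≤ n →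
    U F n h ≤ C / Real.sqrt n * Real.exp (-c * (h : ℝ) ^ 2 / (n + |(h : ℝ)|)) := by
  obtain ⟨C, c, hC, hc, h1⟩ := b3_pos F
  refine ⟨C, c, hC, hc, fun n h hn => ?_⟩
  rcases le_or_gt 0 h with hh | hh
  · exact h1 n h hn hh
  · have := h1 n (-h) hn (by omega)
    rw [u_symm] at this
    rw [Int.cast_neg, abs_neg, neg_sq] at this
    exact this

end Pool.Agent.Helper18.WK
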