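import Pool.Agent.Helper49.RD.Hk2
import Pool.Agent.Helper49.RD.FeDef

/-!
# Project WK, block WK-I1: iterated heat kernels with a fixed end point, measurability and bounds

`Ik g T v s S`: iterated heat kernels of the half line from the time `s` through the levels `S` (time, level) to the
point `v` at the time `T`. `Inc3 s S T`: `s < t₁ < ... < t_p < T`.

`ik_meas`, `ik_bdd`: induction on `S` (`tv_cz`, `mul_bz`, `cz_bz`; `hk w y v` as a function of `y` is `Cz` for `v ≥ 0`).
-/

open Set Filter MeasureTheory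

namespace Pool.Agent.Helper18.WK

open Pool.Agent.Helper49.RD

/-- Iterated kernels from the time `s` to the point `v` at the time `T`, with the levels `S`. -/
noncomputable def Ik (g T v : ℝ) : ℝ → List (ℝ × ℝ) → ℝ → ℝ
  | s, [] => fun y => hk (g * (T - s)) y v
  | s, a :: r => Tv (g * (a.1 - s)) (fun z => ind a.2 z * Ik g T v a.1 r z)

/-- Increasing times. -/
def Inc3 : ℝ → List (ℝ × ℝ) → ℝ → Prop
  | s, [], T => s < T
  | s, a :: r, T => s < a.1 ∧ Inc3 a.1 r T

theorem ind_meas (h : ℝ) : Measurable (ind h) := by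
  unfold ind
  exact Measurable.ite measurableSet_Ici measurable_const measurable_const

theorem ind_abs (h z : ℝ) : |ind h z| ≤ 1 := by
  unfold ind
  split_ifs <;> simp

theorem hk_cz {w v : ℝ} (hw : 0 < w) : Cz (fun y => hk w y v) := by
  refine ⟨?_, ?_, ?_⟩
  · unfold hk
    fun_prop
  · unfold hk
    simp
  · have h1 : Tendsto (fun y : ℝ => Real.exp (-((y - v) ^ 2 / (2 * w)))) atTop (nhds 0) := by
      refine Real.tendsto_exp_neg_atTop_nhds_zero.comp ?_
      refine Tendsto.atTop_div_const (by positivity) ?_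
      exact (tendsto_pow_atTop two_ne_zero).comp (tendsto_atTop_add_const_right atTop (-v) tendsto_id)
    have h2 : Tendsto (fun y : ℝ => Real.exp (-((y + v) ^ 2 / (2 * w)))) atTop (nhds 0) := by
      refine Real.tendsto_exp_neg_atTop_nhds_zero.comp ?_
      refine Tendsto.atTop_div_const (by positivity) ?_
      exact (tendsto_pow_atTop two_ne_zero).comp (tendsto_atTop_add_const_right atTop v tendsto_id)
    unfold hk
    simpa using (h1.sub h2).div_const (Real.sqrt (2 * Real.pi * w))

/-- The iterated kernels are continuous functions vanishing at `0` and at infinity. -/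
theorem ik_cz {g T v s : ℝ} (hg : 0 < g) {S : List (ℝ × ℝ)} (h : Inc3 s S T) :
    Cz (Ik g T v s S) := by
  induction S generalizing s with
  | nil =>
    have h1 : s < T := h
    exact hk_cz (mul_pos hg (by linarith))
  | cons a r ih =>
    have h1 : s < a.1 ∧ Inc3 a.1 r T := h
    exact tv_cz (mul_pos hg (by linarith [h1.1])) (mul_bz (ind_meas a.2) (ind_abs a.2) (ih h1.2))

theorem ik_nonneg {g T v s : ℝ} (hg : 0 < g) (hv : 0 ≤ v) {S : List (ℝ × ℝ)} (h : Inc3 s S T) {y : ℝ}
    (hy : 0 ≤ y) : 0 ≤ Ik g T v s S y := by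
  induction S generalizing s y with
  | nil =>
    have h1 : s < T := h
    exact hk_nonneg (mul_pos hg (by linarith)) hy hv
  | cons a r ih =>
    have h1 : s < a.1 ∧ Inc3 a.1 r T := h
    change 0 ≤ ∫ z in Ioi (0 : ℝ), hk (g * (a.1 - s)) y z * (ind a.2 z * Ik g T v a.1 r z)
    refine setIntegral_nonneg measurableSet_Ioi fun z hz => ?_
    have hz' : (0 : ℝ) < z := hz
    refine mul_nonneg (hk_nonneg (mul_pos hg (by linarith [h1.1])) hy hz'.le)
      (mul_nonneg ?_ (ih h1.2 hz'.le))
    unfold ind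
    split_ifs <;> norm_num

theorem ik_meas {g T v s : ℝ} (hg : 0 < g) (hv : 0 ≤ v) {S : List (ℝ × ℝ)} (h : Inc3 s S T) :
    Measurable (Ik g T v s S) := (ik_cz hg h).cont.measurable

theorem ik_bdd {g T v s : ℝ} (hg : 0 < g) (hv : 0 ≤ v) {S : List (ℝ × ℝ)} (h : Inc3 s S T) :
    ∃ C : ℝ, ∀ y, 0 ≤ y → 0 ≤ Ik g T v s S y ∧ Ik g T v s S y ≤ C := by
  obtain ⟨B, hB⟩ := (cz_bz (ik_cz (v := v) hg h)).bdd
  exact ⟨B, fun y hy => ⟨ik_nonneg hg hv h hy, (le_abs_self _).trans (hB y hy)⟩⟩

end Pool.Agent.Helper18.WK
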