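import Pool.Agent.Helper49.RD.HkDef

/-!
# Project WK, block WK-I2: Chapman-Kolmogorov for the heat kernel of the half line
-/

open Set Filter MeasureTheory

namespace Pool.Agent.Helper18.WK

open Pool.Agent.Helper49.RD

private lemma gauss_conv19 {a b : ℝ} (ha : 0 < a) (hb : 0 < b) (y v : ℝ) :
    ∫ z : ℝ, Real.exp (-((y - z) ^ 2 / (2 * a))) * Real.exp (-((z - v) ^ 2 / (2 * b))) =
      Real.sqrt (2 * Real.pi * (a * b / (a + b))) * Real.exp (-((y - v) ^ 2 / (2 * (a + b)))) := by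
  have hab : 0 < a + b := by linarith
  have h1 : ∀ z : ℝ, Real.exp (-((y - z) ^ 2 / (2 * a))) * Real.exp (-((z - v) ^ 2 / (2 * b))) =
      Real.exp (-((y - v) ^ 2 / (2 * (a + b)))) *
        (fun x : ℝ => Real.exp (-((a + b) / (2 * (a * b))) * x ^ 2))
          (z - (b * y + a * v) / (a + b)) := by
    intro z
    rw [← Real.exp_add, ← Real.exp_add]
    congr 1
    field_simp
    ring
  simp_rw [h1]
  rw [integral_const_mul, integral_sub_right_eq_self
    (fun x : ℝ => Real.exp (-((a + b) / (2 * (a * b))) * x ^ 2)), integral_gaussian, mul_comm]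
  congr 2
  field_simp

private lemma gauss_int19 {a b : ℝ} (ha : 0 < a) (hb : 0 < b) (y v : ℝ) :
    Integrable fun z : ℝ =>
      Real.exp (-((y - z) ^ 2 / (2 * a))) * Real.exp (-((z - v) ^ 2 / (2 * b))) := by
  have h1 : Integrable fun z : ℝ => (fun x : ℝ => Real.exp (-(1 / (2 * b)) * x ^ 2)) (z - v) :=
    (integrable_exp_neg_mul_sq (by positivity)).comp_sub_right v
  refine Integrable.mono' h1 ?_ ?_
  · exact (by fun_prop : Continuous fun z : ℝ =>
      Real.exp (-((y - z) ^ 2 / (2 * a))) * Real.exp (-((z - v) ^ 2 / (2 * b)))).aestronglyMeasurable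
  · refine Eventually.of_forall fun z => ?_
    rw [Real.norm_of_nonneg (by positivity)]
    have e1 : Real.exp (-((y - z) ^ 2 / (2 * a))) ≤ 1 := by
      rw [Real.exp_le_one_iff]
      have : 0 ≤ (y - z) ^ 2 / (2 * a) := by positivity
      linarith
    have e2 : Real.exp (-((z - v) ^ 2 / (2 * b))) = Real.exp (-(1 / (2 * b)) * (z - v) ^ 2) := by
      congr 1
      field_simp
    rw [e2]
    exact mul_le_of_le_one_left (Real.exp_pos _).le e1

/-- Chapman-Kolmogorov for the heat kernel of the half line. -/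
theorem hk_ck {a b y v : ℝ} (ha : 0 < a) (hb : 0 < b) (_ : 0 ≤ y) (_ : 0 ≤ v) :
    ∫ z in Ioi (0 : ℝ), hk a y z * hk b z v = hk (a + b) y v := by
  have hab : 0 < a + b := by linarith
  set F : ℝ → ℝ := fun z => hk a y z * hk b z v with hF
  have heven : ∀ z, F z = F |z| := by
    intro z
    rcases abs_cases z with ⟨h, _⟩ | ⟨h, _⟩
    · rw [h]
    · rw [h]
      simp only [hF, hk]
      have e1 : (y - -z) ^ 2 = (y + z) ^ 2 := by ring
      have e2 : (y + -z) ^ 2 = (y - z) ^ 2 := by ring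
      have e3 : (-z - v) ^ 2 = (z + v) ^ 2 := by ring
      have e4 : (-z + v) ^ 2 = (z - v) ^ 2 := by ring
      rw [e1, e2, e3, e4]
      ring
  have h1 : ∫ z, F z = 2 * ∫ z in Ioi (0 : ℝ), F z := by
    rw [← integral_comp_abs]
    exact integral_congr_ae (Eventually.of_forall heven)
  have h2 : ∀ z, F z = (Real.sqrt (2 * Real.pi * a))⁻¹ * (Real.sqrt (2 * Real.pi * b))⁻¹ *
      ((Real.exp (-((y - z) ^ 2 / (2 * a))) * Real.exp (-((z - v) ^ 2 / (2 * b))) +
        Real.exp (-((-y - z) ^ 2 / (2 * a))) * Real.exp (-((z - -v) ^ 2 / (2 * b)))) -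
      (Real.exp (-((y - z) ^ 2 / (2 * a))) * Real.exp (-((z - -v) ^ 2 / (2 * b))) +
        Real.exp (-((-y - z) ^ 2 / (2 * a))) * Real.exp (-((z - v) ^ 2 / (2 * b))))) := by
    intro z
    simp only [hF, hk]
    have e1 : (-y - z) ^ 2 = (y + z) ^ 2 := by ring
    have e2 : (z - -v) ^ 2 = (z + v) ^ 2 := by ring
    rw [e1, e2]
    ring
  have i1 := gauss_int19 ha hb y v
  have i2 := gauss_int19 ha hb (-y) (-v)
  have i3 := gauss_int19 ha hb y (-v)
  have i4 := gauss_int19 ha hb (-y) v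
  have i12 : Integrable fun z : ℝ =>
      Real.exp (-((y - z) ^ 2 / (2 * a))) * Real.exp (-((z - v) ^ 2 / (2 * b))) +
        Real.exp (-((-y - z) ^ 2 / (2 * a))) * Real.exp (-((z - -v) ^ 2 / (2 * b))) := i1.add i2
  have i34 : Integrable fun z : ℝ =>
      Real.exp (-((y - z) ^ 2 / (2 * a))) * Real.exp (-((z - -v) ^ 2 / (2 * b))) +
        Real.exp (-((-y - z) ^ 2 / (2 * a))) * Real.exp (-((z - v) ^ 2 / (2 * b))) := i3.add i4
  have h3 : ∫ z, F z = (Real.sqrt (2 * Real.pi * a))⁻¹ * (Real.sqrt (2 * Real.pi * b))⁻¹ *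
      (Real.sqrt (2 * Real.pi * (a * b / (a + b))) * (2 * (Real.exp (-((y - v) ^ 2 / (2 * (a + b)))) -
        Real.exp (-((y + v) ^ 2 / (2 * (a + b))))))) := by
    simp_rw [h2]
    rw [integral_const_mul, integral_sub i12 i34, integral_add i1 i2,
      integral_add i3 i4, gauss_conv19 ha hb, gauss_conv19 ha hb, gauss_conv19 ha hb,
      gauss_conv19 ha hb]
    have e1 : (-y - -v) ^ 2 = (y - v) ^ 2 := by ring
    have e2 : (y - -v) ^ 2 = (y + v) ^ 2 := by ring
    have e3 : (-y - v) ^ 2 = (y + v) ^ 2 := by ring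
    rw [e1, e2, e3]
    ring
  have h4 : (Real.sqrt (2 * Real.pi * a))⁻¹ * (Real.sqrt (2 * Real.pi * b))⁻¹ *
      Real.sqrt (2 * Real.pi * (a * b / (a + b))) = (Real.sqrt (2 * Real.pi * (a + b)))⁻¹ := by
    rw [← Real.sqrt_inv, ← Real.sqrt_inv, ← Real.sqrt_inv, ← Real.sqrt_mul (by positivity),
      ← Real.sqrt_mul (by positivity)]
    congr 1
    have := Real.pi_pos
    field_simp
  have h5 : ∫ z in Ioi (0 : ℝ), F z = (Real.sqrt (2 * Real.pi * (a + b)))⁻¹ *
      (Real.exp (-((y - v) ^ 2 / (2 * (a + b)))) - Real.exp (-((y + v) ^ 2 / (2 * (a + b))))) := by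
    have h6 : 2 * ∫ z in Ioi (0 : ℝ), F z = 2 * ((Real.sqrt (2 * Real.pi * (a + b)))⁻¹ *
        (Real.exp (-((y - v) ^ 2 / (2 * (a + b)))) - Real.exp (-((y + v) ^ 2 / (2 * (a + b)))))) := by
      rw [← h1, h3, ← h4]
      ring
    linarith
  rw [h5, hk]
  ring

end Pool.Agent.Helper18.WK
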