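import Pool.Agent.Helper49.FL.Fub
import Pool.Agent.Helper49.RD.Hk2
import Pool.Agent.Helper49.RD.FeDef
import Pool.Agent.Helper18.WK.IkA
import Pool.Agent.Helper18.WK.IkCK

/-!
# Project WK, block WK-I: iterated heat kernels with a fixed end point (pure analysis)

`Ik g T v s S`: iterated heat kernels of the half line from the time `s` through the levels `S` (time, level) to the
point `v` at the time `T`. `Inc3 s S T`: `s < t₁ < ... < t_p < T`.

WK-I1, `ik_meas`, `ik_bdd`: induction on `S` (`tv_cz`, `mul_bz`, `tv_le`; `hk w y v` as a function of `y` is `Cz` for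
`v ≥ 0`), `0 ≤ Ik ≤ C`, `C` uniform in the levels (only `1 / √(2 π g (T - t_p))`).

WK-I2, `exc_lim`. As `v → 0+`: `hk w z v / v → rho w z`, bounded by `C z exp (-c z²)` uniformly in `0 < v < 1`
(`hk w z v = exp (-(z² + v²) / (2 w)) 2 sinh (z v / w) / √(2 π w)`, `sinh t ≤ t cosh t`), also for `w → w₀ > 0`. So for
`d, v → 0+`: `Ik g (2 - d) v (t₁) [...] z / v → Bl g t₁ [...] z` for every `z > 0` and bounded (induction on the list from
the right end; dominated convergence in `Tv`; the kernels between fixed times do not change). Then the first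
kernel `hk (g (1 + s 0 - d)) u z / u → rho (g (1 + s 0)) z`, dominated: `Ik g (2 - d) v d S u / (u v) → Fe g p s (ind b)`.
The denominator `hk (g (2 - 2 d)) u v / (u v) → c = 1 / (√(π / 2) (2 g) √(2 g))`, and `Fe g p s 1 = c`: by
Chapman-Kolmogorov (`hk_ck`) `Ik` with the levels `0` is `hk (g (T - s)) u v`, apply the limit to it (`ind 0 z = 1` for
`z > 0`). `hk_ck`: odd extension and the convolution of Gaussians (complete the square, or `La`/`Tv`-type lemmas of
RD/Hk1, or uniqueness through `tv_sin`).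
-/

open Set Filter MeasureTheory

namespace Pool.Agent.Helper18.WK

open Pool.Agent.Helper49.RD

private theorem hk_symm27 (w y z : ℝ) : hk w y z = hk w z y := by
  unfold hk
  rw [show (y - z) ^ 2 = (z - y) ^ 2 by ring, show y + z = z + y by ring]

private theorem hk_fac27 {w : ℝ} (hw : w ≠ 0) (z v : ℝ) :
    hk w z v = Real.exp (-((z - v) ^ 2 / (2 * w))) * (1 - Real.exp (-(2 * z * v / w))) /
      Real.sqrt (2 * Real.pi * w) := by
  unfold hk
  rw [mul_sub, mul_one, ← Real.exp_add]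
  have e : -((z - v) ^ 2 / (2 * w)) + -(2 * z * v / w) = -((z + v) ^ 2 / (2 * w)) := by
    field_simp
    ring
  rw [e]

private theorem hk_bound27 {w w1 w2 z v : ℝ} (h1 : 0 < w1) (hw1 : w1 ≤ w) (hw2 : w ≤ w2)
    (hz : 0 ≤ z) (hv : 0 < v) (hv1 : v ≤ 1) :
    |hk w z v / v| ≤ Real.exp (1 / (2 * w1)) * (2 / w1) / Real.sqrt (2 * Real.pi * w1) *
      (z * Real.exp (-(1 / (4 * w2)) * z ^ 2)) := by
  have hw : 0 < w := lt_of_lt_of_le h1 hw1
  have hw2' : 0 < w2 := lt_of_lt_of_le hw hw2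
  have h0 : 0 ≤ hk w z v / v := div_nonneg (hk_nonneg hw hz hv.le) hv.le
  rw [abs_of_nonneg h0, hk_fac27 hw.ne']
  have e1 : Real.exp (-((z - v) ^ 2 / (2 * w))) ≤
      Real.exp (1 / (2 * w1)) * Real.exp (-(1 / (4 * w2)) * z ^ 2) := by
    rw [← Real.exp_add, Real.exp_le_exp]
    have a1 : 1 / (2 * w) ≤ 1 / (2 * w1) := by gcongr
    have a2 : 1 / (4 * w2) * z ^ 2 ≤ 1 / (4 * w) * z ^ 2 := by gcongr
    have a3 : z ^ 2 / 2 - 1 ≤ (z - v) ^ 2 := by nlinarith [sq_nonneg (z - 2 * v)]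
    have a4 : (z ^ 2 / 2 - 1) / (2 * w) ≤ (z - v) ^ 2 / (2 * w) := by gcongr
    have a5 : (z ^ 2 / 2 - 1) / (2 * w) = 1 / (4 * w) * z ^ 2 - 1 / (2 * w) := by
      field_simp
      ring
    rw [a5] at a4
    linarith
  have e2 : (1 - Real.exp (-(2 * z * v / w))) ≤ (2 / w1) * z * v := by
    have b1 := Real.add_one_le_exp (-(2 * z * v / w))
    have b2 : 2 * z * v / w ≤ 2 * z * v / w1 := by gcongr
    have b3 : 2 * z * v / w1 = (2 / w1) * z * v := by ring
    linarith
  have e3 : 0 ≤ 1 - Real.exp (-(2 * z * v / w)) := by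
    have : Real.exp (-(2 * z * v / w)) ≤ 1 := by
      rw [Real.exp_le_one_iff, neg_nonpos]
      positivity
    linarith
  have e4 : Real.sqrt (2 * Real.pi * w1) ≤ Real.sqrt (2 * Real.pi * w) :=
    Real.sqrt_le_sqrt (by gcongr)
  have e5 : 0 < Real.sqrt (2 * Real.pi * w1) := Real.sqrt_pos.2 (by positivity)
  calc Real.exp (-((z - v) ^ 2 / (2 * w))) * (1 - Real.exp (-(2 * z * v / w))) /
        Real.sqrt (2 * Real.pi * w) / v
      ≤ (Real.exp (1 / (2 * w1)) * Real.exp (-(1 / (4 * w2)) * z ^ 2)) * ((2 / w1) * z * v) /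
        Real.sqrt (2 * Real.pi * w1) / v := by gcongr
    _ = _ := by
      field_simp

private theorem zexp27 {b z : ℝ} (hb : 0 < b) : z * Real.exp (-b * z ^ 2) ≤ 1 + 1 / b := by
  have h1 := Real.add_one_le_exp (b * z ^ 2)
  have h2 : Real.exp (-b * z ^ 2) = 1 / Real.exp (b * z ^ 2) := by
    rw [neg_mul, Real.exp_neg, one_div]
  rw [h2, mul_one_div, div_le_iff₀ (Real.exp_pos _)]
  have h3 : (1 + 1 / b) * (b * z ^ 2 + 1) ≤ (1 + 1 / b) * Real.exp (b * z ^ 2) := by
    gcongr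
  refine le_trans ?_ h3
  have h4 : (1 + 1 / b) * (b * z ^ 2 + 1) = b * z ^ 2 + 1 + z ^ 2 + 1 / b := by
    field_simp
    ring
  rw [h4]
  have h5 : 0 < 1 / b := by positivity
  have h6 : 0 ≤ b * z ^ 2 := by positivity
  nlinarith [sq_nonneg (z - 1)]

private theorem exp_quot27 {t : ℕ → ℝ} (ht : Tendsto t atTop (nhds 0))
    (ht0 : ∀ᶠ n in atTop, t n ≠ 0) :
    Tendsto (fun n => (Real.exp (t n) - 1) / t n) atTop (nhds 1) := by
  have h := hasDerivAt_iff_tendsto_slope.1 (Real.hasDerivAt_exp 0)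
  rw [Real.exp_zero] at h
  have h2 : Tendsto t atTop (nhdsWithin 0 {0}ᶜ) := tendsto_nhdsWithin_iff.2 ⟨ht, ht0⟩
  refine (h.comp h2).congr fun n => ?_
  simp [slope_def_field, Real.exp_zero]

private theorem hk_lim27 {w v : ℕ → ℝ} {w0 z : ℝ} (hw0 : 0 < w0)
    (hw : Tendsto w atTop (nhds w0)) (hv : ∀ n, 0 < v n) (hv0 : Tendsto v atTop (nhds 0))
    (hz : 0 < z) : Tendsto (fun n => hk (w n) z (v n) / v n) atTop (nhds (rho w0 z)) := by
  have hwp : ∀ᶠ n in atTop, 0 < w n := hw.eventually (lt_mem_nhds hw0)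
  have ht : Tendsto (fun n => -(2 * z * v n / w n)) atTop (nhds 0) := by
    have := ((hv0.const_mul (2 * z)).div hw hw0.ne').neg
    simpa using this
  have hq := exp_quot27 ht (by
    filter_upwards [hwp] with n hn
    have h1 := hv n
    have : 0 < 2 * z * v n / w n := by positivity
    exact (neg_neg_of_pos this).ne)
  have hE : Tendsto (fun n => Real.exp (-((z - v n) ^ 2 / (2 * w n)))) atTop
      (nhds (Real.exp (-((z - 0) ^ 2 / (2 * w0))))) := by
    refine (Real.continuous_exp.tendsto _).comp ?_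
    exact (((hv0.const_sub z).pow 2).div (hw.const_mul 2) (by positivity)).neg
  have hS : Tendsto (fun n => Real.sqrt (2 * Real.pi * w n)) atTop
      (nhds (Real.sqrt (2 * Real.pi * w0))) :=
    (Real.continuous_sqrt.tendsto _).comp (hw.const_mul _)
  have hc : Tendsto (fun n => 2 * z / w n) atTop (nhds (2 * z / w0)) :=
    tendsto_const_nhds.div hw hw0.ne'
  have hS0 : Real.sqrt (2 * Real.pi * w0) ≠ 0 := (Real.sqrt_pos.2 (by positivity)).ne'
  have hall := ((hE.mul (hq.mul hc)).div hS hS0)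
  have e : rho w0 z = Real.exp (-((z - 0) ^ 2 / (2 * w0))) * (1 * (2 * z / w0)) /
      Real.sqrt (2 * Real.pi * w0) := by
    have e1 : Real.sqrt (2 * Real.pi * w0) = 2 * Real.sqrt (Real.pi / 2) * Real.sqrt w0 := by
      have : 2 * Real.pi * w0 = (2 ^ 2 * (Real.pi / 2)) * w0 := by ring
      rw [this, Real.sqrt_mul (by positivity), Real.sqrt_mul (by positivity),
        Real.sqrt_sq (by norm_num)]
    have e2 : 0 < Real.sqrt (Real.pi / 2) := Real.sqrt_pos.2 (by positivity)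
    have e3 : 0 < Real.sqrt w0 := Real.sqrt_pos.2 hw0
    unfold rho
    rw [e1, sub_zero]
    generalize Real.exp (-(z ^ 2 / (2 * w0))) = X
    generalize Real.sqrt (Real.pi / 2) = a at *
    generalize Real.sqrt w0 = b at *
    field_simp
  rw [e]
  refine hall.congr' ?_
  filter_upwards [hwp] with n hn
  have hvn := hv n
  rw [hk_fac27 hn.ne']
  have hS1 : Real.sqrt (2 * Real.pi * w n) ≠ 0 := (Real.sqrt_pos.2 (by positivity)).ne'
  have e5 : (Real.exp (-(2 * z * v n / w n)) - 1) / (-(2 * z * v n / w n)) * (2 * z / w n) =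
      (1 - Real.exp (-(2 * z * v n / w n))) / v n := by
    generalize Real.exp (-(2 * z * v n / w n)) = X
    field_simp
    ring
  simp only [Pi.div_apply, e5]
  ring

private theorem hk_int27 {w : ℝ} (hw : 0 < w) (y : ℝ) :
    Integrable (fun z => hk w y z) (volume.restrict (Ioi 0)) := by
  have h1 : Integrable (fun x : ℝ => Real.exp (-(1 / (2 * w)) * x ^ 2)) :=
    integrable_exp_neg_mul_sq (by positivity)
  have h2 := h1.comp_sub_left y
  have h3 := h1.comp_add_left y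
  refine ((((h2.sub h3).div_const (Real.sqrt (2 * Real.pi * w)))).congr
    (Filter.Eventually.of_forall fun z => ?_)).restrict
  simp only [Pi.sub_apply]
  unfold hk
  congr 3 <;> ring

private theorem hk_meas27 (w y : ℝ) : Measurable (fun z => hk w y z) := by
  unfold hk
  fun_prop

private theorem ind_meas27 (h : ℝ) : Measurable (ind h) := by
  unfold ind
  exact Measurable.ite measurableSet_Ici measurable_const measurable_const

private theorem ind_le27 (h z : ℝ) : |ind h z| ≤ 1 := by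
  unfold ind
  split_ifs <;> norm_num

private theorem inc3_ev27 {d : ℕ → ℝ} (hd0 : Tendsto d atTop (nhds 0)) :
    ∀ (S : List (ℝ × ℝ)) (s : ℝ), Inc3 s S 2 → ∀ᶠ n in atTop, Inc3 s S (2 - d n)
  | [], s, h => by
    have h1 : Tendsto (fun n => 2 - d n) atTop (nhds (2 - 0)) := hd0.const_sub 2
    rw [sub_zero] at h1
    exact h1.eventually (lt_mem_nhds h)
  | a :: r, s, h => by
    filter_upwards [inc3_ev27 hd0 r a.1 h.2] with n hn
    exact ⟨h.1, hn⟩

private theorem ik_div27 (g T v s : ℝ) (a : ℝ × ℝ) (r : List (ℝ × ℝ)) (y c : ℝ) :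
    Ik g T v s (a :: r) y / c =
      Tv (g * (a.1 - s)) (fun z => ind a.2 z * (Ik g T v a.1 r z / c)) y := by
  rw [Ik]
  unfold Tv
  rw [← integral_div]
  refine integral_congr_ae (Filter.Eventually.of_forall fun z => ?_)
  simp only
  ring

private theorem ik_lim27 {g : ℝ} (hg : 0 < g) {d v : ℕ → ℝ} (hd0 : Tendsto d atTop (nhds 0))
    (hv : ∀ n, 0 < v n) (hv0 : Tendsto v atTop (nhds 0)) :
    ∀ (S : List (ℝ × ℝ)) (s : ℝ), Inc3 s S 2 →
      (∀ z, 0 < z → Tendsto (fun n => Ik g (2 - d n) (v n) s S z / v n) atTop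
        (nhds (Bl g s (S.map fun a => (a.1, ind a.2)) z))) ∧
      ∃ C, 0 ≤ C ∧ ∀ᶠ n in atTop, ∀ z, 0 < z → |Ik g (2 - d n) (v n) s S z / v n| ≤ C
  | [], s, h => by
    have h' : 0 < 2 - s := sub_pos.2 h
    have hw0 : 0 < g * (2 - s) := mul_pos hg h'
    have hw : Tendsto (fun n => g * (2 - d n - s)) atTop (nhds (g * (2 - s))) := by
      have : Tendsto (fun n => g * (2 - d n - s)) atTop (nhds (g * (2 - 0 - s))) :=
        ((hd0.const_sub 2).sub_const s).const_mul g
      rwa [sub_zero] at this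
    refine ⟨fun z hz => hk_lim27 hw0 hw hv hv0 hz, ?_⟩
    have ew1 : ∀ᶠ n in atTop, g * (2 - s) / 2 < g * (2 - d n - s) :=
      hw.eventually (lt_mem_nhds (by linarith))
    have ew2 : ∀ᶠ n in atTop, g * (2 - d n - s) < 2 * (g * (2 - s)) :=
      hw.eventually (gt_mem_nhds (by linarith))
    have ev1 : ∀ᶠ n in atTop, v n < 1 := hv0.eventually (gt_mem_nhds one_pos)
    refine ⟨Real.exp (1 / (2 * (g * (2 - s) / 2))) * (2 / (g * (2 - s) / 2)) /
      Real.sqrt (2 * Real.pi * (g * (2 - s) / 2)) *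
        (1 + 1 / (1 / (4 * (2 * (g * (2 - s)))))), by positivity, ?_⟩
    filter_upwards [ew1, ew2, ev1] with n h1 h2 h3 z hz
    refine (hk_bound27 (by positivity) h1.le h2.le hz.le (hv n) h3.le).trans ?_
    gcongr
    exact zexp27 (by positivity)
  | a :: r, s, h => by
    obtain ⟨hl, C, hC0, hC⟩ := ik_lim27 hg hd0 hv hv0 r a.1 h.2
    have hw : 0 < g * (a.1 - s) := mul_pos hg (sub_pos.2 h.1)
    have hinc := inc3_ev27 hd0 r a.1 h.2
    have hb : ∀ᶠ n in atTop, (Measurable fun z => ind a.2 z *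
        (Ik g (2 - d n) (v n) a.1 r z / v n)) ∧ ∀ z, 0 < z →
          |ind a.2 z * (Ik g (2 - d n) (v n) a.1 r z / v n)| ≤ C := by
      filter_upwards [hinc, hC] with n h1 h2
      refine ⟨(ind_meas27 _).mul ((ik_meas hg (hv n).le h1).div_const _), fun z hz => ?_⟩
      rw [abs_mul]
      calc |ind a.2 z| * |Ik g (2 - d n) (v n) a.1 r z / v n| ≤ 1 * C :=
            mul_le_mul (ind_le27 _ _) (h2 z hz) (abs_nonneg _) zero_le_one
        _ = C := one_mul C
    constructor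
    · intro y hy
      simp only [ik_div27]
      rw [List.map_cons, Bl]
      unfold Tv
      refine tendsto_integral_filter_of_dominated_convergence
        (fun z => |hk (g * (a.1 - s)) y z| * C) ?_ ?_ ?_ ?_
      · filter_upwards [hb] with n hn
        exact ((hk_meas27 _ _).mul hn.1).aestronglyMeasurable
      · filter_upwards [hb] with n hn
        filter_upwards [ae_restrict_mem measurableSet_Ioi] with z hz
        rw [Real.norm_eq_abs, abs_mul]
        exact mul_le_mul_of_nonneg_left (hn.2 z hz) (abs_nonneg _)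
      · exact (hk_int27 hw y).abs.mul_const C
      · filter_upwards [ae_restrict_mem measurableSet_Ioi] with z hz
        exact ((hl z hz).const_mul _).const_mul _
    · refine ⟨C, hC0, ?_⟩
      filter_upwards [hb] with n hn z hz
      rw [ik_div27]
      exact tv_le hw hn.1 hn.2 hz.le

private theorem first_lim27 {g : ℝ} (hg : 0 < g) {d u v : ℕ → ℝ}
    (hd0 : Tendsto d atTop (nhds 0)) (hu : ∀ n, 0 < u n) (hu0 : Tendsto u atTop (nhds 0))
    (hv : ∀ n, 0 < v n) (hv0 : Tendsto v atTop (nhds 0)) (a : ℝ × ℝ) (r : List (ℝ × ℝ))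
    (ha : 0 < a.1) (hr : Inc3 a.1 r 2) :
    Tendsto (fun n => Ik g (2 - d n) (v n) (d n) (a :: r) (u n) / (u n * v n)) atTop
      (nhds (Ml g ((a :: r).map fun a => (a.1, ind a.2)))) := by
  obtain ⟨hl, C, hC0, hC⟩ := ik_lim27 hg hd0 hv hv0 r a.1 hr
  have hw0 : 0 < g * a.1 := mul_pos hg ha
  have hw : Tendsto (fun n => g * (a.1 - d n)) atTop (nhds (g * a.1)) := by
    have : Tendsto (fun n => g * (a.1 - d n)) atTop (nhds (g * (a.1 - 0))) :=
      (hd0.const_sub a.1).const_mul g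
    rwa [sub_zero] at this
  have hinc := inc3_ev27 hd0 r a.1 hr
  have ew1 : ∀ᶠ n in atTop, g * a.1 / 2 < g * (a.1 - d n) :=
    hw.eventually (lt_mem_nhds (by linarith))
  have ew2 : ∀ᶠ n in atTop, g * (a.1 - d n) < 2 * (g * a.1) :=
    hw.eventually (gt_mem_nhds (by linarith))
  have eu1 : ∀ᶠ n in atTop, u n < 1 := hu0.eventually (gt_mem_nhds one_pos)
  have heq : ∀ n, Ik g (2 - d n) (v n) (d n) (a :: r) (u n) / (u n * v n) =
      ∫ z in Ioi (0 : ℝ), (hk (g * (a.1 - d n)) z (u n) / u n) *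
        (ind a.2 z * (Ik g (2 - d n) (v n) a.1 r z / v n)) := by
    intro n
    rw [div_mul_eq_div_div_swap, ik_div27]
    unfold Tv
    rw [← integral_div]
    refine integral_congr_ae (Filter.Eventually.of_forall fun z => ?_)
    simp only
    rw [hk_symm27]
    ring
  simp only [heq]
  rw [List.map_cons, Ml]
  unfold La
  generalize hK : Real.exp (1 / (2 * (g * a.1 / 2))) * (2 / (g * a.1 / 2)) /
      Real.sqrt (2 * Real.pi * (g * a.1 / 2)) = K
  have hK0 : 0 ≤ K := by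
    rw [← hK]
    positivity
  refine tendsto_integral_filter_of_dominated_convergence
    (fun z => K * (z * Real.exp (-(1 / (4 * (2 * (g * a.1)))) * z ^ 2)) * C) ?_ ?_ ?_ ?_
  · filter_upwards [hinc] with n h1
    refine Measurable.aestronglyMeasurable ?_
    refine Measurable.mul ?_ ((ind_meas27 _).mul ((ik_meas hg (hv n).le h1).div_const _))
    simp only [hk_symm27 _ _ (u n)]
    exact (hk_meas27 _ _).div_const _
  · filter_upwards [ew1, ew2, eu1, hC] with n h1 h2 h3 h4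
    filter_upwards [ae_restrict_mem measurableSet_Ioi] with z hz
    have hz' : (0 : ℝ) < z := hz
    rw [Real.norm_eq_abs, abs_mul]
    have b1 := hk_bound27 (w := g * (a.1 - d n)) (w1 := g * a.1 / 2) (w2 := 2 * (g * a.1))
      (by positivity) h1.le h2.le hz'.le (hu n) h3.le
    rw [hK] at b1
    have b2 : |ind a.2 z * (Ik g (2 - d n) (v n) a.1 r z / v n)| ≤ C := by
      rw [abs_mul]
      calc |ind a.2 z| * |Ik g (2 - d n) (v n) a.1 r z / v n| ≤ 1 * C :=
            mul_le_mul (ind_le27 _ _) (h4 z hz') (abs_nonneg _) zero_le_one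
        _ = C := one_mul C
    exact mul_le_mul b1 b2 (abs_nonneg _) (by positivity)
  · refine Integrable.mul_const ?_ C
    refine Integrable.const_mul ?_ K
    exact (integrable_mul_exp_neg_mul_sq (by positivity)).restrict
  · filter_upwards [ae_restrict_mem measurableSet_Ioi] with z hz
    exact (hk_lim27 hw0 hw hu hu0 hz).mul ((hl z hz).const_mul _)

private theorem ik_zero27 {g T v : ℝ} (hg : 0 < g) (hv : 0 ≤ v) :
    ∀ (S : List (ℝ × ℝ)) (s : ℝ), Inc3 s S T → (∀ a ∈ S, a.2 = 0) → ∀ y, 0 ≤ y →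
      s < T ∧ Ik g T v s S y = hk (g * (T - s)) y v
  | [], s, h, _, y, _ => ⟨h, rfl⟩
  | a :: r, s, h, h0, y, hy => by
    have h1 := ik_zero27 hg hv r a.1 h.2 (fun b hb => h0 b (List.mem_cons_of_mem _ hb))
    have h2 : a.2 = 0 := h0 a List.mem_cons_self
    have h3 : a.1 < T := (h1 0 le_rfl).1
    refine ⟨h.1.trans h3, ?_⟩
    rw [Ik]
    unfold Tv
    have h4 : ∫ z in Ioi (0 : ℝ), hk (g * (a.1 - s)) y z * (ind a.2 z * Ik g T v a.1 r z) =
        ∫ z in Ioi (0 : ℝ), hk (g * (a.1 - s)) y z * hk (g * (T - a.1)) z v := by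
      refine setIntegral_congr_fun measurableSet_Ioi fun z hz => ?_
      have hz' : (0 : ℝ) < z := hz
      rw [(h1 z hz'.le).2, h2]
      unfold ind
      rw [if_pos hz'.le, one_mul]
    rw [h4, hk_ck (mul_pos hg (sub_pos.2 h.1)) (mul_pos hg (sub_pos.2 h3)) hy hv]
    congr 1
    ring

private theorem bl_zero27 (g : ℝ) : ∀ (S : List (ℝ × ℝ)) (s : ℝ), (∀ a ∈ S, a.2 = 0) →
    Bl g s (S.map fun a => (a.1, ind a.2)) = Bl g s (S.map fun a => (a.1, fun _ => (1 : ℝ)))
  | [], s, _ => rfl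
  | a :: r, s, h0 => by
    have h1 := bl_zero27 g r a.1 (fun b hb => h0 b (List.mem_cons_of_mem _ hb))
    have h2 : a.2 = 0 := h0 a List.mem_cons_self
    rw [List.map_cons, List.map_cons, Bl, Bl, h1]
    funext y
    unfold Tv
    refine setIntegral_congr_fun measurableSet_Ioi fun z hz => ?_
    have hz' : (0 : ℝ) < z := hz
    simp only
    rw [h2]
    unfold ind
    rw [if_pos hz'.le]

private theorem ml_zero27 (g : ℝ) (a : ℝ × ℝ) (r : List (ℝ × ℝ)) (h0 : ∀ b ∈ a :: r, b.2 = 0) :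
    Ml g ((a :: r).map fun a => (a.1, ind a.2)) =
      Ml g ((a :: r).map fun a => (a.1, fun _ => (1 : ℝ))) := by
  have h1 := bl_zero27 g r a.1 (fun b hb => h0 b (List.mem_cons_of_mem _ hb))
  have h2 : a.2 = 0 := h0 a List.mem_cons_self
  rw [List.map_cons, List.map_cons, Ml, Ml, h1]
  unfold La
  refine setIntegral_congr_fun measurableSet_Ioi fun z hz => ?_
  have hz' : (0 : ℝ) < z := hz
  simp only
  rw [h2]
  unfold ind
  rw [if_pos hz'.le]

private theorem inc3_ofFn27 : ∀ (p : ℕ) (s : Fin p → ℝ) (b : Fin p → ℝ) (r : ℝ), r < 2 →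
    (∀ i, r < 1 + s i) → (∀ i, 1 + s i < 2) → StrictMono s →
      Inc3 r (List.ofFn fun i => (1 + s i, b i)) 2
  | 0, s, b, r, h, _, _, _ => by
    rw [List.ofFn_zero]
    exact h
  | p + 1, s, b, r, _, h1, h2, hs => by
    rw [List.ofFn_succ]
    refine ⟨h1 0, inc3_ofFn27 p (fun i => s i.succ) (fun i => b i.succ) (1 + s 0) (h2 0) ?_ ?_ ?_⟩
    · intro i
      have := hs (Fin.succ_pos i)
      linarith
    · exact fun i => h2 i.succ
    · exact fun i j hij => hs (Fin.succ_lt_succ_iff.2 hij)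

private theorem inc_map27 : ∀ (S : List (ℝ × ℝ)) (s : ℝ), Inc3 s S 2 →
    Inc s (S.map fun a => (a.1, fun _ => (1 : ℝ)))
  | [], _, h => h
  | _ :: r, _, h => ⟨h.1, inc_map27 r _ h.2⟩

theorem exc_lim {g : ℝ} (hg : 0 < g) {p : ℕ} (hp : 1 ≤ p) {s : Fin p → ℝ} (hs : StrictMono s)
    (hs1 : ∀ i, -1 < s i ∧ s i < 1) (b : Fin p → ℝ) {ε : ℝ} (hε : 0 < ε) :
    0 < Fe g p s (fun _ _ => 1) ∧ ∃ δ : ℝ, 0 < δ ∧ ∀ d u v : ℝ, 0 < d → d < δ → 0 < u → u < δ → 0 < v → v < δ →
      |Ik g (2 - d) v d (List.ofFn fun i => (1 + s i, b i)) u / hk (g * (2 - 2 * d)) u v -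
        Fe g p s (fun i z => ind (b i) z) / Fe g p s (fun _ _ => 1)| ≤ ε := by
  obtain ⟨q, rfl⟩ : ∃ q, p = q + 1 := ⟨p - 1, by omega⟩
  have hinc : ∀ b : Fin (q + 1) → ℝ, Inc3 0 (List.ofFn fun i => (1 + s i, b i)) 2 := fun b =>
    inc3_ofFn27 (q + 1) s b 0 (by norm_num) (fun i => by linarith [(hs1 i).1])
      (fun i => by linarith [(hs1 i).2]) hs
  have hfe : ∀ b : Fin (q + 1) → ℝ, Fe g (q + 1) s (fun i z => ind (b i) z) =
      Ml g ((List.ofFn fun i => (1 + s i, b i)).map fun a => (a.1, ind a.2)) := by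
    intro b
    unfold Fe
    rw [List.map_ofFn]
    rfl
  have hone : ∀ b : Fin (q + 1) → ℝ, Fe g (q + 1) s (fun _ _ => 1) =
      Ml g ((List.ofFn fun i => (1 + s i, b i)).map fun a => (a.1, fun _ => (1 : ℝ))) := by
    intro b
    unfold Fe
    rw [List.map_ofFn]
    rfl
  have hpos : 0 < Fe g (q + 1) s (fun _ _ => 1) := by
    rw [hone (fun _ => 0)]
    refine ml_pos hg _ ?_ (inc_map27 _ _ (hinc _)) ?_ ?_
    · rw [List.ofFn_succ, List.map_cons]
      exact List.cons_ne_nil _ _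
    · intro a ha z _
      obtain ⟨c, -, rfl⟩ := List.mem_map.1 ha
      rfl
    · intro a ha
      obtain ⟨c, -, rfl⟩ := List.mem_map.1 ha
      exact ⟨measurable_const, fun z => by norm_num⟩
  have hlim : ∀ (b : Fin (q + 1) → ℝ) {d u v : ℕ → ℝ}, Tendsto d atTop (nhds 0) →
      (∀ n, 0 < u n) → Tendsto u atTop (nhds 0) → (∀ n, 0 < v n) → Tendsto v atTop (nhds 0) →
      Tendsto (fun n => Ik g (2 - d n) (v n) (d n) (List.ofFn fun i => (1 + s i, b i)) (u n) /
        (u n * v n)) atTop (nhds (Fe g (q + 1) s (fun i z => ind (b i) z))) := by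
    intro b d u v hd0 hu hu0 hv hv0
    rw [hfe b]
    have h1 := hinc b
    rw [List.ofFn_succ] at h1 ⊢
    exact first_lim27 hg hd0 hu hu0 hv hv0 _ _ h1.1 h1.2
  have hz1 : Fe g (q + 1) s (fun i z => ind ((fun _ : Fin (q + 1) => (0 : ℝ)) i) z) =
      Fe g (q + 1) s (fun _ _ => 1) := by
    rw [hfe (fun _ => 0), hone (fun _ => 0)]
    rw [List.ofFn_succ]
    refine ml_zero27 g _ _ ?_
    intro a ha
    rw [← List.ofFn_succ (f := fun i : Fin (q + 1) => ((1 + s i, (0 : ℝ)) : ℝ × ℝ)),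
      List.mem_ofFn] at ha
    obtain ⟨i, rfl⟩ := ha
    rfl
  refine ⟨hpos, ?_⟩
  by_contra hcon
  have hseq : ∀ n : ℕ, ∃ x : ℝ × ℝ × ℝ, (0 < x.1 ∧ x.1 < 1 / ((n : ℝ) + 1)) ∧
      (0 < x.2.1 ∧ x.2.1 < 1 / ((n : ℝ) + 1)) ∧ (0 < x.2.2 ∧ x.2.2 < 1 / ((n : ℝ) + 1)) ∧
      ε < |Ik g (2 - x.1) x.2.2 x.1 (List.ofFn fun i => (1 + s i, b i)) x.2.1 /
        hk (g * (2 - 2 * x.1)) x.2.1 x.2.2 -
        Fe g (q + 1) s (fun i z => ind (b i) z) / Fe g (q + 1) s (fun _ _ => 1)| := by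
    intro n
    by_contra hn
    refine hcon ⟨1 / ((n : ℝ) + 1), by positivity, fun d u v h1 h2 h3 h4 h5 h6 => ?_⟩
    by_contra hx
    exact hn ⟨(d, u, v), ⟨h1, h2⟩, ⟨h3, h4⟩, ⟨h5, h6⟩, not_le.1 hx⟩
  choose x hx1 hx2 hx3 hx4 using hseq
  have hto : ∀ f : ℕ → ℝ, (∀ n, 0 < f n ∧ f n < 1 / ((n : ℝ) + 1)) → Tendsto f atTop (nhds 0) := by
    intro f hf
    exact squeeze_zero (fun n => (hf n).1.le) (fun n => (hf n).2.le)
      tendsto_one_div_add_atTop_nhds_zero_nat
  have hd0 := hto (fun n => (x n).1) hx1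
  have hu0 := hto (fun n => (x n).2.1) hx2
  have hv0 := hto (fun n => (x n).2.2) hx3
  have l1 := hlim b hd0 (fun n => (hx2 n).1) hu0 (fun n => (hx3 n).1) hv0
  have l2 := hlim (fun _ => 0) hd0 (fun n => (hx2 n).1) hu0 (fun n => (hx3 n).1) hv0
  rw [hz1] at l2
  have l3 := l1.div l2 hpos.ne'
  have hev : ∀ᶠ n in atTop, Ik g (2 - (x n).1) (x n).2.2 (x n).1
      (List.ofFn fun i => (1 + s i, (fun _ : Fin (q + 1) => (0 : ℝ)) i)) (x n).2.1 =
        hk (g * (2 - 2 * (x n).1)) (x n).2.1 (x n).2.2 := by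
    have h1 := hinc (fun _ => 0)
    rw [List.ofFn_succ] at h1
    have h2 := inc3_ev27 hd0 _ _ h1.2
    have h3 : ∀ᶠ n in atTop, (x n).1 < 1 + s 0 := hd0.eventually (gt_mem_nhds h1.1)
    filter_upwards [h2, h3] with n h4 h5
    have h6 : Inc3 (x n).1 (List.ofFn fun i => (1 + s i, (fun _ : Fin (q + 1) => (0 : ℝ)) i))
        (2 - (x n).1) := by
      rw [List.ofFn_succ]
      exact ⟨h5, h4⟩
    rw [(ik_zero27 hg (hx3 n).1.le _ _ h6 (by
      intro a ha
      rw [List.mem_ofFn] at ha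
      obtain ⟨i, rfl⟩ := ha
      rfl) _ (hx2 n).1.le).2]
    congr 1
    ring
  have l4 : Tendsto (fun n => Ik g (2 - (x n).1) (x n).2.2 (x n).1
      (List.ofFn fun i => (1 + s i, b i)) (x n).2.1 / hk (g * (2 - 2 * (x n).1)) (x n).2.1 (x n).2.2 -
        Fe g (q + 1) s (fun i z => ind (b i) z) / Fe g (q + 1) s (fun _ _ => 1)) atTop (nhds 0) := by
    have l5 := l3.sub_const (Fe g (q + 1) s (fun i z => ind (b i) z) / Fe g (q + 1) s (fun _ _ => 1))
    rw [sub_self] at l5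
    refine l5.congr' ?_
    filter_upwards [hev] with n hn
    have hu := (hx2 n).1
    have hv := (hx3 n).1
    simp only [Pi.div_apply]
    rw [hn, div_div_div_cancel_right₀ (mul_pos hu hv).ne']
  have l6 := (l4.abs).eventually (gt_mem_nhds (by rw [abs_zero]; exact hε))
  obtain ⟨n, hn⟩ := l6.exists
  exact absurd hn (not_lt.2 (hx4 n).le)

end Pool.Agent.Helper18.WK
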