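import Pool.Agent.Helper18.WK.Defs

/-!
# Project WK, block WK-N1: marked pieces (proved)

`above_dec`: for `1 ≤ x, z ≤ cap` from `low` (`min (Kp) (Db + Et) ≤ Db + min (Kp) (Et)`); for `x > cap`:
`Kp ≤ B exp (-a (l + h)) ≤ Bt' exp (-r' (cap - x + l + h))`; for `x ≤ cap < z`: `h ≥ cap - x`, so
`exp (-a (l + h)) ≤ exp (-a / 2 (cap - x + l + h))`. `ins_le`: strong induction on `n`: `K' ≤ K + E` at the first
piece; the term with `E` is the term `j = 0` of `Ins`; for the term with `K ≤ K'` the induction hypothesis.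
-/

open scoped ENNReal

namespace Pool.Agent.Helper18.WK

/-- Kernels of the pieces which stay above the line and below the height `cap`. -/
structure Above (F : Law) (κ Bt r : ℝ) (cap : ℕ) (K : Ker) : Prop where
  le : ∀ x l z, K x l z ≤ Kp F x l z
  low : ∀ (x : ℤ) (l : ℕ) (z : ℤ), 1 ≤ x → x ≤ cap → 1 ≤ z → z ≤ cap →
    ENNReal.ofReal (F.f l (z - x)) ≤ K x l z +
      ENNReal.ofReal (Bt * (Real.exp (-r * (x + l + |(z : ℝ) - x|)) +
        Real.exp (-r * ((cap - x) + l + |(z : ℝ) - x|))))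
  up : ∀ x : ℤ, 1 ≤ x → x + 1 ≤ cap → ENNReal.ofReal κ ≤ K x F.l0 (x + 1)
  down : ∀ x : ℤ, 1 ≤ x → x + 1 ≤ cap → ENNReal.ofReal κ ≤ K (x + 1) F.l0 x

/-- Error near the line. -/
noncomputable def Db (Bt r : ℝ) : Ker := fun x l z =>
  if 1 ≤ x ∧ 1 ≤ z then ENNReal.ofReal (Bt * Real.exp (-r * (x + l + |(z : ℝ) - x|))) else 0

/-- Error near the height `cap`. -/
noncomputable def Dt (F : Law) (Bt r : ℝ) (cap : ℕ) : Ker := fun x l z =>
  min (Kp F x l z) (ENNReal.ofReal (Bt * Real.exp (-r * ((cap - x) + l + |(z : ℝ) - x|))))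

/-- Chains with one marked piece of the kernel `E`. -/
noncomputable def Ins (K E : Ker) (n : ℕ) (x y : ℤ) : ℝ≥0∞ :=
  ∑ j ∈ Finset.range n, ∑ l ∈ Finset.range (n - j), ∑' z : ℤ, ∑' z' : ℤ,
    G K j x z * E z (l + 1) z' * G K (n - j - (l + 1)) z' y

theorem above_dec {F : Law} {κ Bt r : ℝ} (hB : 0 < Bt) (hr : 0 < r) {cap : ℕ} {K : Ker}
    (h : Above F κ Bt r cap K) (x : ℤ) (l : ℕ) (z : ℤ) :
    Kp F x l z ≤ K x l z + (Db (Bt + F.B) (min r F.a / 2) x l z + Dt F (Bt + F.B) (min r F.a / 2) cap x l z) := by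
  have hFB := F.B_pos
  have hFa := F.a_pos
  set ρ := min r F.a / 2 with hρ
  have hρ0 : 0 < ρ := half_pos (lt_min hr hFa)
  have hρr : ρ ≤ r := by
    have := min_le_left r F.a
    linarith
  have hρa : 2 * ρ ≤ F.a := by
    have := min_le_right r F.a
    linarith
  by_cases hxz : 1 ≤ x ∧ 1 ≤ z
  swap
  · simp [Kp, hxz]
  have hx1 : (1 : ℝ) ≤ x := by exact_mod_cast hxz.1
  have hl0 : (0 : ℝ) ≤ l := Nat.cast_nonneg l
  have habs : 0 ≤ |(z : ℝ) - x| := abs_nonneg _
  have hKp : Kp F x l z = ENNReal.ofReal (F.f l (z - x)) := by simp [Kp, hxz]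
  have hDb : Db (Bt + F.B) ρ x l z =
      ENNReal.ofReal ((Bt + F.B) * Real.exp (-ρ * (x + l + |(z : ℝ) - x|))) := by simp [Db, hxz]
  by_cases hc : x ≤ cap ∧ z ≤ cap
  · have hxc : (x : ℝ) ≤ cap := by exact_mod_cast hc.1
    have h1 := h.low x l z hxz.1 hc.1 hxz.2 hc.2
    have e1 : Real.exp (-r * (x + l + |(z : ℝ) - x|)) ≤ Real.exp (-ρ * (x + l + |(z : ℝ) - x|)) := by
      apply Real.exp_le_exp.2
      have : ρ * (x + l + |(z : ℝ) - x|) ≤ r * (x + l + |(z : ℝ) - x|) :=
        mul_le_mul_of_nonneg_right hρr (by linarith)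
      linarith
    have e2 : Real.exp (-r * ((cap - x) + l + |(z : ℝ) - x|)) ≤
        Real.exp (-ρ * ((cap - x) + l + |(z : ℝ) - x|)) := by
      apply Real.exp_le_exp.2
      have : ρ * ((cap - x) + l + |(z : ℝ) - x|) ≤ r * ((cap - x) + l + |(z : ℝ) - x|) :=
        mul_le_mul_of_nonneg_right hρr (by linarith)
      linarith
    have e3 : ENNReal.ofReal (Bt * (Real.exp (-r * (x + l + |(z : ℝ) - x|)) +
        Real.exp (-r * ((cap - x) + l + |(z : ℝ) - x|)))) ≤
        ENNReal.ofReal ((Bt + F.B) * Real.exp (-ρ * (x + l + |(z : ℝ) - x|))) +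
        ENNReal.ofReal ((Bt + F.B) * Real.exp (-ρ * ((cap - x) + l + |(z : ℝ) - x|))) := by
      rw [← ENNReal.ofReal_add (by positivity) (by positivity)]
      apply ENNReal.ofReal_le_ofReal
      have p1 := Real.exp_pos (-ρ * (x + l + |(z : ℝ) - x|))
      have p2 := Real.exp_pos (-ρ * ((cap - x) + l + |(z : ℝ) - x|))
      nlinarith
    have h2 : Kp F x l z ≤ K x l z + (Db (Bt + F.B) ρ x l z +
        ENNReal.ofReal ((Bt + F.B) * Real.exp (-ρ * ((cap - x) + l + |(z : ℝ) - x|)))) := by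
      rw [hKp, hDb]
      exact h1.trans (add_le_add_right e3 _)
    have h3 : Kp F x l z ≤ K x l z + (Db (Bt + F.B) ρ x l z + Kp F x l z) := by
      rw [← add_assoc]
      exact le_add_self
    rcases min_choice (Kp F x l z)
      (ENNReal.ofReal ((Bt + F.B) * Real.exp (-ρ * ((cap - x) + l + |(z : ℝ) - x|)))) with h4 | h4
    · rw [Dt, h4]
      exact h3
    · rw [Dt, h4]
      exact h2
  · have hcx : (cap : ℝ) - x ≤ |(z : ℝ) - x| := by
      by_cases hx : x ≤ cap
      · have hz : (cap : ℤ) < z := by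
          by_contra hz
          exact hc ⟨hx, not_lt.1 hz⟩
        have hz' : (cap : ℝ) ≤ z := by exact_mod_cast hz.le
        exact (by linarith : (cap : ℝ) - x ≤ z - x).trans (le_abs_self _)
      · have hx' : (cap : ℝ) ≤ x := by exact_mod_cast (not_le.1 hx).le
        linarith
    have h1 := F.f_tail l (z - x)
    push_cast at h1
    have h2 : Kp F x l z ≤ Dt F (Bt + F.B) ρ cap x l z := by
      rw [Dt, hKp]
      refine le_min le_rfl (ENNReal.ofReal_le_ofReal (h1.trans ?_))
      have h3 : Real.exp (-F.a * (l + |(z : ℝ) - x|)) ≤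
          Real.exp (-ρ * ((cap - x) + l + |(z : ℝ) - x|)) := by
        apply Real.exp_le_exp.2
        have h4 : 2 * ρ * (l + |(z : ℝ) - x|) ≤ F.a * (l + |(z : ℝ) - x|) :=
          mul_le_mul_of_nonneg_right hρa (by linarith)
        have h5 : ρ * ((cap - x) + l + |(z : ℝ) - x|) ≤ ρ * (2 * (l + |(z : ℝ) - x|)) :=
          mul_le_mul_of_nonneg_left (by linarith) hρ0.le
        linarith
      have p2 := Real.exp_pos (-ρ * ((cap - x) + l + |(z : ℝ) - x|))
      nlinarith [mul_le_mul_of_nonneg_left h3 hFB.le, mul_pos hB p2]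
    exact h2.trans (le_add_self.trans le_add_self)

/-- the mass of the chains whose first piece is of the kernel `E` -/
private noncomputable def H (K E : Ker) (y : ℤ) (m : ℕ) (z : ℤ) : ℝ≥0∞ :=
  ∑ l ∈ Finset.range m, ∑' z' : ℤ, E z (l + 1) z' * G K (m - (l + 1)) z' y

private lemma sum_tsum_comm {β : Type*} (s : Finset ℕ) (f : ℕ → β → ℝ≥0∞) :
    ∑ l ∈ s, ∑' z, f l z = ∑' z, ∑ l ∈ s, f l z :=
  (Summable.tsum_finsetSum fun _ _ => ENNReal.summable).symm

private lemma ins_eq (K E : Ker) (n : ℕ) (x y : ℤ) :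
    Ins K E n x y = ∑ j ∈ Finset.range n, ∑' z : ℤ, G K j x z * H K E y (n - j) z := by
  unfold Ins
  refine Finset.sum_congr rfl fun j _ => ?_
  rw [sum_tsum_comm]
  refine tsum_congr fun z => ?_
  rw [H, Finset.mul_sum]
  refine Finset.sum_congr rfl fun l _ => ?_
  rw [← ENNReal.tsum_mul_left]
  refine tsum_congr fun z' => ?_
  rw [mul_assoc]

private lemma ins_succ (K E : Ker) (n : ℕ) (x y : ℤ) :
    Ins K E (n + 1) x y = (∑ l ∈ Finset.range (n + 1), ∑' z : ℤ, E x (l + 1) z * G K (n - l) z y) +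
      ∑ l ∈ Finset.range (n + 1), ∑' w : ℤ, K x (l + 1) w * Ins K E (n - l) w y := by
  rw [ins_eq, Finset.sum_range_succ', add_comm]
  congr 1
  · have h1 : ∀ z : ℤ, G K 0 x z * H K E y (n + 1 - 0) z = if z = x then H K E y (n + 1) z else 0 := by
      intro z
      rw [G_zero]
      by_cases hz : x = z
      · simp [hz]
      · simp [hz, Ne.symm hz]
    simp_rw [h1]
    rw [tsum_ite_eq, H]
    refine Finset.sum_congr rfl fun l _ => tsum_congr fun z' => ?_
    rw [Nat.add_sub_add_right]
  · have h2 : ∀ j ∈ Finset.range n, (∑' z : ℤ, G K (j + 1) x z * H K E y (n + 1 - (j + 1)) z) =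
        ∑ l ∈ Finset.range (j + 1), ∑' w : ℤ, K x (l + 1) w *
          ∑' z : ℤ, G K (j - l) w z * H K E y (n - j) z := by
      intro j _
      rw [Nat.add_sub_add_right]
      simp_rw [G_succ, Finset.sum_mul]
      rw [← sum_tsum_comm]
      refine Finset.sum_congr rfl fun l _ => ?_
      simp_rw [← ENNReal.tsum_mul_right, ← ENNReal.tsum_mul_left]
      rw [ENNReal.tsum_comm]
      refine tsum_congr fun w => tsum_congr fun z => ?_
      rw [mul_assoc]
    rw [Finset.sum_congr rfl h2]
    have h3 : ∀ l ∈ Finset.range (n + 1), (∑' w : ℤ, K x (l + 1) w * Ins K E (n - l) w y) =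
        ∑ j ∈ Finset.range (n - l), ∑' w : ℤ, K x (l + 1) w *
          ∑' z : ℤ, G K j w z * H K E y (n - l - j) z := by
      intro l _
      simp_rw [ins_eq, Finset.mul_sum]
      rw [← sum_tsum_comm]
    rw [Finset.sum_congr rfl h3, Finset.sum_sigma', Finset.sum_sigma']
    refine Finset.sum_nbij' (fun p => ⟨p.2, p.1 - p.2⟩) (fun p => ⟨p.1 + p.2, p.1⟩) ?_ ?_ ?_ ?_ ?_
    · rintro ⟨j, l⟩ hp
      simp only [Finset.mem_sigma, Finset.mem_range] at hp ⊢
      omega
    · rintro ⟨l, j⟩ hp
      simp only [Finset.mem_sigma, Finset.mem_range] at hp ⊢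
      omega
    · rintro ⟨j, l⟩ hp
      simp only [Finset.mem_sigma, Finset.mem_range] at hp
      simp only [Sigma.mk.injEq, heq_eq_eq, and_true]
      omega
    · rintro ⟨l, j⟩ hp
      simp
    · rintro ⟨j, l⟩ hp
      simp only [Finset.mem_sigma, Finset.mem_range] at hp
      have e : n - l - (j - l) = n - j := by omega
      simp only [e]

theorem ins_le {K K' E : Ker} (h : ∀ x l z, K x l z ≤ K' x l z) (hE : ∀ x l z, K' x l z ≤ K x l z + E x l z)
    (n : ℕ) (x y : ℤ) : G K' n x y ≤ G K n x y + Ins K' E n x y := by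
  induction n using Nat.strong_induction_on generalizing x with
  | _ n ih =>
    rcases n with _ | n
    · rw [G_zero, G_zero]
      exact le_self_add
    · rw [ins_succ, G_succ K' n, G_succ K n]
      have h1 : ∑ l ∈ Finset.range (n + 1), ∑' z : ℤ, K' x (l + 1) z * G K' (n - l) z y ≤
          ∑ l ∈ Finset.range (n + 1), ∑' z : ℤ, (K x (l + 1) z * G K (n - l) z y +
            (E x (l + 1) z * G K' (n - l) z y + K' x (l + 1) z * Ins K' E (n - l) z y)) := by
        refine Finset.sum_le_sum fun l _ => ENNReal.tsum_le_tsum fun z => ?_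
        calc K' x (l + 1) z * G K' (n - l) z y
            ≤ (K x (l + 1) z + E x (l + 1) z) * G K' (n - l) z y :=
              mul_le_mul_left (hE x (l + 1) z) _
          _ = K x (l + 1) z * G K' (n - l) z y + E x (l + 1) z * G K' (n - l) z y := by ring
          _ ≤ K x (l + 1) z * (G K (n - l) z y + Ins K' E (n - l) z y) +
              E x (l + 1) z * G K' (n - l) z y :=
              add_le_add_left (mul_le_mul_right (ih (n - l) (by omega) z) _) _
          _ = K x (l + 1) z * G K (n - l) z y + (E x (l + 1) z * G K' (n - l) z y +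
              K x (l + 1) z * Ins K' E (n - l) z y) := by ring
          _ ≤ K x (l + 1) z * G K (n - l) z y + (E x (l + 1) z * G K' (n - l) z y +
              K' x (l + 1) z * Ins K' E (n - l) z y) := by
              gcongr
              exact h x (l + 1) z
      refine h1.trans (le_of_eq ?_)
      simp_rw [ENNReal.tsum_add, Finset.sum_add_distrib]

theorem ins_add (K E E' : Ker) (n : ℕ) (x y : ℤ) :
    Ins K (fun x l z => E x l z + E' x l z) n x y = Ins K E n x y + Ins K E' n x y := by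
  unfold Ins
  simp_rw [mul_add, add_mul, ENNReal.tsum_add, Finset.sum_add_distrib]

theorem g_mul_le (K : Ker) (i j : ℕ) (x z y : ℤ) : G K i x z * G K j z y ≤ G K (i + j) x y := by
  induction i using Nat.strong_induction_on generalizing x with
  | _ i ih =>
    rcases i with _ | i
    · rw [G_zero, zero_add]
      split_ifs with hxz
      · rw [hxz, one_mul]
      · simp
    · have e : i + 1 + j = (i + j) + 1 := by omega
      rw [e, G_succ K i, G_succ K (i + j), Finset.sum_mul]
      have h1 : ∑ l ∈ Finset.range (i + 1), (∑' w : ℤ, K x (l + 1) w * G K (i - l) w z) * G K j z y ≤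
          ∑ l ∈ Finset.range (i + 1), ∑' w : ℤ, K x (l + 1) w * G K (i + j - l) w y := by
        refine Finset.sum_le_sum fun l hl => ?_
        rw [Finset.mem_range] at hl
        rw [← ENNReal.tsum_mul_right]
        refine ENNReal.tsum_le_tsum fun w => ?_
        rw [mul_assoc]
        have := ih (i - l) (by omega) w
        have e2 : i - l + j = i + j - l := by omega
        rw [e2] at this
        gcongr
      refine h1.trans (Finset.sum_le_sum_of_subset ?_)
      intro l hl
      simp only [Finset.mem_range] at hl ⊢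
      omega

end Pool.Agent.Helper18.WK
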