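import Pool.Agent.Helper18.WK.Kill
import Pool.Agent.Helper18.WK.InsA

/-!
# Project WK, block WK-N4: `ins_bulk`
-/

open scoped ENNReal

namespace Pool.Agent.Helper18.WK

private lemma ib_le_one6 (F : Law) (n : ℕ) (x y : ℤ) : G (Kp F) n x y ≤ 1 :=
  (g_mono (kp_le F) n x y).trans ((ENNReal.le_tsum y).trans (g_sum_le F n x))

private lemma ib_pow26 {u : ℝ} (hu : 0 < u) : Real.exp (-u) ≤ 2 / u ^ 2 := by
  have h1 := Real.quadratic_le_exp_of_nonneg hu.le
  rw [Real.exp_neg, ← one_div, div_le_div_iff₀ (Real.exp_pos _) (by positivity)]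
  nlinarith

private lemma ib_pow46 {u : ℝ} (hu : 0 < u) : Real.exp (-u) ≤ 24 / u ^ 4 := by
  have h5 := Real.pow_div_factorial_le_exp u hu.le 4
  rw [Real.exp_neg, ← one_div, div_le_div_iff₀ (Real.exp_pos _) (by positivity)]
  rw [div_le_iff₀ (by positivity)] at h5
  have h6 : ((Nat.factorial 4 : ℕ) : ℝ) = 24 := by norm_num [Nat.factorial]
  rw [h6] at h5
  linarith

/-- the mass at a height `z` for chains from `x ≥ ε √n` -/
private lemma ib_far6 (F : Law) {ε ρ : ℝ} (hε : 0 < ε) (hρ : 0 < ρ) : ∃ C : ℝ, 0 < C ∧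
    ∀ (n : ℕ) (x : ℤ), 1 ≤ n → ε * Real.sqrt n ≤ x → ∀ j : ℕ, j ≤ n → ∀ z : ℤ, 1 ≤ z →
      G (Kp F) j x z ≤ ENNReal.ofReal (C * Real.exp (ρ * z) / (Real.sqrt n * Real.sqrt (Real.sqrt n))) := by
  obtain ⟨Ck, hCk, hk⟩ := kp_up F
  obtain ⟨Cg, c, hCg, hc, hU⟩ := u_gauss F
  obtain ⟨c', hc'def⟩ : ∃ c' : ℝ, c' = c * ε ^ 2 / (4 * (1 + ε / 2)) := ⟨_, rfl⟩
  have hc' : 0 < c' := by rw [hc'def]; positivity
  obtain ⟨K₀, hK₀⟩ : ∃ K₀ : ℝ, K₀ = 2 / c' ^ 2 + 24 / c' ^ 4 := ⟨_, rfl⟩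
  have hK₀0 : 0 < K₀ := by rw [hK₀]; positivity
  obtain ⟨C, hCdef⟩ : ∃ C : ℝ, C = 8 / (ρ * ε) ^ 2 + Ck * Cg * K₀ * (1 + 1 / (2 * ρ)) + 1 := ⟨_, rfl⟩
  have hCA : 8 / (ρ * ε) ^ 2 ≤ C := by
    rw [hCdef]
    have : 0 < Ck * Cg * K₀ * (1 + 1 / (2 * ρ)) := by positivity
    linarith
  have hCB : Ck * Cg * K₀ * (1 + 1 / (2 * ρ)) ≤ C := by
    rw [hCdef]
    have : 0 < 8 / (ρ * ε) ^ 2 := by positivity
    linarith
  have hC1 : 1 ≤ C := by
    rw [hCdef]
    have : 0 < 8 / (ρ * ε) ^ 2 := by positivity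
    have : 0 < Ck * Cg * K₀ * (1 + 1 / (2 * ρ)) := by positivity
    linarith
  refine ⟨C, by linarith, fun n x hn hx j hj z hz => ?_⟩
  obtain ⟨s, hs⟩ : ∃ s : ℝ, s = Real.sqrt n := ⟨_, rfl⟩
  obtain ⟨w, hw⟩ : ∃ w : ℝ, w = Real.sqrt s := ⟨_, rfl⟩
  rw [← hs] at hx ⊢
  rw [← hw]
  have hn1 : (1 : ℝ) ≤ n := by exact_mod_cast hn
  have hs1 : 1 ≤ s := by rw [hs, Real.one_le_sqrt]; exact hn1
  have hw1 : 1 ≤ w := by rw [hw, Real.one_le_sqrt]; exact hs1
  have hs0 : 0 < s := by linarith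
  have hw0 : 0 < w := by linarith
  have hss : s ^ 2 = n := by rw [hs]; exact Real.sq_sqrt (Nat.cast_nonneg n)
  have hww : w ^ 2 = s := by rw [hw]; exact Real.sq_sqrt hs0.le
  have hz1 : (1 : ℝ) ≤ z := by exact_mod_cast hz
  have hz0 : (0 : ℝ) < z := by linarith
  have hP : s * w = w ^ 3 := by rw [← hww]; ring
  by_cases hcase : ε * s / 2 < z
  · refine (ib_le_one6 F j x z).trans ?_
    rw [← ENNReal.ofReal_one]
    refine ENNReal.ofReal_le_ofReal ?_
    rw [le_div_iff₀ (by positivity), one_mul, hP]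
    have h1 : (ρ * z) ^ 2 / 2 ≤ Real.exp (ρ * z) := by
      have := Real.quadratic_le_exp_of_nonneg (show 0 ≤ ρ * z by positivity)
      nlinarith [mul_pos hρ hz0]
    have h2 : ε * w ^ 2 / 2 ≤ z := by rw [hww]; linarith
    have h3 : (ρ * (ε * w ^ 2 / 2)) ^ 2 ≤ (ρ * z) ^ 2 :=
      pow_le_pow_left₀ (by positivity) (mul_le_mul_of_nonneg_left h2 hρ.le) 2
    have h4 : (ρ * ε) ^ 2 * w ^ 4 / 8 ≤ Real.exp (ρ * z) := by nlinarith
    have h5 : w ^ 3 ≤ w ^ 4 := pow_le_pow_right₀ hw1 (by norm_num)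
    have h6 : 8 / (ρ * ε) ^ 2 * ((ρ * ε) ^ 2 * w ^ 4 / 8) ≤ C * Real.exp (ρ * z) :=
      mul_le_mul hCA h4 (by positivity) (by linarith)
    have h7 : 8 / (ρ * ε) ^ 2 * ((ρ * ε) ^ 2 * w ^ 4 / 8) = w ^ 4 := by
      field_simp
    linarith
  rw [not_lt] at hcase
  have hxz : ε * s / 2 ≤ (x : ℝ) - z := by linarith
  have hT : 0 < ε * s / 2 := by positivity
  rcases Nat.eq_zero_or_pos j with rfl | hj0
  · rw [G_zero, if_neg]
    · exact zero_le
    · rintro rfl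
      linarith
  have hj1 : (1 : ℝ) ≤ j := by exact_mod_cast hj0
  have hjn : (j : ℝ) ≤ n := by exact_mod_cast hj
  obtain ⟨A, hA⟩ : ∃ A : ℝ, A = Ck * (1 + z) / j := ⟨_, rfl⟩
  obtain ⟨B, hB⟩ : ∃ B : ℝ, B = Cg / Real.sqrt j * Real.exp (-c * ((z - x : ℤ) : ℝ) ^ 2 / (j + |((z - x : ℤ) : ℝ)|)) :=
    ⟨_, rfl⟩
  have hA0 : 0 < A := by rw [hA]; positivity
  have hsj : 0 < Real.sqrt j := Real.sqrt_pos.2 (by linarith)
  have hB0 : 0 < B := by rw [hB]; positivity
  have gA : G (Kp F) j x z ≤ ENNReal.ofReal A := by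
    rw [g_symm (Kp F) (kp_symm F), hA]
    have h1 := (hk j z x hj0).1
    rwa [abs_of_pos hz0] at h1
  have gB : G (Kp F) j x z ≤ ENNReal.ofReal B := by
    refine (g_mono (kp_le F) j x z).trans ?_
    rw [u_eq, hB]
    exact ENNReal.ofReal_le_ofReal (hU j (z - x) hj0)
  have gAB : G (Kp F) j x z ≤ ENNReal.ofReal (min A B) := by
    rcases le_total A B with h | h
    · rwa [min_eq_left h]
    · rwa [min_eq_right h]
  refine gAB.trans (ENNReal.ofReal_le_ofReal ?_)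
  rw [hP]
  -- it is enough to bound the product
  have hprod : A * B ≤ (C * Real.exp (ρ * z) / w ^ 3) ^ 2 := by
    have hh : |((z - x : ℤ) : ℝ)| = x - z := by
      push_cast
      rw [abs_sub_comm, abs_of_nonneg (by linarith)]
    have hsq : ((z - x : ℤ) : ℝ) ^ 2 = ((x : ℝ) - z) ^ 2 := by
      push_cast
      ring
    have hBe : B = Cg / Real.sqrt j * Real.exp (-(c * (((x : ℝ) - z) ^ 2 / (j + (x - z))))) := by
      rw [hB, hh, hsq]
      congr 2
      ring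
    have hmono : (ε * s / 2) ^ 2 / (j + ε * s / 2) ≤ ((x : ℝ) - z) ^ 2 / (j + (x - z)) := by
      obtain ⟨t, ht⟩ : ∃ t : ℝ, t = (x : ℝ) - z := ⟨_, rfl⟩
      obtain ⟨T, hTd⟩ : ∃ T : ℝ, T = ε * s / 2 := ⟨_, rfl⟩
      rw [← ht, ← hTd]
      rw [← ht, ← hTd] at hxz
      rw [← hTd] at hT
      have ht0 : 0 < t := lt_of_lt_of_le hT hxz
      rw [div_le_div_iff₀ (by positivity) (by positivity)]
      have h1 : T ^ 2 ≤ t ^ 2 := pow_le_pow_left₀ hT.le hxz 2
      have h2 : T ^ 2 * j ≤ t ^ 2 * j := mul_le_mul_of_nonneg_right h1 (by linarith)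
      have h3 : t * T * T ≤ t * T * t := mul_le_mul_of_nonneg_left hxz (by positivity)
      nlinarith
    have hexp : ((n : ℝ) / j) ^ 2 * Real.exp (-(c * (((x : ℝ) - z) ^ 2 / (j + (x - z))))) ≤ K₀ := by
      have hred : ∀ u : ℝ, u ≤ c * ((ε * s / 2) ^ 2 / (j + ε * s / 2)) →
          Real.exp (-(c * (((x : ℝ) - z) ^ 2 / (j + (x - z))))) ≤ Real.exp (-u) := by
        intro u hu
        refine Real.exp_le_exp.2 ?_
        have h1 := mul_le_mul_of_nonneg_left hmono hc.le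
        linarith
      by_cases hjs : s ≤ j
      · have h1 : c' * ((n : ℝ) / j) ≤ c * ((ε * s / 2) ^ 2 / (j + ε * s / 2)) := by
          rw [hc'def, ← mul_div_assoc, ← mul_div_assoc, div_le_div_iff₀ (by positivity) (by positivity), ← hss]
          have h2 : j + ε * s / 2 ≤ j * (1 + ε / 2) := by nlinarith
          have h3 : c * ε ^ 2 / (4 * (1 + ε / 2)) * s ^ 2 * (j + ε * s / 2) ≤
              c * ε ^ 2 / (4 * (1 + ε / 2)) * s ^ 2 * (j * (1 + ε / 2)) :=
            mul_le_mul_of_nonneg_left h2 (by positivity)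
          refine h3.trans (le_of_eq ?_)
          field_simp
          ring
        have hu0 : 0 < c' * ((n : ℝ) / j) := by positivity
        have h4 := (hred _ h1).trans (ib_pow26 hu0)
        have h5 : ((n : ℝ) / j) ^ 2 * Real.exp (-(c * (((x : ℝ) - z) ^ 2 / (j + (x - z))))) ≤
            ((n : ℝ) / j) ^ 2 * (2 / (c' * ((n : ℝ) / j)) ^ 2) :=
          mul_le_mul_of_nonneg_left h4 (by positivity)
        have h6 : ((n : ℝ) / j) ^ 2 * (2 / (c' * ((n : ℝ) / j)) ^ 2) = 2 / c' ^ 2 := by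
          have : (0 : ℝ) < n := by linarith
          field_simp
        have h7 : 0 < 24 / c' ^ 4 := by positivity
        rw [hK₀]
        linarith
      · rw [not_le] at hjs
        have h1 : c' * s ≤ c * ((ε * s / 2) ^ 2 / (j + ε * s / 2)) := by
          rw [hc'def, ← mul_div_assoc, le_div_iff₀ (by positivity)]
          have h2 : j + ε * s / 2 ≤ s * (1 + ε / 2) := by nlinarith
          have h3 : c * ε ^ 2 / (4 * (1 + ε / 2)) * s * (j + ε * s / 2) ≤
              c * ε ^ 2 / (4 * (1 + ε / 2)) * s * (s * (1 + ε / 2)) :=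
            mul_le_mul_of_nonneg_left h2 (by positivity)
          refine h3.trans (le_of_eq ?_)
          field_simp
          ring
        have h4 := (hred _ h1).trans (ib_pow46 (show 0 < c' * s by positivity))
        have h5 : ((n : ℝ) / j) ^ 2 ≤ s ^ 4 := by
          have h6 : (n : ℝ) / j ≤ n := div_le_self (by linarith) hj1
          have h7 : ((n : ℝ) / j) ^ 2 ≤ (n : ℝ) ^ 2 := pow_le_pow_left₀ (by positivity) h6 2
          refine h7.trans (le_of_eq ?_)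
          rw [← hss]
          ring
        have h6 : ((n : ℝ) / j) ^ 2 * Real.exp (-(c * (((x : ℝ) - z) ^ 2 / (j + (x - z))))) ≤
            s ^ 4 * (24 / (c' * s) ^ 4) :=
          mul_le_mul h5 h4 (Real.exp_pos _).le (by positivity)
        have h7 : s ^ 4 * (24 / (c' * s) ^ 4) = 24 / c' ^ 4 := by
          field_simp
        have h8 : 0 < 2 / c' ^ 2 := by positivity
        rw [hK₀]
        linarith
    obtain ⟨E, hE⟩ : ∃ E : ℝ, E = Real.exp (-(c * (((x : ℝ) - z) ^ 2 / (j + (x - z))))) := ⟨_, rfl⟩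
    have hE0 : 0 < E := by rw [hE]; exact Real.exp_pos _
    rw [← hE] at hexp hBe
    -- `w ^ 6 / (j √j) ≤ (n / j) ^ 2`
    obtain ⟨q, hq⟩ : ∃ q : ℝ, q = Real.sqrt j := ⟨_, rfl⟩
    have hq1 : 1 ≤ q := by rw [hq, Real.one_le_sqrt]; exact hj1
    have hqq : q ^ 2 = j := by rw [hq]; exact Real.sq_sqrt (by linarith)
    have hqs : q ≤ s := by rw [hq, hs]; exact Real.sqrt_le_sqrt hjn
    rw [← hq] at hBe
    have h1 : w ^ 6 / (j * q) ≤ ((n : ℝ) / j) ^ 2 := by
      have h2 : w ^ 6 = s ^ 3 := by rw [← hww]; ring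
      rw [h2, ← hss, ← hqq, div_pow, div_le_div_iff₀ (by positivity) (by positivity)]
      have h3 : s ^ 3 * (q ^ 2) ^ 2 = s ^ 3 * q ^ 3 * q := by ring
      have h4 : (s ^ 2) ^ 2 * (q ^ 2 * q) = s ^ 3 * q ^ 3 * s := by ring
      rw [h3, h4]
      exact mul_le_mul_of_nonneg_left hqs (by positivity)
    have h2 : 1 + (z : ℝ) ≤ (1 + 1 / (2 * ρ)) * Real.exp (ρ * z) ^ 2 := by
      have h3 : Real.exp (ρ * z) ^ 2 = Real.exp (2 * ρ * z) := by
        rw [← Real.exp_nat_mul]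
        congr 1
        push_cast
        ring
      have h4 : 1 + 2 * ρ * z ≤ Real.exp (2 * ρ * z) := by linarith [Real.add_one_le_exp (2 * ρ * z)]
      rw [h3]
      have h5 : (1 + 1 / (2 * ρ)) * (1 + 2 * ρ * z) ≤ (1 + 1 / (2 * ρ)) * Real.exp (2 * ρ * z) :=
        mul_le_mul_of_nonneg_left h4 (by positivity)
      have h6 : (1 + 1 / (2 * ρ)) * (1 + 2 * ρ * z) = 1 + z + 2 * ρ * z + 1 / (2 * ρ) := by
        field_simp
        ring
      have h7 : 0 < 2 * ρ * z := by positivity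
      have h8 : 0 < 1 / (2 * ρ) := by positivity
      linarith
    have h3 : A * B * w ^ 6 = Ck * Cg * (1 + z) * (w ^ 6 / (j * q) * E) := by
      rw [hA, hBe]
      field_simp
    have h4 : w ^ 6 / (j * q) * E ≤ K₀ := (mul_le_mul_of_nonneg_right h1 hE0.le).trans hexp
    have h5 : Ck * Cg * (1 + z) * (w ^ 6 / (j * q) * E) ≤
        Ck * Cg * ((1 + 1 / (2 * ρ)) * Real.exp (ρ * z) ^ 2) * K₀ :=
      mul_le_mul (mul_le_mul_of_nonneg_left h2 (by positivity)) h4 (by positivity) (by positivity)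
    have h6 : Ck * Cg * ((1 + 1 / (2 * ρ)) * Real.exp (ρ * z) ^ 2) * K₀ =
        (Ck * Cg * K₀ * (1 + 1 / (2 * ρ))) * Real.exp (ρ * z) ^ 2 := by ring
    have h7 : (Ck * Cg * K₀ * (1 + 1 / (2 * ρ))) * Real.exp (ρ * z) ^ 2 ≤ C ^ 2 * Real.exp (ρ * z) ^ 2 := by
      refine mul_le_mul_of_nonneg_right ?_ (by positivity)
      nlinarith
    rw [div_pow, le_div_iff₀ (by positivity)]
    calc A * B * (w ^ 3) ^ 2 = A * B * w ^ 6 := by ring
      _ ≤ C ^ 2 * Real.exp (ρ * z) ^ 2 := by rw [h3]; linarith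
      _ = (C * Real.exp (ρ * z)) ^ 2 := by ring
  have hD0 : 0 < C * Real.exp (ρ * z) / w ^ 3 := by
    have := Real.exp_pos (ρ * z)
    have : 0 < C := by linarith
    positivity
  by_contra hcon
  rw [not_le, lt_min_iff] at hcon
  have : (C * Real.exp (ρ * z) / w ^ 3) * (C * Real.exp (ρ * z) / w ^ 3) < A * B :=
    mul_lt_mul'' hcon.1 hcon.2 hD0.le hD0.le
  nlinarith

private lemma ib_geo6 {b : ℝ} (hb : 0 < b) : Summable fun h : ℤ => Real.exp (-b * |(h : ℝ)|) := by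
  have h1 : Summable fun n : ℕ => Real.exp (n * -b) := Real.summable_exp_nat_mul_iff.2 (by linarith)
  refine Summable.of_nat_of_neg ?_ ?_
  · refine h1.congr fun n => ?_
    rw [Int.cast_natCast, abs_of_nonneg (Nat.cast_nonneg n)]
    congr 1
    ring
  · refine h1.congr fun n => ?_
    rw [Int.cast_neg, Int.cast_natCast, abs_neg, abs_of_nonneg (Nat.cast_nonneg n)]
    congr 1
    ring

private lemma ib_db6 {Bt r : ℝ} (hB : 0 < Bt) (hr : 0 < r) {z z' : ℤ} (hz : 1 ≤ z) (hz' : 1 ≤ z') (l : ℕ) :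
    Db Bt r z (l + 1) z' ≤ ENNReal.ofReal (Bt * (Real.exp (-(r / 2) * z) * Real.exp (-(r / 2) * z') *
      Real.exp (-r * ((l + 1 : ℕ) : ℝ)))) := by
  unfold Db
  rw [if_pos ⟨hz, hz'⟩]
  refine ENNReal.ofReal_le_ofReal (mul_le_mul_of_nonneg_left ?_ hB.le)
  rw [← Real.exp_add, ← Real.exp_add]
  refine Real.exp_le_exp.2 ?_
  have h1 : ((z' : ℝ) - z) ≤ |(z' : ℝ) - z| := le_abs_self _
  have h2 : 0 ≤ |(z' : ℝ) - z| := abs_nonneg _
  nlinarith

theorem ins_bulk (F : Law) {Bt r ε : ℝ} (hB : 0 < Bt) (hr : 0 < r) (hε : 0 < ε) : ∃ C : ℝ, 0 < C ∧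
    ∀ (n : ℕ) (x y : ℤ), 1 ≤ n → ε * Real.sqrt n ≤ x → ε * Real.sqrt n ≤ y → Ins (Kp F) (Db Bt r) n x y ≤
      ENNReal.ofReal (C / (Real.sqrt n * Real.sqrt (Real.sqrt n))) := by
  obtain ⟨ρ, hρdef⟩ : ∃ ρ : ℝ, ρ = r / 4 := ⟨_, rfl⟩
  have hρ : 0 < ρ := by rw [hρdef]; positivity
  obtain ⟨C₂, hC₂, hfar⟩ := ib_far6 F hε hρ
  obtain ⟨Ck, hCk, hk⟩ := kp_up F
  have hS := ib_geo6 hρ
  set S := ∑' z : ℤ, Real.exp (-ρ * |(z : ℝ)|) with hSdef
  have hS0 : 0 ≤ S := tsum_nonneg fun _ => (Real.exp_pos _).le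
  have hE : Summable fun l : ℕ => Real.exp (l * -(2 * ρ)) := Real.summable_exp_nat_mul_iff.2 (by linarith)
  set E := ∑' l : ℕ, Real.exp (l * -(2 * ρ)) with hEdef
  have hE0 : 0 ≤ E := tsum_nonneg fun _ => (Real.exp_pos _).le
  obtain ⟨C₃, hC₃def⟩ : ∃ C₃ : ℝ, C₃ = 3 * Ck * (1 + 1 / ρ) := ⟨_, rfl⟩
  have hC₃ : 0 < C₃ := by rw [hC₃def]; positivity
  obtain ⟨D, hD⟩ : ∃ D : ℝ, D = Bt * (C₂ * C₃ + 9 / (2 * ρ ^ 2)) := ⟨_, rfl⟩
  have hD0 : 0 < D := by rw [hD]; positivity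
  refine ⟨D * S ^ 2 * E + 1, by positivity, fun n x y hn hx hy => ?_⟩
  obtain ⟨s, hs⟩ : ∃ s : ℝ, s = Real.sqrt n := ⟨_, rfl⟩
  obtain ⟨w, hw⟩ : ∃ w : ℝ, w = Real.sqrt s := ⟨_, rfl⟩
  have hn1 : (1 : ℝ) ≤ n := by exact_mod_cast hn
  have hs1 : 1 ≤ s := by rw [hs, Real.one_le_sqrt]; exact hn1
  have hw1 : 1 ≤ w := by rw [hw, Real.one_le_sqrt]; exact hs1
  have hs0 : 0 < s := by linarith
  have hw0 : 0 < w := by linarith
  have hss : s ^ 2 = n := by rw [hs]; exact Real.sq_sqrt (Nat.cast_nonneg n)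
  have hww : w ^ 2 = s := by rw [hw]; exact Real.sq_sqrt hs0.le
  have hP : s * w = w ^ 3 := by rw [← hww]; ring
  have hw4 : w ^ 4 = n := by rw [← hss, ← hww]; ring
  have hfx : ∀ j : ℕ, j ≤ n → ∀ z : ℤ, 1 ≤ z →
      G (Kp F) j x z ≤ ENNReal.ofReal (C₂ * Real.exp (ρ * z) / w ^ 3) := by
    intro j hj z hz
    have h1 := hfar n x hn hx j hj z hz
    rwa [← hs, ← hw, hP] at h1
  have hfy : ∀ j : ℕ, j ≤ n → ∀ z : ℤ, 1 ≤ z →
      G (Kp F) j z y ≤ ENNReal.ofReal (C₂ * Real.exp (ρ * z) / w ^ 3) := by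
    intro j hj z hz
    rw [g_symm (Kp F) (kp_symm F)]
    have h1 := hfar n y hn hy j hj z hz
    rwa [← hs, ← hw, hP] at h1
  have hsm : ∀ j : ℕ, n ≤ 3 * j → ∀ z u : ℤ, 1 ≤ z →
      G (Kp F) j z u ≤ ENNReal.ofReal (C₃ * Real.exp (ρ * z) / w ^ 4) := by
    intro j hj z u hz
    have hj0 : 1 ≤ j := by omega
    have hj1 : (0 : ℝ) < j := by exact_mod_cast hj0
    have hz0 : (0 : ℝ) < z := by
      have : (1 : ℝ) ≤ z := by exact_mod_cast hz
      linarith
    refine ((hk j z u hj0).1).trans (ENNReal.ofReal_le_ofReal ?_)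
    rw [abs_of_pos hz0, hw4, div_le_div_iff₀ hj1 (by linarith), hC₃def]
    have h1 : (n : ℝ) ≤ 3 * j := by exact_mod_cast hj
    have h2 : 1 + (z : ℝ) ≤ (1 + 1 / ρ) * Real.exp (ρ * z) := by
      have h3 : 1 + ρ * z ≤ Real.exp (ρ * z) := by linarith [Real.add_one_le_exp (ρ * z)]
      have h4 : (1 + 1 / ρ) * (1 + ρ * z) ≤ (1 + 1 / ρ) * Real.exp (ρ * z) :=
        mul_le_mul_of_nonneg_left h3 (by positivity)
      have h5 : (1 + 1 / ρ) * (1 + ρ * z) = 1 + z + ρ * z + 1 / ρ := by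
        field_simp
        ring
      have h6 : 0 < ρ * z := by positivity
      have h7 : 0 < 1 / ρ := by positivity
      linarith
    calc Ck * (1 + z) * n ≤ Ck * ((1 + 1 / ρ) * Real.exp (ρ * z)) * (3 * j) :=
          mul_le_mul (mul_le_mul_of_nonneg_left h2 hCk.le) h1 (by linarith) (by positivity)
      _ = 3 * Ck * (1 + 1 / ρ) * Real.exp (ρ * z) * j := by ring
  -- one term
  have hterm : ∀ j ∈ Finset.range n, ∀ l ∈ Finset.range (n - j), ∀ z z' : ℤ,
      G (Kp F) j x z * Db Bt r z (l + 1) z' * G (Kp F) (n - j - (l + 1)) z' y ≤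
        ENNReal.ofReal (D / w ^ 7 * Real.exp ((l : ℝ) * -(2 * ρ))) * ENNReal.ofReal (Real.exp (-ρ * |(z : ℝ)|)) *
          ENNReal.ofReal (Real.exp (-ρ * |(z' : ℝ)|)) := by
    intro j hj l hl z z'
    rw [Finset.mem_range] at hj hl
    by_cases hzz : 1 ≤ z ∧ 1 ≤ z'
    · obtain ⟨hz, hz'⟩ := hzz
      have hz1 : (1 : ℝ) ≤ z := by exact_mod_cast hz
      have hz1' : (1 : ℝ) ≤ z' := by exact_mod_cast hz'
      have hdb := ib_db6 hB hr hz hz' l
      obtain ⟨L, hL⟩ : ∃ L : ℝ, L = ((l + 1 : ℕ) : ℝ) := ⟨_, rfl⟩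
      have hLl : (l : ℝ) ≤ L := by rw [hL]; push_cast; linarith
      have hL0 : 0 < L := by rw [hL]; positivity
      rw [← hL] at hdb
      obtain ⟨i, hi⟩ : ∃ i : ℕ, i = n - j - (l + 1) := ⟨_, rfl⟩
      rw [← hi]
      have e1 : Real.exp (-(r / 2) * z) = Real.exp (-ρ * z) * Real.exp (-ρ * z) := by
        rw [← Real.exp_add, hρdef]; congr 1; ring
      have e2 : Real.exp (-(r / 2) * z') = Real.exp (-ρ * z') * Real.exp (-ρ * z') := by
        rw [← Real.exp_add, hρdef]; congr 1; ring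
      have e3 : Real.exp (-r * L) = Real.exp (-(2 * ρ * L)) * Real.exp (-(2 * ρ * L)) := by
        rw [← Real.exp_add, hρdef]; congr 1; ring
      have e4 : Real.exp (ρ * z) * Real.exp (-ρ * z) = 1 := by
        rw [← Real.exp_add, show ρ * z + -ρ * z = (0 : ℝ) by ring, Real.exp_zero]
      have e5 : Real.exp (ρ * z') * Real.exp (-ρ * z') = 1 := by
        rw [← Real.exp_add, show ρ * z' + -ρ * z' = (0 : ℝ) by ring, Real.exp_zero]
      rw [e1, e2, e3] at hdb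
      rw [abs_of_pos (show (0 : ℝ) < z by linarith), abs_of_pos (show (0 : ℝ) < z' by linarith)]
      obtain ⟨a, ha⟩ : ∃ a : ℝ, a = Real.exp (-ρ * z) := ⟨_, rfl⟩
      obtain ⟨b, hb⟩ : ∃ b : ℝ, b = Real.exp (-ρ * z') := ⟨_, rfl⟩
      obtain ⟨a', ha'⟩ : ∃ a' : ℝ, a' = Real.exp (ρ * z) := ⟨_, rfl⟩
      obtain ⟨b', hb'⟩ : ∃ b' : ℝ, b' = Real.exp (ρ * z') := ⟨_, rfl⟩
      obtain ⟨q, hq⟩ : ∃ q : ℝ, q = Real.exp (-(2 * ρ * L)) := ⟨_, rfl⟩
      have ha0 : 0 < a := by rw [ha]; exact Real.exp_pos _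
      have hb0 : 0 < b := by rw [hb]; exact Real.exp_pos _
      have ha0' : 0 < a' := by rw [ha']; exact Real.exp_pos _
      have hb0' : 0 < b' := by rw [hb']; exact Real.exp_pos _
      have hq0 : 0 < q := by rw [hq]; exact Real.exp_pos _
      have hq1 : q ≤ 1 := by
        rw [hq, Real.exp_le_one_iff]
        have : 0 < 2 * ρ * L := by positivity
        linarith
      have ha1 : a ≤ 1 := by
        rw [ha, Real.exp_le_one_iff]
        nlinarith
      have hb1 : b ≤ 1 := by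
        rw [hb, Real.exp_le_one_iff]
        nlinarith
      have hql : q ≤ Real.exp ((l : ℝ) * -(2 * ρ)) := by
        rw [hq]
        refine Real.exp_le_exp.2 ?_
        nlinarith
      rw [← ha, ← ha'] at e4
      rw [← hb, ← hb'] at e5
      rw [← ha, ← hb, ← hq] at hdb
      rw [← ha, ← hb]
      rw [← ENNReal.ofReal_mul (by positivity), ← ENNReal.ofReal_mul (by positivity)]
      have hfin : ∀ u v : ℝ, 0 ≤ u → 0 ≤ v → G (Kp F) j x z ≤ ENNReal.ofReal u →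
          G (Kp F) i z' y ≤ ENNReal.ofReal v →
          u * (Bt * (a * a * (b * b) * (q * q))) * v ≤ D / w ^ 7 * q * a * b →
          G (Kp F) j x z * Db Bt r z (l + 1) z' * G (Kp F) i z' y ≤
            ENNReal.ofReal (D / w ^ 7 * Real.exp ((l : ℝ) * -(2 * ρ)) * a * b) := by
        intro u v hu hv h1 h2 h3
        refine (mul_le_mul' (mul_le_mul' h1 hdb) h2).trans ?_
        rw [← ENNReal.ofReal_mul hu, ← ENNReal.ofReal_mul (by positivity)]
        refine ENNReal.ofReal_le_ofReal (h3.trans ?_)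
        have h4 : D / w ^ 7 * q ≤ D / w ^ 7 * Real.exp ((l : ℝ) * -(2 * ρ)) :=
          mul_le_mul_of_nonneg_left hql (by positivity)
        exact mul_le_mul_of_nonneg_right (mul_le_mul_of_nonneg_right h4 ha0.le) hb0.le
      have hDC : Bt * (C₂ * C₃) ≤ D := by
        rw [hD]
        have : 0 < Bt * (9 / (2 * ρ ^ 2)) := by positivity
        linarith
      have hbig : ∀ u v : ℝ, u * v = C₂ * C₃ * (a' * b') / w ^ 7 →
          u * (Bt * (a * a * (b * b) * (q * q))) * v ≤ D / w ^ 7 * q * a * b := by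
        intro u v huv
        have h1 : u * (Bt * (a * a * (b * b) * (q * q))) * v =
            Bt * (C₂ * C₃) / w ^ 7 * (a' * a) * (b' * b) * a * b * q * q := by
          calc _ = (u * v) * (Bt * (a * a * (b * b) * (q * q))) := by ring
            _ = _ := by rw [huv]; ring
        rw [h1, e4, e5]
        have h2 : Bt * (C₂ * C₃) / w ^ 7 * 1 * 1 * a * b * q * q ≤ D / w ^ 7 * 1 * 1 * a * b * q * 1 := by
          gcongr
        linarith
      have hcases : n ≤ 3 * j ∨ n ≤ 3 * i ∨ n ≤ 3 * (l + 1) := by omega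
      rcases hcases with h | h | h
      · refine hfin (C₃ * a' / w ^ 4) (C₂ * b' / w ^ 3) (by positivity) (by positivity) ?_ ?_ ?_
        · rw [g_symm (Kp F) (kp_symm F), ha']
          exact hsm j h z x hz
        · rw [hb']
          exact hfy i (by omega) z' hz'
        · apply hbig
          field_simp
      · refine hfin (C₂ * a' / w ^ 3) (C₃ * b' / w ^ 4) (by positivity) (by positivity) ?_ ?_ ?_
        · rw [ha']
          exact hfx j (by omega) z hz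
        · rw [hb']
          exact hsm i h z' y hz'
        · apply hbig
          field_simp
      · refine hfin 1 1 zero_le_one zero_le_one ?_ ?_ ?_
        · rw [ENNReal.ofReal_one]
          exact ib_le_one6 F j x z
        · rw [ENNReal.ofReal_one]
          exact ib_le_one6 F i z' y
        · have h1 : (n : ℝ) / 3 ≤ L := by
            rw [hL]
            have : (n : ℝ) ≤ 3 * ((l + 1 : ℕ) : ℝ) := by exact_mod_cast h
            linarith
          have h2 : q ≤ 2 / (2 * ρ * (n / 3)) ^ 2 := by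
            refine le_trans ?_ (ib_pow26 (show 0 < 2 * ρ * ((n : ℝ) / 3) by positivity))
            rw [hq]
            refine Real.exp_le_exp.2 ?_
            have := mul_le_mul_of_nonneg_left h1 (show (0 : ℝ) ≤ 2 * ρ by positivity)
            linarith
          have h3 : 2 / (2 * ρ * ((n : ℝ) / 3)) ^ 2 = 9 / (2 * ρ ^ 2) / w ^ 8 := by
            rw [← hw4]
            field_simp
            ring
          have h4 : 9 / (2 * ρ ^ 2) / w ^ 8 ≤ 9 / (2 * ρ ^ 2) / w ^ 7 :=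
            div_le_div_of_nonneg_left (by positivity) (by positivity) (pow_le_pow_right₀ hw1 (by norm_num))
          have h5 : q ≤ 9 / (2 * ρ ^ 2) / w ^ 7 := by linarith
          have hDC' : Bt * (9 / (2 * ρ ^ 2)) ≤ D := by
            rw [hD]
            have : 0 < Bt * (C₂ * C₃) := by positivity
            linarith
          calc 1 * (Bt * (a * a * (b * b) * (q * q))) * 1 = Bt * (a * (b * (q * q))) * a * b := by ring
            _ ≤ Bt * (1 * (1 * (q * (9 / (2 * ρ ^ 2) / w ^ 7)))) * a * b := by gcongr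
            _ = Bt * (9 / (2 * ρ ^ 2)) / w ^ 7 * q * a * b := by ring
            _ ≤ D / w ^ 7 * q * a * b := by gcongr
    · have h0 : Db Bt r z (l + 1) z' = 0 := by
        unfold Db
        rw [if_neg hzz]
      rw [h0, mul_zero, zero_mul]
      exact zero_le
  -- the sums
  have hsumz : ∑' z : ℤ, ENNReal.ofReal (Real.exp (-ρ * |(z : ℝ)|)) = ENNReal.ofReal S := by
    rw [hSdef, ENNReal.ofReal_tsum_of_nonneg (fun _ => (Real.exp_pos _).le) hS]
  have hjl : ∀ j ∈ Finset.range n, ∀ l ∈ Finset.range (n - j),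
      ∑' z : ℤ, ∑' z' : ℤ, G (Kp F) j x z * Db Bt r z (l + 1) z' * G (Kp F) (n - j - (l + 1)) z' y ≤
        ENNReal.ofReal (D / w ^ 7 * S ^ 2 * Real.exp ((l : ℝ) * -(2 * ρ))) := by
    intro j hj l hl
    calc ∑' z : ℤ, ∑' z' : ℤ, G (Kp F) j x z * Db Bt r z (l + 1) z' * G (Kp F) (n - j - (l + 1)) z' y
        ≤ ∑' z : ℤ, ∑' z' : ℤ, ENNReal.ofReal (D / w ^ 7 * Real.exp ((l : ℝ) * -(2 * ρ))) *
            ENNReal.ofReal (Real.exp (-ρ * |(z : ℝ)|)) * ENNReal.ofReal (Real.exp (-ρ * |(z' : ℝ)|)) :=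
          ENNReal.tsum_le_tsum fun z => ENNReal.tsum_le_tsum fun z' => hterm j hj l hl z z'
      _ = ENNReal.ofReal (D / w ^ 7 * Real.exp ((l : ℝ) * -(2 * ρ))) * ENNReal.ofReal S * ENNReal.ofReal S := by
          simp only [ENNReal.tsum_mul_left, ENNReal.tsum_mul_right, hsumz]
      _ = _ := by
          rw [← ENNReal.ofReal_mul (by positivity), ← ENNReal.ofReal_mul (by positivity)]
          congr 1
          ring
  have hj : ∀ j ∈ Finset.range n, ∑ l ∈ Finset.range (n - j), ∑' z : ℤ, ∑' z' : ℤ,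
      G (Kp F) j x z * Db Bt r z (l + 1) z' * G (Kp F) (n - j - (l + 1)) z' y ≤
        ENNReal.ofReal (D / w ^ 7 * S ^ 2 * E) := by
    intro j hj
    refine (Finset.sum_le_sum fun l hl => hjl j hj l hl).trans ?_
    rw [← ENNReal.ofReal_sum_of_nonneg (fun l _ => by positivity), ← Finset.mul_sum]
    refine ENNReal.ofReal_le_ofReal (mul_le_mul_of_nonneg_left ?_ (by positivity))
    exact hE.sum_le_tsum _ fun _ _ => (Real.exp_pos _).le
  unfold Ins
  refine (Finset.sum_le_sum hj).trans ?_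
  rw [Finset.sum_const, Finset.card_range, nsmul_eq_mul, ← hs, ← hw, hP]
  have h1 : (n : ℝ≥0∞) = ENNReal.ofReal (n : ℝ) := (ENNReal.ofReal_natCast n).symm
  rw [h1, ← ENNReal.ofReal_mul (by positivity)]
  refine ENNReal.ofReal_le_ofReal ?_
  rw [← hw4]
  have h2 : w ^ 4 * (D / w ^ 7 * S ^ 2 * E) = D * S ^ 2 * E / w ^ 3 := by
    field_simp
  rw [h2]
  refine div_le_div_of_nonneg_right ?_ (by positivity)
  linarith

end Pool.Agent.Helper18.WK
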