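import Pool.Agent.Helper18.WK.Kill
import Pool.Agent.Helper18.WK.InsA

/-!
# Project WK, block WK-N2: the error near the cap (`ins_top`)

`G ≤ 1`. `z ≤ x + c₀ n / 2`: `cap - z ≥ c₀ n / 4`, so `∑_z' Dt ≤ C exp (-r c₀ n / 4)`;
`z > x + c₀ n / 2`: `∑_z G (K0 F) j x z ≤ 2 exp (-c n)` (`g_far`, `far_gauss`) and `∑_z' Dt ≤ ∑_z' Kp ≤ 1`. There are
`n²` pairs `(j, l)`.
-/

open scoped ENNReal

namespace Pool.Agent.Helper18.WK

private theorem g_le_one38 (F : Law) (n : ℕ) (x y : ℤ) : G (Kp F) n x y ≤ 1 :=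
  (g_mono (kp_le F) n x y).trans ((ENNReal.le_tsum y).trans (g_sum_le F n x))

private theorem k0_row38 (F : Law) (l : ℕ) (z : ℤ) : ∑' z' : ℤ, K0 F z (l + 1) z' ≤ 1 := by
  refine le_trans (ENNReal.tsum_le_tsum fun z' => ?_) (g_sum_le F (l + 1) z)
  rw [G_succ]
  calc K0 F z (l + 1) z' = K0 F z (l + 1) z' * G (K0 F) (l - l) z' z' := by
        rw [Nat.sub_self, G_zero, if_pos rfl, mul_one]
    _ ≤ ∑' w : ℤ, K0 F z (l + 1) w * G (K0 F) (l - l) w z' := ENNReal.le_tsum z'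
    _ ≤ _ := Finset.single_le_sum (f := fun l' => ∑' w : ℤ, K0 F z (l' + 1) w * G (K0 F) (l - l') w z')
        (fun _ _ => zero_le) (Finset.mem_range.2 (Nat.lt_succ_self l))

private theorem dt_one38 (F : Law) (Bt r : ℝ) (cap l : ℕ) (z : ℤ) :
    ∑' z' : ℤ, Dt F Bt r cap z (l + 1) z' ≤ 1 :=
  (ENNReal.tsum_le_tsum fun _ => (min_le_left _ _).trans (kp_le F _ _ _)).trans (k0_row38 F l z)

private theorem dt_row38 (F : Law) {Bt r : ℝ} (hB : 0 < Bt) (hr : 0 < r) (cap l : ℕ) (z : ℤ) :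
    ∑' z' : ℤ, Dt F Bt r cap z (l + 1) z' ≤
      ENNReal.ofReal (Bt * (∑' h : ℤ, Real.exp (-r * |(h : ℝ)|)) * Real.exp (-r * (cap - z))) := by
  have hs : Summable fun h : ℤ => Real.exp (-r * |(h : ℝ)|) := a4_exp_int hr
  have h1 : ∀ z' : ℤ, Dt F Bt r cap z (l + 1) z' ≤
      ENNReal.ofReal (Bt * Real.exp (-r * (cap - z)) * Real.exp (-r * |((z' - z : ℤ) : ℝ)|)) := by
    intro z'
    refine (min_le_right _ _).trans (ENNReal.ofReal_le_ofReal ?_)
    rw [mul_assoc, ← Real.exp_add]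
    refine mul_le_mul_of_nonneg_left (Real.exp_le_exp.2 ?_) hB.le
    push_cast
    have h0 : (0 : ℝ) ≤ l := Nat.cast_nonneg l
    nlinarith
  refine (ENNReal.tsum_le_tsum h1).trans ?_
  have h2 : ∑' z' : ℤ, ENNReal.ofReal (Bt * Real.exp (-r * (cap - z)) * Real.exp (-r * |((z' - z : ℤ) : ℝ)|)) =
      ∑' h : ℤ, ENNReal.ofReal (Bt * Real.exp (-r * (cap - z)) * Real.exp (-r * |(h : ℝ)|)) :=
    (Equiv.subRight z).tsum_eq
      (fun h : ℤ => ENNReal.ofReal (Bt * Real.exp (-r * (cap - z)) * Real.exp (-r * |(h : ℝ)|)))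
  rw [h2, ← ENNReal.ofReal_tsum_of_nonneg (fun _ => by positivity) (hs.mul_left _), tsum_mul_left]
  refine le_of_eq ?_
  congr 1
  ring

private theorem far38 (F : Law) {c₀ : ℝ} (hc : 0 < c₀) : ∃ D c : ℝ, 0 < D ∧ 0 < c ∧ ∀ (n j : ℕ) (x : ℤ), j ≤ n →
    ∑' z : ℤ, (if ((⌊c₀ * n / 2⌋₊ : ℕ) : ℤ) ≤ |z - x| then G (K0 F) j x z else 0) ≤
      ENNReal.ofReal (D * Real.exp (-c * n)) := by
  obtain ⟨c, hc1, hf⟩ := far_gauss F
  refine ⟨2 * Real.exp (c * (c₀ / (1 + c₀ / 2))), c * (c₀ ^ 2 / 4 / (1 + c₀ / 2)), by positivity, by positivity,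
    fun n j x hj => ?_⟩
  refine (g_far F j _ x).trans ((hf j _ x).trans (ENNReal.ofReal_le_ofReal ?_))
  rw [mul_assoc, ← Real.exp_add]
  refine mul_le_mul_of_nonneg_left (Real.exp_le_exp.2 ?_) (by norm_num)
  have hn0 : (0 : ℝ) ≤ n := Nat.cast_nonneg n
  have hjn : (j : ℝ) ≤ n := by exact_mod_cast hj
  have hj0 : (0 : ℝ) ≤ j := Nat.cast_nonneg j
  have h1 : ((⌊c₀ * n / 2⌋₊ : ℕ) : ℝ) ≤ c₀ * n / 2 := Nat.floor_le (by positivity)
  have h2 : c₀ * n / 2 < ((⌊c₀ * n / 2⌋₊ : ℕ) : ℝ) + 1 := Nat.lt_floor_add_one _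
  have h3 : (0 : ℝ) ≤ ((⌊c₀ * n / 2⌋₊ : ℕ) : ℝ) := Nat.cast_nonneg _
  generalize ((⌊c₀ * n / 2⌋₊ : ℕ) : ℝ) = ρ at h1 h2 h3 ⊢
  have hk : 0 < 1 + c₀ / 2 := by positivity
  have key : (c₀ ^ 2 / 4 * n - c₀) / (1 + c₀ / 2) ≤ ρ ^ 2 / (j + ρ) := by
    by_cases h4 : c₀ ^ 2 / 4 * n - c₀ ≤ 0
    · exact (div_nonpos_of_nonpos_of_nonneg h4 hk.le).trans (by positivity)
    · rw [not_le] at h4
      have h5 : 4 < c₀ * n := by
        have h6 : 0 < c₀ * (c₀ * n / 4 - 1) := by nlinarith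
        have h7 : 0 < c₀ * n / 4 - 1 := (mul_pos_iff_of_pos_left hc).1 h6
        linarith
      have h6 : 1 < ρ := by linarith
      rw [div_le_div_iff₀ hk (by linarith)]
      have h7 : (c₀ * n / 2 - 1) ^ 2 ≤ ρ ^ 2 := pow_le_pow_left₀ (by linarith) (by linarith) 2
      have h8 : j + ρ ≤ n * (1 + c₀ / 2) := by nlinarith
      have h9 : (c₀ ^ 2 / 4 * n - c₀) * (j + ρ) ≤ (c₀ ^ 2 / 4 * n - c₀) * (n * (1 + c₀ / 2)) :=
        mul_le_mul_of_nonneg_left h8 h4.le
      refine h9.trans ?_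
      rw [← mul_assoc]
      refine mul_le_mul_of_nonneg_right ?_ hk.le
      nlinarith
  have h4 : -c * ρ ^ 2 / (j + ρ) = -(c * (ρ ^ 2 / (j + ρ))) := by ring
  have h5 : c * (c₀ / (1 + c₀ / 2)) + -(c * (c₀ ^ 2 / 4 / (1 + c₀ / 2))) * n =
      -(c * ((c₀ ^ 2 / 4 * n - c₀) / (1 + c₀ / 2))) := by
    field_simp
    ring
  rw [h4, h5]
  exact neg_le_neg (mul_le_mul_of_nonneg_left key hc1.le)

theorem ins_top (F : Law) {Bt r c₀ : ℝ} (hB : 0 < Bt) (hr : 0 < r) (hc : 0 < c₀) : ∃ C c : ℝ, 0 < C ∧ 0 < c ∧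
    ∀ (n cap : ℕ) (x y : ℤ), c₀ * n ≤ cap → (x : ℝ) ≤ c₀ * n / 4 →
      Ins (Kp F) (Dt F Bt r cap) n x y ≤ ENNReal.ofReal (C * Real.exp (-c * n)) := by
  obtain ⟨D, c₁, hD, hc₁, hfar⟩ := far38 F hc
  obtain ⟨S, hS⟩ : ∃ S : ℝ, S = ∑' h : ℤ, Real.exp (-r * |(h : ℝ)|) := ⟨_, rfl⟩
  have hS0 : 0 ≤ S := by
    rw [hS]
    exact tsum_nonneg fun _ => (Real.exp_pos _).le
  obtain ⟨c, hcdef⟩ : ∃ c : ℝ, c = min (r * c₀ / 4) c₁ / 2 := ⟨_, rfl⟩
  have hcpos : 0 < c := by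
    rw [hcdef]
    have : 0 < min (r * c₀ / 4) c₁ := lt_min (by positivity) hc₁
    linarith
  have hca : 2 * c ≤ r * c₀ / 4 := by
    rw [hcdef]
    have := min_le_left (r * c₀ / 4) c₁
    linarith
  have hcb : 2 * c ≤ c₁ := by
    rw [hcdef]
    have := min_le_right (r * c₀ / 4) c₁
    linarith
  refine ⟨2 / c ^ 2 * (Bt * S + D), c, by positivity, hcpos, fun n cap x y hcap hx => ?_⟩
  have hn0 : (0 : ℝ) ≤ n := Nat.cast_nonneg n
  -- the inner sum
  have hin : ∀ (l : ℕ) (z : ℤ), ∑' z' : ℤ, Dt F Bt r cap z (l + 1) z' ≤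
      ENNReal.ofReal (Bt * S * Real.exp (-(2 * c) * n)) +
        (if ((⌊c₀ * n / 2⌋₊ : ℕ) : ℤ) ≤ |z - x| then 1 else 0) := by
    intro l z
    by_cases hz : (z : ℝ) ≤ x + c₀ * n / 2
    · refine le_trans ?_ le_self_add
      refine (dt_row38 F hB hr cap l z).trans (ENNReal.ofReal_le_ofReal ?_)
      rw [← hS]
      refine mul_le_mul_of_nonneg_left (Real.exp_le_exp.2 ?_) (by positivity)
      have h1 : c₀ * n / 4 ≤ cap - z := by linarith
      have h2 : r * (c₀ * n / 4) ≤ r * (cap - z) := mul_le_mul_of_nonneg_left h1 hr.le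
      have h3 : 2 * c * n ≤ r * c₀ / 4 * n := mul_le_mul_of_nonneg_right hca hn0
      nlinarith
    · rw [not_le] at hz
      have h1 : ((⌊c₀ * n / 2⌋₊ : ℕ) : ℤ) ≤ |z - x| := by
        have h2 : ((⌊c₀ * n / 2⌋₊ : ℕ) : ℝ) ≤ c₀ * n / 2 := Nat.floor_le (by positivity)
        have h3 : ((⌊c₀ * n / 2⌋₊ : ℕ) : ℝ) ≤ ((z - x : ℤ) : ℝ) := by
          push_cast
          linarith
        have h4 : ((⌊c₀ * n / 2⌋₊ : ℕ) : ℤ) ≤ z - x := by exact_mod_cast h3
        exact h4.trans (le_abs_self _)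
      rw [if_pos h1]
      exact (dt_one38 F Bt r cap l z).trans le_add_self
  -- one pair
  have hpair : ∀ j ∈ Finset.range n, ∀ l ∈ Finset.range (n - j), ∑' z : ℤ, ∑' z' : ℤ,
      G (Kp F) j x z * Dt F Bt r cap z (l + 1) z' * G (Kp F) (n - j - (l + 1)) z' y ≤
      ENNReal.ofReal ((Bt * S + D) * Real.exp (-(2 * c) * n)) := by
    intro j hj l _
    calc _ ≤ ∑' z : ℤ, (ENNReal.ofReal (Bt * S * Real.exp (-(2 * c) * n)) * G (K0 F) j x z +
          (if ((⌊c₀ * n / 2⌋₊ : ℕ) : ℤ) ≤ |z - x| then G (K0 F) j x z else 0)) := by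
          refine ENNReal.tsum_le_tsum fun z => ?_
          calc _ ≤ ∑' z' : ℤ, G (K0 F) j x z * Dt F Bt r cap z (l + 1) z' := by
                refine ENNReal.tsum_le_tsum fun z' => ?_
                calc _ ≤ G (K0 F) j x z * Dt F Bt r cap z (l + 1) z' * 1 := by
                      gcongr
                      · exact g_mono (kp_le F) _ _ _
                      · exact g_le_one38 F _ _ _
                  _ = _ := mul_one _
            _ = G (K0 F) j x z * ∑' z' : ℤ, Dt F Bt r cap z (l + 1) z' := ENNReal.tsum_mul_left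
            _ ≤ G (K0 F) j x z * (ENNReal.ofReal (Bt * S * Real.exp (-(2 * c) * n)) +
                (if ((⌊c₀ * n / 2⌋₊ : ℕ) : ℤ) ≤ |z - x| then 1 else 0)) := by
                gcongr
                exact hin l z
            _ = _ := by
                rw [mul_add, mul_comm]
                congr 1
                split_ifs
                · rw [mul_one]
                · rw [mul_zero]
      _ = ENNReal.ofReal (Bt * S * Real.exp (-(2 * c) * n)) * ∑' z : ℤ, G (K0 F) j x z +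
          ∑' z : ℤ, (if ((⌊c₀ * n / 2⌋₊ : ℕ) : ℤ) ≤ |z - x| then G (K0 F) j x z else 0) := by
          rw [ENNReal.tsum_add, ENNReal.tsum_mul_left]
      _ ≤ ENNReal.ofReal (Bt * S * Real.exp (-(2 * c) * n)) * 1 +
          ENNReal.ofReal (D * Real.exp (-c₁ * n)) := by
          gcongr
          · exact g_sum_le F j x
          · exact hfar n j x (Finset.mem_range.1 hj).le
      _ ≤ _ := by
          rw [mul_one, ← ENNReal.ofReal_add (by positivity) (by positivity)]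
          refine ENNReal.ofReal_le_ofReal ?_
          rw [add_mul]
          refine add_le_add le_rfl (mul_le_mul_of_nonneg_left (Real.exp_le_exp.2 ?_) hD.le)
          have := mul_le_mul_of_nonneg_right hcb hn0
          linarith
  -- the sum over the pairs
  unfold Ins
  calc _ ≤ ∑ _j ∈ Finset.range n, ∑ _l ∈ Finset.range n,
        ENNReal.ofReal ((Bt * S + D) * Real.exp (-(2 * c) * n)) := by
        refine Finset.sum_le_sum fun j hj => ?_
        refine (Finset.sum_le_sum (hpair j hj)).trans ?_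
        exact Finset.sum_le_sum_of_subset (Finset.range_subset_range.2 (Nat.sub_le n j))
    _ = ENNReal.ofReal ((n : ℝ) * (n * ((Bt * S + D) * Real.exp (-(2 * c) * n)))) := by
        rw [Finset.sum_const, Finset.sum_const, Finset.card_range, nsmul_eq_mul, nsmul_eq_mul,
          ENNReal.ofReal_mul hn0, ENNReal.ofReal_mul hn0, ENNReal.ofReal_natCast]
    _ ≤ _ := by
        refine ENNReal.ofReal_le_ofReal ?_
        have h1 := Real.quadratic_le_exp_of_nonneg (x := c * n) (by positivity)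
        have h2 : (n : ℝ) ^ 2 ≤ 2 / c ^ 2 * Real.exp (c * n) := by
          rw [div_mul_eq_mul_div, le_div_iff₀ (by positivity)]
          have h3 : 0 ≤ c * n := by positivity
          nlinarith
        have h3 : Real.exp (-(2 * c) * n) = Real.exp (-c * n) * Real.exp (-(c * n)) := by
          rw [← Real.exp_add]
          congr 1
          ring
        have h4 : Real.exp (c * n) * Real.exp (-(c * n)) = 1 := by
          rw [← Real.exp_add]
          simp
        have h5 := Real.exp_pos (-(c * n))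
        have h6 := Real.exp_pos (-c * n)
        have h7 : (n : ℝ) ^ 2 * Real.exp (-(c * n)) ≤ 2 / c ^ 2 := by
          have := mul_le_mul_of_nonneg_right h2 h5.le
          rwa [mul_assoc, h4, mul_one] at this
        rw [h3]
        calc _ = ((n : ℝ) ^ 2 * Real.exp (-(c * n))) * ((Bt * S + D) * Real.exp (-c * n)) := by ring
          _ ≤ 2 / c ^ 2 * ((Bt * S + D) * Real.exp (-c * n)) := mul_le_mul_of_nonneg_right h7 (by positivity)
          _ = _ := by ring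

end Pool.Agent.Helper18.WK
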