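import Pool.Agent.Helper18.WK.Kill
import Pool.Agent.Helper18.WK.InsA
import Pool.Agent.Helper18.WK.InsB
import Pool.Agent.Helper18.WK.InsT

/-!
# Project WK, blocks WK-N2 .. WK-N4: kernels of the pieces which stay above the line (WK-N1: file InsA)

`Above F κ Bt r cap K`: `K` is at most `Kp F`, equal to it up to `exp (- r * distance)` from the line and from the
height `cap`, and has unit steps up and down with a weight `≥ κ`. `Ins K E n x y`: chains with one marked piece of the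
kernel `E`.

WK-N1. `above_dec`: for `1 ≤ x, z ≤ cap` from `low` (`min (Kp) (Db + Et) ≤ Db + min (Kp) (Et)`); for `x > cap`:
`Kp ≤ B exp (-a (l + h)) ≤ Bt' exp (-r' (cap - x + l + h))`; for `x ≤ cap < z`: `h ≥ cap - x`, so
`exp (-a (l + h)) ≤ exp (-a / 2 (cap - x + l + h))`. `ins_le`: strong induction on `n`: `K' ≤ K + E` at the first
piece; the term with `E` is the term `j = 0` of `Ins`; for the term with `K ≤ K'` the induction hypothesis.
`g_mul_le`: concatenation (`g_fst`-like, or induction on `i` with `G_succ`).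

WK-N2, `ins_top`: `G ≤ 1`. `z ≤ x + c₀ n / 2`: `cap - z ≥ c₀ n / 4`, so `∑_z' Dt ≤ C exp (-r c₀ n / 4)`;
`z > x + c₀ n / 2`: `∑_z G (K0 F) j x z ≤ 2 exp (-c n)` (`g_far`, `far_gauss`) and `∑_z' Dt ≤ ∑_z' Kp ≤ 1`. There are
`n²` pairs `(j, l)`.

WK-N3, `ins_small`: `g j z = G (Kp F) j M z` is `≤ 1`, `≤ C / √j` (`u_le`), `≤ C (1 + z) / j` (`kp_up`, `g_symm`),
`≤ C (1 + M) (1 + z) / j^(3/2)`. So `∑_(j ≤ n) g j z ≤ 1 + ∑_(1 ≤ j ≤ M²) C (1+z)^(1/2) j^(-3/4) + ∑_(j > M²) C (1+M)(1+z)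
j^(-3/2) ≤ C' (1 + z) √M` (`min (A, B) ≤ √(A B)`). In `Ins` one of `j`, `l`, `n - j - l` is `≥ n / 3`. If
`n - j - l ≥ n / 3`: the last factor is `≤ C (1 + z') (1 + M) / n^(3/2)`: total
`≤ C √M (1 + M) n^(-3/2) ∑ (1 + z) (1 + z') exp (-r (z + l + |z' - z|))`. If `j ≥ n / 3`: the same. If `l ≥ n / 3`:
`≤ C n exp (-r n / 6)`.

WK-N4, `ins_bulk`: `x, y ≥ ε √n`. `g j z = G (Kp F) j x z` for `z ≤ ε √n / 2`, `j ≥ 1`: `≤ √(A B)`, `A = C (1 + z) / j`,
`B = C j^(-1/2) exp (-c h² / (j + h))`, `h = x - z ≥ ε √n / 2` (`u_gauss`, `h² / (j + h)` increases in `h`), so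
`g j z ≤ C (1 + z) j^(-3/4) exp (-c' n / (j + √n)) ≤ C'' (1 + z) n^(-3/4)`. For `z > ε √n / 2` or `j = 0`:
`Db ≤ exp (-c √n)`. As in WK-N3 one of `j`, `l`, `n - j - l` is `≥ n / 3`; if `n - j - l ≥ n / 3` the last factor is
`≤ C (1 + z') / n`: total `≤ n C n^(-3/4) n^(-1) = C n^(-3/4)`.
-/

open scoped ENNReal

namespace Pool.Agent.Helper18.WK

/-- Bound of `G (Kp F) j M z / (1 + |z|)`. -/
private noncomputable def ai_n3 (M j : ℕ) : ℝ :=
  if j = 0 then 1 else min (1 / (Real.sqrt j * Real.sqrt (Real.sqrt j))) (M / (j * Real.sqrt j))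

private theorem ai_nonneg_n3 (M j : ℕ) : 0 ≤ ai_n3 M j := by
  unfold ai_n3
  split_ifs
  · norm_num
  · positivity

private theorem ai_le_one_n3 (M j : ℕ) : ai_n3 M j ≤ 1 := by
  unfold ai_n3
  split_ifs with h
  · exact le_rfl
  · refine (min_le_left _ _).trans ?_
    have h1 : (1 : ℝ) ≤ j := by exact_mod_cast Nat.one_le_iff_ne_zero.2 h
    have h2 : 1 ≤ Real.sqrt j := Real.one_le_sqrt.2 h1
    have h3 : 1 ≤ Real.sqrt (Real.sqrt j) := Real.one_le_sqrt.2 h2
    rw [div_le_one (by positivity)]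
    nlinarith

private theorem ai_step1_n3 (N : ℕ) : 4 * Real.sqrt (Real.sqrt N) +
    1 / (Real.sqrt (N + 1) * Real.sqrt (Real.sqrt (N + 1))) ≤ 4 * Real.sqrt (Real.sqrt (N + 1)) := by
  have hN : (0 : ℝ) ≤ N := Nat.cast_nonneg N
  set p : ℝ := Real.sqrt (Real.sqrt N) with hp
  set q : ℝ := Real.sqrt (Real.sqrt (N + 1)) with hq
  have hp0 : 0 ≤ p := Real.sqrt_nonneg _
  have hq0 : 0 < q := Real.sqrt_pos.2 (Real.sqrt_pos.2 (by linarith))
  have hpq : p ≤ q := Real.sqrt_le_sqrt (Real.sqrt_le_sqrt (by linarith))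
  have hq2 : Real.sqrt (N + 1) = q ^ 2 := (Real.sq_sqrt (Real.sqrt_nonneg _)).symm
  have hp2 : Real.sqrt N = p ^ 2 := (Real.sq_sqrt (Real.sqrt_nonneg _)).symm
  have hq4 : q ^ 4 = N + 1 := by
    have : (q ^ 2) ^ 2 = N + 1 := by rw [← hq2, Real.sq_sqrt (by linarith)]
    rw [← this]; ring
  have hp4 : p ^ 4 = N := by
    have : (p ^ 2) ^ 2 = N := by rw [← hp2, Real.sq_sqrt hN]
    rw [← this]; ring
  rw [hq2]
  have h1 : 1 / (q ^ 2 * q) ≤ 4 * (q - p) := by
    rw [div_le_iff₀ (by positivity)]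
    have h2 : (q - p) * (q ^ 3 + q ^ 2 * p + q * p ^ 2 + p ^ 3) = 1 := by
      have : (q - p) * (q ^ 3 + q ^ 2 * p + q * p ^ 2 + p ^ 3) = q ^ 4 - p ^ 4 := by ring
      rw [this, hq4, hp4]; ring
    have h3 : q ^ 3 + q ^ 2 * p + q * p ^ 2 + p ^ 3 ≤ 4 * q ^ 3 := by
      have a1 : q ^ 2 * p ≤ q ^ 2 * q := mul_le_mul_of_nonneg_left hpq (by positivity)
      have a2 : q * p ^ 2 ≤ q * q ^ 2 := mul_le_mul_of_nonneg_left (pow_le_pow_left₀ hp0 hpq 2) hq0.le
      have a3 : p ^ 3 ≤ q ^ 3 := pow_le_pow_left₀ hp0 hpq 3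
      nlinarith
    have h4 := mul_le_mul_of_nonneg_left h3 (sub_nonneg.2 hpq)
    nlinarith
  linarith

private theorem ai_step2_n3 (M N : ℕ) (hN : 1 ≤ N) : M / ((N + 1 : ℝ) * Real.sqrt (N + 1)) ≤
    2 * M / Real.sqrt N - 2 * M / Real.sqrt (N + 1) := by
  have hN' : (1 : ℝ) ≤ N := by exact_mod_cast hN
  set s : ℝ := Real.sqrt N with hs
  set t : ℝ := Real.sqrt (N + 1) with ht
  have hs0 : 0 < s := Real.sqrt_pos.2 (by linarith)
  have ht0 : 0 < t := Real.sqrt_pos.2 (by linarith)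
  have hst : s ≤ t := Real.sqrt_le_sqrt (by linarith)
  have hs2 : s ^ 2 = N := Real.sq_sqrt (by linarith)
  have ht2 : t ^ 2 = N + 1 := Real.sq_sqrt (by linarith)
  rw [← ht2]
  have h1 : 1 / (t ^ 2 * t) ≤ 2 / s - 2 / t := by
    rw [div_sub_div _ _ hs0.ne' ht0.ne', div_le_div_iff₀ (by positivity) (by positivity)]
    have h2 : (t - s) * (t + s) = 1 := by
      have : (t - s) * (t + s) = t ^ 2 - s ^ 2 := by ring
      rw [this, hs2, ht2]; ring
    have h3 : 1 ≤ (t - s) * (2 * t) := by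
      have := mul_le_mul_of_nonneg_left (by linarith : t + s ≤ 2 * t) (sub_nonneg.2 hst)
      linarith
    have h4 : 1 * (s * t) ≤ ((t - s) * (2 * t)) * (t * t) :=
      mul_le_mul h3 (mul_le_mul_of_nonneg_right hst ht0.le) (by positivity) (by linarith)
    nlinarith
  have h5 := mul_le_mul_of_nonneg_left h1 (Nat.cast_nonneg (α := ℝ) M)
  calc (M : ℝ) / (t ^ 2 * t) = M * (1 / (t ^ 2 * t)) := by ring
    _ ≤ M * (2 / s - 2 / t) := h5
    _ = _ := by ring

private theorem ai_sum_aux_n3 (M : ℕ) (hM : 1 ≤ M) (N : ℕ) :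
    (N ≤ M ^ 2 → ∑ j ∈ Finset.range N, ai_n3 M (j + 1) ≤ 4 * Real.sqrt (Real.sqrt N)) ∧
    (M ^ 2 ≤ N → ∑ j ∈ Finset.range N, ai_n3 M (j + 1) ≤
      4 * Real.sqrt M + 2 - 2 * M / Real.sqrt N) := by
  induction N with
  | zero =>
    refine ⟨fun _ => by simp, fun h => ?_⟩
    have : 1 ≤ M ^ 2 := Nat.one_le_pow _ _ hM
    omega
  | succ N ih =>
    have h1 : N + 1 ≤ M ^ 2 → ∑ j ∈ Finset.range (N + 1), ai_n3 M (j + 1) ≤
        4 * Real.sqrt (Real.sqrt (N + 1 : ℕ)) := by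
      intro h
      rw [Finset.sum_range_succ]
      have h2 := ih.1 (by omega)
      have h3 : ai_n3 M (N + 1) ≤ 1 / (Real.sqrt (N + 1) * Real.sqrt (Real.sqrt (N + 1))) := by
        unfold ai_n3
        rw [if_neg (by omega)]
        push_cast
        exact min_le_left _ _
      have h4 := ai_step1_n3 N
      push_cast
      linarith
    refine ⟨h1, fun h => ?_⟩
    rcases eq_or_lt_of_le h with h5 | h5
    · have h6 := h1 h5.symm.le
      rw [← h5] at h6 ⊢
      have hM' : (0 : ℝ) < M := by exact_mod_cast hM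
      have h7 : Real.sqrt ((M ^ 2 : ℕ) : ℝ) = M := by
        push_cast
        exact Real.sqrt_sq hM'.le
      rw [h7] at h6 ⊢
      have h8 : 2 * (M : ℝ) / M = 2 := by field_simp
      rw [h8]
      linarith
    · have h6 := ih.2 (by omega)
      have hN : 1 ≤ N := by
        have : 1 ≤ M ^ 2 := Nat.one_le_pow _ _ hM
        omega
      rw [Finset.sum_range_succ]
      have h3 : ai_n3 M (N + 1) ≤ M / ((N + 1 : ℝ) * Real.sqrt (N + 1)) := by
        unfold ai_n3
        rw [if_neg (by omega)]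
        push_cast
        exact min_le_right _ _
      have h4 := ai_step2_n3 M N hN
      push_cast
      linarith

private theorem ai_sum_n3 (M : ℕ) (hM : 1 ≤ M) (n : ℕ) :
    ∑ j ∈ Finset.range n, ai_n3 M j ≤ 7 * Real.sqrt M := by
  have hM' : (1 : ℝ) ≤ M := by exact_mod_cast hM
  have hs : 1 ≤ Real.sqrt M := Real.one_le_sqrt.2 hM'
  rcases n with _ | n
  · simp
  · rw [Finset.sum_range_succ']
    have h0 : ai_n3 M 0 = 1 := by simp [ai_n3]
    rw [h0]
    obtain ⟨h1, h2⟩ := ai_sum_aux_n3 M hM n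
    rcases le_total n (M ^ 2) with h | h
    · have h3 := h1 h
      have h4 : Real.sqrt (Real.sqrt n) ≤ Real.sqrt M := by
        refine Real.sqrt_le_sqrt ?_
        rw [Real.sqrt_le_left (by linarith)]
        exact_mod_cast h
      linarith
    · have h3 := h2 h
      have h4 : 0 ≤ 2 * (M : ℝ) / Real.sqrt n := by positivity
      linarith

private theorem ai_far_n3 (M n k : ℕ) (hn : 1 ≤ n) (hk : n ≤ 3 * k) :
    ai_n3 M k ≤ 6 * M / (n * Real.sqrt n) := by
  have hk1 : 1 ≤ k := by omega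
  have hn' : (0 : ℝ) < n := by exact_mod_cast hn
  have hk' : (0 : ℝ) < k := by exact_mod_cast hk1
  have hkn : (n : ℝ) ≤ 3 * k := by exact_mod_cast hk
  unfold ai_n3
  rw [if_neg (by omega)]
  refine (min_le_right _ _).trans ?_
  rw [div_le_div_iff₀ (by positivity) (by positivity)]
  have h1 : Real.sqrt n ≤ 2 * Real.sqrt k := by
    rw [Real.sqrt_le_left (by positivity), mul_pow, Real.sq_sqrt hk'.le]
    linarith
  have h2 : (n : ℝ) * Real.sqrt n ≤ (3 * k) * (2 * Real.sqrt k) :=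
    mul_le_mul hkn h1 (Real.sqrt_nonneg _) (by positivity)
  calc (M : ℝ) * (n * Real.sqrt n) ≤ M * ((3 * k) * (2 * Real.sqrt k)) :=
        mul_le_mul_of_nonneg_left h2 (Nat.cast_nonneg _)
    _ = 6 * M * (k * Real.sqrt k) := by ring

private theorem exp_nn_n3 {c : ℝ} (hc : 0 < c) (n : ℕ) (hn : 1 ≤ n) :
    Real.exp (-c * n) ≤ (2 / c ^ 2) / (n * Real.sqrt n) := by
  have hn' : (1 : ℝ) ≤ n := by exact_mod_cast hn
  have hs : Real.sqrt n ≤ n := by
    rw [Real.sqrt_le_left (by linarith)]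
    nlinarith
  have h1 : (c * n) ^ 2 / 2 ≤ Real.exp (c * n) := by
    have := Real.quadratic_le_exp_of_nonneg (x := c * n) (by positivity)
    have h2 : 0 ≤ c * n := by positivity
    linarith
  have h3 : Real.exp (-c * n) = 1 / Real.exp (c * n) := by
    rw [neg_mul, Real.exp_neg, one_div]
  rw [h3, div_le_div_iff₀ (Real.exp_pos _) (by positivity)]
  have h4 : (n : ℝ) * Real.sqrt n ≤ n * n := mul_le_mul_of_nonneg_left hs (by linarith)
  have h5 : 2 / c ^ 2 * ((c * n) ^ 2 / 2) = n * n := by field_simp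
  have h6 : 2 / c ^ 2 * ((c * n) ^ 2 / 2) ≤ 2 / c ^ 2 * Real.exp (c * n) :=
    mul_le_mul_of_nonneg_left h1 (by positivity)
  linarith

private theorem geo_n3 {b : ℝ} (hb : 0 < b) : ∃ Q : ℝ, 0 < Q ∧ ∀ n : ℕ,
    ∑ l ∈ Finset.range n, Real.exp (-b * (l + 1)) ≤ Q := by
  have hs : Summable fun l : ℕ => Real.exp (-b * ((l : ℝ) + 1)) := by
    have h := (a4_exp_nat hb).mul_right (Real.exp (-b))
    refine h.congr fun l => ?_
    rw [← Real.exp_add]
    congr 1; ring
  refine ⟨∑' l : ℕ, Real.exp (-b * ((l : ℝ) + 1)), ?_, fun n => ?_⟩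
  · exact hs.tsum_pos (fun _ => (Real.exp_pos _).le) 0 (Real.exp_pos _)
  · exact hs.sum_le_tsum _ fun _ _ => (Real.exp_pos _).le

private theorem conv_n3 {r : ℝ} (hr : 0 < r) : ∃ C : ℝ, 0 < C ∧ ∀ M n : ℕ, 1 ≤ M → 1 ≤ n →
    ∑ j ∈ Finset.range n, ∑ l ∈ Finset.range (n - j),
      ai_n3 M j * Real.exp (-r * (l + 1)) * ai_n3 M (n - j - (l + 1)) ≤
        C * (M * Real.sqrt M) / (n * Real.sqrt n) := by
  obtain ⟨Q, hQ, hq⟩ := geo_n3 (half_pos hr)
  set D : ℝ := 2 / (r / 6) ^ 2 with hD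
  have hD0 : 0 < D := by positivity
  refine ⟨7 * Q * (12 + D), by positivity, fun M n hM hn => ?_⟩
  have hn' : (1 : ℝ) ≤ n := by exact_mod_cast hn
  have hM' : (1 : ℝ) ≤ M := by exact_mod_cast hM
  set m : ℝ := 6 * M / (n * Real.sqrt n) with hm
  set e : ℝ := Real.exp (-(r / 6) * n) with he
  have hm0 : 0 ≤ m := by positivity
  have he0 : 0 < e := Real.exp_pos _
  have hterm : ∀ j ∈ Finset.range n, ∀ l ∈ Finset.range (n - j),
      ai_n3 M j * Real.exp (-r * (l + 1)) * ai_n3 M (n - j - (l + 1)) ≤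
        ai_n3 M j * Real.exp (-(r / 2) * (l + 1)) * (m + e) +
          m * (Real.exp (-(r / 2) * (l + 1)) * ai_n3 M (n - j - (l + 1))) := by
    intro j hj l hl
    rw [Finset.mem_range] at hj hl
    have a0 := ai_nonneg_n3 M j
    have b0 := ai_nonneg_n3 M (n - j - (l + 1))
    have b1 := ai_le_one_n3 M (n - j - (l + 1))
    have q0 := Real.exp_pos (-(r / 2) * ((l : ℝ) + 1))
    have hl0 : (0 : ℝ) ≤ l := Nat.cast_nonneg l
    have hrq : Real.exp (-r * ((l : ℝ) + 1)) ≤ Real.exp (-(r / 2) * (l + 1)) := by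
      apply Real.exp_le_exp.2
      nlinarith
    have hr0 := Real.exp_pos (-r * ((l : ℝ) + 1))
    have p1 : 0 ≤ ai_n3 M j * Real.exp (-(r / 2) * (l + 1)) * m := by positivity
    have p2 : 0 ≤ ai_n3 M j * Real.exp (-(r / 2) * (l + 1)) * e := by positivity
    have p3 : 0 ≤ m * (Real.exp (-(r / 2) * (l + 1)) * ai_n3 M (n - j - (l + 1))) := by positivity
    have key : ai_n3 M j * Real.exp (-r * (l + 1)) * ai_n3 M (n - j - (l + 1)) ≤
        ai_n3 M j * Real.exp (-(r / 2) * (l + 1)) * m ∨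
        ai_n3 M j * Real.exp (-r * (l + 1)) * ai_n3 M (n - j - (l + 1)) ≤
        ai_n3 M j * Real.exp (-(r / 2) * (l + 1)) * e ∨
        ai_n3 M j * Real.exp (-r * (l + 1)) * ai_n3 M (n - j - (l + 1)) ≤
        m * (Real.exp (-(r / 2) * (l + 1)) * ai_n3 M (n - j - (l + 1))) := by
      have hcase : n ≤ 3 * (n - j - (l + 1)) ∨ n ≤ 3 * (l + 1) ∨ n ≤ 3 * j := by omega
      rcases hcase with h | h | h
      · left
        exact mul_le_mul (mul_le_mul_of_nonneg_left hrq a0) (ai_far_n3 M n _ hn h) b0 (by positivity)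
      · right; left
        have h1 : Real.exp (-r * ((l : ℝ) + 1)) ≤ Real.exp (-(r / 2) * (l + 1)) * e := by
          rw [he, ← Real.exp_add]
          apply Real.exp_le_exp.2
          have : (n : ℝ) ≤ 3 * (l + 1) := by exact_mod_cast h
          nlinarith
        calc ai_n3 M j * Real.exp (-r * (l + 1)) * ai_n3 M (n - j - (l + 1))
            ≤ ai_n3 M j * (Real.exp (-(r / 2) * (l + 1)) * e) * 1 :=
              mul_le_mul (mul_le_mul_of_nonneg_left h1 a0) b1 b0 (by positivity)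
          _ = _ := by ring
      · right; right
        calc ai_n3 M j * Real.exp (-r * (l + 1)) * ai_n3 M (n - j - (l + 1))
            ≤ m * Real.exp (-(r / 2) * (l + 1)) * ai_n3 M (n - j - (l + 1)) :=
              mul_le_mul_of_nonneg_right (mul_le_mul (ai_far_n3 M n _ hn h) hrq hr0.le hm0) b0
          _ = _ := by ring
    rcases key with h | h | h
    · linarith
    · linarith
    · linarith
  have hA := ai_sum_n3 M hM n
  have hs1 : ∑ j ∈ Finset.range n, ∑ l ∈ Finset.range (n - j),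
      ai_n3 M j * Real.exp (-(r / 2) * (l + 1)) * (m + e) ≤ 7 * Real.sqrt M * (Q * (m + e)) := by
    calc ∑ j ∈ Finset.range n, ∑ l ∈ Finset.range (n - j),
        ai_n3 M j * Real.exp (-(r / 2) * (l + 1)) * (m + e)
        ≤ ∑ j ∈ Finset.range n, ai_n3 M j * (Q * (m + e)) := by
          refine Finset.sum_le_sum fun j _ => ?_
          rw [← Finset.sum_mul, ← Finset.mul_sum, mul_assoc]
          exact mul_le_mul_of_nonneg_left
            (mul_le_mul_of_nonneg_right (hq (n - j)) (by positivity)) (ai_nonneg_n3 M j)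
      _ = (∑ j ∈ Finset.range n, ai_n3 M j) * (Q * (m + e)) := by rw [Finset.sum_mul]
      _ ≤ _ := mul_le_mul_of_nonneg_right hA (by positivity)
  have hs2 : ∑ j ∈ Finset.range n, ∑ l ∈ Finset.range (n - j),
      m * (Real.exp (-(r / 2) * (l + 1)) * ai_n3 M (n - j - (l + 1))) ≤
        m * (Q * (7 * Real.sqrt M)) := by
    rw [Finset.sum_comm' (s' := fun l => Finset.range (n - l)) (t' := Finset.range n)
      (by intro x y; simp only [Finset.mem_range]; omega)]
    calc ∑ l ∈ Finset.range n, ∑ j ∈ Finset.range (n - l),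
        m * (Real.exp (-(r / 2) * (l + 1)) * ai_n3 M (n - j - (l + 1)))
        ≤ ∑ l ∈ Finset.range n, m * (Real.exp (-(r / 2) * (l + 1)) * (7 * Real.sqrt M)) := by
          refine Finset.sum_le_sum fun l hl => ?_
          rw [← Finset.mul_sum, ← Finset.mul_sum]
          refine mul_le_mul_of_nonneg_left (mul_le_mul_of_nonneg_left ?_ (Real.exp_pos _).le) hm0
          have h1 : ∑ j ∈ Finset.range (n - l), ai_n3 M (n - j - (l + 1)) =
              ∑ j ∈ Finset.range (n - l), ai_n3 M (n - l - 1 - j) :=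
            Finset.sum_congr rfl fun j hj => by
              congr 1
              omega
          rw [h1, Finset.sum_range_reflect]
          exact ai_sum_n3 M hM _
      _ = m * ((∑ l ∈ Finset.range n, Real.exp (-(r / 2) * (l + 1))) * (7 * Real.sqrt M)) := by
          rw [← Finset.mul_sum, Finset.sum_mul]
      _ ≤ _ := mul_le_mul_of_nonneg_left (mul_le_mul_of_nonneg_right (hq n) (by positivity)) hm0
  have htot : ∑ j ∈ Finset.range n, ∑ l ∈ Finset.range (n - j),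
      ai_n3 M j * Real.exp (-r * (l + 1)) * ai_n3 M (n - j - (l + 1)) ≤
        7 * Real.sqrt M * (Q * (m + e)) + m * (Q * (7 * Real.sqrt M)) := by
    refine le_trans (Finset.sum_le_sum fun j hj => Finset.sum_le_sum fun l hl => hterm j hj l hl) ?_
    simp only [Finset.sum_add_distrib]
    exact add_le_add hs1 hs2
  refine htot.trans ?_
  have he1 : e ≤ D / (n * Real.sqrt n) := exp_nn_n3 (by positivity) n hn
  have hnn : 0 < (n : ℝ) * Real.sqrt n := by positivity
  have he2 : e ≤ D * M / (n * Real.sqrt n) := he1.trans (by gcongr; nlinarith)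
  have hs : 0 ≤ Real.sqrt M := Real.sqrt_nonneg _
  calc 7 * Real.sqrt M * (Q * (m + e)) + m * (Q * (7 * Real.sqrt M))
      = 7 * Q * Real.sqrt M * (2 * m + e) := by ring
    _ ≤ 7 * Q * Real.sqrt M * (2 * m + D * M / (n * Real.sqrt n)) := by
        refine mul_le_mul_of_nonneg_left ?_ (by positivity)
        linarith
    _ = 7 * Q * (12 + D) * (M * Real.sqrt M) / (n * Real.sqrt n) := by
        rw [hm]; ring

private theorem g_le_n3 (F : Law) : ∃ C : ℝ, 1 ≤ C ∧ ∀ (M j : ℕ) (z : ℤ), 1 ≤ M →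
    G (Kp F) j M z ≤ ENNReal.ofReal (C * (1 + |(z : ℝ)|) * ai_n3 M j) := by
  obtain ⟨C₁, hC₁, hup⟩ := kp_up F
  obtain ⟨C₂, hC₂, hu⟩ := u_le F
  refine ⟨1 + 2 * C₁ + C₂, by linarith, fun M j z hM => ?_⟩
  have hz : 0 ≤ |(z : ℝ)| := abs_nonneg _
  have hM' : (1 : ℝ) ≤ M := by exact_mod_cast hM
  rcases Nat.eq_zero_or_pos j with hj | hj
  · subst hj
    have h1 : G (Kp F) 0 M z ≤ 1 :=
      ((g_mono (kp_le F) 0 M z).trans (ENNReal.le_tsum z)).trans (g_sum_le F 0 M)
    refine h1.trans ?_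
    rw [ENNReal.one_le_ofReal]
    have : ai_n3 M 0 = 1 := by simp [ai_n3]
    rw [this]
    nlinarith
  · have hj' : (0 : ℝ) < j := by exact_mod_cast hj
    have hsj : 0 < Real.sqrt j := Real.sqrt_pos.2 hj'
    have hssj : 0 < Real.sqrt (Real.sqrt j) := Real.sqrt_pos.2 hsj
    have h2 : G (Kp F) j M z ≤
        ENNReal.ofReal ((1 + 2 * C₁ + C₂) * (1 + |(z : ℝ)|) * (M / (j * Real.sqrt j))) := by
      refine ((hup j M z hj).2).trans (ENNReal.ofReal_le_ofReal ?_)
      have hMa : |((M : ℤ) : ℝ)| = M := by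
        rw [Int.cast_natCast, abs_of_nonneg (Nat.cast_nonneg M)]
      rw [hMa]
      have h3 : C₁ * (1 + (M : ℝ)) * (1 + |(z : ℝ)|) ≤ (1 + 2 * C₁ + C₂) * (1 + |(z : ℝ)|) * M := by
        have h4 : C₁ * (1 + (M : ℝ)) ≤ (1 + 2 * C₁ + C₂) * M := by nlinarith
        have h5 := mul_le_mul_of_nonneg_right h4 (by linarith : 0 ≤ 1 + |(z : ℝ)|)
        linarith
      calc C₁ * (1 + (M : ℝ)) * (1 + |(z : ℝ)|) / (j * Real.sqrt j)
          ≤ (1 + 2 * C₁ + C₂) * (1 + |(z : ℝ)|) * M / (j * Real.sqrt j) := by gcongr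
        _ = _ := by ring
    have h1 : G (Kp F) j M z ≤ ENNReal.ofReal ((1 + 2 * C₁ + C₂) * (1 + |(z : ℝ)|) *
        (1 / (Real.sqrt j * Real.sqrt (Real.sqrt j)))) := by
      have a1 : G (Kp F) j M z ≤ ENNReal.ofReal (C₂ / Real.sqrt j) := by
        refine (g_mono (kp_le F) j M z).trans ?_
        rw [u_eq]
        exact ENNReal.ofReal_le_ofReal (hu j _ hj)
      have a2 : G (Kp F) j M z ≤ ENNReal.ofReal (C₁ * (1 + |(z : ℝ)|) / j) := by
        rw [g_symm (Kp F) (kp_symm F)]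
        exact (hup j z M hj).1
      have hfin : G (Kp F) j M z ≠ ⊤ := ne_top_of_le_ne_top ENNReal.ofReal_ne_top a1
      set t : ℝ := (G (Kp F) j M z).toReal with ht
      have ht0 : 0 ≤ t := ENNReal.toReal_nonneg
      have b1 : t ≤ C₂ / Real.sqrt j := ENNReal.toReal_le_of_le_ofReal (by positivity) a1
      have b2 : t ≤ C₁ * (1 + |(z : ℝ)|) / j := ENNReal.toReal_le_of_le_ofReal (by positivity) a2
      rw [← ENNReal.ofReal_toReal hfin]
      apply ENNReal.ofReal_le_ofReal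
      rw [← ht]
      have h3 : t ^ 2 ≤ ((1 + 2 * C₁ + C₂) * (1 + |(z : ℝ)|) *
          (1 / (Real.sqrt j * Real.sqrt (Real.sqrt j)))) ^ 2 := by
        have h4 : t ^ 2 ≤ (C₂ / Real.sqrt j) * (C₁ * (1 + |(z : ℝ)|) / j) := by
          rw [sq]
          exact mul_le_mul b1 b2 ht0 (by positivity)
        have h5 : ((1 + 2 * C₁ + C₂) * (1 + |(z : ℝ)|) *
            (1 / (Real.sqrt j * Real.sqrt (Real.sqrt j)))) ^ 2 =
            ((1 + 2 * C₁ + C₂) ^ 2 * (1 + |(z : ℝ)|) ^ 2) / (j * Real.sqrt j) := by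
          rw [mul_pow, mul_pow, div_pow, mul_pow, Real.sq_sqrt hsj.le, Real.sq_sqrt hj'.le]
          ring
        have h6 : (C₂ / Real.sqrt j) * (C₁ * (1 + |(z : ℝ)|) / j) =
            (C₁ * C₂ * (1 + |(z : ℝ)|)) / (j * Real.sqrt j) := by
          field_simp
        rw [h5]
        refine h4.trans ?_
        rw [h6]
        gcongr
        · nlinarith [mul_pos hC₁ hC₂]
        · nlinarith
      exact (pow_le_pow_iff_left₀ ht0 (by positivity) two_ne_zero).1 h3
    unfold ai_n3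
    rw [if_neg (by omega)]
    rcases min_choice (1 / (Real.sqrt j * Real.sqrt (Real.sqrt j))) ((M : ℝ) / (j * Real.sqrt j)) with h | h
    · rw [h]; exact h1
    · rw [h]; exact h2

private theorem poly_n3 {r : ℝ} (hr : 0 < r) {u : ℝ} (hu : 0 ≤ u) :
    (1 + u) ^ 2 * Real.exp (-r * u) ≤ (1 + 4 / r) ^ 2 * Real.exp (-(r / 2) * u) := by
  have h1 : r / 4 * u + 1 ≤ Real.exp (r / 4 * u) := Real.add_one_le_exp _
  have h2 : 1 + u ≤ (1 + 4 / r) * Real.exp (r / 4 * u) := by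
    have h3 : (1 + 4 / r) * (r / 4 * u + 1) ≤ (1 + 4 / r) * Real.exp (r / 4 * u) :=
      mul_le_mul_of_nonneg_left h1 (by positivity)
    have h4 : (1 + 4 / r) * (r / 4 * u + 1) = 1 + u + 4 / r + r / 4 * u := by field_simp; ring
    have h5 : 0 ≤ 4 / r := by positivity
    have h6 : 0 ≤ r / 4 * u := by positivity
    linarith
  have h3 : (1 + u) ^ 2 ≤ ((1 + 4 / r) * Real.exp (r / 4 * u)) ^ 2 := pow_le_pow_left₀ (by linarith) h2 2
  calc (1 + u) ^ 2 * Real.exp (-r * u)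
      ≤ ((1 + 4 / r) * Real.exp (r / 4 * u)) ^ 2 * Real.exp (-r * u) :=
        mul_le_mul_of_nonneg_right h3 (Real.exp_pos _).le
    _ = (1 + 4 / r) ^ 2 * (Real.exp (r / 4 * u) * Real.exp (r / 4 * u) * Real.exp (-r * u)) := by ring
    _ = _ := by
        rw [← Real.exp_add, ← Real.exp_add]
        congr 2; ring

private theorem db_n3 {Bt r : ℝ} (hB : 0 < Bt) (hr : 0 < r) {C α β : ℝ} (hC : 0 ≤ C) (hα : 0 ≤ α)
    (hβ : 0 ≤ β) (z z' : ℤ) (l : ℕ) :
    ENNReal.ofReal (C * (1 + |(z : ℝ)|) * α) * Db Bt r z (l + 1) z' *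
      ENNReal.ofReal (C * (1 + |(z' : ℝ)|) * β) ≤
    ENNReal.ofReal (C ^ 2 * Bt * (1 + 4 / r) ^ 4 * (α * Real.exp (-r * (l + 1)) * β)) *
      (ENNReal.ofReal (Real.exp (-(r / 2) * |(z : ℝ)|)) *
        ENNReal.ofReal (Real.exp (-(r / 2) * |((z' - z : ℤ) : ℝ)|))) := by
  unfold Db
  split_ifs with h
  · obtain ⟨hz, hz'⟩ := h
    have hz1 : (1 : ℝ) ≤ z := by exact_mod_cast hz
    have hza : |(z : ℝ)| = z := abs_of_nonneg (by linarith)
    have hd : 0 ≤ |((z' - z : ℤ) : ℝ)| := abs_nonneg _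
    rw [← ENNReal.ofReal_mul (by positivity), ← ENNReal.ofReal_mul (by positivity),
      ← ENNReal.ofReal_mul (by positivity), ← ENNReal.ofReal_mul (by positivity)]
    apply ENNReal.ofReal_le_ofReal
    have hd' : |((z' - z : ℤ) : ℝ)| = |(z' : ℝ) - z| := by push_cast; rfl
    rw [← hd', hza]
    set d : ℝ := |((z' - z : ℤ) : ℝ)| with hdd
    have h1 : 1 + |(z' : ℝ)| ≤ (1 + z) * (1 + d) := by
      have h2 : |(z' : ℝ)| ≤ z + d := by
        have : (z' : ℝ) = z + (z' - z) := by ring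
        rw [this, hd']
        refine (abs_add_le _ _).trans ?_
        rw [hza]
      nlinarith
    have e1 : Real.exp (-r * (z + ((l + 1 : ℕ) : ℝ) + d)) =
        Real.exp (-r * z) * Real.exp (-r * (l + 1)) * Real.exp (-r * d) := by
      rw [← Real.exp_add, ← Real.exp_add]
      congr 1; push_cast; ring
    rw [e1]
    have p1 := poly_n3 hr (by linarith : (0 : ℝ) ≤ z)
    have p2 := poly_n3 hr hd
    have p3 : (1 + d) * Real.exp (-r * d) ≤ (1 + d) ^ 2 * Real.exp (-r * d) :=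
      mul_le_mul_of_nonneg_right (by nlinarith) (Real.exp_pos _).le
    have E1 := Real.exp_pos (-r * (z : ℝ))
    have E2 := Real.exp_pos (-r * ((l : ℝ) + 1))
    have E3 := Real.exp_pos (-r * d)
    calc C * (1 + (z : ℝ)) * α * (Bt * (Real.exp (-r * z) * Real.exp (-r * (l + 1)) * Real.exp (-r * d))) *
          (C * (1 + |(z' : ℝ)|) * β)
        ≤ C * (1 + (z : ℝ)) * α * (Bt * (Real.exp (-r * z) * Real.exp (-r * (l + 1)) * Real.exp (-r * d))) *
          (C * ((1 + z) * (1 + d)) * β) := by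
          refine mul_le_mul_of_nonneg_left ?_ (by positivity)
          exact mul_le_mul_of_nonneg_right (mul_le_mul_of_nonneg_left h1 hC) hβ
      _ = C ^ 2 * Bt * (α * Real.exp (-r * (l + 1)) * β) *
          (((1 + (z : ℝ)) ^ 2 * Real.exp (-r * z)) * ((1 + d) * Real.exp (-r * d))) := by ring
      _ ≤ C ^ 2 * Bt * (α * Real.exp (-r * (l + 1)) * β) *
          (((1 + 4 / r) ^ 2 * Real.exp (-(r / 2) * z)) * ((1 + 4 / r) ^ 2 * Real.exp (-(r / 2) * d))) := by
          refine mul_le_mul_of_nonneg_left ?_ (by positivity)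
          exact mul_le_mul p1 (p3.trans p2) (by positivity) (by positivity)
      _ = _ := by ring
  · simp

theorem ins_small (F : Law) {Bt r : ℝ} (hB : 0 < Bt) (hr : 0 < r) : ∃ C : ℝ, 0 < C ∧
    ∀ M n : ℕ, 1 ≤ M → 1 ≤ n → Ins (Kp F) (Db Bt r) n M M ≤
      ENNReal.ofReal (C * (M * Real.sqrt M) / (n * Real.sqrt n)) := by
  obtain ⟨C, hC, hg⟩ := g_le_n3 F
  obtain ⟨D, hD, hconv⟩ := conv_n3 hr
  have hs := a4_exp_int (half_pos hr)
  set S : ℝ := ∑' h : ℤ, Real.exp (-(r / 2) * |(h : ℝ)|) with hS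
  have hS0 : 0 ≤ S := tsum_nonneg fun _ => (Real.exp_pos _).le
  have hS1 : ∑' h : ℤ, ENNReal.ofReal (Real.exp (-(r / 2) * |(h : ℝ)|)) = ENNReal.ofReal S :=
    (ENNReal.ofReal_tsum_of_nonneg (fun _ => (Real.exp_pos _).le) hs).symm
  have hC0 : 0 ≤ C := by linarith
  set E : ℝ := C ^ 2 * Bt * (1 + 4 / r) ^ 4 with hE
  have hE0 : 0 ≤ E := by positivity
  refine ⟨E * S ^ 2 * D + 1, by positivity, fun M n hM hn => ?_⟩
  have hin : ∀ j ∈ Finset.range n, ∀ l ∈ Finset.range (n - j),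
      ∑' z : ℤ, ∑' z' : ℤ, G (Kp F) j M z * Db Bt r z (l + 1) z' * G (Kp F) (n - j - (l + 1)) z' M ≤
        ENNReal.ofReal (E * S ^ 2 *
          (ai_n3 M j * Real.exp (-r * (l + 1)) * ai_n3 M (n - j - (l + 1)))) := by
    intro j hj l hl
    have hx : 0 ≤ ai_n3 M j * Real.exp (-r * (l + 1)) * ai_n3 M (n - j - (l + 1)) :=
      mul_nonneg (mul_nonneg (ai_nonneg_n3 _ _) (Real.exp_pos _).le) (ai_nonneg_n3 _ _)
    calc ∑' z : ℤ, ∑' z' : ℤ, G (Kp F) j M z * Db Bt r z (l + 1) z' * G (Kp F) (n - j - (l + 1)) z' M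
        ≤ ∑' z : ℤ, ∑' z' : ℤ, ENNReal.ofReal (E * (ai_n3 M j * Real.exp (-r * (l + 1)) *
            ai_n3 M (n - j - (l + 1)))) * (ENNReal.ofReal (Real.exp (-(r / 2) * |(z : ℝ)|)) *
              ENNReal.ofReal (Real.exp (-(r / 2) * |((z' - z : ℤ) : ℝ)|))) := by
          refine ENNReal.tsum_le_tsum fun z => ENNReal.tsum_le_tsum fun z' => ?_
          rw [g_symm (Kp F) (kp_symm F) (n - j - (l + 1)) z' M]
          exact (mul_le_mul' (mul_le_mul_left (hg M j z hM) _) (hg M _ z' hM)).trans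
            (db_n3 hB hr hC0 (ai_nonneg_n3 _ _) (ai_nonneg_n3 _ _) z z' l)
      _ = ENNReal.ofReal (E * (ai_n3 M j * Real.exp (-r * (l + 1)) *
            ai_n3 M (n - j - (l + 1)))) * (ENNReal.ofReal S * ENNReal.ofReal S) := by
          simp_rw [ENNReal.tsum_mul_left]
          congr 1
          have h1 : ∀ z : ℤ, ∑' z' : ℤ, ENNReal.ofReal (Real.exp (-(r / 2) * |((z' - z : ℤ) : ℝ)|)) =
              ENNReal.ofReal S := fun z => by
            rw [← hS1]
            exact (Equiv.subRight z).tsum_eq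
              (fun h : ℤ => ENNReal.ofReal (Real.exp (-(r / 2) * |(h : ℝ)|)))
          simp_rw [h1]
          rw [ENNReal.tsum_mul_right, hS1]
      _ = _ := by
          rw [← ENNReal.ofReal_mul hS0, ← ENNReal.ofReal_mul (mul_nonneg hE0 hx)]
          congr 1; ring
  unfold Ins
  calc ∑ j ∈ Finset.range n, ∑ l ∈ Finset.range (n - j), ∑' z : ℤ, ∑' z' : ℤ,
        G (Kp F) j M z * Db Bt r z (l + 1) z' * G (Kp F) (n - j - (l + 1)) z' M
      ≤ ∑ j ∈ Finset.range n, ∑ l ∈ Finset.range (n - j), ENNReal.ofReal (E * S ^ 2 *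
          (ai_n3 M j * Real.exp (-r * (l + 1)) * ai_n3 M (n - j - (l + 1)))) :=
        Finset.sum_le_sum fun j hj => Finset.sum_le_sum fun l hl => hin j hj l hl
    _ = ENNReal.ofReal (E * S ^ 2 * ∑ j ∈ Finset.range n, ∑ l ∈ Finset.range (n - j),
          ai_n3 M j * Real.exp (-r * (l + 1)) * ai_n3 M (n - j - (l + 1))) := by
        have hx : ∀ j l : ℕ, 0 ≤ E * S ^ 2 *
            (ai_n3 M j * Real.exp (-r * (l + 1)) * ai_n3 M (n - j - (l + 1))) := fun j l =>
          mul_nonneg (by positivity)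
            (mul_nonneg (mul_nonneg (ai_nonneg_n3 _ _) (Real.exp_pos _).le) (ai_nonneg_n3 _ _))
        rw [Finset.mul_sum, ENNReal.ofReal_sum_of_nonneg (fun j _ => ?_)]
        · refine Finset.sum_congr rfl fun j _ => ?_
          rw [Finset.mul_sum, ENNReal.ofReal_sum_of_nonneg (fun l _ => hx j l)]
        · rw [Finset.mul_sum]
          exact Finset.sum_nonneg fun l _ => hx j l
    _ ≤ _ := by
        apply ENNReal.ofReal_le_ofReal
        have h1 := mul_le_mul_of_nonneg_left (hconv M n hM hn) (by positivity : 0 ≤ E * S ^ 2)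
        refine h1.trans ?_
        have h2 : 0 ≤ ((M : ℝ) * Real.sqrt M) / (n * Real.sqrt n) := by positivity
        calc E * S ^ 2 * (D * (M * Real.sqrt M) / (n * Real.sqrt n))
            = E * S ^ 2 * D * (((M : ℝ) * Real.sqrt M) / (n * Real.sqrt n)) := by ring
          _ ≤ (E * S ^ 2 * D + 1) * (((M : ℝ) * Real.sqrt M) / (n * Real.sqrt n)) :=
              mul_le_mul_of_nonneg_right (by linarith) h2
          _ = _ := by ring


end Pool.Agent.Helper18.WK
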