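import Pool.Agent.Helper49.FL.Fub
import Pool.Agent.Helper49.PL.Uniq

/-!
Block BE-L: the joint laws of a measure with the finite dimensional distributions `FF g`.

Paper proofs. `Dm g s` is the measure on `Fin (p + 1) → ℝ` with density `dg g s` on the positive orthant.
* `dm_box`: `Dm g s {z | ∀ i, b i ≤ z i} = ofReal (Fe g (p+1) s (ind b))` and `Dm g s {z | ∀ i, b i ≤ - z i} = ofReal (Fe g (p+1) s (z ↦ ind (b i) (-z)))`: `withDensity_apply`, `ml_lint` with `φ i = ind (b i)` resp. `z ↦ ind (b i) (-z)`: the product of the indicators is the indicator of the set. `dm_univ`: all `φ i = 1`.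
  `dm_univ_pos`: `Fe g (p + 1) s 1 > 0` by `ml_pos` (see `Fdd.lean`).
* `joint`: let `κ = μ.map (fun f i => ev f (s i))`, a probability measure, and `κ' = (2 Dm univ)⁻¹ • (Dm g s + (Dm g s).map (fun z => -z))`, a probability measure. On the sets `A b = {z | ∀ i, b i ≤ z i}`, all `b i ≠ 0`: `κ (A b) = ofReal (FF g (p + 1) s b)` (`hμ`, `Measure.real`) `= κ' (A b)`. These sets are a π-system
  (`A b ∩ A b' = A (max b b')`, nonzero coordinates) which generates the Borel sigma-algebra of `Fin (p + 1) → ℝ` (the product sigma-algebra is generated by the coordinates, `{z | r ≤ z i} = ⋃_n {z | r ≤ z i, -n ≤ z j for j ≠ i}` for `r ≠ 0`, `-n ≠ 0`; and for `r = 0` `[0, ∞) = ⋂ [-1/n, ∞)`; or use `MeasureTheory.Measure.pi_ext`-like lemmas). `ext_of_generate_finite`.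
* `law_ext`: `path_ext`: for a finite set `S ⊂ (-1, 1)`, nonempty, `S` is the range of a strictly increasing `s : Fin (p + 1) → ℝ` (`Finset.orderEmbOfFin`), and `{f | ∀ t ∈ S, b t < ev f t}` is the preimage of `{z | ∀ i, b (s i) < z i}`; for `S = ∅` both measures are `1`.
-/

open Set MeasureTheory

namespace Pool.Agent.Helper18.WK.JJ

open Pool.Agent.Helper49.RD Pool.Agent.Helper49.PL Pool.Agent.Helper49.FL

/-- The measure with density `dg g s` on the positive orthant. -/
noncomputable def Dm (g : ℝ) {p : ℕ} (s : Fin (p + 1) → ℝ) : Measure (Fin (p + 1) → ℝ) :=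
  (volume.restrict (pos p)).withDensity (fun z => ENNReal.ofReal (dg g s z))

theorem ev_meas (s : ℝ) : Measurable fun f : C(TI, ℝ) => ev f s := (ev_cont s).measurable

private theorem inc_ofFn2 : ∀ (p : ℕ) (F : Fin p → ℝ × (ℝ → ℝ)) (r : ℝ), r < 2 → (∀ i, r < (F i).1) →
    (∀ i, (F i).1 < 2) → StrictMono (fun i => (F i).1) → Inc r (List.ofFn F) := by
  intro p
  induction p with
  | zero =>
    intro F r hr _ _ _
    rw [List.ofFn_zero]
    exact hr
  | succ p ih =>
    intro F r hr h1 h2 h3
    rw [List.ofFn_succ]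
    refine ⟨h1 0, ?_⟩
    refine ih (fun i => F i.succ) _ (h2 0) (fun i => ?_) (fun i => h2 _) ?_
    · exact h3 (Fin.succ_pos i)
    · intro i j hij
      exact h3 (Fin.succ_lt_succ_iff.2 hij)

private theorem ind_meas2 (h : ℝ) : Measurable (ind h) := by
  unfold ind
  exact Measurable.ite measurableSet_Ici measurable_const measurable_const

private theorem ind_bd2 (h z : ℝ) : 0 ≤ ind h z ∧ ind h z ≤ 1 := by
  unfold ind
  split_ifs <;> simp

private theorem prod_ind2 {p : ℕ} (b z : Fin (p + 1) → ℝ) :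
    ∏ i, ind (b i) (z i) = if ∀ i, b i ≤ z i then 1 else 0 := by
  by_cases h : ∀ i, b i ≤ z i
  · rw [if_pos h]
    refine Finset.prod_eq_one fun i _ => ?_
    unfold ind
    rw [if_pos (h i)]
  · rw [if_neg h]
    push Not at h
    obtain ⟨i, hi⟩ := h
    refine Finset.prod_eq_zero (Finset.mem_univ i) ?_
    unfold ind
    rw [if_neg (not_le.2 hi)]

private theorem meas_box2 {p : ℕ} (b : Fin (p + 1) → ℝ) :
    MeasurableSet {z : Fin (p + 1) → ℝ | ∀ i, b i ≤ z i} := by
  rw [ofPred_forall]
  exact MeasurableSet.iInter fun i => measurableSet_le measurable_const (measurable_pi_apply i)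

private theorem meas_box2' {p : ℕ} (b : Fin (p + 1) → ℝ) :
    MeasurableSet {z : Fin (p + 1) → ℝ | ∀ i, b i ≤ -z i} := by
  rw [ofPred_forall]
  exact MeasurableSet.iInter fun i => measurableSet_le measurable_const (measurable_pi_apply i).neg

/-- half lines which do not start at `0` -/
private def HL : Set (Set ℝ) := {A | ∃ b : ℝ, b ≠ 0 ∧ A = Ici b}

private theorem HL_pi : IsPiSystem HL := by
  rintro _ ⟨b, hb, rfl⟩ _ ⟨c, hc, rfl⟩ _
  refine ⟨max b c, ?_, Ici_inter_Ici⟩
  rcases max_choice b c with h | h <;> rw [h]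
  · exact hb
  · exact hc

private theorem HL_span : IsCountablySpanning HL := by
  refine ⟨fun n : ℕ => Ici (-((n : ℝ) + 1)), fun n => ⟨_, ?_, rfl⟩, ?_⟩
  · have : (0 : ℝ) < n + 1 := by positivity
    linarith
  · ext x
    simp only [mem_iUnion, mem_Ici, mem_univ, iff_true]
    obtain ⟨n, hn⟩ := exists_nat_gt (-x)
    exact ⟨n, by linarith⟩

private theorem HL_gen : (inferInstance : MeasurableSpace ℝ) = MeasurableSpace.generateFrom HL := by
  refine (borel_eq_generateFrom_Ici ℝ ▸ (BorelSpace.measurable_eq (α := ℝ))).trans ?_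
  refine le_antisymm (MeasurableSpace.generateFrom_le ?_) (MeasurableSpace.generateFrom_mono ?_)
  · rintro _ ⟨b, rfl⟩
    by_cases hb : b = 0
    · have h1 : Ici b = ⋂ n : ℕ, Ici (-(1 / ((n : ℝ) + 1))) := by
        ext x
        simp only [mem_iInter, mem_Ici, hb]
        constructor
        · intro hx n
          have : (0 : ℝ) < 1 / (n + 1) := by positivity
          linarith
        · intro h
          by_contra hx
          obtain ⟨n, hn⟩ := exists_nat_one_div_lt (show (0 : ℝ) < -x by linarith [not_le.1 hx])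
          have := h n
          linarith
      rw [h1]
      refine MeasurableSet.iInter fun n => MeasurableSpace.measurableSet_generateFrom ⟨_, ?_, rfl⟩
      have : (0 : ℝ) < 1 / (n + 1) := by positivity
      linarith
    · exact MeasurableSpace.measurableSet_generateFrom ⟨b, hb, rfl⟩
  · rintro _ ⟨b, -, rfl⟩
    exact ⟨b, rfl⟩

/-- extensionality -/
theorem box_ext2 {p : ℕ} {κ κ' : Measure (Fin (p + 1) → ℝ)} [IsProbabilityMeasure κ]
    (h1 : κ univ = κ' univ)
    (h : ∀ b : Fin (p + 1) → ℝ, (∀ i, b i ≠ 0) → κ {z | ∀ i, b i ≤ z i} = κ' {z | ∀ i, b i ≤ z i}) :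
    κ = κ' := by
  have hg := generateFrom_pi_eq (C := fun _ : Fin (p + 1) => HL) (fun _ => HL_span)
  refine ext_of_generate_finite (pi univ '' pi univ fun _ : Fin (p + 1) => HL) ?_
    (IsPiSystem.pi fun _ => HL_pi) ?_ h1
  · rw [← hg, ← HL_gen]
  · rintro _ ⟨t, ht, rfl⟩
    have ht' : ∀ i, ∃ b : ℝ, b ≠ 0 ∧ t i = Ici b := fun i => ht i (mem_univ i)
    choose b hb hb' using ht'
    have e : pi univ t = {z : Fin (p + 1) → ℝ | ∀ i, b i ≤ z i} := by
      ext z
      simp only [mem_pi, mem_univ, true_implies, mem_ofPred_eq]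
      refine forall_congr' fun i => ?_
      rw [hb' i, mem_Ici]
    rw [e]
    exact h b hb

section

variable {g : ℝ} (hg : 0 < g) {p : ℕ} {s : Fin (p + 1) → ℝ} (hs : StrictMono s) (hs1 : ∀ i, -1 < s i ∧ s i < 1)

include hg hs hs1

theorem dm_univ : Dm g s univ = ENNReal.ofReal (Fe g (p + 1) s (fun _ _ => 1)) ∧ 0 < Fe g (p + 1) s (fun _ _ => 1) := by
  constructor
  · have h := (ml_lint hg hs hs1 (φ := fun _ _ => 1) (fun _ => measurable_const)
      (fun _ _ => ⟨by norm_num, by norm_num⟩)).1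
    rw [h]
    unfold Dm
    rw [withDensity_apply _ MeasurableSet.univ, Measure.restrict_univ]
    simp
  · unfold Fe
    refine ml_pos hg _ ?_ ?_ ?_ ?_
    · intro h
      have := congrArg List.length h
      simp at this
    · refine inc_ofFn2 _ _ 0 (by norm_num) (fun i => ?_) (fun i => ?_) ?_
      · show 0 < 1 + s i
        linarith [(hs1 i).1]
      · show 1 + s i < 2
        linarith [(hs1 i).2]
      · intro i j hij
        show 1 + s i < 1 + s j
        linarith [hs hij]
    · intro a ha z _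
      rw [List.mem_ofFn] at ha
      obtain ⟨i, rfl⟩ := ha
      rfl
    · intro a ha
      rw [List.mem_ofFn] at ha
      obtain ⟨i, rfl⟩ := ha
      exact ⟨measurable_const, fun z => by simp⟩

theorem dm_box (b : Fin (p + 1) → ℝ) :
    Dm g s {z | ∀ i, b i ≤ z i} = ENNReal.ofReal (Fe g (p + 1) s (fun i z => ind (b i) z)) ∧
    Dm g s {z | ∀ i, b i ≤ -z i} = ENNReal.ofReal (Fe g (p + 1) s (fun i z => ind (b i) (-z))) := by
  have hd := dg_meas g s
  constructor
  · rw [(ml_lint hg hs hs1 (φ := fun i z => ind (b i) z) (fun i => ind_meas2 _)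
      (fun i z => ind_bd2 _ _)).1]
    unfold Dm
    rw [withDensity_apply _ (meas_box2 b), ← lintegral_indicator (meas_box2 b)]
    refine lintegral_congr fun z => ?_
    rw [prod_ind2 b z]
    by_cases h : ∀ i, b i ≤ z i
    · rw [indicator_of_mem (show z ∈ {z : Fin (p + 1) → ℝ | ∀ i, b i ≤ z i} from h), if_pos h, mul_one]
    · rw [indicator_of_notMem (show z ∉ {z : Fin (p + 1) → ℝ | ∀ i, b i ≤ z i} from h), if_neg h,
        mul_zero, ENNReal.ofReal_zero]
  · rw [(ml_lint hg hs hs1 (φ := fun i z => ind (b i) (-z)) (fun i => (ind_meas2 _).comp measurable_neg)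
      (fun i z => ind_bd2 _ _)).1]
    unfold Dm
    rw [withDensity_apply _ (meas_box2' b), ← lintegral_indicator (meas_box2' b)]
    refine lintegral_congr fun z => ?_
    have e : ∏ i, ind (b i) (-z i) = if ∀ i, b i ≤ -z i then 1 else 0 := prod_ind2 b (fun i => -z i)
    rw [e]
    by_cases h : ∀ i, b i ≤ -z i
    · rw [indicator_of_mem (show z ∈ {z : Fin (p + 1) → ℝ | ∀ i, b i ≤ -z i} from h), if_pos h, mul_one]
    · rw [indicator_of_notMem (show z ∉ {z : Fin (p + 1) → ℝ | ∀ i, b i ≤ -z i} from h), if_neg h,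
        mul_zero, ENNReal.ofReal_zero]

theorem joint {μ : Measure C(TI, ℝ)} [IsProbabilityMeasure μ]
    (hμ : ∀ b : Fin (p + 1) → ℝ, (∀ i, b i ≠ 0) → μ.real {f | ∀ i, b i ≤ ev f (s i)} = FF g (p + 1) s b) :
    μ.map (fun f i => ev f (s i)) = (2 * Dm g s univ)⁻¹ • (Dm g s + (Dm g s).map (fun z => -z)) := by
  have hmap : Measurable fun (f : C(TI, ℝ)) (i : Fin (p + 1)) => ev f (s i) :=
    measurable_pi_lambda _ fun i => ev_meas (s i)
  have : IsProbabilityMeasure (μ.map (fun f (i : Fin (p + 1)) => ev f (s i))) :=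
    Measure.isProbabilityMeasure_map hmap.aemeasurable
  obtain ⟨hu, hpos⟩ := dm_univ hg hs hs1
  have hneg : Measurable fun z : Fin (p + 1) → ℝ => -z := measurable_neg
  refine box_ext2 ?_ ?_
  · rw [measure_univ, Measure.smul_apply, Measure.add_apply, Measure.map_apply hneg MeasurableSet.univ,
      preimage_univ, smul_eq_mul, ← two_mul, ENNReal.inv_mul_cancel]
    · rw [hu]
      exact mul_ne_zero (by norm_num) (ENNReal.ofReal_pos.2 hpos).ne'
    · rw [hu]
      exact ENNReal.mul_ne_top (by norm_num) ENNReal.ofReal_ne_top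
  · intro b hb
    obtain ⟨b1, b2⟩ := dm_box hg hs hs1 b
    have n1 := (ml_lint hg hs hs1 (φ := fun i z => ind (b i) z) (fun i => ind_meas2 _)
      (fun i z => ind_bd2 _ _)).2
    have n2 := (ml_lint hg hs hs1 (φ := fun i z => ind (b i) (-z))
      (fun i => (ind_meas2 _).comp measurable_neg) (fun i z => ind_bd2 _ _)).2
    have e1 : (μ.map (fun f (i : Fin (p + 1)) => ev f (s i))) {z | ∀ i, b i ≤ z i} =
        ENNReal.ofReal (FF g (p + 1) s b) := by
      rw [Measure.map_apply hmap (meas_box2 b), ← hμ b hb, Measure.real, ENNReal.ofReal_toReal (measure_ne_top _ _)]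
      rfl
    have e2 : (fun z : Fin (p + 1) → ℝ => -z) ⁻¹' {z | ∀ i, b i ≤ z i} = {z | ∀ i, b i ≤ -z i} := rfl
    rw [e1, Measure.smul_apply, Measure.add_apply, Measure.map_apply hneg (meas_box2 b), e2, b1, b2,
      smul_eq_mul, hu, ← ENNReal.ofReal_add n1 n2]
    have h2 : (2 : ENNReal) = ENNReal.ofReal 2 := by simp
    rw [h2, ← ENNReal.ofReal_mul (by norm_num), ← ENNReal.ofReal_inv_of_pos (by positivity),
      ← ENNReal.ofReal_mul (by positivity)]
    congr 1
    unfold FF
    rw [div_eq_inv_mul]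

end

theorem law_ext {μ ν : Measure C(TI, ℝ)} [IsProbabilityMeasure μ] [IsProbabilityMeasure ν]
    (h : ∀ (p : ℕ) (s : Fin (p + 1) → ℝ), StrictMono s → (∀ i, -1 < s i ∧ s i < 1) →
      μ.map (fun f i => ev f (s i)) = ν.map (fun f i => ev f (s i))) : μ = ν := by
  refine path_ext fun S b hS => ?_
  rcases Nat.eq_zero_or_pos S.card with h0 | h0
  · rw [Finset.card_eq_zero.1 h0]
    simp
  · obtain ⟨p, hp⟩ : ∃ p, S.card = p + 1 := ⟨S.card - 1, by omega⟩
    let s : Fin (p + 1) → ℝ := S.orderEmbOfFin hp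
    have hs : StrictMono s := (S.orderEmbOfFin hp).strictMono
    have hmem : ∀ i, s i ∈ S := fun i => Finset.orderEmbOfFin_mem S hp i
    have hmap : Measurable fun (f : C(TI, ℝ)) (i : Fin (p + 1)) => ev f (s i) :=
      measurable_pi_lambda _ fun i => ev_meas (s i)
    have hset : {f : C(TI, ℝ) | ∀ t ∈ S, b t < ev f t} =
        (fun (f : C(TI, ℝ)) (i : Fin (p + 1)) => ev f (s i)) ⁻¹' {z | ∀ i, b (s i) < z i} := by
      ext f
      simp only [mem_ofPred_eq, mem_preimage]
      constructor
      · intro h i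
        exact h _ (hmem i)
      · intro h t ht
        have h1 : t ∈ Set.range (S.orderEmbOfFin hp) := by
          rw [Finset.range_orderEmbOfFin]
          exact ht
        obtain ⟨i, rfl⟩ := h1
        exact h i
    have hm : MeasurableSet {z : Fin (p + 1) → ℝ | ∀ i, b (s i) < z i} := by
      rw [ofPred_forall]
      exact MeasurableSet.iInter fun i => measurableSet_lt measurable_const (measurable_pi_apply i)
    rw [hset, ← Measure.map_apply hmap hm, ← Measure.map_apply hmap hm,
      h p s hs fun i => hS _ (hmem i)]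

end Pool.Agent.Helper18.WK.JJ
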