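import Pool.Agent.Helper18.WK.Four

/-!
# Project WK, block WK-D1 (reflection comparison)

`N F n x y`: mass of the free chains from `x` to `y` of length `n` with a cut at a height `≤ 0`. Everything is done
in `ℝ≥0∞`; `refl30` is the recursive comparison of two solutions of the recursion of `G` above the height `0`.
-/

open scoped ENNReal

namespace Pool.Agent.Helper18.WK

/-- Mass of the free chains from `x` to `y` of length `n` with a cut at a height `≤ 0`. -/
noncomputable def N (F : Law) : ℕ → ℤ → ℤ → ℝ≥0∞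
  | 0, x, y => if x ≤ 0 then G (K0 F) 0 x y else 0
  | n + 1, x, y => if x ≤ 0 then G (K0 F) (n + 1) x y else
      ∑ l ∈ Finset.range (n + 1), ∑' z : ℤ, K0 F x (l + 1) z * N F (n - l) z y
termination_by n => n
decreasing_by omega

theorem n_low (F : Law) (n : ℕ) {x : ℤ} (hx : x ≤ 0) (y : ℤ) : N F n x y = G (K0 F) n x y := by
  cases n with
  | zero => rw [N, if_pos hx]
  | succ n => rw [N, if_pos hx]

theorem n_zero (F : Law) {x : ℤ} (hx : 1 ≤ x) (y : ℤ) : N F 0 x y = 0 := by
  rw [N, if_neg (by omega)]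

theorem n_succ (F : Law) (n : ℕ) {x : ℤ} (hx : 1 ≤ x) (y : ℤ) : N F (n + 1) x y =
    ∑ l ∈ Finset.range (n + 1), ∑' z : ℤ, K0 F x (l + 1) z * N F (n - l) z y := by
  rw [N, if_neg (by omega)]

theorem n_le (F : Law) (n : ℕ) (x y : ℤ) : N F n x y ≤ G (K0 F) n x y := by
  induction n using Nat.strong_induction_on generalizing x with
  | _ n ih =>
    rcases le_or_gt x 0 with hx | hx
    · rw [n_low F n hx]
    · cases n with
      | zero =>
        rw [n_zero F (by omega)]
        exact zero_le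
      | succ n =>
        rw [n_succ F n (by omega), G_succ]
        refine Finset.sum_le_sum fun l _ => ENNReal.tsum_le_tsum fun z => ?_
        exact mul_le_mul_right (ih (n - l) (by omega) z) _

theorem n_le_one (F : Law) (n : ℕ) (x y : ℤ) : N F n x y ≤ 1 :=
  (n_le F n x y).trans ((ENNReal.le_tsum y).trans (g_sum_le F n x))

set_option linter.unusedVariables false in
theorem g_kill (F : Law) (n : ℕ) {x y : ℤ} (hx : 1 ≤ x) (hy : 1 ≤ y) :
    G (K0 F) n x y = G (Kp F) n x y + N F n x y := by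
  induction n using Nat.strong_induction_on generalizing x with
  | _ n ih =>
    cases n with
    | zero =>
      rw [n_zero F hx, G_zero, G_zero, add_zero]
    | succ n =>
      rw [n_succ F n hx, G_succ, G_succ, ← Finset.sum_add_distrib]
      refine Finset.sum_congr rfl fun l _ => ?_
      rw [← ENNReal.tsum_add]
      refine tsum_congr fun z => ?_
      rcases le_or_gt z 0 with hz | hz
      · rw [n_low F (n - l) hz]
        have h0 : Kp F x (l + 1) z = 0 := by
          unfold Kp
          rw [if_neg (by omega)]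
        rw [h0, zero_mul, zero_add]
      · have h1 : Kp F x (l + 1) z = K0 F x (l + 1) z := by
          unfold Kp K0
          rw [if_pos ⟨hx, by omega⟩]
        rw [ih (n - l) (by omega) (by omega : 1 ≤ z), h1, mul_add]

theorem n_neg (F : Law) (n : ℕ) {x y : ℤ} (hx : 1 ≤ x) (hy : 1 ≤ y) :
    N F n x (-y) = G (K0 F) n x (-y) := by
  induction n using Nat.strong_induction_on generalizing x with
  | _ n ih =>
    cases n with
    | zero =>
      rw [n_zero F hx, G_zero, if_neg (by omega)]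
    | succ n =>
      rw [n_succ F n hx, G_succ]
      refine Finset.sum_congr rfl fun l _ => tsum_congr fun z => ?_
      rcases le_or_gt z 0 with hz | hz
      · rw [n_low F (n - l) hz]
      · rw [ih (n - l) (by omega) (by omega : 1 ≤ z)]

/-- The mass of all the pieces is one. -/
private theorem mass30 (F : Law) : ∑' l : ℕ, ∑' h : ℤ, ENNReal.ofReal (F.f l h) = 1 := by
  rw [← ENNReal.tsum_prod (f := fun l h => ENNReal.ofReal (F.f l h)),
    ← ENNReal.ofReal_tsum_of_nonneg (f := fun p : ℕ × ℤ => F.f p.1 p.2)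
      (fun p => F.f_nonneg p.1 p.2) F.f_sum.summable, F.f_sum.tsum_eq, ENNReal.ofReal_one]

/-- A weighted sum over the next piece, in terms of the law of the pieces. -/
private theorem piece30 (F : Law) (n : ℕ) (x : ℤ) (w : ℤ → ℝ≥0∞) :
    ∑ l ∈ Finset.range (n + 1), ∑' z : ℤ, K0 F x (l + 1) z * w z ≤
      ∑' l : ℕ, ∑' h : ℤ, ENNReal.ofReal (F.f l h) * w (x + h) := by
  have h1 : ∀ l : ℕ, ∑' z : ℤ, K0 F x (l + 1) z * w z =
      ∑' h : ℤ, ENNReal.ofReal (F.f (l + 1) h) * w (x + h) := by
    intro l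
    rw [← (Equiv.addLeft x).tsum_eq (fun z : ℤ => K0 F x (l + 1) z * w z)]
    refine tsum_congr fun h => ?_
    simp only [Equiv.coe_addLeft, K0, add_sub_cancel_left]
  simp only [h1]
  refine (ENNReal.sum_le_tsum (f := fun l : ℕ => ∑' h : ℤ, ENNReal.ofReal (F.f (l + 1) h) * w (x + h))
    (Finset.range (n + 1))).trans ?_
  exact ENNReal.tsum_comp_le_tsum_of_injective (f := fun l : ℕ => l + 1) (fun a b h => by simpa using h)
    (fun l : ℕ => ∑' h : ℤ, ENNReal.ofReal (F.f l h) * w (x + h))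

/-- Comparison of two solutions of the recursion. -/
private theorem refl30 (F : Law) (A B : ℕ → ℤ → ℝ≥0∞) (n J : ℕ) (S : ℝ≥0∞)
    (hA0 : ∀ x, 1 ≤ x → A 0 x = 0)
    (hA : ∀ m x, 1 ≤ x → A (m + 1) x = ∑ l ∈ Finset.range (m + 1), ∑' z : ℤ, K0 F x (l + 1) z * A (m - l) z)
    (hB : ∀ m x, 1 ≤ x → B (m + 1) x = ∑ l ∈ Finset.range (m + 1), ∑' z : ℤ, K0 F x (l + 1) z * B (m - l) z)
    (h1 : ∀ m x, A m x ≤ 1)
    (hS : ∀ m ≤ n, ∀ z : ℤ, -(J : ℤ) ≤ z → z ≤ 0 → A m z ≤ B m z + S) (m : ℕ) (hm : m ≤ n) (x : ℤ)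
    (hx : 1 ≤ x) :
    A m x ≤ B m x + (S + m * ∑' l : ℕ, ∑' h : ℤ, (if (J : ℤ) < |h| then ENNReal.ofReal (F.f l h) else 0)) := by
  set κ := ∑' l : ℕ, ∑' h : ℤ, (if (J : ℤ) < |h| then ENNReal.ofReal (F.f l h) else 0) with hκ
  induction m using Nat.strong_induction_on generalizing x with
  | _ m ih =>
    cases m with
    | zero =>
      rw [hA0 x hx]
      exact zero_le
    | succ m =>
      have h2 : ∀ l : ℕ, ∀ z : ℤ, A (m - l) z ≤
          B (m - l) z + ((S + m * κ) + (if z < -(J : ℤ) then 1 else 0)) := by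
        intro l z
        rcases le_or_gt z 0 with hz | hz
        · rcases le_or_gt (-(J : ℤ)) z with hz2 | hz2
          · refine (hS (m - l) (by omega) z hz2 hz).trans ?_
            rw [if_neg (by omega), add_zero]
            exact add_le_add_right le_self_add _
          · rw [if_pos hz2]
            refine (h1 (m - l) z).trans ?_
            rw [← add_assoc]
            exact le_add_self
        · rw [if_neg (by omega), add_zero]
          refine (ih (m - l) (by omega) (by omega) z (by omega)).trans ?_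
          refine add_le_add_right (add_le_add_right ?_ _) _
          refine mul_le_mul_left ?_ _
          exact_mod_cast Nat.sub_le m l
      rw [hA m x hx, hB m x hx]
      have h3 : ∑ l ∈ Finset.range (m + 1), ∑' z : ℤ, K0 F x (l + 1) z * A (m - l) z ≤
          ∑ l ∈ Finset.range (m + 1), ∑' z : ℤ, K0 F x (l + 1) z * B (m - l) z +
          (∑ l ∈ Finset.range (m + 1), ∑' z : ℤ, K0 F x (l + 1) z * (S + m * κ) +
           ∑ l ∈ Finset.range (m + 1), ∑' z : ℤ, K0 F x (l + 1) z * (if z < -(J : ℤ) then 1 else 0)) := by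
        rw [← Finset.sum_add_distrib, ← Finset.sum_add_distrib]
        refine Finset.sum_le_sum fun l _ => ?_
        rw [← ENNReal.tsum_add, ← ENNReal.tsum_add]
        refine ENNReal.tsum_le_tsum fun z => ?_
        rw [← mul_add, ← mul_add]
        exact mul_le_mul_right (h2 l z) _
      refine h3.trans (add_le_add_right ?_ _)
      have h4 := piece30 F m x (fun _ => S + m * κ)
      have h5 := piece30 F m x (fun z => if z < -(J : ℤ) then 1 else 0)
      have h7 : ∑' l : ℕ, ∑' h : ℤ, ENNReal.ofReal (F.f l h) * (S + m * κ) = S + m * κ := by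
        simp only [ENNReal.tsum_mul_right, mass30, one_mul]
      rw [h7] at h4
      have h6 : ∑' l : ℕ, ∑' h : ℤ, ENNReal.ofReal (F.f l h) * (if x + h < -(J : ℤ) then 1 else 0) ≤ κ := by
        refine ENNReal.tsum_le_tsum fun l => ENNReal.tsum_le_tsum fun h => ?_
        by_cases hh : x + h < -(J : ℤ)
        · rw [if_pos hh, mul_one, if_pos]
          rw [lt_abs]
          omega
        · rw [if_neg hh, mul_zero]
          exact zero_le
      refine (add_le_add h4 (h5.trans h6)).trans (le_of_eq ?_)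
      push_cast
      ring

set_option linter.unusedVariables false in
theorem refl_le (F : Law) {n J : ℕ} {y : ℤ} (hy : 1 ≤ y) {S : ℝ} (hS0 : 0 ≤ S)
    (hS : ∀ m ≤ n, ∀ j : ℕ, j ≤ J → |U F m (y + j) - U F m (y - j)| ≤ S) {x : ℤ} (hx : 1 ≤ x) :
    |(N F n x y).toReal - (N F n x (-y)).toReal| ≤
      S + n * ∑' l : ℕ, ∑' h : ℤ, (if (J : ℤ) < |h| then F.f l h else 0) := by
  set κ := ∑' l : ℕ, ∑' h : ℤ, (if (J : ℤ) < |h| then F.f l h else 0) with hκ
  have hnn : ∀ p : ℕ × ℤ, 0 ≤ (if (J : ℤ) < |p.2| then F.f p.1 p.2 else 0) := by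
    intro p
    split_ifs
    · exact F.f_nonneg _ _
    · exact le_rfl
  have hsum : Summable fun p : ℕ × ℤ => (if (J : ℤ) < |p.2| then F.f p.1 p.2 else 0) := by
    refine Summable.of_nonneg_of_le hnn (fun p => ?_) F.f_sum.summable
    split_ifs
    · exact le_rfl
    · exact F.f_nonneg _ _
  have hκe : ∑' l : ℕ, ∑' h : ℤ, (if (J : ℤ) < |h| then ENNReal.ofReal (F.f l h) else 0) =
      ENNReal.ofReal κ := by
    rw [hκ, ← hsum.tsum_prod, ENNReal.ofReal_tsum_of_nonneg hnn hsum, ENNReal.tsum_prod']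
    refine tsum_congr fun l => tsum_congr fun h => ?_
    split_ifs
    · rfl
    · rw [ENNReal.ofReal_zero]
  have hκ0 : 0 ≤ κ := by
    rw [hκ, ← hsum.tsum_prod]
    exact tsum_nonneg hnn
  -- the values in the strip
  have hval1 : ∀ (m : ℕ) (z : ℤ), z ≤ 0 → N F m z y = ENNReal.ofReal (U F m (y + (-z).toNat)) := by
    intro m z hz
    rw [n_low F m hz, u_eq]
    congr 2
    omega
  have hval2 : ∀ (m : ℕ) (z : ℤ), z ≤ 0 → N F m z (-y) = ENNReal.ofReal (U F m (y - (-z).toNat)) := by
    intro m z hz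
    rw [n_low F m hz, u_eq, ← u_symm]
    congr 2
    omega
  have hdiff : ∀ a b : ℝ, |a - b| ≤ S → ENNReal.ofReal a ≤ ENNReal.ofReal b + ENNReal.ofReal S := by
    intro a b hab
    refine le_trans (ENNReal.ofReal_le_ofReal ?_) ENNReal.ofReal_add_le
    linarith [le_abs_self (a - b)]
  have hA := refl30 F (fun m x => N F m x y) (fun m x => N F m x (-y)) n J (ENNReal.ofReal S)
    (fun x hx => n_zero F hx y) (fun m x hx => n_succ F m hx y) (fun m x hx => n_succ F m hx (-y))
    (fun m x => n_le_one F m x y)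
    (fun m hm z hz1 hz2 => by
      rw [hval1 m z hz2, hval2 m z hz2]
      exact hdiff _ _ (hS m hm _ (by omega))) n le_rfl x hx
  have hB := refl30 F (fun m x => N F m x (-y)) (fun m x => N F m x y) n J (ENNReal.ofReal S)
    (fun x hx => n_zero F hx (-y)) (fun m x hx => n_succ F m hx (-y)) (fun m x hx => n_succ F m hx y)
    (fun m x => n_le_one F m x (-y))
    (fun m hm z hz1 hz2 => by
      rw [hval1 m z hz2, hval2 m z hz2]
      refine hdiff _ _ ?_
      rw [abs_sub_comm]
      exact hS m hm _ (by omega)) n le_rfl x hx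
  rw [hκe] at hA hB
  have hT : ENNReal.ofReal S + (n : ℝ≥0∞) * ENNReal.ofReal κ = ENNReal.ofReal (S + n * κ) := by
    rw [ENNReal.ofReal_add hS0 (by positivity), ENNReal.ofReal_mul (by positivity), ENNReal.ofReal_natCast]
  rw [hT] at hA hB
  have ht1 : N F n x y ≠ ⊤ := ne_top_of_le_ne_top ENNReal.one_ne_top (n_le_one F n x y)
  have ht2 : N F n x (-y) ≠ ⊤ := ne_top_of_le_ne_top ENNReal.one_ne_top (n_le_one F n x (-y))
  have hT0 : 0 ≤ S + n * κ := by positivity
  have key : ∀ a b : ℝ≥0∞, a ≠ ⊤ → b ≠ ⊤ → a ≤ b + ENNReal.ofReal (S + n * κ) →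
      a.toReal ≤ b.toReal + (S + n * κ) := by
    intro a b ha hb hab
    have h1 := ENNReal.toReal_mono (ENNReal.add_ne_top.2 ⟨hb, ENNReal.ofReal_ne_top⟩) hab
    rwa [ENNReal.toReal_add hb ENNReal.ofReal_ne_top, ENNReal.toReal_ofReal hT0] at h1
  have k1 := key _ _ ht1 ht2 hA
  have k2 := key _ _ ht2 ht1 hB
  rw [abs_le]
  constructor <;> linarith

end Pool.Agent.Helper18.WK
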