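import Pool.Agent.Helper18.WK.Gau
import Pool.Agent.Helper18.WK.Up
import Pool.Agent.Helper18.WK.KillA

/-!
# Project WK, blocks WK-D1 (reflection), WK-D2 (killed local limit theorem)

WK-D1. `N F n x y`: mass of the free chains from `x` to `y` of length `n` with a cut at a height `≤ 0`
(recursion below; for `x ≤ 0` it is `G (K0 F) n x y`). `g_kill`: for `x, y ≥ 1`,
`G (K0 F) n x y = G (Kp F) n x y + N F n x y`; `n_neg`: `N F n x (-y) = G (K0 F) n x (-y)` for `x, y ≥ 1`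
(inductions). `refl_le`: let `D(n, x) = N F n x y - N F n x (-y)` in `ℝ`; for `x ≤ 0`,
`D(n, x) = U F n (y - x) - U F n (y + x)` (`u_eq`, `u_symm`); for `x ≥ 1` `D` satisfies the recursion of `G`. If
`|U F m (y + j) - U F m (y - j)| ≤ S` for all `m ≤ n`, `0 ≤ j ≤ J`, then `|D(n, x)| ≤ S + n κ`,
`κ = ∑_(l, |h| > J) f l h`: induction on `n` (`z ≥ 1`: induction hypothesis; `-J ≤ z ≤ 0`: `S`;
`z < -J`: `|D| ≤ 1`, mass `≤ κ`).

WK-D2, `killed_llt`. `x, y ∈ [ε √n, √n / ε]`, `J = ⌊K log n⌋` so that `n κ ≤ n^(-1)`. `S ≤ η / √n` for `n` large: for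
`m ≥ d n`: `llt` for `y + j` and `y - j` and uniform continuity of `gau`; for `m < d n`: `u_gauss`,
`|y ± j| ≥ ε √n / 2`: `≤ C m^(-1/2) exp (-c ε² n / m) ≤ η / √n` if `d` is small (`m = 0`: `U F 0 h = 0` for `h ≠ 0`).
Then `G (Kp F) n x y = U F n (y - x) - U F n (y + x) + O(η / √n)` and `llt`.
-/

open scoped ENNReal

namespace Pool.Agent.Helper18.WK

/-! ### Helper lemmas for `killed_llt` -/

private lemma kl_exp_inv6 {u : ℝ} (hu : 0 < u) : Real.exp (-u) ≤ 1 / u := by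
  rw [Real.exp_neg, ← one_div]
  exact one_div_le_one_div_of_le hu (by linarith [Real.add_one_le_exp u])

private lemma kl_exp_sq6 {u : ℝ} (hu : 0 < u) : Real.exp (-u) ≤ 2 / u ^ 2 := by
  have h1 := Real.quadratic_le_exp_of_nonneg hu.le
  rw [Real.exp_neg, ← one_div, div_le_div_iff₀ (Real.exp_pos _) (by positivity)]
  nlinarith

private lemma kl_exp_sub6 {p q : ℝ} (hp : 0 ≤ p) (hq : 0 ≤ q) :
    |Real.exp (-p) - Real.exp (-q)| ≤ |p - q| := by
  have key : ∀ p q : ℝ, 0 ≤ p → p ≤ q → |Real.exp (-p) - Real.exp (-q)| ≤ |p - q| := by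
    intro p q hp hpq
    have h1 : Real.exp (-q) ≤ Real.exp (-p) := Real.exp_le_exp.2 (by linarith)
    have h2 : Real.exp (-p) ≤ 1 := Real.exp_le_one_iff.2 (by linarith)
    have h3 : Real.exp (-q) = Real.exp (-p) * Real.exp (-(q - p)) := by
      rw [← Real.exp_add]
      congr 1
      ring
    have h4 : 1 - (q - p) ≤ Real.exp (-(q - p)) := by linarith [Real.add_one_le_exp (-(q - p))]
    have h5 : 0 < Real.exp (-p) := Real.exp_pos _
    rw [abs_of_nonneg (by linarith), abs_of_nonpos (by linarith), h3]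
    have h6 : Real.exp (-p) * (1 - (q - p)) ≤ Real.exp (-p) * Real.exp (-(q - p)) :=
      mul_le_mul_of_nonneg_left h4 h5.le
    have h7 : Real.exp (-p) * (q - p) ≤ 1 * (q - p) :=
      mul_le_mul_of_nonneg_right h2 (by linarith)
    linarith
  rcases le_total p q with h | h
  · exact key p q hp h
  · rw [abs_sub_comm, abs_sub_comm p q]
    exact key q p hq h

private lemma kl_w6 (K : ℝ) : ∀ᶠ n : ℕ in Filter.atTop, K ≤ Real.sqrt (Real.sqrt n) :=
  (Real.tendsto_sqrt_atTop.comp (Real.tendsto_sqrt_atTop.comp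
    tendsto_natCast_atTop_atTop)).eventually_ge_atTop K

private lemma kl_s6 (K : ℝ) : ∀ᶠ n : ℕ in Filter.atTop, K ≤ Real.sqrt n :=
  (Real.tendsto_sqrt_atTop.comp tendsto_natCast_atTop_atTop).eventually_ge_atTop K

/-- small lengths -/
private lemma kl_small6 (F : Law) (ε : ℝ) (hε : 0 < ε) : ∃ d : ℝ, 0 < d ∧
    ∀ᶠ n : ℕ in Filter.atTop, ∀ m : ℕ, 1 ≤ m → (m : ℝ) < d * n → ∀ h : ℤ,
      ε * Real.sqrt n / 2 ≤ |(h : ℝ)| → U F m h ≤ ε / 4 / Real.sqrt n := by
  obtain ⟨C, c, hC, hc, hU⟩ := u_gauss F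
  obtain ⟨c', hc'def⟩ : ∃ c' : ℝ, c' = c * ε ^ 2 / (4 * (1 + ε / 2)) := ⟨_, rfl⟩
  have hc' : 0 < c' := by rw [hc'def]; positivity
  refine ⟨(ε * c' / (4 * C)) ^ 2, by positivity, ?_⟩
  filter_upwards [kl_s6 (8 * C / (ε * c' ^ 2)), kl_s6 1] with n hn1 hn2 m hm hmd h hh
  set s := Real.sqrt n with hs
  have hs0 : 0 < s := by linarith
  have hss : s ^ 2 = n := Real.sq_sqrt (Nat.cast_nonneg n)
  have hm1 : (1 : ℝ) ≤ m := by exact_mod_cast hm
  have hsm1 : 1 ≤ Real.sqrt m := by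
    rw [Real.one_le_sqrt]
    exact hm1
  have hT : 0 < ε * s / 2 := by positivity
  have hmono : (ε * s / 2) ^ 2 / (m + ε * s / 2) ≤ (h : ℝ) ^ 2 / (m + |(h : ℝ)|) := by
    rw [← sq_abs (h : ℝ)]
    set t := |(h : ℝ)| with ht
    set T := ε * s / 2 with hTd
    have ht0 : 0 < t := lt_of_lt_of_le hT hh
    rw [div_le_div_iff₀ (by positivity) (by positivity)]
    have h1 : T ^ 2 ≤ t ^ 2 := pow_le_pow_left₀ hT.le hh 2
    have h2 : T ^ 2 * m ≤ t ^ 2 * m := mul_le_mul_of_nonneg_right h1 (by linarith)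
    have h3 : t * T * T ≤ t * T * t := mul_le_mul_of_nonneg_left hh (by positivity)
    nlinarith
  have hexp : ∀ u : ℝ, u ≤ c * ((ε * s / 2) ^ 2 / (m + ε * s / 2)) →
      U F m h ≤ C / Real.sqrt m * Real.exp (-u) := by
    intro u hu
    refine (hU m h hm).trans (mul_le_mul_of_nonneg_left (Real.exp_le_exp.2 ?_) (by positivity))
    have h1 : c * ((ε * s / 2) ^ 2 / (m + ε * s / 2)) ≤ c * ((h : ℝ) ^ 2 / (m + |(h : ℝ)|)) :=
      mul_le_mul_of_nonneg_left hmono hc.le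
    have h2 : -c * (h : ℝ) ^ 2 / (m + |(h : ℝ)|) = -(c * ((h : ℝ) ^ 2 / (m + |(h : ℝ)|))) := by ring
    rw [h2]
    linarith
  by_cases hcase : s ≤ m
  · have h1 : c' * s ^ 2 / m ≤ c * ((ε * s / 2) ^ 2 / (m + ε * s / 2)) := by
      rw [hc'def, ← mul_div_assoc, div_le_div_iff₀ (by positivity) (by positivity)]
      have h2 : m + ε * s / 2 ≤ m * (1 + ε / 2) := by nlinarith
      have h3 : c * ε ^ 2 / (4 * (1 + ε / 2)) * s ^ 2 * (m + ε * s / 2) ≤
          c * ε ^ 2 / (4 * (1 + ε / 2)) * s ^ 2 * (m * (1 + ε / 2)) :=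
        mul_le_mul_of_nonneg_left h2 (by positivity)
      refine h3.trans (le_of_eq ?_)
      field_simp
      ring
    have h2 := hexp _ h1
    have hu0 : 0 < c' * s ^ 2 / m := by positivity
    have h3 : C / Real.sqrt m * Real.exp (-(c' * s ^ 2 / m)) ≤ C / Real.sqrt m * (1 / (c' * s ^ 2 / m)) :=
      mul_le_mul_of_nonneg_left (kl_exp_inv6 hu0) (by positivity)
    have h4 : C / Real.sqrt m * (1 / (c' * s ^ 2 / m)) = C * Real.sqrt m / (c' * s ^ 2) := by
      have h5 : (m : ℝ) = Real.sqrt m ^ 2 := (Real.sq_sqrt (by linarith)).symm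
      have h6 : 0 < Real.sqrt m := by linarith
      generalize Real.sqrt m = r at h5 h6
      rw [h5]
      field_simp
    have h5 : Real.sqrt m ≤ ε * c' / (4 * C) * s := by
      rw [Real.sqrt_le_left (by positivity), mul_pow, hss]
      exact hmd.le
    have h6 : C * Real.sqrt m / (c' * s ^ 2) ≤ ε / 4 / s := by
      rw [div_le_div_iff₀ (by positivity) hs0]
      have h7 : C * Real.sqrt m ≤ C * (ε * c' / (4 * C) * s) := mul_le_mul_of_nonneg_left h5 hC.le
      have h8 : C * (ε * c' / (4 * C) * s) = ε / 4 * c' * s := by field_simp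
      rw [h8] at h7
      have h9 := mul_le_mul_of_nonneg_right h7 hs0.le
      nlinarith
    linarith
  · rw [not_le] at hcase
    have h1 : c' * s ≤ c * ((ε * s / 2) ^ 2 / (m + ε * s / 2)) := by
      rw [hc'def, ← mul_div_assoc, le_div_iff₀ (by positivity)]
      have h2 : m + ε * s / 2 ≤ s * (1 + ε / 2) := by nlinarith
      have h3 : c * ε ^ 2 / (4 * (1 + ε / 2)) * s * (m + ε * s / 2) ≤
          c * ε ^ 2 / (4 * (1 + ε / 2)) * s * (s * (1 + ε / 2)) :=
        mul_le_mul_of_nonneg_left h2 (by positivity)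
      refine h3.trans (le_of_eq ?_)
      field_simp
      ring
    have h2 := hexp _ h1
    have h3 : C / Real.sqrt m * Real.exp (-(c' * s)) ≤ C / 1 * (2 / (c' * s) ^ 2) :=
      mul_le_mul (div_le_div_of_nonneg_left hC.le one_pos hsm1) (kl_exp_sq6 (by positivity))
        (Real.exp_pos _).le (by positivity)
    have h4 : C / 1 * (2 / (c' * s) ^ 2) ≤ ε / 4 / s := by
      rw [div_one, ← mul_div_assoc, div_le_div_iff₀ (by positivity) hs0]
      rw [div_le_iff₀ (by positivity)] at hn1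
      have h5 := mul_le_mul_of_nonneg_right hn1 hs0.le
      nlinarith
    linarith

/-- large lengths -/
private lemma kl_large6 (F : Law) (ε d : ℝ) (hε : 0 < ε) (hd : 0 < d) :
    ∀ᶠ n : ℕ in Filter.atTop, ∀ m : ℕ, d * n ≤ m → ∀ (y : ℤ) (j : ℕ),
      0 ≤ (y : ℝ) → (y : ℝ) ≤ Real.sqrt n / ε → (j : ℝ) ≤ Real.sqrt (Real.sqrt n) + 1 →
      |U F m (y + j) - U F m (y - j)| ≤ ε / 4 / Real.sqrt n := by
  have hsd : 0 < Real.sqrt d := Real.sqrt_pos.2 hd
  obtain ⟨n₂, hn₂⟩ := llt F (ε * Real.sqrt d / 16) (by positivity)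
  have hv := s2_pos F
  have hmu := mu_pos F
  set v := s2 F with hvd
  obtain ⟨D, hD⟩ : ∃ D : ℝ, D = Real.sqrt (2 * Real.pi * v) := ⟨_, rfl⟩
  have hD0 : 0 < D := by
    rw [hD]
    exact Real.sqrt_pos.2 (by positivity)
  filter_upwards [kl_w6 (32 / (ε ^ 2 * d * Real.sqrt d * v * D)), kl_w6 1, kl_s6 (n₂ / d), kl_s6 1]
    with n h1 h2 h3 h4 m hm y j hy0 hy hj
  set s := Real.sqrt n with hs
  set w := Real.sqrt s with hw
  have hs0 : 0 < s := by linarith
  have hw0 : 0 < w := by linarith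
  have hss : s ^ 2 = n := Real.sq_sqrt (Nat.cast_nonneg n)
  have hww : w ^ 2 = s := Real.sq_sqrt hs0.le
  have hmn2 : n₂ ≤ m := by
    have h5 : (n₂ : ℝ) ≤ m := by
      rw [div_le_iff₀ hd] at h3
      have h6 : s * d ≤ s * d * s := le_mul_of_one_le_right (by positivity) h4
      have h7 : d * n = s * d * s := by rw [← hss]; ring
      linarith
    exact_mod_cast h5
  have hmpos : (0 : ℝ) < m := by
    have h5 : 0 < d * s ^ 2 := by positivity
    rw [hss] at h5
    linarith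
  obtain ⟨r, hr⟩ : ∃ r : ℝ, r = Real.sqrt m := ⟨_, rfl⟩
  have hr0 : 0 < r := by rw [hr]; exact Real.sqrt_pos.2 hmpos
  have hrr : r ^ 2 = m := by rw [hr]; exact Real.sq_sqrt hmpos.le
  have hrs : Real.sqrt d * s ≤ r := by
    rw [hr, hs, ← Real.sqrt_mul hd.le]
    exact Real.sqrt_le_sqrt hm
  have e1 := hn₂ m hmn2 (y + j)
  have e2 := hn₂ m hmn2 (y - j)
  rw [← hr] at e1 e2
  push_cast at e1 e2
  have hg : |gau v ((y + j) / r) - gau v ((y - j) / r)| ≤ ε * Real.sqrt d / 8 := by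
    unfold gau
    rw [← hD, ← sub_div, abs_div, abs_of_pos hD0, div_le_iff₀ hD0]
    refine (kl_exp_sub6 (by positivity) (by positivity)).trans ?_
    have h5 : (((y : ℝ) + j) / r) ^ 2 / (2 * v) - (((y : ℝ) - j) / r) ^ 2 / (2 * v) = 2 * (y * j) / (m * v) := by
      rw [← hrr]
      field_simp
      ring
    rw [h5, abs_of_nonneg (by positivity), div_le_iff₀ (by positivity)]
    have h6 : (y : ℝ) * j ≤ s / ε * (w + 1) := mul_le_mul hy hj (Nat.cast_nonneg j) (by positivity)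
    have h7 : s / ε * (w + 1) ≤ s / ε * (2 * w) := mul_le_mul_of_nonneg_left (by linarith) (by positivity)
    have h8 : 4 * s * w / ε ≤ ε * Real.sqrt d / 8 * D * (d * s ^ 2 * v) := by
      rw [div_le_iff₀ (by positivity)] at h1
      rw [div_le_iff₀ hε]
      have h9 : s * w * 32 ≤ s * w * (w * (ε ^ 2 * d * Real.sqrt d * v * D)) :=
        mul_le_mul_of_nonneg_left h1 (by positivity)
      have h10 : s * w * (w * (ε ^ 2 * d * Real.sqrt d * v * D)) = s * w ^ 2 * (ε ^ 2 * d * Real.sqrt d * v * D) := by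
        ring
      rw [h10, hww] at h9
      nlinarith
    have h9 : ε * Real.sqrt d / 8 * D * (d * s ^ 2 * v) ≤ ε * Real.sqrt d / 8 * D * (m * v) := by
      refine mul_le_mul_of_nonneg_left ?_ (by positivity)
      refine mul_le_mul_of_nonneg_right ?_ hv.le
      rw [hss]
      exact hm
    have h10 : 2 * (s / ε * (2 * w)) = 4 * s * w / ε := by ring
    linarith
  have hmu0 : 0 < mu F := by linarith
  have hg' : |gau v ((y + j) / r) / mu F - gau v ((y - j) / r) / mu F| ≤ ε * Real.sqrt d / 8 := by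
    rw [← sub_div, abs_div, abs_of_pos hmu0]
    exact (div_le_self (abs_nonneg _) hmu).trans hg
  have hkey : r * |U F m (y + j) - U F m (y - j)| ≤ ε * Real.sqrt d / 4 := by
    have habs : r * |U F m (y + j) - U F m (y - j)| = |r * (U F m (y + j) - U F m (y - j))| := by
      rw [abs_mul, abs_of_pos hr0]
    rw [habs]
    have e1' := abs_le.1 e1
    have e2' := abs_le.1 e2
    have e3' := abs_le.1 hg'
    rw [abs_le]
    constructor <;> nlinarith
  rw [div_div, le_div_iff₀ (by positivity)]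
  have h5 : Real.sqrt d * s * |U F m (y + j) - U F m (y - j)| ≤ r * |U F m (y + j) - U F m (y - j)| :=
    mul_le_mul_of_nonneg_right hrs (abs_nonneg _)
  have h6 : Real.sqrt d * (s * |U F m (y + j) - U F m (y - j)|) ≤ Real.sqrt d * (ε / 4) := by
    calc _ = Real.sqrt d * s * |U F m (y + j) - U F m (y - j)| := by ring
      _ ≤ _ := h5.trans hkey
      _ = _ := by ring
  have h7 := le_of_mul_le_mul_left h6 hsd
  linarith

private lemma kl_geo6 {b : ℝ} (hb : 0 < b) : Summable fun h : ℤ => Real.exp (-b * |(h : ℝ)|) := by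
  have h1 : Summable fun n : ℕ => Real.exp (n * -b) := Real.summable_exp_nat_mul_iff.2 (by linarith)
  refine Summable.of_nat_of_neg ?_ ?_
  · refine h1.congr fun n => ?_
    rw [Int.cast_natCast, abs_of_nonneg (Nat.cast_nonneg n)]
    congr 1
    ring
  · refine h1.congr fun n => ?_
    rw [Int.cast_neg, Int.cast_natCast, abs_neg, abs_of_nonneg (Nat.cast_nonneg n)]
    congr 1
    ring

/-- the tail of the heights -/
private lemma kl_kappa6 (F : Law) : ∃ A : ℝ, 0 < A ∧ ∀ J : ℕ,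
    ∑' l : ℕ, ∑' h : ℤ, (if (J : ℤ) < |h| then F.f l h else 0) ≤ A * Real.exp (-(F.a / 2) * J) := by
  have ha := F.a_pos
  have hB := F.B_pos
  have hg : Summable fun h : ℤ => Real.exp (-(F.a / 2) * |(h : ℝ)|) := kl_geo6 (by positivity)
  have hl : Summable fun l : ℕ => Real.exp (l * -F.a) := Real.summable_exp_nat_mul_iff.2 (by linarith)
  set H := ∑' h : ℤ, Real.exp (-(F.a / 2) * |(h : ℝ)|) with hH
  set E := ∑' l : ℕ, Real.exp (l * -F.a) with hE
  have hH0 : 0 ≤ H := tsum_nonneg fun _ => (Real.exp_pos _).le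
  have hE0 : 0 ≤ E := tsum_nonneg fun _ => (Real.exp_pos _).le
  refine ⟨F.B * E * H + 1, by positivity, fun J => ?_⟩
  have hin : ∀ l : ℕ, ∀ h : ℤ, (if (J : ℤ) < |h| then F.f l h else 0) ≤
      F.B * Real.exp (l * -F.a) * Real.exp (-(F.a / 2) * J) * Real.exp (-(F.a / 2) * |(h : ℝ)|) := by
    intro l h
    split_ifs with hJ
    · refine (F.f_tail l h).trans ?_
      have h1 : (J : ℝ) ≤ |(h : ℝ)| := by
        have : ((J : ℤ) : ℝ) ≤ ((|h| : ℤ) : ℝ) := by exact_mod_cast hJ.le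
        rw [Int.cast_abs] at this
        exact_mod_cast this
      rw [mul_assoc, mul_assoc, ← Real.exp_add, ← Real.exp_add]
      refine mul_le_mul_of_nonneg_left (Real.exp_le_exp.2 ?_) hB.le
      nlinarith
    · positivity
  have hnn : ∀ l : ℕ, ∀ h : ℤ, 0 ≤ (if (J : ℤ) < |h| then F.f l h else 0) := by
    intro l h
    split_ifs
    · exact F.f_nonneg l h
    · exact le_rfl
  have hs1 : ∀ l : ℕ, Summable fun h : ℤ =>
      F.B * Real.exp (l * -F.a) * Real.exp (-(F.a / 2) * J) * Real.exp (-(F.a / 2) * |(h : ℝ)|) :=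
    fun l => hg.mul_left _
  have hs2 : ∀ l : ℕ, Summable fun h : ℤ => (if (J : ℤ) < |h| then F.f l h else 0) :=
    fun l => Summable.of_nonneg_of_le (hnn l) (hin l) (hs1 l)
  have hin2 : ∀ l : ℕ, ∑' h : ℤ, (if (J : ℤ) < |h| then F.f l h else 0) ≤
      F.B * Real.exp (-(F.a / 2) * J) * H * Real.exp (l * -F.a) := by
    intro l
    refine ((hs2 l).tsum_le_tsum (hin l) (hs1 l)).trans (le_of_eq ?_)
    rw [tsum_mul_left, ← hH]
    ring
  have hs3 : Summable fun l : ℕ => F.B * Real.exp (-(F.a / 2) * J) * H * Real.exp (l * -F.a) :=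
    hl.mul_left _
  have hs4 : Summable fun l : ℕ => ∑' h : ℤ, (if (J : ℤ) < |h| then F.f l h else 0) :=
    Summable.of_nonneg_of_le (fun l => tsum_nonneg (hnn l)) hin2 hs3
  refine (hs4.tsum_le_tsum hin2 hs3).trans ?_
  rw [tsum_mul_left, ← hE]
  have h1 := Real.exp_pos (-(F.a / 2) * J)
  nlinarith

private lemma kl_tail6 (F : Law) (ε : ℝ) (hε : 0 < ε) : ∀ᶠ n : ℕ in Filter.atTop, ∀ J : ℕ,
    Real.sqrt (Real.sqrt n) ≤ J →
    Real.sqrt n * (n * ∑' l : ℕ, ∑' h : ℤ, (if (J : ℤ) < |h| then F.f l h else 0)) ≤ ε / 4 := by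
  obtain ⟨A, hA, hk⟩ := kl_kappa6 F
  have ha := F.a_pos
  obtain ⟨b, hb⟩ : ∃ b : ℝ, b = F.a / 2 := ⟨_, rfl⟩
  have hb0 : 0 < b := by rw [hb]; positivity
  filter_upwards [kl_w6 (20160 * A / (ε * b ^ 7)), kl_w6 1] with n h1 h2 J hJ
  have hs0' : 0 ≤ Real.sqrt n := Real.sqrt_nonneg _
  set w := Real.sqrt (Real.sqrt n) with hw
  have hw0 : 0 < w := by linarith
  have hww : w ^ 2 = Real.sqrt n := Real.sq_sqrt hs0'
  have hw4 : w ^ 4 = n := by
    rw [show w ^ 4 = (w ^ 2) ^ 2 by ring, hww]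
    exact Real.sq_sqrt (Nat.cast_nonneg n)
  rw [← hww, ← hw4]
  have h3 : ∑' l : ℕ, ∑' h : ℤ, (if (J : ℤ) < |h| then F.f l h else 0) ≤ A * Real.exp (-(b * w)) := by
    refine (hk J).trans (mul_le_mul_of_nonneg_left (Real.exp_le_exp.2 ?_) hA.le)
    rw [← hb]
    nlinarith
  have h4 : Real.exp (-(b * w)) ≤ 5040 / (b * w) ^ 7 := by
    have h5 := Real.pow_div_factorial_le_exp (b * w) (by positivity) 7
    rw [Real.exp_neg, ← one_div, div_le_div_iff₀ (Real.exp_pos _) (by positivity)]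
    rw [div_le_iff₀ (by positivity)] at h5
    have h6 : ((Nat.factorial 7 : ℕ) : ℝ) = 5040 := by norm_num [Nat.factorial]
    rw [h6] at h5
    linarith
  have h5 : w ^ 2 * (w ^ 4 * ∑' l : ℕ, ∑' h : ℤ, (if (J : ℤ) < |h| then F.f l h else 0)) ≤
      w ^ 2 * (w ^ 4 * (A * (5040 / (b * w) ^ 7))) := by
    refine mul_le_mul_of_nonneg_left (mul_le_mul_of_nonneg_left ?_ (by positivity)) (by positivity)
    exact h3.trans (mul_le_mul_of_nonneg_left h4 hA.le)
  refine h5.trans ?_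
  have h6 : w ^ 2 * (w ^ 4 * (A * (5040 / (b * w) ^ 7))) = 5040 * A / (b ^ 7 * w) := by
    field_simp
  rw [h6, div_le_iff₀ (by positivity)]
  rw [div_le_iff₀ (by positivity)] at h1
  nlinarith

private lemma kl_zero6 (F : Law) {h : ℤ} (hh : h ≠ 0) : U F 0 h = 0 := by
  rw [U, G_zero, if_neg (Ne.symm hh)]
  simp

/-- **Killed local limit theorem.** -/
theorem killed_llt (F : Law) (ε : ℝ) (hε : 0 < ε) : ∃ n₀ : ℕ, ∀ n ≥ n₀, ∀ x y : ℤ,
    ε * Real.sqrt n ≤ x → (x : ℝ) ≤ Real.sqrt n / ε → ε * Real.sqrt n ≤ y → (y : ℝ) ≤ Real.sqrt n / ε →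
    |Real.sqrt n * (G (Kp F) n x y).toReal - (gau (s2 F) ((y - x) / Real.sqrt n) -
      gau (s2 F) ((y + x) / Real.sqrt n)) / mu F| ≤ ε := by
  obtain ⟨d, hd, hsmall⟩ := kl_small6 F ε hε
  obtain ⟨n₂, hn₂⟩ := llt F (ε / 4) (by positivity)
  obtain ⟨n₀, hn₀⟩ := Filter.eventually_atTop.1 (hsmall.and ((kl_large6 F ε d hε hd).and
    ((kl_tail6 F ε hε).and ((kl_w6 (4 / ε)).and (kl_w6 1)))))
  refine ⟨max n₀ n₂, fun n hn x y hx1 hx2 hy1 hy2 => ?_⟩
  obtain ⟨hS, hL, hT, hw1, hw2⟩ := hn₀ n ((le_max_left _ _).trans hn)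
  have e1 := hn₂ n ((le_max_right _ _).trans hn) (y - x)
  have e2 := hn₂ n ((le_max_right _ _).trans hn) (y + x)
  push_cast at e1 e2
  have hs0' : 0 ≤ Real.sqrt n := Real.sqrt_nonneg _
  obtain ⟨w, hw⟩ : ∃ w : ℝ, w = Real.sqrt (Real.sqrt n) := ⟨_, rfl⟩
  rw [← hw] at hw1 hw2
  have hw0 : 0 < w := by linarith
  have hww : w ^ 2 = Real.sqrt n := by rw [hw]; exact Real.sq_sqrt hs0'
  have hs0 : 0 < Real.sqrt n := by rw [← hww]; positivity
  have hws : w + 1 ≤ ε * Real.sqrt n / 2 := by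
    rw [← hww]
    rw [div_le_iff₀ hε] at hw1
    nlinarith
  have hx : 1 ≤ x := by
    have h1 : (0 : ℝ) < x := lt_of_lt_of_le (by positivity) hx1
    have h2 : 0 < x := by exact_mod_cast h1
    omega
  have hy0 : (0 : ℝ) < y := lt_of_lt_of_le (by positivity) hy1
  have hy : 1 ≤ y := by
    have h2 : 0 < y := by exact_mod_cast hy0
    omega
  obtain ⟨J, hJ⟩ : ∃ J : ℕ, J = ⌈w⌉₊ := ⟨_, rfl⟩
  have hJ1 : w ≤ J := by rw [hJ]; exact Nat.le_ceil w
  have hJ2 : (J : ℝ) ≤ w + 1 := by rw [hJ]; exact (Nat.ceil_lt_add_one hw0.le).le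
  have hrefl := refl_le F (n := n) (J := J) hy (S := ε / 4 / Real.sqrt n) (by positivity) (by
    intro m hm j hj
    have hjR : (j : ℝ) ≤ w + 1 := by
      have : (j : ℝ) ≤ J := by exact_mod_cast hj
      linarith
    have h1 : ε * Real.sqrt n / 2 ≤ (y : ℝ) - j := by linarith
    have h2 : ε * Real.sqrt n / 2 ≤ (y : ℝ) + j := by
      have : (0 : ℝ) ≤ j := Nat.cast_nonneg j
      linarith
    have hpos : 0 < ε * Real.sqrt n / 2 := by positivity
    rcases Nat.eq_zero_or_pos m with rfl | hm0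
    · have h3 : (y + j : ℤ) ≠ 0 := by
        have : (0 : ℝ) < ((y + j : ℤ) : ℝ) := by push_cast; linarith
        have : (0 : ℤ) < y + j := by exact_mod_cast this
        omega
      have h4 : (y - j : ℤ) ≠ 0 := by
        have : (0 : ℝ) < ((y - j : ℤ) : ℝ) := by push_cast; linarith
        have : (0 : ℤ) < y - j := by exact_mod_cast this
        omega
      rw [kl_zero6 F h3, kl_zero6 F h4, sub_zero, abs_zero]
      positivity
    · by_cases hmd : (m : ℝ) < d * n
      · have h3 := hS m hm0 hmd (y + j) (by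
          push_cast
          exact h2.trans (le_abs_self _))
        have h4 := hS m hm0 hmd (y - j) (by
          push_cast
          exact h1.trans (le_abs_self _))
        have h5 := u_nonneg F m (y + j)
        have h6 := u_nonneg F m (y - j)
        rw [abs_le]
        constructor <;> linarith
      · exact hL m (not_lt.1 hmd) y j hy0.le hy2 (by rw [← hw]; exact hjR)) hx
  have hkap := hT J (by rw [← hw]; exact hJ1)
  -- the killed mass in terms of `U`
  have hu1 : U F n (y - x) = (G (Kp F) n x y).toReal + (N F n x y).toReal := by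
    have h1 := g_kill F n hx hy
    rw [u_eq] at h1
    have h2 : G (Kp F) n x y + N F n x y ≠ ⊤ := by
      rw [← h1]
      exact ENNReal.ofReal_ne_top
    have h3 : G (Kp F) n x y ≠ ⊤ := fun h => h2 (by rw [h, top_add])
    have h4 : N F n x y ≠ ⊤ := fun h => h2 (by rw [h, add_top])
    rw [← ENNReal.toReal_add h3 h4, ← h1, ENNReal.toReal_ofReal (u_nonneg F n _)]
  have hu2 : (N F n x (-y)).toReal = U F n (y + x) := by
    rw [n_neg F n hx hy, u_eq, ENNReal.toReal_ofReal (u_nonneg F n _), ← u_symm]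
    congr 1
    ring
  rw [hu2] at hrefl
  set A1 := (G (Kp F) n x y).toReal
  set N1 := (N F n x y).toReal
  set κ := ∑' l : ℕ, ∑' h : ℤ, (if (J : ℤ) < |h| then F.f l h else 0)
  rw [hu1] at e1
  have h5 : Real.sqrt n * |N1 - U F n (y + x)| ≤ ε / 2 := by
    have h6 := mul_le_mul_of_nonneg_left hrefl hs0.le
    have h7 : Real.sqrt n * (ε / 4 / Real.sqrt n + n * κ) = ε / 4 + Real.sqrt n * (n * κ) := by
      rw [mul_add, mul_div_cancel₀ _ hs0.ne']
    rw [h7] at h6
    linarith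
  have h6 : |Real.sqrt n * (N1 - U F n (y + x))| ≤ ε / 2 := by
    rw [abs_mul, abs_of_pos hs0]
    exact h5
  rw [sub_div]
  have e1' := abs_le.1 e1
  have e2' := abs_le.1 e2
  have e3' := abs_le.1 h6
  rw [abs_le]
  constructor <;> nlinarith

end Pool.Agent.Helper18.WK
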