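import Pool.Agent.Helper18.WK.Four

/-!
# Project WK, block WK-C3: domination of `Phi`

`|phi F l0 t| ≤ len F l0 - c' t²` for `|t| ≤ π`: upper side `phi ≤ len - 2 f l0 1 (1 - cos t)` and
`1 - cos t ≥ 2 t² / π²`; lower side `phi ≥ - len + 2 f l0 0 ≥ - len + (2 f l0 0 / π²) t²`. Then induction on `n`:
`|Phi (n+1) t| ≤ ∑_l |phi (l+1) t| exp (-c (n - l) t²) ≤ exp (-c (n+1) t²) ∑_l |phi (l+1) t| exp (c (l+1) t²)` and
`∑_l |phi l t| exp (γ l) ≤ ∑ len l exp (γ l) - c' t² ≤ 1 + C γ - c' t² ≤ 1` with `γ = c t²`, `c` small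
(`γ ≤ a / 2`, `exp (γ l) ≤ 1 + γ l exp (γ l)`, `len_tail`).
-/

open scoped ENNReal
open MeasureTheory Filter

namespace Pool.Agent.Helper18.WK

private theorem c3_cos_summable (F : Law) (l : ℕ) (t : ℝ) :
    Summable fun h : ℤ => F.f l h * Real.cos (t * h) := by
  refine Summable.of_norm_bounded (f_summable F l) fun h => ?_
  rw [Real.norm_eq_abs, abs_mul, abs_of_nonneg (F.f_nonneg l h)]
  exact mul_le_of_le_one_right (F.f_nonneg l h) (Real.abs_cos_le_one _)

private theorem c3_upper (F : Law) (l : ℕ) (t : ℝ) (ht : |t| ≤ Real.pi) :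
    phi F l t ≤ len F l - F.f l 1 * (2 / Real.pi ^ 2) * t ^ 2 := by
  have hs : Summable fun h : ℤ => F.f l h * (1 - Real.cos (t * h)) := by
    have := (f_summable F l).sub (c3_cos_summable F l t)
    refine this.congr fun h => ?_
    ring
  have h1 : F.f l 1 * (1 - Real.cos (t * ((1 : ℤ) : ℝ))) ≤ ∑' h : ℤ, F.f l h * (1 - Real.cos (t * h)) :=
    hs.le_tsum 1 fun h _ => mul_nonneg (F.f_nonneg l h) (by linarith [Real.cos_le_one (t * h)])
  have h2 : ∑' h : ℤ, F.f l h * (1 - Real.cos (t * h)) = len F l - phi F l t := by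
    rw [len, phi, ← (f_summable F l).tsum_sub (c3_cos_summable F l t)]
    refine tsum_congr fun h => ?_
    ring
  have h3 := Real.cos_le_one_sub_mul_cos_sq ht
  have h4 : F.f l 1 * (2 / Real.pi ^ 2 * t ^ 2) ≤ F.f l 1 * (1 - Real.cos (t * ((1 : ℤ) : ℝ))) := by
    refine mul_le_mul_of_nonneg_left ?_ (F.f_nonneg l 1)
    simp only [Int.cast_one, mul_one]
    linarith
  rw [h2] at h1
  have h5 : F.f l 1 * (2 / Real.pi ^ 2) * t ^ 2 = F.f l 1 * (2 / Real.pi ^ 2 * t ^ 2) := by ring
  have h6 := h4.trans h1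
  rw [h5]
  linarith only [h6]

private theorem c3_lower (F : Law) (l : ℕ) (t : ℝ) (ht : |t| ≤ Real.pi) :
    -phi F l t ≤ len F l - F.f l 0 * (2 / Real.pi ^ 2) * t ^ 2 := by
  have hs : Summable fun h : ℤ => F.f l h * (1 + Real.cos (t * h)) := by
    have := (f_summable F l).add (c3_cos_summable F l t)
    refine this.congr fun h => ?_
    ring
  have h1 : F.f l 0 * (1 + Real.cos (t * ((0 : ℤ) : ℝ))) ≤ ∑' h : ℤ, F.f l h * (1 + Real.cos (t * h)) :=
    hs.le_tsum 0 fun h _ => mul_nonneg (F.f_nonneg l h) (by linarith [Real.neg_one_le_cos (t * h)])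
  have h2 : ∑' h : ℤ, F.f l h * (1 + Real.cos (t * h)) = len F l + phi F l t := by
    rw [len, phi, ← (f_summable F l).tsum_add (c3_cos_summable F l t)]
    refine tsum_congr fun h => ?_
    ring
  have h3 : 2 / Real.pi ^ 2 * t ^ 2 ≤ 2 := by
    have h5 : t ^ 2 ≤ Real.pi ^ 2 := sq_le_sq' (by linarith [abs_le.mp ht]) (abs_le.mp ht).2
    have h6 : 0 < Real.pi ^ 2 := by positivity
    rw [div_mul_eq_mul_div, div_le_iff₀ h6]
    linarith
  have h4 : F.f l 0 * (2 / Real.pi ^ 2 * t ^ 2) ≤ F.f l 0 * (1 + Real.cos (t * ((0 : ℤ) : ℝ))) := by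
    refine mul_le_mul_of_nonneg_left ?_ (F.f_nonneg l 0)
    simp only [Int.cast_zero, mul_zero, Real.cos_zero]
    linarith
  rw [h2] at h1
  have h5 : F.f l 0 * (2 / Real.pi ^ 2) * t ^ 2 = F.f l 0 * (2 / Real.pi ^ 2 * t ^ 2) := by ring
  have h6 := h4.trans h1
  rw [h5]
  linarith only [h6]

private theorem c3_exp (x : ℝ) : Real.exp x ≤ 1 + x * Real.exp x := by
  have h := Real.add_one_le_exp (-x)
  have h1 : Real.exp x * (-x + 1) ≤ Real.exp x * Real.exp (-x) :=
    mul_le_mul_of_nonneg_left h (Real.exp_pos x).le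
  rw [← Real.exp_add, add_neg_cancel, Real.exp_zero] at h1
  linarith

theorem phi_dom (F : Law) : ∃ c : ℝ, 0 < c ∧ ∀ (n : ℕ) (t : ℝ), |t| ≤ Real.pi →
    |Phi F n t| ≤ Real.exp (-c * n * t ^ 2) := by
  obtain ⟨C, hC, htail⟩ := len_tail F
  have ha := F.a_pos
  set c' : ℝ := min (F.f F.l0 1) (F.f F.l0 0) * (2 / Real.pi ^ 2) with hc'
  have hpi : 0 < Real.pi ^ 2 := by positivity
  have hc'pos : 0 < c' := mul_pos (lt_min F.f_l01 F.f_l0) (by positivity)
  have hl0 : ∀ t : ℝ, |t| ≤ Real.pi → |phi F F.l0 t| ≤ len F F.l0 - c' * t ^ 2 := by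
    intro t ht
    have h0 : 0 ≤ 2 / Real.pi ^ 2 * t ^ 2 := by positivity
    refine abs_le.mpr ⟨?_, ?_⟩
    · have h1 := c3_lower F F.l0 t ht
      have h2 : min (F.f F.l0 1) (F.f F.l0 0) * (2 / Real.pi ^ 2 * t ^ 2) ≤
          F.f F.l0 0 * (2 / Real.pi ^ 2 * t ^ 2) := mul_le_mul_of_nonneg_right (min_le_right _ _) h0
      have h3 : c' * t ^ 2 = min (F.f F.l0 1) (F.f F.l0 0) * (2 / Real.pi ^ 2 * t ^ 2) := by
        rw [hc']; ring
      linarith
    · have h1 := c3_upper F F.l0 t ht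
      have h2 : min (F.f F.l0 1) (F.f F.l0 0) * (2 / Real.pi ^ 2 * t ^ 2) ≤
          F.f F.l0 1 * (2 / Real.pi ^ 2 * t ^ 2) := mul_le_mul_of_nonneg_right (min_le_left _ _) h0
      have h3 : c' * t ^ 2 = min (F.f F.l0 1) (F.f F.l0 0) * (2 / Real.pi ^ 2 * t ^ 2) := by
        rw [hc']; ring
      linarith
  -- the weights
  set w : ℕ → ℝ := fun l => C * ((l : ℝ) ^ 1 * Real.exp (-(F.a / 2) * l)) with hw
  have hwsum : Summable w := (Real.summable_pow_mul_exp_neg_nat_mul 1 (half_pos ha)).mul_left C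
  have hw0 : ∀ l, 0 ≤ w l := fun l => by
    rw [hw]; positivity
  set S : ℝ := ∑' l, w l with hS
  have hS0 : 0 ≤ S := tsum_nonneg hw0
  set c : ℝ := min (F.a / 2 / Real.pi ^ 2) (c' / (S + 1)) with hc
  have hcpos : 0 < c := lt_min (by positivity) (by positivity)
  refine ⟨c, hcpos, ?_⟩
  -- the key estimate
  have key : ∀ (t : ℝ), |t| ≤ Real.pi → ∀ n : ℕ,
      ∑ l ∈ Finset.range (n + 1), |phi F (l + 1) t| * Real.exp (c * t ^ 2 * ((l + 1 : ℕ) : ℝ)) ≤ 1 := by
    intro t ht n
    set γ : ℝ := c * t ^ 2 with hγ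
    have ht2 : t ^ 2 ≤ Real.pi ^ 2 := sq_le_sq' (by linarith [abs_le.mp ht]) (abs_le.mp ht).2
    have hγ0 : 0 ≤ γ := by positivity
    have hγa : γ ≤ F.a / 2 := by
      have h1 : γ ≤ F.a / 2 / Real.pi ^ 2 * Real.pi ^ 2 :=
        mul_le_mul (min_le_left _ _) ht2 (by positivity) (by positivity)
      rwa [div_mul_cancel₀ _ hpi.ne'] at h1
    have hlen : ∀ l : ℕ, len F l * Real.exp (γ * l) ≤ len F l + γ * w l := by
      intro l
      have hx : 0 ≤ γ * (l : ℝ) := by positivity
      have h1 := c3_exp (γ * (l : ℝ))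
      have h2 : len F l * Real.exp (γ * l) ≤ len F l * (1 + γ * l * Real.exp (γ * l)) :=
        mul_le_mul_of_nonneg_left h1 (len_nonneg F l)
      have h3 : len F l * (γ * l * Real.exp (γ * l)) ≤ γ * w l := by
        have h4 : len F l * Real.exp (γ * l) ≤ C * Real.exp (-(F.a / 2) * l) := by
          calc len F l * Real.exp (γ * l) ≤ (C * Real.exp (-F.a * l)) * Real.exp (F.a / 2 * l) := by
                refine mul_le_mul (htail l) (Real.exp_le_exp.mpr ?_) (Real.exp_pos _).le (by positivity)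
                exact mul_le_mul_of_nonneg_right hγa (Nat.cast_nonneg l)
            _ = C * Real.exp (-(F.a / 2) * l) := by
                rw [mul_assoc, ← Real.exp_add]
                congr 2
                ring
        calc len F l * (γ * l * Real.exp (γ * l)) = (γ * l) * (len F l * Real.exp (γ * l)) := by ring
          _ ≤ (γ * l) * (C * Real.exp (-(F.a / 2) * l)) := mul_le_mul_of_nonneg_left h4 hx
          _ = γ * w l := by rw [hw]; simp only [pow_one]; ring
      linarith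
    set g : ℕ → ℝ := fun l => |phi F l t| * Real.exp (γ * l) with hg
    have hg0 : ∀ l, 0 ≤ g l := fun l => by rw [hg]; positivity
    have hgb : ∀ l, g l ≤ (len F l + γ * w l) - (if l = F.l0 then c' * t ^ 2 else 0) := by
      intro l
      by_cases hl : l = F.l0
      · subst hl
        rw [if_pos rfl]
        have h1 : g F.l0 ≤ (len F F.l0 - c' * t ^ 2) * Real.exp (γ * F.l0) :=
          mul_le_mul_of_nonneg_right (hl0 t ht) (Real.exp_pos _).le
        have h2 : c' * t ^ 2 ≤ c' * t ^ 2 * Real.exp (γ * F.l0) := by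
          have : (1 : ℝ) ≤ Real.exp (γ * F.l0) := Real.one_le_exp (by positivity)
          have h5 : 0 ≤ c' * t ^ 2 := by positivity
          nlinarith
        have h3 := hlen F.l0
        calc g F.l0 ≤ (len F F.l0 - c' * t ^ 2) * Real.exp (γ * F.l0) := h1
          _ = len F F.l0 * Real.exp (γ * F.l0) - c' * t ^ 2 * Real.exp (γ * F.l0) := by ring
          _ ≤ _ := by linarith
      · rw [if_neg hl, sub_zero]
        exact (mul_le_mul_of_nonneg_right (phi_abs F l t) (Real.exp_pos _).le).trans (hlen l)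
    have hsb : HasSum (fun l => (len F l + γ * w l) - (if l = F.l0 then c' * t ^ 2 else 0))
        ((1 + γ * S) - c' * t ^ 2) :=
      ((len_sum F).add (hwsum.hasSum.mul_left γ)).sub (hasSum_ite_eq F.l0 (c' * t ^ 2))
    have hgs : Summable g := Summable.of_nonneg_of_le hg0 hgb hsb.summable
    have hg1 : ∑' l, g l ≤ 1 := by
      have h1 : ∑' l, g l ≤ (1 + γ * S) - c' * t ^ 2 := hasSum_le hgb hgs.hasSum hsb
      have h2 : c * S ≤ c' := by
        have h3 : c ≤ c' / (S + 1) := min_le_right _ _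
        have h4 : c * (S + 1) ≤ c' := by rwa [le_div_iff₀ (by positivity)] at h3
        nlinarith
      have h5 : γ * S ≤ c' * t ^ 2 := by
        have : γ * S = (c * S) * t ^ 2 := by rw [hγ]; ring
        rw [this]
        exact mul_le_mul_of_nonneg_right h2 (by positivity)
      linarith
    have h1 : ∑ l ∈ Finset.range (n + 1 + 1), g l ≤ ∑' l, g l := hgs.sum_le_tsum _ fun l _ => hg0 l
    rw [Finset.sum_range_succ'] at h1
    have h2 := hg0 0
    have h3 : ∑ l ∈ Finset.range (n + 1), |phi F (l + 1) t| * Real.exp (γ * ((l + 1 : ℕ) : ℝ))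
        = ∑ l ∈ Finset.range (n + 1), g (l + 1) := rfl
    rw [h3]
    linarith
  intro n
  induction n using Nat.strong_induction_on with
  | _ n ih =>
    intro t ht
    rcases n with _ | n
    · rw [Phi]; simp
    · rw [Phi]
      have h1 : |∑ l ∈ Finset.range (n + 1), phi F (l + 1) t * Phi F (n - l) t| ≤
          ∑ l ∈ Finset.range (n + 1), |phi F (l + 1) t| * Real.exp (-c * ((n - l : ℕ) : ℝ) * t ^ 2) := by
        refine (Finset.abs_sum_le_sum_abs _ _).trans (Finset.sum_le_sum fun l hl => ?_)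
        rw [abs_mul]
        exact mul_le_mul_of_nonneg_left (ih (n - l) (by omega) t ht) (abs_nonneg _)
      refine h1.trans ?_
      have h2 : ∀ l ∈ Finset.range (n + 1), |phi F (l + 1) t| * Real.exp (-c * ((n - l : ℕ) : ℝ) * t ^ 2) =
          Real.exp (-c * ((n + 1 : ℕ) : ℝ) * t ^ 2) *
            (|phi F (l + 1) t| * Real.exp (c * t ^ 2 * ((l + 1 : ℕ) : ℝ))) := by
        intro l hl
        have hl' : l ≤ n := by
          have := Finset.mem_range.mp hl
          omega
        rw [mul_left_comm, ← Real.exp_add]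
        congr 2
        push_cast [Nat.cast_sub hl']
        ring
      rw [Finset.sum_congr rfl h2, ← Finset.mul_sum]
      exact mul_le_of_le_one_right (Real.exp_pos _).le (key t ht n)

end Pool.Agent.Helper18.WK
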