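import Pool.Agent.Helper18.WK.PhiL
import Pool.Agent.Helper18.WK.PhiD

/-!
# Project WK, block WK-C5: the local limit theorem

`u_le`: `u_int`, `phi_dom`, `∫ exp (-c n t²) dt = √(π / (c n))`. `llt`: by `u_int` and the substitution
`t = s / √n`, `√n U F n h = (1 / 2π) ∫_(|s| ≤ π √n) Phi F n (s / √n) cos (s h / √n) ds`, and
`gau v y = (1 / 2π) ∫ exp (-v s² / 2) cos (s y) ds` (`fourierIntegral_gaussian` or
`integral_cexp_quadratic`-like lemmas of Mathlib). The difference is at most
`(1 / 2π) ∫ |1_{|s| ≤ π √n} Phi F n (s / √n) - exp (-v s² / 2) / mu| ds`, independent of `h`, which tends to `0` by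
dominated convergence (`phi_lim`, `phi_dom`: dominated by `exp (-c s²) + exp (-v s²/2) / mu`).
-/

open scoped ENNReal
open MeasureTheory Filter

namespace Pool.Agent.Helper18.WK

theorem phi_cont99 (F : Law) (l : ℕ) : Continuous (phi F l) := by
  unfold phi
  refine continuous_tsum (u := F.f l) (fun h => ?_) (f_summable F l) fun h t => ?_
  · fun_prop
  · rw [Real.norm_eq_abs, abs_mul, abs_of_nonneg (F.f_nonneg l h)]
    exact mul_le_of_le_one_right (F.f_nonneg l h) (Real.abs_cos_le_one _)

theorem Phi_cont99 (F : Law) (n : ℕ) : Continuous (Phi F n) := by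
  induction n using Nat.strong_induction_on with
  | _ n ih =>
    rcases n with _ | n
    · have : Phi F 0 = fun _ => (1 : ℝ) := funext fun t => by rw [Phi]
      rw [this]
      exact continuous_const
    · have : Phi F (n + 1) = fun t => ∑ l ∈ Finset.range (n + 1), phi F (l + 1) t * Phi F (n - l) t :=
        funext fun t => by rw [Phi]
      rw [this]
      refine continuous_finsetSum _ fun l _ => ?_
      exact (phi_cont99 F (l + 1)).mul (ih (n - l) (by omega))

theorem u_le (F : Law) : ∃ C : ℝ, 0 < C ∧ ∀ (n : ℕ) (h : ℤ), 1 ≤ n → U F n h ≤ C / Real.sqrt n := by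
  obtain ⟨c, hc, hdom⟩ := phi_dom F
  have hpi := Real.pi_pos
  refine ⟨(1 / (2 * Real.pi)) * Real.sqrt (Real.pi / c), by positivity, fun n h hn => ?_⟩
  have hn' : (0 : ℝ) < n := by exact_mod_cast hn
  have hcn : 0 < c * n := by positivity
  rw [u_int F n h, mul_div_assoc]
  refine mul_le_mul_of_nonneg_left ?_ (by positivity)
  have h1 : ∫ t in (-Real.pi)..Real.pi, Phi F n t * Real.cos (t * h) ≤
      ∫ t in (-Real.pi)..Real.pi, Real.exp (-(c * n) * t ^ 2) := by
    refine intervalIntegral.integral_mono_on (by linarith) ?_ ?_ fun t ht => ?_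
    · refine Continuous.intervalIntegrable ?_ _ _
      have := Phi_cont99 F n
      fun_prop
    · refine Continuous.intervalIntegrable ?_ _ _
      fun_prop
    · have h2 := hdom n t (abs_le.mpr ⟨by linarith [ht.1], ht.2⟩)
      calc Phi F n t * Real.cos (t * h) ≤ |Phi F n t * Real.cos (t * h)| := le_abs_self _
        _ ≤ |Phi F n t| := by
            rw [abs_mul]
            exact mul_le_of_le_one_right (abs_nonneg _) (Real.abs_cos_le_one _)
        _ ≤ Real.exp (-(c * n) * t ^ 2) := by
            refine h2.trans (le_of_eq ?_)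
            congr 1
            ring
  refine h1.trans ?_
  rw [intervalIntegral.integral_of_le (by linarith)]
  have hint : Integrable fun t : ℝ => Real.exp (-(c * n) * t ^ 2) := integrable_exp_neg_mul_sq hcn
  refine (setIntegral_le_integral hint (Eventually.of_forall fun t => (Real.exp_pos _).le)).trans ?_
  rw [integral_gaussian]
  rw [← div_div, Real.sqrt_div (by positivity)]

theorem gau_int99 (v y : ℝ) (hv : 0 < v) :
    gau v y = (1 / (2 * Real.pi)) * ∫ s : ℝ, Real.exp (-(v * s ^ 2 / 2)) * Real.cos (s * y) := by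
  have hpi := Real.pi_pos
  have hb : 0 < ((v / 2 : ℝ) : ℂ).re := by simp [hv]
  have h1 := fourierIntegral_gaussian hb (y : ℂ)
  have hint : Integrable fun x : ℝ => Complex.exp (Complex.I * (y : ℂ) * x) *
      Complex.exp (-((v / 2 : ℝ) : ℂ) * (x : ℂ) ^ 2) := by
    have h2 : Integrable fun x : ℝ => Real.exp (-(v / 2) * x ^ 2) := integrable_exp_neg_mul_sq (by positivity)
    refine h2.mono' (by fun_prop) (Eventually.of_forall fun x => ?_)
    rw [norm_mul, Complex.norm_exp, Complex.norm_exp]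
    have e1 : (Complex.I * (y : ℂ) * x).re = 0 := by
      have : Complex.I * (y : ℂ) * x = ((y * x : ℝ) : ℂ) * Complex.I := by push_cast; ring
      rw [this]; simp
    have e2 : (-((v / 2 : ℝ) : ℂ) * (x : ℂ) ^ 2).re = -(v / 2) * x ^ 2 := by
      have : -((v / 2 : ℝ) : ℂ) * (x : ℂ) ^ 2 = ((-(v / 2) * x ^ 2 : ℝ) : ℂ) := by push_cast; ring
      rw [this, Complex.ofReal_re]
    rw [e1, e2, Real.exp_zero, one_mul]
  have h3 := integral_re hint
  rw [h1] at h3
  have e3 : ∀ x : ℝ, RCLike.re (Complex.exp (Complex.I * (y : ℂ) * x) *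
      Complex.exp (-((v / 2 : ℝ) : ℂ) * (x : ℂ) ^ 2)) = Real.exp (-(v * x ^ 2 / 2)) * Real.cos (x * y) := by
    intro x
    have e4 : Complex.exp (Complex.I * (y : ℂ) * x) * Complex.exp (-((v / 2 : ℝ) : ℂ) * (x : ℂ) ^ 2) =
        Complex.exp (((-(v * x ^ 2 / 2) : ℝ) : ℂ) + ((x * y : ℝ) : ℂ) * Complex.I) := by
      rw [← Complex.exp_add]
      congr 1
      push_cast
      ring
    rw [e4]
    change (Complex.exp _).re = _
    rw [Complex.exp_re]
    have e8 : (((-(v * x ^ 2 / 2) : ℝ) : ℂ) + ((x * y : ℝ) : ℂ) * Complex.I).re = -(v * x ^ 2 / 2) := by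
      rw [Complex.add_re, Complex.ofReal_re, Complex.re_ofReal_mul, Complex.I_re, mul_zero, add_zero]
    have e9 : (((-(v * x ^ 2 / 2) : ℝ) : ℂ) + ((x * y : ℝ) : ℂ) * Complex.I).im = x * y := by
      rw [Complex.add_im, Complex.ofReal_im, Complex.im_ofReal_mul, Complex.I_im, mul_one, zero_add]
    rw [e8, e9]
  simp only [e3] at h3
  have e5 : RCLike.re (((Real.pi : ℂ) / ((v / 2 : ℝ) : ℂ)) ^ (1 / 2 : ℂ) *
      Complex.exp (-(y : ℂ) ^ 2 / (4 * ((v / 2 : ℝ) : ℂ)))) =
      Real.sqrt (2 * Real.pi / v) * Real.exp (-(y ^ 2 / (2 * v))) := by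
    have e6 : ((Real.pi : ℂ) / ((v / 2 : ℝ) : ℂ)) ^ (1 / 2 : ℂ) = ((Real.sqrt (2 * Real.pi / v) : ℝ) : ℂ) := by
      rw [Real.sqrt_eq_rpow, Complex.ofReal_cpow (by positivity)]
      congr 1
      · push_cast
        field_simp
      · push_cast
        ring
    have e7 : Complex.exp (-(y : ℂ) ^ 2 / (4 * ((v / 2 : ℝ) : ℂ))) =
        ((Real.exp (-(y ^ 2 / (2 * v))) : ℝ) : ℂ) := by
      rw [Complex.ofReal_exp]
      congr 1
      push_cast
      field_simp
      ring
    rw [e6, e7, ← Complex.ofReal_mul]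
    exact Complex.ofReal_re _
  rw [e5] at h3
  rw [h3]
  unfold gau
  have h4 : Real.sqrt (2 * Real.pi / v) * Real.sqrt (2 * Real.pi * v) = 2 * Real.pi := by
    rw [← Real.sqrt_mul (by positivity)]
    have : 2 * Real.pi / v * (2 * Real.pi * v) = (2 * Real.pi) ^ 2 := by
      field_simp
    rw [this, Real.sqrt_sq (by positivity)]
  have h5 : 0 < Real.sqrt (2 * Real.pi * v) := Real.sqrt_pos.mpr (by positivity)
  rw [div_eq_iff h5.ne']
  have h6 : 1 / (2 * Real.pi) * (Real.sqrt (2 * Real.pi / v) * Real.exp (-(y ^ 2 / (2 * v)))) *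
      Real.sqrt (2 * Real.pi * v) = 1 / (2 * Real.pi) * (Real.sqrt (2 * Real.pi / v) *
      Real.sqrt (2 * Real.pi * v)) * Real.exp (-(y ^ 2 / (2 * v))) := by ring
  rw [h6, h4]
  field_simp

/-- The integrand after the substitution. -/
noncomputable def dif99 (F : Law) (n : ℕ) (s : ℝ) : ℝ :=
  (Set.Ioc (-(Real.pi * Real.sqrt n)) (Real.pi * Real.sqrt n)).indicator
    (fun s => Phi F n (s / Real.sqrt n)) s - Real.exp (-(s2 F * s ^ 2 / 2)) / mu F

theorem dif_meas99 (F : Law) (n : ℕ) : Measurable (dif99 F n) := by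
  unfold dif99
  refine Measurable.sub (Measurable.indicator ?_ measurableSet_Ioc) ?_
  · exact ((Phi_cont99 F n).comp (continuous_id.div_const _)).measurable
  · fun_prop

theorem dif_dom99 (F : Law) : ∃ g : ℝ → ℝ, Integrable g ∧ ∀ (n : ℕ) (s : ℝ), |dif99 F n s| ≤ g s := by
  obtain ⟨c, hc, hdom⟩ := phi_dom F
  have hmu : 0 < mu F := lt_of_lt_of_le one_pos (mu_pos F)
  have hs2 := s2_pos F
  refine ⟨fun s => Real.exp (-c * s ^ 2) + Real.exp (-(s2 F / 2) * s ^ 2) / mu F, ?_, fun n s => ?_⟩
  · exact (integrable_exp_neg_mul_sq hc).add ((integrable_exp_neg_mul_sq (by positivity)).div_const _)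
  · unfold dif99
    refine (abs_sub _ _).trans (add_le_add ?_ ?_)
    · rw [Set.indicator_apply]
      split_ifs with hs
      · rcases Nat.eq_zero_or_pos n with rfl | hn
        · exfalso
          rw [Nat.cast_zero, Real.sqrt_zero, mul_zero, neg_zero] at hs
          exact absurd hs.1 (not_lt.mpr hs.2)
        · have hn' : (0 : ℝ) < n := by exact_mod_cast hn
          have hr : 0 < Real.sqrt n := Real.sqrt_pos.mpr hn'
          have h1 : |s / Real.sqrt n| ≤ Real.pi := by
            rw [abs_div, abs_of_pos hr, div_le_iff₀ hr]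
            exact abs_le.mpr ⟨hs.1.le, hs.2⟩
          refine (hdom n _ h1).trans (le_of_eq ?_)
          congr 1
          rw [div_pow, Real.sq_sqrt hn'.le]
          field_simp
      · simp [Real.exp_nonneg]
    · rw [abs_of_nonneg (by positivity)]
      refine le_of_eq ?_
      congr 2
      ring

theorem dif_lim99 (F : Law) : Tendsto (fun n : ℕ => ∫ s : ℝ, |dif99 F n s|) atTop (nhds 0) := by
  obtain ⟨g, hg, hdom⟩ := dif_dom99 F
  have h0 : (0 : ℝ) = ∫ _s : ℝ, (0 : ℝ) := by simp
  rw [h0]
  refine tendsto_integral_of_dominated_convergence g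
    (fun n => (dif_meas99 F n).abs.aestronglyMeasurable) hg
    (fun n => Eventually.of_forall fun s => by
      rw [Real.norm_eq_abs, abs_abs]
      exact hdom n s) (Eventually.of_forall fun s => ?_)
  have h1 := (phi_lim F s).sub_const (Real.exp (-(s2 F * s ^ 2 / 2)) / mu F)
  rw [sub_self] at h1
  have h2 := h1.abs
  rw [abs_zero] at h2
  refine h2.congr' ?_
  have h3 : Tendsto (fun n : ℕ => Real.pi * Real.sqrt n) atTop atTop :=
    Tendsto.const_mul_atTop Real.pi_pos
      (Real.tendsto_sqrt_atTop.comp tendsto_natCast_atTop_atTop)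
  filter_upwards [h3.eventually_gt_atTop |s|] with n hn
  unfold dif99
  rw [Set.indicator_of_mem]
  exact ⟨by linarith [neg_abs_le s], by linarith [le_abs_self s]⟩

/-- **Local limit theorem.** -/
theorem llt (F : Law) (ε : ℝ) (hε : 0 < ε) : ∃ n₀ : ℕ, ∀ n ≥ n₀, ∀ h : ℤ,
    |Real.sqrt n * U F n h - gau (s2 F) (h / Real.sqrt n) / mu F| ≤ ε := by
  have hpi := Real.pi_pos
  have hmu : 0 < mu F := lt_of_lt_of_le one_pos (mu_pos F)
  have hs2 := s2_pos F
  obtain ⟨g, hg, hdom⟩ := dif_dom99 F
  obtain ⟨n₁, hn₁⟩ := eventually_atTop.mp ((dif_lim99 F).eventually_lt_const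
    (show 0 < 2 * Real.pi * ε by positivity))
  refine ⟨max n₁ 1, fun n hn h => ?_⟩
  have hn1 : n₁ ≤ n := le_trans (le_max_left _ _) hn
  have hn2 : 1 ≤ n := le_trans (le_max_right _ _) hn
  have hn' : (0 : ℝ) < n := by exact_mod_cast hn2
  set r : ℝ := Real.sqrt n with hr
  have hr0 : 0 < r := Real.sqrt_pos.mpr hn'
  -- the free part
  have h1 : r * U F n h = (1 / (2 * Real.pi)) * ∫ s : ℝ,
      (Set.Ioc (-(Real.pi * r)) (Real.pi * r)).indicator (fun s => Phi F n (s / r)) s *
        Real.cos (s * (h / r)) := by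
    rw [u_int F n h, mul_left_comm]
    congr 1
    have e1 := intervalIntegral.integral_comp_div (a := -(Real.pi * r)) (b := Real.pi * r)
      (fun t => Phi F n t * Real.cos (t * h)) hr0.ne'
    rw [neg_div, mul_div_cancel_right₀ _ hr0.ne', smul_eq_mul] at e1
    rw [← e1, intervalIntegral.integral_of_le (by nlinarith), ← integral_indicator measurableSet_Ioc]
    refine integral_congr_ae (Eventually.of_forall fun s => ?_)
    simp only [Set.indicator_apply]
    split_ifs with hs
    · congr 2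
      field_simp
    · rw [zero_mul]
  have h2 : gau (s2 F) (h / r) / mu F = (1 / (2 * Real.pi)) * ∫ s : ℝ,
      Real.exp (-(s2 F * s ^ 2 / 2)) / mu F * Real.cos (s * (h / r)) := by
    rw [gau_int99 _ _ hs2, mul_div_assoc]
    congr 1
    rw [div_eq_mul_inv, ← integral_mul_const]
    refine integral_congr_ae (Eventually.of_forall fun s => ?_)
    simp only
    ring
  have hi2 : Integrable fun s : ℝ => Real.exp (-(s2 F * s ^ 2 / 2)) / mu F * Real.cos (s * (h / r)) := by
    have h3 : Integrable fun s : ℝ => Real.exp (-(s2 F / 2) * s ^ 2) / mu F :=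
      (integrable_exp_neg_mul_sq (by positivity)).div_const _
    refine h3.mono' (by fun_prop) (Eventually.of_forall fun s => ?_)
    rw [norm_mul, Real.norm_eq_abs, Real.norm_eq_abs, abs_of_nonneg (by positivity)]
    refine (mul_le_of_le_one_right (by positivity) (Real.abs_cos_le_one _)).trans (le_of_eq ?_)
    congr 2
    ring
  have hi1 : Integrable fun s : ℝ => dif99 F n s * Real.cos (s * (h / r)) := by
    refine hg.mono' ?_ (Eventually.of_forall fun s => ?_)
    · exact ((dif_meas99 F n).mul (by fun_prop)).aestronglyMeasurable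
    · rw [norm_mul, Real.norm_eq_abs, Real.norm_eq_abs]
      exact (mul_le_of_le_one_right (abs_nonneg _) (Real.abs_cos_le_one _)).trans (hdom n s)
  have h4 : r * U F n h - gau (s2 F) (h / r) / mu F =
      (1 / (2 * Real.pi)) * ∫ s : ℝ, dif99 F n s * Real.cos (s * (h / r)) := by
    have h5 : ∫ s : ℝ, (Set.Ioc (-(Real.pi * r)) (Real.pi * r)).indicator (fun s => Phi F n (s / r)) s *
        Real.cos (s * (h / r)) = (∫ s : ℝ, dif99 F n s * Real.cos (s * (h / r))) +
        ∫ s : ℝ, Real.exp (-(s2 F * s ^ 2 / 2)) / mu F * Real.cos (s * (h / r)) := by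
      rw [← integral_add hi1 hi2]
      refine integral_congr_ae (Eventually.of_forall fun s => ?_)
      simp only [dif99, ← hr]
      ring
    rw [h1, h2, h5]
    ring
  rw [h4, abs_mul, abs_of_pos (show 0 < 1 / (2 * Real.pi) by positivity)]
  have h6 : |∫ s : ℝ, dif99 F n s * Real.cos (s * (h / r))| ≤ ∫ s : ℝ, |dif99 F n s| := by
    refine (abs_integral_le_integral_abs).trans ?_
    refine integral_mono hi1.abs ?_ fun s => ?_
    · refine hg.mono' (dif_meas99 F n).abs.aestronglyMeasurable (Eventually.of_forall fun s => ?_)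
      rw [Real.norm_eq_abs, abs_abs]
      exact hdom n s
    · simp only
      rw [abs_mul]
      exact mul_le_of_le_one_right (abs_nonneg _) (Real.abs_cos_le_one _)
  have h7 := (hn₁ n hn1).le
  calc 1 / (2 * Real.pi) * |∫ s : ℝ, dif99 F n s * Real.cos (s * (h / r))|
      ≤ 1 / (2 * Real.pi) * (2 * Real.pi * ε) :=
        mul_le_mul_of_nonneg_left (h6.trans h7) (by positivity)
    _ = ε := by field_simp

end Pool.Agent.Helper18.WK
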