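import Pool.Agent.Helper18.WK.LstB

/-!
# Project WK, block WK-H5: a stopped prefix, a stopped suffix, and a middle part

`three_phi`: the chains `c₁ ++ (c₂ ++ rv y c₃)` with stopped `c₁` (from `x`), stopped `c₃` (from `y`, reversed) and
`ce (ce x c₁) c₂ = ce y c₃` are different for different triples (`stp_unique`; for the suffix apply `rv x` to the
chain: `rv x (c₁ ++ (c₂ ++ rv y c₃)) = c₃ ++ ...`), their weight is the product (`cw_append`, `cw_rv`).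
`three_ge`: `Φ = 1`, `sc_one`.
-/

open scoped ENNReal Classical

namespace Pool.Agent.Helper18.WK

/-- the triples: stopped prefix, stopped reversed suffix, middle part -/
private def Tri52 (S S' : ℕ → ℤ → Prop) (n : ℕ) (x y : ℤ) : Set (Ch × Ch × Ch) :=
  {p | (Stp S 0 x p.1 ∧ Stp S' 0 y p.2.1 ∧ cl p.1 + cl p.2.1 ≤ n) ∧
    cl p.2.2 = n - cl p.1 - cl p.2.1 ∧ ce (ce x p.1) p.2.2 = ce y p.2.1}

private theorem rv_glue52 (x y : ℤ) (c₁ c₂ c₃ : Ch) (h : ce (ce x c₁) c₂ = ce y c₃) :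
    rv x (c₁ ++ (c₂ ++ rv y c₃)) = c₃ ++ (rv (ce x c₁) c₂ ++ rv x c₁) := by
  rw [rv_append, rv_append, h, rv_rv, List.append_assoc]

private theorem cw_rv52 (K : Ker) (y : ℤ) (c : Ch) : cw K (ce y c) (rv y c) = cw (Kr K) y c :=
  cw_rv (Kr K) y c

private theorem glue_inj52 (S S' : ℕ → ℤ → Prop) (n : ℕ) (x y : ℤ) :
    Function.Injective fun p : Tri52 S S' n x y =>
      (p : Ch × Ch × Ch).1 ++ ((p : Ch × Ch × Ch).2.2 ++ rv y (p : Ch × Ch × Ch).2.1) := by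
  rintro ⟨⟨c₁, c₃, c₂⟩, ⟨h1, h3, _⟩, _, he⟩ ⟨⟨d₁, d₃, d₂⟩, ⟨g1, g3, _⟩, _, ge⟩ h
  simp only at h h1 h3 he g1 g3 ge
  have e1 : c₁ = d₁ := stp_unique h h1 g1
  have e3 : c₃ = d₃ := by
    have h4 := congrArg (rv x) h
    rw [rv_glue52 x y c₁ c₂ c₃ he, rv_glue52 x y d₁ d₂ d₃ ge] at h4
    exact stp_unique h4 h3 g3
  subst e1
  subst e3
  have e2 : c₂ = d₂ := List.append_cancel_right (List.append_cancel_left h)
  subst e2
  rfl

theorem three_phi (K : Ker) (S S' : ℕ → ℤ → Prop) (n : ℕ) (x y : ℤ) (Φ : Ch → ℝ≥0∞) :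
    ∑' c₁ : Ch, ∑' c₃ : Ch, (if Stp S 0 x c₁ ∧ Stp S' 0 y c₃ ∧ cl c₁ + cl c₃ ≤ n then
      cw K x c₁ * Sc K (n - cl c₁ - cl c₃) (ce x c₁) (ce y c₃) (fun c₂ => Φ (c₁ ++ (c₂ ++ rv y c₃))) *
        cw (Kr K) y c₃ else 0) ≤ Sc K n x y Φ := by
  set F : Ch → ℝ≥0∞ := fun c => if cl c = n ∧ ce x c = y then cw K x c * Φ c else 0 with hF
  have h1 : ∀ c₁ c₃ : Ch, (if Stp S 0 x c₁ ∧ Stp S' 0 y c₃ ∧ cl c₁ + cl c₃ ≤ n then
      cw K x c₁ * Sc K (n - cl c₁ - cl c₃) (ce x c₁) (ce y c₃) (fun c₂ => Φ (c₁ ++ (c₂ ++ rv y c₃))) *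
        cw (Kr K) y c₃ else 0) =
      ∑' c₂ : Ch, (if ((c₁, c₃, c₂) : Ch × Ch × Ch) ∈ Tri52 S S' n x y then
        F (c₁ ++ (c₂ ++ rv y c₃)) else 0) := by
    intro c₁ c₃
    by_cases h : Stp S 0 x c₁ ∧ Stp S' 0 y c₃ ∧ cl c₁ + cl c₃ ≤ n
    · rw [if_pos h, Sc, ← ENNReal.tsum_mul_left, ← ENNReal.tsum_mul_right]
      refine tsum_congr fun c₂ => ?_
      by_cases h2 : cl c₂ = n - cl c₁ - cl c₃ ∧ ce (ce x c₁) c₂ = ce y c₃
      · have h3 : ((c₁, c₃, c₂) : Ch × Ch × Ch) ∈ Tri52 S S' n x y := ⟨h, h2⟩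
        have h4 : cl (c₁ ++ (c₂ ++ rv y c₃)) = n ∧ ce x (c₁ ++ (c₂ ++ rv y c₃)) = y := by
          refine ⟨?_, ?_⟩
          · rw [cl_append, cl_append, cl_rv, h2.1]
            have := h.2.2
            omega
          · rw [ce_append, ce_append, h2.2, ce_rv]
        rw [if_pos h2, if_pos h3, hF]
        simp only
        rw [if_pos h4, cw_append, cw_append, h2.2, cw_rv52]
        ring
      · have h3 : ((c₁, c₃, c₂) : Ch × Ch × Ch) ∉ Tri52 S S' n x y := fun h3 => h2 h3.2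
        rw [if_neg h2, if_neg h3, mul_zero, zero_mul]
    · rw [if_neg h]
      symm
      rw [ENNReal.tsum_eq_zero]
      intro c₂
      exact if_neg fun h3 => h h3.1
  have h2 : (∑' c₁ : Ch, ∑' c₃ : Ch, ∑' c₂ : Ch,
      (if ((c₁, c₃, c₂) : Ch × Ch × Ch) ∈ Tri52 S S' n x y then F (c₁ ++ (c₂ ++ rv y c₃)) else 0)) =
      ∑' p : Ch × Ch × Ch, (Tri52 S S' n x y).indicator
        (fun p => F (p.1 ++ (p.2.2 ++ rv y p.2.1))) p := by
    rw [ENNReal.tsum_prod']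
    refine tsum_congr fun c₁ => ?_
    rw [ENNReal.tsum_prod']
    refine tsum_congr fun c₃ => tsum_congr fun c₂ => ?_
    rw [Set.indicator_apply]
  rw [tsum_congr fun c₁ => tsum_congr fun c₃ => h1 c₁ c₃, h2, ← tsum_subtype (Tri52 S S' n x y)]
  exact ENNReal.tsum_comp_le_tsum_of_injective (glue_inj52 S S' n x y) F

theorem three_ge (K : Ker) (hK : ∀ x z, K x 0 z = 0) (S S' : ℕ → ℤ → Prop) (n : ℕ) (x y : ℤ) :
    ∑' c₁ : Ch, ∑' c₃ : Ch, (if Stp S 0 x c₁ ∧ Stp S' 0 y c₃ ∧ cl c₁ + cl c₃ ≤ n then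
      cw K x c₁ * G K (n - cl c₁ - cl c₃) (ce x c₁) (ce y c₃) * cw (Kr K) y c₃ else 0) ≤ G K n x y := by
  have h1 := three_phi K S S' n x y (fun _ => 1)
  rw [sc_one K hK] at h1
  refine le_trans (le_of_eq ?_) h1
  refine tsum_congr fun c₁ => tsum_congr fun c₃ => ?_
  rw [sc_one K hK]

end Pool.Agent.Helper18.WK
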