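import Pool.Agent.Helper18.WK.LowA
import Pool.Agent.Helper18.WK.LowH5
import Pool.Agent.Helper18.WK.Kill

/-!
# Project WK, block WK-H6: `kp_low`

`R = ⌊η √n⌋`, `4 C₁ η² ≤ 1 / 4`. `three_ge` with the stopping rule of `hit_low` on both sides
(`Kr (Kp F) = Kp F`): lengths `≤ n / 8` each, heights `z, z' ∈ [R, 2R]`, middle length `m ∈ [3 n / 4, n]`; `killed_llt`
with `ε` small: `√m G (Kp F) m z z' ≥ (gau ((z'-z)/√m) - gau ((z'+z)/√m)) / μ - ε ≥ c`. Total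
`≥ x / (8 R) * y / (8 R) * c / √n`.
-/

open scoped ENNReal Classical

namespace Pool.Agent.Helper18.WK

private theorem h6_kr (F : Law) : Kr (Kp F) = Kp F := by
  funext x l z
  unfold Kr Kp
  by_cases h : 1 ≤ x ∧ 1 ≤ z
  · rw [if_pos h, if_pos h.symm, ← F.f_symm l (z - x)]
    congr 2
    ring
  · rw [if_neg h, if_neg (fun h' => h h'.symm)]

/-- lower bound of the difference of the Gaussian densities -/
private theorem h6_gau {v η ρ a b : ℝ} (hv : 0 < v) (hη : 0 < η) (h1 : η / 2 ≤ ρ) (h2 : ρ ≤ 2 * η)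
    (ha : |a| ≤ ρ) (hb : 2 * ρ ≤ b) :
    Real.exp (-((2 * η) ^ 2 / (2 * v))) * (1 - Real.exp (-(3 * (η / 2) ^ 2 / (2 * v)))) /
      Real.sqrt (2 * Real.pi * v) ≤ gau v a - gau v b := by
  have hρ : 0 < ρ := by linarith
  have hv2 : 0 < 2 * v := by linarith
  have ha2 : a ^ 2 ≤ ρ ^ 2 := by
    rw [← sq_abs a]
    exact pow_le_pow_left₀ (abs_nonneg _) ha 2
  have hb2 : (2 * ρ) ^ 2 ≤ b ^ 2 := pow_le_pow_left₀ (by linarith) hb 2
  have hρ2 : (η / 2) ^ 2 ≤ ρ ^ 2 := pow_le_pow_left₀ (by linarith) h1 2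
  have hρ3 : ρ ^ 2 ≤ (2 * η) ^ 2 := pow_le_pow_left₀ hρ.le h2 2
  unfold gau
  rw [← sub_div]
  refine div_le_div_of_nonneg_right ?_ (Real.sqrt_nonneg _)
  have e1 : Real.exp (-(ρ ^ 2 / (2 * v))) ≤ Real.exp (-(a ^ 2 / (2 * v))) := by
    rw [Real.exp_le_exp, neg_le_neg_iff]
    exact div_le_div_of_nonneg_right ha2 hv2.le
  have e2 : Real.exp (-(b ^ 2 / (2 * v))) ≤ Real.exp (-((2 * ρ) ^ 2 / (2 * v))) := by
    rw [Real.exp_le_exp, neg_le_neg_iff]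
    exact div_le_div_of_nonneg_right hb2 hv2.le
  have e3 : Real.exp (-((2 * ρ) ^ 2 / (2 * v))) =
      Real.exp (-(ρ ^ 2 / (2 * v))) * Real.exp (-(3 * ρ ^ 2 / (2 * v))) := by
    rw [← Real.exp_add]
    congr 1
    ring
  have e4 : Real.exp (-(3 * ρ ^ 2 / (2 * v))) ≤ Real.exp (-(3 * (η / 2) ^ 2 / (2 * v))) := by
    rw [Real.exp_le_exp, neg_le_neg_iff]
    refine div_le_div_of_nonneg_right ?_ hv2.le
    linarith
  have e5 : Real.exp (-((2 * η) ^ 2 / (2 * v))) ≤ Real.exp (-(ρ ^ 2 / (2 * v))) := by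
    rw [Real.exp_le_exp, neg_le_neg_iff]
    exact div_le_div_of_nonneg_right hρ3 hv2.le
  have e6 : 0 ≤ 1 - Real.exp (-(3 * (η / 2) ^ 2 / (2 * v))) := by
    rw [sub_nonneg, Real.exp_le_one_iff]
    have : 0 ≤ 3 * (η / 2) ^ 2 / (2 * v) := by positivity
    linarith
  calc Real.exp (-((2 * η) ^ 2 / (2 * v))) * (1 - Real.exp (-(3 * (η / 2) ^ 2 / (2 * v))))
      ≤ Real.exp (-(ρ ^ 2 / (2 * v))) * (1 - Real.exp (-(3 * (η / 2) ^ 2 / (2 * v)))) :=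
        mul_le_mul_of_nonneg_right e5 e6
    _ ≤ Real.exp (-(ρ ^ 2 / (2 * v))) * (1 - Real.exp (-(3 * ρ ^ 2 / (2 * v)))) :=
        mul_le_mul_of_nonneg_left (by linarith) (Real.exp_pos _).le
    _ = Real.exp (-(ρ ^ 2 / (2 * v))) - Real.exp (-((2 * ρ) ^ 2 / (2 * v))) := by rw [e3]; ring
    _ ≤ _ := by linarith

/-- the middle part -/
private theorem h6_mid (F : Law) {η : ℝ} (hη : 0 < η) : ∃ c : ℝ, 0 < c ∧ ∃ n₀ : ℕ, ∀ n ≥ n₀,
    ∀ R : ℤ, (R : ℝ) ≤ η * Real.sqrt n → η * Real.sqrt n < R + 1 → ∀ m : ℕ, m ≤ n → 3 * n ≤ 4 * m →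
      ∀ z z' : ℤ, R ≤ z → z ≤ 2 * R → R ≤ z' → z' ≤ 2 * R →
        ENNReal.ofReal (c / Real.sqrt n) ≤ G (Kp F) m z z' := by
  have hv := s2_pos F
  have hμ : 0 < mu F := lt_of_lt_of_le one_pos (mu_pos F)
  set κ : ℝ := Real.exp (-((2 * η) ^ 2 / (2 * s2 F))) *
    (1 - Real.exp (-(3 * (η / 2) ^ 2 / (2 * s2 F)))) / Real.sqrt (2 * Real.pi * s2 F) with hκ
  have hκ0 : 0 < κ := by
    have e6 : 0 < 1 - Real.exp (-(3 * (η / 2) ^ 2 / (2 * s2 F))) := by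
      rw [sub_pos, Real.exp_lt_one_iff]
      have : 0 < 3 * (η / 2) ^ 2 / (2 * s2 F) := by positivity
      linarith
    have h7 : 0 < Real.sqrt (2 * Real.pi * s2 F) := Real.sqrt_pos.mpr (by positivity)
    exact div_pos (mul_pos (Real.exp_pos _) e6) h7
  set ε : ℝ := min (κ / (2 * mu F)) (min (η / 2) (1 / (4 * η))) with hε
  have hε0 : 0 < ε := by positivity
  have hε1 : ε ≤ κ / (2 * mu F) := min_le_left _ _
  have hε2 : ε ≤ η / 2 := (min_le_right _ _).trans (min_le_left _ _)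
  have hε3 : ε ≤ 1 / (4 * η) := (min_le_right _ _).trans (min_le_right _ _)
  obtain ⟨n₁, hn₁⟩ := killed_llt F ε hε0
  refine ⟨κ / (2 * mu F), by positivity, max (max 1 (2 * n₁)) ⌈(2 / η) ^ 2⌉₊, ?_⟩
  intro n hn R hR1 hR2 m hmn hnm z z' hz1 hz2 hz1' hz2'
  have hn1 : 1 ≤ n := (le_max_left _ _).trans ((le_max_left _ _).trans hn)
  have hn2 : 2 * n₁ ≤ n := (le_max_right _ _).trans ((le_max_left _ _).trans hn)
  have hn3 : (2 / η) ^ 2 ≤ n := (Nat.le_ceil _).trans (by exact_mod_cast (le_max_right _ _).trans hn)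
  have hm : n₁ ≤ m := by omega
  have hm0 : 0 < m := by omega
  have hm0' : (0 : ℝ) < m := by exact_mod_cast hm0
  have hn0' : (0 : ℝ) < n := by exact_mod_cast hn1
  have hsm : 0 < Real.sqrt m := Real.sqrt_pos.mpr hm0'
  have hsn : 0 < Real.sqrt n := Real.sqrt_pos.mpr hn0'
  have hsmn : Real.sqrt m ≤ Real.sqrt n := Real.sqrt_le_sqrt (by exact_mod_cast hmn)
  have hsnm : Real.sqrt n ≤ 2 * Real.sqrt m := by
    have h1 : (3 : ℝ) * n ≤ 4 * m := by exact_mod_cast hnm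
    have h2 : Real.sqrt n ≤ Real.sqrt (4 * m) := Real.sqrt_le_sqrt (by linarith)
    have h3 : Real.sqrt (4 * m) = 2 * Real.sqrt m := by
      rw [show (4 : ℝ) * m = 2 ^ 2 * m by norm_num, Real.sqrt_mul (by positivity), Real.sqrt_sq (by norm_num)]
    rwa [h3] at h2
  -- a better bound
  have hsnm' : 3 * n ≤ (4 : ℝ) * m := by exact_mod_cast hnm
  have h2η : 2 ≤ η * Real.sqrt n := by
    have h1 : 2 / η ≤ Real.sqrt n := Real.le_sqrt_of_sq_le hn3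
    rw [div_le_iff₀ hη] at h1
    linarith
  have hRh : η * Real.sqrt n / 2 ≤ R := by linarith
  have hR0 : (0 : ℝ) < R := by linarith
  have cz1 : (R : ℝ) ≤ z := by exact_mod_cast hz1
  have cz2 : (z : ℝ) ≤ 2 * R := by exact_mod_cast hz2
  have cz1' : (R : ℝ) ≤ z' := by exact_mod_cast hz1'
  have cz2' : (z' : ℝ) ≤ 2 * R := by exact_mod_cast hz2'
  have b1 : ε * Real.sqrt m ≤ R := by
    have h1 : ε * Real.sqrt m ≤ η / 2 * Real.sqrt n := mul_le_mul hε2 hsmn hsm.le (by linarith)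
    linarith
  have b2 : 2 * (R : ℝ) ≤ Real.sqrt m / ε := by
    rw [le_div_iff₀ hε0]
    have h1 : 2 * (R : ℝ) * ε ≤ 2 * R * (1 / (4 * η)) := mul_le_mul_of_nonneg_left hε3 (by linarith)
    have h2 : 2 * (R : ℝ) * (1 / (4 * η)) = R / (2 * η) := by
      field_simp
      ring
    have h3 : (R : ℝ) / (2 * η) ≤ Real.sqrt m := by
      rw [div_le_iff₀ (by positivity)]
      have h4 := mul_le_mul_of_nonneg_left hsnm hη.le
      linarith
    linarith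
  have key := hn₁ m hm z z' (b1.trans cz1) (cz2.trans b2) (b1.trans cz1') (cz2'.trans b2)
  have hg : κ ≤ gau (s2 F) ((z' - z) / Real.sqrt m) - gau (s2 F) ((z' + z) / Real.sqrt m) := by
    refine h6_gau (ρ := R / Real.sqrt m) hv hη ?_ ?_ ?_ ?_
    · rw [le_div_iff₀ hsm]
      have := mul_le_mul_of_nonneg_left hsmn hη.le
      linarith
    · rw [div_le_iff₀ hsm]
      have := mul_le_mul_of_nonneg_left hsnm hη.le
      linarith
    · rw [abs_div, abs_of_pos hsm]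
      refine div_le_div_of_nonneg_right ?_ hsm.le
      rw [abs_le]
      constructor <;> linarith
    · rw [← mul_div_assoc]
      refine div_le_div_of_nonneg_right ?_ hsm.le
      linarith
  have h1 := (abs_le.mp key).1
  have h2 : κ / mu F ≤ (gau (s2 F) ((z' - z) / Real.sqrt m) - gau (s2 F) ((z' + z) / Real.sqrt m)) / mu F :=
    div_le_div_of_nonneg_right hg hμ.le
  have h3 : κ / mu F = κ / (2 * mu F) + κ / (2 * mu F) := by
    field_simp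
    ring
  have h4 : κ / (2 * mu F) ≤ Real.sqrt m * (G (Kp F) m z z').toReal := by linarith
  refine ENNReal.ofReal_le_of_le_toReal ?_
  rw [div_le_iff₀ hsn]
  refine h4.trans ?_
  rw [mul_comm]
  exact mul_le_mul_of_nonneg_left hsmn ENNReal.toReal_nonneg

theorem kp_low (F : Law) : ∃ c η : ℝ, 0 < c ∧ 0 < η ∧ ∃ n₀ : ℕ, ∀ n ≥ n₀, ∀ x y : ℤ,
    1 ≤ x → (x : ℝ) ≤ η * Real.sqrt n → 1 ≤ y → (y : ℝ) ≤ η * Real.sqrt n →
      ENNReal.ofReal (c * x * y / (n * Real.sqrt n)) ≤ G (Kp F) n x y := by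
  obtain ⟨C₁, R₀, hC₁, hR₀, hhit⟩ := hit_low F
  have hC : (1 : ℝ) ≤ C₁ := by exact_mod_cast hC₁
  set η : ℝ := 1 / (4 * C₁) with hη
  have hη0 : 0 < η := by positivity
  obtain ⟨c, hc, n₁, hmid⟩ := h6_mid F hη0
  refine ⟨c / (64 * η ^ 2), η, by positivity, hη0, max (max 1 n₁) ⌈((R₀ : ℝ) / η) ^ 2⌉₊, ?_⟩
  intro n hn x y hx1 hx2 hy1 hy2
  have hn1 : 1 ≤ n := (le_max_left _ _).trans ((le_max_left _ _).trans hn)
  have hn2 : n₁ ≤ n := (le_max_right _ _).trans ((le_max_left _ _).trans hn)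
  have hn3 : ((R₀ : ℝ) / η) ^ 2 ≤ n := (Nat.le_ceil _).trans (by exact_mod_cast (le_max_right _ _).trans hn)
  have hn0 : (0 : ℝ) < n := by exact_mod_cast hn1
  have hsn : 0 < Real.sqrt n := Real.sqrt_pos.mpr hn0
  set R : ℕ := ⌊η * Real.sqrt n⌋₊ with hR
  have hRle : (R : ℝ) ≤ η * Real.sqrt n := Nat.floor_le (by positivity)
  have hRlt : η * Real.sqrt n < R + 1 := Nat.lt_floor_add_one _
  have hRR₀ : R₀ ≤ R := by
    refine Nat.le_floor ?_
    have h1 : (R₀ : ℝ) / η ≤ Real.sqrt n := Real.le_sqrt_of_sq_le hn3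
    rw [div_le_iff₀ hη0] at h1
    linarith
  have hRpos : (0 : ℝ) < R := by
    have : 1 ≤ R := hR₀.trans hRR₀
    exact_mod_cast this
  have hint : ∀ x : ℤ, 1 ≤ x → (x : ℝ) ≤ η * Real.sqrt n → x ≤ R := by
    intro x hx1 hx2
    have h1 : (x : ℝ) < R + 1 := lt_of_le_of_lt hx2 hRlt
    have h2 : x < (R : ℤ) + 1 := by exact_mod_cast h1
    omega
  have hxR := hint x hx1 hx2
  have hyR := hint y hy1 hy2
  -- lengths
  have hlen : 16 * (C₁ * R ^ 2) ≤ n := by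
    have h1 : (R : ℝ) ^ 2 ≤ η ^ 2 * n := by
      calc (R : ℝ) ^ 2 ≤ (η * Real.sqrt n) ^ 2 := pow_le_pow_left₀ hRpos.le hRle 2
        _ = η ^ 2 * n := by rw [mul_pow, Real.sq_sqrt hn0.le]
    have h2 : (16 : ℝ) * ((C₁ : ℝ) * (R : ℝ) ^ 2) ≤ (n : ℝ) := by
      have h8 : (16 : ℝ) * ((C₁ : ℝ) * (R : ℝ) ^ 2) ≤ 16 * ((C₁ : ℝ) * (η ^ 2 * (n : ℝ))) :=
        mul_le_mul_of_nonneg_left (mul_le_mul_of_nonneg_left h1 (by positivity)) (by norm_num)
      have h9 : (16 : ℝ) * ((C₁ : ℝ) * (η ^ 2 * (n : ℝ))) = (n : ℝ) / (C₁ : ℝ) := by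
        rw [hη]
        field_simp
        norm_num
      have h10 : (n : ℝ) / (C₁ : ℝ) ≤ n := div_le_self hn0.le hC
      linarith
    exact_mod_cast h2
  set S : ℕ → ℤ → Prop := fun j z => (R : ℤ) ≤ z ∨ C₁ * R ^ 2 ≤ j with hS
  set Gd : ℤ → Ch → Prop := fun x c => Stp S 0 x c ∧ (R : ℤ) ≤ ce x c ∧ ce x c ≤ 2 * R ∧
        cl c ≤ 2 * (C₁ * R ^ 2) with hGd
  have h1 := hhit R hRR₀ x hx1 hxR
  have h2 := hhit R hRR₀ y hy1 hyR
  have hK0 : ∀ x z, Kp F x 0 z = 0 := by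
    intro x z
    unfold Kp
    split_ifs
    · rw [F.f_zero, ENNReal.ofReal_zero]
    · rfl
  have h3 := three_ge (Kp F) hK0 S S n x y
  rw [h6_kr] at h3
  refine le_trans ?_ h3
  have h4 : ∑' c₁ : Ch, ∑' c₃ : Ch, (if Gd x c₁ then cw (Kp F) x c₁ else 0) *
      (ENNReal.ofReal (c / Real.sqrt n) * (if Gd y c₃ then cw (Kp F) y c₃ else 0)) ≤
      ∑' c₁ : Ch, ∑' c₃ : Ch, (if Stp S 0 x c₁ ∧ Stp S 0 y c₃ ∧ cl c₁ + cl c₃ ≤ n then
      cw (Kp F) x c₁ * G (Kp F) (n - cl c₁ - cl c₃) (ce x c₁) (ce y c₃) * cw (Kp F) y c₃ else 0) := by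
    refine ENNReal.tsum_le_tsum fun c₁ => ENNReal.tsum_le_tsum fun c₃ => ?_
    by_cases g1 : Gd x c₁
    swap
    · rw [if_neg g1, zero_mul]; exact zero_le
    by_cases g3 : Gd y c₃
    swap
    · rw [if_neg g3, mul_zero, mul_zero]; exact zero_le
    rw [if_pos g1, if_pos g3]
    obtain ⟨a1, a2, a3, a4⟩ := g1
    obtain ⟨b1, b2, b3, b4⟩ := g3
    rw [if_pos ⟨a1, b1, by omega⟩, mul_assoc]
    refine mul_le_mul_right ?_ _
    refine mul_le_mul_left ?_ _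
    exact hmid n hn2 R (by exact_mod_cast hRle) (by exact_mod_cast hRlt) _ (by omega) (by omega)
      _ _ a2 a3 b2 b3
  refine le_trans ?_ h4
  have h5 : ∑' c₁ : Ch, ∑' c₃ : Ch, (if Gd x c₁ then cw (Kp F) x c₁ else 0) *
      (ENNReal.ofReal (c / Real.sqrt n) * (if Gd y c₃ then cw (Kp F) y c₃ else 0)) =
      (∑' c₁ : Ch, (if Gd x c₁ then cw (Kp F) x c₁ else 0)) *
      (ENNReal.ofReal (c / Real.sqrt n) * ∑' c₃ : Ch, (if Gd y c₃ then cw (Kp F) y c₃ else 0)) := by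
    rw [← ENNReal.tsum_mul_right]
    refine tsum_congr fun c₁ => ?_
    rw [ENNReal.tsum_mul_left, ENNReal.tsum_mul_left]
  rw [h5]
  have hx0 : (0 : ℝ) ≤ x := by exact_mod_cast (by omega : 0 ≤ x)
  have hy0 : (0 : ℝ) ≤ y := by exact_mod_cast (by omega : 0 ≤ y)
  have h6 : ENNReal.ofReal (c / (64 * η ^ 2) * x * y / (n * Real.sqrt n)) ≤
      ENNReal.ofReal (x / (8 * R)) * (ENNReal.ofReal (c / Real.sqrt n) * ENNReal.ofReal (y / (8 * R))) := by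
    rw [← ENNReal.ofReal_mul (by positivity), ← ENNReal.ofReal_mul (by positivity)]
    refine ENNReal.ofReal_le_ofReal ?_
    have e1 : (x : ℝ) / (8 * R) * (c / Real.sqrt n * (y / (8 * R))) = c * x * y / (64 * R ^ 2 * Real.sqrt n) := by
      field_simp
      ring
    have e2 : c / (64 * η ^ 2) * x * y / (n * Real.sqrt n) = c * x * y / (64 * (η ^ 2 * n) * Real.sqrt n) := by
      field_simp
    rw [e1, e2]
    refine div_le_div_of_nonneg_left (by positivity) (by positivity) ?_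
    refine mul_le_mul_of_nonneg_right ?_ hsn.le
    have h7 : (R : ℝ) ^ 2 ≤ η ^ 2 * n := by
      calc (R : ℝ) ^ 2 ≤ (η * Real.sqrt n) ^ 2 := pow_le_pow_left₀ hRpos.le hRle 2
        _ = η ^ 2 * n := by rw [mul_pow, Real.sq_sqrt hn0.le]
    linarith
  refine h6.trans ?_
  gcongr

end Pool.Agent.Helper18.WK
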