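import Pool.Agent.Helper18.WK.LowA
import Pool.Agent.Helper18.WK.LowH5
import Pool.Agent.Helper18.WK.LowH6

/-!
# Project WK, blocks WK-H5 .. WK-H8: lower bounds `c n^(-3/2)` (E2)

WK-H5, `three_ge`: the chains `c₁ ++ c₂ ++ rv y c₃` with stopped `c₁`, `c₃` are different for different triples
(`stp_unique`; for the suffix apply `rv`), `cw_append`, `cw_rv`, `sc_one`.

WK-H6, `kp_low`: `R = ⌊η √n⌋`, `4 C₁ η² ≤ 1 / 4`. `three_ge` with the stopping rule of `hit_low` on both sides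
(`Kr (Kp F) = Kp F`): lengths `≤ n / 8` each, heights `z, z' ∈ [R, 2R]`, middle length `m ∈ [3 n / 4, n]`; `killed_llt`
with `ε` small: `√m G (Kp F) m z z' ≥ (gau ((z'-z)/√m) - gau ((z'+z)/√m)) / μ - ε ≥ c`. Total
`≥ x / (8 R) * y / (8 R) * c / √n`.

WK-H7, `above_mid`: `kp_low` with `x = y = M`, `above_dec`, `ins_le`, `ins_add`, `ins_small`, `ins_top`:
`c M² / n^(3/2) ≤ G K n M M + C M^(3/2) / n^(3/2) + C exp (-c n)`; `M` large, then `n` large.

WK-H8, `above_low`: `|M₀ - x|` unit steps (length `l0`, weight `≥ κ`) from `x` to `M₀`, `above_mid`, unit steps from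
`M₀` to `y` (`g_mul_le`; one step: `G K l0 x (x + 1) ≥ K x l0 (x + 1)`).

WK-H9, `above_bulk`: `above_dec`, `ins_le`, `ins_add`, `ins_bulk`, `ins_top`.
-/

open scoped ENNReal Classical

namespace Pool.Agent.Helper18.WK

private theorem h7_exp {C c : ℝ} (hC : 0 < C) (hc : 0 < c) {n : ℝ} (hn : 1 ≤ n) {d : ℝ} (hd : 0 < d)
    (h : 6 * C / (c ^ 3 * d) ≤ n) : C * Real.exp (-c * n) ≤ d / (n * Real.sqrt n) := by
  have hn0 : 0 < n := by linarith
  have hsn : 0 < Real.sqrt n := Real.sqrt_pos.mpr hn0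
  have h1 := Real.pow_div_factorial_le_exp (c * n) (by positivity) 3
  have h2 : ((Nat.factorial 3 : ℕ) : ℝ) = 6 := by norm_num [Nat.factorial]
  rw [h2] at h1
  have h3 : Real.exp (-c * n) = 1 / Real.exp (c * n) := by
    rw [neg_mul, Real.exp_neg, one_div]
  rw [h3]
  have h5 : 1 / Real.exp (c * n) ≤ 1 / ((c * n) ^ 3 / 6) := one_div_le_one_div_of_le (by positivity) h1
  have h6 : C * (1 / ((c * n) ^ 3 / 6)) = 6 * C / (c ^ 3 * n) / n ^ 2 := by
    field_simp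
  have h7 : 6 * C / (c ^ 3 * n) ≤ d := by
    rw [div_le_iff₀ (by positivity)] at h ⊢
    linarith
  have h8 : Real.sqrt n ≤ n := by
    rw [Real.sqrt_le_left (by linarith)]
    nlinarith
  calc C * (1 / Real.exp (c * n)) ≤ C * (1 / ((c * n) ^ 3 / 6)) := mul_le_mul_of_nonneg_left h5 hC.le
    _ = 6 * C / (c ^ 3 * n) / n ^ 2 := h6
    _ ≤ d / n ^ 2 := div_le_div_of_nonneg_right h7 (by positivity)
    _ ≤ d / (n * Real.sqrt n) := by
        refine div_le_div_of_nonneg_left hd.le (by positivity) ?_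
        rw [pow_two]
        exact mul_le_mul_of_nonneg_left h8 hn0.le

theorem above_mid (F : Law) {κ Bt r c₀ : ℝ} (hB : 0 < Bt) (hr : 0 < r) (hc : 0 < c₀) :
    ∃ (M n₀ : ℕ) (c : ℝ), 1 ≤ M ∧ 0 < c ∧ ∀ n ≥ n₀, ∀ (cap : ℕ) (K : Ker), Above F κ Bt r cap K →
      c₀ * n ≤ cap → ENNReal.ofReal (c / (n * Real.sqrt n)) ≤ G K n M M := by
  have hB' : 0 < Bt + F.B := add_pos hB F.B_pos
  have hr' : 0 < min r F.a / 2 := half_pos (lt_min hr F.a_pos)
  obtain ⟨c₁, η, hc₁, hη, n₁, hlow⟩ := kp_low F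
  obtain ⟨C₁, hC₁, hsm⟩ := ins_small F hB' hr'
  obtain ⟨C₂, c₂, hC₂, hc₂, htop⟩ := ins_top F hB' hr' hc
  -- the height
  obtain ⟨M, hM⟩ := exists_nat_ge (max 1 ((2 * C₁ / c₁) ^ 2))
  have hM1 : (1 : ℝ) ≤ M := (le_max_left _ _).trans hM
  have hM2 : (2 * C₁ / c₁) ^ 2 ≤ (M : ℝ) := (le_max_right _ _).trans hM
  have hM0 : (0 : ℝ) < M := by linarith
  have hM1' : 1 ≤ M := by exact_mod_cast hM1
  have hsM : 2 * C₁ / c₁ ≤ Real.sqrt M := Real.le_sqrt_of_sq_le hM2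
  have hbal : C₁ * (M * Real.sqrt M) ≤ c₁ * M * M / 2 := by
    rw [div_le_iff₀ hc₁] at hsM
    have h1 : Real.sqrt M * Real.sqrt M = M := Real.mul_self_sqrt hM0.le
    have h2 : 0 ≤ Real.sqrt M := Real.sqrt_nonneg _
    have h3 := mul_le_mul_of_nonneg_left hsM (mul_nonneg hM0.le h2)
    have h4 : (M : ℝ) * Real.sqrt M * (Real.sqrt M * c₁) = c₁ * M * M := by
      rw [← mul_assoc, mul_assoc (M : ℝ), h1]
      ring
    rw [h4] at h3
    linarith
  set d : ℝ := c₁ * M * M / 4 with hd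
  have hd0 : 0 < d := by positivity
  obtain ⟨N, hN⟩ := exists_nat_ge (max (max 1 (6 * C₂ / (c₂ ^ 3 * d))) (max ((M / η) ^ 2) (4 * M / c₀)))
  refine ⟨M, max n₁ N, d, hM1', hd0, ?_⟩
  intro n hn cap K hK hcap
  have hn1 : n₁ ≤ n := (le_max_left _ _).trans hn
  have hnN : (N : ℝ) ≤ n := by exact_mod_cast (le_max_right _ _).trans hn
  have a1 : (1 : ℝ) ≤ n := ((le_max_left _ _).trans ((le_max_left _ _).trans hN)).trans hnN
  have a2 : 6 * C₂ / (c₂ ^ 3 * d) ≤ n := ((le_max_right _ _).trans ((le_max_left _ _).trans hN)).trans hnN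
  have a3 : (M / η) ^ 2 ≤ (n : ℝ) := ((le_max_left _ _).trans ((le_max_right _ _).trans hN)).trans hnN
  have a4 : 4 * M / c₀ ≤ (n : ℝ) := ((le_max_right _ _).trans ((le_max_right _ _).trans hN)).trans hnN
  have hn0 : (0 : ℝ) < n := by linarith
  have hn1' : 1 ≤ n := by exact_mod_cast a1
  have hsn : 0 < Real.sqrt n := Real.sqrt_pos.mpr hn0
  have b1 : (M : ℝ) ≤ η * Real.sqrt n := by
    have h1 : M / η ≤ Real.sqrt n := Real.le_sqrt_of_sq_le a3
    rw [div_le_iff₀ hη] at h1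
    linarith
  have b2 : (M : ℝ) ≤ c₀ * n / 4 := by
    rw [div_le_iff₀ hc] at a4
    linarith
  have e1 := hlow n hn1 M M (by exact_mod_cast hM1') (by exact_mod_cast b1) (by exact_mod_cast hM1')
    (by exact_mod_cast b1)
  have e2 := hsm M n hM1' hn1'
  have e3 := htop n cap M M hcap (by exact_mod_cast b2)
  have e4 := ins_le (K := K) (K' := Kp F)
    (E := fun x l z => Db (Bt + F.B) (min r F.a / 2) x l z + Dt F (Bt + F.B) (min r F.a / 2) cap x l z)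
    hK.le (above_dec hB hr hK) n M M
  rw [ins_add] at e4
  have e5 := h7_exp hC₂ hc₂ a1 hd0 a2
  have e6 : Ins (Kp F) (Db (Bt + F.B) (min r F.a / 2)) n M M ≤ ENNReal.ofReal (2 * d / (n * Real.sqrt n)) := by
    refine e2.trans (ENNReal.ofReal_le_ofReal ?_)
    refine div_le_div_of_nonneg_right ?_ (by positivity)
    rw [hd]
    linarith
  have e7 : Ins (Kp F) (Dt F (Bt + F.B) (min r F.a / 2) cap) n M M ≤ ENNReal.ofReal (d / (n * Real.sqrt n)) :=
    e3.trans (ENNReal.ofReal_le_ofReal e5)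
  have e8 : ENNReal.ofReal (c₁ * M * M / (n * Real.sqrt n)) = ENNReal.ofReal (d / (n * Real.sqrt n)) +
      (ENNReal.ofReal (2 * d / (n * Real.sqrt n)) + ENNReal.ofReal (d / (n * Real.sqrt n))) := by
    rw [← ENNReal.ofReal_add (by positivity) (by positivity), ← ENNReal.ofReal_add (by positivity) (by positivity)]
    congr 1
    rw [hd]
    field_simp
    norm_num
  have e9 : ENNReal.ofReal (c₁ * M * M / (n * Real.sqrt n)) ≤ G K n M M +
      (ENNReal.ofReal (2 * d / (n * Real.sqrt n)) + ENNReal.ofReal (d / (n * Real.sqrt n))) := by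
    have h1 : ENNReal.ofReal (c₁ * M * M / (n * Real.sqrt n)) ≤ G (Kp F) n M M := by
      simpa using e1
    exact h1.trans (e4.trans (add_le_add le_rfl (add_le_add e6 e7)))
  rw [e8] at e9
  refine ENNReal.le_of_add_le_add_right ?_ e9
  simp

private theorem one_step99 {K : Ker} {l : ℕ} (hl : l ≠ 0) (x y : ℤ) : K x l y ≤ G K l x y := by
  obtain ⟨n, rfl⟩ := Nat.exists_eq_succ_of_ne_zero hl
  rw [Nat.succ_eq_add_one, G_succ]
  refine le_trans ?_ (Finset.single_le_sum (fun _ _ => zero_le) (Finset.mem_range.2 (Nat.lt_succ_self n)))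
  refine le_trans ?_ (ENNReal.le_tsum y)
  rw [Nat.sub_self, G_zero, if_pos rfl, mul_one]

private theorem steps99 {F : Law} {κ Bt r : ℝ} {cap : ℕ} {K : Ker} (h : Above F κ Bt r cap K) (x : ℤ)
    (hx : 1 ≤ x) (d : ℕ) : x + d ≤ cap →
    ENNReal.ofReal κ ^ d ≤ G K (d * F.l0) x (x + d) ∧ ENNReal.ofReal κ ^ d ≤ G K (d * F.l0) (x + d) x := by
  have hl : F.l0 ≠ 0 := by
    intro h0
    have := F.f_l0
    rw [h0, F.f_zero] at this
    exact lt_irrefl _ this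
  induction d with
  | zero =>
    intro _
    simp [G_zero]
  | succ d ih =>
    intro hd
    push_cast at hd
    have ih' := ih (by omega)
    push_cast
    rw [← add_assoc]
    constructor
    · have h1 := g_mul_le K (d * F.l0) F.l0 x (x + d) (x + d + 1)
      have h2 : ENNReal.ofReal κ ≤ G K F.l0 (x + d) (x + d + 1) :=
        (h.up (x + d) (by omega) (by omega)).trans (one_step99 hl _ _)
      rw [pow_succ, Nat.succ_mul]
      exact (mul_le_mul' ih'.1 h2).trans h1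
    · have h1 := g_mul_le K F.l0 (d * F.l0) (x + d + 1) (x + d) x
      have h2 : ENNReal.ofReal κ ≤ G K F.l0 (x + d + 1) (x + d) :=
        (h.down (x + d) (by omega) (by omega)).trans (one_step99 hl _ _)
      rw [pow_succ', Nat.succ_mul, add_comm (d * F.l0) F.l0]
      exact (mul_le_mul' h2 ih'.2).trans h1

private theorem walk99 {F : Law} {κ Bt r : ℝ} {cap N : ℕ} {K : Ker} (h : Above F κ Bt r cap K) (hN : N ≤ cap)
    (x y : ℤ) (hx1 : 1 ≤ x) (hxN : x ≤ N) (hy1 : 1 ≤ y) (hyN : y ≤ N) :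
    ∃ d : ℕ, d ≤ N ∧ ENNReal.ofReal κ ^ d ≤ G K (d * F.l0) x y := by
  rcases le_total x y with hxy | hxy
  · refine ⟨(y - x).toNat, by omega, ?_⟩
    have h1 := (steps99 h x hx1 (y - x).toNat (by omega)).1
    have e : x + ((y - x).toNat : ℤ) = y := by omega
    rwa [e] at h1
  · refine ⟨(x - y).toNat, by omega, ?_⟩
    have h1 := (steps99 h y hy1 (x - y).toNat (by omega)).2
    have e : y + ((x - y).toNat : ℤ) = x := by omega
    rwa [e] at h1

private theorem pow99 {κ : ℝ} {d N : ℕ} (h0 : 0 ≤ min κ 1) (hd : d ≤ N) :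
    ENNReal.ofReal (min κ 1 ^ N) ≤ ENNReal.ofReal κ ^ d := by
  rw [ENNReal.ofReal_pow h0]
  refine (pow_le_pow_of_le_one zero_le ?_ hd).trans (pow_le_pow_left' ?_ d)
  · exact ENNReal.ofReal_le_one.2 (min_le_right _ _)
  · exact ENNReal.ofReal_le_ofReal (min_le_left _ _)

/-- **E2**. -/
theorem above_low (F : Law) {κ Bt r c₀ : ℝ} (hκ : 0 < κ) (hB : 0 < Bt) (hr : 0 < r) (hc : 0 < c₀) (M : ℕ) :
    ∃ (n₀ : ℕ) (c : ℝ), 0 < c ∧ ∀ n ≥ n₀, ∀ (cap : ℕ) (K : Ker), Above F κ Bt r cap K → c₀ * n ≤ cap →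
      ∀ x y : ℤ, 1 ≤ x → x ≤ M → 1 ≤ y → y ≤ M →
        ENNReal.ofReal (c / (n * Real.sqrt n)) ≤ G K n x y := by
  obtain ⟨M₀, n₁, c₁, hM₀, hc₁, hmid⟩ := above_mid F (κ := κ) (Bt := Bt) (r := r) (c₀ := c₀) hB hr hc
  set N : ℕ := max M M₀ with hN
  have hMN : M ≤ N := le_max_left _ _
  have hM₀N : M₀ ≤ N := le_max_right _ _
  set κ' : ℝ := min κ 1 with hκ'
  have hκ'0 : 0 < κ' := lt_min hκ one_pos
  refine ⟨n₁ + 2 * (N * F.l0) + 1 + ⌈(N : ℝ) / c₀⌉₊, κ' ^ N * c₁ * κ' ^ N, by positivity, ?_⟩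
  intro n hn cap K hK hcap x y hx1 hxM hy1 hyM
  have hNcap : N ≤ cap := by
    have h1 : (N : ℝ) / c₀ ≤ n := by
      refine (Nat.le_ceil _).trans ?_
      exact_mod_cast (by omega : ⌈(N : ℝ) / c₀⌉₊ ≤ n)
    have h2 : (N : ℝ) ≤ n * c₀ := (div_le_iff₀ hc).1 h1
    have h3 : (N : ℝ) ≤ cap := by linarith
    exact_mod_cast h3
  obtain ⟨i, hi, hxi⟩ := walk99 hK hNcap x M₀ hx1 (by omega) (by omega) (by omega)
  obtain ⟨j, hj, hyj⟩ := walk99 hK hNcap M₀ y (by omega) (by omega) hy1 (by omega)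
  have hi' : i * F.l0 ≤ N * F.l0 := Nat.mul_le_mul_right _ hi
  have hj' : j * F.l0 ≤ N * F.l0 := Nat.mul_le_mul_right _ hj
  obtain ⟨m, hm⟩ : ∃ m, n = i * F.l0 + m + j * F.l0 := ⟨n - i * F.l0 - j * F.l0, by omega⟩
  have hm1 : n₁ ≤ m := by omega
  have hm2 : 1 ≤ m := by omega
  have hmn : m ≤ n := by omega
  have hmn' : (m : ℝ) ≤ n := by exact_mod_cast hmn
  have hm0 : (0 : ℝ) < m := by exact_mod_cast hm2
  have hmid' := hmid m hm1 cap K hK ((mul_le_mul_of_nonneg_left hmn' hc.le).trans hcap)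
  have hg : G K (i * F.l0) x M₀ * G K m M₀ M₀ * G K (j * F.l0) M₀ y ≤ G K n x y := by
    rw [hm]
    exact (mul_le_mul' (g_mul_le K _ _ x M₀ M₀) le_rfl).trans (g_mul_le K _ _ x M₀ y)
  refine le_trans ?_ hg
  have e1 : κ' ^ N * c₁ * κ' ^ N / (n * Real.sqrt n) ≤ κ' ^ N * (c₁ / (m * Real.sqrt m)) * κ' ^ N := by
    have h1 : c₁ / (n * Real.sqrt n) ≤ c₁ / (m * Real.sqrt m) := by
      have h2 : 0 < (m : ℝ) * Real.sqrt m := mul_pos hm0 (Real.sqrt_pos.2 hm0)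
      have h3 : (m : ℝ) * Real.sqrt m ≤ n * Real.sqrt n :=
        mul_le_mul hmn' (Real.sqrt_le_sqrt hmn') (Real.sqrt_nonneg _) (by linarith)
      exact div_le_div_of_nonneg_left hc₁.le h2 h3
    have h4 : 0 ≤ κ' ^ N * κ' ^ N := by positivity
    have h5 := mul_le_mul_of_nonneg_left h1 h4
    calc κ' ^ N * c₁ * κ' ^ N / (n * Real.sqrt n) = κ' ^ N * κ' ^ N * (c₁ / (n * Real.sqrt n)) := by ring
      _ ≤ κ' ^ N * κ' ^ N * (c₁ / (m * Real.sqrt m)) := h5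
      _ = _ := by ring
  have e2 : ENNReal.ofReal (κ' ^ N) ≤ G K (i * F.l0) x M₀ := (pow99 hκ'0.le hi).trans hxi
  have e3 : ENNReal.ofReal (κ' ^ N) ≤ G K (j * F.l0) M₀ y := (pow99 hκ'0.le hj).trans hyj
  calc ENNReal.ofReal (κ' ^ N * c₁ * κ' ^ N / (n * Real.sqrt n))
      ≤ ENNReal.ofReal (κ' ^ N * (c₁ / (m * Real.sqrt m)) * κ' ^ N) := ENNReal.ofReal_le_ofReal e1
    _ = ENNReal.ofReal (κ' ^ N) * ENNReal.ofReal (c₁ / (m * Real.sqrt m)) * ENNReal.ofReal (κ' ^ N) := by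
      rw [ENNReal.ofReal_mul (by positivity), ENNReal.ofReal_mul (by positivity)]
    _ ≤ _ := mul_le_mul' (mul_le_mul' e2 hmid') e3

theorem above_bulk (F : Law) {κ Bt r c₀ ε : ℝ} (hB : 0 < Bt) (hr : 0 < r) (hc : 0 < c₀) (hε : 0 < ε) :
    ∃ n₀ : ℕ, ∀ n ≥ n₀, ∀ (cap : ℕ) (K : Ker), Above F κ Bt r cap K → c₀ * n ≤ cap →
      ∀ x y : ℤ, ε * Real.sqrt n ≤ x → (x : ℝ) ≤ Real.sqrt n / ε → ε * Real.sqrt n ≤ y → (y : ℝ) ≤ Real.sqrt n / ε →
        G (Kp F) n x y ≤ G K n x y + ENNReal.ofReal (ε / Real.sqrt n) := by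
  have hB' : 0 < Bt + F.B := add_pos hB F.B_pos
  have hr' : 0 < min r F.a / 2 := half_pos (lt_min hr F.a_pos)
  obtain ⟨C₁, hC₁, hblk⟩ := ins_bulk F hB' hr' hε
  obtain ⟨C₂, c₂, hC₂, hc₂, htop⟩ := ins_top F hB' hr' hc
  have hd0 : 0 < ε / 2 := half_pos hε
  obtain ⟨N, hN⟩ := exists_nat_ge (max (max 1 (6 * C₂ / (c₂ ^ 3 * (ε / 2)))) (max ((4 / (ε * c₀)) ^ 2) ((2 * C₁ / ε) ^ 4)))
  refine ⟨N, fun n hn cap K hK hcap x y hx1 hx2 hy1 _ => ?_⟩
  have hnN : (N : ℝ) ≤ n := by exact_mod_cast hn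
  have a1 : (1 : ℝ) ≤ n := ((le_max_left _ _).trans ((le_max_left _ _).trans hN)).trans hnN
  have a2 : 6 * C₂ / (c₂ ^ 3 * (ε / 2)) ≤ n := ((le_max_right _ _).trans ((le_max_left _ _).trans hN)).trans hnN
  have a3 : (4 / (ε * c₀)) ^ 2 ≤ (n : ℝ) := ((le_max_left _ _).trans ((le_max_right _ _).trans hN)).trans hnN
  have a4 : (2 * C₁ / ε) ^ 4 ≤ (n : ℝ) := ((le_max_right _ _).trans ((le_max_right _ _).trans hN)).trans hnN
  have hn0 : (0 : ℝ) < n := by linarith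
  have hn1' : 1 ≤ n := by exact_mod_cast a1
  have hsn : 0 < Real.sqrt n := Real.sqrt_pos.mpr hn0
  have hssn : 0 < Real.sqrt (Real.sqrt n) := Real.sqrt_pos.mpr hsn
  have b1 : 4 / (ε * c₀) ≤ Real.sqrt n := Real.le_sqrt_of_sq_le a3
  have b2 : 2 * C₁ / ε ≤ Real.sqrt (Real.sqrt n) := by
    refine Real.le_sqrt_of_sq_le (Real.le_sqrt_of_sq_le ?_)
    rw [← pow_mul]
    exact a4
  have b3 : (x : ℝ) ≤ c₀ * n / 4 := by
    refine hx2.trans ?_
    rw [div_le_iff₀ (by positivity)] at b1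
    have h1 : Real.sqrt n * Real.sqrt n = n := Real.mul_self_sqrt hn0.le
    rw [div_le_iff₀ hε]
    have h2 := mul_le_mul_of_nonneg_left b1 hsn.le
    have h3 : Real.sqrt n * (Real.sqrt n * (ε * c₀)) = n * (ε * c₀) := by
      rw [← mul_assoc, h1]
    rw [h3] at h2
    linarith
  have e2 := hblk n x y hn1' hx1 hy1
  have e3 := htop n cap x y hcap b3
  have e4 := ins_le (K := K) (K' := Kp F)
    (E := fun x l z => Db (Bt + F.B) (min r F.a / 2) x l z + Dt F (Bt + F.B) (min r F.a / 2) cap x l z)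
    hK.le (above_dec hB hr hK) n x y
  rw [ins_add] at e4
  have e5 := h7_exp hC₂ hc₂ a1 hd0 a2
  have e5' : ε / 2 / (n * Real.sqrt n) ≤ ε / 2 / Real.sqrt n := by
    refine div_le_div_of_nonneg_left hd0.le hsn ?_
    nlinarith
  have e6 : C₁ / (Real.sqrt n * Real.sqrt (Real.sqrt n)) ≤ ε / 2 / Real.sqrt n := by
    rw [div_le_iff₀ hε] at b2
    rw [div_div, div_le_div_iff₀ (by positivity) (by positivity)]
    nlinarith [mul_le_mul_of_nonneg_left b2 hsn.le]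
  have e7 : Ins (Kp F) (Db (Bt + F.B) (min r F.a / 2)) n x y +
      Ins (Kp F) (Dt F (Bt + F.B) (min r F.a / 2) cap) n x y ≤ ENNReal.ofReal (ε / Real.sqrt n) := by
    have h1 : ENNReal.ofReal (ε / Real.sqrt n) =
        ENNReal.ofReal (ε / 2 / Real.sqrt n) + ENNReal.ofReal (ε / 2 / Real.sqrt n) := by
      rw [← ENNReal.ofReal_add (by positivity) (by positivity)]
      congr 1
      ring
    rw [h1]
    exact add_le_add (e2.trans (ENNReal.ofReal_le_ofReal e6))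
      (e3.trans (ENNReal.ofReal_le_ofReal (e5.trans e5')))
  exact e4.trans (add_le_add le_rfl e7)

end Pool.Agent.Helper18.WK
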