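import Pool.Agent.Helper18.WK.HorA

/-!
# Project WK, block WK-H1: the walk killed at the heights `≤ 0` and `≥ R`

`Q (KR F R) n x ≤ Q (Kp F) n x ≤ C (1 + x) / √n` (`q_plus`) with `n = C₁ R²`, `C₁ ≥ (2 C / δ)²`.
-/

open scoped ENNReal Classical

namespace Pool.Agent.Helper18.WK

/-- Pieces between the heights `1` and `R - 1`. -/
noncomputable def KR (F : Law) (R : ℕ) : Ker := fun x l z => if x < R ∧ z < R then Kp F x l z else 0

theorem stay_le (F : Law) {δ : ℝ} (hδ : 0 < δ) : ∃ C₁ R₀ : ℕ, 1 ≤ C₁ ∧ 1 ≤ R₀ ∧ ∀ R : ℕ, R₀ ≤ R → ∀ x : ℤ, 1 ≤ x →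
    Q (KR F R) (C₁ * R ^ 2) x ≤ ENNReal.ofReal (δ * x / R) := by
  obtain ⟨C, hC, hq⟩ := q_plus F
  obtain ⟨M, hM⟩ := exists_nat_gt (2 * C / δ)
  have hM0 : (0 : ℝ) < M := lt_trans (by positivity) hM
  have hM1 : 1 ≤ M := by
    have : 0 < M := by exact_mod_cast hM0
    exact this
  refine ⟨M ^ 2, 1, Nat.one_le_pow _ _ hM1, le_rfl, fun R hR x hx => ?_⟩
  have hK : ∀ x l z, KR F R x l z ≤ Kp F x l z := by
    intro x l z
    unfold KR
    split_ifs
    · exact le_rfl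
    · exact zero_le
  have hR0 : (0 : ℝ) < R := by exact_mod_cast hR
  have hn : 1 ≤ M ^ 2 * R ^ 2 := Nat.one_le_iff_ne_zero.2 (by positivity)
  refine (q_mono hK _ _).trans ((hq _ x hn).trans (ENNReal.ofReal_le_ofReal ?_))
  have hx1 : (1 : ℝ) ≤ x := by exact_mod_cast hx
  have h1 : Real.sqrt ((M ^ 2 * R ^ 2 : ℕ) : ℝ) = M * R := by
    push_cast
    rw [← mul_pow]
    exact Real.sqrt_sq (by positivity)
  rw [h1, abs_of_pos (by linarith), div_le_div_iff₀ (by positivity) hR0]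
  have h2 : 2 * C < M * δ := by
    rwa [div_lt_iff₀ hδ] at hM
  have h3 : C * (1 + (x : ℝ)) ≤ 2 * C * x := by
    have := mul_le_mul_of_nonneg_left hx1 hC.le
    linarith
  have h4 : 2 * C * (x : ℝ) ≤ M * δ * x := mul_le_mul_of_nonneg_right h2.le (by linarith)
  calc C * (1 + (x : ℝ)) * R ≤ M * δ * x * R :=
        mul_le_mul_of_nonneg_right (h3.trans h4) hR0.le
    _ = δ * x * (M * R) := by ring

end Pool.Agent.Helper18.WK
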