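import Pool.Agent.Helper18.WK.LstA

/-!
# Project WK, block WK-H2: subsolutions, and the martingale inequality for the killed walk

`kp_mart` by symmetrization: twice the sum is `∑' f l h ((x + h)⁺ + (x - h)⁺) ≥ ∑' f l h 2 x`.
-/

open scoped ENNReal Classical

namespace Pool.Agent.Helper18.WK

theorem sub_stp (K : Ker) (hK : ∀ x z, K x 0 z = 0) (S : ℕ → ℤ → Prop) (n : ℕ) (hS : ∀ j x, n ≤ j → S j x)
    (u : ℕ → ℤ → ℝ≥0∞) (hu : ∀ j x, ¬ S j x → u j x ≤ ∑' q : ℕ × ℤ, K x q.1 q.2 * u (j + q.1) q.2)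
    (j : ℕ) (x : ℤ) : u j x ≤ ∑' c : Ch, (if Stp S j x c then cw K x c * u (j + cl c) (ce x c) else 0) := by
  induction hm : n - j using Nat.strong_induction_on generalizing j x with
  | _ m ih =>
    by_cases hj : S j x
    · refine le_trans (le_of_eq ?_) (ENNReal.le_tsum ([] : Ch))
      rw [if_pos (show Stp S j x [] from hj)]
      simp only [cw, cl, ce, one_mul, add_zero]
    · have hjn : j < n := by
        by_contra hcon
        exact hj (hS j x (by omega))
      rw [tsum_ch]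
      refine ((hu j x hj).trans ?_).trans le_add_self
      refine ENNReal.tsum_le_tsum fun q => ?_
      rcases Nat.eq_zero_or_pos q.1 with hq | hq
      · rw [hq, hK, zero_mul]
        exact zero_le
      · have h1 := ih (n - (j + q.1)) (by omega) (j + q.1) q.2 rfl
        refine (mul_le_mul_right h1 (K x q.1 q.2)).trans (le_of_eq ?_)
        rw [← ENNReal.tsum_mul_left]
        refine tsum_congr fun c => ?_
        by_cases hc : Stp S (j + q.1) q.2 c
        · rw [if_pos hc, if_pos (show Stp S j x (q :: c) from ⟨hj, hc⟩)]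
          simp only [cw, cl, ce, mul_assoc, add_assoc]
        · rw [if_neg hc, if_neg (fun h : Stp S j x (q :: c) => hc h.2), mul_zero]

theorem kp_mart (F : Law) (x : ℤ) (hx : 1 ≤ x) :
    ENNReal.ofReal x ≤ ∑' q : ℕ × ℤ, Kp F x q.1 q.2 * ENNReal.ofReal q.2 := by
  have h1 : ∀ q : ℕ × ℤ, Kp F x q.1 q.2 * ENNReal.ofReal q.2 =
      ENNReal.ofReal (F.f q.1 (q.2 - x)) * ENNReal.ofReal q.2 := by
    intro q
    unfold Kp
    by_cases hz : 1 ≤ q.2
    · rw [if_pos ⟨hx, hz⟩]
    · rw [if_neg (fun h => hz h.2), zero_mul]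
      have h2 : ((q.2 : ℤ) : ℝ) ≤ 0 := by
        have : q.2 ≤ 0 := by omega
        exact_mod_cast this
      rw [ENNReal.ofReal_of_nonpos h2, mul_zero]
  set T : ℝ≥0∞ := ∑' q : ℕ × ℤ, Kp F x q.1 q.2 * ENNReal.ofReal q.2 with hT
  have hT1 : T = ∑' q : ℕ × ℤ, ENNReal.ofReal (F.f q.1 q.2) * ENNReal.ofReal ((x : ℝ) + q.2) := by
    rw [hT]
    simp only [h1]
    rw [ENNReal.tsum_prod', ENNReal.tsum_prod']
    refine tsum_congr fun l => ?_
    rw [← (Equiv.addLeft x).tsum_eq]
    refine tsum_congr fun h => ?_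
    simp only [Equiv.coe_addLeft, add_sub_cancel_left]
    push_cast
    rfl
  have hT2 : T = ∑' q : ℕ × ℤ, ENNReal.ofReal (F.f q.1 q.2) * ENNReal.ofReal ((x : ℝ) - q.2) := by
    rw [hT1, ENNReal.tsum_prod', ENNReal.tsum_prod']
    refine tsum_congr fun l => ?_
    rw [← (Equiv.neg ℤ).tsum_eq]
    refine tsum_congr fun h => ?_
    simp only [Equiv.neg_apply]
    rw [F.f_symm]
    push_cast
    rw [← sub_eq_add_neg]
  have hmass : ∑' q : ℕ × ℤ, ENNReal.ofReal (F.f q.1 q.2) = 1 := by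
    rw [← ENNReal.ofReal_tsum_of_nonneg (f := fun q : ℕ × ℤ => F.f q.1 q.2)
      (fun q => F.f_nonneg q.1 q.2) F.f_sum.summable, F.f_sum.tsum_eq, ENNReal.ofReal_one]
  have h2 : 2 * ENNReal.ofReal x ≤ 2 * T := by
    calc 2 * ENNReal.ofReal x = ∑' q : ℕ × ℤ, ENNReal.ofReal (F.f q.1 q.2) * (2 * ENNReal.ofReal x) := by
          rw [ENNReal.tsum_mul_right, hmass, one_mul]
      _ ≤ ∑' q : ℕ × ℤ, (ENNReal.ofReal (F.f q.1 q.2) * ENNReal.ofReal ((x : ℝ) + q.2) +
            ENNReal.ofReal (F.f q.1 q.2) * ENNReal.ofReal ((x : ℝ) - q.2)) := by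
          refine ENNReal.tsum_le_tsum fun q => ?_
          rw [← mul_add]
          refine mul_le_mul_right ?_ _
          rw [two_mul]
          have h3 : (x : ℝ) + x = ((x : ℝ) + q.2) + ((x : ℝ) - q.2) := by ring
          rw [← ENNReal.ofReal_add (by positivity) (by positivity), h3]
          exact ENNReal.ofReal_add_le
      _ = T + T := by rw [ENNReal.tsum_add, ← hT1, ← hT2]
      _ = 2 * T := (two_mul T).symm
  exact (ENNReal.mul_le_mul_iff_right (by norm_num) (by norm_num)).1 h2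

end Pool.Agent.Helper18.WK
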