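import Pool.Agent.Helper18.WK.LstB
import Pool.Agent.Helper18.WK.SuperP

/-!
# Project WK, block WK-H3: the last piece of a stopped chain is rarely long

`over_le` by `super_stp` with `u j z = phi j z + (n - j) * eps`, `phi j z = z` if `z > 2 R` or `j > 2 n` and `0`
otherwise, `eps = C R exp (-c R)`: from `(j, z)` with `z < R`, `j < n`, one piece gives
`∑ Kp F z l z' phi (j + l) z' ≤ ∑ f l h (R + |h|) 1{l + |h| ≥ R} ≤ eps`, and every piece has length `≥ 1`.
-/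

open scoped ENNReal Classical

namespace Pool.Agent.Helper18.WK

private theorem kp_mass_h3 (F : Law) (x : ℤ) : ∑' q : ℕ × ℤ, Kp F x q.1 q.2 ≤ 1 := by
  have h1 : ∑' q : ℕ × ℤ, K0 F x q.1 q.2 = 1 := by
    have h2 : ∑' p : ℕ × ℤ, ENNReal.ofReal (F.f p.1 p.2) = 1 := by
      have h3 := ENNReal.ofReal_tsum_of_nonneg (f := fun p : ℕ × ℤ => F.f p.1 p.2)
        (fun p => F.f_nonneg p.1 p.2) F.f_sum.summable
      rw [← h3, F.f_sum.tsum_eq, ENNReal.ofReal_one]
    rw [← h2]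
    exact (Equiv.prodCongr (Equiv.refl ℕ) (Equiv.subRight x)).tsum_eq
      (fun p : ℕ × ℤ => ENNReal.ofReal (F.f p.1 p.2))
  rw [← h1]
  refine ENNReal.tsum_le_tsum fun q => ?_
  unfold Kp K0
  split_ifs
  · exact le_rfl
  · exact zero_le

private theorem poly_h3 {r : ℝ} (hr : 0 < r) {u : ℝ} (hu : 0 ≤ u) :
    (1 + u) * Real.exp (-r * u) ≤ (1 + 2 / r) * Real.exp (-(r / 2) * u) := by
  have h1 : r / 2 * u + 1 ≤ Real.exp (r / 2 * u) := Real.add_one_le_exp _
  have h2 : 1 + u ≤ (1 + 2 / r) * Real.exp (r / 2 * u) := by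
    have h3 : (1 + 2 / r) * (r / 2 * u + 1) ≤ (1 + 2 / r) * Real.exp (r / 2 * u) :=
      mul_le_mul_of_nonneg_left h1 (by positivity)
    have h4 : (1 + 2 / r) * (r / 2 * u + 1) = 1 + u + 2 / r + r / 2 * u := by field_simp; ring
    have h5 : 0 ≤ 2 / r := by positivity
    have h6 : 0 ≤ r / 2 * u := by positivity
    linarith
  calc (1 + u) * Real.exp (-r * u)
      ≤ ((1 + 2 / r) * Real.exp (r / 2 * u)) * Real.exp (-r * u) :=
        mul_le_mul_of_nonneg_right h2 (Real.exp_pos _).le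
    _ = (1 + 2 / r) * (Real.exp (r / 2 * u) * Real.exp (-r * u)) := by ring
    _ = _ := by
        rw [← Real.exp_add]
        congr 2; ring

/-- one term of the sum over the last piece -/
private theorem term_h3 (F : Law) {R l : ℕ} {z z' : ℤ} (hR : 1 ≤ R) (hz : 1 ≤ z) (hzR : z < R)
    (h : (R : ℝ) ≤ l + |((z' - z : ℤ) : ℝ)|) :
    Kp F z l z' * ENNReal.ofReal z' ≤
      ENNReal.ofReal (F.B * (1 + 2 / (F.a / 2)) * R * Real.exp (-(F.a / 2) * R)) *
        (ENNReal.ofReal (Real.exp (-(F.a / 4) * l)) *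
          ENNReal.ofReal (Real.exp (-(F.a / 4) * |((z' - z : ℤ) : ℝ)|))) := by
  have ha := F.a_pos
  have hB := F.B_pos
  have hR' : (1 : ℝ) ≤ R := by exact_mod_cast hR
  have hz1 : (1 : ℝ) ≤ z := by exact_mod_cast hz
  have hzR' : (z : ℝ) ≤ R := by exact_mod_cast hzR.le
  unfold Kp
  split_ifs with hh
  · have hz'1 : (1 : ℝ) ≤ z' := by exact_mod_cast hh.2
    rw [← ENNReal.ofReal_mul (F.f_nonneg _ _), ← ENNReal.ofReal_mul (by positivity),
      ← ENNReal.ofReal_mul (by positivity)]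
    apply ENNReal.ofReal_le_ofReal
    have hd0 : 0 ≤ |((z' - z : ℤ) : ℝ)| := abs_nonneg _
    have hl0 : (0 : ℝ) ≤ l := Nat.cast_nonneg l
    have htail := F.f_tail l (z' - z)
    have hzz : (z' : ℝ) ≤ R * (1 + (l + |((z' - z : ℤ) : ℝ)|)) := by
      have h1 : (z' : ℝ) - z ≤ |((z' - z : ℤ) : ℝ)| := by
        push_cast
        exact le_abs_self _
      nlinarith
    set d : ℝ := |((z' - z : ℤ) : ℝ)| with hd
    have hp := poly_h3 (half_pos ha) (by positivity : 0 ≤ (l : ℝ) + d)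
    have e1 : Real.exp (-F.a * (l + d)) ≤ Real.exp (-(F.a / 2) * R) * Real.exp (-(F.a / 2) * (l + d)) := by
      rw [← Real.exp_add]
      apply Real.exp_le_exp.2
      nlinarith
    calc F.f l (z' - z) * z' ≤ (F.B * (Real.exp (-(F.a / 2) * R) * Real.exp (-(F.a / 2) * (l + d)))) *
          (R * (1 + (l + d))) :=
          mul_le_mul (htail.trans (mul_le_mul_of_nonneg_left e1 hB.le)) hzz (by linarith) (by positivity)
      _ = F.B * R * Real.exp (-(F.a / 2) * R) * ((1 + (l + d)) * Real.exp (-(F.a / 2) * (l + d))) := by ring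
      _ ≤ F.B * R * Real.exp (-(F.a / 2) * R) *
          ((1 + 2 / (F.a / 2)) * Real.exp (-(F.a / 2 / 2) * (l + d))) :=
          mul_le_mul_of_nonneg_left hp (by positivity)
      _ = F.B * (1 + 2 / (F.a / 2)) * R * Real.exp (-(F.a / 2) * R) *
          (Real.exp (-(F.a / 2 / 2) * (l + d))) := by ring
      _ = _ := by
          rw [← Real.exp_add]
          congr 2
          ring
  · simp

private theorem piece_h3 (F : Law) : ∃ C c : ℝ, 0 < C ∧ 0 < c ∧ ∀ (R : ℕ) (z : ℤ), 1 ≤ R → z < R →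
    ∑' q : ℕ × ℤ, Kp F z q.1 q.2 * (if (R : ℝ) ≤ q.1 + |((q.2 - z : ℤ) : ℝ)| then ENNReal.ofReal q.2 else 0) ≤
      ENNReal.ofReal (C * R * Real.exp (-c * R)) := by
  have ha := F.a_pos
  have hB := F.B_pos
  have ha4 : 0 < F.a / 4 := by positivity
  have hs1 := a4_exp_nat ha4
  have hs2 := a4_exp_int ha4
  set S₁ : ℝ := ∑' n : ℕ, Real.exp (-(F.a / 4) * (n : ℝ)) with hS₁
  set S₂ : ℝ := ∑' h : ℤ, Real.exp (-(F.a / 4) * |(h : ℝ)|) with hS₂
  have hS₁0 : 0 ≤ S₁ := tsum_nonneg fun _ => (Real.exp_pos _).le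
  have hS₂0 : 0 ≤ S₂ := tsum_nonneg fun _ => (Real.exp_pos _).le
  have e1 : ∑' n : ℕ, ENNReal.ofReal (Real.exp (-(F.a / 4) * (n : ℝ))) = ENNReal.ofReal S₁ :=
    (ENNReal.ofReal_tsum_of_nonneg (fun _ => (Real.exp_pos _).le) hs1).symm
  have e2 : ∑' h : ℤ, ENNReal.ofReal (Real.exp (-(F.a / 4) * |(h : ℝ)|)) = ENNReal.ofReal S₂ :=
    (ENNReal.ofReal_tsum_of_nonneg (fun _ => (Real.exp_pos _).le) hs2).symm
  refine ⟨F.B * (1 + 2 / (F.a / 2)) * (S₁ * S₂) + 1, F.a / 2, by positivity, half_pos ha, fun R z hR hz => ?_⟩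
  rcases le_or_gt 1 z with hz1 | hz1
  swap
  · have h0 : ∀ q : ℕ × ℤ, Kp F z q.1 q.2 *
        (if (R : ℝ) ≤ q.1 + |((q.2 - z : ℤ) : ℝ)| then ENNReal.ofReal q.2 else 0) = 0 := fun q => by
      have : Kp F z q.1 q.2 = 0 := if_neg fun h => by omega
      rw [this, zero_mul]
    simp only [h0, tsum_zero]
    exact zero_le
  calc ∑' q : ℕ × ℤ, Kp F z q.1 q.2 *
        (if (R : ℝ) ≤ q.1 + |((q.2 - z : ℤ) : ℝ)| then ENNReal.ofReal q.2 else 0)
      ≤ ∑' q : ℕ × ℤ, ENNReal.ofReal (F.B * (1 + 2 / (F.a / 2)) * R * Real.exp (-(F.a / 2) * R)) *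
        (ENNReal.ofReal (Real.exp (-(F.a / 4) * q.1)) *
          ENNReal.ofReal (Real.exp (-(F.a / 4) * |((q.2 - z : ℤ) : ℝ)|))) := by
        refine ENNReal.tsum_le_tsum fun q => ?_
        by_cases h : (R : ℝ) ≤ q.1 + |((q.2 - z : ℤ) : ℝ)|
        · rw [if_pos h]
          exact term_h3 F hR hz1 hz h
        · rw [if_neg h, mul_zero]
          exact zero_le
    _ = ENNReal.ofReal (F.B * (1 + 2 / (F.a / 2)) * R * Real.exp (-(F.a / 2) * R)) *
        (ENNReal.ofReal S₁ * ENNReal.ofReal S₂) := by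
        rw [ENNReal.tsum_mul_left, ENNReal.tsum_prod']
        congr 1
        have h1 : ∀ l : ℕ, ∑' z' : ℤ, ENNReal.ofReal (Real.exp (-(F.a / 4) * (l : ℝ))) *
            ENNReal.ofReal (Real.exp (-(F.a / 4) * |((z' - z : ℤ) : ℝ)|)) =
            ENNReal.ofReal (Real.exp (-(F.a / 4) * (l : ℝ))) * ENNReal.ofReal S₂ := fun l => by
          rw [ENNReal.tsum_mul_left, ← e2]
          congr 1
          exact (Equiv.subRight z).tsum_eq
            (fun h : ℤ => ENNReal.ofReal (Real.exp (-(F.a / 4) * |(h : ℝ)|)))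
        simp only [h1]
        rw [ENNReal.tsum_mul_right, e1]
    _ ≤ _ := by
        rw [← ENNReal.ofReal_mul hS₁0, ← ENNReal.ofReal_mul (by positivity)]
        apply ENNReal.ofReal_le_ofReal
        have h2 : 0 ≤ (R : ℝ) * Real.exp (-(F.a / 2) * R) := by positivity
        calc F.B * (1 + 2 / (F.a / 2)) * R * Real.exp (-(F.a / 2) * R) * (S₁ * S₂)
            = F.B * (1 + 2 / (F.a / 2)) * (S₁ * S₂) * (R * Real.exp (-(F.a / 2) * R)) := by ring
          _ ≤ (F.B * (1 + 2 / (F.a / 2)) * (S₁ * S₂) + 1) * (R * Real.exp (-(F.a / 2) * R)) :=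
              mul_le_mul_of_nonneg_right (by linarith) h2
          _ = _ := by ring

theorem over_le (F : Law) : ∃ C c : ℝ, 0 < C ∧ 0 < c ∧ ∀ (n R : ℕ) (x : ℤ), 1 ≤ R → R ≤ n → 1 ≤ x → x ≤ R →
    ∑' c₁ : Ch, (if Stp (fun j z => (R : ℤ) ≤ z ∨ n ≤ j) 0 x c₁ ∧ (2 * (R : ℤ) < ce x c₁ ∨ 2 * n < cl c₁) then
      cw (Kp F) x c₁ * ENNReal.ofReal (ce x c₁) else 0) ≤ ENNReal.ofReal (C * n * R * Real.exp (-c * R)) := by
  obtain ⟨C, c, hC, hc, hpiece⟩ := piece_h3 F
  refine ⟨C, c, hC, hc, fun n R x hR hRn hx1 hxR => ?_⟩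
  set ε : ℝ≥0∞ := ENNReal.ofReal (C * R * Real.exp (-c * R)) with hε
  set φ : ℕ → ℤ → ℝ≥0∞ := fun j z => if 2 * (R : ℤ) < z ∨ 2 * n < j then ENNReal.ofReal z else 0 with hφ
  set u : ℕ → ℤ → ℝ≥0∞ := fun j z => φ j z + ((n - j : ℕ) : ℝ≥0∞) * ε with hu
  have hsup := super_stp (Kp F) (fun j z => (R : ℤ) ≤ z ∨ n ≤ j) u (fun j z hjz => ?_) 0 x
  · have h1 : u 0 x = (n : ℝ≥0∞) * ε := by
      have h2 : φ 0 x = 0 := if_neg (by omega)
      show φ 0 x + ((n - 0 : ℕ) : ℝ≥0∞) * ε = _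
      rw [h2, zero_add, Nat.sub_zero]
    have h2 : (n : ℝ≥0∞) * ε = ENNReal.ofReal (C * n * R * Real.exp (-c * R)) := by
      rw [hε, ← ENNReal.ofReal_natCast n, ← ENNReal.ofReal_mul (Nat.cast_nonneg n)]
      congr 1; ring
    rw [← h2, ← h1]
    refine le_trans (ENNReal.tsum_le_tsum fun c₁ => ?_) hsup
    by_cases h : Stp (fun j z => (R : ℤ) ≤ z ∨ n ≤ j) 0 x c₁
    · by_cases h' : 2 * (R : ℤ) < ce x c₁ ∨ 2 * n < cl c₁
      · rw [if_pos ⟨h, h'⟩, if_pos h]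
        refine mul_le_mul_right ?_ _
        have h3 : φ (0 + cl c₁) (ce x c₁) = ENNReal.ofReal (ce x c₁) := if_pos (by rw [Nat.zero_add]; exact h')
        rw [← h3]
        exact le_self_add
      · rw [if_neg fun h3 => h' h3.2]
        exact zero_le
    · rw [if_neg fun h3 => h h3.1]
      exact zero_le
  · push Not at hjz
    obtain ⟨hz, hj⟩ := hjz
    have h1 : ∀ q : ℕ × ℤ, Kp F z q.1 q.2 * u (j + q.1) q.2 ≤
        Kp F z q.1 q.2 * (if (R : ℝ) ≤ q.1 + |((q.2 - z : ℤ) : ℝ)| then ENNReal.ofReal q.2 else 0) +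
          Kp F z q.1 q.2 * (((n - j - 1 : ℕ) : ℝ≥0∞) * ε) := by
      rintro ⟨l, z'⟩
      rcases Nat.eq_zero_or_pos l with hl | hl
      · subst hl
        have : Kp F z 0 z' = 0 := by
          unfold Kp
          split_ifs
          · rw [F.f_zero, ENNReal.ofReal_zero]
          · rfl
        simp only [this, zero_mul, add_zero, le_refl]
      · rw [← mul_add]
        refine mul_le_mul_right (add_le_add ?_ (mul_le_mul_left ?_ _)) _
        · show φ (j + l) z' ≤ _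
          simp only [hφ]
          by_cases h : 2 * (R : ℤ) < z' ∨ 2 * n < j + l
          · rw [if_pos h, if_pos]
            have hd : (0 : ℝ) ≤ |((z' - z : ℤ) : ℝ)| := abs_nonneg _
            have hl0 : (0 : ℝ) ≤ l := Nat.cast_nonneg l
            rcases h with h | h
            · have h2 : (R : ℤ) ≤ z' - z := by omega
              have h3 : (R : ℝ) ≤ ((z' - z : ℤ) : ℝ) := by exact_mod_cast h2
              have h4 := le_abs_self ((z' - z : ℤ) : ℝ)
              linarith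
            · have h2 : R ≤ l := by omega
              have h3 : (R : ℝ) ≤ l := by exact_mod_cast h2
              linarith
          · rw [if_neg h]
            exact zero_le
        · exact_mod_cast (by omega : n - (j + l) ≤ n - j - 1)
    calc ∑' q : ℕ × ℤ, Kp F z q.1 q.2 * u (j + q.1) q.2
        ≤ ∑' q : ℕ × ℤ, (Kp F z q.1 q.2 *
            (if (R : ℝ) ≤ q.1 + |((q.2 - z : ℤ) : ℝ)| then ENNReal.ofReal q.2 else 0) +
          Kp F z q.1 q.2 * (((n - j - 1 : ℕ) : ℝ≥0∞) * ε)) := ENNReal.tsum_le_tsum h1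
      _ = ∑' q : ℕ × ℤ, Kp F z q.1 q.2 *
            (if (R : ℝ) ≤ q.1 + |((q.2 - z : ℤ) : ℝ)| then ENNReal.ofReal q.2 else 0) +
          (∑' q : ℕ × ℤ, Kp F z q.1 q.2) * (((n - j - 1 : ℕ) : ℝ≥0∞) * ε) := by
          rw [ENNReal.tsum_add, ENNReal.tsum_mul_right]
      _ ≤ ε + 1 * (((n - j - 1 : ℕ) : ℝ≥0∞) * ε) :=
          add_le_add (hpiece R z hR hz) (mul_le_mul_left (kp_mass_h3 F z) _)
      _ = ((n - j : ℕ) : ℝ≥0∞) * ε := by
          have h2 : n - j = (n - j - 1) + 1 := by omega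
          rw [h2, Nat.add_sub_cancel]
          push_cast
          ring
      _ ≤ u j z := le_add_self

end Pool.Agent.Helper18.WK
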