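import Pool.Agent.Helper18.WK.LstA

/-!
# Project WK, block WK-L2: stopped chains

`stp_unique`: two stopped prefixes of the same list are equal (induction). `split_stp`: `(c₁, c₂) ↦ c₁ ++ c₂` is
injective on the pairs with `Stp S j x c₁`, its image is the set of the lists with a stopped prefix
(`Function.Injective.tsum_eq`, or induction). `sc_stp` = `split_stp` with `cw_append`, `cl_append`, `ce_append`.
`super_stp`: the sum over the lists of at most `k` pieces is `≤ u j x` by induction on `k` (`tsum_ch`), then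
`ENNReal.tsum_eq_iSup_sum` or monotone limits. `fst_stp`, `q_stp`: inductions with `tsum_ch` and the recursions
`Fst_succ`, `Q_succ` (`Fst K (m - j) ...` from the position `j`). `long_le`: union bound over the position of a
piece of length `≥ w`.
-/

open scoped ENNReal Classical

namespace Pool.Agent.Helper18.WK

theorem stp_unique {S : ℕ → ℤ → Prop} {j : ℕ} {x : ℤ} {c₁ c₂ d₁ d₂ : Ch} (h : c₁ ++ c₂ = d₁ ++ d₂)
    (hc : Stp S j x c₁) (hd : Stp S j x d₁) : c₁ = d₁ := by
  induction c₁ generalizing d₁ j x with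
  | nil =>
    cases d₁ with
    | nil => rfl
    | cons q d => exact absurd (show S j x from hc) (show ¬ S j x from hd.1)
  | cons q c ih =>
    cases d₁ with
    | nil => exact absurd (show S j x from hd) (show ¬ S j x from hc.1)
    | cons q' d =>
      rw [List.cons_append, List.cons_append, List.cons.injEq] at h
      obtain ⟨h1, h2⟩ := h
      subst h1
      rw [ih h2 hc.2 hd.2]

theorem split_stp (S : ℕ → ℤ → Prop) (j : ℕ) (x : ℤ) (F : Ch → ℝ≥0∞) :
    ∑' c : Ch, (if ∃ c₁ c₂ : Ch, c = c₁ ++ c₂ ∧ Stp S j x c₁ then F c else 0) =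
      ∑' c₁ : Ch, ∑' c₂ : Ch, (if Stp S j x c₁ then F (c₁ ++ c₂) else 0) := by
  have h1 : ∀ c : Ch, (if ∃ c₁ c₂ : Ch, c = c₁ ++ c₂ ∧ Stp S j x c₁ then F c else 0) =
      ∑' p : Ch × Ch, (if c = p.1 ++ p.2 then (if Stp S j x p.1 then F c else 0) else 0) := by
    intro c
    by_cases h : ∃ c₁ c₂ : Ch, c = c₁ ++ c₂ ∧ Stp S j x c₁
    · rw [if_pos h]
      obtain ⟨c₁, c₂, hc, hs⟩ := h
      rw [tsum_eq_single (c₁, c₂)]
      · rw [if_pos hc, if_pos hs]
      · intro p hp
        by_cases h1 : c = p.1 ++ p.2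
        · rw [if_pos h1]
          refine if_neg fun h2 => hp ?_
          have h3 : p.1 = c₁ := stp_unique (h1.symm.trans hc) h2 hs
          have h4 : p.1 ++ p.2 = p.1 ++ c₂ := by
            rw [← h1, hc, h3]
          exact Prod.ext h3 (List.append_cancel_left h4)
        · rw [if_neg h1]
    · rw [if_neg h]
      symm
      rw [ENNReal.tsum_eq_zero]
      intro p
      by_cases h1 : c = p.1 ++ p.2
      · rw [if_pos h1]
        exact if_neg fun h2 => h ⟨p.1, p.2, h1, h2⟩
      · rw [if_neg h1]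
  rw [tsum_congr h1, ENNReal.tsum_comm, ENNReal.tsum_prod']
  refine tsum_congr fun c₁ => tsum_congr fun c₂ => ?_
  refine (tsum_eq_single (c₁ ++ c₂) fun c hc => ?_).trans ?_
  · exact if_neg hc
  · exact if_pos rfl

theorem sc_stp (K : Ker) (S : ℕ → ℤ → Prop) (n : ℕ) (x y : ℤ) (Φ : Ch → ℝ≥0∞) :
    Sc K n x y (fun c => if ∃ c₁ c₂ : Ch, c = c₁ ++ c₂ ∧ Stp S 0 x c₁ then Φ c else 0) =
      ∑' c₁ : Ch, (if Stp S 0 x c₁ ∧ cl c₁ ≤ n then
        cw K x c₁ * Sc K (n - cl c₁) (ce x c₁) y (fun c₂ => Φ (c₁ ++ c₂)) else 0) := by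
  have h1 : Sc K n x y (fun c => if ∃ c₁ c₂ : Ch, c = c₁ ++ c₂ ∧ Stp S 0 x c₁ then Φ c else 0) =
      ∑' c : Ch, (if ∃ c₁ c₂ : Ch, c = c₁ ++ c₂ ∧ Stp S 0 x c₁ then
        (if cl c = n ∧ ce x c = y then cw K x c * Φ c else 0) else 0) := by
    unfold Sc
    refine tsum_congr fun c => ?_
    beta_reduce
    by_cases h : ∃ c₁ c₂ : Ch, c = c₁ ++ c₂ ∧ Stp S 0 x c₁
    · rw [if_pos h, if_pos h]
    · rw [if_neg h, if_neg h, mul_zero, ite_self]
  rw [h1, split_stp S 0 x (fun c => if cl c = n ∧ ce x c = y then cw K x c * Φ c else 0)]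
  refine tsum_congr fun c₁ => ?_
  by_cases hs : Stp S 0 x c₁
  · by_cases hl : cl c₁ ≤ n
    · rw [if_pos ⟨hs, hl⟩, Sc, ← ENNReal.tsum_mul_left]
      refine tsum_congr fun c₂ => ?_
      rw [if_pos hs, cl_append, ce_append, cw_append]
      by_cases h2 : cl c₂ = n - cl c₁ ∧ ce (ce x c₁) c₂ = y
      · rw [if_pos h2, if_pos ⟨by omega, h2.2⟩, mul_assoc]
      · rw [if_neg h2, if_neg fun h3 => h2 ⟨by omega, h3.2⟩, mul_zero]
    · rw [if_neg fun h => hl h.2, ENNReal.tsum_eq_zero]
      intro c₂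
      rw [if_pos hs, cl_append]
      exact if_neg fun h => hl (by omega)
  · rw [if_neg fun h => hs h.1, ENNReal.tsum_eq_zero]
    intro c₂
    rw [if_neg hs]

theorem super_len99 (K : Ker) (S : ℕ → ℤ → Prop) (u : ℕ → ℤ → ℝ≥0∞)
    (hu : ∀ j x, ¬ S j x → ∑' q : ℕ × ℤ, K x q.1 q.2 * u (j + q.1) q.2 ≤ u j x) (k : ℕ) :
    ∀ (j : ℕ) (x : ℤ), ∑' c : Ch, (if c.length ≤ k then
      (if Stp S j x c then cw K x c * u (j + cl c) (ce x c) else 0) else 0) ≤ u j x := by
  induction k with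
  | zero =>
    intro j x
    rw [tsum_eq_single ([] : Ch)]
    · by_cases hs : S j x
      · rw [if_pos (by simp), if_pos (show Stp S j x [] from hs)]
        simp [cw, cl, ce]
      · rw [if_pos (by simp), if_neg (show ¬ Stp S j x [] from hs)]
        exact zero_le
    · intro c hc
      refine if_neg fun h => hc ?_
      exact List.length_eq_zero_iff.mp (Nat.le_zero.mp h)
  | succ k ih =>
    intro j x
    rw [tsum_ch]
    by_cases hs : S j x
    · have h2 : ∑' q : ℕ × ℤ, ∑' c : Ch, (if (q :: c).length ≤ k + 1 then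
          (if Stp S j x (q :: c) then cw K x (q :: c) * u (j + cl (q :: c)) (ce x (q :: c)) else 0)
          else 0) = 0 := by
        rw [ENNReal.tsum_eq_zero]
        intro q
        rw [ENNReal.tsum_eq_zero]
        intro c
        rw [if_neg (show ¬ Stp S j x (q :: c) from fun h => h.1 hs), ite_self]
      rw [h2, add_zero, if_pos (by simp), if_pos (show Stp S j x [] from hs)]
      simp [cw, cl, ce]
    · rw [if_pos (by simp), if_neg (show ¬ Stp S j x [] from hs), zero_add]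
      refine le_trans ?_ (hu j x hs)
      refine ENNReal.tsum_le_tsum fun q => ?_
      refine le_trans ?_ (mul_le_mul_right (ih (j + q.1) q.2) (K x q.1 q.2))
      rw [← ENNReal.tsum_mul_left]
      refine ENNReal.tsum_le_tsum fun c => ?_
      by_cases hl : c.length ≤ k
      · rw [if_pos (show (q :: c).length ≤ k + 1 by simpa using hl), if_pos hl]
        by_cases h3 : Stp S (j + q.1) q.2 c
        · rw [if_pos (show Stp S j x (q :: c) from ⟨hs, h3⟩), if_pos h3]
          refine le_of_eq ?_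
          change K x q.1 q.2 * cw K q.2 c * u (j + (q.1 + cl c)) (ce q.2 c) =
            K x q.1 q.2 * (cw K q.2 c * u (j + q.1 + cl c) (ce q.2 c))
          rw [mul_assoc, add_assoc]
        · rw [if_neg (show ¬ Stp S j x (q :: c) from fun h => h3 h.2), if_neg h3, mul_zero]
      · rw [if_neg (show ¬ (q :: c).length ≤ k + 1 by simpa using hl)]
        exact zero_le

theorem super_stp (K : Ker) (S : ℕ → ℤ → Prop) (u : ℕ → ℤ → ℝ≥0∞)
    (hu : ∀ j x, ¬ S j x → ∑' q : ℕ × ℤ, K x q.1 q.2 * u (j + q.1) q.2 ≤ u j x) (j : ℕ) (x : ℤ) :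
    ∑' c : Ch, (if Stp S j x c then cw K x c * u (j + cl c) (ce x c) else 0) ≤ u j x := by
  rw [ENNReal.tsum_eq_iSup_sum]
  refine iSup_le fun s => ?_
  refine le_trans ?_ (super_len99 K S u hu (s.sup List.length) j x)
  refine le_trans ?_ (ENNReal.sum_le_tsum s)
  refine Finset.sum_le_sum fun c hc => ?_
  rw [if_pos (show c.length ≤ s.sup List.length from Finset.le_sup (f := List.length) hc)]

theorem tsum_piece99 (f : ℕ × ℤ → ℝ≥0∞) (hf : ∀ z, f (0, z) = 0) :
    ∑' q : ℕ × ℤ, f q = ∑' l : ℕ, ∑' z : ℤ, f (l + 1, z) := by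
  rw [ENNReal.tsum_prod', tsum_eq_zero_add' ENNReal.summable]
  rw [show (∑' z : ℤ, f (0, z)) = 0 from by simp [hf], zero_add]

theorem fst_stp_aux99 (K : Ker) (hK : ∀ x z, K x 0 z = 0) (m d : ℕ) :
    ∀ (j : ℕ) (x : ℤ) (a : ℕ) (z : ℤ), m - j = d → Fst K d x a z =
      ∑' c : Ch, if Stp (fun i _ => m ≤ i) j x c ∧ cl c = a ∧ ce x c = z then cw K x c else 0 := by
  induction d using Nat.strong_induction_on with
  | _ d ih =>
    intro j x a z hd
    rcases d with _ | d
    · have hmj : m ≤ j := by omega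
      rw [Fst_zero, tsum_eq_single ([] : Ch)]
      · by_cases h : a = 0 ∧ x = z
        · rw [if_pos h, if_pos]
          · rfl
          · exact ⟨hmj, h.1.symm, h.2⟩
        · rw [if_neg h, if_neg]
          rintro ⟨_, h1, h2⟩
          exact h ⟨h1.symm, h2⟩
      · intro c hc
        cases c with
        | nil => exact absurd rfl hc
        | cons q c =>
          refine if_neg ?_
          rintro ⟨h1, _⟩
          exact h1.1 hmj
    · have hmj : ¬ m ≤ j := by omega
      rw [Fst_succ, tsum_ch, if_neg (fun h => hmj h.1), zero_add, tsum_piece99 _ (fun z' => ?_)]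
      · rw [tsum_eq_sum (s := Finset.range a)]
        · refine Finset.sum_congr rfl fun l hl => tsum_congr fun z' => ?_
          have hl' : l < a := Finset.mem_range.mp hl
          rw [ih (d - l) (by omega) (j + (l + 1)) z' (a - (l + 1)) z (by omega), ← ENNReal.tsum_mul_left]
          refine tsum_congr fun c => ?_
          by_cases h : Stp (fun i _ => m ≤ i) (j + (l + 1)) z' c ∧ cl c = a - (l + 1) ∧ ce z' c = z
          · rw [if_pos h, if_pos]
            · rfl
            · refine ⟨⟨hmj, h.1⟩, ?_, h.2.2⟩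
              have : cl ((l + 1, z') :: c) = (l + 1) + cl c := rfl
              rw [this, h.2.1]
              omega
          · rw [if_neg h, if_neg, mul_zero]
            rintro ⟨h1, h2, h3⟩
            refine h ⟨h1.2, ?_, h3⟩
            have : cl ((l + 1, z') :: c) = (l + 1) + cl c := rfl
            rw [this] at h2
            omega
        · intro l hl
          have hl' : a ≤ l := by
            by_contra h
            exact hl (Finset.mem_range.mpr (by omega))
          rw [ENNReal.tsum_eq_zero]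
          intro z'
          rw [ENNReal.tsum_eq_zero]
          intro c
          refine if_neg ?_
          rintro ⟨_, h2, _⟩
          have : cl ((l + 1, z') :: c) = (l + 1) + cl c := rfl
          rw [this] at h2
          omega
      · rw [ENNReal.tsum_eq_zero]
        intro c
        have : cw K x ((0, z') :: c) = K x 0 z' * cw K z' c := rfl
        rw [this, hK, zero_mul, ite_self]

theorem fst_stp (K : Ker) (hK : ∀ x z, K x 0 z = 0) (m : ℕ) (x : ℤ) (a : ℕ) (z : ℤ) :
    Fst K m x a z = ∑' c : Ch, if Stp (fun j _ => m ≤ j) 0 x c ∧ cl c = a ∧ ce x c = z then cw K x c else 0 :=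
  fst_stp_aux99 K hK m m 0 x a z (Nat.sub_zero m)

theorem q_stp_aux99 (K : Ker) (hK : ∀ x z, K x 0 z = 0) (m d : ℕ) :
    ∀ (j : ℕ) (x : ℤ), m - j = d → Q K d x =
      ∑' c : Ch, if Stp (fun i _ => m ≤ i) j x c then cw K x c else 0 := by
  induction d using Nat.strong_induction_on with
  | _ d ih =>
    intro j x hd
    rcases d with _ | d
    · have hmj : m ≤ j := by omega
      rw [Q_zero, tsum_eq_single ([] : Ch)]
      · rw [if_pos (show Stp (fun i _ => m ≤ i) j x [] from hmj)]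
        rfl
      · intro c hc
        cases c with
        | nil => exact absurd rfl hc
        | cons q c =>
          refine if_neg ?_
          intro h1
          exact h1.1 hmj
    · have hmj : ¬ m ≤ j := by omega
      rw [Q_succ, tsum_ch, if_neg (show ¬ Stp (fun i _ => m ≤ i) j x [] from hmj), zero_add,
        tsum_piece99 _ (fun z' => ?_)]
      · refine tsum_congr fun l => tsum_congr fun z' => ?_
        rw [ih (d - l) (by omega) (j + (l + 1)) z' (by omega), ← ENNReal.tsum_mul_left]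
        refine tsum_congr fun c => ?_
        by_cases h : Stp (fun i _ => m ≤ i) (j + (l + 1)) z' c
        · rw [if_pos h, if_pos (show Stp (fun i _ => m ≤ i) j x ((l + 1, z') :: c) from ⟨hmj, h⟩)]
          rfl
        · rw [if_neg h, if_neg (show ¬ Stp (fun i _ => m ≤ i) j x ((l + 1, z') :: c) from
            fun h1 => h h1.2), mul_zero]
      · rw [ENNReal.tsum_eq_zero]
        intro c
        have : cw K x ((0, z') :: c) = K x 0 z' * cw K z' c := rfl
        rw [this, hK, zero_mul, ite_self]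

theorem q_stp (K : Ker) (hK : ∀ x z, K x 0 z = 0) (m : ℕ) (x : ℤ) :
    Q K m x = ∑' c : Ch, if Stp (fun j _ => m ≤ j) 0 x c then cw K x c else 0 :=
  q_stp_aux99 K hK m m 0 x (Nat.sub_zero m)

theorem sc_fiber99 (K : Ker) (x : ℤ) (H : ℕ → ℤ → ℝ≥0∞) :
    ∑' c : Ch, cw K x c * H (cl c) (ce x c) = ∑' j : ℕ, ∑' z : ℤ, Sc K j x z (fun _ => 1) * H j z := by
  have h1 : ∀ j : ℕ, ∀ z : ℤ, Sc K j x z (fun _ => 1) * H j z =
      ∑' c : Ch, (if cl c = j then (if ce x c = z then cw K x c * H j z else 0) else 0) := by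
    intro j z
    rw [Sc, ← ENNReal.tsum_mul_right]
    refine tsum_congr fun c => ?_
    by_cases h : cl c = j
    · by_cases h' : ce x c = z
      · rw [if_pos ⟨h, h'⟩, if_pos h, if_pos h', mul_one]
      · rw [if_neg fun h2 => h' h2.2, if_pos h, if_neg h', zero_mul]
    · rw [if_neg fun h2 => h h2.1, if_neg h, zero_mul]
  have h2 : ∑' j : ℕ, ∑' z : ℤ, Sc K j x z (fun _ => 1) * H j z =
      ∑' c : Ch, ∑' j : ℕ, ∑' z : ℤ, (if cl c = j then (if ce x c = z then cw K x c * H j z else 0) else 0) := by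
    symm
    rw [ENNReal.tsum_comm]
    refine tsum_congr fun j => ?_
    rw [ENNReal.tsum_comm]
    exact tsum_congr fun z => (h1 j z).symm
  rw [h2]
  refine tsum_congr fun c => Eq.symm ?_
  refine (tsum_eq_single (cl c) fun j hj => ?_).trans ((tsum_eq_single (ce x c) fun z hz => ?_).trans ?_)
  · rw [ENNReal.tsum_eq_zero]
    intro z
    exact if_neg fun h => hj h.symm
  · rw [if_pos rfl]
    exact if_neg fun h => hz h.symm
  · rw [if_pos rfl, if_pos rfl]

/-- chains with a piece of length `≥ w` -/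
theorem long_le (K : Ker) (w n : ℕ) (x y : ℤ) :
    Sc K n x y (fun c => if ∃ q ∈ c, w ≤ q.1 then 1 else 0) ≤
      ∑ j ∈ Finset.range (n + 1), ∑ l ∈ Finset.Icc w n, ∑' z : ℤ, ∑' z' : ℤ,
        if j + l ≤ n then Sc K j x z (fun _ => 1) * K z l z' * Sc K (n - j - l) z' y (fun _ => 1) else 0 := by
  -- the chains split at the long piece
  have h1 : Sc K n x y (fun c => if ∃ q ∈ c, w ≤ q.1 then 1 else 0) ≤
      ∑' c : Ch, ∑' c₁ : Ch, ∑' q : ℕ × ℤ, ∑' c₂ : Ch, (if c = c₁ ++ q :: c₂ then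
        (if w ≤ q.1 ∧ cl c = n ∧ ce x c = y then cw K x c else 0) else 0) := by
    unfold Sc
    refine ENNReal.tsum_le_tsum fun c => ?_
    beta_reduce
    by_cases h : cl c = n ∧ ce x c = y
    · rw [if_pos h]
      by_cases h' : ∃ q ∈ c, w ≤ q.1
      · rw [if_pos h', mul_one]
        obtain ⟨q, hq, hw⟩ := h'
        obtain ⟨c₁, c₂, hc⟩ := List.append_of_mem hq
        refine le_trans ?_ (ENNReal.le_tsum c₁)
        refine le_trans ?_ (ENNReal.le_tsum q)
        refine le_trans ?_ (ENNReal.le_tsum c₂)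
        rw [if_pos hc, if_pos ⟨hw, h⟩]
      · rw [if_neg h', mul_zero]
        exact zero_le
    · rw [if_neg h]
      exact zero_le
  have h2 : (∑' c : Ch, ∑' c₁ : Ch, ∑' q : ℕ × ℤ, ∑' c₂ : Ch, (if c = c₁ ++ q :: c₂ then
        (if w ≤ q.1 ∧ cl c = n ∧ ce x c = y then cw K x c else 0) else 0)) =
      ∑' q : ℕ × ℤ, ∑' c₁ : Ch, ∑' c₂ : Ch,
        (if w ≤ q.1 ∧ cl (c₁ ++ q :: c₂) = n ∧ ce x (c₁ ++ q :: c₂) = y then cw K x (c₁ ++ q :: c₂) else 0) := by
    rw [ENNReal.tsum_comm]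
    have h3 : ∀ c₁ : Ch, (∑' c : Ch, ∑' q : ℕ × ℤ, ∑' c₂ : Ch, (if c = c₁ ++ q :: c₂ then
        (if w ≤ q.1 ∧ cl c = n ∧ ce x c = y then cw K x c else 0) else 0)) =
        ∑' q : ℕ × ℤ, ∑' c₂ : Ch,
        (if w ≤ q.1 ∧ cl (c₁ ++ q :: c₂) = n ∧ ce x (c₁ ++ q :: c₂) = y then
          cw K x (c₁ ++ q :: c₂) else 0) := by
      intro c₁
      rw [ENNReal.tsum_comm]
      refine tsum_congr fun q => ?_
      rw [ENNReal.tsum_comm]
      refine tsum_congr fun c₂ => ?_
      refine (tsum_eq_single (c₁ ++ q :: c₂) fun c hc => ?_).trans ?_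
      · exact if_neg hc
      · exact if_pos rfl
    rw [tsum_congr h3, ENNReal.tsum_comm]
  have h4 : ∀ q : ℕ × ℤ, (∑' c₁ : Ch, ∑' c₂ : Ch,
        (if w ≤ q.1 ∧ cl (c₁ ++ q :: c₂) = n ∧ ce x (c₁ ++ q :: c₂) = y then
          cw K x (c₁ ++ q :: c₂) else 0)) =
      ∑' j : ℕ, ∑' z : ℤ, Sc K j x z (fun _ => 1) *
        (if w ≤ q.1 ∧ j + q.1 ≤ n then K z q.1 q.2 * Sc K (n - j - q.1) q.2 y (fun _ => 1) else 0) := by
    intro q
    rw [← sc_fiber99 K x (fun j z => if w ≤ q.1 ∧ j + q.1 ≤ n then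
      K z q.1 q.2 * Sc K (n - j - q.1) q.2 y (fun _ => 1) else 0)]
    refine tsum_congr fun c₁ => ?_
    have e1 : ∀ c₂ : Ch, cl (c₁ ++ q :: c₂) = cl c₁ + (q.1 + cl c₂) := fun c₂ => by
      rw [cl_append]
      rfl
    have e2 : ∀ c₂ : Ch, ce x (c₁ ++ q :: c₂) = ce q.2 c₂ := fun c₂ => by
      rw [ce_append]
      rfl
    have e3 : ∀ c₂ : Ch, cw K x (c₁ ++ q :: c₂) = cw K x c₁ * (K (ce x c₁) q.1 q.2 * cw K q.2 c₂) :=
      fun c₂ => by
        rw [cw_append]
        rfl
    by_cases h5 : w ≤ q.1 ∧ cl c₁ + q.1 ≤ n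
    · rw [if_pos h5, Sc, ← ENNReal.tsum_mul_left, ← ENNReal.tsum_mul_left]
      refine tsum_congr fun c₂ => ?_
      rw [e1, e2, e3]
      by_cases h6 : cl c₂ = n - cl c₁ - q.1 ∧ ce q.2 c₂ = y
      · rw [if_pos h6, if_pos ⟨h5.1, by omega, h6.2⟩, mul_one]
      · rw [if_neg h6, if_neg fun h7 => h6 ⟨by omega, h7.2.2⟩, mul_zero, mul_zero]
    · rw [if_neg h5, mul_zero, ENNReal.tsum_eq_zero]
      intro c₂
      rw [e1]
      exact if_neg fun h7 => h5 ⟨h7.1, by omega⟩
  have h5 : (∑' q : ℕ × ℤ, ∑' j : ℕ, ∑' z : ℤ, Sc K j x z (fun _ => 1) *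
        (if w ≤ q.1 ∧ j + q.1 ≤ n then K z q.1 q.2 * Sc K (n - j - q.1) q.2 y (fun _ => 1) else 0)) =
      ∑' j : ℕ, ∑' l : ℕ, ∑' z : ℤ, ∑' z' : ℤ, Sc K j x z (fun _ => 1) *
        (if w ≤ l ∧ j + l ≤ n then K z l z' * Sc K (n - j - l) z' y (fun _ => 1) else 0) := by
    rw [ENNReal.tsum_comm]
    refine tsum_congr fun j => ?_
    rw [ENNReal.tsum_prod']
    refine tsum_congr fun l => ?_
    rw [ENNReal.tsum_comm]
  refine h1.trans (le_of_eq ?_)
  rw [h2, tsum_congr h4, h5, tsum_eq_sum (s := Finset.range (n + 1))]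
  · refine Finset.sum_congr rfl fun j _ => ?_
    rw [tsum_eq_sum (s := Finset.Icc w n)]
    · refine Finset.sum_congr rfl fun l hl => tsum_congr fun z => tsum_congr fun z' => ?_
      have hw : w ≤ l := (Finset.mem_Icc.mp hl).1
      by_cases h6 : j + l ≤ n
      · rw [if_pos ⟨hw, h6⟩, if_pos h6, mul_assoc]
      · rw [if_neg fun h7 => h6 h7.2, if_neg h6, mul_zero]
    · intro l hl
      rw [ENNReal.tsum_eq_zero]
      intro z
      rw [ENNReal.tsum_eq_zero]
      intro z'
      rw [if_neg fun h7 => hl (Finset.mem_Icc.mpr ⟨h7.1, by omega⟩), mul_zero]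
  · intro j hj
    rw [ENNReal.tsum_eq_zero]
    intro l
    rw [ENNReal.tsum_eq_zero]
    intro z
    rw [ENNReal.tsum_eq_zero]
    intro z'
    rw [if_neg fun h7 => hj (Finset.mem_range.mpr (by omega)), mul_zero]

end Pool.Agent.Helper18.WK
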