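import Pool.Agent.Helper18.WK.Ins
import Pool.Agent.Helper18.WK.LstB
import Pool.Agent.Helper18.WK.LowH1
import Pool.Agent.Helper18.WK.LowH3
import Pool.Agent.Helper18.WK.LowH2

/-!
# Project WK, blocks WK-H1 .. WK-H4: the walk reaches the height `R` (WK-H3: file LowH3)

WK-H1, `stay_le`. `KR F R`: pieces between heights in `[1, R)`. `n = C₁ R²`, `m = n / 2`. `Q (KR F R) n x =
∑_(a, z) Fst (KR F R) m x a z * Q (KR F R) (n - a) z` (first cut at a length `≥ m`; `q_fst`-like induction). For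
`a ≤ 3 m / 2`: `Q (KR F R) (m / 2) z ≤ Al (hk (KR F R)) k z + Tl F k (m / 2)` (`q_le`), `k = c m`;
`Al (hk (KR F R)) k z ≤ It (hk (K0 F)) R k z ≤ 2^(-k / (C R²))` (`escape`, `it_pow`), `Tl ≤ exp (-c m)` (`tl_le`), and
`∑ Fst ≤ Q (Kp F) m x ≤ C (1 + x) / √m` (`q_plus`). For `a > 3 m / 2`: `fst_over`. If `C₁` is large then
the total is `≤ δ x / R` for `R ≥ R₀`.

WK-H2. `sub_stp`: strong induction on `n - j` (a piece of length `0` has weight `0`), `tsum_ch`. `kp_mart`: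
`∑_(l, z) f l (z - x) z = x` and the terms `z ≤ 0` are `≤ 0` (real sums, `a4q`-lemmas of SuperP, or directly).

WK-H3, `over_le`: the last piece of `c` goes from `(j, z)`, `j < n`, `z < R`, to `(j + l, z')` with `z' > 2 R` (so
`z' - z > R`) or `l > n`: `≤ ∑_(j < n) ∑_z G (Kp F) j x z ∑_(l, h) f l h (R + |h|) 1{|h| > R or l > n} ≤ C n R exp (-c R)`.

WK-H4, `hit_low`: `n = C₁ R²`, `S = fun j z => R ≤ z ∨ n ≤ j`. `sub_stp` with `u j z = z`: `x ≤ ∑_(Stp) cw * ce`. The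
chains with `ce < R`: all heights are `< R`, their length is `≥ n`: at most `R * Q (KR F R) n x ≤ R * (x / (8 R))`
(`stay_le`, `q_stp`); the chains with `ce > 2 R` or `cl > 2 n`: `over_le`, `≤ x / 8`; the other ones are
`≤ 2 R * (the sum of hit_low)`.
-/

open scoped ENNReal Classical

namespace Pool.Agent.Helper18.WK

private theorem h4_lt {n R : ℕ} {c : Ch} : ∀ {j : ℕ} {x : ℤ},
    Stp (fun j z => (R : ℤ) ≤ z ∨ n ≤ j) j x c → ce x c < R → x < R := by
  induction c with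
  | nil => intro j x _ h; exact h
  | cons q c ih =>
    intro j x h _
    have h1 := h.1
    push Not at h1
    exact h1.1

private theorem h4_chain (F : Law) {n R : ℕ} {c : Ch} : ∀ {j : ℕ} {x : ℤ},
    Stp (fun j z => (R : ℤ) ≤ z ∨ n ≤ j) j x c → ce x c < R →
      Stp (fun j _ => n ≤ j) j x c ∧ cw (Kp F) x c = cw (KR F R) x c := by
  induction c with
  | nil =>
    intro j x h hx
    refine ⟨?_, rfl⟩
    have h1 : (R : ℤ) ≤ x ∨ n ≤ j := h
    have h2 : x < R := hx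
    show n ≤ j
    omega
  | cons q c ih =>
    intro j x h hx
    have hx' : ce q.2 c < R := hx
    have h1 := h.1
    push Not at h1
    obtain ⟨h2, h3⟩ := ih h.2 hx'
    have h4 : q.2 < (R : ℤ) := h4_lt h.2 hx'
    refine ⟨⟨?_, h2⟩, ?_⟩
    · show ¬ n ≤ j
      omega
    · simp only [cw]
      rw [h3]
      congr 1
      unfold KR
      rw [if_pos ⟨h1.1, h4⟩]

private theorem h4_exp {C c : ℝ} (hC : 0 < C) (hc : 0 < c) {R : ℝ} (hR : 0 < R) (h : 192 * C / c ^ 4 ≤ R) :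
    C * R ^ 3 * Real.exp (-c * R) ≤ 1 / 8 := by
  have h1 := Real.pow_div_factorial_le_exp (c * R) (by positivity) 4
  have h2 : ((Nat.factorial 4 : ℕ) : ℝ) = 24 := by norm_num [Nat.factorial]
  rw [h2] at h1
  have h3 : Real.exp (-c * R) = 1 / Real.exp (c * R) := by
    rw [neg_mul, Real.exp_neg, one_div]
  have h4 : 0 < (c * R) ^ 4 / 24 := by positivity
  rw [h3]
  have h5 : 1 / Real.exp (c * R) ≤ 1 / ((c * R) ^ 4 / 24) := one_div_le_one_div_of_le h4 h1
  have h6 : C * R ^ 3 * (1 / ((c * R) ^ 4 / 24)) = 24 * C / (c ^ 4 * R) := by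
    field_simp
  have h7 : 24 * C / (c ^ 4 * R) ≤ 1 / 8 := by
    rw [div_le_iff₀ (by positivity)] at h
    rw [div_le_div_iff₀ (by positivity) (by norm_num)]
    nlinarith
  calc C * R ^ 3 * (1 / Real.exp (c * R)) ≤ C * R ^ 3 * (1 / ((c * R) ^ 4 / 24)) :=
        mul_le_mul_of_nonneg_left h5 (by positivity)
    _ = _ := h6
    _ ≤ _ := h7

theorem hit_low (F : Law) : ∃ C₁ R₀ : ℕ, 1 ≤ C₁ ∧ 1 ≤ R₀ ∧ ∀ R : ℕ, R₀ ≤ R → ∀ x : ℤ, 1 ≤ x → x ≤ R →
    ENNReal.ofReal (x / (8 * R)) ≤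
      ∑' c : Ch, (if Stp (fun j z => (R : ℤ) ≤ z ∨ C₁ * R ^ 2 ≤ j) 0 x c ∧ (R : ℤ) ≤ ce x c ∧ ce x c ≤ 2 * R ∧
        cl c ≤ 2 * (C₁ * R ^ 2) then cw (Kp F) x c else 0) := by
  obtain ⟨C₁, R₁, hC₁, hR₁, hstay⟩ := stay_le F (δ := 1 / 8) (by norm_num)
  obtain ⟨C, c, hC, hc, hover⟩ := over_le F
  refine ⟨C₁, max R₁ ⌈192 * (C * C₁) / c ^ 4⌉₊, hC₁, hR₁.trans (le_max_left _ _), ?_⟩
  intro R hR x hx1 hx2
  have hRR₁ : R₁ ≤ R := (le_max_left _ _).trans hR
  have hR1 : 1 ≤ R := hR₁.trans hRR₁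
  have hR0 : (0 : ℝ) < R := by exact_mod_cast hR1
  have hC₁0 : (0 : ℝ) < C₁ := by exact_mod_cast hC₁
  have hRe : 192 * (C * C₁) / c ^ 4 ≤ R := (Nat.le_ceil _).trans (by exact_mod_cast (le_max_right _ _).trans hR)
  have hx1' : (1 : ℝ) ≤ x := by exact_mod_cast hx1
  set n : ℕ := C₁ * R ^ 2 with hn
  have hRn : R ≤ n := by
    rw [hn]
    nlinarith
  set S : ℕ → ℤ → Prop := fun j z => (R : ℤ) ≤ z ∨ n ≤ j with hS
  have hK0 : ∀ x z, Kp F x 0 z = 0 := by
    intro x z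
    unfold Kp
    split_ifs
    · rw [F.f_zero, ENNReal.ofReal_zero]
    · rfl
  have hKR0 : ∀ x z, KR F R x 0 z = 0 := by
    intro x z
    unfold KR
    rw [hK0, ite_self]
  -- the martingale
  have h1 := sub_stp (Kp F) hK0 S n (fun j x hj => Or.inr hj) (fun _ z => ENNReal.ofReal z)
    (fun j z _ => by
      rcases le_or_gt 1 z with hz | hz
      · exact kp_mart F z hz
      · have hz' : (z : ℝ) ≤ 0 := by exact_mod_cast (by omega : z ≤ 0)
        simp only [ENNReal.ofReal_of_nonpos hz']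
        exact zero_le) 0 x
  -- three parts
  set g : ℝ≥0∞ := ∑' c : Ch, (if Stp S 0 x c ∧ (R : ℤ) ≤ ce x c ∧ ce x c ≤ 2 * R ∧
        cl c ≤ 2 * n then cw (Kp F) x c else 0) with hg
  have h2 : ∑' c : Ch, (if Stp S 0 x c then cw (Kp F) x c * ENNReal.ofReal (ce x c) else 0) ≤
      ENNReal.ofReal (2 * R) * g +
      (ENNReal.ofReal R * ∑' c : Ch, (if Stp (fun j _ => n ≤ j) 0 x c then cw (KR F R) x c else 0) +
      ∑' c₁ : Ch, (if Stp S 0 x c₁ ∧ (2 * (R : ℤ) < ce x c₁ ∨ 2 * n < cl c₁) then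
      cw (Kp F) x c₁ * ENNReal.ofReal (ce x c₁) else 0)) := by
    rw [hg, ← ENNReal.tsum_mul_left, ← ENNReal.tsum_mul_left, ← ENNReal.tsum_add, ← ENNReal.tsum_add]
    refine ENNReal.tsum_le_tsum fun c => ?_
    by_cases hs : Stp S 0 x c
    swap
    · rw [if_neg hs]; exact zero_le
    rw [if_pos hs]
    by_cases h3 : 2 * (R : ℤ) < ce x c ∨ 2 * n < cl c
    · rw [if_pos (⟨hs, h3⟩ : Stp S 0 x c ∧ (2 * (R : ℤ) < ce x c ∨ 2 * n < cl c))]
      exact le_add_left (le_add_left le_rfl)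
    push Not at h3
    by_cases h4 : (R : ℤ) ≤ ce x c
    · rw [if_pos (⟨hs, h4, h3.1, h3.2⟩ : Stp S 0 x c ∧ (R : ℤ) ≤ ce x c ∧ ce x c ≤ 2 * R ∧ cl c ≤ 2 * n)]
      refine le_add_right ?_
      rw [mul_comm]
      refine mul_le_mul_left (ENNReal.ofReal_le_ofReal ?_) _
      exact_mod_cast h3.1
    · push Not at h4
      obtain ⟨h5, h6⟩ := h4_chain F hs h4
      rw [if_pos h5, h6]
      refine le_add_left (le_add_right ?_)
      rw [mul_comm]
      refine mul_le_mul_left (ENNReal.ofReal_le_ofReal ?_) _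
      exact_mod_cast h4.le
  rw [← q_stp (KR F R) hKR0] at h2
  have h3 := hstay R hRR₁ x hx1
  have h4 := hover n R x hR1 hRn hx1 hx2
  have h5 : ENNReal.ofReal R * ENNReal.ofReal (1 / 8 * x / R) = ENNReal.ofReal (x / 8) := by
    rw [← ENNReal.ofReal_mul hR0.le]
    congr 1
    field_simp
  have h6 : C * (n : ℝ) * R * Real.exp (-c * R) ≤ x / 8 := by
    have h7 := h4_exp (C := C * C₁) (by positivity) hc hR0 hRe
    have h8 : C * (n : ℝ) * R * Real.exp (-c * R) = C * C₁ * R ^ 3 * Real.exp (-c * R) := by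
      rw [hn]
      push_cast
      ring
    rw [h8]
    linarith
  have h7 : ENNReal.ofReal x ≤ ENNReal.ofReal (2 * R) * g + (ENNReal.ofReal (x / 8) + ENNReal.ofReal (x / 8)) := by
    refine h1.trans (h2.trans ?_)
    refine add_le_add le_rfl (add_le_add ?_ ?_)
    · rw [← h5]
      exact mul_le_mul_right h3 _
    · exact h4.trans (ENNReal.ofReal_le_ofReal h6)
  have h8 : ENNReal.ofReal (3 / 4 * x) ≤ ENNReal.ofReal (2 * R) * g := by
    have e1 : ENNReal.ofReal (x : ℝ) = ENNReal.ofReal (3 / 4 * x) +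
        (ENNReal.ofReal (x / 8) + ENNReal.ofReal (x / 8)) := by
      rw [← ENNReal.ofReal_add (by positivity) (by positivity), ← ENNReal.ofReal_add (by positivity) (by positivity)]
      congr 1
      ring
    rw [e1] at h7
    refine ENNReal.le_of_add_le_add_right ?_ h7
    simp
  have h9 : ENNReal.ofReal (x / (8 * R)) = ENNReal.ofReal (1 / (2 * R)) * ENNReal.ofReal (1 / 4 * x) := by
    rw [← ENNReal.ofReal_mul (by positivity)]
    congr 1
    field_simp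
    norm_num
  have h10 : ENNReal.ofReal (1 / (2 * R)) * ENNReal.ofReal (2 * R) = 1 := by
    rw [← ENNReal.ofReal_mul (by positivity)]
    rw [show (1 : ℝ) / (2 * R) * (2 * R) = 1 by field_simp, ENNReal.ofReal_one]
  calc ENNReal.ofReal (x / (8 * R)) = ENNReal.ofReal (1 / (2 * R)) * ENNReal.ofReal (1 / 4 * x) := h9
    _ ≤ ENNReal.ofReal (1 / (2 * R)) * ENNReal.ofReal (3 / 4 * x) := by
        refine mul_le_mul_right (ENNReal.ofReal_le_ofReal ?_) _
        linarith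
    _ ≤ ENNReal.ofReal (1 / (2 * R)) * (ENNReal.ofReal (2 * R) * g) := mul_le_mul_right h8 _
    _ = g := by rw [← mul_assoc, h10, one_mul]

end Pool.Agent.Helper18.WK
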