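import Pool.Agent.Helper18.WK.Defs

/-!
# Project WK: chains as lists (definitions)

`Ch`: lists of pieces (length, new height). From the height `x`: weight `cw K x c`, length `cl c`, last height
`ce x c`. `Sc K n x y Φ`: sum of `cw K x c * Φ c` over the chains from `x` to `y` of length `n`. `Stp S j x c`: started
at the position `j` and the height `x`, the last cut of `c` is the first cut (position, height) with the property
`S`. `hgt t x c`: height of the first cut of `c` at a position `≥ t`. `rv x c`: the reversed chain, `Kr` the reversed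
kernel.
-/

open scoped ENNReal

namespace Pool.Agent.Helper18.WK

/-- Chains of pieces: (length of the piece, new height). -/
abbrev Ch : Type := List (ℕ × ℤ)

/-- Weight of a chain from the height `x`. -/
noncomputable def cw (K : Ker) : ℤ → Ch → ℝ≥0∞
  | _, [] => 1
  | x, q :: c => K x q.1 q.2 * cw K q.2 c

/-- Total length. -/
def cl : Ch → ℕ
  | [] => 0
  | q :: c => q.1 + cl c

/-- Last height of the chain from `x`. -/
def ce : ℤ → Ch → ℤ
  | x, [] => x
  | _, q :: c => ce q.2 c

open scoped Classical in
/-- Sum over the chains from `x` to `y` of total length `n`. -/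
noncomputable def Sc (K : Ker) (n : ℕ) (x y : ℤ) (Φ : Ch → ℝ≥0∞) : ℝ≥0∞ :=
  ∑' c : Ch, if cl c = n ∧ ce x c = y then cw K x c * Φ c else 0

/-- The last cut of `c` is the first one with the property `S` (position, height); `c` starts at `(j, x)`. -/
def Stp (S : ℕ → ℤ → Prop) : ℕ → ℤ → Ch → Prop
  | j, x, [] => S j x
  | j, x, q :: c => ¬ S j x ∧ Stp S (j + q.1) q.2 c

/-- Height of the first cut at a position `≥ t` (the last height if there is none). -/
def hgt : ℕ → ℤ → Ch → ℤ
  | _, x, [] => x
  | t, x, q :: c => if t = 0 then x else hgt (t - q.1) q.2 c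

/-- The reversed chain. -/
def rv : ℤ → Ch → Ch
  | _, [] => []
  | x, q :: c => rv q.2 c ++ [(q.1, x)]

/-- The reversed kernel. -/
noncomputable def Kr (K : Ker) : Ker := fun x l z => K z l x

open scoped Classical in
/-- The chains whose height at the first cut at a position `≥ q.1` is `≥ q.2`, for all `q ∈ s`. -/
noncomputable def Mm (K : Ker) (s : List (ℕ × ℤ)) (n : ℕ) (x y : ℤ) : ℝ≥0∞ :=
  Sc K n x y (fun c => if ∀ q ∈ s, q.2 ≤ hgt q.1 x c then 1 else 0)

end Pool.Agent.Helper18.WK
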