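import Pool.Agent.Helper18.WK.Lst

/-!
# Project WK, block WK-L1: first facts about chains

`tsum_ch`: `List α ≃ Unit ⊕ α × List α` (`ENNReal.tsum_eq_add_tsum_ite`, or an `Equiv` from `List.cons`/`[]`, and
`ENNReal.tsum_prod`). `sc_one`: strong induction on `n`, `tsum_ch`, `G_succ`; a piece of length `0` has weight `0`, so
in `∑' q : ℕ × ℤ` only `q.1 = l + 1 ≤ n` matters. `sc_sub`: termwise, `w ≤ w'` and `Φ ≤ 1` give
`w' Φ + w ≤ w Φ + w'` (write `w' = w + δ`). `sc_rev`: `c ↦ rv x c` is a bijection from the chains `x → y` to the chains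
`y → x` (`rv_rv`).
-/

open scoped ENNReal Classical

namespace Pool.Agent.Helper18.WK

theorem cw_append (K : Ker) (x : ℤ) (c d : Ch) : cw K x (c ++ d) = cw K x c * cw K (ce x c) d := by
  induction c generalizing x with
  | nil => simp [cw, ce]
  | cons q c ih => simp only [List.cons_append, cw, ce, ih, mul_assoc]

theorem cl_append (c d : Ch) : cl (c ++ d) = cl c + cl d := by
  induction c with
  | nil => simp [cl]
  | cons q c ih => simp only [List.cons_append, cl, ih, add_assoc]

theorem ce_append (x : ℤ) (c d : Ch) : ce x (c ++ d) = ce (ce x c) d := by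
  induction c generalizing x with
  | nil => simp [ce]
  | cons q c ih => simp only [List.cons_append, ce, ih]

theorem tsum_ch (F : Ch → ℝ≥0∞) : ∑' c : Ch, F c = F [] + ∑' q : ℕ × ℤ, ∑' c : Ch, F (q :: c) := by
  rw [ENNReal.tsum_eq_add_tsum_ite ([] : Ch)]
  congr 1
  have hinj : Function.Injective fun p : (ℕ × ℤ) × Ch => (p.1 :: p.2 : Ch) := by
    intro p p' h
    have h1 := List.cons.inj h
    exact Prod.ext h1.1 h1.2
  have h1 : Function.support (fun c : Ch => if c = [] then 0 else F c) ⊆
      Set.range fun p : (ℕ × ℤ) × Ch => (p.1 :: p.2 : Ch) := by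
    intro c hc
    cases c with
    | nil => simp at hc
    | cons q c => exact ⟨(q, c), rfl⟩
  have h2 := hinj.tsum_eq h1
  rw [ENNReal.tsum_prod'] at h2
  simp only [if_neg (List.cons_ne_nil _ _)] at h2
  rw [h2]
  exact tsum_congr fun c => by split_ifs <;> rfl

theorem sc_one (K : Ker) (hK : ∀ x z, K x 0 z = 0) (n : ℕ) (x y : ℤ) : Sc K n x y (fun _ => 1) = G K n x y := by
  induction n using Nat.strong_induction_on generalizing x with
  | _ n ih =>
    unfold Sc
    rw [tsum_ch, ENNReal.tsum_prod', tsum_eq_zero_add' ENNReal.summable]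
    have h0 : ∑' (z : ℤ) (c : Ch), (if cl ((0, z) :: c) = n ∧ ce x ((0, z) :: c) = y then
        cw K x ((0, z) :: c) * 1 else 0) = 0 := by
      rw [ENNReal.tsum_eq_zero]
      intro z
      rw [ENNReal.tsum_eq_zero]
      intro c
      simp only [cw, hK, zero_mul, ite_self]
    rw [h0, zero_add]
    cases n with
    | zero =>
      rw [G_zero]
      have h1 : ∑' (l : ℕ) (z : ℤ) (c : Ch), (if cl ((l + 1, z) :: c) = 0 ∧ ce x ((l + 1, z) :: c) = y then
          cw K x ((l + 1, z) :: c) * 1 else 0) = 0 := by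
        rw [ENNReal.tsum_eq_zero]
        intro l
        rw [ENNReal.tsum_eq_zero]
        intro z
        rw [ENNReal.tsum_eq_zero]
        intro c
        rw [if_neg]
        simp only [cl]
        omega
      rw [h1, add_zero]
      simp [cl, ce, cw]
    | succ n =>
      rw [G_succ, if_neg (by simp [cl]), zero_add, tsum_eq_sum (s := Finset.range (n + 1))]
      · refine Finset.sum_congr rfl fun l hl => tsum_congr fun z => ?_
        rw [Finset.mem_range] at hl
        rw [← ih (n - l) (by omega) z]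
        unfold Sc
        rw [← ENNReal.tsum_mul_left]
        refine tsum_congr fun c => ?_
        have h1 : (cl ((l + 1, z) :: c) = n + 1 ∧ ce x ((l + 1, z) :: c) = y) ↔
            (cl c = n - l ∧ ce z c = y) := by
          simp only [cl, ce]
          constructor
          · rintro ⟨h2, h3⟩
            exact ⟨by omega, h3⟩
          · rintro ⟨h2, h3⟩
            exact ⟨by omega, h3⟩
        by_cases h2 : cl c = n - l ∧ ce z c = y
        · rw [if_pos (h1.2 h2), if_pos h2]
          simp only [cw, mul_one]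
        · rw [if_neg (fun h3 => h2 (h1.1 h3)), if_neg h2, mul_zero]
      · intro l hl
        rw [Finset.mem_range] at hl
        rw [ENNReal.tsum_eq_zero]
        intro z
        rw [ENNReal.tsum_eq_zero]
        intro c
        rw [if_neg]
        simp only [cl]
        omega

theorem cw_mono {K K' : Ker} (h : ∀ x l z, K x l z ≤ K' x l z) (x : ℤ) (c : Ch) : cw K x c ≤ cw K' x c := by
  induction c generalizing x with
  | nil => simp [cw]
  | cons q c ih => exact mul_le_mul' (h _ _ _) (ih _)

theorem sc_mono {K K' : Ker} (h : ∀ x l z, K x l z ≤ K' x l z) {Φ Ψ : Ch → ℝ≥0∞} (hΦ : ∀ c, Φ c ≤ Ψ c)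
    (n : ℕ) (x y : ℤ) : Sc K n x y Φ ≤ Sc K' n x y Ψ := by
  refine ENNReal.tsum_le_tsum fun c => ?_
  split_ifs
  · exact mul_le_mul' (cw_mono h x c) (hΦ c)
  · exact le_rfl

theorem sc_sub {K K' : Ker} (h : ∀ x l z, K x l z ≤ K' x l z) (hK : ∀ x z, K' x 0 z = 0)
    {Φ : Ch → ℝ≥0∞} (hΦ : ∀ c, Φ c ≤ 1) (n : ℕ) (x y : ℤ) :
    Sc K' n x y Φ + G K n x y ≤ Sc K n x y Φ + G K' n x y := by
  have hK0 : ∀ x z, K x 0 z = 0 := fun x z => le_antisymm ((h x 0 z).trans (hK x z).le) zero_le
  rw [← sc_one K hK0, ← sc_one K' hK]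
  unfold Sc
  rw [← ENNReal.tsum_add, ← ENNReal.tsum_add]
  refine ENNReal.tsum_le_tsum fun c => ?_
  split_ifs
  · obtain ⟨δ, hδ⟩ := exists_add_of_le (cw_mono h x c)
    rw [hδ, add_mul, mul_one, mul_one, add_assoc]
    refine add_le_add_right ?_ _
    rw [add_comm]
    refine add_le_add_right ?_ _
    exact mul_le_of_le_one_right' (hΦ c)
  · exact le_rfl

theorem rv_append (x : ℤ) (c d : Ch) : rv x (c ++ d) = rv (ce x c) d ++ rv x c := by
  induction c generalizing x with
  | nil => simp [rv, ce]
  | cons q c ih => simp only [List.cons_append, rv, ce, ih, List.append_assoc]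

theorem cl_rv (x : ℤ) (c : Ch) : cl (rv x c) = cl c := by
  induction c generalizing x with
  | nil => simp [rv]
  | cons q c ih =>
    simp only [rv, cl_append, ih, cl]
    omega

theorem ce_rv (x : ℤ) (c : Ch) : ce (ce x c) (rv x c) = x := by
  induction c generalizing x with
  | nil => simp [rv, ce]
  | cons q c ih => simp only [rv, ce, ce_append]

theorem rv_rv (x : ℤ) (c : Ch) : rv (ce x c) (rv x c) = c := by
  induction c generalizing x with
  | nil => simp [rv]
  | cons q c ih => simp only [rv, ce, rv_append, ce_rv, ih, List.nil_append, List.cons_append]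

theorem cw_rv (K : Ker) (x : ℤ) (c : Ch) : cw (Kr K) (ce x c) (rv x c) = cw K x c := by
  induction c generalizing x with
  | nil => simp [rv, cw]
  | cons q c ih =>
    simp only [rv, ce, cw_append, ce_rv, ih, cw, Kr, mul_one]
    exact mul_comm _ _

theorem sc_rev (K : Ker) (n : ℕ) (x y : ℤ) (Φ : Ch → ℝ≥0∞) :
    Sc K n x y Φ = Sc (Kr K) n y x (fun c => Φ (rv y c)) := by
  have h1 : ∀ (K : Ker) (x y : ℤ) (Φ : Ch → ℝ≥0∞), Sc K n x y Φ =
      ∑' c : {c : Ch | cl c = n ∧ ce x c = y}, cw K x c * Φ c := by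
    intro K x y Φ
    rw [tsum_subtype {c : Ch | cl c = n ∧ ce x c = y} (fun c => cw K x c * Φ c)]
    refine tsum_congr fun c => ?_
    rw [Set.indicator_apply]
    rfl
  rw [h1, h1]
  let e : {c : Ch | cl c = n ∧ ce x c = y} ≃ {c : Ch | cl c = n ∧ ce y c = x} :=
    { toFun := fun c => ⟨rv x c, by
        have h2 : cl (c : Ch) = n ∧ ce x c = y := c.2
        refine ⟨(cl_rv x c).trans h2.1, ?_⟩
        have h3 := ce_rv x c
        rwa [h2.2] at h3⟩
      invFun := fun c => ⟨rv y c, by
        have h2 : cl (c : Ch) = n ∧ ce y c = x := c.2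
        refine ⟨(cl_rv y c).trans h2.1, ?_⟩
        have h3 := ce_rv y c
        rwa [h2.2] at h3⟩
      left_inv := fun c => by
        have h2 : cl (c : Ch) = n ∧ ce x c = y := c.2
        refine Subtype.ext ?_
        have h3 := rv_rv x c
        rwa [h2.2] at h3
      right_inv := fun c => by
        have h2 : cl (c : Ch) = n ∧ ce y c = x := c.2
        refine Subtype.ext ?_
        have h3 := rv_rv y c
        rwa [h2.2] at h3 }
  rw [← e.tsum_eq]
  refine tsum_congr fun c => ?_
  have h2 : cl (c : Ch) = n ∧ ce x c = y := c.2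
  have h3 := cw_rv K x c
  have h4 := rv_rv x c
  rw [h2.2] at h3 h4
  change cw K x c * Φ c = cw (Kr K) y (rv x c) * Φ (rv y (rv x c))
  rw [h3, h4]

end Pool.Agent.Helper18.WK
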