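import Pool.Agent.Helper18.WK.LstC

/-!
# Project WK, block WK-L3b: the middle part of a chain

A chain `c` of length `n` from `x` to `y` is written `c₁ ++ (c₂ ++ rv y c₃)`: `c₁` is stopped at its first cut at a
position `≥ m`, and `c₃`, read from the right end `y`, is stopped at its first cut at a position `≥ m'`
(`TrD`). The triple is unique (`trD_unique`), it exists if no piece is longer than `w` (`trD_exists`), and the weight
and the heights of `c` are those of the three parts (`trD_spec`).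
-/

open scoped ENNReal Classical

namespace Pool.Agent.Helper18.WK

/-- A triple of chains: prefix, middle part, reversed suffix. -/
def TrD (m m' w n : ℕ) (s : List (ℕ × ℤ)) (x y : ℤ) (c₁ c₃ c₂ : Ch) : Prop :=
  (Stp (fun j _ => m ≤ j) 0 x c₁ ∧ cl c₁ ≤ m + w) ∧ (Stp (fun j _ => m' ≤ j) 0 y c₃ ∧ cl c₃ ≤ m' + w) ∧
    (cl c₂ = n - cl c₁ - cl c₃ ∧ ce (ce x c₁) c₂ = ce y c₃) ∧
      ∀ q ∈ s.map (fun q => (q.1 - cl c₁, q.2)), q.2 ≤ hgt q.1 (ce x c₁) c₂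

private theorem trD_unique {m m' w n : ℕ} {s : List (ℕ × ℤ)} {x y : ℤ} {c₁ c₃ c₂ d₁ d₃ d₂ : Ch}
    (hc : TrD m m' w n s x y c₁ c₃ c₂) (hd : TrD m m' w n s x y d₁ d₃ d₂)
    (h : c₁ ++ (c₂ ++ rv y c₃) = d₁ ++ (d₂ ++ rv y d₃)) : c₁ = d₁ ∧ c₃ = d₃ ∧ c₂ = d₂ := by
  have h1 : c₁ = d₁ := stp_unique h hc.1.1 hd.1.1
  subst h1
  have h2 : c₂ ++ rv y c₃ = d₂ ++ rv y d₃ := List.append_cancel_left h
  have h3 : c₃ ++ rv (ce x c₁) c₂ = d₃ ++ rv (ce x c₁) d₂ := by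
    have e1 := congrArg (rv (ce x c₁)) h2
    rw [rv_append, rv_append, hc.2.2.1.2, hd.2.2.1.2, rv_rv, rv_rv] at e1
    exact e1
  have h4 : c₃ = d₃ := stp_unique h3 hc.2.1.1 hd.2.1.1
  subst h4
  exact ⟨rfl, rfl, List.append_cancel_right h2⟩

private theorem trD_spec (K : Ker) {m m' w n : ℕ} {s : List (ℕ × ℤ)} (hn : m + m' + 2 * w ≤ n)
    (hs : ∀ q ∈ s, m + w ≤ q.1 ∧ q.1 + m' + w ≤ n) {x y : ℤ} {c₁ c₃ c₂ : Ch}
    (hc : TrD m m' w n s x y c₁ c₃ c₂) :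
    cl (c₁ ++ (c₂ ++ rv y c₃)) = n ∧ ce x (c₁ ++ (c₂ ++ rv y c₃)) = y ∧
      cw K x (c₁ ++ (c₂ ++ rv y c₃)) = cw K x c₁ * (cw (Kr K) y c₃ * cw K (ce x c₁) c₂) ∧
      ∀ q ∈ s, q.2 ≤ hgt q.1 x (c₁ ++ (c₂ ++ rv y c₃)) := by
  obtain ⟨⟨a1, a2⟩, ⟨b1, b2⟩, ⟨d1, d2⟩, e1⟩ := hc
  refine ⟨?_, ?_, ?_, ?_⟩
  · rw [cl_append, cl_append, cl_rv]
    omega
  · rw [ce_append, ce_append, d2, ce_rv]
  · rw [cw_append, cw_append, d2]
    have h1 := cw_rv (Kr K) y c₃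
    have h2 : Kr (Kr K) = K := rfl
    rw [h2] at h1
    rw [h1, mul_comm (cw K (ce x c₁) c₂)]
  · intro q hq
    have h1 := hs q hq
    rw [hgt_stp (by omega) a1, hgt_left (by omega)]
    exact e1 (q.1 - cl c₁, q.2) (List.mem_map.2 ⟨q, hq, rfl⟩)

private theorem stp_short {m w : ℕ} : ∀ (c : Ch) (j : ℕ) (x : ℤ), (∀ q ∈ c, q.1 ≤ w) → j ≤ m + w →
    Stp (fun j _ => m ≤ j) j x c → j + cl c ≤ m + w := by
  intro c
  induction c with
  | nil =>
    intro j x _ hj _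
    exact hj
  | cons q c ih =>
    intro j x hq hj hc
    have h1 : ¬ m ≤ j := hc.1
    have h2 : q.1 ≤ w := hq q List.mem_cons_self
    have h3 : cl (q :: c) = q.1 + cl c := rfl
    have h4 := ih (j + q.1) q.2 (fun q' hq' => hq q' (List.mem_cons_of_mem _ hq')) (by omega) hc.2
    omega

private theorem mem_rv {x : ℤ} {c : Ch} {q : ℕ × ℤ} (h : q ∈ rv x c) : ∃ q' ∈ c, q'.1 = q.1 := by
  induction c generalizing x with
  | nil => exact absurd h List.not_mem_nil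
  | cons r c ih =>
    have h1 : q ∈ rv r.2 c ++ [(r.1, x)] := h
    rcases List.mem_append.1 h1 with h2 | h2
    · obtain ⟨q', h3, h4⟩ := ih h2
      exact ⟨q', List.mem_cons_of_mem _ h3, h4⟩
    · rw [List.mem_singleton] at h2
      exact ⟨r, List.mem_cons_self, by rw [h2]⟩

private theorem trD_exists {m m' w n : ℕ} {s : List (ℕ × ℤ)} (hn : m + m' + 2 * w ≤ n)
    (hs : ∀ q ∈ s, m + w ≤ q.1 ∧ q.1 + m' + w ≤ n) {x y : ℤ} {c : Ch} (hl : cl c = n) (he : ce x c = y)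
    (hw : ∀ q ∈ c, q.1 ≤ w) (hh : ∀ q ∈ s, q.2 ≤ hgt q.1 x c) :
    ∃ c₁ c₃ c₂ : Ch, TrD m m' w n s x y c₁ c₃ c₂ ∧ c = c₁ ++ (c₂ ++ rv y c₃) := by
  obtain ⟨c₁, e, h1, h2⟩ := stp_exists (m := m) (x := x) (c := c) (by omega)
  have h3 : cl c₁ ≤ m + w := by
    have := stp_short c₁ 0 x (fun q hq => hw q (by rw [h1]; exact List.mem_append_left _ hq)) (by omega) h2
    omega
  have h4 : cl c₁ + cl e = n := by
    rw [← cl_append, ← h1, hl]
  have h5 : ce (ce x c₁) e = y := by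
    rw [← ce_append, ← h1, he]
  obtain ⟨c₃, e', h6, h7⟩ := stp_exists (m := m') (x := y) (c := rv (ce x c₁) e) (by rw [cl_rv]; omega)
  have h8 : cl c₃ ≤ m' + w := by
    have := stp_short c₃ 0 y (fun q hq => by
      have e1 : q ∈ rv (ce x c₁) e := by
        rw [h6]
        exact List.mem_append_left _ hq
      obtain ⟨q', e2, e3⟩ := mem_rv e1
      rw [← e3]
      exact hw q' (by rw [h1]; exact List.mem_append_right _ e2)) (by omega) h7
    omega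
  have h9 : cl c₃ + cl e' = cl e := by
    rw [← cl_append, ← h6, cl_rv]
  have h10 : e = rv (ce y c₃) e' ++ rv y c₃ := by
    have e1 := rv_rv (ce x c₁) e
    rw [h5, h6, rv_append] at e1
    exact e1.symm
  have h11 : ce (ce y c₃) e' = ce x c₁ := by
    have e1 := ce_rv (ce x c₁) e
    rw [h5, h6, ce_append] at e1
    exact e1
  have h12 : ce (ce x c₁) (rv (ce y c₃) e') = ce y c₃ := by
    have e1 := ce_rv (ce y c₃) e'
    rw [h11] at e1
    exact e1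
  refine ⟨c₁, c₃, rv (ce y c₃) e', ⟨⟨h2, h3⟩, ⟨h7, h8⟩, ⟨?_, h12⟩, ?_⟩, ?_⟩
  · rw [cl_rv]
    omega
  · intro q hq
    obtain ⟨r, hr, hrq⟩ := List.mem_map.1 hq
    have e1 := hh r hr
    have e2 := hs r hr
    rw [h1, hgt_stp (by omega) h2, h10, hgt_left (by rw [cl_rv]; omega)] at e1
    rw [← hrq]
    exact e1
  · rw [← h10, h1]

/-- the sum over the triples -/
private theorem trD_sum (K : Ker) (hK : ∀ x z, K x 0 z = 0) (m m' w n : ℕ) (s : List (ℕ × ℤ)) (x y : ℤ) :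
    (∑ a ∈ Finset.Icc m (m + w), ∑' z : ℤ, ∑ a' ∈ Finset.Icc m' (m' + w), ∑' z' : ℤ,
        Fst K m x a z * Mm K (s.map fun q => (q.1 - a, q.2)) (n - a - a') z z' * Fst (Kr K) m' y a' z') =
      ∑' c₁ : Ch, ∑' c₃ : Ch, ∑' c₂ : Ch, if TrD m m' w n s x y c₁ c₃ c₂ then
        cw K x c₁ * (cw (Kr K) y c₃ * cw K (ce x c₁) c₂) else 0 := by
  have hKr : ∀ x z, Kr K x 0 z = 0 := fun x z => hK z x
  have h1 : (∑ a ∈ Finset.Icc m (m + w), ∑' z : ℤ, ∑ a' ∈ Finset.Icc m' (m' + w), ∑' z' : ℤ,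
        Fst K m x a z * Mm K (s.map fun q => (q.1 - a, q.2)) (n - a - a') z z' * Fst (Kr K) m' y a' z') =
      ∑ a ∈ Finset.Icc m (m + w), ∑' z : ℤ, Fst K m x a z * ∑' c₃ : Ch,
        (if Stp (fun j _ => m' ≤ j) 0 y c₃ ∧ cl c₃ ≤ m' + w then cw (Kr K) y c₃ *
          (Mm K (s.map fun q => (q.1 - a, q.2)) (n - a - cl c₃) z (ce y c₃)) else 0) := by
    refine Finset.sum_congr rfl fun a _ => tsum_congr fun z => ?_
    rw [group_stp31 (Kr K) hKr m' (m' + w) y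
      (fun a' z' => Mm K (s.map fun q => (q.1 - a, q.2)) (n - a - a') z z'), Finset.mul_sum]
    refine Finset.sum_congr rfl fun a' _ => ?_
    rw [← ENNReal.tsum_mul_left]
    refine tsum_congr fun z' => ?_
    ring
  rw [h1, ← group_stp31 K hK m (m + w) x (fun a z => ∑' c₃ : Ch,
        (if Stp (fun j _ => m' ≤ j) 0 y c₃ ∧ cl c₃ ≤ m' + w then cw (Kr K) y c₃ *
          (Mm K (s.map fun q => (q.1 - a, q.2)) (n - a - cl c₃) z (ce y c₃)) else 0))]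
  refine tsum_congr fun c₁ => ?_
  by_cases hA : Stp (fun j _ => m ≤ j) 0 x c₁ ∧ cl c₁ ≤ m + w
  · rw [if_pos hA, ← ENNReal.tsum_mul_left]
    refine tsum_congr fun c₃ => ?_
    by_cases hB : Stp (fun j _ => m' ≤ j) 0 y c₃ ∧ cl c₃ ≤ m' + w
    · rw [if_pos hB, Mm, Sc, ← ENNReal.tsum_mul_left, ← ENNReal.tsum_mul_left]
      refine tsum_congr fun c₂ => ?_
      beta_reduce
      by_cases hC : cl c₂ = n - cl c₁ - cl c₃ ∧ ce (ce x c₁) c₂ = ce y c₃
      · rw [if_pos hC]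
        by_cases hD : ∀ q ∈ s.map (fun q => (q.1 - cl c₁, q.2)), q.2 ≤ hgt q.1 (ce x c₁) c₂
        · rw [if_pos (show TrD m m' w n s x y c₁ c₃ c₂ from ⟨hA, hB, hC, hD⟩), if_pos hD, mul_one]
        · rw [if_neg (show ¬ TrD m m' w n s x y c₁ c₃ c₂ from fun h => hD h.2.2.2), if_neg hD, mul_zero,
            mul_zero, mul_zero]
      · rw [if_neg hC, if_neg (show ¬ TrD m m' w n s x y c₁ c₃ c₂ from fun h => hC h.2.2.1), mul_zero, mul_zero]
    · rw [if_neg hB, mul_zero]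
      symm
      rw [ENNReal.tsum_eq_zero]
      intro c₂
      exact if_neg fun h => hB h.2.1
  · rw [if_neg hA]
    symm
    rw [ENNReal.tsum_eq_zero]
    intro c₃
    rw [ENNReal.tsum_eq_zero]
    intro c₂
    exact if_neg fun h => hA h.1

/-- the sum over the triples, by their chain -/
private theorem trD_chain (K : Ker) (m m' w n : ℕ) (s : List (ℕ × ℤ)) (x y : ℤ) :
    (∑' c₁ : Ch, ∑' c₃ : Ch, ∑' c₂ : Ch, if TrD m m' w n s x y c₁ c₃ c₂ then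
        cw K x c₁ * (cw (Kr K) y c₃ * cw K (ce x c₁) c₂) else 0) =
      ∑' c : Ch, ∑' p : Ch × Ch × Ch, if c = p.1 ++ (p.2.2 ++ rv y p.2.1) then
        (if TrD m m' w n s x y p.1 p.2.1 p.2.2 then
          cw K x p.1 * (cw (Kr K) y p.2.1 * cw K (ce x p.1) p.2.2) else 0) else 0 := by
  symm
  rw [ENNReal.tsum_comm]
  have h1 : ∀ p : Ch × Ch × Ch, (∑' c : Ch, if c = p.1 ++ (p.2.2 ++ rv y p.2.1) then
        (if TrD m m' w n s x y p.1 p.2.1 p.2.2 then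
          cw K x p.1 * (cw (Kr K) y p.2.1 * cw K (ce x p.1) p.2.2) else 0) else 0) =
      if TrD m m' w n s x y p.1 p.2.1 p.2.2 then
          cw K x p.1 * (cw (Kr K) y p.2.1 * cw K (ce x p.1) p.2.2) else 0 := by
    intro p
    refine (tsum_eq_single (p.1 ++ (p.2.2 ++ rv y p.2.1)) fun c hc => ?_).trans ?_
    · exact if_neg hc
    · exact if_pos rfl
  rw [tsum_congr h1, ENNReal.tsum_prod']
  refine tsum_congr fun c₁ => ?_
  rw [ENNReal.tsum_prod']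

/-- The middle part of a chain: upper bound. -/
theorem mm_mid_le (K : Ker) (hK : ∀ x z, K x 0 z = 0) {m m' w n : ℕ} {s : List (ℕ × ℤ)}
    (hn : m + m' + 2 * w ≤ n) (hs : ∀ q ∈ s, m + w ≤ q.1 ∧ q.1 + m' + w ≤ n) (x y : ℤ) :
    Mm K s n x y ≤ Sc K n x y (fun c => if ∃ q ∈ c, w < q.1 then 1 else 0) +
      ∑ a ∈ Finset.Icc m (m + w), ∑' z : ℤ, ∑ a' ∈ Finset.Icc m' (m' + w), ∑' z' : ℤ,
        Fst K m x a z * Mm K (s.map fun q => (q.1 - a, q.2)) (n - a - a') z z' * Fst (Kr K) m' y a' z' := by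
  rw [trD_sum K hK, trD_chain, Mm, Sc, Sc, ← ENNReal.tsum_add]
  refine ENNReal.tsum_le_tsum fun c => ?_
  beta_reduce
  by_cases h : cl c = n ∧ ce x c = y
  · rw [if_pos h, if_pos h]
    by_cases hh : ∀ q ∈ s, q.2 ≤ hgt q.1 x c
    · rw [if_pos hh, mul_one]
      by_cases hw : ∃ q ∈ c, w < q.1
      · rw [if_pos hw, mul_one]
        exact le_self_add
      · have hw' : ∀ q ∈ c, q.1 ≤ w := by
          intro q hq
          by_contra h1
          exact hw ⟨q, hq, by omega⟩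
        obtain ⟨c₁, c₃, c₂, h1, h2⟩ := trD_exists hn hs h.1 h.2 hw' hh
        refine le_trans ?_ le_add_self
        refine le_trans ?_ (ENNReal.le_tsum (c₁, c₃, c₂))
        beta_reduce
        rw [if_pos h2, if_pos h1, h2, (trD_spec K hn hs h1).2.2.1]
    · rw [if_neg hh, mul_zero]
      exact zero_le
  · rw [if_neg h]
    exact zero_le

/-- The middle part of a chain: lower bound. -/
theorem le_mm_mid (K : Ker) (hK : ∀ x z, K x 0 z = 0) {m m' w n : ℕ} {s : List (ℕ × ℤ)}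
    (hn : m + m' + 2 * w ≤ n) (hs : ∀ q ∈ s, m + w ≤ q.1 ∧ q.1 + m' + w ≤ n) (x y : ℤ) :
      ∑ a ∈ Finset.Icc m (m + w), ∑' z : ℤ, ∑ a' ∈ Finset.Icc m' (m' + w), ∑' z' : ℤ,
        Fst K m x a z * Mm K (s.map fun q => (q.1 - a, q.2)) (n - a - a') z z' * Fst (Kr K) m' y a' z' ≤
    Mm K s n x y := by
  rw [trD_sum K hK, trD_chain, Mm, Sc]
  refine ENNReal.tsum_le_tsum fun c => ?_
  by_cases h : ∃ p : Ch × Ch × Ch, c = p.1 ++ (p.2.2 ++ rv y p.2.1) ∧ TrD m m' w n s x y p.1 p.2.1 p.2.2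
  · obtain ⟨p, h1, h2⟩ := h
    obtain ⟨e1, e2, e3, e4⟩ := trD_spec K hn hs h2
    rw [tsum_eq_single p]
    · rw [if_pos h1, if_pos h2, h1, if_pos ⟨e1, e2⟩, e3, if_pos e4, mul_one]
    · intro p' hp'
      by_cases h3 : c = p'.1 ++ (p'.2.2 ++ rv y p'.2.1)
      · rw [if_pos h3]
        refine if_neg fun h4 => hp' ?_
        obtain ⟨f1, f2, f3⟩ := trD_unique h4 h2 (h3.symm.trans h1)
        exact Prod.ext f1 (Prod.ext f2 f3)
      · rw [if_neg h3]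
  · refine le_of_eq_of_le ?_ zero_le
    rw [ENNReal.tsum_eq_zero]
    intro p
    by_cases h3 : c = p.1 ++ (p.2.2 ++ rv y p.2.1)
    · rw [if_pos h3]
      exact if_neg fun h4 => h ⟨p, h3, h4⟩
    · rw [if_neg h3]

end Pool.Agent.Helper18.WK
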