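import Pool.Agent.Helper18.WK.Path

/-!
# Project WK, block WK-R3: finite dimensional distributions of the path (proof in words in `Path.lean`)
-/

open scoped ENNReal Classical
open Set Filter

namespace Pool.Agent.Helper18.WK

open Pool.Agent.Helper49.RD (Fe ind)
open Pool.Agent.Helper49.OZ (cpath)
open Pool.Agent.Helper49.FL (TI)

private theorem sc_split61 {K : Ker} {n : ℕ} {x y : ℤ} {Φ Ψ Θ : Ch → ℝ≥0∞}
    (h : ∀ c, cl c = n → Φ c ≤ Ψ c + Θ c) : Sc K n x y Φ ≤ Sc K n x y Ψ + Sc K n x y Θ := by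
  unfold Sc
  rw [← ENNReal.tsum_add]
  refine ENNReal.tsum_le_tsum fun c => ?_
  split_ifs with hc
  · rw [← mul_add]
    exact mul_le_mul' le_rfl (h c hc.1)
  · simp

private theorem ind_split61 {P Q R : Prop} [Decidable P] [Decidable Q] [Decidable R] (h : P → R → Q) :
    (if P then (1 : ℝ≥0∞) else 0) ≤ (if Q then 1 else 0) + (if R then 0 else 1) := by
  by_cases hP : P
  · by_cases hR : R
    · rw [if_pos hP, if_pos (h hP hR), if_pos hR, add_zero]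
    · rw [if_pos hP, if_neg hR]
      exact le_add_self
  · rw [if_neg hP]
    exact zero_le

private theorem root61 {l n : ℕ} (h : (l : ℝ) ^ 4 ≤ n) : l ≤ Nat.sqrt (Nat.sqrt n) := by
  rw [Nat.le_sqrt, Nat.le_sqrt]
  have h1 : l ^ 4 ≤ n := by exact_mod_cast h
  calc l * l * (l * l) = l ^ 4 := by ring
    _ ≤ n := h1

private theorem root_le61 (n : ℕ) : ((Nat.sqrt (Nat.sqrt n) : ℕ) : ℝ) ≤ Real.sqrt n := by
  have h1 : Nat.sqrt (Nat.sqrt n) ≤ Nat.sqrt n := Nat.sqrt_le_self _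
  have h2 : (Nat.sqrt n : ℝ) ≤ Real.sqrt n := Real.nat_sqrt_le_real_sqrt
  exact le_trans (by exact_mod_cast h1) h2

private theorem mm_eq61 (K : Ker) {p : ℕ} (τ : Fin p → ℕ) (β : Fin p → ℤ) (n : ℕ) (x y : ℤ) :
    Mm K (List.ofFn fun i => (τ i, β i)) n x y = Sc K n x y (fun c => if ∀ i, β i ≤ hgt (τ i) x c then 1 else 0) := by
  unfold Mm
  congr 1
  funext c
  have : (∀ q ∈ List.ofFn fun i => (τ i, β i), q.2 ≤ hgt q.1 x c) ↔ ∀ i, β i ≤ hgt (τ i) x c := by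
    rw [List.forall_mem_ofFn_iff]
  by_cases h : ∀ i, β i ≤ hgt (τ i) x c
  · rw [if_pos h, if_pos (this.2 h)]
  · rw [if_neg h, if_neg (fun h' => h (this.1 h'))]

/-- The path at the time `s` is close to the height of the cut. -/
private theorem near61 {d η e : ℝ} {V m U : ℕ} {u x : ℤ} {c : Ch} {s : ℝ} (hV : 1 ≤ V) (hηd : η ≤ d)
    (hcl : cl c = m) (hm : |(m : ℝ) - 2 * V| ≤ U) (hu : 0 ≤ u ∧ u ≤ U) (hs : -1 < s ∧ s < 1)
    (h1 : (U : ℝ) ≤ V * (1 + s)) (h2 : 2 * (U : ℝ) + 1 ≤ V * (1 - s)) (h3 : 1 + 2 * Real.sqrt V ≤ η * V)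
    (hq : ∀ q ∈ c, 1 ≤ q.1 ∧ (q.1 : ℝ) ^ 4 ≤ V) (hG : Good3 (d * V) (η * V) (e * Real.sqrt V) x c)
    (hmem : s ∈ Icc (-1 : ℝ) 1) :
    |cpath V u x c ⟨s, hmem⟩ - (hgt ⌈(V : ℝ) * (1 + s) - u⌉₊ x c : ℤ) / Real.sqrt V| ≤ e := by
  have hV1 : (1 : ℝ) ≤ V := by exact_mod_cast hV
  have hV0 : (0 : ℝ) < V := by linarith
  have hs0 : 0 < Real.sqrt V := Real.sqrt_pos.2 hV0
  have hu1 : (0 : ℝ) ≤ (u : ℝ) := by exact_mod_cast hu.1
  have hu2 : (u : ℝ) ≤ U := by exact_mod_cast hu.2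
  have ht0 : 0 ≤ (V : ℝ) * (1 + s) - u := by linarith
  have hc1 : (V : ℝ) * (1 + s) - u ≤ ⌈(V : ℝ) * (1 + s) - u⌉₊ := Nat.le_ceil _
  have hc2 : ((⌈(V : ℝ) * (1 + s) - u⌉₊ : ℕ) : ℝ) < (V : ℝ) * (1 + s) - u + 1 := Nat.ceil_lt_add_one ht0
  have hj : ⌈(V : ℝ) * (1 + s) - u⌉₊ ≤ cl c := by
    rw [hcl]
    have h4 := (abs_le.1 hm).1
    have h5 : ((⌈(V : ℝ) * (1 + s) - u⌉₊ : ℕ) : ℝ) ≤ m := by
      have : (V : ℝ) * (1 - s) = V - V * s := by ring
      have h6 : (V : ℝ) * (1 + s) = V + V * s := by ring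
      linarith
    exact_mod_cast h5
  have hw := root_le61 V
  have h4 := hgt_near (w := Nat.sqrt (Nat.sqrt V)) (fun q hq' => ⟨(hq q hq').1, root61 (hq q hq').2⟩) hG
    (mul_le_mul_of_nonneg_right hηd hV0.le) (t := (V : ℝ) * (s + 1) - u) (j := ⌈(V : ℝ) * (1 + s) - u⌉₊) hj
    (by
      have h5 : |(V : ℝ) * (s + 1) - u - (⌈(V : ℝ) * (1 + s) - u⌉₊ : ℕ)| ≤ 1 := by
        rw [abs_le]
        have h6 : (V : ℝ) * (s + 1) = V * (1 + s) := by ring
        constructor <;> linarith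
      linarith)
  have h5 : cpath V u x c ⟨s, hmem⟩ = Pool.Agent.Helper49.OZ.hgt x c ((V : ℝ) * (s + 1) - u) / Real.sqrt V := rfl
  rw [h5, ← sub_div, abs_div, abs_of_pos hs0, div_le_iff₀ hs0]
  exact h4

theorem path_fdd (F : Law) {κ Bt r : ℝ} (hκ : 0 < κ) (hB : 0 < Bt) (hr : 0 < r) {K : Ker}
    (hK : ∀ cap : ℕ, Above F κ Bt r cap K) {p : ℕ} (hp : 1 ≤ p) {s b : Fin p → ℝ} (hs : StrictMono s)
    (hs1 : ∀ i, -1 < s i ∧ s i < 1) {U : ℕ} {ν m : ℕ → ℕ} {u x y : ℕ → ℤ} (hν : Tendsto ν atTop atTop)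
    (hm : ∀ k, |(m k : ℝ) - 2 * ν k| ≤ U) (hu : ∀ k, 0 ≤ u k ∧ u k ≤ U)
    (hx : ∀ k, 1 ≤ x k ∧ x k ≤ U) (hy : ∀ k, 1 ≤ y k ∧ y k ≤ U) :
    Tendsto (fun k => (Sc K (m k) (x k) (y k) (fun c => if ∀ i, b i ≤
      cpath (ν k) (u k) (x k) c (Set.projIcc (-1) 1 (by norm_num) (s i)) then 1 else 0)).toReal /
      (G K (m k) (x k) (y k)).toReal) atTop
        (nhds (Fe (s2 F) p s (fun i z => ind (b i) z) / Fe (s2 F) p s (fun _ _ => 1))) := by
  have hKle : ∀ x l z, K x l z ≤ Kp F x l z := (hK 0).le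
  have hK0 : ∀ x z, K x 0 z = 0 := by
    intro x z
    refine le_antisymm ((hKle x 0 z).trans ?_) zero_le
    unfold Kp
    split_ifs
    · rw [F.f_zero, ENNReal.ofReal_zero]
    · exact le_rfl
  have hfin : ∀ n x y, G K n x y ≠ ⊤ := by
    intro n x y
    refine ne_top_of_le_ne_top ENNReal.one_ne_top ?_
    exact (g_mono (fun x l z => (hKle x l z).trans (kp_le F x l z)) n x y).trans
      ((ENNReal.le_tsum y).trans (g_sum_le F n x))
  have hscfin : ∀ (n : ℕ) (x y : ℤ) (P : Ch → Prop) (hd : ∀ c, Decidable (P c)),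
      Sc K n x y (fun c => @ite _ (P c) (hd c) 1 0) ≠ ⊤ := by
    intro n x y P hd
    refine ne_top_of_le_ne_top (hfin n x y) ?_
    rw [← sc_one K hK0]
    refine sc_mono (fun _ _ _ => le_rfl) (fun c => ?_) _ _ _
    split_ifs
    · exact le_rfl
    · exact zero_le
  have hg := s2_pos F
  have hcont := ((fe_cont hg hp hs hs1 b).1).div_const (Fe (s2 F) p s (fun _ _ => 1))
  obtain ⟨ρ, hρ⟩ : ∃ ρ : ℝ, ρ = Fe (s2 F) p s (fun i z => ind (b i) z) / Fe (s2 F) p s (fun _ _ => 1) := ⟨_, rfl⟩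
  rw [← hρ] at hcont ⊢
  rw [Metric.tendsto_atTop]
  intro ε hε
  obtain ⟨δ, hδ, hcδ⟩ := Metric.tendsto_nhds_nhds.1 hcont (ε / 4) (by linarith)
  obtain ⟨e, he, heδ, heε⟩ : ∃ e : ℝ, 0 < e ∧ e < δ ∧ e < ε / 4 :=
    ⟨min (δ / 2) (ε / 8), lt_min (by linarith) (by linarith), (min_le_left _ _).trans_lt (by linarith),
      (min_le_right _ _).trans_lt (by linarith)⟩
  have hc1 := hcδ (x := e) (by rw [Real.dist_eq, sub_zero, abs_of_pos he]; exact heδ)
  have hc2 := hcδ (x := -e) (by rw [Real.dist_eq, sub_zero, abs_neg, abs_of_pos he]; exact heδ)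
  rw [Real.dist_eq] at hc1 hc2
  have hνR : Tendsto (fun k => ((ν k : ℕ) : ℝ)) atTop atTop := tendsto_natCast_atTop_atTop.comp hν
  have hsq : Tendsto (fun k => Real.sqrt (ν k)) atTop atTop := Real.tendsto_sqrt_atTop.comp hνR
  obtain ⟨τ, hτdef⟩ : ∃ τ : ℕ → Fin p → ℕ, τ = fun k i => ⌈(ν k : ℝ) * (1 + s i) - u k⌉₊ := ⟨_, rfl⟩
  have hτ : ∀ i, Tendsto (fun k => (τ k i : ℝ) / ν k) atTop (nhds (1 + s i)) := by
    intro i
    have h0 : Tendsto (fun k => (U + 1 : ℝ) / ν k) atTop (nhds 0) := tendsto_const_nhds.div_atTop hνR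
    have h1 : Tendsto (fun k => (1 + s i) - (U + 1 : ℝ) / ν k) atTop (nhds (1 + s i)) := by
      simpa using (tendsto_const_nhds (x := 1 + s i)).sub h0
    have h2 : Tendsto (fun k => (1 + s i) + (U + 1 : ℝ) / ν k) atTop (nhds (1 + s i)) := by
      simpa using (tendsto_const_nhds (x := 1 + s i)).add h0
    have hev : ∀ᶠ k in atTop, max 1 (U / (1 + s i)) ≤ (ν k : ℝ) := hνR.eventually_ge_atTop _
    have hsi : 0 < 1 + s i := by linarith [(hs1 i).1]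
    refine tendsto_of_tendsto_of_tendsto_of_le_of_le' h1 h2 ?_ ?_
    · filter_upwards [hev] with k hk
      have hV1 : (1 : ℝ) ≤ ν k := (le_max_left _ _).trans hk
      have hV0 : (0 : ℝ) < ν k := by linarith
      have hu2 : (u k : ℝ) ≤ U := by exact_mod_cast (hu k).2
      have h3 : (ν k : ℝ) * (1 + s i) - u k ≤ (τ k i : ℝ) := by
        rw [hτdef]
        exact Nat.le_ceil _
      rw [le_div_iff₀ hV0, sub_mul, div_mul_cancel₀ _ hV0.ne']
      linarith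
    · filter_upwards [hev] with k hk
      have hV1 : (1 : ℝ) ≤ ν k := (le_max_left _ _).trans hk
      have hV0 : (0 : ℝ) < ν k := by linarith
      have hk2 : (U : ℝ) / (1 + s i) ≤ ν k := (le_max_right _ _).trans hk
      rw [div_le_iff₀ hsi] at hk2
      have hu1 : (0 : ℝ) ≤ (u k : ℝ) := by exact_mod_cast (hu k).1
      have hu2 : (u k : ℝ) ≤ U := by exact_mod_cast (hu k).2
      have h3 : (τ k i : ℝ) < (ν k : ℝ) * (1 + s i) - u k + 1 := by
        rw [hτdef]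
        exact Nat.ceil_lt_add_one (by linarith)
      have hU : (0 : ℝ) ≤ U := Nat.cast_nonneg U
      rw [div_le_iff₀ hV0, add_mul, div_mul_cancel₀ _ hV0.ne']
      linarith
  have hβ : ∀ (g : ℝ) (i : Fin p), Tendsto (fun k => ((⌈(b i + g) * Real.sqrt (ν k)⌉ : ℤ) : ℝ) / Real.sqrt (ν k)) atTop
      (nhds (b i + g)) := by
    intro g i
    have h0 : Tendsto (fun k => (1 : ℝ) / Real.sqrt (ν k)) atTop (nhds 0) := tendsto_const_nhds.div_atTop hsq
    have h2 : Tendsto (fun k => (b i + g) + (1 : ℝ) / Real.sqrt (ν k)) atTop (nhds (b i + g)) := by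
      simpa using (tendsto_const_nhds (x := b i + g)).add h0
    have hev : ∀ᶠ k in atTop, 1 ≤ Real.sqrt (ν k) := hsq.eventually_ge_atTop _
    refine tendsto_of_tendsto_of_tendsto_of_le_of_le' tendsto_const_nhds h2 ?_ ?_
    · filter_upwards [hev] with k hk
      rw [le_div_iff₀ (by linarith)]
      exact Int.le_ceil _
    · filter_upwards [hev] with k hk
      have h3 : 0 < Real.sqrt (ν k) := by linarith
      have h4 : ((b i + g) + (1 : ℝ) / Real.sqrt (ν k)) * Real.sqrt (ν k) = (b i + g) * Real.sqrt (ν k) + 1 := by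
        rw [add_mul (b i + g), div_mul_cancel₀ _ h3.ne']
      rw [div_le_iff₀ h3, h4]
      exact (Int.ceil_lt_add_one _).le
  have t1 := fdd_seq F hκ hB hr hK hp (b := fun i => b i + e) hs hs1 hν hm hx hy (τ := τ)
    (β := fun k i => ⌈(b i + e) * Real.sqrt (ν k)⌉) hτ (hβ e)
  have t2 := fdd_seq F hκ hB hr hK hp (b := fun i => b i + -e) hs hs1 hν hm hx hy (τ := τ)
    (β := fun k i => ⌈(b i + -e) * Real.sqrt (ν k)⌉) hτ (hβ (-e))
  obtain ⟨d, η, n₀, hη, hηd, hgood⟩ := path_good F hκ hB hr hK U (ε := e) (t := e) he he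
  obtain ⟨nL, cL, hcL, hlow⟩ := above_low F (κ := κ) (Bt := Bt) (r := r) (c₀ := 1) hκ hB hr one_pos U
  have e1 : ∀ᶠ k in atTop, max 1 (3 / η) ≤ Real.sqrt (ν k) := hsq.eventually_ge_atTop _
  have e2 : ∀ᶠ k in atTop, n₀ + nL + U + 1 ≤ ν k := hν.eventually_ge_atTop _
  have e3 : ∀ᶠ k in atTop, ∀ i, (U : ℝ) / (1 + s i) ≤ ν k :=
    eventually_all.2 fun i => hνR.eventually_ge_atTop _
  have e4 : ∀ᶠ k in atTop, ∀ i, (2 * (U : ℝ) + 1) / (1 - s i) ≤ ν k :=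
    eventually_all.2 fun i => hνR.eventually_ge_atTop _
  have e5 := Metric.tendsto_nhds.1 t1 (ε / 4) (by linarith)
  have e6 := Metric.tendsto_nhds.1 t2 (ε / 4) (by linarith)
  obtain ⟨k₀, hk₀⟩ := eventually_atTop.1 (e1.and (e2.and (e3.and (e4.and (e5.and e6)))))
  refine ⟨k₀, fun k hk => ?_⟩
  obtain ⟨f1, f2, f3, f4, f5, f6⟩ := hk₀ k hk
  have hmk := hm k
  have hV1n : 1 ≤ ν k := by omega
  have hV1 : (1 : ℝ) ≤ ν k := by exact_mod_cast hV1n
  have hV0 : (0 : ℝ) < ν k := by linarith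
  have hss := Real.sq_sqrt hV0.le
  have hs1' : 1 ≤ Real.sqrt (ν k) := (le_max_left _ _).trans f1
  have h3η : 1 + 2 * Real.sqrt (ν k) ≤ η * ν k := by
    have h1 : 3 / η ≤ Real.sqrt (ν k) := (le_max_right _ _).trans f1
    rw [div_le_iff₀ hη] at h1
    have h2 := mul_le_mul_of_nonneg_right h1 (Real.sqrt_nonneg (ν k))
    have h3 : Real.sqrt (ν k) * η * Real.sqrt (ν k) = η * ν k := by
      calc Real.sqrt (ν k) * η * Real.sqrt (ν k) = η * Real.sqrt (ν k) ^ 2 := by ring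
        _ = η * ν k := by rw [hss]
    rw [h3] at h2
    linarith
  have hgoodk := hgood (ν k) (by omega) (m k) (x k) (y k) hmk (hx k).1 (hx k).2 (hy k).1 (hy k).2
  -- positivity
  have hUV : (U : ℝ) ≤ ν k := by
    have : U ≤ ν k := by omega
    exact_mod_cast this
  have hmV : (ν k : ℝ) ≤ m k := by
    have := (abs_le.1 hmk).1
    linarith
  have hmVn : ν k ≤ m k := by exact_mod_cast hmV
  have hGpos : 0 < (G K (m k) (x k) (y k)).toReal := by
    refine ENNReal.toReal_pos ?_ (hfin _ _ _)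
    have h1 := hlow (m k) (by omega) (m k) K (hK _) (by rw [one_mul]) (x k) (y k) (hx k).1 (hx k).2 (hy k).1 (hy k).2
    have h2 : 0 < ENNReal.ofReal (cL / (m k * Real.sqrt (m k))) := by
      rw [ENNReal.ofReal_pos]
      have h3 : (0 : ℝ) < m k := by linarith
      exact div_pos hcL (mul_pos h3 (Real.sqrt_pos.2 h3))
    exact (lt_of_lt_of_le h2 h1).ne'
  have hUk := hu k
  have hnear : ∀ c, cl c = m k → ((∀ q ∈ c, 1 ≤ q.1 ∧ (q.1 : ℝ) ^ 4 ≤ ν k) ∧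
      Good3 (d * ν k) (η * ν k) (e * Real.sqrt (ν k)) (x k) c) → ∀ i,
      |cpath (ν k) (u k) (x k) c (Set.projIcc (-1) 1 (by norm_num) (s i)) -
        (hgt (τ k i) (x k) c : ℤ) / Real.sqrt (ν k)| ≤ e := by
    intro c hc hgd i
    have hmem : s i ∈ Icc (-1 : ℝ) 1 := ⟨(hs1 i).1.le, (hs1 i).2.le⟩
    rw [Set.projIcc_of_mem _ hmem, hτdef]
    refine near61 hV1n hηd hc hmk hUk (hs1 i) ?_ ?_ h3η hgd.1 hgd.2 hmem
    · have h1 := f3 i
      rw [div_le_iff₀ (by linarith [(hs1 i).1])] at h1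
      exact h1
    · have h1 := f4 i
      rw [div_le_iff₀ (by linarith [(hs1 i).2])] at h1
      exact h1
  have hVs : 0 < Real.sqrt (ν k) := by linarith
  -- the two inclusions
  have A1 : Sc K (m k) (x k) (y k) (fun c => if ∀ i, b i ≤
      cpath (ν k) (u k) (x k) c (Set.projIcc (-1) 1 (by norm_num) (s i)) then 1 else 0) ≤
      Mm K (List.ofFn fun i => (τ k i, ⌈(b i + -e) * Real.sqrt (ν k)⌉)) (m k) (x k) (y k) +
        ENNReal.ofReal e * G K (m k) (x k) (y k) := by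
    rw [mm_eq61]
    refine (sc_split61 (Θ := fun c => if (∀ q ∈ c, 1 ≤ q.1 ∧ (q.1 : ℝ) ^ 4 ≤ ν k) ∧
      Good3 (d * ν k) (η * ν k) (e * Real.sqrt (ν k)) (x k) c then 0 else 1) (fun c hc => ?_)).trans
      (add_le_add le_rfl hgoodk)
    refine ind_split61 fun h1 h2 i => ?_
    have h3 := (abs_le.1 (hnear c hc h2 i)).2
    have h4 := h1 i
    rw [Int.ceil_le, ← le_div_iff₀ hVs]
    linarith
  have A2 : Mm K (List.ofFn fun i => (τ k i, ⌈(b i + e) * Real.sqrt (ν k)⌉)) (m k) (x k) (y k) ≤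
      Sc K (m k) (x k) (y k) (fun c => if ∀ i, b i ≤
      cpath (ν k) (u k) (x k) c (Set.projIcc (-1) 1 (by norm_num) (s i)) then 1 else 0) +
        ENNReal.ofReal e * G K (m k) (x k) (y k) := by
    rw [mm_eq61]
    refine (sc_split61 (Θ := fun c => if (∀ q ∈ c, 1 ≤ q.1 ∧ (q.1 : ℝ) ^ 4 ≤ ν k) ∧
      Good3 (d * ν k) (η * ν k) (e * Real.sqrt (ν k)) (x k) c then 0 else 1) (fun c hc => ?_)).trans
      (add_le_add le_rfl hgoodk)
    refine ind_split61 fun h1 h2 i => ?_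
    have h3 := (abs_le.1 (hnear c hc h2 i)).1
    have h4 := h1 i
    rw [Int.ceil_le, ← le_div_iff₀ hVs] at h4
    linarith
  have B1 := ENNReal.toReal_mono (ENNReal.add_ne_top.2 ⟨by rw [mm_eq61]; exact hscfin _ _ _ _ _,
    ENNReal.mul_ne_top ENNReal.ofReal_ne_top (hfin _ _ _)⟩) A1
  have B2 := ENNReal.toReal_mono (ENNReal.add_ne_top.2 ⟨hscfin _ _ _ _ _,
    ENNReal.mul_ne_top ENNReal.ofReal_ne_top (hfin _ _ _)⟩) A2
  rw [ENNReal.toReal_add (by rw [mm_eq61]; exact hscfin _ _ _ _ _)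
    (ENNReal.mul_ne_top ENNReal.ofReal_ne_top (hfin _ _ _)), ENNReal.toReal_mul, ENNReal.toReal_ofReal he.le] at B1
  rw [ENNReal.toReal_add (hscfin _ _ _ _ _)
    (ENNReal.mul_ne_top ENNReal.ofReal_ne_top (hfin _ _ _)), ENNReal.toReal_mul, ENNReal.toReal_ofReal he.le] at B2
  rw [Real.dist_eq] at f5 f6 ⊢
  have C1 : (Sc K (m k) (x k) (y k) (fun c => if ∀ i, b i ≤
      cpath (ν k) (u k) (x k) c (Set.projIcc (-1) 1 (by norm_num) (s i)) then 1 else 0)).toReal /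
      (G K (m k) (x k) (y k)).toReal ≤
      (Mm K (List.ofFn fun i => (τ k i, ⌈(b i + -e) * Real.sqrt (ν k)⌉)) (m k) (x k) (y k)).toReal /
        (G K (m k) (x k) (y k)).toReal + e := by
    rw [div_le_iff₀ hGpos, add_mul, div_mul_cancel₀ _ hGpos.ne']
    exact B1
  have C2 : (Mm K (List.ofFn fun i => (τ k i, ⌈(b i + e) * Real.sqrt (ν k)⌉)) (m k) (x k) (y k)).toReal /
        (G K (m k) (x k) (y k)).toReal ≤ (Sc K (m k) (x k) (y k) (fun c => if ∀ i, b i ≤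
      cpath (ν k) (u k) (x k) c (Set.projIcc (-1) 1 (by norm_num) (s i)) then 1 else 0)).toReal /
      (G K (m k) (x k) (y k)).toReal + e := by
    rw [div_le_iff₀ hGpos, add_mul, div_mul_cancel₀ _ hGpos.ne']
    exact B2
  have g1 := abs_lt.1 f5
  have g2 := abs_lt.1 f6
  have g3 := abs_lt.1 hc1
  have g4 := abs_lt.1 hc2
  rw [abs_lt]
  constructor <;> linarith

end Pool.Agent.Helper18.WK
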