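import Pool.Agent.Helper18.WK.LstB
import Pool.Agent.Helper49.OZ.Chain

/-!
# Project WK, block WK-T1: the law of the path of a chain

`Measure.sum` of Dirac masses over the countable type `Ch`. `plaw_real`: `Measure.sum_apply`, `Measure.smul_apply`,
`Measure.dirac_apply'`, `ENNReal.tsum_mul_right`. `plaw_prob`: `sc_one`. `plaw_int`: `hasSum_integral_measure` or
`lintegral_sum_measure`, `lintegral_dirac'`, `integral_eq_lintegral_of_nonneg_ae`.
-/

open scoped ENNReal Classical
open MeasureTheory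

namespace Pool.Agent.Helper18.WK

open Pool.Agent.Helper49.OZ (cpath)
open Pool.Agent.Helper49.FL (TI)

/-- The law of the rescaled path under the normalised weights. -/
noncomputable def plaw (K : Ker) (n : ℕ) (u x y : ℤ) (m : ℕ) : Measure C(TI, ℝ) :=
  Measure.sum fun c : Ch => (if cl c = m ∧ ce x c = y then cw K x c / G K m x y else 0) •
    Measure.dirac (cpath n u x c)

private theorem sum27 (K : Ker) (x y : ℤ) (m : ℕ) (ψ : Ch → ℝ≥0∞) :
    ∑' c : Ch, (if cl c = m ∧ ce x c = y then cw K x c / G K m x y else 0) * ψ c =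
      Sc K m x y ψ / G K m x y := by
  unfold Sc
  rw [ENNReal.div_eq_inv_mul, ← ENNReal.tsum_mul_left]
  refine tsum_congr fun c => ?_
  by_cases h : cl c = m ∧ ce x c = y
  · rw [if_pos h, if_pos h, ENNReal.div_eq_inv_mul, mul_assoc]
  · rw [if_neg h, if_neg h, zero_mul, mul_zero]

private theorem apply27 (K : Ker) (n : ℕ) (u x y : ℤ) (m : ℕ) {A : Set C(TI, ℝ)}
    (hA : MeasurableSet A) : plaw K n u x y m A =
      Sc K m x y (fun c => if cpath n u x c ∈ A then 1 else 0) / G K m x y := by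
  unfold plaw
  rw [Measure.sum_apply _ hA, ← sum27 K]
  refine tsum_congr fun c => ?_
  rw [Measure.smul_apply, Measure.dirac_apply' _ hA, smul_eq_mul, Set.indicator_apply]
  rfl

theorem plaw_prob {K : Ker} (hK : ∀ x z, K x 0 z = 0) {n m : ℕ} {u x y : ℤ} (h0 : G K m x y ≠ 0)
    (h1 : G K m x y ≠ ∞) : IsProbabilityMeasure (plaw K n u x y m) := by
  refine ⟨?_⟩
  rw [apply27 K n u x y m MeasurableSet.univ]
  simp only [Set.mem_univ, if_true]
  rw [sc_one K hK, ENNReal.div_self h0 h1]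

theorem plaw_real {K : Ker} {n m : ℕ} {u x y : ℤ} (h0 : G K m x y ≠ 0)
    (h1 : G K m x y ≠ ∞) {A : Set C(TI, ℝ)} (hA : MeasurableSet A) : (plaw K n u x y m).real A =
      (Sc K m x y (fun c => if cpath n u x c ∈ A then 1 else 0)).toReal / (G K m x y).toReal := by
  rw [measureReal_def, apply27 K n u x y m hA, ENNReal.toReal_div]

theorem plaw_int {K : Ker} (hK : ∀ x z, K x 0 z = 0) {n m : ℕ} {u x y : ℤ} (h0 : G K m x y ≠ 0)
    (h1 : G K m x y ≠ ∞) {Φ : C(TI, ℝ) → ℝ} (hΦ : Continuous Φ) (hΦ1 : ∀ f, 0 ≤ Φ f ∧ Φ f ≤ 1) :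
    ∫ f, Φ f ∂(plaw K n u x y m) =
      (Sc K m x y (fun c => ENNReal.ofReal (Φ (cpath n u x c)))).toReal / (G K m x y).toReal := by
  rw [integral_eq_lintegral_of_nonneg_ae (Filter.Eventually.of_forall fun f => (hΦ1 f).1)
    hΦ.aestronglyMeasurable, ← ENNReal.toReal_div]
  congr 1
  unfold plaw
  rw [lintegral_sum_measure, ← sum27 K]
  refine tsum_congr fun c => ?_
  rw [lintegral_smul_measure, lintegral_dirac' _ (hΦ.measurable.ennreal_ofReal), smul_eq_mul]

end Pool.Agent.Helper18.WK
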