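import Pool.Agent.Helper18.WK.Path
import Pool.Agent.Helper18.WK.PathC
import Pool.Agent.Helper18.WK.Plaw
import Pool.Agent.Helper18.WK.Exc0
import Pool.Agent.Helper49.PL.TightA

/-!
# Project WK: convergence of the path of a chain to the Brownian excursion
-/

open scoped ENNReal Classical
open Set Filter MeasureTheory

namespace Pool.Agent.Helper18.WK

open Pool.Agent.Helper49.RD (Fe ind)
open Pool.Agent.Helper49.OZ (cpath)
open Pool.Agent.Helper49.FL (TI IsExc)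
open Pool.Agent.Helper49.PL (ev ev_cont lft)

theorem hgt_neg (x : ℤ) (c : Ch) {t : ℝ} (ht : t ≤ 0) : Pool.Agent.Helper49.OZ.hgt x c t = x := by
  induction c generalizing x t with
  | nil => rfl
  | cons q c ih =>
    show Pool.Agent.Helper49.OZ.hgt q.2 c (t - q.1) + ((x : ℝ) - q.2) * max 0 (min 1 (1 - t / q.1)) = x
    have h0 : (0 : ℝ) ≤ (q.1 : ℝ) := Nat.cast_nonneg _
    rw [ih q.2 (by linarith)]
    have h1 : t / (q.1 : ℝ) ≤ 0 := div_nonpos_of_nonpos_of_nonneg ht h0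
    rw [min_eq_left (by linarith), max_eq_right zero_le_one]
    ring

theorem above_zero {F : Law} {κ Bt r : ℝ} {cap : ℕ} {K : Ker} (h : Above F κ Bt r cap K) (x z : ℤ) : K x 0 z = 0 := by
  have h1 := h.le x 0 z
  unfold Kp at h1
  rw [F.f_zero] at h1
  simp at h1
  exact h1

theorem g_le_one (F : Law) {K : Ker} (h : ∀ x l z, K x l z ≤ K0 F x l z) (m : ℕ) (x y : ℤ) : G K m x y ≤ 1 :=
  (g_mono h m x y).trans ((ENNReal.le_tsum y).trans (g_sum_le F m x))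

section
variable (F : Law) {κ Bt r : ℝ} (hκ : 0 < κ) (hB : 0 < Bt) (hr : 0 < r) {K : Ker}
  (hK : ∀ cap : ℕ, Above F κ Bt r cap K)

include hκ hB hr hK

theorem g_ne_zero (U : ℕ) : ∃ n₀ : ℕ, ∀ n ≥ n₀, ∀ (m : ℕ) (x y : ℤ), |(m : ℝ) - 2 * n| ≤ U →
    1 ≤ x → x ≤ U → 1 ≤ y → y ≤ U → G K m x y ≠ 0 := by
  obtain ⟨n₀, c, hc, h⟩ := above_low F hκ hB hr one_pos U
  refine ⟨n₀ + U + 1, fun n hn m x y hm hx hx' hy hy' => ?_⟩
  have h1 : n₀ + 1 ≤ m := by
    have h2 := (abs_le.1 hm).1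
    have h3 : ((n₀ : ℝ) + U + 1) ≤ n := by exact_mod_cast hn
    have h4 : ((n₀ : ℝ) + 1) ≤ m := by linarith [Nat.cast_nonneg (α := ℝ) U, Nat.cast_nonneg (α := ℝ) n₀]
    exact_mod_cast h4
  have h5 := h m (by omega) m K (hK m) (by simp) x y hx hx' hy hy'
  intro h6
  rw [h6] at h5
  have h7 : 0 < c / ((m : ℝ) * Real.sqrt m) := by
    have : (0 : ℝ) < m := by
      have : 0 < m := by omega
      exact_mod_cast this
    positivity
  exact absurd h5 (not_le.2 (ENNReal.ofReal_pos.2 h7))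

theorem conv_seq {U : ℕ} {ν m : ℕ → ℕ} {u x y : ℕ → ℤ} (hν : Tendsto ν atTop atTop)
    (hm : ∀ k, |(m k : ℝ) - 2 * ν k| ≤ U) (hu : ∀ k, 0 ≤ u k ∧ u k ≤ U)
    (hx : ∀ k, 1 ≤ x k ∧ x k ≤ U) (hy : ∀ k, 1 ≤ y k ∧ y k ≤ U) :
    ∃ μ : Measure C(TI, ℝ), IsProbabilityMeasure μ ∧
      (∀ Φ : C(TI, ℝ) → ℝ, Continuous Φ → (∀ f, 0 ≤ Φ f ∧ Φ f ≤ 1) →
        Tendsto (fun k => (Sc K (m k) (x k) (y k) (fun c => ENNReal.ofReal (Φ (cpath (ν k) (u k) (x k) c)))).toReal /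
          (G K (m k) (x k) (y k)).toReal) atTop (nhds (∫ f, Φ f ∂μ))) ∧
      ∀ p : ℕ, 1 ≤ p → ∀ s b : Fin p → ℝ, StrictMono s → (∀ i, -1 < s i ∧ s i < 1) → (∀ i, b i ≠ 0) →
        μ.real {f | ∀ i, b i ≤ ev f (s i)} =
          Fe (s2 F) p s (fun i z => ind (b i) z) / Fe (s2 F) p s (fun _ _ => 1) := by
  obtain ⟨n₀, hn₀⟩ := g_ne_zero F hκ hB hr hK U
  obtain ⟨k₀, hk₀⟩ := eventually_atTop.1 (hν.eventually (eventually_ge_atTop n₀))
  have hK0 : ∀ x z, K x 0 z = 0 := fun x z => above_zero (hK 0) x z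
  have hle : ∀ x l z, K x l z ≤ K0 F x l z := fun x l z => ((hK 0).le x l z).trans (kp_le F x l z)
  have h0 : ∀ k, G K (m (k + k₀)) (x (k + k₀)) (y (k + k₀)) ≠ 0 := fun k =>
    hn₀ _ (hk₀ _ (by omega)) _ _ _ (hm _) (hx _).1 (hx _).2 (hy _).1 (hy _).2
  have h1 : ∀ k, G K (m (k + k₀)) (x (k + k₀)) (y (k + k₀)) ≠ ∞ := fun k =>
    ne_top_of_le_ne_top ENNReal.one_ne_top (g_le_one F hle _ _ _)
  set L : ℕ → Measure C(TI, ℝ) := fun k =>
    plaw K (ν (k + k₀)) (u (k + k₀)) (x (k + k₀)) (y (k + k₀)) (m (k + k₀)) with hL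
  have hP : ∀ k, IsProbabilityMeasure (L k) := fun k => plaw_prob hK0 (h0 k) (h1 k)
  have hshift : Tendsto (fun k : ℕ => k + k₀) atTop atTop := tendsto_add_atTop_nat k₀
  have ht : IsTightMeasureSet (Set.range L) := by
    refine Pool.Agent.Helper49.PL.tight_of_mod ?_ ?_
    · intro t ht
      refine ⟨U, 0, fun k _ => ?_⟩
      have hA : MeasurableSet {f : C(TI, ℝ) | (U : ℝ) < |f lft|} :=
        (isOpen_lt continuous_const (ContinuousEvalConst.continuous_eval_const lft).abs).measurableSet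
      rw [hL]
      simp only
      rw [plaw_real (h0 k) (h1 k) hA]
      have hz : Sc K (m (k + k₀)) (x (k + k₀)) (y (k + k₀)) (fun c =>
          if cpath (ν (k + k₀)) (u (k + k₀)) (x (k + k₀)) c ∈ {f : C(TI, ℝ) | (U : ℝ) < |f lft|} then 1 else 0) = 0 := by
        unfold Sc
        refine ENNReal.tsum_eq_zero.2 fun c => ?_
        have hnot : ¬ cpath (ν (k + k₀)) (u (k + k₀)) (x (k + k₀)) c ∈ {f : C(TI, ℝ) | (U : ℝ) < |f lft|} := by
          intro h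
          have h' : (U : ℝ) < |Pool.Agent.Helper49.OZ.hgt (x (k + k₀)) c
            ((ν (k + k₀) : ℝ) * ((-1 : ℝ) + 1) - u (k + k₀)) / Real.sqrt (ν (k + k₀))| := h
          have hu0 : (0 : ℝ) ≤ u (k + k₀) := by exact_mod_cast (hu (k + k₀)).1
          rw [hgt_neg _ _ (by linarith)] at h'
          have hx0 : (1 : ℝ) ≤ x (k + k₀) := by exact_mod_cast (hx (k + k₀)).1
          have hx1 : ((x (k + k₀) : ℤ) : ℝ) ≤ U := by exact_mod_cast (hx (k + k₀)).2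
          have hs0 := Real.sqrt_nonneg (ν (k + k₀) : ℝ)
          rw [abs_of_nonneg (div_nonneg (by linarith) hs0)] at h'
          rcases Nat.eq_zero_or_pos (ν (k + k₀)) with h2 | h2
          · rw [h2] at h'
            simp at h'
            linarith [Nat.cast_nonneg (α := ℝ) U]
          · have h3 : (1 : ℝ) ≤ Real.sqrt (ν (k + k₀)) := by
              rw [Real.one_le_sqrt]
              exact_mod_cast h2
            have h4 := div_le_self (by linarith : (0 : ℝ) ≤ x (k + k₀)) h3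
            linarith
        beta_reduce
        rw [if_neg hnot, mul_zero, ite_self]
      rw [hz]
      simpa using ht.le
    · intro ε t hε ht
      obtain ⟨δ, n₁, hδ, h⟩ := path_mod F hκ hB hr hK U hε ht
      obtain ⟨k₁, hk₁⟩ := eventually_atTop.1 (hν.eventually (eventually_ge_atTop n₁))
      refine ⟨δ, k₁, hδ, fun k hk => ?_⟩
      have hA : MeasurableSet {f : C(TI, ℝ) | ∃ s s' : TI, |(s : ℝ) - s'| ≤ δ ∧ ε < |f s - f s'|} := by
        have h2 : {f : C(TI, ℝ) | ∃ s s' : TI, |(s : ℝ) - s'| ≤ δ ∧ ε < |f s - f s'|} =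
            ⋃ (s : TI) (s' : TI) (_ : |(s : ℝ) - s'| ≤ δ), {f : C(TI, ℝ) | ε < |f s - f s'|} := by
          ext f
          simp only [mem_setOf_eq, mem_iUnion, exists_prop]
        rw [h2]
        refine (isOpen_iUnion fun s => isOpen_iUnion fun s' => isOpen_iUnion fun _ => ?_).measurableSet
        exact isOpen_lt continuous_const
          ((ContinuousEvalConst.continuous_eval_const s).sub
            (ContinuousEvalConst.continuous_eval_const s')).abs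
      rw [hL]
      simp only
      rw [plaw_real (h0 k) (h1 k) hA]
      have h3 := h _ (hk₁ (k + k₀) (by omega)) (m (k + k₀)) (u (k + k₀)) (x (k + k₀)) (y (k + k₀)) (hm _)
        (hx _).1 (hx _).2 (hy _).1 (hy _).2
      have h4 : 0 < (G K (m (k + k₀)) (x (k + k₀)) (y (k + k₀))).toReal := ENNReal.toReal_pos (h0 k) (h1 k)
      rw [div_le_iff₀ h4]
      have h5 := ENNReal.toReal_mono (ENNReal.mul_ne_top ENNReal.ofReal_ne_top (h1 k)) h3
      rw [ENNReal.toReal_mul, ENNReal.toReal_ofReal ht.le] at h5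
      exact h5
  have hF : ∀ p : ℕ, 1 ≤ p → ∀ s b : Fin p → ℝ, StrictMono s → (∀ i, -1 < s i ∧ s i < 1) → (∀ i, b i ≠ 0) →
      Tendsto (fun k => (L k).real {f | ∀ i, b i ≤ ev f (s i)}) atTop
        (nhds (Fe (s2 F) p s (fun i z => ind (b i) z) / Fe (s2 F) p s (fun _ _ => 1))) := by
    intro p hp s b hs hs1 hb
    have h := (path_fdd F hκ hB hr hK hp hs hs1 (b := b) hν hm hu hx hy).comp hshift
    refine h.congr fun k => ?_
    have hA : MeasurableSet {f : C(TI, ℝ) | ∀ i, b i ≤ ev f (s i)} := by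
      have h1 : {f : C(TI, ℝ) | ∀ i, b i ≤ ev f (s i)} = ⋂ i, {f : C(TI, ℝ) | b i ≤ ev f (s i)} := by
        ext f
        simp
      rw [h1]
      exact (isClosed_iInter fun i => isClosed_le continuous_const (ev_cont (s i))).measurableSet
    rw [hL]
    simp only [Function.comp_apply]
    rw [plaw_real (h0 k) (h1 k) hA]
    refine congrArg (fun a : ℝ≥0∞ => a.toReal / _) (congrArg (Sc _ _ _ _) (funext fun c => ?_))
    by_cases h : ∀ i, b i ≤ ev (cpath (ν (k + k₀)) (u (k + k₀)) (x (k + k₀)) c) (s i)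
    · exact (if_pos h).trans (if_pos h).symm
    · exact (if_neg h).trans (if_neg h).symm
  obtain ⟨μ, hμ1, hμ2, hμ3⟩ := Pool.Agent.Helper49.PL.conv ht hF
  refine ⟨μ, hμ1, ?_, fun p hp s b hs hs1 hb => conv_eq (s2_pos F) hμ3 hp hs hs1 hb⟩
  intro Φ hΦ hΦ1
  have h2 := hμ2 Φ hΦ ⟨1, fun f => by rw [abs_of_nonneg (hΦ1 f).1]; exact (hΦ1 f).2⟩
  refine (tendsto_add_atTop_iff_nat k₀).1 ?_
  refine h2.congr fun k => ?_
  rw [hL]
  simp only
  rw [plaw_int hK0 (h0 k) (h1 k) hΦ hΦ1]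

theorem walk_lim : ∃ P : Measure C(TI, ℝ), IsExc P ∧ ∀ Φ : C(TI, ℝ) → ℝ, Continuous Φ → (∀ f, 0 ≤ Φ f ∧ Φ f ≤ 1) →
    ∀ (U : ℕ) (ε : ℝ), 0 < ε → ∃ n₀ : ℕ, ∀ n, n₀ ≤ n → ∀ (m : ℕ) (u x y : ℤ), |(m : ℝ) - 2 * n| ≤ U →
      0 ≤ u → u ≤ U → 1 ≤ x → x ≤ U → 1 ≤ y → y ≤ U →
        |(Sc K m x y (fun c => ENNReal.ofReal (Φ (cpath n u x c)))).toReal -
          (G K m x y).toReal * ∫ f, Φ (Real.sqrt (s2 F) • f) ∂P| ≤ ε * (G K m x y).toReal := by
  obtain ⟨μ, hμ1, -, hμ3⟩ := conv_seq F hκ hB hr hK (U := 1) (ν := fun k => k) (m := fun k => 2 * k)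
    (u := fun _ => 0) (x := fun _ => 1) (y := fun _ => 1) tendsto_id (fun k => by simp) (fun k => by simp)
    (fun k => by simp) (fun k => by simp)
  have hq : 0 < Real.sqrt (s2 F) := Real.sqrt_pos.2 (s2_pos F)
  have hsm : Continuous fun f : C(TI, ℝ) => (Real.sqrt (s2 F))⁻¹ • f := by fun_prop
  refine ⟨μ.map fun f => (Real.sqrt (s2 F))⁻¹ • f, exc_pos (s2_pos F) hμ3, ?_⟩
  intro Φ hΦ hΦ1 U ε hε
  have hint : ∫ f, Φ (Real.sqrt (s2 F) • f) ∂(μ.map fun f => (Real.sqrt (s2 F))⁻¹ • f) = ∫ f, Φ f ∂μ := by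
    rw [integral_map hsm.measurable.aemeasurable]
    · refine integral_congr_ae (Eventually.of_forall fun f => ?_)
      simp only
      rw [smul_smul, mul_inv_cancel₀ hq.ne', one_smul]
    · have : Continuous fun f : C(TI, ℝ) => Φ (Real.sqrt (s2 F) • f) := by fun_prop
      exact this.measurable.aestronglyMeasurable
  rw [hint]
  by_contra hcon
  push Not at hcon
  choose ν hν m u x y hm hu hu' hx hx' hy hy' hbad using hcon
  have hν' : Tendsto ν atTop atTop := tendsto_atTop_mono hν tendsto_id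
  obtain ⟨μ', hμ1', hμ2', hμ3'⟩ := conv_seq F hκ hB hr hK (U := U) hν' hm (fun k => ⟨hu k, hu' k⟩)
    (fun k => ⟨hx k, hx' k⟩) (fun k => ⟨hy k, hy' k⟩)
  have hsand : ∀ {μ : Measure C(TI, ℝ)} [IsProbabilityMeasure μ], (∀ p : ℕ, 1 ≤ p → ∀ s b : Fin p → ℝ, StrictMono s →
      (∀ i, -1 < s i ∧ s i < 1) → (∀ i, b i ≠ 0) → μ.real {f | ∀ i, b i ≤ ev f (s i)} =
          Fe (s2 F) p s (fun i z => ind (b i) z) / Fe (s2 F) p s (fun _ _ => 1)) →
      ∀ p : ℕ, 1 ≤ p → ∀ s b : Fin p → ℝ, StrictMono s → (∀ i, -1 < s i ∧ s i < 1) → (∀ i, b i ≠ 0) →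
        μ.real {f | ∀ i, b i < ev f (s i)} ≤ Fe (s2 F) p s (fun i z => ind (b i) z) / Fe (s2 F) p s (fun _ _ => 1) ∧
        Fe (s2 F) p s (fun i z => ind (b i) z) / Fe (s2 F) p s (fun _ _ => 1) ≤ μ.real {f | ∀ i, b i ≤ ev f (s i)} := by
    intro μ _ h p hp s b hs hs1 hb
    rw [← h p hp s b hs hs1 hb]
    exact ⟨measureReal_mono fun f hf i => (hf i).le, le_rfl⟩
  have hμμ : μ' = μ := Pool.Agent.Helper49.PL.fdd_ext (F := fun p s b =>
    Fe (s2 F) p s (fun i z => ind (b i) z) / Fe (s2 F) p s (fun _ _ => 1)) (hsand hμ3') (hsand hμ3)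
  rw [hμμ] at hμ2'
  have h2 := Metric.tendsto_atTop.1 (hμ2' Φ hΦ hΦ1) ε hε
  obtain ⟨k₁, hk₁⟩ := h2
  obtain ⟨n₀, hn₀⟩ := g_ne_zero F hκ hB hr hK U
  have hle : ∀ x l z, K x l z ≤ K0 F x l z := fun x l z => ((hK 0).le x l z).trans (kp_le F x l z)
  set k := max k₁ n₀ with hk
  have h3 := hk₁ k (le_max_left _ _)
  have h4 : G K (m k) (x k) (y k) ≠ 0 := hn₀ _ ((le_max_right k₁ n₀).trans (hν k)) _ _ _ (hm k) (hx k) (hx' k) (hy k) (hy' k)
  have h5 : G K (m k) (x k) (y k) ≠ ∞ := ne_top_of_le_ne_top ENNReal.one_ne_top (g_le_one F hle _ _ _)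
  have h6 : 0 < (G K (m k) (x k) (y k)).toReal := ENNReal.toReal_pos h4 h5
  rw [Real.dist_eq] at h3
  have h7 := hbad k
  have h8 : (Sc K (m k) (x k) (y k) (fun c => ENNReal.ofReal (Φ (cpath (ν k) (u k) (x k) c)))).toReal -
      (G K (m k) (x k) (y k)).toReal * ∫ f, Φ f ∂μ = (G K (m k) (x k) (y k)).toReal *
      ((Sc K (m k) (x k) (y k) (fun c => ENNReal.ofReal (Φ (cpath (ν k) (u k) (x k) c)))).toReal /
        (G K (m k) (x k) (y k)).toReal - ∫ f, Φ f ∂μ) := by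
    rw [mul_sub, mul_div_cancel₀ _ h6.ne']
  rw [h8, abs_mul, abs_of_pos h6, mul_comm ε] at h7
  have h9 := mul_lt_mul_of_pos_left h3 h6
  linarith

end

end Pool.Agent.Helper18.WK
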