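import Pool.Agent.Helper18.WK.Four

/-!
# Project WK, block WK-C2: the renewal theorem

`u n = Phi F n 0` satisfies `u 0 = 1`, `u n = ∑_(l=1..n) len l u (n - l)`, `0 ≤ u ≤ 1` (`phi_zero`). With
`r k = ∑_(l > k) len l`: `∑_(k ≤ n) r k u (n - k) = 1` (induction), `∑_k r k = mu`. Let `L = limsup u` and
`u → L` along an ultrafilter. Because `u n ≤ len 1 u (n - 1) + ∑_(l ≥ 2) len l u (n - l)` and `limsup ≤ L` for every
term, `u (n - 1) → L`; inductively `u (n - k) → L` for every fixed `k`. Dominated convergence in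
`∑_k r k u (n - k) = 1` gives `L mu = 1`. The same for `-u`. (Use `len 1 ≥ f 1 0 > 0`.)
-/

open scoped ENNReal
open MeasureTheory Filter Topology

namespace Pool.Agent.Helper18.WK

namespace Ren

/-- Upper half of the renewal theorem, for `v = u` (`s = 1`) and `v = -u` (`s = -1`). -/
theorem ren_key (p v r : ℕ → ℝ) (s m : ℝ) (hp : ∀ l, 0 ≤ p l) (h1 : 0 < p 1)
    (hs : HasSum (fun l => p (l + 1)) 1) (hv : ∀ n, |v n| ≤ 1)
    (hrec : ∀ n, v (n + 1) = ∑ l ∈ Finset.range (n + 1), p (l + 1) * v (n - l))
    (hr0 : ∀ k, 0 ≤ r k) (hr : HasSum r m) (hm : 0 < m)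
    (hsum : ∀ n, ∑ k ∈ Finset.range (n + 1), r k * v (n - k) = s) :
    ∀ ε > 0, ∀ᶠ n in atTop, v n < s / m + ε := by
  have hv1 : ∀ n, v n ≤ 1 := fun n => (abs_le.1 (hv n)).2
  have hv2 : ∀ n, -1 ≤ v n := fun n => (abs_le.1 (hv n)).1
  have hbdd : IsBoundedUnder (· ≤ ·) atTop v := isBoundedUnder_of ⟨1, hv1⟩
  have hbdd' : IsBoundedUnder (· ≥ ·) atTop v := isBoundedUnder_of ⟨-1, hv2⟩
  have hcob : IsCoboundedUnder (· ≤ ·) atTop v := hbdd'.isCoboundedUnder_le
  set L := limsup v atTop with hL
  have hup : ∀ ε > 0, ∀ᶠ n in atTop, v n < L + ε := fun ε hε =>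
    eventually_lt_of_limsup_lt (by rw [← hL]; linarith) hbdd
  have hlow : ∀ ε > 0, ∃ᶠ n in atTop, L - ε < v n := fun ε hε =>
    frequently_lt_of_lt_limsup hcob (by rw [← hL]; linarith)
  have hcl : MapClusterPt L atTop v := by
    rw [mapClusterPt_iff_frequently]
    intro t ht
    obtain ⟨ε, hε, hb⟩ := Metric.mem_nhds_iff.1 ht
    have := (hlow ε hε).and_eventually (hup ε hε)
    refine this.mono fun n hn => hb ?_
    rw [Metric.mem_ball, Real.dist_eq, abs_lt]
    constructor <;> linarith [hn.1, hn.2]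
  obtain ⟨F, hF, hFL⟩ := mapClusterPt_iff_ultrafilter.1 hcl
  have hw : ∀ k : ℕ, ∃ w, Tendsto (fun n => v (n - k)) F (𝓝 w) := by
    intro k
    have hc : IsCompact (Set.Icc (-1 : ℝ) 1) := isCompact_Icc
    obtain ⟨w, -, hw⟩ := hc.ultrafilter_le_nhds' (F.map fun n => v (n - k))
      (by
        rw [Ultrafilter.mem_map]
        exact Filter.univ_mem' fun n => ⟨hv2 _, hv1 _⟩)
    exact ⟨w, hw⟩
  choose w hw using hw
  have hw0 : w 0 = L := by
    have := hw 0
    simp only [Nat.sub_zero] at this
    exact tendsto_nhds_unique this hFL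
  have hwL : ∀ k, w k ≤ L := by
    intro k
    refine le_of_forall_pos_le_add fun ε hε => ?_
    have h2 : ∀ᶠ n in atTop, v (n - k) < L + ε := (tendsto_sub_atTop_nat k).eventually (hup ε hε)
    exact le_of_tendsto (hw k)
      ((show ∀ᶠ n in (F : Filter ℕ), v (n - k) < L + ε from hF h2).mono fun n hn => hn.le)
  have hge : ∀ k : ℕ, ∀ᶠ n in (F : Filter ℕ), k ≤ n := fun k => hF (eventually_ge_atTop k)
  have hwrec : ∀ k, w k = ∑' l, p (l + 1) * w (k + l + 1) := by
    intro k
    have hdom : Tendsto (fun n => ∑' l, if l + k + 1 ≤ n then p (l + 1) * v (n - (k + l + 1)) else 0) F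
        (𝓝 (∑' l, p (l + 1) * w (k + l + 1))) := by
      refine tendsto_tsum_of_dominated_convergence (bound := fun l => p (l + 1)) hs.summable ?_ ?_
      · intro l
        have h3 := (hw (k + l + 1)).const_mul (p (l + 1))
        refine h3.congr' ?_
        filter_upwards [hge (l + k + 1)] with n hn
        rw [if_pos hn]
      · refine Filter.Eventually.of_forall fun n l => ?_
        split_ifs
        · rw [Real.norm_eq_abs, abs_mul, abs_of_nonneg (hp _)]
          exact mul_le_of_le_one_right (hp _) (hv _)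
        · simpa using hp (l + 1)
    refine tendsto_nhds_unique (hw k) (hdom.congr' ?_)
    filter_upwards [hge (k + 1)] with n hn
    obtain ⟨j, rfl⟩ : ∃ j, n = k + 1 + j := ⟨n - (k + 1), by omega⟩
    have e1 : k + 1 + j - k = j + 1 := by omega
    rw [e1, hrec j, tsum_eq_sum (s := Finset.range (j + 1))]
    · refine Finset.sum_congr rfl fun l hl => ?_
      have hl' : l < j + 1 := Finset.mem_range.1 hl
      rw [if_pos (by omega)]
      congr 2
      omega
    · intro l hl
      rw [Finset.mem_range, not_lt] at hl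
      rw [if_neg (by omega)]
  have hbw : ∀ k, |w k| ≤ 1 := by
    intro k
    rw [abs_le]
    exact ⟨ge_of_tendsto (hw k) (Filter.Eventually.of_forall fun n => hv2 _),
      le_of_tendsto (hw k) (Filter.Eventually.of_forall fun n => hv1 _)⟩
  have hsw : ∀ k, Summable fun l => p (l + 1) * w (k + l + 1) := by
    intro k
    refine Summable.of_norm_bounded hs.summable fun l => ?_
    rw [Real.norm_eq_abs, abs_mul, abs_of_nonneg (hp _)]
    exact mul_le_of_le_one_right (hp _) (hbw _)
  have hwall : ∀ k, w k = L := by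
    intro k
    induction k with
    | zero => exact hw0
    | succ k ih =>
      have h4 : HasSum (fun l => p (l + 1) * w (k + l + 1)) (w k) := by
        rw [hwrec k]
        exact (hsw k).hasSum
      have h5 : HasSum (fun l => p (l + 1) * L) (1 * L) := hs.mul_right L
      have h6 := h5.sub h4
      rw [ih, one_mul, sub_self] at h6
      have h7 : ∀ l, 0 ≤ p (l + 1) * L - p (l + 1) * w (k + l + 1) := by
        intro l
        have := mul_le_mul_of_nonneg_left (hwL (k + l + 1)) (hp (l + 1))
        linarith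
      have h8 := (hasSum_zero_iff_of_nonneg h7).1 h6
      have h9 := congrFun h8 0
      simp only [zero_add, Pi.zero_apply, add_zero] at h9
      have h10 : p 1 * (L - w (k + 1)) = 0 := by linarith
      rcases mul_eq_zero.1 h10 with h | h
      · exact absurd h h1.ne'
      · linarith
  have hfin : s = ∑' k, r k * L := by
    have hdom : Tendsto (fun n => ∑' k, if k ≤ n then r k * v (n - k) else 0) F
        (𝓝 (∑' k, r k * L)) := by
      refine tendsto_tsum_of_dominated_convergence (bound := r) hr.summable ?_ ?_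
      · intro k
        have h3 := (hw k).const_mul (r k)
        rw [hwall k] at h3
        refine h3.congr' ?_
        filter_upwards [hge k] with n hn
        rw [if_pos hn]
      · refine Filter.Eventually.of_forall fun n l => ?_
        split_ifs
        · rw [Real.norm_eq_abs, abs_mul, abs_of_nonneg (hr0 _)]
          exact mul_le_of_le_one_right (hr0 _) (hv _)
        · simpa using hr0 l
    have hc : (fun n => ∑' k, if k ≤ n then r k * v (n - k) else 0) = fun _ => s := by
      funext n
      rw [← hsum n, tsum_eq_sum (s := Finset.range (n + 1))]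
      · refine Finset.sum_congr rfl fun k hk => ?_
        rw [if_pos (by have := Finset.mem_range.1 hk; omega)]
      · intro k hk
        rw [Finset.mem_range, not_lt] at hk
        rw [if_neg (by omega)]
    rw [hc] at hdom
    exact tendsto_nhds_unique tendsto_const_nhds hdom
  have hLs : L = s / m := by
    rw [(hr.mul_right L).tsum_eq] at hfin
    rw [hfin]
    field_simp
  intro ε hε
  rw [← hLs]
  exact hup ε hε

/-- The tails of the law of the lengths. -/
noncomputable def tl (p : ℕ → ℝ) (k : ℕ) : ℝ := ∑' l, if k < l then p l else 0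

theorem tl_summable {p : ℕ → ℝ} (hp : ∀ l, 0 ≤ p l) (hs : Summable p) (k : ℕ) :
    Summable fun l => if k < l then p l else 0 := by
  refine Summable.of_nonneg_of_le (fun l => ?_) (fun l => ?_) hs
  · split_ifs
    · exact hp l
    · exact le_refl 0
  · split_ifs
    · exact le_refl _
    · exact hp l

theorem tl_hasSum {p : ℕ → ℝ} (hp : ∀ l, 0 ≤ p l) (hm : Summable fun l : ℕ => (l : ℝ) * p l) :
    HasSum (tl p) (∑' l : ℕ, (l : ℝ) * p l) := by
  have hin : ∀ l : ℕ, HasSum (fun k => if k < l then p l else 0) ((l : ℝ) * p l) := by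
    intro l
    have : (l : ℝ) * p l = ∑ k ∈ Finset.range l, if k < l then p l else 0 := by
      rw [Finset.sum_congr rfl (fun k hk => if_pos (Finset.mem_range.1 hk))]
      simp
    rw [this]
    refine hasSum_sum_of_ne_finset_zero fun k hk => ?_
    rw [Finset.mem_range] at hk
    rw [if_neg hk]
  have hS : Summable fun q : ℕ × ℕ => if q.2 < q.1 then p q.1 else 0 := by
    rw [summable_prod_of_nonneg]
    · refine ⟨fun l => (hin l).summable, ?_⟩
      refine hm.congr fun l => ?_
      exact ((hin l).tsum_eq).symm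
    · intro q
      dsimp only [Pi.zero_apply]
      split_ifs
      · exact hp _
      · exact le_refl 0
  have hS2 : Summable fun q : ℕ × ℕ => if q.1 < q.2 then p q.2 else 0 := hS.prod_symm
  have h1 : Summable (tl p) := by
    have := hS2.prod
    exact this
  have h2 : ∑' k, tl p k = ∑' l : ℕ, (l : ℝ) * p l := by
    have h3 := hS.tsum_comm (f := fun l k => if k < l then p l else 0)
    unfold tl
    rw [h3]
    exact tsum_congr fun l => (hin l).tsum_eq
  rw [← h2]
  exact h1.hasSum

theorem tl_zero {p : ℕ → ℝ} (h0 : p 0 = 0) (hs : HasSum p 1) : tl p 0 = 1 := by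
  unfold tl
  rw [← hs.tsum_eq]
  refine tsum_congr fun l => ?_
  rcases Nat.eq_zero_or_pos l with rfl | h
  · simp [h0]
  · rw [if_pos h]

theorem tl_succ {p : ℕ → ℝ} (hp : ∀ l, 0 ≤ p l) (hs : Summable p) (k : ℕ) :
    tl p (k + 1) = tl p k - p (k + 1) := by
  have h1 : tl p k - tl p (k + 1) = p (k + 1) := by
    unfold tl
    rw [← (tl_summable hp hs k).tsum_sub (tl_summable hp hs (k + 1))]
    rw [tsum_eq_single (k + 1)]
    · simp
    · intro l hl
      rcases lt_or_ge l (k + 1) with h | h
      · rw [if_neg (by omega), if_neg (by omega), sub_zero]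
      · rw [if_pos (by omega), if_pos (by omega), sub_self]
  linarith

theorem tl_nonneg {p : ℕ → ℝ} (hp : ∀ l, 0 ≤ p l) (k : ℕ) : 0 ≤ tl p k := by
  refine tsum_nonneg fun l => ?_
  split_ifs
  · exact hp l
  · exact le_refl 0

theorem tl_conv {p v : ℕ → ℝ} (h0 : p 0 = 0) (hp : ∀ l, 0 ≤ p l) (hs : HasSum p 1) (hv0 : v 0 = 1)
    (hrec : ∀ n, v (n + 1) = ∑ l ∈ Finset.range (n + 1), p (l + 1) * v (n - l)) (n : ℕ) :
    ∑ k ∈ Finset.range (n + 1), tl p k * v (n - k) = 1 := by
  induction n with
  | zero => simp [tl_zero h0 hs, hv0]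
  | succ n ih =>
    rw [Finset.sum_range_succ', tl_zero h0 hs, one_mul, Nat.sub_zero, hrec n, ← Finset.sum_add_distrib,
      ← ih]
    refine Finset.sum_congr rfl fun k hk => ?_
    rw [tl_succ hp hs.summable, Nat.add_sub_add_right]
    ring

theorem Phi_zero (F : Law) (t : ℝ) : Phi F 0 t = 1 := by
  rw [Phi]

theorem Phi_succ (F : Law) (n : ℕ) (t : ℝ) :
    Phi F (n + 1) t = ∑ l ∈ Finset.range (n + 1), phi F (l + 1) t * Phi F (n - l) t := by
  rw [Phi]

theorem len_zero (F : Law) : len F 0 = 0 := by
  unfold len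
  simp [F.f_zero]

theorem len_one_pos (F : Law) : 0 < len F 1 :=
  F.f_one.trans_le ((f_summable F 1).le_tsum 0 fun h _ => F.f_nonneg 1 h)

theorem len_mean (F : Law) : Summable fun l : ℕ => (l : ℝ) * len F l := by
  obtain ⟨C, hC, h⟩ := len_tail F
  have h1 := (Real.summable_pow_mul_exp_neg_nat_mul 1 F.a_pos).mul_left C
  refine Summable.of_nonneg_of_le (fun l => mul_nonneg (Nat.cast_nonneg l) (len_nonneg F l)) (fun l => ?_) h1
  have h2 := mul_le_mul_of_nonneg_left (h l) (Nat.cast_nonneg (α := ℝ) l)
  rw [pow_one]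
  calc (l : ℝ) * len F l ≤ l * (C * Real.exp (-F.a * l)) := h2
    _ = C * (l * Real.exp (-F.a * l)) := by ring

end Ren

open Ren in
theorem renewal (F : Law) : Tendsto (fun n => Phi F n 0) atTop (nhds (1 / mu F)) := by
  have hp : ∀ l, 0 ≤ len F l := len_nonneg F
  have hs : HasSum (len F) 1 := len_sum F
  have hs1 : HasSum (fun l => len F (l + 1)) 1 := by
    have := (hasSum_nat_add_iff' 1).2 hs
    simpa [len_zero] using this
  have hrec : ∀ n, Phi F (n + 1) 0 = ∑ l ∈ Finset.range (n + 1), len F (l + 1) * Phi F (n - l) 0 := by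
    intro n
    rw [Phi_succ]
    exact Finset.sum_congr rfl fun l _ => by rw [phi_zero]
  have hb : ∀ n, |Phi F n 0| ≤ 1 := by
    intro n
    induction n using Nat.strong_induction_on with
    | _ n ih =>
      rcases n with _ | n
      · rw [Phi_zero]; simp
      · rw [hrec n]
        calc |∑ l ∈ Finset.range (n + 1), len F (l + 1) * Phi F (n - l) 0|
            ≤ ∑ l ∈ Finset.range (n + 1), |len F (l + 1) * Phi F (n - l) 0| := Finset.abs_sum_le_sum_abs _ _
          _ ≤ ∑ l ∈ Finset.range (n + 1), len F (l + 1) := by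
              refine Finset.sum_le_sum fun l _ => ?_
              rw [abs_mul, abs_of_nonneg (hp _)]
              exact mul_le_of_le_one_right (hp _) (ih (n - l) (by omega))
          _ ≤ 1 := sum_le_hasSum _ (fun l _ => hp _) hs1
  have hmu : 0 < mu F := lt_of_lt_of_le one_pos (mu_pos F)
  have hT : HasSum (tl (len F)) (mu F) := tl_hasSum hp (len_mean F)
  have hconv := tl_conv (v := fun n => Phi F n 0) (len_zero F) hp hs (Phi_zero F 0) hrec
  have hU := ren_key (len F) (fun n => Phi F n 0) (tl (len F)) 1 (mu F) hp (len_one_pos F) hs1 hb hrec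
    (tl_nonneg hp) hT hmu hconv
  have hL := ren_key (len F) (fun n => -Phi F n 0) (tl (len F)) (-1) (mu F) hp (len_one_pos F) hs1
    (fun n => by rw [abs_neg]; exact hb n)
    (fun n => by
      show -Phi F (n + 1) 0 = _
      rw [hrec n, ← Finset.sum_neg_distrib]
      exact Finset.sum_congr rfl fun l _ => by ring)
    (tl_nonneg hp) hT hmu
    (fun n => by
      rw [← hconv n, ← Finset.sum_neg_distrib]
      exact Finset.sum_congr rfl fun l _ => by ring)
  rw [Metric.tendsto_nhds]
  intro ε hε
  filter_upwards [hU ε hε, hL ε hε] with n h1 h2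
  rw [Real.dist_eq, abs_lt]
  rw [neg_div] at h2
  constructor <;> linarith

end Pool.Agent.Helper18.WK
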