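import Pool.Agent.Helper18.WK.Kill
import Pool.Agent.Helper18.WK.Ren
import Pool.Agent.Helper18.WK.SplitA
import Pool.Agent.Helper49.RD.HkDef

/-!
# Project WK, block WK-M2: pointwise limits of `G` and `Fst`
-/

open scoped ENNReal Classical
open Set Filter MeasureTheory

namespace Pool.Agent.Helper18.WK

theorem tl_eq41 {p : ℕ → ℝ} (hp : ∀ l, 0 ≤ p l) (hs : Summable p) (k : ℕ) :
    Ren.tl p k = ∑' l : ℕ, p (l + k + 1) := by
  unfold Ren.tl
  have h1 := (Ren.tl_summable hp hs k).sum_add_tsum_nat_add (k + 1)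
  rw [← h1, Finset.sum_eq_zero, zero_add]
  · refine tsum_congr fun l => ?_
    rw [if_pos (by omega), add_assoc]
  · intro l hl
    rw [Finset.mem_range] at hl
    rw [if_neg (by omega)]

theorem len_dbl (F : Law) : HasSum (fun r : ℕ => ∑' l : ℕ, len F (l + r + 1)) (mu F) := by
  have h := Ren.tl_hasSum (p := len F) (len_nonneg F) (Ren.len_mean F)
  have e : (fun r : ℕ => ∑' l : ℕ, len F (l + r + 1)) = Ren.tl (len F) :=
    funext fun r => (tl_eq41 (len_nonneg F) (len_sum F).summable r).symm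
  rw [e]
  exact h

theorem gau_cont41 (v : ℝ) : Continuous (gau v) := by
  unfold gau
  fun_prop

theorem sqrt_ratio41 {ν t : ℕ → ℕ} {τ : ℝ} (ht : Tendsto (fun k => (t k : ℝ) / ν k) atTop (nhds τ)) :
    Tendsto (fun k => Real.sqrt (t k) / Real.sqrt (ν k)) atTop (nhds (Real.sqrt τ)) := by
  have h := (Real.continuous_sqrt.tendsto τ).comp ht
  refine h.congr fun k => ?_
  rw [Function.comp_apply, Real.sqrt_div (Nat.cast_nonneg _)]

theorem t_top41 {ν t : ℕ → ℕ} {τ : ℝ} (hν : Tendsto ν atTop atTop)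
    (ht : Tendsto (fun k => (t k : ℝ) / ν k) atTop (nhds τ)) (hτ : 0 < τ) : Tendsto t atTop atTop := by
  have h1 : Tendsto (fun k => (ν k : ℝ)) atTop atTop := tendsto_natCast_atTop_atTop.comp hν
  have h2 : Tendsto (fun k => (t k : ℝ) / ν k * ν k) atTop atTop := ht.pos_mul_atTop hτ h1
  have h3 : Tendsto (fun k => (t k : ℝ)) atTop atTop := by
    refine h2.congr' ?_
    filter_upwards [hν.eventually_ge_atTop 1] with k hk
    have : (0 : ℝ) < ν k := by exact_mod_cast hk
    field_simp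
  exact tendsto_natCast_atTop_iff.1 h3

theorem g_llt (F : Law) {ν t : ℕ → ℕ} {x z : ℕ → ℤ} {τ u w : ℝ} (hν : Tendsto ν atTop atTop)
    (ht : Tendsto (fun k => (t k : ℝ) / ν k) atTop (nhds τ)) (hτ : 0 < τ)
    (hx : Tendsto (fun k => (x k : ℝ) / Real.sqrt (ν k)) atTop (nhds u)) (hu : 0 < u)
    (hz : Tendsto (fun k => (z k : ℝ) / Real.sqrt (ν k)) atTop (nhds w)) (hw : 0 < w) :
    Tendsto (fun k => Real.sqrt (ν k) * (G (Kp F) (t k) (x k) (z k)).toReal) atTop
      (nhds (Pool.Agent.Helper49.RD.hk (s2 F * τ) u w / mu F)) := by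
  have hmu : 0 < mu F := lt_of_lt_of_le one_pos (mu_pos F)
  have hs2 := s2_pos F
  have hst : 0 < Real.sqrt τ := Real.sqrt_pos.2 hτ
  have hr := sqrt_ratio41 ht
  have htt := t_top41 hν ht hτ
  have hx' : Tendsto (fun k => (x k : ℝ) / Real.sqrt (t k)) atTop (nhds (u / Real.sqrt τ)) := by
    refine (hx.div hr hst.ne').congr' ?_
    filter_upwards [hν.eventually_ge_atTop 1, htt.eventually_ge_atTop 1] with k hk hk'
    have h1 : 0 < Real.sqrt (ν k) := Real.sqrt_pos.2 (by exact_mod_cast hk)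
    have h2 : 0 < Real.sqrt (t k) := Real.sqrt_pos.2 (by exact_mod_cast hk')
    simp only [Pi.div_apply]
    field_simp
  have hz' : Tendsto (fun k => (z k : ℝ) / Real.sqrt (t k)) atTop (nhds (w / Real.sqrt τ)) := by
    refine (hz.div hr hst.ne').congr' ?_
    filter_upwards [hν.eventually_ge_atTop 1, htt.eventually_ge_atTop 1] with k hk hk'
    have h1 : 0 < Real.sqrt (ν k) := Real.sqrt_pos.2 (by exact_mod_cast hk)
    have h2 : 0 < Real.sqrt (t k) := Real.sqrt_pos.2 (by exact_mod_cast hk')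
    simp only [Pi.div_apply]
    field_simp
  have hu' : 0 < u / Real.sqrt τ := by positivity
  have hw' : 0 < w / Real.sqrt τ := by positivity
  -- the limit with the scale `t`
  have hlim : Tendsto (fun k => (gau (s2 F) (((z k : ℝ) - x k) / Real.sqrt (t k)) -
      gau (s2 F) (((z k : ℝ) + x k) / Real.sqrt (t k))) / mu F) atTop
      (nhds ((gau (s2 F) (w / Real.sqrt τ - u / Real.sqrt τ) -
        gau (s2 F) (w / Real.sqrt τ + u / Real.sqrt τ)) / mu F)) := by
    refine Tendsto.div_const (Tendsto.sub ?_ ?_) _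
    · refine ((gau_cont41 (s2 F)).tendsto _).comp ?_
      refine (hz'.sub hx').congr fun k => ?_
      rw [sub_div]
    · refine ((gau_cont41 (s2 F)).tendsto _).comp ?_
      refine (hz'.add hx').congr fun k => ?_
      rw [add_div]
  have hG : Tendsto (fun k => Real.sqrt (t k) * (G (Kp F) (t k) (x k) (z k)).toReal) atTop
      (nhds ((gau (s2 F) (w / Real.sqrt τ - u / Real.sqrt τ) -
        gau (s2 F) (w / Real.sqrt τ + u / Real.sqrt τ)) / mu F)) := by
    have hd : Tendsto (fun k => Real.sqrt (t k) * (G (Kp F) (t k) (x k) (z k)).toReal -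
        (gau (s2 F) (((z k : ℝ) - x k) / Real.sqrt (t k)) -
          gau (s2 F) (((z k : ℝ) + x k) / Real.sqrt (t k))) / mu F) atTop (nhds 0) := by
      rw [Metric.tendsto_atTop']
      intro δ hδ
      obtain ⟨ε, hε0, hε1, hεu, hεw⟩ : ∃ ε : ℝ, 0 < ε ∧ ε < δ ∧
          (ε < u / Real.sqrt τ ∧ u / Real.sqrt τ < 1 / ε) ∧ (ε < w / Real.sqrt τ ∧ w / Real.sqrt τ < 1 / ε) := by
        set a := u / Real.sqrt τ
        set b := w / Real.sqrt τ
        set c := min (min δ (min a b)) (min (1 / a) (1 / b)) with hc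
        have hc0 : 0 < c := by
          rw [hc]
          refine lt_min (lt_min hδ (lt_min hu' hw')) (lt_min (by positivity) (by positivity))
        have c1 : c ≤ δ := (min_le_left _ _).trans (min_le_left _ _)
        have c2 : c ≤ a := (min_le_left _ _).trans ((min_le_right _ _).trans (min_le_left _ _))
        have c3 : c ≤ b := (min_le_left _ _).trans ((min_le_right _ _).trans (min_le_right _ _))
        have c4 : c ≤ 1 / a := (min_le_right _ _).trans (min_le_left _ _)
        have c5 : c ≤ 1 / b := (min_le_right _ _).trans (min_le_right _ _)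
        refine ⟨c / 2, by linarith, by linarith, ⟨by linarith, ?_⟩, ⟨by linarith, ?_⟩⟩
        · rw [lt_div_iff₀ (by linarith)]
          rw [le_div_iff₀ hu'] at c4
          nlinarith
        · rw [lt_div_iff₀ (by linarith)]
          rw [le_div_iff₀ hw'] at c5
          nlinarith
      obtain ⟨n₀, hn₀⟩ := killed_llt F ε hε0
      have e := ((htt.eventually_ge_atTop (max n₀ 1)).and ((hx'.eventually_const_lt hεu.1).and
        ((hx'.eventually_lt_const hεu.2).and ((hz'.eventually_const_lt hεw.1).and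
          (hz'.eventually_lt_const hεw.2)))))
      obtain ⟨N, hN⟩ := eventually_atTop.1 e
      refine ⟨N, fun k hk => ?_⟩
      obtain ⟨h0, h1, h2, h3, h4⟩ := hN k hk.le
      have ht1 : 1 ≤ t k := (le_max_right _ _).trans h0
      have hs : 0 < Real.sqrt (t k) := Real.sqrt_pos.2 (by exact_mod_cast ht1)
      rw [lt_div_iff₀ hs] at h1 h3
      rw [div_lt_iff₀ hs, one_div_mul_eq_div] at h2 h4
      have := hn₀ (t k) ((le_max_left _ _).trans h0) (x k) (z k) h1.le h2.le h3.le h4.le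
      rw [Real.dist_eq, sub_zero]
      exact this.trans_lt hε1
    have := hd.add hlim
    rw [zero_add] at this
    refine this.congr fun k => ?_
    ring
  have hfin := hG.div hr hst.ne'
  have e1 : (gau (s2 F) (w / Real.sqrt τ - u / Real.sqrt τ) -
      gau (s2 F) (w / Real.sqrt τ + u / Real.sqrt τ)) / mu F / Real.sqrt τ =
      Pool.Agent.Helper49.RD.hk (s2 F * τ) u w / mu F := by
    unfold gau Pool.Agent.Helper49.RD.hk
    have h1 : Real.sqrt (2 * Real.pi * (s2 F * τ)) = Real.sqrt (2 * Real.pi * s2 F) * Real.sqrt τ := by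
      rw [← Real.sqrt_mul (by positivity)]
      congr 1
      ring
    have h2 : (w / Real.sqrt τ - u / Real.sqrt τ) ^ 2 / (2 * s2 F) = (u - w) ^ 2 / (2 * (s2 F * τ)) := by
      rw [← sub_div, div_pow, Real.sq_sqrt hτ.le]
      field_simp
      ring
    have h3 : (w / Real.sqrt τ + u / Real.sqrt τ) ^ 2 / (2 * s2 F) = (u + w) ^ 2 / (2 * (s2 F * τ)) := by
      rw [← add_div, div_pow, Real.sq_sqrt hτ.le]
      field_simp
      ring
    rw [h1, h2, h3]
    have h4 : 0 < Real.sqrt (2 * Real.pi * s2 F) := Real.sqrt_pos.2 (by positivity)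
    field_simp
  rw [e1] at hfin
  refine hfin.congr' ?_
  filter_upwards [hν.eventually_ge_atTop 1, htt.eventually_ge_atTop 1] with k hk hk'
  have h1 : 0 < Real.sqrt (ν k) := Real.sqrt_pos.2 (by exact_mod_cast hk)
  have h2 : 0 < Real.sqrt (t k) := Real.sqrt_pos.2 (by exact_mod_cast hk')
  simp only [Pi.div_apply]
  field_simp

/-- The double sum of `Fst`. -/
theorem fst_dbl41 (K : Ker) {t : ℕ} (ht : 1 ≤ t) (r : ℕ) (x z : ℤ) :
    Fst K t x (t + r) z = ∑' p : ℕ × ℤ, if p.1 < t then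
      G K (t - 1 - p.1) x (z - p.2) * K (z - p.2) (p.1 + 1 + r) z else 0 := by
  rw [fst_eq K ht (Nat.le_add_right t r), ENNReal.tsum_prod' , ← Finset.sum_range_reflect]
  rw [tsum_eq_sum (s := Finset.range t)]
  · refine Finset.sum_congr rfl fun i hi => ?_
    rw [Finset.mem_range] at hi
    simp only [if_pos hi]
    rw [← (Equiv.subLeft z).tsum_eq]
    refine tsum_congr fun h => ?_
    simp only [Equiv.subLeft_apply]
    congr 2
    omega
  · intro i hi
    rw [Finset.mem_range] at hi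
    simp only [if_neg hi, tsum_zero]

theorem g_kp_le41 (F : Law) (n : ℕ) (x y : ℤ) : (G (Kp F) n x y).toReal ≤ U F n (y - x) := by
  have h := g_mono (kp_le F) n x y
  rw [u_eq] at h
  have := ENNReal.toReal_mono ENNReal.ofReal_ne_top h
  rwa [ENNReal.toReal_ofReal (u_nonneg F n _)] at this

theorem g_kp_one41 (F : Law) (n : ℕ) (x y : ℤ) : G (Kp F) n x y ≤ 1 :=
  (ENNReal.le_tsum y).trans ((ENNReal.tsum_le_tsum fun y => g_mono (kp_le F) n x y).trans (g_sum_le F n x))

theorem kp_top41 (F : Law) (x : ℤ) (l : ℕ) (z : ℤ) : Kp F x l z ≠ ⊤ := by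
  unfold Kp
  split_ifs
  · exact ENNReal.ofReal_ne_top
  · exact ENNReal.zero_ne_top

theorem kp_real41 (F : Law) (x : ℤ) (l : ℕ) (z : ℤ) : (Kp F x l z).toReal ≤ F.f l (z - x) := by
  unfold Kp
  split_ifs
  · rw [ENNReal.toReal_ofReal (F.f_nonneg _ _)]
  · rw [ENNReal.toReal_zero]
    exact F.f_nonneg _ _

/-- Uniform domination of the terms. -/
theorem g_dom41 (F : Law) {τ : ℝ} (hτ : 0 < τ) : ∃ C : ℝ, 0 < C ∧ ∀ (n t i : ℕ) (x y : ℤ),
    τ * n ≤ t → i < t → Real.sqrt n * (G (Kp F) (t - 1 - i) x y).toReal ≤ C * ((i : ℝ) + 2) := by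
  obtain ⟨C, hC, hu⟩ := u_le F
  refine ⟨(C + 1) / Real.sqrt τ, by positivity, fun n t i x y hn hi => ?_⟩
  have hst : 0 < Real.sqrt τ := Real.sqrt_pos.2 hτ
  have hn' : Real.sqrt n ≤ Real.sqrt t / Real.sqrt τ := by
    rw [le_div_iff₀ hst, ← Real.sqrt_mul (Nat.cast_nonneg n), mul_comm]
    exact Real.sqrt_le_sqrt hn
  have hG0 : 0 ≤ (G (Kp F) (t - 1 - i) x y).toReal := ENNReal.toReal_nonneg
  have hi2 : (0 : ℝ) ≤ i := Nat.cast_nonneg i
  refine (mul_le_mul_of_nonneg_right hn' hG0).trans ?_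
  rw [div_mul_eq_mul_div, div_mul_eq_mul_div]
  refine div_le_div_of_nonneg_right ?_ hst.le
  rcases Nat.eq_zero_or_pos (t - 1 - i) with h0 | h0
  · have ht : t = i + 1 := by omega
    have h1 : (G (Kp F) (t - 1 - i) x y).toReal ≤ 1 := by
      have := ENNReal.toReal_mono ENNReal.one_ne_top (g_kp_one41 F (t - 1 - i) x y)
      rwa [ENNReal.toReal_one] at this
    have h2 : Real.sqrt t ≤ (i : ℝ) + 2 := by
      rw [ht]
      push_cast
      refine Real.sqrt_le_iff.2 ⟨by linarith, by nlinarith⟩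
    calc Real.sqrt t * (G (Kp F) (t - 1 - i) x y).toReal ≤ ((i : ℝ) + 2) * 1 :=
          mul_le_mul h2 h1 hG0 (by linarith)
      _ ≤ (C + 1) * ((i : ℝ) + 2) := by nlinarith
  · have hm : (0 : ℝ) < ((t - 1 - i : ℕ) : ℝ) := by exact_mod_cast h0
    have hsm : 0 < Real.sqrt ((t - 1 - i : ℕ) : ℝ) := Real.sqrt_pos.2 hm
    have h1 := (g_kp_le41 F (t - 1 - i) x y).trans (hu (t - 1 - i) (y - x) h0)
    have h2 : Real.sqrt t ≤ ((i : ℝ) + 2) * Real.sqrt ((t - 1 - i : ℕ) : ℝ) := by
      refine Real.sqrt_le_iff.2 ⟨by positivity, ?_⟩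
      rw [mul_pow, Real.sq_sqrt hm.le]
      have h3 : (t : ℝ) = ((t - 1 - i : ℕ) : ℝ) + 1 + i := by
        have : t = (t - 1 - i) + 1 + i := by omega
        exact_mod_cast this
      have h4 : (1 : ℝ) ≤ ((t - 1 - i : ℕ) : ℝ) := by exact_mod_cast h0
      rw [h3]
      have h5 : 0 ≤ (((i : ℝ) + 2) ^ 2 - 1) * (((t - 1 - i : ℕ) : ℝ) - 1) :=
        mul_nonneg (by nlinarith) (by linarith)
      nlinarith
    calc Real.sqrt t * (G (Kp F) (t - 1 - i) x y).toReal
        ≤ (((i : ℝ) + 2) * Real.sqrt ((t - 1 - i : ℕ) : ℝ)) * (C / Real.sqrt ((t - 1 - i : ℕ) : ℝ)) :=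
          mul_le_mul h2 h1 hG0 (by positivity)
      _ = C * ((i : ℝ) + 2) := by
          field_simp
      _ ≤ (C + 1) * ((i : ℝ) + 2) := by nlinarith

theorem f_hasSum_prod41 (F : Law) (r : ℕ) : Summable fun p : ℕ × ℤ => ((p.1 : ℝ) + 2) * F.f (p.1 + 1 + r) p.2 := by
  rw [summable_prod_of_nonneg]
  · refine ⟨fun i => (f_summable F (i + 1 + r)).mul_left ((i : ℝ) + 2), ?_⟩
    have h1 : Summable fun l : ℕ => ((l + (1 + r) : ℕ) : ℝ) * len F (l + (1 + r)) :=
      (summable_nat_add_iff (1 + r)).2 (Ren.len_mean F)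
    refine Summable.of_nonneg_of_le (fun i => tsum_nonneg fun h => mul_nonneg (by positivity) (F.f_nonneg _ _))
      (fun i => ?_) (h1.mul_left 2)
    simp only
    rw [tsum_mul_left, show i + 1 + r = i + (1 + r) by omega]
    change ((i : ℝ) + 2) * len F (i + (1 + r)) ≤ _
    rw [← mul_assoc]
    refine mul_le_mul_of_nonneg_right ?_ (len_nonneg F _)
    push_cast
    have h2 : (0 : ℝ) ≤ r := Nat.cast_nonneg r
    have h3 : (0 : ℝ) ≤ i := Nat.cast_nonneg i
    linarith
  · intro p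
    exact mul_nonneg (by positivity) (F.f_nonneg _ _)

theorem fst_llt (F : Law) {ν t : ℕ → ℕ} {x z : ℕ → ℤ} {τ u w : ℝ} (hν : Tendsto ν atTop atTop)
    (ht : Tendsto (fun k => (t k : ℝ) / ν k) atTop (nhds τ)) (hτ : 0 < τ)
    (hx : Tendsto (fun k => (x k : ℝ) / Real.sqrt (ν k)) atTop (nhds u)) (hu : 0 < u)
    (hz : Tendsto (fun k => (z k : ℝ) / Real.sqrt (ν k)) atTop (nhds w)) (hw : 0 < w) (r : ℕ) :
    Tendsto (fun k => Real.sqrt (ν k) * (Fst (Kp F) (t k) (x k) (t k + r) (z k)).toReal) atTop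
      (nhds (Pool.Agent.Helper49.RD.hk (s2 F * τ) u w / mu F * ∑' l : ℕ, len F (l + r + 1))) := by
  have htt := t_top41 hν ht hτ
  have hνt : Tendsto (fun k => Real.sqrt (ν k)) atTop atTop :=
    Real.tendsto_sqrt_atTop.comp (tendsto_natCast_atTop_atTop.comp hν)
  have hinv : Tendsto (fun k => ((ν k : ℝ))⁻¹) atTop (nhds 0) :=
    tendsto_inv_atTop_zero.comp (tendsto_natCast_atTop_atTop.comp hν)
  have hinv' : Tendsto (fun k => (Real.sqrt (ν k))⁻¹) atTop (nhds 0) := tendsto_inv_atTop_zero.comp hνt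
  have hz1 : ∀ h : ℤ, Tendsto (fun k => ((z k - h : ℤ) : ℝ) / Real.sqrt (ν k)) atTop (nhds w) := by
    intro h
    have := hz.sub (hinv'.const_mul (h : ℝ))
    rw [mul_zero, sub_zero] at this
    refine this.congr fun k => ?_
    push_cast
    rw [sub_div, div_eq_mul_inv (h : ℝ)]
  have hzp : ∀ h : ℤ, ∀ᶠ k in atTop, 1 ≤ z k - h := by
    intro h
    filter_upwards [(hz1 h).eventually_const_lt hw, hν.eventually_ge_atTop 1] with k hk hk'
    have h1 : 0 < Real.sqrt (ν k) := Real.sqrt_pos.2 (by exact_mod_cast hk')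
    have h2 : (0 : ℝ) < ((z k - h : ℤ) : ℝ) := by
      rwa [lt_div_iff₀ h1, zero_mul] at hk
    have : 0 < z k - h := by exact_mod_cast h2
    omega
  -- the terms
  have hterm : ∀ p : ℕ × ℤ, Tendsto (fun k => Real.sqrt (ν k) * (if p.1 < t k then
      G (Kp F) (t k - 1 - p.1) (x k) (z k - p.2) * Kp F (z k - p.2) (p.1 + 1 + r) (z k) else 0).toReal) atTop
      (nhds (Pool.Agent.Helper49.RD.hk (s2 F * τ) u w / mu F * F.f (p.1 + 1 + r) p.2)) := by
    intro p
    have h1 : Tendsto (fun k => ((t k - 1 - p.1 : ℕ) : ℝ) / ν k) atTop (nhds τ) := by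
      have := ht.sub (hinv.const_mul ((1 : ℝ) + p.1))
      rw [mul_zero, sub_zero] at this
      refine this.congr' ?_
      filter_upwards [htt.eventually_gt_atTop p.1] with k hk
      rw [Nat.cast_sub (by omega), Nat.cast_sub (by omega)]
      push_cast
      rw [sub_sub, sub_div, div_eq_mul_inv ((1 : ℝ) + p.1)]
    have h2 := (g_llt F hν h1 hτ hx hu (hz1 p.2) hw).mul_const (F.f (p.1 + 1 + r) p.2)
    refine h2.congr' ?_
    filter_upwards [htt.eventually_gt_atTop p.1, hzp p.2, hzp 0] with k hk hk1 hk2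
    rw [if_pos hk, ENNReal.toReal_mul, ← mul_assoc]
    congr 1
    unfold Kp
    rw [if_pos ⟨hk1, by omega⟩, ENNReal.toReal_ofReal (F.f_nonneg _ _)]
    congr 1
    omega
  obtain ⟨C, hC, hdom⟩ := g_dom41 F (show 0 < τ / 2 by positivity)
  have hsum := (f_hasSum_prod41 F r).mul_left C
  have hmain := tendsto_tsum_of_dominated_convergence (𝓕 := atTop) (f := fun k (p : ℕ × ℤ) =>
    Real.sqrt (ν k) * (if p.1 < t k then
      G (Kp F) (t k - 1 - p.1) (x k) (z k - p.2) * Kp F (z k - p.2) (p.1 + 1 + r) (z k) else 0).toReal)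
    hsum hterm (by
      filter_upwards [ht.eventually_const_lt (show τ / 2 < τ by linarith), hν.eventually_ge_atTop 1] with k hk hk' p
      have hνp : (0 : ℝ) < ν k := by exact_mod_cast hk'
      rw [lt_div_iff₀ hνp] at hk
      rw [Real.norm_eq_abs, abs_of_nonneg (mul_nonneg (Real.sqrt_nonneg _) ENNReal.toReal_nonneg)]
      have hf := F.f_nonneg (p.1 + 1 + r) p.2
      split_ifs with hp
      · rw [ENNReal.toReal_mul, ← mul_assoc, ← mul_assoc]
        refine mul_le_mul (hdom (ν k) (t k) p.1 _ _ hk.le hp) ?_ ENNReal.toReal_nonneg (by positivity)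
        refine (kp_real41 F _ _ _).trans (le_of_eq ?_)
        congr 1
        omega
      · rw [ENNReal.toReal_zero, mul_zero]
        positivity)
  have hlimval : ∑' p : ℕ × ℤ, Pool.Agent.Helper49.RD.hk (s2 F * τ) u w / mu F * F.f (p.1 + 1 + r) p.2 =
      Pool.Agent.Helper49.RD.hk (s2 F * τ) u w / mu F * ∑' l : ℕ, len F (l + r + 1) := by
    rw [tsum_mul_left]
    congr 1
    have hs : Summable fun p : ℕ × ℤ => F.f (p.1 + 1 + r) p.2 := by
      refine Summable.of_nonneg_of_le (fun p => F.f_nonneg _ _) (fun p => ?_) (f_hasSum_prod41 F r)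
      have h1 : (0 : ℝ) ≤ p.1 := Nat.cast_nonneg p.1
      have h2 := F.f_nonneg (p.1 + 1 + r) p.2
      nlinarith
    rw [hs.tsum_prod]
    refine tsum_congr fun l => ?_
    change ∑' c : ℤ, F.f (l + 1 + r) c = _
    rw [show l + 1 + r = l + r + 1 by omega]
    rfl
  rw [hlimval] at hmain
  refine hmain.congr' ?_
  filter_upwards [htt.eventually_ge_atTop 1] with k hk
  rw [tsum_mul_left]
  congr 1
  rw [fst_dbl41 (Kp F) hk r (x k) (z k), ENNReal.tsum_toReal_eq]
  intro p
  split_ifs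
  · exact ENNReal.mul_ne_top (ne_top_of_le_ne_top ENNReal.one_ne_top (g_kp_one41 F _ _ _)) (kp_top41 F _ _ _)
  · exact ENNReal.zero_ne_top

end Pool.Agent.Helper18.WK
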