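import Pool.Agent.Helper18.WK.Gau

/-!
# Project WK, block WK-M3: domination of the first cuts

`Fst (Kp F) t x (t + r) z = ∑_(j < t) ∑_z' G (Kp F) j x z' * Kp F z' (t + r - j) z` (`fst_eq`), `G (Kp F) ≤ U`,
`U F j h ≤ C / √(j + 1) exp (-c |h| / √n)` for `j ≤ n / τ` (`u_gauss`), `f l h ≤ B exp (-a (l + |h|))`.
-/

open scoped ENNReal
open Filter MeasureTheory

namespace Pool.Agent.Helper18.WK

private theorem sum_int57 {c : ℝ} (hc : 0 < c) : Summable fun h : ℤ => Real.exp (-c * |(h : ℝ)|) := by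
  have h0 : Summable fun n : ℕ => Real.exp (-c * (n : ℝ)) := by
    have := Real.summable_pow_mul_exp_neg_nat_mul 0 hc
    simpa using this
  rw [summable_int_iff_summable_nat_and_neg]
  constructor
  · refine h0.congr fun n => ?_
    simp
  · refine h0.congr fun n => ?_
    simp

private theorem sum_lin57 {c : ℝ} (hc : 0 < c) : Summable fun r : ℕ => (1 + (r : ℝ)) * Real.exp (-c * r) := by
  have h0 := Real.summable_pow_mul_exp_neg_nat_mul 0 hc
  have h1 := Real.summable_pow_mul_exp_neg_nat_mul 1 hc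
  refine (h0.add h1).congr fun r => ?_
  simp only [pow_zero, pow_one]
  ring

/-- the Gaussian tail at the scale `√n` -/
private theorem quad57 {τ : ℝ} (hτ : 0 < τ) (hτ1 : τ ≤ 1) {n j g : ℝ} (hn : 1 ≤ n)
    (hjn : j ≤ n / τ) (hg : 0 ≤ g) (hjg : 0 < j + g) :
    τ / 2 * (g / Real.sqrt n) - 1 ≤ g ^ 2 / (j + g) := by
  have hn0 : 0 < n := by linarith
  have hs1 : 1 ≤ Real.sqrt n := by
    rw [show (1 : ℝ) = Real.sqrt 1 by simp]
    exact Real.sqrt_le_sqrt hn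
  have hs0 : 0 < Real.sqrt n := by linarith
  have hss : Real.sqrt n * Real.sqrt n = n := Real.mul_self_sqrt hn0.le
  obtain ⟨s, hs⟩ : ∃ s : ℝ, s = g / Real.sqrt n := ⟨_, rfl⟩
  rw [← hs]
  have hsg : g = s * Real.sqrt n := by rw [hs]; field_simp
  have hs_nn : 0 ≤ s := by rw [hs]; positivity
  have hnt : 0 < n / τ := by positivity
  rcases le_or_gt g (n / τ) with h | h
  · have h1 : g ^ 2 / (2 * (n / τ)) ≤ g ^ 2 / (j + g) :=
      div_le_div_of_nonneg_left (by positivity) hjg (by linarith)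
    have h2 : g ^ 2 / (2 * (n / τ)) = τ / 2 * s ^ 2 := by
      rw [hsg, mul_pow, sq (Real.sqrt n), hss]
      field_simp
    rw [h2] at h1
    nlinarith [sq_nonneg (s - 1), mul_nonneg hτ.le hs_nn]
  · have hg0 : 0 < g := hnt.trans h
    have h1 : g ^ 2 / (2 * g) ≤ g ^ 2 / (j + g) :=
      div_le_div_of_nonneg_left (by positivity) hjg (by linarith)
    have h2 : g ^ 2 / (2 * g) = g / 2 := by field_simp
    have h3 : s ≤ g := by
      rw [hs]
      exact div_le_self hg hs1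
    rw [h2] at h1
    nlinarith

private theorem u_dom57 (F : Law) {τ : ℝ} (hτ : 0 < τ) (hτ1 : τ ≤ 1) : ∃ C c : ℝ, 0 < C ∧ 0 < c ∧
    c ≤ F.a / 2 ∧ ∀ (n j : ℕ) (h : ℤ), 1 ≤ n → (j : ℝ) ≤ n / τ →
      U F j h ≤ C / Real.sqrt (j + 1) * Real.exp (-c * (|(h : ℝ)| / Real.sqrt n)) := by
  obtain ⟨C₁, c₁, hC₁, hc₁, hU⟩ := u_gauss F
  have ha := F.a_pos
  obtain ⟨c, hc⟩ : ∃ c : ℝ, c = min (c₁ * (τ / 2)) (F.a / 2) := ⟨_, rfl⟩
  have hc0 : 0 < c := by rw [hc]; exact lt_min (by positivity) (by positivity)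
  have hc1 : c ≤ c₁ * (τ / 2) := by rw [hc]; exact min_le_left _ _
  refine ⟨C₁ * Real.exp c₁ * 2 + 1, c, by positivity, hc0, by rw [hc]; exact min_le_right _ _,
    fun n j h hn hj => ?_⟩
  have hn1 : (1 : ℝ) ≤ n := by exact_mod_cast hn
  have hsn : 0 < Real.sqrt n := Real.sqrt_pos.2 (by linarith)
  rcases Nat.eq_zero_or_pos j with rfl | hj1
  · have e1 : U F 0 h = if (0 : ℤ) = h then 1 else 0 := by
      unfold U
      rw [G_zero]
      split_ifs <;> simp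
    rw [e1]
    split_ifs with h0
    · rw [← h0]
      simp
      positivity
    · positivity
  · have hj1' : (1 : ℝ) ≤ j := by exact_mod_cast hj1
    have h1 := hU j h hj1
    have h2 := quad57 hτ hτ1 hn1 hj (abs_nonneg (h : ℝ)) (by positivity)
    have h3 : -c₁ * (h : ℝ) ^ 2 / (j + |(h : ℝ)|) ≤ c₁ + -c * (|(h : ℝ)| / Real.sqrt n) := by
      rw [← sq_abs (h : ℝ)]
      have h4 : 0 ≤ |(h : ℝ)| / Real.sqrt n := by positivity
      have h5 := mul_le_mul_of_nonneg_left h2 hc₁.le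
      have h6 := mul_le_mul_of_nonneg_right hc1 h4
      have e : -c₁ * |(h : ℝ)| ^ 2 / (j + |(h : ℝ)|) = -(c₁ * (|(h : ℝ)| ^ 2 / (j + |(h : ℝ)|))) := by ring
      rw [e]
      nlinarith
    have hsj : 0 < Real.sqrt j := Real.sqrt_pos.2 (by linarith)
    have hsj1 : 0 < Real.sqrt (j + 1) := Real.sqrt_pos.2 (by linarith)
    have h7 : Real.sqrt (j + 1) ≤ 2 * Real.sqrt j := by
      rw [Real.sqrt_le_left (by positivity), mul_pow, Real.sq_sqrt (by positivity)]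
      linarith
    have h8 : C₁ / Real.sqrt j ≤ C₁ * 2 / Real.sqrt (j + 1) := by
      rw [div_le_div_iff₀ hsj hsj1]
      nlinarith
    calc U F j h ≤ C₁ / Real.sqrt j * Real.exp (-c₁ * (h : ℝ) ^ 2 / (j + |(h : ℝ)|)) := h1
      _ ≤ (C₁ * 2 / Real.sqrt (j + 1)) * (Real.exp c₁ * Real.exp (-c * (|(h : ℝ)| / Real.sqrt n))) := by
          rw [← Real.exp_add]
          exact mul_le_mul h8 (Real.exp_le_exp.2 h3) (Real.exp_pos _).le (by positivity)
      _ = (C₁ * Real.exp c₁ * 2) / Real.sqrt (j + 1) * Real.exp (-c * (|(h : ℝ)| / Real.sqrt n)) := by ring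
      _ ≤ _ := by
          refine mul_le_mul_of_nonneg_right ?_ (Real.exp_pos _).le
          exact div_le_div_of_nonneg_right (by linarith) hsj1.le

theorem fst_dom (F : Law) {τ : ℝ} (hτ : 0 < τ) : ∃ C c : ℝ, 0 < C ∧ 0 < c ∧ ∀ (n t r : ℕ) (x z : ℤ), 1 ≤ n →
    τ * n ≤ t → (t : ℝ) ≤ n / τ → Real.sqrt n * (Fst (Kp F) t x (t + r) z).toReal ≤
      C * Real.exp (-c * r) * Real.exp (-c * |(z : ℝ) - x| / Real.sqrt n) := by
  obtain ⟨θ, hθ⟩ : ∃ θ : ℝ, θ = min τ 1 := ⟨_, rfl⟩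
  have hθ0 : 0 < θ := by rw [hθ]; exact lt_min hτ one_pos
  have hθ1 : θ ≤ 1 := by rw [hθ]; exact min_le_right _ _
  have hθτ : θ ≤ τ := by rw [hθ]; exact min_le_left _ _
  obtain ⟨C, c, hC, hc, hca, hU⟩ := u_dom57 F hθ0 hθ1
  have ha := F.a_pos
  have hB := F.B_pos
  have ha2 : 0 < F.a / 2 := by positivity
  have hsI := sum_int57 ha2
  have hsN := sum_lin57 ha
  obtain ⟨S, hS⟩ : ∃ S : ℝ, S = ∑' h : ℤ, Real.exp (-(F.a / 2) * |(h : ℝ)|) := ⟨_, rfl⟩
  obtain ⟨W, hW⟩ : ∃ W : ℝ, W = ∑' r : ℕ, (1 + (r : ℝ)) * Real.exp (-F.a * r) := ⟨_, rfl⟩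
  have hS0 : 0 < S := by
    rw [hS]
    exact hsI.tsum_pos (fun _ => (Real.exp_pos _).le) 0 (Real.exp_pos _)
  have hW0 : 0 < W := by
    rw [hW]
    exact hsN.tsum_pos (fun _ => by positivity) 0 (by positivity)
  refine ⟨C * F.B * S * W / θ, c, by positivity, hc, fun n t r x z hn h1 h2 => ?_⟩
  have hn1 : (1 : ℝ) ≤ n := by exact_mod_cast hn
  have hs1 : 1 ≤ Real.sqrt n := by
    rw [show (1 : ℝ) = Real.sqrt 1 by simp]
    exact Real.sqrt_le_sqrt hn1
  have hs0 : 0 < Real.sqrt n := by linarith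
  have ht0 : (0 : ℝ) < t := lt_of_lt_of_le (by positivity) h1
  have ht1 : 1 ≤ t := by exact_mod_cast ht0
  have h1' : θ * n ≤ t := (mul_le_mul_of_nonneg_right hθτ (by positivity)).trans h1
  have h2' : (t : ℝ) ≤ n / θ := h2.trans (div_le_div_of_nonneg_left (by positivity) hθ0 hθτ)
  obtain ⟨E, hE⟩ : ∃ E : ℝ, E = Real.exp (-c * |(z : ℝ) - x| / Real.sqrt n) := ⟨_, rfl⟩
  have hE0 : 0 < E := by rw [hE]; exact Real.exp_pos _
  rw [← hE]
  obtain ⟨A, hA⟩ : ∃ A : ℕ → ℝ, A = fun j : ℕ => C / Real.sqrt ((j : ℝ) + 1) * (F.B * Real.exp (-F.a * ((t + r - j : ℕ) : ℝ))) * E :=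
    ⟨_, rfl⟩
  have hA0 : ∀ j, 0 ≤ A j := fun j => by rw [hA]; positivity
  have key : Fst (Kp F) t x (t + r) z ≤ ENNReal.ofReal (∑ j ∈ Finset.range t, A j * S) := by
    rw [fst_eq (Kp F) ht1 (by omega), ENNReal.ofReal_sum_of_nonneg fun j _ => mul_nonneg (hA0 j) hS0.le]
    refine Finset.sum_le_sum fun j hj => ?_
    have hjt := Finset.mem_range.1 hj
    have hjn : (j : ℝ) ≤ n / θ := by
      have : (j : ℝ) ≤ t := by exact_mod_cast hjt.le
      linarith
    have e1 : ENNReal.ofReal (A j * S) = ∑' z' : ℤ, ENNReal.ofReal (A j * Real.exp (-(F.a / 2) * |((z - z' : ℤ) : ℝ)|)) := by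
      have hs' : Summable fun z' : ℤ => Real.exp (-(F.a / 2) * |((z - z' : ℤ) : ℝ)|) :=
        (Equiv.subLeft z).summable_iff.2 hsI
      have et : ∑' z' : ℤ, Real.exp (-(F.a / 2) * |((z - z' : ℤ) : ℝ)|) = S := by
        rw [hS]
        exact (Equiv.subLeft z).tsum_eq (fun h : ℤ => Real.exp (-(F.a / 2) * |(h : ℝ)|))
      rw [← ENNReal.ofReal_tsum_of_nonneg (fun z' => mul_nonneg (hA0 j) (Real.exp_pos _).le) (hs'.mul_left _),
        tsum_mul_left, et]
    rw [e1]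
    refine ENNReal.tsum_le_tsum fun z' => ?_
    have b1 : G (Kp F) j x z' ≤ ENNReal.ofReal (U F j (z' - x)) :=
      (g_mono (kp_le F) j x z').trans (u_eq F j x z').le
    have b2 : Kp F z' (t + r - j) z ≤ ENNReal.ofReal (F.f (t + r - j) (z - z')) :=
      kp_le F z' (t + r - j) z
    refine (mul_le_mul' b1 b2).trans ?_
    rw [← ENNReal.ofReal_mul (u_nonneg F _ _)]
    refine ENNReal.ofReal_le_ofReal ?_
    have b3 := hU n j (z' - x) hn hjn
    have b4 := F.f_tail (t + r - j) (z - z')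
    refine (mul_le_mul b3 b4 (F.f_nonneg _ _) (by positivity)).trans ?_
    have b5 : Real.exp (-c * (|((z' - x : ℤ) : ℝ)| / Real.sqrt n)) *
        Real.exp (-F.a * |((z - z' : ℤ) : ℝ)|) ≤ E * Real.exp (-(F.a / 2) * |((z - z' : ℤ) : ℝ)|) := by
      rw [hE, ← Real.exp_add, ← Real.exp_add, Real.exp_le_exp]
      have b6 : |(z : ℝ) - x| ≤ |((z' - x : ℤ) : ℝ)| + |((z - z' : ℤ) : ℝ)| := by
        have := abs_add_le ((z' - x : ℤ) : ℝ) ((z - z' : ℤ) : ℝ)
        have e : ((z' - x : ℤ) : ℝ) + ((z - z' : ℤ) : ℝ) = (z : ℝ) - x := by push_cast; ring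
        rwa [e] at this
      have b7 : |(z : ℝ) - x| / Real.sqrt n ≤ |((z' - x : ℤ) : ℝ)| / Real.sqrt n + |((z - z' : ℤ) : ℝ)| := by
        have := div_le_div_of_nonneg_right b6 hs0.le
        rw [add_div] at this
        have h' : |((z - z' : ℤ) : ℝ)| / Real.sqrt n ≤ |((z - z' : ℤ) : ℝ)| := div_le_self (abs_nonneg _) hs1
        linarith
      have b8 := mul_le_mul_of_nonneg_left b7 hc.le
      have b9 := mul_le_mul_of_nonneg_right hca (abs_nonneg ((z - z' : ℤ) : ℝ))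
      have e : -c * |(z : ℝ) - x| / Real.sqrt n = -(c * (|(z : ℝ) - x| / Real.sqrt n)) := by ring
      rw [e]
      nlinarith
    have e2 : -F.a * (((t + r - j : ℕ) : ℝ) + |((z - z' : ℤ) : ℝ)|) =
        -F.a * ((t + r - j : ℕ) : ℝ) + -F.a * |((z - z' : ℤ) : ℝ)| := by ring
    rw [e2, Real.exp_add, hA]
    beta_reduce
    have b10 : 0 ≤ C / Real.sqrt (j + 1) * (F.B * Real.exp (-F.a * ((t + r - j : ℕ) : ℝ))) := by positivity
    have b11 := mul_le_mul_of_nonneg_left b5 b10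
    calc _ = C / Real.sqrt (j + 1) * (F.B * Real.exp (-F.a * ((t + r - j : ℕ) : ℝ))) *
          (Real.exp (-c * (|((z' - x : ℤ) : ℝ)| / Real.sqrt n)) * Real.exp (-F.a * |((z - z' : ℤ) : ℝ)|)) := by ring
      _ ≤ _ := b11
      _ = _ := by ring
  have h3 : (Fst (Kp F) t x (t + r) z).toReal ≤ ∑ j ∈ Finset.range t, A j * S :=
    ENNReal.toReal_le_of_le_ofReal (Finset.sum_nonneg fun j _ => mul_nonneg (hA0 j) hS0.le) key
  have h4 : ∀ j ∈ Finset.range t, Real.sqrt n * (A j * S) ≤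
      C * F.B * S / θ * Real.exp (-c * r) * E * ((1 + ((t - 1 - j + 1 : ℕ) : ℝ)) * Real.exp (-F.a * ((t - 1 - j + 1 : ℕ) : ℝ))) := by
    intro j hj
    have hjt := Finset.mem_range.1 hj
    obtain ⟨i, hi⟩ : ∃ i : ℕ, i = t - 1 - j + 1 := ⟨_, rfl⟩
    rw [← hi]
    have hti : t = j + i := by omega
    have e1 : t + r - j = i + r := by omega
    have hsj1 : 0 < Real.sqrt ((j : ℝ) + 1) := Real.sqrt_pos.2 (by positivity)
    have h5 : Real.sqrt n / Real.sqrt ((j : ℝ) + 1) ≤ (1 + (i : ℝ)) / θ := by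
      rw [← Real.sqrt_div (by positivity), Real.sqrt_le_left (by positivity), div_pow,
        div_le_div_iff₀ (by positivity) (by positivity)]
      have h6 : θ * n ≤ (j : ℝ) + i := by
        have : (t : ℝ) = j + i := by rw [hti]; push_cast; ring
        linarith
      have hi0 : (0 : ℝ) ≤ i := Nat.cast_nonneg i
      have hj0 : (0 : ℝ) ≤ j := Nat.cast_nonneg j
      have h7 : θ ^ 2 * n ≤ θ * n := by
        rw [sq]
        have : θ * (θ * n) ≤ 1 * (θ * n) := mul_le_mul_of_nonneg_right hθ1 (by positivity)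
        nlinarith
      nlinarith [mul_nonneg hi0 hj0, mul_nonneg hi0 (mul_nonneg hi0 hj0), sq_nonneg (i : ℝ)]
    have h8 : Real.exp (-F.a * ((i + r : ℕ) : ℝ)) ≤ Real.exp (-c * r) * Real.exp (-F.a * (i : ℝ)) := by
      rw [← Real.exp_add, Real.exp_le_exp]
      push_cast
      have hr0 : (0 : ℝ) ≤ r := Nat.cast_nonneg r
      nlinarith
    rw [hA]
    beta_reduce
    rw [e1]
    calc _ = (C * F.B * S * E) * ((Real.sqrt n / Real.sqrt ((j : ℝ) + 1)) * Real.exp (-F.a * ((i + r : ℕ) : ℝ))) := by ring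
      _ ≤ (C * F.B * S * E) * (((1 + (i : ℝ)) / θ) * (Real.exp (-c * r) * Real.exp (-F.a * (i : ℝ)))) := by
          refine mul_le_mul_of_nonneg_left ?_ (by positivity)
          exact mul_le_mul h5 h8 (Real.exp_pos _).le (by positivity)
      _ = _ := by ring
  calc Real.sqrt n * (Fst (Kp F) t x (t + r) z).toReal ≤ Real.sqrt n * ∑ j ∈ Finset.range t, A j * S :=
        mul_le_mul_of_nonneg_left h3 hs0.le
    _ = ∑ j ∈ Finset.range t, Real.sqrt n * (A j * S) := by rw [Finset.mul_sum]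
    _ ≤ ∑ j ∈ Finset.range t, C * F.B * S / θ * Real.exp (-c * r) * E *
          ((1 + ((t - 1 - j + 1 : ℕ) : ℝ)) * Real.exp (-F.a * ((t - 1 - j + 1 : ℕ) : ℝ))) := Finset.sum_le_sum h4
    _ = C * F.B * S / θ * Real.exp (-c * r) * E *
          ∑ j ∈ Finset.range t, ((1 + ((j + 1 : ℕ) : ℝ)) * Real.exp (-F.a * ((j + 1 : ℕ) : ℝ))) := by
        rw [← Finset.mul_sum, Finset.sum_range_reflect
          (fun j : ℕ => (1 + ((j + 1 : ℕ) : ℝ)) * Real.exp (-F.a * ((j + 1 : ℕ) : ℝ))) t]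
    _ ≤ C * F.B * S / θ * Real.exp (-c * r) * E * W := by
        refine mul_le_mul_of_nonneg_left ?_ (by positivity)
        have e : ∑ j ∈ Finset.range t, ((1 + ((j + 1 : ℕ) : ℝ)) * Real.exp (-F.a * ((j + 1 : ℕ) : ℝ))) ≤
            ∑ j ∈ Finset.range (t + 1), ((1 + (j : ℝ)) * Real.exp (-F.a * (j : ℝ))) := by
          rw [Finset.sum_range_succ' _ t]
          have : 0 ≤ (1 + ((0 : ℕ) : ℝ)) * Real.exp (-F.a * ((0 : ℕ) : ℝ)) := by positivity
          linarith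
        refine e.trans ?_
        rw [hW]
        exact hsN.sum_le_tsum _ fun r _ => by positivity
    _ = _ := by ring

end Pool.Agent.Helper18.WK
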