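import Mathlib

/-!
# Project WK, block WK-M1: Riemann sums by dominated convergence

`(∑' z, f k z) / √(ν k) = ∫_(w > 0) f k ⌊w √(ν k)⌋ dw`, dominated convergence (`w ≠ b`, bound
`C exp c exp (-c w)`; `⌊w √ν⌋ / √ν ≥ w - 1`).
-/

open scoped ENNReal Classical
open Set Filter MeasureTheory

namespace Pool.Agent.Helper18.WK

private lemma integral_floor {φ : ℤ → ℝ} (hφ : Summable φ) :
    ∫ v : ℝ, φ ⌊v⌋ = ∑' z : ℤ, φ z := by
  have hm : ∀ z : ℤ, MeasurableSet (Ico (z : ℝ) (z + 1)) := fun z => measurableSet_Ico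
  have hfl : ∀ (ψ : ℤ → ℝ) (z : ℤ), EqOn (fun v : ℝ => ψ ⌊v⌋) (fun _ => ψ z) (Ico (z : ℝ) (z + 1)) := by
    intro ψ z v hv
    have : ⌊v⌋ = z := Int.floor_eq_on_Ico z v hv
    simp only [this]
  have hvol : ∀ z : ℤ, volume (Ico (z : ℝ) (z + 1)) = 1 := fun z => by
    rw [Real.volume_Ico]
    simp
  have hint : ∀ (ψ : ℤ → ℝ) (z : ℤ), ∫ v in Ico (z : ℝ) (z + 1), ψ ⌊v⌋ = ψ z := by
    intro ψ z
    rw [setIntegral_congr_fun (hm z) (hfl ψ z), setIntegral_const, measureReal_def, hvol]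
    simp
  have hio : ∀ z : ℤ, IntegrableOn (fun v : ℝ => φ ⌊v⌋) (Ico (z : ℝ) (z + 1)) := by
    intro z
    rw [integrableOn_congr_fun (hfl φ z) (hm z)]
    exact integrableOn_const (by rw [hvol]; exact ENNReal.one_ne_top)
  have hU : IntegrableOn (fun v : ℝ => φ ⌊v⌋) (⋃ z : ℤ, Ico (z : ℝ) (z + 1)) := by
    refine integrableOn_iUnion_of_summable_integral_norm hio ?_
    have : (fun z : ℤ => ∫ v in Ico (z : ℝ) (z + 1), ‖φ ⌊v⌋‖) = fun z => ‖φ z‖ := by
      funext z
      exact hint (fun z => ‖φ z‖) z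
    rw [this]
    exact hφ.norm
  have h := hasSum_integral_iUnion hm (pairwise_disjoint_Ico_intCast ℝ) hU
  rw [iUnion_Ico_intCast, setIntegral_univ] at h
  simp_rw [hint] at h
  exact h.tsum_eq.symm

private lemma integral_floor_mul {φ : ℤ → ℝ} (h0 : ∀ z, z ≤ 0 → φ z = 0) (hφ : Summable φ) {s : ℝ}
    (hs : 0 < s) : ∫ w in Ioi (0 : ℝ), φ ⌊w * s⌋ = (∑' z : ℤ, φ z) / s := by
  rw [integral_comp_mul_right_Ioi (fun v : ℝ => φ ⌊v⌋) 0 hs, zero_mul,
    setIntegral_eq_integral_of_forall_compl_eq_zero, integral_floor hφ, smul_eq_mul, mul_comm,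
    div_eq_mul_inv]
  intro v hv
  apply h0
  have hv' : v ≤ 0 := not_lt.1 hv
  have : (⌊v⌋ : ℝ) ≤ 0 := (Int.floor_le v).trans hv'
  exact_mod_cast this

private lemma summable_exp_abs {a : ℝ} (ha : 0 < a) : Summable fun z : ℤ => Real.exp (-a * |(z : ℝ)|) := by
  have h : Summable fun n : ℕ => Real.exp (n * (-a)) := Real.summable_exp_nat_mul_iff.2 (by linarith)
  refine Summable.of_nat_of_neg ?_ ?_
  · refine h.congr fun n => ?_
    congr 1
    simp [mul_comm]
  · refine h.congr fun n => ?_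
    congr 1
    simp [mul_comm]

theorem riemann_dom {f : ℕ → ℤ → ℝ} {g : ℝ → ℝ} {ν : ℕ → ℕ} (hν : Tendsto ν atTop atTop) {C c b : ℝ} (hc : 0 < c)
    (hf0 : ∀ k z, z ≤ 0 → f k z = 0)
    (hb : ∀ᶠ k in atTop, ∀ z : ℤ, |f k z| ≤ C * Real.exp (-c * |(z : ℝ)| / Real.sqrt (ν k)))
    (hlim : ∀ w : ℝ, 0 < w → w ≠ b → ∀ z : ℕ → ℤ,
      Tendsto (fun k => (z k : ℝ) / Real.sqrt (ν k)) atTop (nhds w) → Tendsto (fun k => f k (z k)) atTop (nhds (g w))) :
    Tendsto (fun k => (∑' z : ℤ, f k z) / Real.sqrt (ν k)) atTop (nhds (∫ w in Ioi (0 : ℝ), g w)) := by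
  have hs : Tendsto (fun k => Real.sqrt (ν k)) atTop atTop :=
    Real.tendsto_sqrt_atTop.comp (tendsto_natCast_atTop_atTop.comp hν)
  have hs1 : ∀ᶠ k in atTop, 1 ≤ Real.sqrt (ν k) := hs.eventually_ge_atTop 1
  have hC : 0 ≤ C := by
    obtain ⟨k, hk⟩ := hb.exists
    have h := hk 0
    rw [hf0 k 0 le_rfl] at h
    simpa using h
  have hmain : Tendsto (fun k => ∫ w in Ioi (0 : ℝ), f k ⌊w * Real.sqrt (ν k)⌋) atTop
      (nhds (∫ w in Ioi (0 : ℝ), g w)) := by
    refine tendsto_integral_filter_of_dominated_convergence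
      (fun w => C * Real.exp c * Real.exp (-c * w)) ?_ ?_ ?_ ?_
    · refine Eventually.of_forall fun k => Measurable.aestronglyMeasurable ?_
      have h1 : Measurable (f k) := measurable_of_countable _
      exact h1.comp (Int.measurable_floor.comp (measurable_id.mul_const _))
    · filter_upwards [hb, hs1] with k hk h1
      refine (ae_restrict_iff' measurableSet_Ioi).2 (Eventually.of_forall fun w hw => ?_)
      have hw0 : (0 : ℝ) < w := hw
      have hs0 : 0 < Real.sqrt (ν k) := by linarith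
      rw [Real.norm_eq_abs]
      refine (hk _).trans ?_
      rw [mul_assoc, ← Real.exp_add]
      refine mul_le_mul_of_nonneg_left (Real.exp_le_exp.2 ?_) hC
      have h2 : w * Real.sqrt (ν k) - 1 ≤ |((⌊w * Real.sqrt (ν k)⌋ : ℤ) : ℝ)| :=
        (Int.sub_one_lt_floor _).le.trans (le_abs_self _)
      have h3 : w - 1 ≤ |((⌊w * Real.sqrt (ν k)⌋ : ℤ) : ℝ)| / Real.sqrt (ν k) := by
        rw [le_div_iff₀ hs0]
        nlinarith
      have h4 := mul_le_mul_of_nonneg_left h3 hc.le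
      have h5 : -c * |((⌊w * Real.sqrt (ν k)⌋ : ℤ) : ℝ)| / Real.sqrt (ν k) =
          -(c * (|((⌊w * Real.sqrt (ν k)⌋ : ℤ) : ℝ)| / Real.sqrt (ν k))) := by ring
      rw [h5]
      linarith
    · exact (exp_neg_integrableOn_Ioi 0 hc).const_mul _
    · have hne : ∀ᵐ w ∂(volume.restrict (Ioi (0 : ℝ))), w ∉ ({b} : Set ℝ) :=
        ae_restrict_of_ae ((Set.countable_singleton b).ae_notMem volume)
      filter_upwards [hne, ae_restrict_mem measurableSet_Ioi] with w hw1 hw2
      have hw0 : (0 : ℝ) < w := hw2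
      refine hlim w hw0 hw1 _ ?_
      have hinv : Tendsto (fun k => w - 1 / Real.sqrt (ν k)) atTop (nhds w) := by
        have := (tendsto_const_nhds (x := (1 : ℝ))).div_atTop hs
        simpa using (tendsto_const_nhds (x := w)).sub this
      refine tendsto_of_tendsto_of_tendsto_of_le_of_le' hinv tendsto_const_nhds ?_ ?_
      · filter_upwards [hs1] with k h1
        have hs0 : 0 < Real.sqrt (ν k) := by linarith
        rw [le_div_iff₀ hs0, sub_mul, one_div, inv_mul_cancel₀ hs0.ne']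
        exact (Int.sub_one_lt_floor _).le
      · filter_upwards [hs1] with k h1
        have hs0 : 0 < Real.sqrt (ν k) := by linarith
        rw [div_le_iff₀ hs0]
        exact Int.floor_le _
  refine hmain.congr' ?_
  filter_upwards [hb, hs1] with k hk h1
  have hs0 : 0 < Real.sqrt (ν k) := by linarith
  refine integral_floor_mul (hf0 k) ?_ hs0
  refine Summable.of_norm_bounded ((summable_exp_abs (div_pos hc hs0)).mul_left C) fun z => ?_
  rw [Real.norm_eq_abs]
  refine (hk z).trans (le_of_eq ?_)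
  congr 2
  ring

end Pool.Agent.Helper18.WK
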