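import Pool.Agent.Helper18.WK.Low
import Pool.Agent.Helper18.WK.Riem
import Pool.Agent.Helper18.WK.LstC
import Pool.Agent.Helper18.WK.Ik
import Pool.Agent.Helper18.WK.MmB
import Pool.Agent.Helper18.WK.MmA

/-!
# Project WK, blocks WK-M1 .. WK-M5: local limit theorem at several times

WK-M1, `riemann_dom`: `(∑' z, f k z) / √(ν k) = ∫_(w > 0) f k ⌊w √(ν k)⌋ dw`, dominated convergence (`w ≠ b`, bound
`C exp c exp (-c w)`; `⌊w √ν⌋ / √ν ≥ w - 1`).

WK-M2 (in `MmA.lean`, helper41). `len_dbl`: `∑_r ∑_l len (l + r + 1) = ∑_l l len l`. `fst_llt`: (`fst_eq`) `Fst (Kp F) t x (t + r) z = ∑_(i = 1)^t ∑_h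
G (Kp F) (t - i) x (z - h) * f (i + r) h` (`z, z - h ≥ 1`); for fixed `i, h`: `√ν G (Kp F) (t - i) x (z - h) →
hk (s2 τ) u w / μ` (`killed_llt`, `hk_eq_gau`: `(gau s2 ((y-x)/√n) - gau s2 ((y+x)/√n)) / √τ`, ...), dominated by
`C √(1 + i) f (i + r) h` (`u_le`: `√ν / √(t - i) ≤ C √(1 + i)`, for `i = t` `G ≤ 1`); `∑_h f l h = len l`.

WK-M3, `fst_dom`: the same sum with `U F n h ≤ C / √n exp (-c |h| / √n)` (`u_gauss`: `h² / (n + |h|) ≥ c |h| / √n - C`),
`√n / √(t - i) ≤ C √(1 + i)`, `f l h ≤ B exp (-a (l + |h|))`, `exp (-c |z - x - h| / √n) ≤ exp (-c |z - x| / √n) exp (c |h|)`.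

WK-M4, `mm_llt`: induction on the list. `[]`: `killed_llt`. `a :: S`: `mm_cons`; `f k z = ∑_r √ν Fst (Kp F) t x (t + r) z *
1{β ≤ z} * √ν Mm (Kp F) (rest) (L - t - r) z y` (real, `r ≤ L - t`). For `z_k / √ν → w > 0`, `w ≠ level`: by `fst_llt` and
the induction hypothesis each `r`-term converges, dominated (`fst_dom`; `Mm ≤ G ≤ C √(1 + r) / √ν`, `u_le`), limit
`hk (s2 (t₁ - s)) u w * ind b w * Ik ... w / μ` (`len_dbl`). Then `riemann_dom`.

WK-M5, `mm_llt_above`: `sc_sub`: `Mm (Kp F) + G K ≤ Mm K + G (Kp F)`, `Mm K ≤ Mm (Kp F)`, `above_bulk`.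
-/

open scoped ENNReal Classical
open Set Filter MeasureTheory

namespace Pool.Agent.Helper18.WK

open Pool.Agent.Helper49.RD

private theorem mm_k06 (F : Law) (x z : ℤ) : Kp F x 0 z = 0 := by
  unfold Kp
  split_ifs
  · rw [F.f_zero, ENNReal.ofReal_zero]
  · rfl

private theorem mm_le_g6 (F : Law) (s : List (ℕ × ℤ)) (n : ℕ) (x y : ℤ) :
    Mm (Kp F) s n x y ≤ G (Kp F) n x y := by
  rw [← sc_one (Kp F) (mm_k06 F) n x y]
  unfold Mm
  refine sc_mono (fun _ _ _ => le_rfl) (fun c => ?_) n x y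
  split_ifs
  · exact le_rfl
  · exact zero_le

private theorem mm_g_le_one6 (F : Law) (n : ℕ) (x y : ℤ) : G (Kp F) n x y ≤ 1 :=
  (g_mono (kp_le F) n x y).trans ((ENNReal.le_tsum y).trans (g_sum_le F n x))

private theorem mm_g_zero6 (F : Law) (n : ℕ) {z y : ℤ} (hz : z ≤ 0) (hy : 1 ≤ y) : G (Kp F) n z y = 0 := by
  cases n with
  | zero => rw [G_zero, if_neg (by omega)]
  | succ n =>
    rw [G_succ]
    refine Finset.sum_eq_zero fun l _ => ?_
    rw [ENNReal.tsum_eq_zero]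
    intro z'
    have : Kp F z (l + 1) z' = 0 := by
      unfold Kp
      rw [if_neg (by omega)]
    rw [this, zero_mul]

private theorem mm_inc_lt6 {T : ℝ} : ∀ (S : List (ℝ × ℝ)) (s : ℝ), Inc3 s S T → s < T ∧ ∀ Q ∈ S, s < Q.1
  | [], s, h => ⟨h, by simp⟩
  | a :: r, s, h => by
    obtain ⟨h1, h2⟩ := h
    obtain ⟨h3, h4⟩ := mm_inc_lt6 r a.1 h2
    refine ⟨h1.trans h3, fun Q hQ => ?_⟩
    rcases List.mem_cons.1 hQ with rfl | hQ
    · exact h1
    · exact h1.trans (h4 Q hQ)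

private theorem mm_ev_le6 {ν a c : ℕ → ℕ} {A B : ℝ} (hν : Tendsto ν atTop atTop)
    (ha : Tendsto (fun k => (a k : ℝ) / ν k) atTop (nhds A))
    (hc : Tendsto (fun k => (c k : ℝ) / ν k) atTop (nhds B)) (hAB : B < A) (r : ℕ) :
    ∀ᶠ k in atTop, c k + r ≤ a k := by
  have hν' : Tendsto (fun k => (ν k : ℝ)) atTop atTop := tendsto_natCast_atTop_atTop.comp hν
  have h1 : Tendsto (fun k => (a k : ℝ) / ν k - (c k : ℝ) / ν k - (r : ℝ) / ν k) atTop (nhds (A - B - 0)) :=
    (ha.sub hc).sub (hν'.const_div_atTop (r : ℝ))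
  have h2 : 0 < A - B - 0 := by linarith
  filter_upwards [h1.eventually_const_lt h2, hν'.eventually_gt_atTop 0] with k hk hk'
  rw [← sub_div, ← sub_div] at hk
  have h3 : 0 < (a k : ℝ) - c k - r := by
    by_contra hcon
    exact absurd hk (not_lt.2 (div_nonpos_of_nonpos_of_nonneg (not_lt.1 hcon) hk'.le))
  have h4 : ((c k + r : ℕ) : ℝ) ≤ a k := by
    push_cast
    linarith
  exact_mod_cast h4

private theorem mm_natsub6 {ν a c : ℕ → ℕ} {A B : ℝ} (hν : Tendsto ν atTop atTop)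
    (ha : Tendsto (fun k => (a k : ℝ) / ν k) atTop (nhds A))
    (hc : Tendsto (fun k => (c k : ℝ) / ν k) atTop (nhds B)) (hAB : B < A) (r : ℕ) :
    Tendsto (fun k => ((a k - (c k + r) : ℕ) : ℝ) / ν k) atTop (nhds (A - B)) := by
  have hν' : Tendsto (fun k => (ν k : ℝ)) atTop atTop := tendsto_natCast_atTop_atTop.comp hν
  have h1 : Tendsto (fun k => (a k : ℝ) / ν k - (c k : ℝ) / ν k - (r : ℝ) / ν k) atTop (nhds (A - B - 0)) :=
    (ha.sub hc).sub (hν'.const_div_atTop (r : ℝ))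
  rw [sub_zero] at h1
  refine h1.congr' ?_
  filter_upwards [mm_ev_le6 hν ha hc hAB r] with k hk
  rw [Nat.cast_sub hk, ← sub_div, ← sub_div]
  congr 1
  push_cast
  ring

private theorem mm_forall6 {ν t : ℕ → ℕ} {s t₁ : ℝ} (hν : Tendsto ν atTop atTop)
    (ht : Tendsto (fun k => (t k : ℝ) / ν k) atTop (nhds (t₁ - s))) (r : ℕ)
    {σ : List ((ℕ → ℕ) × (ℕ → ℤ))} {S : List (ℝ × ℝ)}
    (hσ : List.Forall₂ (fun q Q => Tendsto (fun k => (q.1 k : ℝ) / ν k) atTop (nhds (Q.1 - s)) ∧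
      Tendsto (fun k => (q.2 k : ℝ) / Real.sqrt (ν k)) atTop (nhds Q.2)) σ S) (hS : ∀ Q ∈ S, t₁ < Q.1) :
    (∀ᶠ k in atTop, ∀ q ∈ σ, t k + r ≤ q.1 k) ∧
    List.Forall₂ (fun (q : (ℕ → ℕ) × (ℕ → ℤ)) (Q : ℝ × ℝ) =>
      Tendsto (fun k => (q.1 k : ℝ) / ν k) atTop (nhds (Q.1 - t₁)) ∧
      Tendsto (fun k => (q.2 k : ℝ) / Real.sqrt (ν k)) atTop (nhds Q.2))
      (σ.map fun q => ((fun k => q.1 k - (t k + r) : ℕ → ℕ), q.2)) S := by
  induction hσ with
  | nil => exact ⟨by simp, List.Forall₂.nil⟩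
  | cons h hrest ih =>
    rename_i q Q σ' S'
    obtain ⟨ih1, ih2⟩ := ih fun Q hQ => hS Q (List.mem_cons_of_mem _ hQ)
    have hQ : t₁ < Q.1 := hS Q List.mem_cons_self
    have hlt : t₁ - s < Q.1 - s := by linarith
    constructor
    · filter_upwards [ih1, mm_ev_le6 hν h.1 ht hlt r] with k hk1 hk2 q' hq'
      rcases List.mem_cons.1 hq' with rfl | hq'
      · exact hk2
      · exact hk1 q' hq'
    · refine List.Forall₂.cons ⟨?_, h.2⟩ ih2
      have h1 := mm_natsub6 hν h.1 ht hlt r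
      rwa [show Q.1 - s - (t₁ - s) = Q.1 - t₁ by ring] at h1

/-- bound for the later part -/
private theorem mm_later6 (F : Law) {δ : ℝ} (hδ : 0 < δ) : ∃ C : ℝ, 0 < C ∧
    ∀ (s : List (ℕ × ℤ)) (n L t r : ℕ) (z y : ℤ), 1 ≤ n → t + r ≤ L → δ * n ≤ (L : ℝ) - t →
      Real.sqrt n * (Mm (Kp F) s (L - (t + r)) z y).toReal ≤ C * (1 + r) := by
  obtain ⟨C, hC, hU⟩ := u_le F
  refine ⟨(C + 1) * Real.sqrt (2 / δ), by positivity, fun s n L t r z y hn hr hL => ?_⟩
  obtain ⟨m, hm⟩ : ∃ m : ℕ, m = L - (t + r) := ⟨_, rfl⟩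
  rw [← hm]
  have hmR : (m : ℝ) = L - t - r := by
    rw [hm, Nat.cast_sub hr]
    push_cast
    ring
  have hn1 : (1 : ℝ) ≤ n := by exact_mod_cast hn
  have hG1 : (G (Kp F) m z y).toReal ≤ 1 := by
    have := ENNReal.toReal_mono ENNReal.one_ne_top (mm_g_le_one6 F m z y)
    simpa using this
  have hMG : (Mm (Kp F) s m z y).toReal ≤ (G (Kp F) m z y).toReal :=
    ENNReal.toReal_mono (ne_top_of_le_ne_top ENNReal.one_ne_top (mm_g_le_one6 F m z y)) (mm_le_g6 F s m z y)
  have hr0 : (0 : ℝ) ≤ r := Nat.cast_nonneg r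
  have hsq : 0 ≤ Real.sqrt (2 / δ) := Real.sqrt_nonneg _
  by_cases hcase : 2 * (r : ℝ) ≤ L - t
  · have hm2 : δ * n / 2 ≤ m := by rw [hmR]; linarith
    have hm0 : (0 : ℝ) < m := lt_of_lt_of_le (by positivity) hm2
    have hm1 : 1 ≤ m := by exact_mod_cast hm0
    have hGU : (G (Kp F) m z y).toReal ≤ C / Real.sqrt m := by
      have h1 : G (Kp F) m z y ≤ ENNReal.ofReal (C / Real.sqrt m) := by
        refine (g_mono (kp_le F) m z y).trans ?_
        rw [u_eq]
        exact ENNReal.ofReal_le_ofReal (hU m (y - z) hm1)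
      exact ENNReal.toReal_le_of_le_ofReal (by positivity) h1
    have h2 : Real.sqrt n ≤ Real.sqrt (2 / δ) * Real.sqrt m := by
      rw [← Real.sqrt_mul (by positivity)]
      refine Real.sqrt_le_sqrt ?_
      rw [div_mul_eq_mul_div, le_div_iff₀ hδ]
      linarith
    have hsm : 0 < Real.sqrt m := Real.sqrt_pos.2 hm0
    calc Real.sqrt n * (Mm (Kp F) s m z y).toReal
        ≤ (Real.sqrt (2 / δ) * Real.sqrt m) * (C / Real.sqrt m) :=
          mul_le_mul h2 (hMG.trans hGU) ENNReal.toReal_nonneg (by positivity)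
      _ = C * Real.sqrt (2 / δ) := by field_simp
      _ ≤ (C + 1) * Real.sqrt (2 / δ) * (1 + r) := by
          have h3 : C * Real.sqrt (2 / δ) ≤ (C + 1) * Real.sqrt (2 / δ) :=
            mul_le_mul_of_nonneg_right (by linarith) hsq
          have h4 : (C + 1) * Real.sqrt (2 / δ) * 1 ≤ (C + 1) * Real.sqrt (2 / δ) * (1 + r) :=
            mul_le_mul_of_nonneg_left (by linarith) (by positivity)
          linarith
  · rw [not_le] at hcase
    have h2 : Real.sqrt n ≤ Real.sqrt (2 / δ) * (1 + r) := by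
      rw [Real.sqrt_le_left (by positivity), mul_pow, Real.sq_sqrt (by positivity), div_mul_eq_mul_div,
        le_div_iff₀ hδ]
      nlinarith
    calc Real.sqrt n * (Mm (Kp F) s m z y).toReal
        ≤ (Real.sqrt (2 / δ) * (1 + r)) * 1 :=
          mul_le_mul h2 (hMG.trans hG1) ENNReal.toReal_nonneg (by positivity)
      _ ≤ (C + 1) * Real.sqrt (2 / δ) * (1 + r) := by
          have h3 : 0 ≤ C * (Real.sqrt (2 / δ) * (1 + r)) := by positivity
          nlinarith

private theorem mm_icc6 {t L : ℕ} (h : t ≤ L) (f : ℕ → ℝ≥0∞) :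
    ∑ a ∈ Finset.Icc t L, f a = ∑ r ∈ Finset.range (L - t + 1), f (t + r) := by
  have h1 : Finset.Icc t L = Finset.Ico t (L + 1) := by
    ext a
    simp only [Finset.mem_Icc, Finset.mem_Ico]
    omega
  rw [h1, Finset.sum_Ico_eq_sum_range]
  congr 2
  omega

/-- the exact formula behind the Riemann sum -/
private theorem mm_formula6 (F : Law) {σ : List (ℕ × ℤ)} {ν L t : ℕ} {x y β : ℤ} (hν : 1 ≤ ν) (hy : 1 ≤ y)
    (htL : t ≤ L) (hσ : ∀ q ∈ σ, t ≤ q.1) :
    (∑' z : ℤ, (if z ≤ 0 then 0 else ∑ r ∈ Finset.range (L - t + 1),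
      (Real.sqrt ν * (Fst (Kp F) t x (t + r) z).toReal) *
        (if β ≤ z then Real.sqrt ν * (Mm (Kp F) (σ.map fun q => (q.1 - (t + r), q.2)) (L - (t + r)) z y).toReal
          else 0))) / Real.sqrt ν =
      Real.sqrt ν * (Mm (Kp F) ((t, β) :: σ) L x y).toReal := by
  obtain ⟨A, hA⟩ : ∃ A : ℕ → ℤ → ℝ≥0∞, A = fun r z => Fst (Kp F) t x (t + r) z *
      (if β ≤ z then Mm (Kp F) (σ.map fun q => (q.1 - (t + r), q.2)) (L - (t + r)) z y else 0) := ⟨_, rfl⟩
  have e1 : Mm (Kp F) ((t, β) :: σ) L x y = ∑' z : ℤ, ∑ r ∈ Finset.range (L - t + 1), A r z := by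
    rw [mm_cons (Kp F) (mm_k06 F) htL hσ, mm_icc6 htL, Summable.tsum_finsetSum fun _ _ => ENNReal.summable]
    refine Finset.sum_congr rfl fun r _ => tsum_congr fun z => ?_
    rw [hA]
  have hfin : ∀ z : ℤ, ∑ r ∈ Finset.range (L - t + 1), A r z ≠ ⊤ := by
    intro z
    refine ne_top_of_le_ne_top ENNReal.one_ne_top ?_
    calc ∑ r ∈ Finset.range (L - t + 1), A r z ≤ ∑' z : ℤ, ∑ r ∈ Finset.range (L - t + 1), A r z :=
          ENNReal.le_tsum z
      _ = Mm (Kp F) ((t, β) :: σ) L x y := e1.symm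
      _ ≤ 1 := (mm_le_g6 F _ L x y).trans (mm_g_le_one6 F L x y)
  have hsν : 0 < Real.sqrt ν := Real.sqrt_pos.2 (by exact_mod_cast hν)
  have e2 : ∀ z : ℤ, (if z ≤ 0 then 0 else ∑ r ∈ Finset.range (L - t + 1),
      (Real.sqrt ν * (Fst (Kp F) t x (t + r) z).toReal) *
        (if β ≤ z then Real.sqrt ν * (Mm (Kp F) (σ.map fun q => (q.1 - (t + r), q.2)) (L - (t + r)) z y).toReal
          else 0)) = (Real.sqrt ν * Real.sqrt ν) * (∑ r ∈ Finset.range (L - t + 1), A r z).toReal := by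
    intro z
    by_cases hz : z ≤ 0
    · rw [if_pos hz]
      have h0 : ∑ r ∈ Finset.range (L - t + 1), A r z = 0 := by
        refine Finset.sum_eq_zero fun r _ => ?_
        rw [hA]
        beta_reduce
        have h1 : Mm (Kp F) (σ.map fun q => (q.1 - (t + r), q.2)) (L - (t + r)) z y = 0 :=
          le_antisymm ((mm_le_g6 F _ _ z y).trans (mm_g_zero6 F _ hz hy).le) zero_le
        rw [h1, ite_self, mul_zero]
      rw [h0, ENNReal.toReal_zero, mul_zero]
    · rw [if_neg hz, ENNReal.toReal_sum, Finset.mul_sum]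
      · refine Finset.sum_congr rfl fun r _ => ?_
        rw [hA]
        beta_reduce
        rw [ENNReal.toReal_mul]
        by_cases hb : β ≤ z
        · rw [if_pos hb, if_pos hb]
          ring
        · rw [if_neg hb, if_neg hb]
          simp
      · intro r hr
        exact ne_top_of_le_ne_top (hfin z) (Finset.single_le_sum (f := fun r => A r z) (fun _ _ => zero_le) hr)
  rw [tsum_congr e2, tsum_mul_left, e1, ENNReal.tsum_toReal_eq hfin]
  field_simp

private theorem mm_sum6 {c : ℝ} (hc : 0 < c) : Summable fun r : ℕ => (1 + (r : ℝ)) * Real.exp (-c * r) := by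
  have h0 := Real.summable_pow_mul_exp_neg_nat_mul 0 hc
  have h1 := Real.summable_pow_mul_exp_neg_nat_mul 1 hc
  refine (h0.add h1).congr fun r => ?_
  simp only [pow_zero, pow_one]
  ring

private theorem mm_step6 (F : Law) {σ : List ((ℕ → ℕ) × (ℕ → ℤ))} {ν L t : ℕ → ℕ} {x y β : ℕ → ℤ}
    {T s t₁ b u v : ℝ} {H : ℝ → ℝ} (hν : Tendsto ν atTop atTop)
    (hL : Tendsto (fun k => (L k : ℝ) / ν k) atTop (nhds (T - s)))
    (ht : Tendsto (fun k => (t k : ℝ) / ν k) atTop (nhds (t₁ - s))) (hst : s < t₁) (htT : t₁ < T)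
    (hx : Tendsto (fun k => (x k : ℝ) / Real.sqrt (ν k)) atTop (nhds u)) (hu : 0 < u)
    (hy : Tendsto (fun k => (y k : ℝ) / Real.sqrt (ν k)) atTop (nhds v)) (hv : 0 < v)
    (hβ : Tendsto (fun k => (β k : ℝ) / Real.sqrt (ν k)) atTop (nhds b))
    (hσ : ∀ᶠ k in atTop, ∀ q ∈ σ, t k ≤ q.1 k)
    (hlater : ∀ (r : ℕ) (w : ℝ), 0 < w → ∀ z : ℕ → ℤ,
      Tendsto (fun k => (z k : ℝ) / Real.sqrt (ν k)) atTop (nhds w) →
      Tendsto (fun k => Real.sqrt (ν k) * (Mm (Kp F) (σ.map fun q => (q.1 k - (t k + r), q.2 k))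
        (L k - (t k + r)) (z k) (y k)).toReal) atTop (nhds (H w / mu F))) :
    Tendsto (fun k => Real.sqrt (ν k) *
      (Mm (Kp F) ((t k, β k) :: σ.map fun q => (q.1 k, q.2 k)) (L k) (x k) (y k)).toReal) atTop
        (nhds (Tv (s2 F * (t₁ - s)) (fun z => ind b z * H z) u / mu F)) := by
  have hν' : Tendsto (fun k => (ν k : ℝ)) atTop atTop := tendsto_natCast_atTop_atTop.comp hν
  have hsν : Tendsto (fun k => Real.sqrt (ν k)) atTop atTop := Real.tendsto_sqrt_atTop.comp hν'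
  obtain ⟨δ, hδ⟩ : ∃ δ : ℝ, δ = (T - t₁) / 2 := ⟨_, rfl⟩
  have hδ0 : 0 < δ := by rw [hδ]; linarith
  obtain ⟨τ, hτ⟩ : ∃ τ : ℝ, τ = min ((t₁ - s) / 2) (1 / (t₁ - s + 1)) := ⟨_, rfl⟩
  have hts : 0 < t₁ - s := by linarith
  have hτ0 : 0 < τ := by rw [hτ]; exact lt_min (by positivity) (by positivity)
  obtain ⟨C₁, c₁, hC₁, hc₁, hdom⟩ := fst_dom F hτ0
  obtain ⟨C₂, hC₂, hlat⟩ := mm_later6 F hδ0
  -- eventual facts
  have ev_ν : ∀ᶠ k in atTop, 1 ≤ ν k := hν.eventually_ge_atTop 1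
  have ev_s : ∀ᶠ k in atTop, 0 < Real.sqrt (ν k) := hsν.eventually_gt_atTop 0
  have ev_y : ∀ᶠ k in atTop, 1 ≤ y k := by
    filter_upwards [hy.eventually_const_lt hv, ev_s] with k hk hk'
    have h1 : (0 : ℝ) < y k := by
      by_contra hcon
      exact absurd hk (not_lt.2 (div_nonpos_of_nonpos_of_nonneg (not_lt.1 hcon) hk'.le))
    have h2 : 0 < y k := by exact_mod_cast h1
    omega
  have ev_t1 : ∀ᶠ k in atTop, τ * ν k ≤ t k := by
    have h1 : τ < t₁ - s := by
      have : τ ≤ (t₁ - s) / 2 := by rw [hτ]; exact min_le_left _ _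
      linarith
    filter_upwards [ht.eventually_const_lt h1, hν'.eventually_gt_atTop 0] with k hk hk'
    rw [lt_div_iff₀ hk'] at hk
    exact hk.le
  have ev_t2 : ∀ᶠ k in atTop, (t k : ℝ) ≤ ν k / τ := by
    have h1 : t₁ - s < 1 / τ := by
      rw [lt_div_iff₀ hτ0]
      have h2 : τ ≤ 1 / (t₁ - s + 1) := by rw [hτ]; exact min_le_right _ _
      rw [le_div_iff₀ (by positivity)] at h2
      nlinarith
    filter_upwards [ht.eventually_lt_const h1, hν'.eventually_gt_atTop 0] with k hk hk'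
    rw [div_lt_iff₀ hk', one_div, mul_comm, ← div_eq_mul_inv] at hk
    exact hk.le
  have ev_L : ∀ᶠ k in atTop, δ * ν k ≤ (L k : ℝ) - t k := by
    have h1 : δ < T - s - (t₁ - s) := by rw [hδ]; linarith
    filter_upwards [(hL.sub ht).eventually_const_lt h1, hν'.eventually_gt_atTop 0] with k hk hk'
    rw [← sub_div, lt_div_iff₀ hk'] at hk
    exact hk.le
  have ev_tL : ∀ᶠ k in atTop, t k ≤ L k := by
    filter_upwards [ev_L, ev_ν] with k hk hk'
    have h1 : (0 : ℝ) ≤ δ * ν k := by positivity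
    have h2 : (t k : ℝ) ≤ L k := by linarith
    exact_mod_cast h2
  have ev_x : ∀ᶠ k in atTop, |(x k : ℝ)| / Real.sqrt (ν k) ≤ u + 1 := by
    have h1 : Tendsto (fun k => |(x k : ℝ) / Real.sqrt (ν k)|) atTop (nhds |u|) := hx.abs
    have h2 : |u| < u + 1 := by rw [abs_of_pos hu]; linarith
    filter_upwards [h1.eventually_lt_const h2] with k hk
    rw [abs_div, abs_of_nonneg (Real.sqrt_nonneg _)] at hk
    exact hk.le
  -- the summands
  obtain ⟨φ, hφ⟩ : ∃ φ : ℕ → ℤ → ℕ → ℝ, φ = fun k z r =>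
      (Real.sqrt (ν k) * (Fst (Kp F) (t k) (x k) (t k + r) z).toReal) *
        (if β k ≤ z then Real.sqrt (ν k) * (Mm (Kp F) (σ.map fun q => (q.1 k - (t k + r), q.2 k))
          (L k - (t k + r)) z (y k)).toReal else 0) := ⟨_, rfl⟩
  obtain ⟨f, hf⟩ : ∃ f : ℕ → ℤ → ℝ, f = fun k z =>
      if z ≤ 0 then 0 else ∑ r ∈ Finset.range (L k - t k + 1), φ k z r := ⟨_, rfl⟩
  -- bound of the summands
  have hφb : ∀ᶠ k in atTop, ∀ (z : ℤ) (r : ℕ), r ∈ Finset.range (L k - t k + 1) →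
      |φ k z r| ≤ C₁ * C₂ * ((1 + (r : ℝ)) * Real.exp (-c₁ * r)) *
        Real.exp (-c₁ * |(z : ℝ) - x k| / Real.sqrt (ν k)) := by
    filter_upwards [ev_ν, ev_t1, ev_t2, ev_L, ev_tL] with k h1 h2 h3 h4 h5 z r hr
    have hr' : t k + r ≤ L k := by
      have := Finset.mem_range.1 hr
      omega
    have b1 := hdom (ν k) (t k) r (x k) z h1 h2 h3
    have b2 := hlat (σ.map fun q => (q.1 k - (t k + r), q.2 k)) (ν k) (L k) (t k) r z (y k) h1 hr' h4
    have b3 : (if β k ≤ z then Real.sqrt (ν k) * (Mm (Kp F) (σ.map fun q => (q.1 k - (t k + r), q.2 k))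
          (L k - (t k + r)) z (y k)).toReal else 0) ≤ C₂ * (1 + r) := by
      split_ifs
      · exact b2
      · positivity
    have b4 : 0 ≤ (if β k ≤ z then Real.sqrt (ν k) * (Mm (Kp F) (σ.map fun q => (q.1 k - (t k + r), q.2 k))
          (L k - (t k + r)) z (y k)).toReal else 0) := by
      split_ifs
      · positivity
      · exact le_rfl
    have b5 : 0 ≤ Real.sqrt (ν k) * (Fst (Kp F) (t k) (x k) (t k + r) z).toReal := by positivity
    rw [hφ]
    beta_reduce
    rw [abs_of_nonneg (mul_nonneg b5 b4)]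
    calc _ ≤ (C₁ * Real.exp (-c₁ * r) * Real.exp (-c₁ * |(z : ℝ) - x k| / Real.sqrt (ν k))) * (C₂ * (1 + r)) :=
          mul_le_mul b1 b3 b4 (by positivity)
      _ = _ := by ring
  have hsum := mm_sum6 hc₁
  have key := riemann_dom (f := f) (g := fun w => Pool.Agent.Helper49.RD.hk (s2 F * (t₁ - s)) u w *
    (ind b w * H w) / mu F) hν (C := C₁ * C₂ * (∑' r : ℕ, (1 + (r : ℝ)) * Real.exp (-c₁ * r)) *
      Real.exp (c₁ * (u + 1))) (c := c₁) (b := b) hc₁ ?_ ?_ ?_
  · have e1 : ∫ w in Ioi (0 : ℝ), Pool.Agent.Helper49.RD.hk (s2 F * (t₁ - s)) u w * (ind b w * H w) / mu F =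
        Tv (s2 F * (t₁ - s)) (fun z => ind b z * H z) u / mu F := by
      rw [integral_div]
      rfl
    rw [e1] at key
    refine key.congr' ?_
    filter_upwards [ev_ν, ev_y, ev_tL, hσ] with k h1 h2 h3 h4
    have h5 : ∀ q ∈ σ.map (fun q => (q.1 k, q.2 k)), t k ≤ q.1 := by
      intro q hq
      obtain ⟨q', hq', rfl⟩ := List.mem_map.1 hq
      exact h4 q' hq'
    have h6 := mm_formula6 F (x := x k) (β := β k) h1 h2 h3 h5
    rw [← h6, hf, hφ]
    simp only [List.map_map]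
    rfl
  · intro k z hz
    rw [hf]
    exact if_pos hz
  · filter_upwards [hφb, ev_s, ev_x] with k h1 h2 h3 z
    have hx1 : Real.exp (-c₁ * |(z : ℝ) - x k| / Real.sqrt (ν k)) ≤
        Real.exp (c₁ * (u + 1)) * Real.exp (-c₁ * |(z : ℝ)| / Real.sqrt (ν k)) := by
      rw [← Real.exp_add, Real.exp_le_exp]
      have h4 : |(z : ℝ)| ≤ |(z : ℝ) - x k| + |(x k : ℝ)| := by
        have := abs_add_le ((z : ℝ) - x k) (x k : ℝ)
        simpa using this
      have h5 : |(z : ℝ)| / Real.sqrt (ν k) ≤ |(z : ℝ) - x k| / Real.sqrt (ν k) + (u + 1) := by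
        have := div_le_div_of_nonneg_right h4 h2.le
        rw [add_div] at this
        linarith
      have h6 := mul_le_mul_of_nonneg_left h5 hc₁.le
      rw [mul_div_assoc, mul_div_assoc]
      linarith
    have hS0 : 0 ≤ ∑' r : ℕ, (1 + (r : ℝ)) * Real.exp (-c₁ * r) := tsum_nonneg fun r => by positivity
    rw [hf]
    beta_reduce
    split_ifs with hz
    · rw [abs_zero]
      positivity
    · calc |∑ r ∈ Finset.range (L k - t k + 1), φ k z r| ≤ ∑ r ∈ Finset.range (L k - t k + 1), |φ k z r| :=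
            Finset.abs_sum_le_sum_abs _ _
        _ ≤ ∑ r ∈ Finset.range (L k - t k + 1), C₁ * C₂ * ((1 + (r : ℝ)) * Real.exp (-c₁ * r)) *
              Real.exp (-c₁ * |(z : ℝ) - x k| / Real.sqrt (ν k)) := Finset.sum_le_sum fun r hr => h1 z r hr
        _ = C₁ * C₂ * (∑ r ∈ Finset.range (L k - t k + 1), (1 + (r : ℝ)) * Real.exp (-c₁ * r)) *
              Real.exp (-c₁ * |(z : ℝ) - x k| / Real.sqrt (ν k)) := by
            rw [Finset.mul_sum, Finset.sum_mul]
        _ ≤ C₁ * C₂ * (∑' r : ℕ, (1 + (r : ℝ)) * Real.exp (-c₁ * r)) *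
              (Real.exp (c₁ * (u + 1)) * Real.exp (-c₁ * |(z : ℝ)| / Real.sqrt (ν k))) := by
            refine mul_le_mul (mul_le_mul_of_nonneg_left ?_ (by positivity)) hx1 (Real.exp_pos _).le (by positivity)
            exact hsum.sum_le_tsum _ fun r _ => by positivity
        _ = _ := by ring
  · intro w hw hwb z hz
    have ev_z : ∀ᶠ k in atTop, ¬ z k ≤ 0 := by
      filter_upwards [hz.eventually_const_lt hw, ev_s] with k hk hk' hcon
      have h1 : (z k : ℝ) ≤ 0 := by exact_mod_cast hcon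
      exact absurd hk (not_lt.2 (div_nonpos_of_nonpos_of_nonneg h1 hk'.le))
    have hlim : Tendsto (fun k => ∑' r : ℕ, if r ∈ Finset.range (L k - t k + 1) then φ k (z k) r else 0) atTop
        (nhds (∑' r : ℕ, (Pool.Agent.Helper49.RD.hk (s2 F * (t₁ - s)) u w / mu F *
          (ind b w * (H w / mu F))) * ∑' l : ℕ, len F (l + r + 1))) := by
      refine tendsto_tsum_of_dominated_convergence (bound := fun r : ℕ => C₁ * C₂ *
        ((1 + (r : ℝ)) * Real.exp (-c₁ * r))) (hsum.mul_left _) ?_ ?_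
      · intro r
        have a1 := fst_llt F hν ht hts hx hu hz hw r
        have a2 := hlater r w hw z hz
        have a3 : Tendsto (fun k => if β k ≤ z k then Real.sqrt (ν k) * (Mm (Kp F)
            (σ.map fun q => (q.1 k - (t k + r), q.2 k)) (L k - (t k + r)) (z k) (y k)).toReal else 0) atTop
            (nhds (ind b w * (H w / mu F))) := by
          rcases lt_or_gt_of_ne hwb with h | h
          · have e : ind b w = 0 := by
              unfold ind
              rw [if_neg (not_le.2 h)]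
            rw [e, zero_mul]
            refine tendsto_const_nhds.congr' ?_
            filter_upwards [(hz.sub hβ).eventually_lt_const (show w - b < 0 by linarith), ev_s] with k hk hk'
            rw [← sub_div, div_lt_iff₀ hk', zero_mul] at hk
            rw [if_neg]
            intro hcon
            have : (β k : ℝ) ≤ z k := by exact_mod_cast hcon
            linarith
          · have e : ind b w = 1 := by
              unfold ind
              rw [if_pos h.le]
            rw [e, one_mul]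
            refine a2.congr' ?_
            filter_upwards [(hz.sub hβ).eventually_const_lt (show 0 < w - b by linarith), ev_s] with k hk hk'
            rw [← sub_div, lt_div_iff₀ hk', zero_mul] at hk
            rw [if_pos]
            have h7 : (β k : ℝ) ≤ z k := by linarith
            exact_mod_cast h7
        have a4 := a1.mul a3
        have e4 : Pool.Agent.Helper49.RD.hk (s2 F * (t₁ - s)) u w / mu F * (ind b w * (H w / mu F)) *
            ∑' l : ℕ, len F (l + r + 1) = Pool.Agent.Helper49.RD.hk (s2 F * (t₁ - s)) u w / mu F *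
            (∑' l : ℕ, len F (l + r + 1)) * (ind b w * (H w / mu F)) := by ring
        rw [e4]
        refine a4.congr' ?_
        have hlt : t₁ - s < T - s := by linarith
        filter_upwards [mm_ev_le6 hν hL ht hlt r] with k hk
        rw [if_pos (Finset.mem_range.2 (by omega)), hφ]
      · filter_upwards [hφb, ev_s] with k h1 h2 r
        rw [Real.norm_eq_abs]
        split_ifs with hr
        · refine (h1 (z k) r hr).trans ?_
          refine mul_le_of_le_one_right (by positivity) ?_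
          rw [Real.exp_le_one_iff]
          have : 0 ≤ c₁ * |(z k : ℝ) - x k| / Real.sqrt (ν k) := by positivity
          rw [neg_mul, neg_div]
          linarith
        · rw [abs_zero]
          positivity
    rw [tsum_mul_left, (len_dbl F).tsum_eq] at hlim
    have e5 : Pool.Agent.Helper49.RD.hk (s2 F * (t₁ - s)) u w / mu F * (ind b w * (H w / mu F)) * mu F =
        Pool.Agent.Helper49.RD.hk (s2 F * (t₁ - s)) u w * (ind b w * H w) / mu F := by
      by_cases hm : mu F = 0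
      · rw [hm]
        simp
      · field_simp
    rw [e5] at hlim
    refine hlim.congr' ?_
    filter_upwards [ev_z] with k hk
    rw [hf]
    beta_reduce
    rw [if_neg hk, tsum_eq_sum (s := Finset.range (L k - t k + 1))]
    · exact Finset.sum_congr rfl fun r hr => if_pos hr
    · intro r hr
      exact if_neg hr

theorem mm_llt (F : Law) {σ : List ((ℕ → ℕ) × (ℕ → ℤ))} {S : List (ℝ × ℝ)} {ν L : ℕ → ℕ} {x y : ℕ → ℤ}
    {s T u v : ℝ} (hν : Tendsto ν atTop atTop)
    (hL : Tendsto (fun k => (L k : ℝ) / ν k) atTop (nhds (T - s)))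
    (hx : Tendsto (fun k => (x k : ℝ) / Real.sqrt (ν k)) atTop (nhds u)) (hu : 0 < u)
    (hy : Tendsto (fun k => (y k : ℝ) / Real.sqrt (ν k)) atTop (nhds v)) (hv : 0 < v)
    (hσ : List.Forall₂ (fun q Q => Tendsto (fun k => (q.1 k : ℝ) / ν k) atTop (nhds (Q.1 - s)) ∧
      Tendsto (fun k => (q.2 k : ℝ) / Real.sqrt (ν k)) atTop (nhds Q.2)) σ S) (hS : Inc3 s S T) :
    Tendsto (fun k => Real.sqrt (ν k) *
      (Mm (Kp F) (σ.map fun q => (q.1 k, q.2 k)) (L k) (x k) (y k)).toReal) atTop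
        (nhds (Ik (s2 F) T v s S u / mu F)) := by
  induction S generalizing σ L x s u with
  | nil =>
    cases hσ
    simp only [List.map_nil, mm_nil (Kp F) (mm_k06 F)]
    have h1 : s < T := hS
    exact g_llt F hν hL (by linarith) hx hu hy hv
  | cons Q S ih =>
    obtain ⟨t₁, b⟩ := Q
    obtain ⟨hst, hS'⟩ := hS
    obtain ⟨htT, hS1⟩ := mm_inc_lt6 S t₁ hS'
    cases hσ with
    | cons hq hrest =>
      rename_i q σ'
      have h0 := (mm_forall6 hν hq.1 0 hrest hS1).1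
      refine mm_step6 F (H := Ik (s2 F) T v t₁ S) hν hL hq.1 hst htT hx hu hy hv hq.2 ?_ ?_
      · filter_upwards [h0] with k hk q' hq'
        exact hk q' hq'
      · intro r w hw z hz
        have h1 := (mm_forall6 hν hq.1 r hrest hS1).2
        have hlt : t₁ - s < T - s := by linarith
        have h2 := mm_natsub6 hν hL hq.1 hlt r
        rw [show T - s - (t₁ - s) = T - t₁ by ring] at h2
        have h3 := ih (σ := σ'.map fun q' => ((fun k => q'.1 k - (q.1 k + r) : ℕ → ℕ), q'.2)) h2 hz hw h1 hS'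
        simp only [List.map_map] at h3
        exact h3

end Pool.Agent.Helper18.WK
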