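import Pool.Agent.Helper18.WK.MmL

/-!
# Project WK, block WK-M5: local limit theorem for the kernels above the line

`mm_llt_above`: `sc_sub`: `Mm (Kp F) + G K ≤ Mm K + G (Kp F)`, `Mm K ≤ Mm (Kp F)`, `above_bulk` (with the height
`cap = L k`): the difference of `√ν Mm (Kp F)` and `√ν Mm K` is at most `√ν ε / √L → ε / √(T - s)`.
-/

open scoped ENNReal Classical
open Set Filter MeasureTheory

namespace Pool.Agent.Helper18.WK

open Pool.Agent.Helper49.RD

theorem inc3_lt_m5 : ∀ {S : List (ℝ × ℝ)} {s T : ℝ}, Inc3 s S T → s < T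
  | [], _, _, h => h
  | _ :: _, _, _, h => h.1.trans (inc3_lt_m5 h.2)

theorem kp_zero_m5 (F : Law) (x z : ℤ) : Kp F x 0 z = 0 := by
  unfold Kp
  rw [F.f_zero, ENNReal.ofReal_zero]
  split_ifs <;> rfl

/-- The difference of the two kernels. -/
theorem mm_sub_m5 (F : Law) {κ Bt r : ℝ} (hB : 0 < Bt) (hr : 0 < r) {K : Ker}
    (hK : ∀ cap : ℕ, Above F κ Bt r cap K) {ε : ℝ} (hε : 0 < ε) :
    ∃ n₀ : ℕ, ∀ n ≥ n₀, ∀ (q : List (ℕ × ℤ)) (x y : ℤ),
      ε * Real.sqrt n ≤ x → (x : ℝ) ≤ Real.sqrt n / ε → ε * Real.sqrt n ≤ y → (y : ℝ) ≤ Real.sqrt n / ε →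
        |(Mm K q n x y).toReal - (Mm (Kp F) q n x y).toReal| ≤ ε / Real.sqrt n := by
  obtain ⟨n₀, hn₀⟩ := above_bulk F (κ := κ) hB hr one_pos hε
  refine ⟨n₀, fun n hn q x y hx1 hx2 hy1 hy2 => ?_⟩
  have hle := (hK n).le
  have h1 := hn₀ n hn n K (hK n) (by rw [one_mul]) x y hx1 hx2 hy1 hy2
  have hΦ : ∀ c : Ch, (if ∀ p ∈ q, p.2 ≤ hgt p.1 x c then (1 : ℝ≥0∞) else 0) ≤ 1 := by
    intro c
    split_ifs
    · exact le_rfl
    · exact zero_le_one
  have h2 : Mm (Kp F) q n x y + G K n x y ≤ Mm K q n x y + G (Kp F) n x y :=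
    sc_sub hle (kp_zero_m5 F) hΦ n x y
  have h3 : Mm K q n x y ≤ Mm (Kp F) q n x y := sc_mono hle (fun _ => le_rfl) n x y
  have hG1 : G (Kp F) n x y ≤ 1 :=
    ((g_mono (kp_le F) n x y).trans (ENNReal.le_tsum y)).trans (g_sum_le F n x)
  have h4 : Mm (Kp F) q n x y ≤ 1 := by
    refine le_trans ?_ hG1
    rw [← sc_one (Kp F) (kp_zero_m5 F)]
    exact sc_mono (fun _ _ _ => le_rfl) hΦ n x y
  have hGK : G K n x y ≠ ∞ := (((g_mono hle n x y).trans hG1).trans_lt ENNReal.one_lt_top).ne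
  have h5 : Mm (Kp F) q n x y ≤ Mm K q n x y + ENNReal.ofReal (ε / Real.sqrt n) := by
    refine (ENNReal.add_le_add_iff_right hGK).1 ?_
    refine h2.trans ?_
    rw [add_right_comm, add_assoc]
    exact add_le_add le_rfl h1
  have hf1 : Mm (Kp F) q n x y ≠ ∞ := (h4.trans_lt ENNReal.one_lt_top).ne
  have hf2 : Mm K q n x y ≠ ∞ := (h3.trans_lt (h4.trans_lt ENNReal.one_lt_top)).ne
  have h6 := ENNReal.toReal_mono hf1 h3
  have h7 := ENNReal.toReal_mono (ENNReal.add_ne_top.2 ⟨hf2, ENNReal.ofReal_ne_top⟩) h5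
  have h8 : 0 ≤ ε / Real.sqrt n := by positivity
  rw [ENNReal.toReal_add hf2 ENNReal.ofReal_ne_top, ENNReal.toReal_ofReal h8] at h7
  rw [abs_le]
  constructor <;> linarith

theorem mm_llt_above (F : Law) {κ Bt r : ℝ} (hB : 0 < Bt) (hr : 0 < r) {K : Ker}
    (hK : ∀ cap : ℕ, Above F κ Bt r cap K)
    {σ : List ((ℕ → ℕ) × (ℕ → ℤ))} {S : List (ℝ × ℝ)} {ν L : ℕ → ℕ} {x y : ℕ → ℤ}
    {s T u v : ℝ} (hν : Tendsto ν atTop atTop)
    (hL : Tendsto (fun k => (L k : ℝ) / ν k) atTop (nhds (T - s)))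
    (hx : Tendsto (fun k => (x k : ℝ) / Real.sqrt (ν k)) atTop (nhds u)) (hu : 0 < u)
    (hy : Tendsto (fun k => (y k : ℝ) / Real.sqrt (ν k)) atTop (nhds v)) (hv : 0 < v)
    (hσ : List.Forall₂ (fun q Q => Tendsto (fun k => (q.1 k : ℝ) / ν k) atTop (nhds (Q.1 - s)) ∧
      Tendsto (fun k => (q.2 k : ℝ) / Real.sqrt (ν k)) atTop (nhds Q.2)) σ S) (hS : Inc3 s S T) :
    Tendsto (fun k => Real.sqrt (ν k) *
      (Mm K (σ.map fun q => (q.1 k, q.2 k)) (L k) (x k) (y k)).toReal) atTop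
        (nhds (Ik (s2 F) T v s S u / mu F)) := by
  have hmain := mm_llt F hν hL hx hu hy hv hσ hS
  have hτ : 0 < T - s := sub_pos.2 (inc3_lt_m5 hS)
  set τ := T - s with hτdef
  have hsτ : 0 < Real.sqrt τ := Real.sqrt_pos.2 hτ
  have hνR : Tendsto (fun k => (ν k : ℝ)) atTop atTop := tendsto_natCast_atTop_iff.2 hν
  have hνpos : ∀ᶠ k in atTop, (0 : ℝ) < ν k := hνR.eventually_gt_atTop 0
  have hLR : Tendsto (fun k => (L k : ℝ)) atTop atTop := by
    refine (hL.pos_mul_atTop hτ hνR).congr' ?_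
    filter_upwards [hνpos] with k hk
    field_simp
  have hLN : Tendsto L atTop atTop := tendsto_natCast_atTop_iff.1 hLR
  have hLpos : ∀ᶠ k in atTop, (0 : ℝ) < L k := hLR.eventually_gt_atTop 0
  have hsL : Tendsto (fun k => Real.sqrt (L k) / Real.sqrt (ν k)) atTop (nhds (Real.sqrt τ)) := by
    have h1 := (Real.continuous_sqrt.tendsto τ).comp hL
    refine h1.congr fun k => ?_
    simp only [Function.comp_apply]
    rw [Real.sqrt_div (Nat.cast_nonneg _)]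
  have hdiv : ∀ {w : ℕ → ℤ} {t : ℝ}, Tendsto (fun k => (w k : ℝ) / Real.sqrt (ν k)) atTop (nhds t) →
      Tendsto (fun k => (w k : ℝ) / Real.sqrt (L k)) atTop (nhds (t / Real.sqrt τ)) := by
    intro w t hw
    refine (hw.div hsL hsτ.ne').congr' ?_
    filter_upwards [hνpos, hLpos] with k hk hk'
    have h1 := Real.sqrt_pos.2 hk
    have h2 := Real.sqrt_pos.2 hk'
    simp only [Pi.div_apply]
    field_simp
  have hx' := hdiv hx
  have hy' := hdiv hy
  have hu' : 0 < u / Real.sqrt τ := by positivity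
  have hv' : 0 < v / Real.sqrt τ := by positivity
  have hdiff : Tendsto (fun k => Real.sqrt (ν k) *
      (Mm K (σ.map fun q => (q.1 k, q.2 k)) (L k) (x k) (y k)).toReal - Real.sqrt (ν k) *
      (Mm (Kp F) (σ.map fun q => (q.1 k, q.2 k)) (L k) (x k) (y k)).toReal) atTop (nhds 0) := by
    rw [Metric.tendsto_atTop']
    intro δ hδ
    -- the choice of ε
    obtain ⟨ε, hε0, hε1, hε2, hε3, hε4, hε5⟩ : ∃ ε : ℝ, 0 < ε ∧ ε < u / Real.sqrt τ ∧ ε < v / Real.sqrt τ ∧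
        u / Real.sqrt τ < 1 / ε ∧ v / Real.sqrt τ < 1 / ε ∧ ε / Real.sqrt τ < δ := by
      have hm : 0 < min (min (min (u / Real.sqrt τ) (v / Real.sqrt τ))
          (min (1 / (u / Real.sqrt τ)) (1 / (v / Real.sqrt τ)))) (δ * Real.sqrt τ) := by positivity
      obtain ⟨ε, h1, h2⟩ := exists_between hm
      rw [lt_min_iff, lt_min_iff, lt_min_iff, lt_min_iff] at h2
      obtain ⟨⟨⟨h3, h4⟩, h5, h6⟩, h7⟩ := h2
      refine ⟨ε, h1, h3, h4, ?_, ?_, ?_⟩
      · rwa [lt_div_iff₀ h1, mul_comm, ← lt_div_iff₀ hu']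
      · rwa [lt_div_iff₀ h1, mul_comm, ← lt_div_iff₀ hv']
      · rwa [div_lt_iff₀ hsτ]
    obtain ⟨n₀, hn₀⟩ := mm_sub_m5 F hB hr hK hε0
    have hfin : Tendsto (fun k => ε / (Real.sqrt (L k) / Real.sqrt (ν k))) atTop
        (nhds (ε / Real.sqrt τ)) := tendsto_const_nhds.div hsL hsτ.ne'
    have hev : ∀ᶠ k in atTop, dist (Real.sqrt (ν k) *
      (Mm K (σ.map fun q => (q.1 k, q.2 k)) (L k) (x k) (y k)).toReal - Real.sqrt (ν k) *
      (Mm (Kp F) (σ.map fun q => (q.1 k, q.2 k)) (L k) (x k) (y k)).toReal) 0 < δ := by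
      filter_upwards [hνpos, hLpos, hLN.eventually_ge_atTop n₀, hfin.eventually_lt_const hε5,
        hx'.eventually_const_lt hε1, hx'.eventually_lt_const hε3, hy'.eventually_const_lt hε2,
        hy'.eventually_lt_const hε4] with k h1 h2 h3 h4 h5 h6 h7 h8
      have hsν := Real.sqrt_pos.2 h1
      have hsLk := Real.sqrt_pos.2 h2
      have h9 := hn₀ (L k) h3 (σ.map fun q => (q.1 k, q.2 k)) (x k) (y k)
        ((lt_div_iff₀ hsLk).1 h5).le
        (by
          have := ((div_lt_iff₀ hsLk).1 h6).le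
          rwa [one_div_mul_eq_div] at this)
        ((lt_div_iff₀ hsLk).1 h7).le
        (by
          have := ((div_lt_iff₀ hsLk).1 h8).le
          rwa [one_div_mul_eq_div] at this)
      rw [dist_zero_right, Real.norm_eq_abs, ← mul_sub, abs_mul, abs_of_pos hsν]
      refine lt_of_le_of_lt (mul_le_mul_of_nonneg_left h9 hsν.le) (lt_of_eq_of_lt ?_ h4)
      field_simp
    obtain ⟨N, hN⟩ := eventually_atTop.1 hev
    exact ⟨N, fun n hn => hN n hn.le⟩
  have := hdiff.add hmain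
  rw [zero_add] at this
  refine this.congr fun k => ?_
  ring

end Pool.Agent.Helper18.WK
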