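import Pool.Agent.Helper49.OZ.Chain
import Pool.Agent.Helper18.WK.LstC

/-!
# Project WK, block WK-Q1
-/

open scoped ENNReal Classical

namespace Pool.Agent.Helper18.WK

theorem len_eq (c : Ch) : Pool.Agent.Helper49.OZ.len c = cl c := by
  induction c with
  | nil => rfl
  | cons q c ih =>
    show q.1 + Pool.Agent.Helper49.OZ.len c = q.1 + cl c
    rw [ih]

theorem fin_eq (x : ℤ) (c : Ch) : Pool.Agent.Helper49.OZ.fin x c = ce x c := by
  induction c generalizing x with
  | nil => rfl
  | cons q c ih => exact ih q.2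

theorem wt_eq (K : Ker) (x : ℤ) (c : Ch) : Pool.Agent.Helper49.OZ.wt K x c = cw K x c := by
  induction c generalizing x with
  | nil => rfl
  | cons q c ih =>
    show K x q.1 q.2 * Pool.Agent.Helper49.OZ.wt K q.2 c = K x q.1 q.2 * cw K q.2 c
    rw [ih]

private theorem cw_zero18 (K : Ker) (hK : ∀ x z, K x 0 z = 0) (x : ℤ) (c : Ch) (h : ¬ ∀ p ∈ c, 1 ≤ p.1) :
    cw K x c = 0 := by
  induction c generalizing x with
  | nil => simp at h
  | cons q c ih =>
    show K x q.1 q.2 * cw K q.2 c = 0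
    by_cases h0 : q.1 = 0
    · rw [h0, hK, zero_mul]
    · rw [ih q.2, mul_zero]
      intro h1
      apply h
      intro p hp
      rcases List.mem_cons.1 hp with h2 | h2
      · rw [h2]
        omega
      · exact h1 p h2

theorem csum_eq (K : Ker) (hK : ∀ x z, K x 0 z = 0) (m : ℕ) (x y : ℤ) (Φ : Ch → ℝ≥0∞) :
    Pool.Agent.Helper49.OZ.csum K m x y Φ = Sc K m x y Φ := by
  unfold Pool.Agent.Helper49.OZ.csum Sc
  refine tsum_congr fun c => ?_
  rw [len_eq, fin_eq, wt_eq]
  by_cases h : ∀ p ∈ c, 1 ≤ p.1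
  · by_cases h2 : cl c = m ∧ ce x c = y
    · rw [if_pos ⟨h, h2.1, h2.2⟩, if_pos h2]
    · rw [if_neg (fun h3 => h2 h3.2), if_neg h2]
  · rw [if_neg (fun h3 => h h3.1), cw_zero18 K hK x c h, zero_mul, ite_self]

private theorem hgt_neg18 (x : ℤ) (c : Ch) {t : ℝ} (ht : t ≤ 0) : Pool.Agent.Helper49.OZ.hgt x c t = x := by
  induction c generalizing x t with
  | nil => rfl
  | cons q c ih =>
    show Pool.Agent.Helper49.OZ.hgt q.2 c (t - q.1) + ((x : ℝ) - q.2) * max 0 (min 1 (1 - t / q.1)) = x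
    have h0 : (0 : ℝ) ≤ (q.1 : ℝ) := Nat.cast_nonneg _
    rw [ih q.2 (by linarith)]
    have h1 : t / (q.1 : ℝ) ≤ 0 := div_nonpos_of_nonpos_of_nonneg ht h0
    rw [min_eq_left (by linarith), max_eq_right zero_le_one]
    ring

theorem hgt_cut (x : ℤ) (c : Ch) (w : ℕ) (h1 : ∀ q ∈ c, 1 ≤ q.1 ∧ q.1 ≤ w) (t : ℝ) :
    ∃ c₁ c₂ d₁ d₂ : Ch, c = c₁ ++ c₂ ∧ c = d₁ ++ d₂ ∧
      |max 0 (min (cl c : ℝ) t) - cl c₁| ≤ w ∧ |max 0 (min (cl c : ℝ) t) - cl d₁| ≤ w ∧
      (ce x c₁ : ℝ) ≤ Pool.Agent.Helper49.OZ.hgt x c t ∧ Pool.Agent.Helper49.OZ.hgt x c t ≤ ce x d₁ := by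
  rcases le_total t 0 with ht | ht
  · refine ⟨[], c, [], c, rfl, rfl, ?_, ?_, ?_, ?_⟩
    · have h2 : max 0 (min (cl c : ℝ) t) = 0 := max_eq_left ((min_le_right _ _).trans ht)
      rw [h2]
      simp [cl]
    · have h2 : max 0 (min (cl c : ℝ) t) = 0 := max_eq_left ((min_le_right _ _).trans ht)
      rw [h2]
      simp [cl]
    · rw [hgt_neg18 x c ht]
      exact le_rfl
    · rw [hgt_neg18 x c ht]
      exact le_rfl
  · induction c generalizing x t with
    | nil =>
      refine ⟨[], [], [], [], rfl, rfl, ?_, ?_, le_rfl, le_rfl⟩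
      · have h2 : max 0 (min (cl ([] : Ch) : ℝ) t) = 0 := by
          refine max_eq_left ((min_le_left _ _).trans ?_)
          simp [cl]
        rw [h2]
        simp [cl]
      · have h2 : max 0 (min (cl ([] : Ch) : ℝ) t) = 0 := by
          refine max_eq_left ((min_le_left _ _).trans ?_)
          simp [cl]
        rw [h2]
        simp [cl]
    | cons q c ih =>
      have hq := h1 q List.mem_cons_self
      have hq1 : (1 : ℝ) ≤ q.1 := by exact_mod_cast hq.1
      have hq2 : (q.1 : ℝ) ≤ w := by exact_mod_cast hq.2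
      have hcl : (cl (q :: c) : ℝ) = q.1 + cl c := by
        show ((q.1 + cl c : ℕ) : ℝ) = _
        push_cast
        ring
      have hcl0 : (0 : ℝ) ≤ cl c := Nat.cast_nonneg _
      have hdef : Pool.Agent.Helper49.OZ.hgt x (q :: c) t = Pool.Agent.Helper49.OZ.hgt q.2 c (t - q.1) +
          ((x : ℝ) - q.2) * max 0 (min 1 (1 - t / q.1)) := rfl
      rcases le_total t q.1 with htq | htq
      · have h3 : Pool.Agent.Helper49.OZ.hgt q.2 c (t - q.1) = q.2 := hgt_neg18 q.2 c (by linarith)
        have h4 : 0 ≤ t / (q.1 : ℝ) := div_nonneg ht (by linarith)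
        have h5 : t / (q.1 : ℝ) ≤ 1 := by
          rw [div_le_one (by linarith)]
          exact htq
        have h6 : max 0 (min 1 (1 - t / (q.1 : ℝ))) = 1 - t / q.1 := by
          rw [min_eq_right (by linarith), max_eq_right (by linarith)]
        have h7 : Pool.Agent.Helper49.OZ.hgt x (q :: c) t = q.2 + ((x : ℝ) - q.2) * (1 - t / q.1) := by
          rw [hdef, h3, h6]
        have h8 : max 0 (min (cl (q :: c) : ℝ) t) = t := by
          rw [hcl, min_eq_right (by linarith), max_eq_right ht]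
        have hd0 : |t - ((cl ([] : Ch) : ℕ) : ℝ)| ≤ w := by
          show |t - ((0 : ℕ) : ℝ)| ≤ w
          rw [Nat.cast_zero, sub_zero, abs_of_nonneg ht]
          linarith
        have hd1 : |t - ((cl ([q] : Ch) : ℕ) : ℝ)| ≤ w := by
          show |t - ((q.1 + 0 : ℕ) : ℝ)| ≤ w
          rw [Nat.add_zero, abs_le]
          constructor <;> linarith
        rw [h7, h8]
        set s := 1 - t / (q.1 : ℝ) with hs
        have hs0 : 0 ≤ s := by linarith
        have hs1 : s ≤ 1 := by linarith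
        rcases le_total (x : ℝ) (q.2 : ℝ) with hx | hx
        · refine ⟨[], q :: c, [q], c, rfl, rfl, hd0, hd1, ?_, ?_⟩
          · show (x : ℝ) ≤ q.2 + ((x : ℝ) - q.2) * s
            nlinarith
          · show (q.2 : ℝ) + ((x : ℝ) - q.2) * s ≤ (q.2 : ℝ)
            nlinarith
        · refine ⟨[q], c, [], q :: c, rfl, rfl, hd1, hd0, ?_, ?_⟩
          · show (q.2 : ℝ) ≤ q.2 + ((x : ℝ) - q.2) * s
            nlinarith
          · show (q.2 : ℝ) + ((x : ℝ) - q.2) * s ≤ (x : ℝ)
            nlinarith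
      · obtain ⟨c₁, c₂, d₁, d₂, e1, e2, e3, e4, e5, e6⟩ :=
          ih q.2 (fun p hp => h1 p (List.mem_cons_of_mem _ hp)) (t - q.1) (by linarith)
        have h6 : max 0 (min 1 (1 - t / (q.1 : ℝ))) = 0 := by
          have : 1 ≤ t / (q.1 : ℝ) := by
            rw [le_div_iff₀ (by linarith)]
            linarith
          exact max_eq_left ((min_le_right _ _).trans (by linarith))
        have h7 : Pool.Agent.Helper49.OZ.hgt x (q :: c) t = Pool.Agent.Helper49.OZ.hgt q.2 c (t - q.1) := by
          rw [hdef, h6, mul_zero, add_zero]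
        have h8 : max 0 (min (cl (q :: c) : ℝ) t) = max 0 (min (cl c : ℝ) (t - q.1)) + q.1 := by
          rw [hcl]
          rcases le_total (q.1 + (cl c : ℝ)) t with h9 | h9
          · rw [min_eq_left h9, min_eq_left (by linarith), max_eq_right (by linarith), max_eq_right hcl0]
            ring
          · rw [min_eq_right h9, min_eq_right (by linarith), max_eq_right ht, max_eq_right (by linarith)]
            ring
        have hc : ∀ e : Ch, ((cl (q :: e) : ℕ) : ℝ) = q.1 + cl e := by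
          intro e
          show ((q.1 + cl e : ℕ) : ℝ) = _
          push_cast
          ring
        refine ⟨q :: c₁, c₂, q :: d₁, d₂, by rw [e1]; rfl, by rw [e2]; rfl, ?_, ?_, ?_, ?_⟩
        · rw [h8, hc]
          have : max 0 (min (cl c : ℝ) (t - q.1)) + q.1 - (q.1 + (cl c₁ : ℝ)) =
              max 0 (min (cl c : ℝ) (t - q.1)) - cl c₁ := by ring
          rw [this]
          exact e3
        · rw [h8, hc]
          have : max 0 (min (cl c : ℝ) (t - q.1)) + q.1 - (q.1 + (cl d₁ : ℝ)) =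
              max 0 (min (cl c : ℝ) (t - q.1)) - cl d₁ := by ring
          rw [this]
          exact e4
        · rw [h7]
          exact e5
        · rw [h7]
          exact e6

end Pool.Agent.Helper18.WK
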