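import Pool.Agent.Helper49.OZ.Chain
import Pool.Agent.Helper18.WK.PthA
import Pool.Agent.Helper18.WK.LstC

/-!
# Project WK, blocks WK-Q1, WK-Q2: the interpolated path of a chain (deterministic)

WK-Q1. `len_eq`, `fin_eq`, `wt_eq`: inductions. `csum_eq`: a chain with a piece of length `0` has weight `0`.
`hgt_cut`: induction on `c`: for `t ≤ 0` the value is `x`; for `0 ≤ t ≤ q.1` it is between `x` and `q.2` (cuts at the
positions `0` and `q.1`); for `t ≥ q.1` it is `hgt q.2 c (t - q.1)`.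

WK-Q2, `mod_det`: assume `hgt t' ≤ hgt t`; take a cut of height `≥ hgt t` near `t` and a cut of height `≤ hgt t'` near
`t'` (`hgt_cut`): their positions differ by at most `|t - t'| + 2 w ≤ E`. One of them is earlier; if it is at a position
`≥ D` and the later one is at a distance `≥ D` from the end: the last property of `Good3`. Otherwise both are at
positions `≤ D + E ≤ 2 D` (or both at distances `≤ 2 D` from the end): both heights are in `[1, H)`.
`hgt_near`: the same with the first cut at a position `≥ j`, which is at a position `≤ j + w`.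
-/

open scoped ENNReal Classical

namespace Pool.Agent.Helper18.WK

/-- No large height near the ends, no large oscillation in the middle. -/
def Good3 (D E H : ℝ) (x : ℤ) (c : Ch) : Prop :=
  (∀ c₁ c₂ : Ch, c = c₁ ++ c₂ → 1 ≤ ce x c₁) ∧
  (∀ c₁ c₂ : Ch, c = c₁ ++ c₂ → (cl c₁ : ℝ) ≤ 2 * D → (ce x c₁ : ℝ) < H) ∧
  (∀ c₁ c₂ : Ch, c = c₁ ++ c₂ → (cl c₂ : ℝ) ≤ 2 * D → (ce x c₁ : ℝ) < H) ∧
  (∀ c₁ c₂ c₃ : Ch, c = c₁ ++ (c₂ ++ c₃) → D ≤ cl c₁ → D ≤ cl c₃ → (cl c₂ : ℝ) ≤ E →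
    |((ce (ce x c₁) c₂ : ℤ) : ℝ) - ce x c₁| < H)

/-- Two nested cuts at a distance at most `E`. -/
private theorem cuts_aux99 {D E H : ℝ} {x : ℤ} {c : Ch} (hG : Good3 D E H x c) (hED : E ≤ D) {a e b : Ch}
    (hc : c = a ++ (e ++ b)) (he : (cl e : ℝ) ≤ E) : |((ce x (a ++ e) : ℤ) : ℝ) - ce x a| ≤ H := by
  obtain ⟨g1, g2, g3, g4⟩ := hG
  have hc' : c = (a ++ e) ++ b := by rw [hc, List.append_assoc]
  have ha0 : (0 : ℝ) ≤ cl a := Nat.cast_nonneg _
  have hb0 : (0 : ℝ) ≤ cl b := Nat.cast_nonneg _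
  have he0 : (0 : ℝ) ≤ cl e := Nat.cast_nonneg _
  have hae : ((cl (a ++ e) : ℕ) : ℝ) = cl a + cl e := by rw [cl_append]; push_cast; ring
  have heb : ((cl (e ++ b) : ℕ) : ℝ) = cl e + cl b := by rw [cl_append]; push_cast; ring
  have k1 : (1 : ℝ) ≤ ce x a := by exact_mod_cast g1 _ _ hc
  have k2 : (1 : ℝ) ≤ ce x (a ++ e) := by exact_mod_cast g1 _ _ hc'
  rcases lt_or_ge (cl a : ℝ) D with h1 | h1
  · have k3 := g2 _ _ hc (by linarith)
    have k4 := g2 _ _ hc' (by rw [hae]; linarith)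
    rw [abs_le]
    constructor <;> linarith
  · rcases lt_or_ge (cl b : ℝ) D with h2 | h2
    · have k3 := g3 _ _ hc (by rw [heb]; linarith)
      have k4 := g3 _ _ hc' (by linarith)
      rw [abs_le]
      constructor <;> linarith
    · have k3 := g4 _ _ _ hc h1 h2 he
      rw [← ce_append] at k3
      exact k3.le

/-- Two cuts at a distance at most `E`. -/
private theorem cuts99 {D E H : ℝ} {x : ℤ} {c : Ch} (hG : Good3 D E H x c) (hED : E ≤ D) {a₁ a₂ b₁ b₂ : Ch}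
    (ha : c = a₁ ++ a₂) (hb : c = b₁ ++ b₂) (he : |(cl a₁ : ℝ) - cl b₁| ≤ E) :
    |((ce x a₁ : ℤ) : ℝ) - ce x b₁| ≤ H := by
  have h := ha.symm.trans hb
  rw [List.append_eq_append_iff] at h
  rcases h with ⟨e, h1, h2⟩ | ⟨e, h1, h2⟩
  · rw [h1, abs_sub_comm]
    refine cuts_aux99 hG hED (b := b₂) (by rw [← h2]; exact ha) ?_
    rw [h1, cl_append] at he
    push_cast at he
    rw [abs_le] at he
    linarith
  · rw [h1]
    refine cuts_aux99 hG hED (b := a₂) (by rw [← h2]; exact hb) ?_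
    rw [h1, cl_append] at he
    push_cast at he
    rw [abs_le] at he
    linarith

private theorem clamp99 (L t t' : ℝ) (_hL : 0 ≤ L) : |max 0 (min L t) - max 0 (min L t')| ≤ |t - t'| := by
  have h1 := abs_max_sub_max_le_abs (min L t) (min L t') 0
  have h2 := abs_min_sub_min_le_max L t L t'
  rw [sub_self, abs_zero, max_eq_right (abs_nonneg _)] at h2
  rw [max_comm 0, max_comm 0]
  exact h1.trans h2

theorem mod_det {D E H : ℝ} {x : ℤ} {c : Ch} {w : ℕ} (h1 : ∀ q ∈ c, 1 ≤ q.1 ∧ q.1 ≤ w) (hG : Good3 D E H x c)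
    (hED : E ≤ D) {t t' : ℝ} (htt : |t - t'| + 2 * w ≤ E) :
    |Pool.Agent.Helper49.OZ.hgt x c t - Pool.Agent.Helper49.OZ.hgt x c t'| ≤ H := by
  obtain ⟨a₁, a₂, b₁, b₂, ha, hb, pa, pb, va, vb⟩ := hgt_cut x c w h1 t
  obtain ⟨a₁', a₂', b₁', b₂', ha', hb', pa', pb', va', vb'⟩ := hgt_cut x c w h1 t'
  have hcl := clamp99 (cl c) t t' (Nat.cast_nonneg _)
  rw [abs_le] at pa pb pa' pb' hcl
  have k1 := cuts99 hG hED hb ha' (by rw [abs_le]; constructor <;> linarith)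
  have k2 := cuts99 hG hED hb' ha (by rw [abs_le]; constructor <;> linarith)
  rw [abs_le] at k1 k2 ⊢
  constructor <;> linarith

private theorem first99 {w : ℕ} (c : Ch) : ∀ (x : ℤ) (j : ℕ), (∀ q ∈ c, q.1 ≤ w) → j ≤ cl c →
    ∃ a₁ a₂ : Ch, c = a₁ ++ a₂ ∧ j ≤ cl a₁ ∧ cl a₁ ≤ j + w ∧ ce x a₁ = hgt j x c := by
  induction c with
  | nil =>
    intro x j _ hj
    have h0 : j = 0 := Nat.le_zero.1 hj
    refine ⟨[], [], rfl, hj, Nat.zero_le _, ?_⟩
    rw [h0, hgt_zero31]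
    rfl
  | cons q c ih =>
    intro x j hw hj
    have hcl : cl (q :: c) = q.1 + cl c := rfl
    have hq : q.1 ≤ w := hw q List.mem_cons_self
    by_cases hj0 : j = 0
    · refine ⟨[], q :: c, rfl, by omega, Nat.zero_le _, ?_⟩
      rw [hj0, hgt_zero31]
      rfl
    · have hh : hgt j x (q :: c) = hgt (j - q.1) q.2 c := if_neg hj0
      rcases Nat.lt_or_ge q.1 j with h | h
      · obtain ⟨a₁, a₂, e1, e2, e3, e4⟩ := ih q.2 (j - q.1) (fun p hp => hw p (List.mem_cons_of_mem _ hp)) (by omega)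
        have hcl' : cl (q :: a₁) = q.1 + cl a₁ := rfl
        refine ⟨q :: a₁, a₂, by rw [e1, List.cons_append], by omega, by omega, ?_⟩
        rw [hh, ← e4]
        rfl
      · have hcl' : cl [q] = q.1 := rfl
        refine ⟨[q], c, rfl, by omega, by omega, ?_⟩
        have e5 : j - q.1 = 0 := by omega
        rw [hh, e5, hgt_zero31]
        rfl

theorem hgt_near {D E H : ℝ} {x : ℤ} {c : Ch} {w : ℕ} (h1 : ∀ q ∈ c, 1 ≤ q.1 ∧ q.1 ≤ w) (hG : Good3 D E H x c)
    (hED : E ≤ D) {t : ℝ} {j : ℕ} (hj : j ≤ cl c) (htj : |t - j| + 2 * w ≤ E) :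
    |Pool.Agent.Helper49.OZ.hgt x c t - (hgt j x c : ℤ)| ≤ H := by
  obtain ⟨a₁, a₂, b₁, b₂, ha, hb, pa, pb, va, vb⟩ := hgt_cut x c w h1 t
  obtain ⟨e₁, e₂, he, q1, q2, q3⟩ := first99 c x j (fun q hq => (h1 q hq).2) hj
  have hcl := clamp99 (cl c) t j (Nat.cast_nonneg _)
  have hj0 : max 0 (min (cl c : ℝ) (j : ℝ)) = j := by
    rw [min_eq_right (by exact_mod_cast hj), max_eq_right (Nat.cast_nonneg _)]
  rw [hj0] at hcl
  have q1' : (j : ℝ) ≤ cl e₁ := by exact_mod_cast q1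
  have q2' : (cl e₁ : ℝ) ≤ j + w := by exact_mod_cast q2
  rw [abs_le] at pa pb hcl
  have k1 := cuts99 hG hED hb he (by rw [abs_le]; constructor <;> linarith)
  have k2 := cuts99 hG hED he ha (by rw [abs_le]; constructor <;> linarith)
  rw [q3] at k1 k2
  rw [abs_le] at k1 k2 ⊢
  constructor <;> linarith

end Pool.Agent.Helper18.WK
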