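import Pool.Agent.Helper18.WK.PathA
import Pool.Agent.Helper18.WK.Pth
import Pool.Agent.Helper18.WK.Fdd
import Pool.Agent.Helper18.WK.FeC

/-!
# Project WK, blocks WK-R1 .. WK-R3: modulus of continuity and finite dimensional distributions of the path

WK-R1, `path_good`: `m` between `n` and `3 n` for large `n`. `Sc K ≤ Sc (Kp F)` (`sc_mono`), `above_low`:
`G K m x y ≥ c / (m √m)`. Chains with a piece of length `0` or a height `≤ 0` have weight `0`. The complement of the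
event is covered by: a piece with `q.1^4 > n` (`long_small` with `w = ⌊n^(1/4)⌋ + 1`), `end_left`, `end_right`
(`ε / 2`, they give `d`: `2 d n ≤ d' m`), `mid_osc` with `d / 3`, `ε / 2` (it gives `η`, take `η ≤ d`).

WK-R2, `path_mod`: `path_good`, `mod_det` with `t = n (s + 1) - u`, `δ = η / 2`, `w = ⌊n^(1/4)⌋`, `n δ + 2 w ≤ η n`.

WK-R3, `path_fdd` (proved in PathC.lean): for `e > 0`, on the event of `path_good` (`ε = e`, small probability): `|path (s i) - hgt (τ i) / √ν| ≤ e`,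
`τ i = ⌈ν (1 + s i) - u⌉` (`hgt_near`). So the event is between `{∀ i, ⌈(b i + e) √ν⌉ ≤ hgt (τ i)}` and
`{∀ i, ⌈(b i - e) √ν⌉ ≤ hgt (τ i)}`, up to that small probability; these are `Mm`, `fdd_seq`; let `e → 0` (`fe_cont` of
FeC.lean).
-/

open scoped ENNReal Classical
open Set Filter

namespace Pool.Agent.Helper18.WK

open Pool.Agent.Helper49.RD (Fe ind)
open Pool.Agent.Helper49.OZ (cpath)
open Pool.Agent.Helper49.FL (TI)

theorem path_mod (F : Law) {κ Bt r : ℝ} (hκ : 0 < κ) (hB : 0 < Bt) (hr : 0 < r) {K : Ker}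
    (hK : ∀ cap : ℕ, Above F κ Bt r cap K) (U : ℕ) {ε t : ℝ} (hε : 0 < ε) (ht : 0 < t) :
    ∃ (δ : ℝ) (n₀ : ℕ), 0 < δ ∧ ∀ n ≥ n₀, ∀ (m : ℕ) (u x y : ℤ), |(m : ℝ) - 2 * n| ≤ U →
      1 ≤ x → x ≤ U → 1 ≤ y → y ≤ U →
        Sc K m x y (fun c => if ∃ s s' : TI, |(s : ℝ) - s'| ≤ δ ∧ ε < |cpath n u x c s - cpath n u x c s'|
          then 1 else 0) ≤ ENNReal.ofReal t * G K m x y := by
  obtain ⟨d, η, n₀, hη, hηd, hgood⟩ := path_good F hκ hB hr hK U hε ht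
  refine ⟨η / 2, max n₀ (⌈16 / η ^ 2⌉₊ + 1), by positivity, fun n hn m u x y hm hx hxU hy hyU => ?_⟩
  have hn0 : n₀ ≤ n := (le_max_left _ _).trans hn
  have hn1 : ⌈16 / η ^ 2⌉₊ + 1 ≤ n := (le_max_right _ _).trans hn
  have hnpos : (0 : ℝ) < n := by
    have : 0 < n := by omega
    exact_mod_cast this
  have hnη : 16 / η ^ 2 ≤ (n : ℝ) := by
    refine (Nat.le_ceil _).trans ?_
    exact_mod_cast (by omega : ⌈16 / η ^ 2⌉₊ ≤ n)
  refine le_trans (sc_mono (fun _ _ _ => le_rfl) (fun c => ?_) m x y) (hgood n hn0 m x y hm hx hxU hy hyU)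
  by_cases hG : (∀ q ∈ c, 1 ≤ q.1 ∧ (q.1 : ℝ) ^ 4 ≤ n) ∧ Good3 (d * n) (η * n) (ε * Real.sqrt n) x c
  · rw [if_pos hG, if_neg]
    rintro ⟨s, s', hss, hlt⟩
    obtain ⟨w, hw⟩ : ∃ w : ℕ, w = Nat.sqrt (Nat.sqrt n) := ⟨_, rfl⟩
    have hw1 : ∀ q ∈ c, 1 ≤ q.1 ∧ q.1 ≤ w := by
      intro q hq
      refine ⟨(hG.1 q hq).1, ?_⟩
      rw [hw, Nat.le_sqrt, Nat.le_sqrt]
      have h1 : q.1 ^ 4 ≤ n := by exact_mod_cast (hG.1 q hq).2
      calc q.1 * q.1 * (q.1 * q.1) = q.1 ^ 4 := by ring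
        _ ≤ n := h1
    have hw2 : w * w ≤ n := by
      have h1 : w ≤ Nat.sqrt n := by rw [hw]; exact Nat.sqrt_le_self _
      exact (Nat.mul_le_mul h1 h1).trans (Nat.sqrt_le n)
    have hw3 : 4 * (w : ℝ) ≤ η * n := by
      have h1 : (w : ℝ) * w ≤ n := by exact_mod_cast hw2
      have h2 : 16 ≤ η ^ 2 * n := by
        rw [div_le_iff₀ (by positivity)] at hnη
        linarith
      have h3 : (4 * (w : ℝ)) ^ 2 ≤ (η * n) ^ 2 := by
        have h4 : (16 : ℝ) * n ≤ η ^ 2 * n * n := mul_le_mul_of_nonneg_right h2 hnpos.le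
        calc (4 * (w : ℝ)) ^ 2 = 16 * (w * w) := by ring
          _ ≤ 16 * n := by linarith
          _ ≤ η ^ 2 * n * n := h4
          _ = (η * n) ^ 2 := by ring
      exact (pow_le_pow_iff_left₀ (by positivity) (by positivity) two_ne_zero).1 h3
    have htt : |((n : ℝ) * ((s : ℝ) + 1) - u) - ((n : ℝ) * ((s' : ℝ) + 1) - u)| + 2 * (w : ℝ) ≤ η * n := by
      have h1 : ((n : ℝ) * ((s : ℝ) + 1) - u) - ((n : ℝ) * ((s' : ℝ) + 1) - u) = n * ((s : ℝ) - s') := by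
        ring
      rw [h1, abs_mul, abs_of_pos hnpos]
      have h2 : (n : ℝ) * |(s : ℝ) - s'| ≤ n * (η / 2) := mul_le_mul_of_nonneg_left hss hnpos.le
      linarith
    have hmod := mod_det hw1 hG.2 (mul_le_mul_of_nonneg_right hηd hnpos.le) htt
    have hsq : 0 < Real.sqrt n := Real.sqrt_pos.2 hnpos
    have hc1 : cpath n u x c s - cpath n u x c s' =
        (Pool.Agent.Helper49.OZ.hgt x c ((n : ℝ) * ((s : ℝ) + 1) - u) -
          Pool.Agent.Helper49.OZ.hgt x c ((n : ℝ) * ((s' : ℝ) + 1) - u)) / Real.sqrt n := by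
      rw [sub_div]
      rfl
    rw [hc1, abs_div, abs_of_pos hsq, lt_div_iff₀ hsq] at hlt
    linarith
  · rw [if_neg hG]
    split_ifs <;> simp

end Pool.Agent.Helper18.WK
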