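import Pool.Agent.Helper18.WK.Pth
import Pool.Agent.Helper18.WK.Ends

/-!
# Project WK, block WK-R1: the paths without bad events

`Sc K m x y (bad) ≤ Sc (Kp F) m x y (bad)`, union bound (`long_small`, `end_left`, `end_right`, `mid_osc`), and the lower
bound `above_low` for `G K m x y`.
-/

open scoped ENNReal Classical
open Set Filter

namespace Pool.Agent.Helper18.WK

private theorem h80_sc_add (K : Ker) (n : ℕ) (x y : ℤ) (Φ Ψ : Ch → ℝ≥0∞) :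
    Sc K n x y (fun c => Φ c + Ψ c) = Sc K n x y Φ + Sc K n x y Ψ := by
  unfold Sc
  rw [← ENNReal.tsum_add]
  refine tsum_congr fun c => ?_
  split_ifs
  · rw [mul_add]
  · rw [add_zero]

private theorem h80_sc_le (K : Ker) (n : ℕ) (x y : ℤ) {Φ Ψ : Ch → ℝ≥0∞}
    (h : ∀ c, cw K x c ≠ 0 → Φ c ≤ Ψ c) : Sc K n x y Φ ≤ Sc K n x y Ψ := by
  unfold Sc
  refine ENNReal.tsum_le_tsum fun c => ?_
  split_ifs
  · by_cases h0 : cw K x c = 0
    · rw [h0, zero_mul, zero_mul]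
    · exact mul_le_mul_right (h c h0) _
  · exact le_rfl

private theorem h80_len (F : Law) (c : Ch) : ∀ x : ℤ, cw (Kp F) x c ≠ 0 → ∀ q ∈ c, 1 ≤ q.1 := by
  induction c with
  | nil => intro x _ q hq; simp at hq
  | cons p c ih =>
    intro x h q hq
    have h1 : Kp F x p.1 p.2 * cw (Kp F) p.2 c ≠ 0 := h
    rcases List.mem_cons.1 hq with rfl | hq
    · by_contra h2
      have h3 : q.1 = 0 := by omega
      apply left_ne_zero_of_mul h1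
      unfold Kp
      rw [h3, F.f_zero, ENNReal.ofReal_zero, ite_self]
    · exact ih p.2 (right_ne_zero_of_mul h1) q hq

private theorem h80_pos (F : Law) (c : Ch) : ∀ x : ℤ, 1 ≤ x → cw (Kp F) x c ≠ 0 → 1 ≤ ce x c := by
  induction c with
  | nil => intro x hx _; exact hx
  | cons p c ih =>
    intro x hx h
    have h1 : Kp F x p.1 p.2 * cw (Kp F) p.2 c ≠ 0 := h
    refine ih p.2 ?_ (right_ne_zero_of_mul h1)
    have h2 := left_ne_zero_of_mul h1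
    unfold Kp at h2
    by_contra h3
    exact h2 (if_neg fun h4 => h3 h4.2)

private theorem h80_exp {C c t : ℝ} (hC : 0 < C) (hc : 0 < c) (ht : 0 < t) : ∃ W₀ : ℕ, ∀ W : ℕ, W₀ ≤ W →
    C * (W : ℝ) ^ 16 * Real.exp (-c * W) ≤ t := by
  have h1 := Real.tendsto_pow_mul_exp_neg_atTop_nhds_zero 16
  have h2 : Tendsto (fun W : ℕ => c * (W : ℝ)) atTop atTop :=
    tendsto_natCast_atTop_atTop.const_mul_atTop hc
  have h3 := h1.comp h2
  have h4 : 0 < t * c ^ 16 / C := by positivity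
  obtain ⟨W₀, h5⟩ := eventually_atTop.1 (h3.eventually (gt_mem_nhds h4))
  refine ⟨W₀, fun W hW => ?_⟩
  have h6 := (h5 W hW).le
  simp only [Function.comp] at h6
  rw [mul_pow, le_div_iff₀ hC] at h6
  have h7 : c ^ 16 * (C * (W : ℝ) ^ 16 * Real.exp (-c * W)) ≤ c ^ 16 * t := by
    have e1 : Real.exp (-(c * (W : ℝ))) = Real.exp (-c * W) := by rw [neg_mul]
    rw [e1] at h6
    linarith
  exact le_of_mul_le_mul_left h7 (by positivity)

/-- the fourth root -/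
private theorem h80_root (n : ℕ) : ∃ w : ℕ, w ^ 4 ≤ n ∧ n < (w + 1) ^ 4 := by
  refine ⟨Nat.sqrt (Nat.sqrt n), ?_, ?_⟩
  · have h1 := Nat.sqrt_le' (Nat.sqrt n)
    have h2 := Nat.sqrt_le' n
    calc Nat.sqrt (Nat.sqrt n) ^ 4 = (Nat.sqrt (Nat.sqrt n) ^ 2) ^ 2 := by ring
      _ ≤ Nat.sqrt n ^ 2 := Nat.pow_le_pow_left h1 2
      _ ≤ n := h2
  · have h1 := Nat.lt_succ_sqrt' (Nat.sqrt n)
    have h2 := Nat.lt_succ_sqrt' n
    have h3 : Nat.sqrt n + 1 ≤ (Nat.sqrt (Nat.sqrt n) + 1) ^ 2 := h1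
    calc n < (Nat.sqrt n + 1) ^ 2 := h2
      _ ≤ ((Nat.sqrt (Nat.sqrt n) + 1) ^ 2) ^ 2 := Nat.pow_le_pow_left h3 2
      _ = _ := by ring

private theorem h80_long (F : Law) {t : ℝ} (ht : 0 < t) : ∃ n₀ : ℕ, ∀ n ≥ n₀, ∀ (m : ℕ) (x y : ℤ),
    n ≤ m → m ≤ 3 * n →
    Sc (Kp F) m x y (fun c => if ∃ q ∈ c, n < q.1 ^ 4 then 1 else 0) ≤
      ENNReal.ofReal (t / (m * Real.sqrt m)) := by
  obtain ⟨C, c, hC, hc, h⟩ := long_small F
  obtain ⟨W₀, hW₀⟩ := h80_exp (C := 144 * C) (c := c) (t := t) (by positivity) hc ht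
  refine ⟨W₀ ^ 4 + 1, fun n hn m x y hnm hmn => ?_⟩
  obtain ⟨w, hw1, hw2⟩ := h80_root n
  have hW : W₀ ≤ w + 1 := by
    by_contra h1
    have h2 : (w + 1) ^ 4 ≤ W₀ ^ 4 := Nat.pow_le_pow_left (by omega) 4
    omega
  refine (sc_mono (fun _ _ _ => le_rfl) (Ψ := fun c => if ∃ q ∈ c, w + 1 ≤ q.1 then 1 else 0)
    (fun c => ?_) m x y).trans ((h m (w + 1) x y).trans (ENNReal.ofReal_le_ofReal ?_))
  · by_cases h1 : ∃ q ∈ c, n < q.1 ^ 4
    · have h2 : ∃ q ∈ c, w + 1 ≤ q.1 := by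
        obtain ⟨q, hq, h3⟩ := h1
        refine ⟨q, hq, ?_⟩
        by_contra h4
        have h5 : q.1 ^ 4 ≤ w ^ 4 := Nat.pow_le_pow_left (by omega) 4
        omega
      rw [if_pos h1, if_pos h2]
    · rw [if_neg h1]
      exact zero_le
  · have hn0 : 0 < n := by omega
    have hm0 : (0 : ℝ) < m := by exact_mod_cast (by omega : 0 < m)
    have hm1 : (1 : ℝ) ≤ m := by exact_mod_cast (by omega : 1 ≤ m)
    have hsq : Real.sqrt m ≤ m := by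
      rw [Real.sqrt_le_left (by linarith)]
      nlinarith
    have hsq0 : 0 < Real.sqrt m := Real.sqrt_pos.2 hm0
    obtain ⟨W, hWdef⟩ : ∃ W : ℝ, W = ((w + 1 : ℕ) : ℝ) := ⟨_, rfl⟩
    have hW1 : (1 : ℝ) ≤ W := by rw [hWdef]; exact_mod_cast (by omega : 1 ≤ w + 1)
    have hW41 : (1 : ℝ) ≤ W ^ 4 := one_le_pow₀ hW1
    have hmW : (m : ℝ) ≤ 3 * W ^ 4 := by
      rw [hWdef]
      have : m ≤ 3 * (w + 1) ^ 4 := by omega
      exact_mod_cast this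
    have h1 := hW₀ (w + 1) hW
    rw [← hWdef] at h1 ⊢
    rw [le_div_iff₀ (by positivity)]
    have h2 : ((m : ℝ) + 1) ^ 2 ≤ (4 * W ^ 4) ^ 2 := by
      apply pow_le_pow_left₀ (by linarith)
      linarith
    have h3 : (m : ℝ) * Real.sqrt m ≤ (3 * W ^ 4) * (3 * W ^ 4) :=
      mul_le_mul hmW (hsq.trans hmW) hsq0.le (by positivity)
    have hE : 0 ≤ Real.exp (-c * W) := (Real.exp_pos _).le
    calc C * ((m : ℝ) + 1) ^ 2 * Real.exp (-c * W) * (m * Real.sqrt m)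
        = C * Real.exp (-c * W) * (((m : ℝ) + 1) ^ 2 * (m * Real.sqrt m)) := by ring
      _ ≤ C * Real.exp (-c * W) * ((4 * W ^ 4) ^ 2 * ((3 * W ^ 4) * (3 * W ^ 4))) := by
          refine mul_le_mul_of_nonneg_left ?_ (by positivity)
          exact mul_le_mul h2 h3 (by positivity) (by positivity)
      _ = 144 * C * W ^ 16 * Real.exp (-c * W) := by ring
      _ ≤ t := h1

theorem path_good (F : Law) {κ Bt r : ℝ} (hκ : 0 < κ) (hB : 0 < Bt) (hr : 0 < r) {K : Ker}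
    (hK : ∀ cap : ℕ, Above F κ Bt r cap K) (U : ℕ) {ε t : ℝ} (hε : 0 < ε) (ht : 0 < t) :
    ∃ (d η : ℝ) (n₀ : ℕ), 0 < η ∧ η ≤ d ∧ ∀ n ≥ n₀, ∀ (m : ℕ) (x y : ℤ), |(m : ℝ) - 2 * n| ≤ U →
      1 ≤ x → x ≤ U → 1 ≤ y → y ≤ U →
        Sc K m x y (fun c => if (∀ q ∈ c, 1 ≤ q.1 ∧ (q.1 : ℝ) ^ 4 ≤ n) ∧
          Good3 (d * n) (η * n) (ε * Real.sqrt n) x c then 0 else 1) ≤ ENNReal.ofReal t * G K m x y := by
  obtain ⟨nG, cG, hcG, hG⟩ := above_low F (c₀ := 1) hκ hB hr one_pos U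
  obtain ⟨t', ht'⟩ : ∃ t' : ℝ, t' = t * cG / 4 := ⟨_, rfl⟩
  have ht'0 : 0 < t' := by rw [ht']; positivity
  have hε2 : 0 < ε / 2 := by positivity
  obtain ⟨d₁, n₁, hd₁, h₁⟩ := end_left F U hε2 ht'0
  obtain ⟨d₂, n₂, hd₂, h₂⟩ := end_right F U hε2 ht'0
  obtain ⟨d, hd⟩ : ∃ d : ℝ, d = min d₁ d₂ / 2 := ⟨_, rfl⟩
  have hd0 : 0 < d := by rw [hd]; exact half_pos (lt_min hd₁ hd₂)
  have hdd₁ : 2 * d ≤ d₁ := by rw [hd]; have := min_le_left d₁ d₂; linarith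
  have hdd₂ : 2 * d ≤ d₂ := by rw [hd]; have := min_le_right d₁ d₂; linarith
  obtain ⟨η', n₃, hη', h₃⟩ := mid_osc F U (d := d / 3) (by positivity) hε2 ht'0
  obtain ⟨n₄, h₄⟩ := h80_long F ht'0
  refine ⟨d, min η' d, n₁ + n₂ + n₃ + n₄ + nG + U + 1, lt_min hη' hd0, min_le_right _ _, ?_⟩
  intro n hn m x y hm hx hxU hy hyU
  have hn' : ((n₁ + n₂ + n₃ + n₄ + nG + U + 1 : ℕ) : ℝ) ≤ n := by exact_mod_cast hn
  have hUn : (U : ℝ) + 1 ≤ n := by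
    have : (U : ℝ) + 1 ≤ ((n₁ + n₂ + n₃ + n₄ + nG + U + 1 : ℕ) : ℝ) := by
      exact_mod_cast (by omega : U + 1 ≤ n₁ + n₂ + n₃ + n₄ + nG + U + 1)
    linarith
  rw [abs_le] at hm
  have hnm' : (n : ℝ) ≤ m := by linarith
  have hmn' : (m : ℝ) ≤ 3 * n := by linarith
  have hnm : n ≤ m := by exact_mod_cast hnm'
  have hmn : m ≤ 3 * n := by exact_mod_cast hmn'
  have hn0 : (0 : ℝ) < n := by have := Nat.cast_nonneg (α := ℝ) U; linarith
  have hm0 : (0 : ℝ) < m := by linarith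
  -- the comparison of the square roots
  have hsq : Real.sqrt m ≤ 2 * Real.sqrt n := by
    have h5 : Real.sqrt m ≤ Real.sqrt (4 * n) := Real.sqrt_le_sqrt (by linarith)
    rwa [Real.sqrt_mul (by norm_num), (by norm_num : (4 : ℝ) = 2 ^ 2),
      Real.sqrt_sq (by norm_num)] at h5
  have hεs : ε / 2 * Real.sqrt m ≤ ε * Real.sqrt n := by
    have := mul_le_mul_of_nonneg_left hsq hε2.le
    linarith
  -- the union bound
  have hbad : Sc K m x y (fun c => if (∀ q ∈ c, 1 ≤ q.1 ∧ (q.1 : ℝ) ^ 4 ≤ n) ∧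
          Good3 (d * n) (min η' d * n) (ε * Real.sqrt n) x c then 0 else 1) ≤
      Sc (Kp F) m x y (fun c => (((if ∃ q ∈ c, n < q.1 ^ 4 then 1 else 0) +
        (if ∃ c₁ c₂ : Ch, c = c₁ ++ c₂ ∧ (cl c₁ : ℝ) ≤ d₁ * m ∧
          ε / 2 * Real.sqrt m ≤ ce x c₁ then 1 else 0)) +
        (if ∃ c₁ c₂ : Ch, c = c₁ ++ c₂ ∧ (cl c₂ : ℝ) ≤ d₂ * m ∧
          ε / 2 * Real.sqrt m ≤ ce x c₁ then 1 else 0)) +
        (if ∃ c₁ c₂ c₃ : Ch, c = c₁ ++ (c₂ ++ c₃) ∧ d / 3 * m ≤ cl c₁ ∧ d / 3 * m ≤ cl c₃ ∧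
          (cl c₂ : ℝ) ≤ η' * m ∧ ε / 2 * Real.sqrt m ≤ |((ce (ce x c₁) c₂ : ℤ) : ℝ) - ce x c₁|
          then 1 else 0)) := by
    refine (sc_mono (hK 0).le (fun c => le_rfl) m x y).trans (h80_sc_le _ _ _ _ fun c hc => ?_)
    by_cases g : (∀ q ∈ c, 1 ≤ q.1 ∧ (q.1 : ℝ) ^ 4 ≤ n) ∧
          Good3 (d * n) (min η' d * n) (ε * Real.sqrt n) x c
    · rw [if_pos g]
      exact zero_le
    rw [if_neg g]
    by_cases g1 : ∃ q ∈ c, n < q.1 ^ 4
    · rw [if_pos g1, add_assoc, add_assoc]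
      exact le_self_add
    by_cases g2 : ∃ c₁ c₂ : Ch, c = c₁ ++ c₂ ∧ (cl c₁ : ℝ) ≤ d₁ * m ∧
          ε / 2 * Real.sqrt m ≤ ce x c₁
    · rw [if_pos g2, add_assoc, add_comm _ (1 : ℝ≥0∞), add_assoc]
      exact le_self_add
    by_cases g3 : ∃ c₁ c₂ : Ch, c = c₁ ++ c₂ ∧ (cl c₂ : ℝ) ≤ d₂ * m ∧
          ε / 2 * Real.sqrt m ≤ ce x c₁
    · rw [if_pos g3, add_comm _ (1 : ℝ≥0∞), add_assoc]
      exact le_self_add
    by_cases g4 : ∃ c₁ c₂ c₃ : Ch, c = c₁ ++ (c₂ ++ c₃) ∧ d / 3 * m ≤ cl c₁ ∧ d / 3 * m ≤ cl c₃ ∧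
          (cl c₂ : ℝ) ≤ η' * m ∧ ε / 2 * Real.sqrt m ≤ |((ce (ce x c₁) c₂ : ℤ) : ℝ) - ce x c₁|
    · rw [if_pos g4]
      exact le_add_self
    exfalso
    apply g
    refine ⟨fun q hq => ⟨h80_len F c x hc q hq, ?_⟩, ?_, ?_, ?_, ?_⟩
    · by_contra h5
      apply g1
      refine ⟨q, hq, ?_⟩
      push Not at h5
      exact_mod_cast h5
    · intro c₁ c₂ h5
      rw [h5, cw_append] at hc
      exact h80_pos F c₁ x hx (left_ne_zero_of_mul hc)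
    · intro c₁ c₂ h5 h6
      by_contra h7
      push Not at h7
      refine g2 ⟨c₁, c₂, h5, ?_, hεs.trans h7⟩
      calc (cl c₁ : ℝ) ≤ 2 * (d * n) := h6
        _ = 2 * d * n := by ring
        _ ≤ d₁ * m := mul_le_mul hdd₁ hnm' hn0.le hd₁.le
    · intro c₁ c₂ h5 h6
      by_contra h7
      push Not at h7
      refine g3 ⟨c₁, c₂, h5, ?_, hεs.trans h7⟩
      calc (cl c₂ : ℝ) ≤ 2 * (d * n) := h6
        _ = 2 * d * n := by ring
        _ ≤ d₂ * m := mul_le_mul hdd₂ hnm' hn0.le hd₂.le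
    · intro c₁ c₂ c₃ h5 h6 h7 h8
      by_contra h9
      push Not at h9
      have h10 : d / 3 * m ≤ d * n := by
        have := mul_le_mul_of_nonneg_left hmn' hd0.le
        linarith
      refine g4 ⟨c₁, c₂, c₃, h5, h10.trans h6, h10.trans h7, ?_, hεs.trans h9⟩
      exact h8.trans (mul_le_mul (min_le_left _ _) hnm' hn0.le hη'.le)
  refine hbad.trans ?_
  rw [h80_sc_add, h80_sc_add, h80_sc_add]
  have k1 := h₁ m (by omega) x y hx hxU hy hyU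
  have k2 := h₂ m (by omega) x y hx hxU hy hyU
  have k3 := h₃ m (by omega) x y hx hxU hy hyU
  have k4 := h₄ n (by omega) m x y hnm hmn
  have k5 := hG m (by omega) m K (hK m) (by rw [one_mul]) x y hx hxU hy hyU
  refine (add_le_add (add_le_add (add_le_add k4 k1) k2) k3).trans ?_
  have hp : 0 ≤ t' / (m * Real.sqrt m) := by positivity
  rw [← ENNReal.ofReal_add hp hp, ← ENNReal.ofReal_add (by positivity) hp,
    ← ENNReal.ofReal_add (by positivity) hp]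
  refine le_trans (le_of_eq ?_) (mul_le_mul_right k5 _)
  rw [← ENNReal.ofReal_mul ht.le]
  congr 1
  rw [ht']
  ring

end Pool.Agent.Helper18.WK
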