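import Pool.Agent.Helper18.WK.Ren

/-!
# Project WK, block WK-C4: the limit of `Phi F n (s / √n)`

Let `t = s / √n`, `w_l = len l exp (-σ² t² l / 2)`, `û_n = exp (-σ² t² n / 2) u n` (`σ² = s2 F`,
`u n = Phi F n 0`): `û` is the renewal sequence with the weights `w`. Let `ε_l = phi F l t - w_l`. Then
(induction, or uniqueness of the solution `D` of `D_n = ∑_l φ_l D_(n-l) + E_n`)
`Phi F n t - û_n = ∑_(m ≤ n) Phi F (n - m) t E_m`, `E_m = ∑_(l=1..m) ε_l û_(m-l)`.
Let `β_l = (σ² l len l - ∑_h h² f l h) / 2`; `∑_l β_l = 0` by the definition of `s2`; and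
`|ε_l - t² β_l| ≤ C t⁴ exp (-a l / 2)` for `|t| ≤ 1` (Taylor: `|cos x - 1 + x²/2| ≤ x⁴/24`,
`|exp (-x) - 1 + x| ≤ x²/2` for `x ≥ 0`). `|û_(m-l) - û_m| ≤ |u (m-l) - u m| + σ² t² l / 2`. So
`|E_m| ≤ t² κ_m + C t⁴` with `κ_m = ∑_(l ≤ m) |β_l| |u (m-l) - u m| + ∑_(l > m) |β_l| → 0` (`renewal`, dominated
convergence), and `|Phi| ≤ 1` (`phi_abs`, induction): `|Phi F n t - û_n| ≤ t² ∑_(m ≤ n) κ_m + C (n+1) t⁴
= s² (1/n) ∑_(m ≤ n) κ_m + C s⁴ (n+1) / n² → 0` (Cesàro). Finally `û_n = exp (-σ² s² / 2) u n`.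
-/

open scoped ENNReal
open MeasureTheory Filter

namespace Pool.Agent.Helper18.WK

open Ren

private theorem c4_cos (x : ℝ) : |Real.cos x - 1 + x ^ 2 / 2| ≤ 3 * x ^ 4 := by
  have h4 : 0 ≤ x ^ 4 := by positivity
  rcases le_or_gt |x| 1 with h | h
  · have h1 := Real.cos_bound h
    have h2 : |x| ^ 4 = x ^ 4 := by
      rw [← abs_pow, abs_of_nonneg h4]
    have e : Real.cos x - 1 + x ^ 2 / 2 = Real.cos x - (1 - x ^ 2 / 2) := by ring
    rw [e]
    refine h1.trans ?_
    rw [h2]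
    linarith
  · have hx2 : 1 ≤ x ^ 2 := by
      rw [← sq_abs]
      nlinarith [abs_nonneg x]
    have h3 : x ^ 4 = x ^ 2 * x ^ 2 := by ring
    have h5 : x ^ 2 ≤ x ^ 4 := by
      rw [h3]
      nlinarith
    have h6 := Real.neg_one_le_cos x
    have h7 := Real.cos_le_one x
    rw [abs_le]
    constructor <;> linarith

private theorem c4_exp {x : ℝ} (hx : 0 ≤ x) : |Real.exp (-x) - 1 + x| ≤ x ^ 2 := by
  have h1 : 0 ≤ Real.exp (-x) - 1 + x := by
    have := Real.add_one_le_exp (-x)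
    linarith
  rw [abs_of_nonneg h1]
  rcases le_or_gt x 1 with h | h
  · have h2 := Real.abs_exp_sub_one_sub_id_le (x := -x) (by rw [abs_neg, abs_of_nonneg hx]; exact h)
    have h3 := (abs_le.mp h2).2
    nlinarith
  · have h2 : Real.exp (-x) ≤ 1 := by
      rw [Real.exp_le_one_iff]
      linarith
    nlinarith

private theorem c4_sumZ {a : ℝ} (ha : 0 < a) (k : ℕ) :
    Summable fun h : ℤ => |(h : ℝ)| ^ k * Real.exp (-a * |(h : ℝ)|) := by
  have h1 := Real.summable_pow_mul_exp_neg_nat_mul k ha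
  refine Summable.of_nat_of_neg ?_ ?_
  · refine h1.congr fun n => ?_
    rw [Int.cast_natCast, Nat.abs_cast]
  · refine h1.congr fun n => ?_
    rw [Int.cast_neg, Int.cast_natCast, abs_neg, Nat.abs_cast]

private theorem c4_mom (F : Law) (i k : ℕ) :
    Summable fun p : ℕ × ℤ => (p.1 : ℝ) ^ i * |(p.2 : ℝ)| ^ k * F.f p.1 p.2 := by
  have h1 := (Real.summable_pow_mul_exp_neg_nat_mul i F.a_pos).mul_of_nonneg (c4_sumZ F.a_pos k)
    (fun _ => by positivity) (fun _ => by positivity)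
  refine Summable.of_nonneg_of_le (fun p => ?_) (fun p => ?_) (h1.mul_left F.B)
  · exact mul_nonneg (by positivity) (F.f_nonneg _ _)
  · have h2 := F.f_tail p.1 p.2
    have h3 : Real.exp (-F.a * (p.1 + |(p.2 : ℝ)|)) = Real.exp (-F.a * p.1) * Real.exp (-F.a * |(p.2 : ℝ)|) := by
      rw [← Real.exp_add]
      congr 1
      ring
    rw [h3] at h2
    have h4 := mul_le_mul_of_nonneg_left h2 (show 0 ≤ (p.1 : ℝ) ^ i * |(p.2 : ℝ)| ^ k by positivity)
    refine h4.trans (le_of_eq ?_)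
    ring

/-- moments of the heights -/
private noncomputable def c4M (F : Law) (k l : ℕ) : ℝ := ∑' h : ℤ, |(h : ℝ)| ^ k * F.f l h

private theorem c4_momh (F : Law) (k l : ℕ) : Summable fun h : ℤ => |(h : ℝ)| ^ k * F.f l h := by
  have h1 := (c4_mom F 0 k).prod_factor l
  refine h1.congr fun h => ?_
  simp

private theorem c4_moml (F : Law) (i k : ℕ) : Summable fun l : ℕ => (l : ℝ) ^ i * c4M F k l := by
  have h1 := (c4_mom F i k).prod
  refine h1.congr fun l => ?_
  unfold c4M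
  rw [← tsum_mul_left]
  refine tsum_congr fun h => ?_
  ring

private theorem c4M_nonneg (F : Law) (k l : ℕ) : 0 ≤ c4M F k l :=
  tsum_nonneg fun h => mul_nonneg (by positivity) (F.f_nonneg _ _)

private theorem c4M_zero (F : Law) (l : ℕ) : c4M F 0 l = len F l := by
  unfold c4M len
  refine tsum_congr fun h => ?_
  simp

private theorem c4M_at_zero (F : Law) (k : ℕ) : c4M F k 0 = 0 := by
  unfold c4M
  simp [F.f_zero]

private theorem c4_phi (F : Law) (l : ℕ) (t : ℝ) :
    |phi F l t - len F l + t ^ 2 / 2 * c4M F 2 l| ≤ 3 * t ^ 4 * c4M F 4 l := by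
  have s0 := c4_momh F 0 l
  have s2 := c4_momh F 2 l
  have s4 := c4_momh F 4 l
  have sc : Summable fun h : ℤ => F.f l h * Real.cos (t * h) := by
    refine Summable.of_norm_bounded s0 fun h => ?_
    rw [Real.norm_eq_abs, abs_mul, abs_of_nonneg (F.f_nonneg _ _), pow_zero, one_mul]
    exact mul_le_of_le_one_right (F.f_nonneg _ _) (Real.abs_cos_le_one _)
  have e : phi F l t - len F l + t ^ 2 / 2 * c4M F 2 l =
      ∑' h : ℤ, F.f l h * (Real.cos (t * h) - 1 + (t * h) ^ 2 / 2) := by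
    rw [← c4M_zero]
    unfold phi c4M
    rw [← tsum_mul_left, ← Summable.tsum_sub sc s0, ← Summable.tsum_add (sc.sub s0) (s2.mul_left _)]
    refine tsum_congr fun h => ?_
    rw [sq_abs]
    ring
  have hle : ∀ h : ℤ, ‖F.f l h * (Real.cos (t * h) - 1 + (t * h) ^ 2 / 2)‖ ≤
      3 * t ^ 4 * (|(h : ℝ)| ^ 4 * F.f l h) := by
    intro h
    rw [Real.norm_eq_abs, abs_mul, abs_of_nonneg (F.f_nonneg _ _)]
    have h1 := mul_le_mul_of_nonneg_left (c4_cos (t * h)) (F.f_nonneg l h)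
    refine h1.trans (le_of_eq ?_)
    have h2 : |(h : ℝ)| ^ 4 = (h : ℝ) ^ 4 := by
      rw [← abs_pow, abs_of_nonneg (by positivity)]
    rw [h2]
    ring
  have hs : Summable fun h : ℤ => 3 * t ^ 4 * (|(h : ℝ)| ^ 4 * F.f l h) := s4.mul_left _
  rw [e]
  have h1 := norm_tsum_le_tsum_norm (Summable.of_nonneg_of_le (fun _ => norm_nonneg _) hle hs)
  rw [Real.norm_eq_abs] at h1
  refine h1.trans ?_
  have h2 := (Summable.of_nonneg_of_le (fun _ => norm_nonneg _) hle hs).tsum_le_tsum hle hs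
  refine h2.trans (le_of_eq ?_)
  unfold c4M
  rw [tsum_mul_left]

private theorem c4_len_le (F : Law) (n : ℕ) : ∑ l ∈ Finset.range n, len F (l + 1) ≤ 1 := by
  have h1 : HasSum (fun l => len F (l + 1)) 1 := by
    have := (hasSum_nat_add_iff' 1).2 (len_sum F)
    simpa [len_zero] using this
  exact sum_le_hasSum _ (fun l _ => len_nonneg F _) h1

private theorem c4_Phi (F : Law) (t : ℝ) (n : ℕ) : |Phi F n t| ≤ 1 := by
  induction n using Nat.strong_induction_on with
  | _ n ih =>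
    rcases n with _ | n
    · rw [Phi_zero, abs_one]
    · rw [Phi_succ]
      refine (Finset.abs_sum_le_sum_abs _ _).trans ?_
      refine (Finset.sum_le_sum fun l _ => ?_).trans (c4_len_le F (n + 1))
      rw [abs_mul]
      calc |phi F (l + 1) t| * |Phi F (n - l) t| ≤ len F (l + 1) * 1 :=
            mul_le_mul (phi_abs F _ _) (ih _ (by omega)) (abs_nonneg _) (len_nonneg F _)
        _ = _ := mul_one _

/-- the sequence with the exponential factor -/
private noncomputable def c4v (F : Law) (c : ℝ) (n : ℕ) : ℝ := Real.exp (-(c * n)) * Phi F n 0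

private theorem c4v_abs (F : Law) {c : ℝ} (hc : 0 ≤ c) (n : ℕ) : |c4v F c n| ≤ 1 := by
  unfold c4v
  rw [abs_mul, abs_of_pos (Real.exp_pos _)]
  have h1 : Real.exp (-(c * n)) ≤ 1 := by
    rw [Real.exp_le_one_iff]
    have : 0 ≤ c * n := by positivity
    linarith
  calc _ ≤ 1 * 1 := mul_le_mul h1 (c4_Phi F 0 n) (abs_nonneg _) zero_le_one
    _ = 1 := one_mul 1

private theorem c4v_succ (F : Law) (c : ℝ) (n : ℕ) : c4v F c (n + 1) =
    ∑ l ∈ Finset.range (n + 1), len F (l + 1) * Real.exp (-(c * (l + 1 : ℕ))) * c4v F c (n - l) := by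
  unfold c4v
  rw [Phi_succ, Finset.mul_sum]
  refine Finset.sum_congr rfl fun l hl => ?_
  rw [Finset.mem_range] at hl
  rw [phi_zero]
  have h1 : Real.exp (-(c * (n + 1 : ℕ))) = Real.exp (-(c * (l + 1 : ℕ))) * Real.exp (-(c * (n - l : ℕ))) := by
    rw [← Real.exp_add]
    congr 1
    rw [Nat.cast_sub (by omega)]
    push_cast
    ring
  rw [h1]
  ring

private theorem c4v_diff (F : Law) {c : ℝ} (hc : 0 ≤ c) {i n : ℕ} (h : i ≤ n) :
    |c4v F c (n - i) - c4v F c n| ≤ |Phi F (n - i) 0 - Phi F n 0| + c * i := by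
  unfold c4v
  set ea := Real.exp (-(c * (n - i : ℕ))) with hea
  set eb := Real.exp (-(c * n)) with heb
  have e1 : ea * Phi F (n - i) 0 - eb * Phi F n 0 =
      ea * (Phi F (n - i) 0 - Phi F n 0) + (ea - eb) * Phi F n 0 := by ring
  have ha0 : 0 < ea := Real.exp_pos _
  have ha1 : ea ≤ 1 := by
    rw [hea, Real.exp_le_one_iff]
    have : 0 ≤ c * (n - i : ℕ) := by positivity
    linarith
  have h2 : eb = ea * Real.exp (-(c * i)) := by
    rw [hea, heb, ← Real.exp_add]
    congr 1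
    rw [Nat.cast_sub h]
    ring
  have hi : 0 ≤ c * i := by positivity
  have h3 : 1 - Real.exp (-(c * i)) ≤ c * i := by
    have := Real.add_one_le_exp (-(c * i))
    linarith
  have h4 : 0 ≤ 1 - Real.exp (-(c * i)) := by
    rw [sub_nonneg, Real.exp_le_one_iff]
    linarith
  have h5 : |ea - eb| ≤ c * i := by
    have e2 : ea - eb = ea * (1 - Real.exp (-(c * i))) := by rw [h2]; ring
    rw [e2, abs_of_nonneg (mul_nonneg ha0.le h4)]
    calc _ ≤ 1 * (c * i) := mul_le_mul ha1 h3 h4 zero_le_one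
      _ = _ := one_mul _
  rw [e1]
  refine (abs_add_le _ _).trans (add_le_add ?_ ?_)
  · rw [abs_mul, abs_of_pos ha0]
    exact mul_le_of_le_one_left (abs_nonneg _) ha1
  · rw [abs_mul]
    calc _ ≤ c * i * 1 := mul_le_mul h5 (c4_Phi F 0 n) (abs_nonneg _) hi
      _ = _ := mul_one _

/-- the error term of the recursion -/
private noncomputable def c4E (F : Law) (c t : ℝ) (m : ℕ) : ℝ :=
  ∑ l ∈ Finset.range (m + 1), (phi F (l + 1) t - len F (l + 1) * Real.exp (-(c * (l + 1 : ℕ)))) * c4v F c (m - l)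

private theorem c4_D (F : Law) (c t : ℝ) (n : ℕ) :
    |Phi F n t - c4v F c n| ≤ ∑ m ∈ Finset.range n, |c4E F c t m| := by
  induction n using Nat.strong_induction_on with
  | _ n ih =>
    rcases n with _ | n
    · rw [Phi_zero, c4v, Phi_zero]
      simp
    · have e1 : Phi F (n + 1) t - c4v F c (n + 1) =
          ∑ l ∈ Finset.range (n + 1), phi F (l + 1) t * (Phi F (n - l) t - c4v F c (n - l)) + c4E F c t n := by
        rw [Phi_succ, c4v_succ, c4E, ← Finset.sum_sub_distrib, ← Finset.sum_add_distrib]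
        refine Finset.sum_congr rfl fun l _ => ?_
        ring
      rw [e1, Finset.sum_range_succ (fun m => |c4E F c t m|)]
      refine (abs_add_le _ _).trans (add_le_add ?_ le_rfl)
      refine (Finset.abs_sum_le_sum_abs _ _).trans ?_
      have h0 : 0 ≤ ∑ m ∈ Finset.range n, |c4E F c t m| := Finset.sum_nonneg fun _ _ => abs_nonneg _
      calc ∑ l ∈ Finset.range (n + 1), |phi F (l + 1) t * (Phi F (n - l) t - c4v F c (n - l))|
          ≤ ∑ l ∈ Finset.range (n + 1), len F (l + 1) * ∑ m ∈ Finset.range n, |c4E F c t m| := by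
            refine Finset.sum_le_sum fun l _ => ?_
            rw [abs_mul]
            refine mul_le_mul (phi_abs F _ _) ?_ (abs_nonneg _) (len_nonneg F _)
            refine (ih (n - l) (by omega)).trans ?_
            refine Finset.sum_le_sum_of_subset_of_nonneg ?_ fun _ _ _ => abs_nonneg _
            exact Finset.range_subset_range.mpr (by omega)
        _ = (∑ l ∈ Finset.range (n + 1), len F (l + 1)) * ∑ m ∈ Finset.range n, |c4E F c t m| := by
            rw [Finset.sum_mul]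
        _ ≤ 1 * ∑ m ∈ Finset.range n, |c4E F c t m| := mul_le_mul_of_nonneg_right (c4_len_le F _) h0
        _ = _ := one_mul _

/-- `β_l` -/
private noncomputable def c4b (F : Law) (l : ℕ) : ℝ := (s2 F * (l * len F l) - c4M F 2 l) / 2

private theorem c4b_hasSum (F : Law) : HasSum (fun l => c4b F (l + 1)) 0 := by
  have hmu : 0 < mu F := lt_of_lt_of_le one_pos (mu_pos F)
  have h1 : Summable fun l : ℕ => (l : ℝ) * len F l := len_mean F
  have h2 : Summable fun l : ℕ => c4M F 2 l := by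
    refine (c4_moml F 0 2).congr fun l => ?_
    simp
  have h3 : ∑' l : ℕ, c4M F 2 l = s2 F * mu F := by
    unfold s2
    rw [div_mul_cancel₀ _ hmu.ne']
    refine tsum_congr fun l => ?_
    unfold c4M
    refine tsum_congr fun h => ?_
    rw [sq_abs]
  have h4 : HasSum (c4b F) ((s2 F * mu F - s2 F * mu F) / 2) := by
    have h5 := h1.hasSum.mul_left (s2 F)
    have h6 := h2.hasSum
    rw [h3] at h6
    exact (h5.sub h6).div_const 2
  rw [sub_self, zero_div] at h4
  have h7 : c4b F 0 = 0 := by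
    unfold c4b
    rw [c4M_at_zero]
    simp
  have h8 := (hasSum_nat_add_iff' 1).2 h4
  simpa [h7] using h8

private theorem c4b_abs (F : Law) (l : ℕ) : |c4b F l| ≤ s2 F * (l * len F l) + c4M F 2 l := by
  have h1 : 0 ≤ s2 F * (l * len F l) :=
    mul_nonneg (s2_pos F).le (mul_nonneg (Nat.cast_nonneg _) (len_nonneg F _))
  have h2 := c4M_nonneg F 2 l
  unfold c4b
  rw [abs_le]
  constructor <;> linarith

private theorem c4b_summable (F : Law) : Summable fun l : ℕ => ((l + 1 : ℕ) : ℝ) * |c4b F (l + 1)| := by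
  have h1 : Summable fun l : ℕ => s2 F * ((l : ℝ) ^ 2 * c4M F 0 l) + (l : ℝ) ^ 1 * c4M F 2 l :=
    ((c4_moml F 2 0).mul_left (s2 F)).add (c4_moml F 1 2)
  have h2 : Summable fun l : ℕ => (l : ℝ) * |c4b F l| := by
    refine Summable.of_nonneg_of_le (fun l => by positivity) (fun l => ?_) h1
    have h3 := mul_le_mul_of_nonneg_left (c4b_abs F l) (Nat.cast_nonneg (α := ℝ) l)
    refine h3.trans (le_of_eq ?_)
    rw [c4M_zero]
    ring
  exact (summable_nat_add_iff (f := fun l : ℕ => (l : ℝ) * |c4b F l|) 1).mpr h2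

private theorem c4b_summable' (F : Law) : Summable fun l : ℕ => |c4b F (l + 1)| := by
  refine Summable.of_nonneg_of_le (fun l => abs_nonneg _) (fun l => ?_) (c4b_summable F)
  refine le_mul_of_one_le_left (abs_nonneg _) ?_
  push_cast
  have : (0 : ℝ) ≤ l := Nat.cast_nonneg l
  linarith

/-- `ρ_l` -/
private noncomputable def c4r (F : Law) (l : ℕ) : ℝ := 3 * c4M F 4 l + s2 F ^ 2 / 4 * ((l : ℝ) ^ 2 * len F l)

private theorem c4r_summable (F : Law) : Summable fun l : ℕ => c4r F (l + 1) := by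
  have h1 : Summable fun l : ℕ => 3 * ((l : ℝ) ^ 0 * c4M F 4 l) + s2 F ^ 2 / 4 * ((l : ℝ) ^ 2 * c4M F 0 l) :=
    ((c4_moml F 0 4).mul_left 3).add ((c4_moml F 2 0).mul_left _)
  have h2 : Summable fun l : ℕ => c4r F l := by
    refine h1.congr fun l => ?_
    unfold c4r
    rw [c4M_zero]
    ring
  exact (summable_nat_add_iff (f := fun l : ℕ => c4r F l) 1).mpr h2

private theorem c4r_nonneg (F : Law) (l : ℕ) : 0 ≤ c4r F l := by
  unfold c4r
  have h1 := c4M_nonneg F 4 l
  have h2 := len_nonneg F l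
  positivity

private theorem c4_eps (F : Law) (t : ℝ) (l : ℕ) :
    |phi F l t - len F l * Real.exp (-(s2 F * t ^ 2 / 2 * l)) - t ^ 2 * c4b F l| ≤ t ^ 4 * c4r F l := by
  have hs := s2_pos F
  have h1 := c4_phi F l t
  set y : ℝ := s2 F * t ^ 2 / 2 * l with hy
  have hy0 : 0 ≤ y := by positivity
  have h2 := c4_exp hy0
  have h3 := mul_le_mul_of_nonneg_left h2 (len_nonneg F l)
  have e : phi F l t - len F l * Real.exp (-y) - t ^ 2 * c4b F l =
      (phi F l t - len F l + t ^ 2 / 2 * c4M F 2 l) - len F l * (Real.exp (-y) - 1 + y) := by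
    unfold c4b
    rw [hy]
    ring
  rw [e]
  refine (abs_sub _ _).trans ?_
  rw [abs_mul (len F l), abs_of_nonneg (len_nonneg F l)]
  refine (add_le_add h1 h3).trans (le_of_eq ?_)
  unfold c4r
  rw [hy]
  ring

/-- `κ_N` -/
private noncomputable def c4k (F : Law) (N : ℕ) : ℝ :=
  ∑' l : ℕ, |c4b F (l + 1)| * (if l < N then |Phi F (N - (l + 1)) 0 - Phi F N 0| else 1)

private theorem c4k_bd (F : Law) (N l : ℕ) :
    |c4b F (l + 1)| * (if l < N then |Phi F (N - (l + 1)) 0 - Phi F N 0| else 1) ≤ |c4b F (l + 1)| * 2 := by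
  refine mul_le_mul_of_nonneg_left ?_ (abs_nonneg _)
  split_ifs
  · refine (abs_sub _ _).trans ?_
    have h1 := c4_Phi F 0 (N - (l + 1))
    have h2 := c4_Phi F 0 N
    linarith
  · norm_num

private theorem c4k_nn (F : Law) (N l : ℕ) :
    0 ≤ |c4b F (l + 1)| * (if l < N then |Phi F (N - (l + 1)) 0 - Phi F N 0| else 1) := by
  refine mul_nonneg (abs_nonneg _) ?_
  split_ifs
  · exact abs_nonneg _
  · norm_num

private theorem c4k_tendsto (F : Law) : Tendsto (c4k F) atTop (nhds 0) := by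
  have h0 : (∑' _ : ℕ, (0 : ℝ)) = 0 := tsum_zero
  rw [← h0]
  unfold c4k
  refine tendsto_tsum_of_dominated_convergence (bound := fun l => |c4b F (l + 1)| * 2)
    ((c4b_summable' F).mul_right 2) ?_ ?_
  · intro l
    have h1 : Tendsto (fun N : ℕ => |c4b F (l + 1)| * |Phi F (N - (l + 1)) 0 - Phi F N 0|) atTop
        (nhds (|c4b F (l + 1)| * |1 / mu F - 1 / mu F|)) := by
      refine Tendsto.const_mul _ (Tendsto.abs ?_)
      exact ((renewal F).comp (tendsto_sub_atTop_nat (l + 1))).sub (renewal F)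
    rw [sub_self, abs_zero, mul_zero] at h1
    refine h1.congr' ?_
    filter_upwards [eventually_gt_atTop l] with N hN
    rw [if_pos hN]
  · refine Filter.Eventually.of_forall fun N l => ?_
    rw [Real.norm_eq_abs, abs_of_nonneg (c4k_nn F N l)]
    exact c4k_bd F N l

private theorem c4_E (F : Law) : ∃ C : ℝ, 0 ≤ C ∧ ∀ (t : ℝ) (m : ℕ),
    |c4E F (s2 F * t ^ 2 / 2) t m| ≤ t ^ 2 * c4k F (m + 1) + t ^ 4 * C := by
  have hs := s2_pos F
  set Cb : ℝ := ∑' l : ℕ, ((l + 1 : ℕ) : ℝ) * |c4b F (l + 1)| with hCb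
  set Cr : ℝ := ∑' l : ℕ, c4r F (l + 1) with hCr
  have hCb0 : 0 ≤ Cb := tsum_nonneg fun l => by positivity
  have hCr0 : 0 ≤ Cr := tsum_nonneg fun l => c4r_nonneg F _
  refine ⟨s2 F / 2 * Cb + Cr, by positivity, ?_⟩
  intro t m
  set c : ℝ := s2 F * t ^ 2 / 2 with hc
  have hc0 : 0 ≤ c := by positivity
  set v : ℕ → ℝ := c4v F c with hv
  have hv1 : ∀ n, |v n| ≤ 1 := c4v_abs F hc0
  have hsplit : c4E F c t m =
      ∑ l ∈ Finset.range (m + 1), (phi F (l + 1) t - len F (l + 1) * Real.exp (-(c * (l + 1 : ℕ)))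
        - t ^ 2 * c4b F (l + 1)) * v (m - l) +
      t ^ 2 * (∑ l ∈ Finset.range (m + 1), c4b F (l + 1) * (v (m - l) - v (m + 1)) +
        v (m + 1) * ∑ l ∈ Finset.range (m + 1), c4b F (l + 1)) := by
    unfold c4E
    rw [Finset.mul_sum, ← Finset.sum_add_distrib, Finset.mul_sum, ← Finset.sum_add_distrib]
    refine Finset.sum_congr rfl fun l _ => ?_
    ring
  -- the remainder
  have hR : |∑ l ∈ Finset.range (m + 1), (phi F (l + 1) t - len F (l + 1) * Real.exp (-(c * (l + 1 : ℕ)))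
        - t ^ 2 * c4b F (l + 1)) * v (m - l)| ≤ t ^ 4 * Cr := by
    refine (Finset.abs_sum_le_sum_abs _ _).trans ?_
    calc _ ≤ ∑ l ∈ Finset.range (m + 1), t ^ 4 * c4r F (l + 1) := by
          refine Finset.sum_le_sum fun l _ => ?_
          rw [abs_mul]
          calc _ ≤ t ^ 4 * c4r F (l + 1) * 1 :=
                mul_le_mul (c4_eps F t (l + 1)) (hv1 _) (abs_nonneg _)
                  (mul_nonneg (by positivity) (c4r_nonneg F _))
            _ = _ := mul_one _
      _ = t ^ 4 * ∑ l ∈ Finset.range (m + 1), c4r F (l + 1) := by rw [Finset.mul_sum]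
      _ ≤ _ := mul_le_mul_of_nonneg_left
          ((c4r_summable F).sum_le_tsum _ fun l _ => c4r_nonneg F _) (by positivity)
  -- the differences
  have hD : |∑ l ∈ Finset.range (m + 1), c4b F (l + 1) * (v (m - l) - v (m + 1))| ≤
      ∑ l ∈ Finset.range (m + 1), |c4b F (l + 1)| * |Phi F (m + 1 - (l + 1)) 0 - Phi F (m + 1) 0| + c * Cb := by
    refine (Finset.abs_sum_le_sum_abs _ _).trans ?_
    have h1 : ∀ l ∈ Finset.range (m + 1), |c4b F (l + 1) * (v (m - l) - v (m + 1))| ≤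
        |c4b F (l + 1)| * |Phi F (m + 1 - (l + 1)) 0 - Phi F (m + 1) 0| +
          c * (((l + 1 : ℕ) : ℝ) * |c4b F (l + 1)|) := by
      intro l hl
      rw [Finset.mem_range] at hl
      rw [abs_mul]
      have h2 := c4v_diff F hc0 (i := l + 1) (n := m + 1) (by omega)
      have h3 : m + 1 - (l + 1) = m - l := by omega
      rw [h3] at h2 ⊢
      have h4 := mul_le_mul_of_nonneg_left h2 (abs_nonneg (c4b F (l + 1)))
      refine h4.trans (le_of_eq ?_)
      ring
    refine (Finset.sum_le_sum h1).trans ?_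
    rw [Finset.sum_add_distrib, ← Finset.mul_sum]
    refine add_le_add le_rfl (mul_le_mul_of_nonneg_left ?_ hc0)
    exact (c4b_summable F).sum_le_tsum _ fun l _ => by positivity
  -- the tail
  have hT : |∑ l ∈ Finset.range (m + 1), c4b F (l + 1)| ≤ ∑' l : ℕ, |c4b F (l + 1 + (m + 1))| := by
    have h1 := (c4b_hasSum F).summable.sum_add_tsum_nat_add (m + 1)
    rw [(c4b_hasSum F).tsum_eq] at h1
    have h2 : ∑ l ∈ Finset.range (m + 1), c4b F (l + 1) = - ∑' l : ℕ, c4b F (l + (m + 1) + 1) := by linarith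
    rw [h2, abs_neg]
    have h3 : Summable fun l : ℕ => |c4b F (l + (m + 1) + 1)| :=
      (summable_nat_add_iff (f := fun l : ℕ => |c4b F (l + 1)|) (m + 1)).mpr (c4b_summable' F)
    have h4 := norm_tsum_le_tsum_norm (f := fun l : ℕ => c4b F (l + (m + 1) + 1)) h3
    rw [Real.norm_eq_abs] at h4
    refine h4.trans (le_of_eq ?_)
    refine tsum_congr fun l => ?_
    rw [Real.norm_eq_abs]
    congr 2
    omega
  -- `κ`
  have hk : ∑ l ∈ Finset.range (m + 1), |c4b F (l + 1)| * |Phi F (m + 1 - (l + 1)) 0 - Phi F (m + 1) 0| +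
      ∑' l : ℕ, |c4b F (l + 1 + (m + 1))| = c4k F (m + 1) := by
    have hsum : Summable fun l : ℕ =>
        |c4b F (l + 1)| * (if l < m + 1 then |Phi F (m + 1 - (l + 1)) 0 - Phi F (m + 1) 0| else 1) :=
      Summable.of_nonneg_of_le (c4k_nn F (m + 1)) (c4k_bd F (m + 1)) ((c4b_summable' F).mul_right 2)
    unfold c4k
    rw [← hsum.sum_add_tsum_nat_add (m + 1)]
    congr 1
    · refine Finset.sum_congr rfl fun l hl => ?_
      rw [Finset.mem_range] at hl
      rw [if_pos hl]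
    · refine tsum_congr fun l => ?_
      rw [if_neg (by omega), mul_one]
      congr 2
      omega
  rw [hsplit]
  refine (abs_add_le _ _).trans ?_
  rw [abs_mul (t ^ 2), abs_of_nonneg (show 0 ≤ t ^ 2 by positivity)]
  have h5 : |∑ l ∈ Finset.range (m + 1), c4b F (l + 1) * (v (m - l) - v (m + 1)) +
        v (m + 1) * ∑ l ∈ Finset.range (m + 1), c4b F (l + 1)| ≤ c4k F (m + 1) + c * Cb := by
    refine (abs_add_le _ _).trans ?_
    rw [abs_mul (v (m + 1))]
    have h6 : |v (m + 1)| * |∑ l ∈ Finset.range (m + 1), c4b F (l + 1)| ≤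
        ∑' l : ℕ, |c4b F (l + 1 + (m + 1))| :=
      (mul_le_of_le_one_left (abs_nonneg _) (hv1 _)).trans hT
    linarith
  have h6 := mul_le_mul_of_nonneg_left h5 (show 0 ≤ t ^ 2 by positivity)
  calc _ ≤ t ^ 4 * Cr + t ^ 2 * (c4k F (m + 1) + c * Cb) := add_le_add hR h6
    _ = _ := by
      rw [hc]
      ring

theorem phi_lim (F : Law) (s : ℝ) : Tendsto (fun n : ℕ => Phi F n (s / Real.sqrt n)) atTop
    (nhds (Real.exp (-(s2 F * s ^ 2 / 2)) / mu F)) := by
  obtain ⟨C, hC, hE⟩ := c4_E F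
  have h1 : Tendsto (fun n : ℕ => Real.exp (-(s2 F * s ^ 2 / 2)) * Phi F n 0) atTop
      (nhds (Real.exp (-(s2 F * s ^ 2 / 2)) * (1 / mu F))) := (renewal F).const_mul _
  have h2 : Tendsto (fun n : ℕ => Phi F n (s / Real.sqrt n) - Real.exp (-(s2 F * s ^ 2 / 2)) * Phi F n 0) atTop
      (nhds 0) := by
    have hces : Tendsto (fun n : ℕ => s ^ 2 * ((n : ℝ)⁻¹ * ∑ m ∈ Finset.range n, c4k F (m + 1)) +
        s ^ 4 * C * (n : ℝ)⁻¹) atTop (nhds (s ^ 2 * 0 + s ^ 4 * C * 0)) := by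
      refine Tendsto.add (Tendsto.const_mul _ ?_) (Tendsto.const_mul _ ?_)
      · exact ((tendsto_add_atTop_iff_nat 1).mpr (c4k_tendsto F)).cesaro
      · exact tendsto_inv_atTop_nhds_zero_nat
    rw [mul_zero, mul_zero, add_zero] at hces
    refine squeeze_zero_norm' ?_ hces
    filter_upwards [eventually_ge_atTop 1] with n hn
    have hn0 : (0 : ℝ) < n := by exact_mod_cast hn
    have hsn : Real.sqrt n ^ 2 = n := Real.sq_sqrt hn0.le
    set t : ℝ := s / Real.sqrt n with ht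
    have ht2 : t ^ 2 = s ^ 2 * (n : ℝ)⁻¹ := by
      rw [ht, div_pow, hsn, div_eq_mul_inv]
    have hv : c4v F (s2 F * t ^ 2 / 2) n = Real.exp (-(s2 F * s ^ 2 / 2)) * Phi F n 0 := by
      unfold c4v
      congr 3
      rw [ht2]
      field_simp
    rw [Real.norm_eq_abs, ← hv]
    refine (c4_D F _ t n).trans ?_
    calc ∑ m ∈ Finset.range n, |c4E F (s2 F * t ^ 2 / 2) t m|
        ≤ ∑ m ∈ Finset.range n, (t ^ 2 * c4k F (m + 1) + t ^ 4 * C) := Finset.sum_le_sum fun m _ => hE t m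
      _ = t ^ 2 * ∑ m ∈ Finset.range n, c4k F (m + 1) + n * (t ^ 4 * C) := by
          rw [Finset.sum_add_distrib, ← Finset.mul_sum, Finset.sum_const, Finset.card_range, nsmul_eq_mul]
      _ = _ := by
          have ht4 : t ^ 4 = s ^ 4 * (n : ℝ)⁻¹ * (n : ℝ)⁻¹ := by
            rw [show t ^ 4 = t ^ 2 * t ^ 2 by ring, ht2]
            ring
          rw [ht2, ht4]
          field_simp
  have h3 := h1.add h2
  rw [add_zero] at h3
  rw [show Real.exp (-(s2 F * s ^ 2 / 2)) / mu F = Real.exp (-(s2 F * s ^ 2 / 2)) * (1 / mu F) by ring]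
  refine h3.congr fun n => ?_
  ring

end Pool.Agent.Helper18.WK
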