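import Pool.Agent.Helper18.WK.SplitA

/-!
# Project WK, block WK-S1, second part: symmetries, monotonicity and total masses of the chains
-/

open scoped ENNReal

namespace Pool.Agent.Helper18.WK

theorem g_symm (K : Ker) (hK : ∀ x l z, K x l z = K z l x) (n : ℕ) (x y : ℤ) :
    G K n x y = G K n y x := by
  induction n using Nat.strong_induction_on generalizing x y with
  | _ n ih =>
    match n, ih with
    | 0, _ =>
      rw [G_zero, G_zero]
      simp only [eq_comm]
    | n + 1, ih =>
      rw [G_succ, g_right K n y x, ← Finset.sum_range_reflect]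
      refine Finset.sum_congr rfl fun l hl => ?_
      have hl' := Finset.mem_range.1 hl
      refine tsum_congr fun z => ?_
      have e1 : n + 1 - 1 - l = n - l := by omega
      have e2 : n - (n - l) = l := by omega
      have e3 : n - l + 1 = n + 1 - l := by omega
      rw [e1, e2, e3, hK x (n + 1 - l) z, ih l hl' z y, mul_comm]

theorem g_transl (F : Law) (n : ℕ) (x y c : ℤ) : G (K0 F) n (x + c) (y + c) = G (K0 F) n x y := by
  induction n using Nat.strong_induction_on generalizing x y with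
  | _ n ih =>
    match n, ih with
    | 0, _ =>
      rw [G_zero, G_zero]
      simp only [add_left_inj]
    | n + 1, ih =>
      rw [G_succ, G_succ]
      refine Finset.sum_congr rfl fun l hl => ?_
      have hl' := Finset.mem_range.1 hl
      rw [← (Equiv.addRight c).tsum_eq]
      refine tsum_congr fun z => ?_
      rw [Equiv.coe_addRight, ih (n - l) (by omega) z y]
      congr 1
      show ENNReal.ofReal (F.f (l + 1) (z + c - (x + c))) = ENNReal.ofReal (F.f (l + 1) (z - x))
      rw [add_sub_add_right_eq_sub]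

theorem g_refl (F : Law) (n : ℕ) (x y : ℤ) : G (K0 F) n (-x) (-y) = G (K0 F) n x y := by
  induction n using Nat.strong_induction_on generalizing x y with
  | _ n ih =>
    match n, ih with
    | 0, _ =>
      rw [G_zero, G_zero]
      simp only [neg_inj]
    | n + 1, ih =>
      rw [G_succ, G_succ]
      refine Finset.sum_congr rfl fun l hl => ?_
      have hl' := Finset.mem_range.1 hl
      rw [← (Equiv.neg ℤ).tsum_eq]
      refine tsum_congr fun z => ?_
      rw [Equiv.neg_apply, ih (n - l) (by omega) z y]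
      congr 1
      show ENNReal.ofReal (F.f (l + 1) (-z - -x)) = ENNReal.ofReal (F.f (l + 1) (z - x))
      rw [← F.f_symm (l + 1) (z - x), neg_sub, neg_sub_neg]

theorem g_mono {K K' : Ker} (h : ∀ x l z, K x l z ≤ K' x l z) (n : ℕ) (x y : ℤ) :
    G K n x y ≤ G K' n x y := by
  induction n using Nat.strong_induction_on generalizing x with
  | _ n ih =>
    match n, ih with
    | 0, _ => rw [G_zero, G_zero]
    | n + 1, ih =>
      rw [G_succ, G_succ]
      exact Finset.sum_le_sum fun l _ => ENNReal.tsum_le_tsum fun z =>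
        mul_le_mul' (h x (l + 1) z) (ih (n - l) (by omega) z)

theorem fst_mono {K K' : Ker} (h : ∀ x l z, K x l z ≤ K' x l z) (m : ℕ) (x : ℤ) (a : ℕ) (z : ℤ) :
    Fst K m x a z ≤ Fst K' m x a z := by
  induction m using Nat.strong_induction_on generalizing x a with
  | _ m ih =>
    match m, ih with
    | 0, _ => rw [Fst_zero, Fst_zero]
    | m + 1, ih =>
      rw [Fst_succ, Fst_succ]
      exact Finset.sum_le_sum fun l _ => ENNReal.tsum_le_tsum fun z' =>
        mul_le_mul' (h x (l + 1) z') (ih (m - l) (by omega) z' (a - (l + 1)))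

theorem q_mono {K K' : Ker} (h : ∀ x l z, K x l z ≤ K' x l z) (n : ℕ) (x : ℤ) :
    Q K n x ≤ Q K' n x := by
  induction n using Nat.strong_induction_on generalizing x with
  | _ n ih =>
    match n, ih with
    | 0, _ => rw [Q_zero, Q_zero]
    | n + 1, ih =>
      rw [Q_succ, Q_succ]
      exact ENNReal.tsum_le_tsum fun l => ENNReal.tsum_le_tsum fun z =>
        mul_le_mul' (h x (l + 1) z) (ih (n - l) (by omega) z)

/-- the pieces have total mass 1 -/
private theorem mass24 (F : Law) (x : ℤ) : ∑' l : ℕ, ∑' z : ℤ, K0 F x (l + 1) z = 1 := by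
  have h1 : ∑' p : ℕ × ℤ, ENNReal.ofReal (F.f p.1 p.2) = 1 := by
    rw [← ENNReal.ofReal_tsum_of_nonneg (f := fun p : ℕ × ℤ => F.f p.1 p.2)
      (fun p => F.f_nonneg p.1 p.2) F.f_sum.summable, F.f_sum.tsum_eq, ENNReal.ofReal_one]
  have h2 : ∀ l : ℕ, ∑' z : ℤ, K0 F x (l + 1) z = ∑' z : ℤ, ENNReal.ofReal (F.f (l + 1) z) := by
    intro l
    exact (Equiv.subRight x).tsum_eq (fun z : ℤ => ENNReal.ofReal (F.f (l + 1) z))
  have h4 : ∑' p : ℕ × ℤ, ENNReal.ofReal (F.f p.1 p.2) =
      ∑' l : ℕ, ∑' z : ℤ, ENNReal.ofReal (F.f l z) :=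
    ENNReal.tsum_prod (f := fun (l : ℕ) (z : ℤ) => ENNReal.ofReal (F.f l z))
  rw [tsum_congr h2, ← h1, h4]
  have hinj : Function.Injective (fun b : ℕ => b + 1) := fun a b hab => by
    have : a + 1 = b + 1 := hab
    omega
  refine hinj.tsum_eq (f := fun l : ℕ => ∑' z : ℤ, ENNReal.ofReal (F.f l z)) ?_
  intro a ha
  rw [Function.mem_support] at ha
  rcases Nat.eq_zero_or_pos a with h0 | h0
  · exfalso
    apply ha
    have h3 : ∀ z : ℤ, ENNReal.ofReal (F.f a z) = 0 := by
      intro z
      rw [h0, F.f_zero, ENNReal.ofReal_zero]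
    show ∑' z : ℤ, ENNReal.ofReal (F.f a z) = 0
    rw [tsum_congr h3, tsum_zero]
  · exact ⟨a - 1, by show a - 1 + 1 = a; omega⟩

theorem q_K0 (F : Law) (n : ℕ) (x : ℤ) : Q (K0 F) n x = 1 := by
  induction n using Nat.strong_induction_on generalizing x with
  | _ n ih =>
    match n, ih with
    | 0, _ => rw [Q_zero]
    | n + 1, ih =>
      rw [Q_succ, ← mass24 F x]
      refine tsum_congr fun l => tsum_congr fun z => ?_
      rw [ih (n - l) (by omega) z, mul_one]

/-- total mass of the chains of length `n` -/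
theorem g_sum_le (F : Law) (n : ℕ) (x : ℤ) : ∑' y : ℤ, G (K0 F) n x y ≤ 1 := by
  induction n using Nat.strong_induction_on generalizing x with
  | _ n ih =>
    match n, ih with
    | 0, _ =>
      rw [tsum_eq_single x]
      · rw [G_zero, if_pos rfl]
      · intro b hb
        rw [G_zero, if_neg (Ne.symm hb)]
    | n + 1, ih =>
      have h1 : ∑' y : ℤ, G (K0 F) (n + 1) x y = ∑ l ∈ Finset.range (n + 1), ∑' z : ℤ,
          K0 F x (l + 1) z * ∑' y : ℤ, G (K0 F) (n - l) z y := by
        rw [tsum_congr fun y => G_succ (K0 F) n x y,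
          Summable.tsum_finsetSum fun _ _ => ENNReal.summable]
        refine Finset.sum_congr rfl fun l _ => ?_
        rw [ENNReal.tsum_comm]
        refine tsum_congr fun z => ?_
        rw [ENNReal.tsum_mul_left]
      rw [h1]
      calc ∑ l ∈ Finset.range (n + 1), ∑' z : ℤ,
            K0 F x (l + 1) z * ∑' y : ℤ, G (K0 F) (n - l) z y
          ≤ ∑ l ∈ Finset.range (n + 1), ∑' z : ℤ, K0 F x (l + 1) z := by
            refine Finset.sum_le_sum fun l _ => ENNReal.tsum_le_tsum fun z => ?_
            calc K0 F x (l + 1) z * ∑' y : ℤ, G (K0 F) (n - l) z y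
                ≤ K0 F x (l + 1) z * 1 := mul_le_mul' le_rfl (ih (n - l) (by omega) z)
              _ = K0 F x (l + 1) z := mul_one _
        _ ≤ ∑' l : ℕ, ∑' z : ℤ, K0 F x (l + 1) z := ENNReal.sum_le_tsum _
        _ = 1 := mass24 F x

theorem kp_le (F : Law) (x : ℤ) (l : ℕ) (z : ℤ) : Kp F x l z ≤ K0 F x l z := by
  unfold Kp K0
  split_ifs
  · exact le_rfl
  · exact zero_le

theorem kd_le (F : Law) {δ : ℝ} (h0 : 0 < δ) (x : ℤ) (l : ℕ) (z : ℤ) :
    Kd F δ x l z ≤ K0 F x l z := by
  unfold Kd K0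
  split_ifs with h
  · obtain ⟨hx, hz, hl⟩ := h
    subst hx hz hl
    rw [sub_zero]
    refine ENNReal.ofReal_le_ofReal ?_
    have h1 := F.f_nonneg 1 0
    nlinarith
  · exact le_rfl

theorem k0_symm (F : Law) (x : ℤ) (l : ℕ) (z : ℤ) : K0 F x l z = K0 F z l x := by
  unfold K0
  rw [← F.f_symm l (z - x), neg_sub]

theorem kp_symm (F : Law) (x : ℤ) (l : ℕ) (z : ℤ) : Kp F x l z = Kp F z l x := by
  unfold Kp
  rw [← F.f_symm l (z - x), neg_sub]
  simp only [and_comm]

theorem kd_symm (F : Law) (δ : ℝ) (x : ℤ) (l : ℕ) (z : ℤ) : Kd F δ x l z = Kd F δ z l x := by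
  unfold Kd
  rw [← F.f_symm l (z - x), neg_sub]
  by_cases h : x = 0 ∧ z = 0 ∧ l = 1
  · rw [if_pos h, if_pos ⟨h.2.1, h.1, h.2.2⟩]
  · rw [if_neg h, if_neg (fun hc => h ⟨hc.2.1, hc.1, hc.2.2⟩)]

end Pool.Agent.Helper18.WK
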